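import Pool.Agent.Zk11.QD.Resid

/-! The abstract estimate. -/

set_option autoImplicit false
set_option linter.unusedSectionVars false

open scoped BigOperators
open MeasureTheory

namespace Pool.Agent.Zk11.QD

variable {Λ : Type} [Fintype Λ] [DecidableEq Λ]

/-- the law -/
noncomputable abbrev PL (Λ : Type) [Fintype Λ] (μ : Measure ℝ) : Measure (Λ → ℝ) :=
  Measure.pi fun _ : Λ => μ

/-- properties of the normalized single-site transition function -/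
structure Good (μ : Measure ℝ) (h : ℝ → ℂ) (B : ℝ) : Prop where
  meas : Measurable h
  one_le : 1 ≤ B
  bd : ∀ᵐ s ∂μ, ‖h s‖ ≤ B
  mean : ∫ s, h s ∂μ = 0
  var : ∫ s, h s * (starRingEnd ℂ) (h s) ∂μ = 1

theorem ut_eq (M : Λ → Λ → ℂ) (τ : ℝ) (o : Λ) (h : ℝ → ℂ) (N : ℕ) (V : Λ → ℝ) (x : Λ) :
    ut M τ o h N V x = ch h (fun S => ∑ n ∈ Finset.range (N + 1), (-1) ^ n * cf M τ o n x S) V := by
  unfold ut
  exact ch_lin h _ (fun n => (-1) ^ n) (fun n => cf M τ o n x) V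

theorem ut_sq (μ : Measure ℝ) [IsProbabilityMeasure μ] (h : ℝ → ℂ) (B : ℝ) (hg : Good μ h B)
    (M : Λ → Λ → ℂ) (τ : ℝ) (o : Λ) (N : ℕ) (x : Λ) :
    Integrable (fun V => ‖ut M τ o h N V x‖ ^ 2) (PL Λ μ) ∧
    ∫ V, ‖ut M τ o h N V x‖ ^ 2 ∂(PL Λ μ) =
      ∑ n ∈ Finset.range (N + 1), ∑ S : Finset Λ, ‖cf M τ o n x S‖ ^ 2 := by
  simp only [ut_eq]
  refine ⟨ch_sq_int μ h hg.meas B hg.one_le hg.bd _, ?_⟩
  rw [ch_sq μ h hg.meas B hg.one_le hg.bd hg.mean hg.var, Finset.sum_comm]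
  refine Finset.sum_congr rfl fun S _ => ?_
  exact sum_level (fun n S => cf M τ o n x S) 0 (fun n S hS => cf_card M τ o n x S (by simpa using hS))
    (fun n => (-1) ^ n) (fun n => by simp) (N + 1) S

theorem ut_meas (h : ℝ → ℂ) (hm : Measurable h) (M : Λ → Λ → ℂ) (τ : ℝ) (o : Λ) (N : ℕ) (x : Λ) :
    Measurable (fun V => ut M τ o h N V x) := by
  simp only [ut_eq]
  exact ch_meas h hm _

/-- the weighted mass of the truncated expansion -/
theorem ut_mass (μ : Measure ℝ) [IsProbabilityMeasure μ] (h : ℝ → ℂ) (B : ℝ) (hg : Good μ h B)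
    (M : Λ → Λ → ℂ) (τ : ℝ) (o : Λ) (N : ℕ) (χ : Λ → ℂ) :
    ∑ x, χ x * ((∫ V, ‖ut M τ o h N V x‖ ^ 2 ∂(PL Λ μ) : ℝ) : ℂ) =
      ∑ n ∈ Finset.range (N + 1), AA M τ o χ n := by
  unfold AA
  rw [Finset.sum_comm]
  refine Finset.sum_congr rfl fun x _ => ?_
  rw [(ut_sq μ h B hg M τ o N x).2]
  push_cast
  rw [Finset.mul_sum]

theorem ut_mass_one (μ : Measure ℝ) [IsProbabilityMeasure μ] (h : ℝ → ℂ) (B : ℝ) (hg : Good μ h B)
    (M : Λ → Λ → ℂ) (τ : ℝ) (o : Λ) (N : ℕ) :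
    ∑ x, ∫ V, ‖ut M τ o h N V x‖ ^ 2 ∂(PL Λ μ) = ∑ n ∈ Finset.range (N + 1), FF M τ o n := by
  unfold FF
  rw [Finset.sum_comm]
  refine Finset.sum_congr rfl fun x _ => ?_
  rw [(ut_sq μ h B hg M τ o N x).2]

/-- the residual -/
noncomputable def rs (A M : Λ → Λ → ℂ) (τ : ℝ) (o : Λ) (h v : ℝ → ℂ) (N : ℕ) (V : Λ → ℝ) (x : Λ) :
    ℂ :=
  (∑ y, A x y * ut M τ o h N V y) + v (V x) * ut M τ o h N V x - (if x = o then 1 else 0)

/-- the residual is small -/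
theorem rs_sq (μ : Measure ℝ) [IsProbabilityMeasure μ] (h : ℝ → ℂ) (B : ℝ) (hg : Good μ h B)
    (v : ℝ → ℂ) (hv : Measurable v) (A M : Λ → Λ → ℂ) (m : ℂ) (τ : ℝ) (o : Λ)
    (hAM : ∀ x w, ∑ y, A x y * M y w = if x = w then 1 else 0) (hm : ∀ x, M x x = m)
    (Z W : ℝ) (hZ : ∀ᵐ s ∂μ, ‖v s - τ * h s * (1 + m * v s)‖ ≤ Z) (hW : ∀ᵐ s ∂μ, ‖v s‖ ≤ W)
    (N : ℕ) (κ : ℝ) (hκ : ∀ x w, ∑ y, ‖M x y‖ ^ 2 * ‖M y w‖ ^ 2 ≤ κ) :
    (∀ x, Integrable (fun V => ‖rs A M τ o h v N V x‖ ^ 2) (PL Λ μ)) ∧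
    ∑ x, ∫ V, ‖rs A M τ o h v N V x‖ ^ 2 ∂(PL Λ μ) ≤
      3 * (Z ^ 2 * ∑ n ∈ Finset.range N, FF M τ o n + W ^ 2 * FF M τ o N +
        W ^ 2 * ∑ n ∈ Finset.range N, (n : ℝ) ^ 3 * (τ ^ 4 * κ) * FF M τ o (n - 1)) := by
  have hd : ∀ V x, rs A M τ o h v N V x =
      (v (V x) - τ * h (V x) * (1 + m * v (V x))) *
        ch h (fun S => ∑ n ∈ Finset.range N, (-1) ^ n * cB M τ o n x S) V +
      v (V x) * ch h (cB M τ o N x) V * (-1) ^ N +
      v (V x) * ch h (fun S => ∑ n ∈ Finset.range N, (-1) ^ (n + 1) * cR M m τ o n x S) V := by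
    intro V x
    unfold rs
    rw [resid A M m τ o h v hAM N V x, ch_lin h _ (fun n => (-1) ^ n) (fun n => cB M τ o n x),
      ch_lin h _ (fun n => (-1) ^ (n + 1)) (fun n => cR M m τ o n x)]
    ring
  have t1 := fun x => ch_mul_sq (Λ := Λ) μ h hg.meas B hg.one_le hg.bd hg.mean hg.var
    (fun S => ∑ n ∈ Finset.range N, (-1) ^ n * cB M τ o n x S)
    (fun s => v s - τ * h s * (1 + m * v s))
    (hv.sub ((hg.meas.const_mul _).mul ((hv.const_mul _).const_add _))) Z hZ x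
  have t2 := fun x => ch_mul_sq (Λ := Λ) μ h hg.meas B hg.one_le hg.bd hg.mean hg.var
    (cB M τ o N x) v hv W hW x
  have t3 := fun x => ch_mul_sq (Λ := Λ) μ h hg.meas B hg.one_le hg.bd hg.mean hg.var
    (fun S => ∑ n ∈ Finset.range N, (-1) ^ (n + 1) * cR M m τ o n x S) v hv W hW x
  have hle : ∀ V x, ‖rs A M τ o h v N V x‖ ^ 2 ≤
      3 * (‖(v (V x) - τ * h (V x) * (1 + m * v (V x))) *
        ch h (fun S => ∑ n ∈ Finset.range N, (-1) ^ n * cB M τ o n x S) V‖ ^ 2 +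
      ‖v (V x) * ch h (cB M τ o N x) V‖ ^ 2 +
      ‖v (V x) * ch h (fun S => ∑ n ∈ Finset.range N, (-1) ^ (n + 1) * cR M m τ o n x S) V‖ ^ 2)
      := by
    intro V x
    rw [hd]
    set a := (v (V x) - τ * h (V x) * (1 + m * v (V x))) *
        ch h (fun S => ∑ n ∈ Finset.range N, (-1) ^ n * cB M τ o n x S) V
    set b := v (V x) * ch h (cB M τ o N x) V
    set c := v (V x) * ch h (fun S => ∑ n ∈ Finset.range N, (-1) ^ (n + 1) * cR M m τ o n x S) V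
    have h1 : ‖a + b * (-1) ^ N + c‖ ≤ ‖a‖ + ‖b‖ + ‖c‖ := by
      refine (norm_add_le _ _).trans ?_
      have h2 := norm_add_le a (b * (-1) ^ N)
      have h3 : ‖b * (-1) ^ N‖ = ‖b‖ := by simp
      rw [h3] at h2
      linarith
    have h2 := pow_le_pow_left₀ (norm_nonneg _) h1 2
    refine h2.trans ?_
    nlinarith [sq_nonneg (‖a‖ - ‖b‖), sq_nonneg (‖a‖ - ‖c‖), sq_nonneg (‖b‖ - ‖c‖)]
  have hI3 : ∀ x, Integrable (fun V =>
      3 * (‖(v (V x) - τ * h (V x) * (1 + m * v (V x))) *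
        ch h (fun S => ∑ n ∈ Finset.range N, (-1) ^ n * cB M τ o n x S) V‖ ^ 2 +
      ‖v (V x) * ch h (cB M τ o N x) V‖ ^ 2 +
      ‖v (V x) * ch h (fun S => ∑ n ∈ Finset.range N, (-1) ^ (n + 1) * cR M m τ o n x S) V‖ ^ 2))
      (PL Λ μ) := fun x => (((t1 x).1.add (t2 x).1).add (t3 x).1).const_mul 3
  have hmeas : ∀ x, Measurable (fun V => rs A M τ o h v N V x) := by
    intro x
    unfold rs
    exact ((Finset.measurable_sum _ fun y _ => (ut_meas h hg.meas M τ o N y).const_mul _).add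
      ((hv.comp (measurable_pi_apply x)).mul (ut_meas h hg.meas M τ o N x))).sub measurable_const
  have hint : ∀ x, Integrable (fun V => ‖rs A M τ o h v N V x‖ ^ 2) (PL Λ μ) := by
    intro x
    refine Integrable.mono' (hI3 x) ((hmeas x).norm.pow_const 2).aestronglyMeasurable ?_
    refine Filter.Eventually.of_forall fun V => ?_
    rw [Real.norm_eq_abs, abs_of_nonneg (by positivity)]
    exact hle V x
  refine ⟨hint, ?_⟩
  have hx : ∀ x, ∫ V, ‖rs A M τ o h v N V x‖ ^ 2 ∂(PL Λ μ) ≤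
      3 * (Z ^ 2 * ∑ n ∈ Finset.range N, ∑ S : Finset Λ, ‖cB M τ o n x S‖ ^ 2 +
        W ^ 2 * ∑ S : Finset Λ, ‖cB M τ o N x S‖ ^ 2 +
        W ^ 2 * ∑ n ∈ Finset.range N, ∑ S : Finset Λ, ‖cR M m τ o n x S‖ ^ 2) := by
    intro x
    have h1 := integral_mono (hint x) (hI3 x) (fun V => hle V x)
    have h2 : ∫ V, 3 * (‖(v (V x) - τ * h (V x) * (1 + m * v (V x))) *
        ch h (fun S => ∑ n ∈ Finset.range N, (-1) ^ n * cB M τ o n x S) V‖ ^ 2 +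
      ‖v (V x) * ch h (cB M τ o N x) V‖ ^ 2 +
      ‖v (V x) * ch h (fun S => ∑ n ∈ Finset.range N, (-1) ^ (n + 1) * cR M m τ o n x S) V‖ ^ 2)
        ∂(PL Λ μ) =
      3 * (∫ V, ‖(v (V x) - τ * h (V x) * (1 + m * v (V x))) *
        ch h (fun S => ∑ n ∈ Finset.range N, (-1) ^ n * cB M τ o n x S) V‖ ^ 2 ∂(PL Λ μ) +
      ∫ V, ‖v (V x) * ch h (cB M τ o N x) V‖ ^ 2 ∂(PL Λ μ) +
      ∫ V, ‖v (V x) * ch h (fun S => ∑ n ∈ Finset.range N, (-1) ^ (n + 1) *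
        cR M m τ o n x S) V‖ ^ 2 ∂(PL Λ μ)) := by
      rw [integral_const_mul]
      congr 1
      have e1 := integral_add ((t1 x).1.add (t2 x).1) (t3 x).1
      have e2 := integral_add (t1 x).1 (t2 x).1
      simp only [Pi.add_apply] at e1
      rw [e1, e2]
    have h3 : ∑ S : Finset Λ, ‖∑ n ∈ Finset.range N, (-1 : ℂ) ^ n * cB M τ o n x S‖ ^ 2 =
        ∑ n ∈ Finset.range N, ∑ S : Finset Λ, ‖cB M τ o n x S‖ ^ 2 := by
      rw [Finset.sum_comm]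
      refine Finset.sum_congr rfl fun S _ => ?_
      exact sum_level (fun n S => cB M τ o n x S) 0
        (fun n S hS => cB_card M τ o n x S (by simpa using hS))
        (fun n => (-1) ^ n) (fun n => by simp) N S
    have h4 : ∑ S : Finset Λ, ‖∑ n ∈ Finset.range N, (-1 : ℂ) ^ (n + 1) * cR M m τ o n x S‖ ^ 2 =
        ∑ n ∈ Finset.range N, ∑ S : Finset Λ, ‖cR M m τ o n x S‖ ^ 2 := by
      rw [Finset.sum_comm]
      refine Finset.sum_congr rfl fun S _ => ?_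
      exact sum_level (fun n S => cR M m τ o n x S) 1
        (fun n S hS => cR_card M m τ o n x S hS)
        (fun n => (-1) ^ (n + 1)) (fun n => by simp) N S
    have h5 := (t1 x).2
    have h6 := (t2 x).2
    have h7 := (t3 x).2
    rw [h3] at h5
    rw [h4] at h7
    rw [h2] at h1
    linarith
  calc ∑ x, ∫ V, ‖rs A M τ o h v N V x‖ ^ 2 ∂(PL Λ μ)
      ≤ ∑ x, 3 * (Z ^ 2 * ∑ n ∈ Finset.range N, ∑ S : Finset Λ, ‖cB M τ o n x S‖ ^ 2 +
        W ^ 2 * ∑ S : Finset Λ, ‖cB M τ o N x S‖ ^ 2 +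
        W ^ 2 * ∑ n ∈ Finset.range N, ∑ S : Finset Λ, ‖cR M m τ o n x S‖ ^ 2) :=
        Finset.sum_le_sum fun x _ => hx x
    _ = 3 * (Z ^ 2 * ∑ n ∈ Finset.range N, ∑ x, ∑ S : Finset Λ, ‖cB M τ o n x S‖ ^ 2 +
        W ^ 2 * ∑ x, ∑ S : Finset Λ, ‖cB M τ o N x S‖ ^ 2 +
        W ^ 2 * ∑ n ∈ Finset.range N, ∑ x, ∑ S : Finset Λ, ‖cR M m τ o n x S‖ ^ 2) := by
        rw [← Finset.mul_sum, Finset.sum_add_distrib, Finset.sum_add_distrib, ← Finset.mul_sum,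
          ← Finset.mul_sum, ← Finset.mul_sum,
          Finset.sum_comm (f := fun x n => ∑ S : Finset Λ, ‖cB M τ o n x S‖ ^ 2),
          Finset.sum_comm (f := fun x n => ∑ S : Finset Λ, ‖cR M m τ o n x S‖ ^ 2)]
    _ ≤ _ := by
        refine mul_le_mul_of_nonneg_left (add_le_add (add_le_add ?_ ?_) ?_) (by norm_num)
        · exact mul_le_mul_of_nonneg_left (Finset.sum_le_sum fun n _ => cB_sum M τ o n)
            (by positivity)
        · exact mul_le_mul_of_nonneg_left (cB_sum M τ o N) (by positivity)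
        · exact mul_le_mul_of_nonneg_left
            (Finset.sum_le_sum fun n _ => cR_sum M m τ o hm n κ hκ) (by positivity)

end Pool.Agent.Zk11.QD
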