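import Pool.Agent.Zk11.QD.Abs

/-! The abstract estimate, comparison with the true resolvent vector. -/

set_option autoImplicit false
set_option linter.unusedSectionVars false

open scoped BigOperators
open MeasureTheory

namespace Pool.Agent.Zk11.QD

variable {Λ : Type} [Fintype Λ] [DecidableEq Λ]

theorem FF_zero (M : Λ → Λ → ℂ) (τ : ℝ) (o : Λ) : FF M τ o 0 = ∑ x, ‖M x o‖ ^ 2 := by
  unfold FF
  refine Finset.sum_congr rfl fun x _ => ?_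
  rw [Finset.sum_eq_single ∅]
  · rw [cf_zero, if_pos rfl]
  · intro S _ hS
    rw [cf_zero, if_neg hS, norm_zero]
    norm_num
  · intro h
    exact absurd (Finset.mem_univ _) h

theorem AA_zero (M : Λ → Λ → ℂ) (τ : ℝ) (o : Λ) (χ : Λ → ℂ) :
    AA M τ o χ 0 = ∑ x, χ x * ((‖M x o‖ ^ 2 : ℝ) : ℂ) := by
  unfold AA
  refine Finset.sum_congr rfl fun x _ => ?_
  congr 1
  rw [Finset.sum_eq_single ∅]
  · rw [cf_zero, if_pos rfl]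
  · intro S _ hS
    rw [cf_zero, if_neg hS, norm_zero]
    norm_num
  · intro h
    exact absurd (Finset.mem_univ _) h

theorem AA_norm_le (M : Λ → Λ → ℂ) (τ : ℝ) (o : Λ) (χ : Λ → ℂ) (hχ : ∀ x, ‖χ x‖ ≤ 1) (n : ℕ) :
    ‖AA M τ o χ n‖ ≤ FF M τ o n := by
  unfold AA FF
  refine (norm_sum_le _ _).trans (Finset.sum_le_sum fun x _ => ?_)
  rw [norm_mul, ← Complex.ofReal_sum, Complex.norm_real, Real.norm_eq_abs,
    abs_of_nonneg (Finset.sum_nonneg fun _ _ => by positivity)]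
  calc ‖χ x‖ * ∑ S : Finset Λ, ‖cf M τ o n x S‖ ^ 2
      ≤ 1 * ∑ S : Finset Λ, ‖cf M τ o n x S‖ ^ 2 :=
        mul_le_mul_of_nonneg_right (hχ x) (Finset.sum_nonneg fun _ _ => by positivity)
    _ = _ := one_mul _

theorem sq_diff (a b : ℂ) (ε : ℝ) (hε : 0 < ε) :
    |‖a‖ ^ 2 - ‖b‖ ^ 2| ≤ ε * ‖b‖ ^ 2 + (1 + 1 / ε) * ‖b - a‖ ^ 2 := by
  have h1 : |‖a‖ - ‖b‖| ≤ ‖b - a‖ := by
    rw [norm_sub_rev]
    exact abs_norm_sub_norm_le a b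
  have h2 : ‖a‖ ≤ ‖b‖ + ‖b - a‖ := by
    have := norm_sub_norm_le a b
    rw [norm_sub_rev] at this
    linarith
  have h3 : |‖a‖ ^ 2 - ‖b‖ ^ 2| = |‖a‖ - ‖b‖| * (‖a‖ + ‖b‖) := by
    rw [← abs_of_nonneg (by positivity : 0 ≤ ‖a‖ + ‖b‖), ← abs_mul]
    congr 1
    ring
  rw [h3]
  have h4 : |‖a‖ - ‖b‖| * (‖a‖ + ‖b‖) ≤ ‖b - a‖ * (2 * ‖b‖ + ‖b - a‖) :=
    mul_le_mul h1 (by linarith) (by positivity) (norm_nonneg _)
  refine h4.trans ?_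
  have h5 : 2 * (‖b - a‖ * ‖b‖) ≤ ε * ‖b‖ ^ 2 + 1 / ε * ‖b - a‖ ^ 2 := by
    have h6 : 0 ≤ (Real.sqrt ε * ‖b‖ - (Real.sqrt ε)⁻¹ * ‖b - a‖) ^ 2 := sq_nonneg _
    have h7 : Real.sqrt ε * (Real.sqrt ε)⁻¹ = 1 := mul_inv_cancel₀ (Real.sqrt_pos.2 hε).ne'
    have h8 : (Real.sqrt ε) ^ 2 = ε := Real.sq_sqrt hε.le
    have h9 : ((Real.sqrt ε)⁻¹) ^ 2 = 1 / ε := by rw [inv_pow, h8, one_div]
    have h10 : (Real.sqrt ε * ‖b‖ - (Real.sqrt ε)⁻¹ * ‖b - a‖) ^ 2 =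
        (Real.sqrt ε) ^ 2 * ‖b‖ ^ 2 - 2 * (Real.sqrt ε * (Real.sqrt ε)⁻¹) * (‖b - a‖ * ‖b‖) +
          ((Real.sqrt ε)⁻¹) ^ 2 * ‖b - a‖ ^ 2 := by ring
    rw [h10, h7, h8, h9] at h6
    linarith
  nlinarith

theorem compare (μ : Measure ℝ) [IsProbabilityMeasure μ] (h : ℝ → ℂ) (B : ℝ) (hg : Good μ h B)
    (v : ℝ → ℂ) (A M : Λ → Λ → ℂ) (τ : ℝ) (o : Λ)
    (N : ℕ) (η : ℝ) (hη : 0 < η)
    (hco : ∀ (V : Λ → ℝ) (w : Λ → ℂ), η ^ 2 * ∑ x, ‖w x‖ ^ 2 ≤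
      ∑ x, ‖(∑ y, A x y * w y) + v (V x) * w x‖ ^ 2)
    (u : (Λ → ℝ) → Λ → ℂ) (hum : ∀ x, Measurable fun V => u V x)
    (hue : ∀ V x, (∑ y, A x y * u V y) + v (V x) * u V x = if x = o then 1 else 0)
    (χ : Λ → ℂ) (hχ : ∀ x, ‖χ x‖ ≤ 1) (D : ℝ)
    (hi : ∀ x, Integrable (fun V => ‖rs A M τ o h v N V x‖ ^ 2) (PL Λ μ))
    (hD : ∑ x, ∫ V, ‖rs A M τ o h v N V x‖ ^ 2 ∂(PL Λ μ) ≤ D) (ε : ℝ) (hε : 0 < ε) :
    ‖∑ x, χ x * ((∫ V, ‖u V x‖ ^ 2 ∂(PL Λ μ) : ℝ) : ℂ) -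
      ∑ x, χ x * ((∫ V, ‖ut M τ o h N V x‖ ^ 2 ∂(PL Λ μ) : ℝ) : ℂ)‖ ≤
      ε * ∑ n ∈ Finset.range (N + 1), FF M τ o n + (1 + 1 / ε) * (D / η ^ 2) := by
  have hres : ∀ V x, (∑ y, A x y * (ut M τ o h N V y - u V y)) +
      v (V x) * (ut M τ o h N V x - u V x) = rs A M τ o h v N V x := by
    intro V x
    unfold rs
    rw [← hue V x]
    simp only [mul_sub, Finset.sum_sub_distrib]
    ring
  have hpt : ∀ V, ∑ x, ‖ut M τ o h N V x - u V x‖ ^ 2 ≤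
      (∑ x, ‖rs A M τ o h v N V x‖ ^ 2) / η ^ 2 := by
    intro V
    have h1 := hco V (fun x => ut M τ o h N V x - u V x)
    simp only [hres] at h1
    rw [le_div_iff₀ (by positivity)]
    linarith
  have hpt1 : ∀ V x, ‖ut M τ o h N V x - u V x‖ ^ 2 ≤
      (∑ x, ‖rs A M τ o h v N V x‖ ^ 2) / η ^ 2 := fun V x =>
    (Finset.single_le_sum (f := fun x => ‖ut M τ o h N V x - u V x‖ ^ 2)
      (fun _ _ => by positivity) (Finset.mem_univ x)).trans (hpt V)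
  have hI : Integrable (fun V => (∑ x, ‖rs A M τ o h v N V x‖ ^ 2) / η ^ 2) (PL Λ μ) :=
    (integrable_finsetSum _ fun x _ => hi x).div_const _
  have hId : ∀ x, Integrable (fun V => ‖ut M τ o h N V x - u V x‖ ^ 2) (PL Λ μ) := by
    intro x
    refine Integrable.mono' hI ?_ (Filter.Eventually.of_forall fun V => ?_)
    · exact (((ut_meas h hg.meas M τ o N x).sub (hum x)).norm.pow_const 2).aestronglyMeasurable
    · rw [Real.norm_eq_abs, abs_of_nonneg (by positivity)]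
      exact hpt1 V x
  have hIt : ∀ x, Integrable (fun V => ‖ut M τ o h N V x‖ ^ 2) (PL Λ μ) := fun x =>
    (ut_sq μ h B hg M τ o N x).1
  have hIu : ∀ x, Integrable (fun V => ‖u V x‖ ^ 2) (PL Λ μ) := by
    intro x
    refine Integrable.mono' (((hIt x).const_mul 2).add ((hId x).const_mul 2))
      (((hum x).norm.pow_const 2).aestronglyMeasurable) (Filter.Eventually.of_forall fun V => ?_)
    rw [Real.norm_eq_abs, abs_of_nonneg (by positivity)]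
    have h1 : ‖u V x‖ ≤ ‖ut M τ o h N V x‖ + ‖ut M τ o h N V x - u V x‖ := by
      have := norm_sub_norm_le (u V x) (ut M τ o h N V x)
      rw [norm_sub_rev] at this
      linarith
    have h2 := pow_le_pow_left₀ (norm_nonneg _) h1 2
    simp only [Pi.add_apply]
    nlinarith [sq_nonneg (‖ut M τ o h N V x‖ - ‖ut M τ o h N V x - u V x‖)]
  have hd : ∑ x, ∫ V, ‖ut M τ o h N V x - u V x‖ ^ 2 ∂(PL Λ μ) ≤ D / η ^ 2 := by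
    rw [← integral_finsetSum _ (fun x _ => hId x)]
    refine (integral_mono (integrable_finsetSum _ fun x _ => hId x) hI (fun V => hpt V)).trans ?_
    rw [integral_div, integral_finsetSum _ (fun x _ => hi x)]
    exact div_le_div_of_nonneg_right hD (by positivity)
  have hx : ∀ x, |∫ V, ‖u V x‖ ^ 2 ∂(PL Λ μ) - ∫ V, ‖ut M τ o h N V x‖ ^ 2 ∂(PL Λ μ)| ≤
      ε * ∫ V, ‖ut M τ o h N V x‖ ^ 2 ∂(PL Λ μ) +
      (1 + 1 / ε) * ∫ V, ‖ut M τ o h N V x - u V x‖ ^ 2 ∂(PL Λ μ) := by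
    intro x
    rw [← integral_sub (hIu x) (hIt x), ← integral_const_mul, ← integral_const_mul,
      ← integral_add ((hIt x).const_mul _) ((hId x).const_mul _)]
    refine (abs_integral_le_integral_abs).trans (integral_mono ((hIu x).sub (hIt x)).abs
      (((hIt x).const_mul _).add ((hId x).const_mul _)) (fun V => ?_))
    exact sq_diff (u V x) (ut M τ o h N V x) ε hε
  rw [← Finset.sum_sub_distrib]
  refine (norm_sum_le _ _).trans ?_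
  calc ∑ x, ‖χ x * ((∫ V, ‖u V x‖ ^ 2 ∂(PL Λ μ) : ℝ) : ℂ) -
        χ x * ((∫ V, ‖ut M τ o h N V x‖ ^ 2 ∂(PL Λ μ) : ℝ) : ℂ)‖
      ≤ ∑ x, (ε * ∫ V, ‖ut M τ o h N V x‖ ^ 2 ∂(PL Λ μ) +
      (1 + 1 / ε) * ∫ V, ‖ut M τ o h N V x - u V x‖ ^ 2 ∂(PL Λ μ)) := by
        refine Finset.sum_le_sum fun x _ => ?_
        rw [← mul_sub, norm_mul, ← Complex.ofReal_sub, Complex.norm_real, Real.norm_eq_abs]
        refine le_trans ?_ (hx x)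
        calc ‖χ x‖ * |∫ V, ‖u V x‖ ^ 2 ∂(PL Λ μ) - ∫ V, ‖ut M τ o h N V x‖ ^ 2 ∂(PL Λ μ)|
            ≤ 1 * |∫ V, ‖u V x‖ ^ 2 ∂(PL Λ μ) - ∫ V, ‖ut M τ o h N V x‖ ^ 2 ∂(PL Λ μ)| :=
              mul_le_mul_of_nonneg_right (hχ x) (abs_nonneg _)
          _ = _ := one_mul _
    _ = ε * ∑ x, ∫ V, ‖ut M τ o h N V x‖ ^ 2 ∂(PL Λ μ) +
        (1 + 1 / ε) * ∑ x, ∫ V, ‖ut M τ o h N V x - u V x‖ ^ 2 ∂(PL Λ μ) := by
        rw [Finset.sum_add_distrib, Finset.mul_sum, Finset.mul_sum]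
    _ ≤ _ := by
        rw [ut_mass_one μ h B hg]
        have : 0 ≤ 1 + 1 / ε := by positivity
        exact add_le_add le_rfl (mul_le_mul_of_nonneg_left hd this)

/-- the data of the abstract estimate -/
structure Dat (μ : Measure ℝ) (h v : ℝ → ℂ) (A M : Λ → Λ → ℂ) (m : ℂ) (τ : ℝ) (o : Λ)
    (B Z W η q a κR : ℝ) : Prop where
  good : Good μ h B
  vmeas : Measurable v
  τpos : 0 < τ
  ηpos : 0 < η
  AM : ∀ x w, ∑ y, A x y * M y w = if x = w then 1 else 0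
  Md : ∀ x, M x x = m
  hZ : ∀ᵐ s ∂μ, ‖v s - τ * h s * (1 + m * v s)‖ ≤ Z
  hW : ∀ᵐ s ∂μ, ‖v s‖ ≤ W
  hR : ∀ x w, ∑ y, ‖M x y‖ ^ 2 * ‖M y w‖ ^ 2 ≤ κR
  κR0 : 0 ≤ κR
  q0 : 0 ≤ q
  a0 : 0 ≤ a
  recF : ∀ n : ℕ, FF M τ o (n + 1) ≤ q * FF M τ o n + (n : ℝ) ^ 2 * a * FF M τ o (n - 1)
  co : ∀ (V : Λ → ℝ) (w : Λ → ℂ), η ^ 2 * ∑ x, ‖w x‖ ^ 2 ≤
      ∑ x, ‖(∑ y, A x y * w y) + v (V x) * w x‖ ^ 2

/-- the final abstract estimate -/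
theorem abs_main (μ : Measure ℝ) [IsProbabilityMeasure μ] (h v : ℝ → ℂ) (A M : Λ → Λ → ℂ) (m : ℂ)
    (τ : ℝ) (o : Λ) (B Z W η q a κR : ℝ) (hd : Dat μ h v A M m τ o B Z W η q a κR)
    (χ : Λ → ℂ) (hχ : ∀ x, ‖χ x‖ ≤ 1) (hχo : χ o = 1) (t : ℂ) (ht1 : t ≠ 1) (htq : ‖t‖ ≤ 1)
    (ht : ∀ y, ∑ x, χ x * ((τ ^ 2 * ‖M x y‖ ^ 2 : ℝ) : ℂ) = t * χ y)
    (hstep : ∀ n : ℕ, ‖AA M τ o χ (n + 1) - t * AA M τ o χ n‖ ≤
      (n : ℝ) ^ 2 * a * FF M τ o (n - 1))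
    (ρ R : ℝ) (N : ℕ) (hqρ : q ≤ ρ) (hρ1 : ρ < 1) (hR : 1 / (1 - ρ) ≤ R)
    (hN : (N : ℝ) ^ 2 * a ≤ ρ * (ρ - q))
    (u : (Λ → ℝ) → Λ → ℂ) (hum : ∀ x, Measurable fun V => u V x)
    (hue : ∀ V x, (∑ y, A x y * u V y) + v (V x) * u V x = if x = o then 1 else 0)
    (ε : ℝ) (hε : 0 < ε) :
    ‖∑ x, χ x * ((∫ V, ‖u V x‖ ^ 2 ∂(PL Λ μ) : ℝ) : ℂ) - t / (τ ^ 2 * (1 - t))‖ ≤
      (∑ x, ‖M x o‖ ^ 2) * (ε * R + (1 + 1 / ε) * (3 * (Z ^ 2 * R + W ^ 2 * ρ ^ N +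
        W ^ 2 * (τ ^ 4 * κR * (2 * (N : ℝ) ^ 3 * R))) / η ^ 2) +
        (ρ ^ N + a * (2 * (N : ℝ) ^ 2 * R)) / ‖1 - t‖) := by
  set F0 : ℝ := ∑ x, ‖M x o‖ ^ 2 with hF0
  have hρ0 : 0 ≤ ρ := hd.q0.trans hqρ
  have hF0' : FF M τ o 0 = F0 := FF_zero M τ o
  have hF0n : 0 ≤ F0 := by rw [← hF0']; exact FF_nonneg M τ o 0
  have hFb := rec_bound (FF M τ o) (FF_nonneg M τ o) q a ρ N hd.q0 hqρ hd.recF hd.a0 hN
  have hFs := sum_F (FF M τ o) ρ R (FF_nonneg M τ o 0) hρ0 hρ1 hR N hFb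
  rw [hF0'] at hFs
  have hFN : FF M τ o N ≤ F0 * ρ ^ N := by
    have := hFb N le_rfl
    rwa [hF0'] at this
  have hFs' : ∑ n ∈ Finset.range N, FF M τ o n ≤ F0 * R :=
    (Finset.sum_le_sum_of_subset_of_nonneg (Finset.range_subset_range.2 (Nat.le_succ N))
      (fun _ _ _ => FF_nonneg M τ o _)).trans hFs
  have hsub : ∀ g : ℕ → ℝ, (∀ n, 0 ≤ g n) → ∑ n ∈ Finset.range N, g n ≤
      ∑ n ∈ Finset.range (N + 1), g n := fun g hg0 =>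
    Finset.sum_le_sum_of_subset_of_nonneg (Finset.range_subset_range.2 (Nat.le_succ N))
      (fun _ _ _ => hg0 _)
  have h3 : ∑ n ∈ Finset.range N, (n : ℝ) ^ 3 * FF M τ o (n - 1) ≤
      2 * (N : ℝ) ^ 3 * (F0 * R) := by
    have := sum_shift (FF M τ o) (FF_nonneg M τ o) (F0 * R) N hFs 3 (by norm_num) 1
    refine (hsub _ fun n => mul_nonneg (by positivity) (FF_nonneg M τ o _)).trans (this.trans ?_)
    norm_num
  have h2 : ∑ n ∈ Finset.range N, (n : ℝ) ^ 2 * FF M τ o (n - 1) ≤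
      2 * (N : ℝ) ^ 2 * (F0 * R) := by
    have := sum_shift (FF M τ o) (FF_nonneg M τ o) (F0 * R) N hFs 2 (by norm_num) 1
    refine (hsub _ fun n => mul_nonneg (by positivity) (FF_nonneg M τ o _)).trans (this.trans ?_)
    norm_num
  -- the residual
  obtain ⟨hi, hD⟩ := rs_sq μ h B hd.good v hd.vmeas A M m τ o hd.AM hd.Md Z W hd.hZ hd.hW N κR hd.hR
  have hR0 : 0 ≤ R := le_trans (by
    have : 0 < 1 - ρ := by linarith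
    positivity) hR
  have hD2 : 3 * (Z ^ 2 * ∑ n ∈ Finset.range N, FF M τ o n + W ^ 2 * FF M τ o N +
        W ^ 2 * ∑ n ∈ Finset.range N, (n : ℝ) ^ 3 * (τ ^ 4 * κR) * FF M τ o (n - 1)) ≤
      F0 * (3 * (Z ^ 2 * R + W ^ 2 * ρ ^ N + W ^ 2 * (τ ^ 4 * κR * (2 * (N : ℝ) ^ 3 * R)))) := by
    have e1 : ∑ n ∈ Finset.range N, (n : ℝ) ^ 3 * (τ ^ 4 * κR) * FF M τ o (n - 1) =
        (τ ^ 4 * κR) * ∑ n ∈ Finset.range N, (n : ℝ) ^ 3 * FF M τ o (n - 1) := by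
      rw [Finset.mul_sum]
      exact Finset.sum_congr rfl fun n _ => by ring
    have e2 : Z ^ 2 * ∑ n ∈ Finset.range N, FF M τ o n ≤ Z ^ 2 * (F0 * R) :=
      mul_le_mul_of_nonneg_left hFs' (by positivity)
    have e3 : W ^ 2 * FF M τ o N ≤ W ^ 2 * (F0 * ρ ^ N) :=
      mul_le_mul_of_nonneg_left hFN (by positivity)
    have hκ := hd.κR0
    have e4 : W ^ 2 * ((τ ^ 4 * κR) * ∑ n ∈ Finset.range N, (n : ℝ) ^ 3 * FF M τ o (n - 1)) ≤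
        W ^ 2 * ((τ ^ 4 * κR) * (2 * (N : ℝ) ^ 3 * (F0 * R))) :=
      mul_le_mul_of_nonneg_left (mul_le_mul_of_nonneg_left h3 (by positivity)) (by positivity)
    rw [e1]
    nlinarith
  have hcmp := compare μ h B hd.good v A M τ o N η hd.ηpos hd.co u hum hue χ hχ _ hi
    (hD.trans hD2) ε hε
  rw [ut_mass μ h B hd.good M τ o N χ] at hcmp
  have hA := sum_A (AA M τ o χ) t (fun n => (n : ℝ) ^ 2 * a * FF M τ o (n - 1)) N hstep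
  have hA0 : AA M τ o χ 0 = t / τ ^ 2 := by
    have e1 := ht o
    rw [hχo, mul_one] at e1
    rw [AA_zero, ← e1]
    have hτ : (τ : ℂ) ^ 2 ≠ 0 := by
      have := hd.τpos
      exact pow_ne_zero 2 (by exact_mod_cast this.ne')
    rw [eq_div_iff hτ, Finset.sum_mul]
    refine Finset.sum_congr rfl fun x _ => ?_
    push_cast
    ring
  have h1t : (1 - t) ≠ 0 := sub_ne_zero.2 (Ne.symm ht1)
  have h1tp : 0 < ‖1 - t‖ := norm_pos_iff.2 h1t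
  have hA2 : ‖∑ n ∈ Finset.range (N + 1), AA M τ o χ n - t / (τ ^ 2 * (1 - t))‖ ≤
      F0 * ((ρ ^ N + a * (2 * (N : ℝ) ^ 2 * R)) / ‖1 - t‖) := by
    have e1 : ∑ n ∈ Finset.range (N + 1), AA M τ o χ n - t / (τ ^ 2 * (1 - t)) =
        ((1 - t) * ∑ n ∈ Finset.range (N + 1), AA M τ o χ n - AA M τ o χ 0) / (1 - t) := by
      rw [hA0]
      field_simp
    rw [e1, norm_div, mul_div_assoc', div_le_div_iff_of_pos_right h1tp]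
    refine hA.trans ?_
    have e2 : ‖t‖ * ‖AA M τ o χ N‖ ≤ F0 * ρ ^ N := by
      calc ‖t‖ * ‖AA M τ o χ N‖ ≤ 1 * FF M τ o N :=
            mul_le_mul htq (AA_norm_le M τ o χ hχ N) (norm_nonneg _) (by norm_num)
        _ ≤ _ := by rw [one_mul]; exact hFN
    have e3 : ∑ n ∈ Finset.range N, (n : ℝ) ^ 2 * a * FF M τ o (n - 1) =
        a * ∑ n ∈ Finset.range N, (n : ℝ) ^ 2 * FF M τ o (n - 1) := by
      rw [Finset.mul_sum]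
      exact Finset.sum_congr rfl fun n _ => by ring
    rw [e3]
    have e4 := mul_le_mul_of_nonneg_left h2 hd.a0
    nlinarith
  have hfin : ‖∑ x, χ x * ((∫ V, ‖u V x‖ ^ 2 ∂(PL Λ μ) : ℝ) : ℂ) - t / (τ ^ 2 * (1 - t))‖ ≤
      (ε * ∑ n ∈ Finset.range (N + 1), FF M τ o n + (1 + 1 / ε) *
        (F0 * (3 * (Z ^ 2 * R + W ^ 2 * ρ ^ N + W ^ 2 * (τ ^ 4 * κR * (2 * (N : ℝ) ^ 3 * R)))) /
          η ^ 2)) +
      F0 * ((ρ ^ N + a * (2 * (N : ℝ) ^ 2 * R)) / ‖1 - t‖) := by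
    have e1 : ∑ x, χ x * ((∫ V, ‖u V x‖ ^ 2 ∂(PL Λ μ) : ℝ) : ℂ) - t / (τ ^ 2 * (1 - t)) =
        (∑ x, χ x * ((∫ V, ‖u V x‖ ^ 2 ∂(PL Λ μ) : ℝ) : ℂ) -
          ∑ n ∈ Finset.range (N + 1), AA M τ o χ n) +
        (∑ n ∈ Finset.range (N + 1), AA M τ o χ n - t / (τ ^ 2 * (1 - t))) := by ring
    rw [e1]
    exact (norm_add_le _ _).trans (add_le_add hcmp hA2)
  refine hfin.trans ?_
  have e5 : ε * ∑ n ∈ Finset.range (N + 1), FF M τ o n ≤ ε * (F0 * R) :=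
    mul_le_mul_of_nonneg_left hFs hε.le
  have e6 : (1 + 1 / ε) *
        (F0 * (3 * (Z ^ 2 * R + W ^ 2 * ρ ^ N + W ^ 2 * (τ ^ 4 * κR * (2 * (N : ℝ) ^ 3 * R)))) /
          η ^ 2) = F0 * ((1 + 1 / ε) * (3 * (Z ^ 2 * R + W ^ 2 * ρ ^ N +
        W ^ 2 * (τ ^ 4 * κR * (2 * (N : ℝ) ^ 3 * R))) / η ^ 2)) := by ring
  rw [e6]
  nlinarith

end Pool.Agent.Zk11.QD
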