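import Pool.Agent.Zk11.QD.Vdc

/-! Uniform bounds for Bessel functions. -/

set_option autoImplicit false
set_option linter.unusedSectionVars false

open scoped BigOperators
open MeasureTheory Set

namespace Pool.Agent.Zk11.QD.Vdc

/-- the phase -/
noncomputable def bp (n τ : ℝ) (θ : ℝ) : ℝ := -(n * θ + τ * Real.cos θ)
noncomputable def bv (n τ : ℝ) (θ : ℝ) : ℝ := -(n - τ * Real.sin θ)
noncomputable def bw (τ : ℝ) (θ : ℝ) : ℝ := τ * Real.cos θ

theorem bph (n τ : ℝ) : Ph (bp n τ) (bv n τ) (bw τ) where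
  d1 := by
    intro t
    have h : HasDerivAt (fun θ => -(n * θ + τ * Real.cos θ)) (-(n * 1 + τ * (-Real.sin t))) t :=
      (((hasDerivAt_id t).const_mul n).add ((Real.hasDerivAt_cos t).const_mul τ)).neg
    unfold bp bv
    convert h using 1
    ring
  d2 := by
    intro t
    have h : HasDerivAt (fun θ => -(n - τ * Real.sin θ)) (-(-(τ * Real.cos t))) t :=
      (((Real.hasDerivAt_sin t).const_mul τ).const_sub n).neg
    unfold bv bw
    convert h using 1
    ring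
  wc := by
    unfold bw
    fun_prop

/-- the oscillatory integral -/
noncomputable def BB (n τ : ℝ) : ℝ := ‖W0 (bp n τ) 0 (2 * Real.pi)‖

theorem split7 (n τ α : ℝ) : BB n τ ≤
    ‖W0 (bp n τ) 0 α‖ + ‖W0 (bp n τ) α (Real.pi / 2)‖ +
    ‖W0 (bp n τ) (Real.pi / 2) (Real.pi - α)‖ + ‖W0 (bp n τ) (Real.pi - α) (Real.pi + α)‖ +
    ‖W0 (bp n τ) (Real.pi + α) (3 * Real.pi / 2)‖ +
    ‖W0 (bp n τ) (3 * Real.pi / 2) (2 * Real.pi - α)‖ +
    ‖W0 (bp n τ) (2 * Real.pi - α) (2 * Real.pi)‖ := by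
  have h := bph n τ
  have e1 := split h 0 α (2 * Real.pi)
  have e2 := split h α (Real.pi / 2) (2 * Real.pi)
  have e3 := split h (Real.pi / 2) (Real.pi - α) (2 * Real.pi)
  have e4 := split h (Real.pi - α) (Real.pi + α) (2 * Real.pi)
  have e5 := split h (Real.pi + α) (3 * Real.pi / 2) (2 * Real.pi)
  have e6 := split h (3 * Real.pi / 2) (2 * Real.pi - α) (2 * Real.pi)
  unfold BB
  linarith

section regions

variable {c α : ℝ}

theorem cosA (hα : α = Real.arccos c) (hc0 : 0 < c) (hc1 : c ≤ 1) : Real.cos α = c := by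
  rw [hα, Real.cos_arccos (by linarith) hc1]

theorem α0 (hα : α = Real.arccos c) : 0 ≤ α := by rw [hα]; exact Real.arccos_nonneg c

theorem α1 (hα : α = Real.arccos c) (hc0 : 0 < c) : α < Real.pi / 2 := by
  rw [hα]
  exact Real.arccos_lt_pi_div_two.2 hc0

theorem r1 (hα : α = Real.arccos c) (hc0 : 0 < c) (hc1 : c ≤ 1) :
    ∀ t ∈ Icc 0 α, c ≤ Real.cos t := by
  intro t ht
  rw [← cosA hα hc0 hc1]
  have h1 := α1 hα hc0
  have := Real.pi_pos
  exact Real.cos_le_cos_of_nonneg_of_le_pi ht.1 (by linarith) ht.2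

theorem r4 (hα : α = Real.arccos c) (hc0 : 0 < c) (hc1 : c ≤ 1) :
    ∀ t ∈ Icc (Real.pi - α) (Real.pi + α), Real.cos t ≤ -c := by
  intro t ht
  have h1 : Real.cos t = -Real.cos |t - Real.pi| := by
    rw [Real.cos_abs, Real.cos_sub_pi, neg_neg]
  rw [h1]
  have h2 : |t - Real.pi| ∈ Icc 0 α := ⟨abs_nonneg _, by rw [abs_le]; constructor <;>
    linarith [ht.1, ht.2]⟩
  have := r1 hα hc0 hc1 _ h2
  linarith

theorem r7 (hα : α = Real.arccos c) (hc0 : 0 < c) (hc1 : c ≤ 1) :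
    ∀ t ∈ Icc (2 * Real.pi - α) (2 * Real.pi), c ≤ Real.cos t := by
  intro t ht
  have h1 : Real.cos t = Real.cos (2 * Real.pi - t) := by
    rw [Real.cos_two_pi_sub]
  rw [h1]
  exact r1 hα hc0 hc1 _ ⟨by linarith [ht.2], by linarith [ht.1]⟩

theorem c2 : ∀ t ∈ Icc α (Real.pi / 2), 0 ≤ α → 0 ≤ Real.cos t := by
  intro t ht h0
  exact Real.cos_nonneg_of_mem_Icc ⟨by linarith [Real.pi_pos, ht.1], ht.2⟩

theorem c3 : ∀ t ∈ Icc (Real.pi / 2) (Real.pi - α), 0 ≤ α → Real.cos t ≤ 0 := by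
  intro t ht h0
  exact Real.cos_nonpos_of_pi_div_two_le_of_le ht.1 (by linarith [Real.pi_pos, ht.2])

theorem c5 : ∀ t ∈ Icc (Real.pi + α) (3 * Real.pi / 2), 0 ≤ α → Real.cos t ≤ 0 := by
  intro t ht h0
  exact Real.cos_nonpos_of_pi_div_two_le_of_le (by linarith [Real.pi_pos, ht.1])
    (by linarith [ht.2])

theorem c6 : ∀ t ∈ Icc (3 * Real.pi / 2) (2 * Real.pi - α), 0 ≤ α → 0 ≤ Real.cos t := by
  intro t ht h0
  rw [← Real.cos_two_pi_sub]
  exact Real.cos_nonneg_of_mem_Icc ⟨by linarith [Real.pi_pos, ht.2], by linarith [ht.1]⟩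

theorem s23 : ∀ t ∈ Icc α (Real.pi - α), 0 ≤ α → α ≤ Real.pi / 2 → Real.sin α ≤ Real.sin t := by
  intro t ht h0 h1
  rcases le_total t (Real.pi / 2) with h2 | h2
  · exact Real.sin_le_sin_of_le_of_le_pi_div_two (by linarith [Real.pi_pos]) h2 ht.1
  · rw [← Real.sin_pi_sub t]
    exact Real.sin_le_sin_of_le_of_le_pi_div_two (by linarith [Real.pi_pos]) (by linarith)
      (by linarith [ht.2])

theorem s56 : ∀ t ∈ Icc (Real.pi + α) (2 * Real.pi - α), 0 ≤ α → α ≤ Real.pi / 2 →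
    Real.sin t ≤ -Real.sin α := by
  intro t ht h0 h1
  have h2 : Real.sin t = -Real.sin (t - Real.pi) := by
    rw [Real.sin_sub_pi, neg_neg]
  rw [h2]
  have := s23 (t - Real.pi) ⟨by linarith [ht.1], by linarith [ht.2]⟩ h0 h1
  linarith

end regions

theorem three_second (n τ c α : ℝ) (hτ : 0 < τ) (hα : α = Real.arccos c) (hc0 : 0 < c)
    (hc1 : c ≤ 1) :
    ‖W0 (bp n τ) 0 α‖ ≤ 8 / Real.sqrt (τ * c) ∧
    ‖W0 (bp n τ) (Real.pi - α) (Real.pi + α)‖ ≤ 8 / Real.sqrt (τ * c) ∧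
    ‖W0 (bp n τ) (2 * Real.pi - α) (2 * Real.pi)‖ ≤ 8 / Real.sqrt (τ * c) := by
  have h := bph n τ
  have hα0 := α0 hα
  have hp : 0 < τ * c := by positivity
  refine ⟨second h hα0 hp (Or.inl fun t ht => ?_), second h (by linarith) hp
    (Or.inr fun t ht => ?_), second h (by linarith) hp (Or.inl fun t ht => ?_)⟩
  · exact mul_le_mul_of_nonneg_left (r1 hα hc0 hc1 t ht) hτ.le
  · have := mul_le_mul_of_nonneg_left (r4 hα hc0 hc1 t ht) hτ.le
    unfold bw
    linarith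
  · exact mul_le_mul_of_nonneg_left (r7 hα hc0 hc1 t ht) hτ.le

/-- the uniform bound -/
theorem uniform (n τ δ : ℝ) (hτ : 0 < τ) (hδ0 : 0 < δ) (hδ1 : δ ≤ 1) :
    BB n τ ≤ 24 / Real.sqrt (τ * δ) + 2 * Real.pi * δ := by
  obtain ⟨α, hα⟩ : ∃ α, α = Real.arccos δ := ⟨_, rfl⟩
  have hα0 := α0 hα
  have hα1 := α1 hα hδ0
  obtain ⟨e1, e2, e3⟩ := three_second n τ δ α hτ hα hδ0 hδ1
  have hp := Real.pi_pos
  have l2 := len (φ := bp n τ) α (Real.pi / 2) hα1.le
  have l3 := len (φ := bp n τ) (Real.pi / 2) (Real.pi - α) (by linarith)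
  have l5 := len (φ := bp n τ) (Real.pi + α) (3 * Real.pi / 2) (by linarith)
  have l6 := len (φ := bp n τ) (3 * Real.pi / 2) (2 * Real.pi - α) (by linarith)
  have hs := split7 n τ α
  have hj : Real.pi / 2 - α ≤ Real.pi / 2 * δ := by
    have h1 : Real.arcsin δ = Real.pi / 2 - α := by
      rw [hα]
      unfold Real.arccos
      ring
    rw [← h1]
    have h2 : 0 ≤ Real.arcsin δ := Real.arcsin_nonneg.2 hδ0.le
    have h3 := Real.arcsin_le_pi_div_two δ
    have h4 := Real.mul_le_sin h2 h3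
    rw [Real.sin_arcsin (by linarith) hδ1] at h4
    have h5 : 2 / Real.pi * Real.arcsin δ * (Real.pi / 2) = Real.arcsin δ := by
      field_simp
    nlinarith
  have h24 : 24 / Real.sqrt (τ * δ) = 8 / Real.sqrt (τ * δ) + 8 / Real.sqrt (τ * δ) +
      8 / Real.sqrt (τ * δ) := by ring
  rw [h24]
  linarith

/-- the uniform bound, cube root form -/
theorem uniform3 (n τ y : ℝ) (hy : 1 ≤ y) (hτ : τ = y ^ 3) : BB n τ ≤ 31 / y := by
  have hy0 : 0 < y := by linarith
  have h := uniform n τ (1 / y) (by rw [hτ]; positivity) (by positivity)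
    (by rw [div_le_one hy0]; exact hy)
  have h1 : τ * (1 / y) = y ^ 2 := by
    rw [hτ]
    field_simp
  rw [h1, Real.sqrt_sq hy0.le] at h
  have hp := Real.pi_lt_d2
  have h2 : 24 / y + 2 * Real.pi * (1 / y) = (24 + 2 * Real.pi) / y := by ring
  rw [h2] at h
  refine h.trans (div_le_div_of_nonneg_right ?_ hy0.le)
  linarith

/-- below the turning point -/
theorem below (n τ c : ℝ) (hn : 0 ≤ n) (hτ : 0 < τ) (hc0 : 0 < c) (hc1 : c ≤ 1)
    (hnc : n = τ * Real.sqrt (1 - c ^ 2)) :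
    BB n τ ≤ 34 / Real.sqrt (τ * c) + 32 / (τ * c ^ 2) := by
  obtain ⟨α, hα⟩ : ∃ α, α = Real.arccos (c / 2) := ⟨_, rfl⟩
  have hc20 : 0 < c / 2 := by linarith
  have hc21 : c / 2 ≤ 1 := by linarith
  have hα0 := α0 hα
  have hα1 := α1 hα hc20
  have hp := Real.pi_pos
  obtain ⟨e1, e2, e3⟩ := three_second n τ (c / 2) α hτ hα hc20 hc21
  have hs := split7 n τ α
  have h := bph n τ
  have hsin : Real.sin α = Real.sqrt (1 - c ^ 2 / 4) := by
    rw [hα, Real.sin_arccos]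
    congr 1
    ring
  set A := Real.sqrt (1 - c ^ 2 / 4) with hA
  set D := Real.sqrt (1 - c ^ 2) with hD
  have hcc : c ^ 2 ≤ 1 := by nlinarith
  have hA2 : A ^ 2 = 1 - c ^ 2 / 4 := Real.sq_sqrt (by nlinarith)
  have hD2 : D ^ 2 = 1 - c ^ 2 := Real.sq_sqrt (by nlinarith)
  have hA0 : 0 ≤ A := Real.sqrt_nonneg _
  have hD0 : 0 ≤ D := Real.sqrt_nonneg _
  have hA1 : A ≤ 1 := by nlinarith
  have hD1 : D ≤ 1 := by nlinarith
  have hDA : D ≤ A := by nlinarith
  have hAD : 3 / 8 * c ^ 2 ≤ A - D := by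
    have h1 : (A - D) * (A + D) = 3 / 4 * c ^ 2 := by nlinarith
    nlinarith
  set M := 3 / 8 * (τ * c ^ 2) with hM
  have hM0 : 0 < M := by positivity
  have hAM : M ≤ τ * A := by
    have h1 : 3 / 8 * c ^ 2 ≤ A := by linarith
    have := mul_le_mul_of_nonneg_left h1 hτ.le
    rw [hM]
    linarith
  have v23 : ∀ t ∈ Icc α (Real.pi - α), M ≤ bv n τ t := by
    intro t ht
    have h1 := s23 t ht hα0 hα1.le
    rw [hsin] at h1
    unfold bv
    have h2 := mul_le_mul_of_nonneg_left h1 hτ.le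
    have h3 := mul_le_mul_of_nonneg_left hAD hτ.le
    rw [hnc, hM]
    nlinarith
  have v56 : ∀ t ∈ Icc (Real.pi + α) (2 * Real.pi - α), bv n τ t ≤ -M := by
    intro t ht
    have h1 := s56 t ht hα0 hα1.le
    rw [hsin] at h1
    unfold bv
    have h2 := mul_le_mul_of_nonneg_left h1 hτ.le
    nlinarith
  have f2 := first h hα1.le hM0
    (Or.inl fun t ht => mul_nonneg hτ.le (c2 t ht hα0))
    (Or.inl fun t ht => v23 t ⟨ht.1, by linarith [ht.2]⟩)
  have f3 := first h (x := Real.pi / 2) (y := Real.pi - α) (by linarith) hM0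
    (Or.inr fun t ht => mul_nonpos_of_nonneg_of_nonpos hτ.le (c3 t ht hα0))
    (Or.inl fun t ht => v23 t ⟨by linarith [ht.1], ht.2⟩)
  have f5 := first h (x := Real.pi + α) (y := 3 * Real.pi / 2) (by linarith) hM0
    (Or.inr fun t ht => mul_nonpos_of_nonneg_of_nonpos hτ.le (c5 t ht hα0))
    (Or.inr fun t ht => v56 t ⟨ht.1, by linarith [ht.2]⟩)
  have f6 := first h (x := 3 * Real.pi / 2) (y := 2 * Real.pi - α) (by linarith) hM0
    (Or.inl fun t ht => mul_nonneg hτ.le (c6 t ht hα0))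
    (Or.inr fun t ht => v56 t ⟨by linarith [ht.1], ht.2⟩)
  have hMv : 3 / M = 8 / (τ * c ^ 2) := by
    rw [hM]
    field_simp
  rw [hMv] at f2 f3 f5 f6
  have hsq : 24 / Real.sqrt (τ * (c / 2)) ≤ 34 / Real.sqrt (τ * c) := by
    have h1 : 0 < Real.sqrt (τ * (c / 2)) := Real.sqrt_pos.2 (by positivity)
    have h2 : 0 < Real.sqrt (τ * c) := Real.sqrt_pos.2 (by positivity)
    rw [div_le_div_iff₀ h1 h2]
    have h3 : Real.sqrt (τ * c) ^ 2 = τ * c := Real.sq_sqrt (by positivity)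
    have h4 : Real.sqrt (τ * (c / 2)) ^ 2 = τ * (c / 2) := Real.sq_sqrt (by positivity)
    have h5 : (24 * Real.sqrt (τ * c)) ^ 2 ≤ (34 * Real.sqrt (τ * (c / 2))) ^ 2 := by
      rw [mul_pow, mul_pow, h3, h4]
      nlinarith [mul_pos hτ hc0]
    exact le_of_sq_le_sq h5 (by positivity)
  have h24 : 24 / Real.sqrt (τ * (c / 2)) = 8 / Real.sqrt (τ * (c / 2)) +
      8 / Real.sqrt (τ * (c / 2)) + 8 / Real.sqrt (τ * (c / 2)) := by ring
  have h32 : 32 / (τ * c ^ 2) = 8 / (τ * c ^ 2) + 8 / (τ * c ^ 2) + 8 / (τ * c ^ 2) +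
      8 / (τ * c ^ 2) := by ring
  rw [h32]
  linarith

/-- above the turning point -/
theorem above (n τ : ℝ) (hτ : 0 ≤ τ) (hn : τ < n) : BB n τ ≤ 9 / (n - τ) := by
  have h := bph n τ
  have hp := Real.pi_pos
  have hm : 0 < n - τ := by linarith
  have hv : ∀ t, bv n τ t ≤ -(n - τ) := by
    intro t
    unfold bv
    have := mul_le_mul_of_nonneg_left (Real.sin_le_one t) hτ
    linarith
  have f1 := first h (x := 0) (y := Real.pi / 2) (by linarith) hm
    (Or.inl fun t ht => mul_nonneg hτ (Real.cos_nonneg_of_mem_Icc ⟨by linarith [ht.1], ht.2⟩))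
    (Or.inr fun t _ => hv t)
  have f2 := first h (x := Real.pi / 2) (y := 3 * Real.pi / 2) (by linarith) hm
    (Or.inr fun t ht => mul_nonpos_of_nonneg_of_nonpos hτ
      (Real.cos_nonpos_of_pi_div_two_le_of_le ht.1 (by linarith [ht.2])))
    (Or.inr fun t _ => hv t)
  have f3 := first h (x := 3 * Real.pi / 2) (y := 2 * Real.pi) (by linarith) hm
    (Or.inl fun t ht => mul_nonneg hτ (by
      rw [← Real.cos_two_pi_sub]
      exact Real.cos_nonneg_of_mem_Icc ⟨by linarith [ht.2], by linarith [ht.1]⟩))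
    (Or.inr fun t _ => hv t)
  have s1 := split h 0 (Real.pi / 2) (2 * Real.pi)
  have s2 := split h (Real.pi / 2) (3 * Real.pi / 2) (2 * Real.pi)
  unfold BB
  have h9 : 9 / (n - τ) = 3 / (n - τ) + 3 / (n - τ) + 3 / (n - τ) := by ring
  rw [h9]
  linarith

theorem BB_nonneg (n τ : ℝ) : 0 ≤ BB n τ := norm_nonneg _

/-- the unified bound -/
theorem unified (n τ : ℝ) (hn : 0 ≤ n) (hτ : 1 ≤ τ) : BB n τ ^ 4 * (τ * |τ - n|) ≤ 66 ^ 4 := by
  obtain ⟨y, hy, hyτ⟩ : ∃ y : ℝ, 1 ≤ y ∧ τ = y ^ 3 := by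
    refine ⟨τ ^ (1 / 3 : ℝ), Real.one_le_rpow hτ (by norm_num), ?_⟩
    rw [← Real.rpow_natCast, ← Real.rpow_mul (by linarith)]
    norm_num
  have hy0 : 0 < y := by linarith
  have hτ0 : 0 < τ := by linarith
  have hU := uniform3 n τ y hy hyτ
  have hB0 := BB_nonneg n τ
  have hU4 : BB n τ ^ 4 * y ^ 4 ≤ 31 ^ 4 := by
    rw [← mul_pow]
    refine pow_le_pow_left₀ (by positivity) ?_ 4
    calc BB n τ * y ≤ 31 / y * y := mul_le_mul_of_nonneg_right hU hy0.le
      _ = 31 := by field_simp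
  rcases lt_trichotomy n τ with h | h | h
  · -- below
    rw [abs_of_pos (by linarith)]
    set c := Real.sqrt (1 - (n / τ) ^ 2) with hc
    have hnτ : n / τ < 1 := (div_lt_one hτ0).2 h
    have hnτ0 : 0 ≤ n / τ := by positivity
    have h1 : 0 < 1 - (n / τ) ^ 2 := by nlinarith
    have hc2 : c ^ 2 = 1 - (n / τ) ^ 2 := Real.sq_sqrt h1.le
    have hc0 : 0 < c := Real.sqrt_pos.2 h1
    have hc1 : c ≤ 1 := by
      rw [hc, Real.sqrt_le_one]
      nlinarith
    have hnc : n = τ * Real.sqrt (1 - c ^ 2) := by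
      rw [hc2]
      have : 1 - (1 - (n / τ) ^ 2) = (n / τ) ^ 2 := by ring
      rw [this, Real.sqrt_sq hnτ0]
      field_simp
    have hτn : τ * (τ - n) ≤ (τ * c) ^ 2 := by
      have e1 : (τ * c) ^ 2 = τ ^ 2 - n ^ 2 := by
        rw [mul_pow, hc2]
        field_simp
      rw [e1]
      nlinarith
    rcases le_or_gt 1 (τ * c ^ 3) with h2 | h2
    · have hb := below n τ c hn hτ0 hc0 hc1 hnc
      have hs : 0 < Real.sqrt (τ * c) := Real.sqrt_pos.2 (by positivity)
      have hs2 : Real.sqrt (τ * c) ^ 2 = τ * c := Real.sq_sqrt (by positivity)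
      have h3 : Real.sqrt (τ * c) ≤ τ * c ^ 2 := by
        rw [Real.sqrt_le_left (by positivity)]
        have : (τ * c ^ 2) ^ 2 = (τ * c) * (τ * c ^ 3) := by ring
        rw [this]
        nlinarith [mul_pos hτ0 hc0]
      have h4 : 32 / (τ * c ^ 2) ≤ 32 / Real.sqrt (τ * c) :=
        div_le_div_of_nonneg_left (by norm_num) hs h3
      have h5 : BB n τ ≤ 66 / Real.sqrt (τ * c) := by
        have : (66 : ℝ) / Real.sqrt (τ * c) = 34 / Real.sqrt (τ * c) + 32 / Real.sqrt (τ * c) := by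
          ring
        rw [this]
        linarith
      have h6 : BB n τ ^ 4 * (τ * c) ^ 2 ≤ 66 ^ 4 := by
        rw [← hs2, ← pow_mul, ← mul_pow]
        refine pow_le_pow_left₀ (by positivity) ?_ 4
        calc BB n τ * Real.sqrt (τ * c) ≤ 66 / Real.sqrt (τ * c) * Real.sqrt (τ * c) :=
              mul_le_mul_of_nonneg_right h5 hs.le
          _ = 66 := by field_simp
      exact (mul_le_mul_of_nonneg_left hτn (by positivity)).trans h6
    · have h3 : c * y < 1 := by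
        by_contra h4
        push Not at h4
        have : 1 ≤ (c * y) ^ 3 := one_le_pow₀ h4
        rw [mul_pow, ← hyτ] at this
        nlinarith
      have h4 : (τ * c) ^ 2 ≤ y ^ 4 := by
        have e1 : (τ * c) ^ 2 = (c * y) ^ 2 * y ^ 4 := by rw [hyτ]; ring
        rw [e1]
        have e2 : (c * y) ^ 2 ≤ 1 := by
          have : 0 < c * y := by positivity
          nlinarith
        nlinarith [pow_pos hy0 4]
      calc BB n τ ^ 4 * (τ * (τ - n)) ≤ BB n τ ^ 4 * y ^ 4 :=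
            mul_le_mul_of_nonneg_left (hτn.trans h4) (by positivity)
        _ ≤ 31 ^ 4 := hU4
        _ ≤ 66 ^ 4 := by norm_num
  · rw [h, sub_self, abs_zero, mul_zero, mul_zero]
    norm_num
  · rw [abs_sub_comm, abs_of_pos (by linarith)]
    rcases le_or_gt (n - τ) y with h2 | h2
    · calc BB n τ ^ 4 * (τ * (n - τ)) ≤ BB n τ ^ 4 * y ^ 4 := by
            refine mul_le_mul_of_nonneg_left ?_ (by positivity)
            rw [hyτ] at h2 ⊢
            have : y ^ 4 = y ^ 3 * y := by ring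
            rw [this]
            exact mul_le_mul_of_nonneg_left h2 (by positivity)
        _ ≤ 31 ^ 4 := hU4
        _ ≤ 66 ^ 4 := by norm_num
    · have ha := above n τ hτ0.le h
      have hu : 0 < n - τ := by linarith
      have h3 : BB n τ ^ 4 * (n - τ) ^ 4 ≤ 9 ^ 4 := by
        rw [← mul_pow]
        refine pow_le_pow_left₀ (by positivity) ?_ 4
        calc BB n τ * (n - τ) ≤ 9 / (n - τ) * (n - τ) := mul_le_mul_of_nonneg_right ha hu.le
          _ = 9 := by field_simp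
      have h4 : τ * (n - τ) ≤ (n - τ) ^ 4 := by
        have e1 : τ ≤ (n - τ) ^ 3 := by
          calc τ = y ^ 3 := hyτ
            _ ≤ (n - τ) ^ 3 := pow_le_pow_left₀ hy0.le h2.le 3
        have e2 : (n - τ) ^ 4 = (n - τ) ^ 3 * (n - τ) := by ring
        rw [e2]
        exact mul_le_mul_of_nonneg_right e1 hu.le
      calc BB n τ ^ 4 * (τ * (n - τ)) ≤ BB n τ ^ 4 * (n - τ) ^ 4 :=
            mul_le_mul_of_nonneg_left h4 (by positivity)
        _ ≤ 9 ^ 4 := h3
        _ ≤ 66 ^ 4 := by norm_num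

end Pool.Agent.Zk11.QD.Vdc
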