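import Mathlib

/-! Time integrals of uniformly bounded oscillating functions. -/

set_option autoImplicit false
set_option linter.unusedSectionVars false

open scoped BigOperators ENNReal
open MeasureTheory Set

namespace Pool.Agent.Zk11.QD.Tim

theorem pow_int (r ℓ : ℝ) (hr : -1 < r) (hℓ : 0 < ℓ) :
    ∫⁻ u in Ioc 0 ℓ, ENNReal.ofReal (u ^ r) = ENNReal.ofReal (ℓ ^ (r + 1) / (r + 1)) := by
  have h1 : IntegrableOn (fun u : ℝ => u ^ r) (Ioc 0 ℓ) := by
    have := intervalIntegral.intervalIntegrable_rpow' (a := 0) (b := ℓ) hr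
    rwa [intervalIntegrable_iff_integrableOn_Ioc_of_le hℓ.le] at this
  rw [← ofReal_integral_eq_lintegral_ofReal h1]
  · congr 1
    rw [← intervalIntegral.integral_of_le hℓ.le, integral_rpow (Or.inl hr),
      Real.zero_rpow (by linarith), sub_zero]
  · exact (ae_restrict_mem measurableSet_Ioc).mono fun u hu => Real.rpow_nonneg hu.1.le r

theorem pow_sym (r ℓ : ℝ) (hr : -1 < r) (hℓ : 0 < ℓ) :
    ∫⁻ u in Icc (-ℓ) ℓ, ENNReal.ofReal (|u| ^ r) ≤
      2 * ENNReal.ofReal (ℓ ^ (r + 1) / (r + 1)) := by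
  have hsub : Icc (-ℓ) ℓ ⊆ Ico (-ℓ) 0 ∪ ({0} ∪ Ioc 0 ℓ) := by
    intro u hu
    rcases lt_trichotomy u 0 with h | h | h
    · exact Or.inl ⟨hu.1, h⟩
    · exact Or.inr (Or.inl h)
    · exact Or.inr (Or.inr ⟨h, hu.2⟩)
  have h1 : ∫⁻ u in Ioc 0 ℓ, ENNReal.ofReal (|u| ^ r) = ENNReal.ofReal (ℓ ^ (r + 1) / (r + 1)) := by
    rw [← pow_int r ℓ hr hℓ]
    refine setLIntegral_congr_fun measurableSet_Ioc fun u hu => ?_
    rw [abs_of_pos hu.1]
  have h2 : ∫⁻ u in Ico (-ℓ) 0, ENNReal.ofReal (|u| ^ r) =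
      ∫⁻ u in Ioc 0 ℓ, ENNReal.ofReal (|u| ^ r) := by
    have hmp := (Measure.measurePreserving_neg (volume : Measure ℝ)).setLIntegral_comp_preimage_emb
      (MeasurableEquiv.neg ℝ).measurableEmbedding (fun u => ENNReal.ofReal (|u| ^ r)) (Ioc 0 ℓ)
    rw [← hmp]
    have h3 : (Neg.neg : ℝ → ℝ) ⁻¹' Ioc 0 ℓ = Ico (-ℓ) 0 := by
      ext u
      simp only [mem_preimage, mem_Ioc, mem_Ico]
      constructor <;> intro h <;> constructor <;> linarith [h.1, h.2]
    rw [h3]
    simp only [abs_neg]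
  calc ∫⁻ u in Icc (-ℓ) ℓ, ENNReal.ofReal (|u| ^ r)
      ≤ ∫⁻ u in Ico (-ℓ) 0 ∪ ({0} ∪ Ioc 0 ℓ), ENNReal.ofReal (|u| ^ r) :=
        lintegral_mono_set hsub
    _ ≤ (∫⁻ u in Ico (-ℓ) 0, ENNReal.ofReal (|u| ^ r)) +
        (∫⁻ u in ({0} ∪ Ioc 0 ℓ), ENNReal.ofReal (|u| ^ r)) := lintegral_union_le _ _ _
    _ ≤ (∫⁻ u in Ico (-ℓ) 0, ENNReal.ofReal (|u| ^ r)) +
        ((∫⁻ u in ({0} : Set ℝ), ENNReal.ofReal (|u| ^ r)) +
          (∫⁻ u in Ioc 0 ℓ, ENNReal.ofReal (|u| ^ r))) :=
        add_le_add le_rfl (lintegral_union_le _ _ _)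
    _ = 2 * ENNReal.ofReal (ℓ ^ (r + 1) / (r + 1)) := by
        have h0 : ∫⁻ u in ({0} : Set ℝ), ENNReal.ofReal (|u| ^ r) = 0 := by
          rw [setLIntegral_measure_zero]
          exact measure_singleton 0
        rw [h2, h1, h0, zero_add, two_mul]

/-- the singularity is integrable, uniformly in its position -/
theorem pow_any (r n a b : ℝ) (hr : -1 < r) (hr0 : r ≤ 0) (hab : a < b) :
    ∫⁻ t in Icc a b, ENNReal.ofReal (|t - n| ^ r) ≤
      ENNReal.ofReal ((2 / (r + 1) + 1) * (b - a) ^ (r + 1)) := by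
  set ℓ := b - a with hℓ
  have hℓ0 : 0 < ℓ := by rw [hℓ]; linarith
  have hpt : ∀ t, ENNReal.ofReal (|t - n| ^ r) ≤
      (Icc (-ℓ) ℓ).indicator (fun u => ENNReal.ofReal (|u| ^ r)) (t - n) +
        ENNReal.ofReal (ℓ ^ r) := by
    intro t
    by_cases h : t - n ∈ Icc (-ℓ) ℓ
    · rw [indicator_of_mem h]
      exact le_self_add
    · rw [indicator_of_notMem h, zero_add]
      apply ENNReal.ofReal_le_ofReal
      have h1 : ℓ ≤ |t - n| := by
        by_contra h2
        push Not at h2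
        exact h (abs_le.1 h2.le)
      exact Real.rpow_le_rpow_of_nonpos hℓ0 h1 hr0
  calc ∫⁻ t in Icc a b, ENNReal.ofReal (|t - n| ^ r)
      ≤ ∫⁻ t in Icc a b, ((Icc (-ℓ) ℓ).indicator (fun u => ENNReal.ofReal (|u| ^ r)) (t - n) +
        ENNReal.ofReal (ℓ ^ r)) := lintegral_mono fun t => hpt t
    _ = (∫⁻ t in Icc a b, (Icc (-ℓ) ℓ).indicator (fun u => ENNReal.ofReal (|u| ^ r)) (t - n)) +
        (∫⁻ t in Icc a b, ENNReal.ofReal (ℓ ^ r)) := by
        rw [lintegral_add_right _ measurable_const]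
    _ ≤ 2 * ENNReal.ofReal (ℓ ^ (r + 1) / (r + 1)) + ENNReal.ofReal (ℓ ^ (r + 1)) := by
        refine add_le_add ?_ ?_
        · calc ∫⁻ t in Icc a b, (Icc (-ℓ) ℓ).indicator (fun u => ENNReal.ofReal (|u| ^ r)) (t - n)
              ≤ ∫⁻ t, (Icc (-ℓ) ℓ).indicator (fun u => ENNReal.ofReal (|u| ^ r)) (t - n) :=
                setLIntegral_le_lintegral _ _
            _ = ∫⁻ u, (Icc (-ℓ) ℓ).indicator (fun u => ENNReal.ofReal (|u| ^ r)) u :=
                lintegral_sub_right_eq_self _ n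
            _ = ∫⁻ u in Icc (-ℓ) ℓ, ENNReal.ofReal (|u| ^ r) :=
                lintegral_indicator measurableSet_Icc _
            _ ≤ _ := pow_sym r ℓ hr hℓ0
        · rw [setLIntegral_const, Real.volume_Icc, ← ENNReal.ofReal_mul (by positivity), ← hℓ]
          apply le_of_eq
          congr 1
          rw [Real.rpow_add hℓ0, Real.rpow_one]
    _ = _ := by
        rw [← ENNReal.ofReal_ofNat 2, ← ENNReal.ofReal_mul (by norm_num),
          ← ENNReal.ofReal_add (by
            have : 0 < r + 1 := by linarith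
            positivity) (by positivity)]
        congr 1
        ring

theorem exp_int (s : ℝ) (hs : 0 < s) (a : ℝ) :
    ∫⁻ t in Ioi a, ENNReal.ofReal (Real.exp (-(s * t))) = ENNReal.ofReal (Real.exp (-(s * a)) / s) := by
  have h1 : IntegrableOn (fun t : ℝ => Real.exp (-(s * t))) (Ioi a) := by
    have := integrableOn_exp_mul_Ioi (a := -s) (by linarith) a
    simpa using this
  rw [← ofReal_integral_eq_lintegral_ofReal h1
    (Filter.Eventually.of_forall fun t => (Real.exp_pos _).le)]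
  congr 1
  have := integral_exp_mul_Ioi (a := -s) (by linarith) a
  simp only [neg_mul] at this
  rw [this]
  field_simp

/-- the properties of the oscillating functions -/
structure Osc (f : ℝ → ℝ) (n T C : ℝ) : Prop where
  fm : Measurable f
  f0 : ∀ t, 0 ≤ f t
  f1 : ∀ t, f t ≤ 1
  a4 : ∀ t, 1 ≤ t → t ≤ T → f t ^ 4 * (t * |t - n|) ≤ C ^ 4
  a3 : ∀ t, 1 ≤ t → t ≤ T → f t ^ 3 * t ≤ C ^ 3
  a1 : ∀ t, 0 ≤ t → t ≤ T → t < n → f t * (n - t) ≤ C

theorem le_rpow_of {y C x : ℝ} (k : ℕ) (hk : 0 < k) (hy : 0 ≤ y) (hC : 0 ≤ C) (hx : 0 < x)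
    (h : y ^ k * x ≤ C ^ k) (j : ℕ) : y ^ j ≤ C ^ j * x ^ (-(j / k : ℝ)) := by
  have hk' : (k : ℝ) ≠ 0 := by exact_mod_cast hk.ne'
  have h1 : y ≤ C * x ^ (-(1 / k : ℝ)) := by
    have h2 : (y * x ^ (1 / k : ℝ)) ^ k ≤ C ^ k := by
      rw [mul_pow, ← Real.rpow_natCast (x ^ (1 / k : ℝ)) k, ← Real.rpow_mul hx.le,
        one_div_mul_cancel hk', Real.rpow_one]
      exact h
    have h3 : y * x ^ (1 / k : ℝ) ≤ C := le_of_pow_le_pow_left₀ hk.ne' hC h2
    rw [Real.rpow_neg hx.le, ← div_eq_mul_inv, le_div_iff₀ (Real.rpow_pos_of_pos hx _)]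
    exact h3
  calc y ^ j ≤ (C * x ^ (-(1 / k : ℝ))) ^ j := pow_le_pow_left₀ hy h1 j
    _ = C ^ j * x ^ (-(j / k : ℝ)) := by
        rw [mul_pow, ← Real.rpow_natCast (x ^ (-(1 / k : ℝ))) j, ← Real.rpow_mul hx.le]
        congr 2
        ring

variable {f g h : ℝ → ℝ} {n n' n'' T C s X : ℝ}

/-- third powers beyond the turning point -/
theorem cube_far (hf : Osc f n T C) (hC : 1 ≤ C) (hn : n ≤ X) (hX : 1 / 2 ≤ X) :
    ∫⁻ t in Icc (max 1 (X / 2)) T, ENNReal.ofReal (f t ^ 3) ≤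
      ENNReal.ofReal (30 * C ^ 3 * X ^ (-(1 / 2) : ℝ)) := by
  have hX0 : 0 < X := by linarith
  -- pointwise
  have hpt : ∀ t ∈ Icc (max 1 (X / 2)) T, t ≠ n → ENNReal.ofReal (f t ^ 3) ≤
      (Icc (X / 2) (2 * X)).indicator (fun t => ENNReal.ofReal (C ^ 3 * (X / 2) ^ (-(3 / 4) : ℝ)) *
        ENNReal.ofReal (|t - n| ^ (-(3 / 4) : ℝ))) t +
      (Ioi (2 * X)).indicator (fun t => ENNReal.ofReal (2 * C ^ 3 * t ^ (-(3 / 2) : ℝ))) t := by
    intro t ht h2
    have ht1 : 1 ≤ t := (le_max_left _ _).trans ht.1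
    have ht2 : X / 2 ≤ t := (le_max_right _ _).trans ht.1
    have ht0 : 0 < t := by linarith
    have h4 := hf.a4 t ht1 ht.2
    rcases le_or_gt t (2 * X) with h1 | h1
    · rw [indicator_of_mem (show t ∈ Icc (X / 2) (2 * X) from ⟨ht2, h1⟩)]
      refine le_trans ?_ le_self_add
      rw [← ENNReal.ofReal_mul (by positivity)]
      apply ENNReal.ofReal_le_ofReal
      have h3 : 0 < |t - n| := abs_pos.2 (sub_ne_zero.2 h2)
      have h5 := le_rpow_of 4 (by norm_num) (hf.f0 t) (by linarith : 0 ≤ C)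
        (by positivity : 0 < t * |t - n|) h4 3
      norm_num at h5
      refine h5.trans ?_
      rw [Real.mul_rpow ht0.le h3.le, ← mul_assoc]
      refine mul_le_mul_of_nonneg_right (mul_le_mul_of_nonneg_left ?_ (by positivity))
        (by positivity)
      exact Real.rpow_le_rpow_of_nonpos (by positivity) ht2 (by norm_num)
    · rw [indicator_of_mem (show t ∈ Ioi (2 * X) from h1)]
      refine le_trans ?_ le_add_self
      apply ENNReal.ofReal_le_ofReal
      have h3 : t / 2 ≤ |t - n| := by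
        rw [abs_of_pos (by linarith)]
        linarith
      have h3' : 0 < |t - n| := by linarith
      have h5 := le_rpow_of 4 (by norm_num) (hf.f0 t) (by linarith : 0 ≤ C)
        (by positivity : 0 < t * |t - n|) h4 3
      norm_num at h5
      refine h5.trans ?_
      have h6 : t * (t / 2) ≤ t * |t - n| := mul_le_mul_of_nonneg_left h3 ht0.le
      have h7 := Real.rpow_le_rpow_of_nonpos (z := -(3 / 4 : ℝ)) (by positivity) h6 (by norm_num)
      have h8 : (t * (t / 2)) ^ (-(3 / 4 : ℝ)) ≤ 2 * t ^ (-(3 / 2) : ℝ) := by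
        have e1 : t * (t / 2) = t ^ (2 : ℝ) * (1 / 2) := by
          rw [Real.rpow_two]
          ring
        rw [e1, Real.mul_rpow (by positivity) (by norm_num), ← Real.rpow_mul ht0.le]
        have e2 : (2 : ℝ) * -(3 / 4) = -(3 / 2) := by norm_num
        rw [e2, mul_comm]
        refine mul_le_mul_of_nonneg_right ?_ (by positivity)
        rw [one_div, Real.inv_rpow (by norm_num), Real.rpow_neg (by norm_num), inv_inv]
        calc (2 : ℝ) ^ (3 / 4 : ℝ) ≤ 2 ^ (1 : ℝ) :=
              Real.rpow_le_rpow_of_exponent_le (by norm_num) (by norm_num)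
          _ = 2 := Real.rpow_one 2
      calc C ^ 3 * (t * |t - n|) ^ (-(3 / 4 : ℝ)) ≤ C ^ 3 * (2 * t ^ (-(3 / 2) : ℝ)) :=
            mul_le_mul_of_nonneg_left (h7.trans h8) (by positivity)
        _ = _ := by ring
  have hae : ∀ᵐ t ∂(volume.restrict (Icc (max 1 (X / 2)) T)), ENNReal.ofReal (f t ^ 3) ≤
      (Icc (X / 2) (2 * X)).indicator (fun t => ENNReal.ofReal (C ^ 3 * (X / 2) ^ (-(3 / 4) : ℝ)) *
        ENNReal.ofReal (|t - n| ^ (-(3 / 4) : ℝ))) t +
      (Ioi (2 * X)).indicator (fun t => ENNReal.ofReal (2 * C ^ 3 * t ^ (-(3 / 2) : ℝ))) t := by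
    filter_upwards [ae_restrict_mem measurableSet_Icc,
      ae_restrict_of_ae ((Set.countable_singleton n).ae_notMem volume)] with t h1 h2
    exact hpt t h1 h2
  have i1 : ∫⁻ t in Icc (X / 2) (2 * X), ENNReal.ofReal (|t - n| ^ (-(3 / 4) : ℝ)) ≤
      ENNReal.ofReal (9 * (2 * X - X / 2) ^ (1 / 4 : ℝ)) := by
    have := pow_any (-(3 / 4)) n (X / 2) (2 * X) (by norm_num) (by norm_num) (by linarith)
    have e1 : (2 / (-(3 / 4) + 1) + 1 : ℝ) = 9 := by norm_num
    have e2 : (-(3 / 4) + 1 : ℝ) = 1 / 4 := by norm_num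
    rw [e1, e2] at this
    exact this
  have i2 : ∫⁻ t in Ioi (2 * X), ENNReal.ofReal (2 * C ^ 3 * t ^ (-(3 / 2) : ℝ)) =
      ENNReal.ofReal (2 * C ^ 3 * (2 * (2 * X) ^ (-(1 / 2) : ℝ))) := by
    have h1 : IntegrableOn (fun t : ℝ => t ^ (-(3 / 2) : ℝ)) (Ioi (2 * X)) :=
      integrableOn_Ioi_rpow_of_lt (by norm_num) (by positivity)
    rw [← ofReal_integral_eq_lintegral_ofReal (h1.const_mul _)]
    · have h2 : ∫ t in Ioi (2 * X), t ^ (-(3 / 2) : ℝ) = 2 * (2 * X) ^ (-(1 / 2) : ℝ) := by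
        rw [integral_Ioi_rpow_of_lt (by norm_num) (by positivity)]
        have e1 : (-(3 / 2) + 1 : ℝ) = -(1 / 2) := by norm_num
        rw [e1]
        ring
      rw [integral_const_mul, h2]
    · refine (ae_restrict_mem measurableSet_Ioi).mono fun t ht => ?_
      have : 0 < t := lt_trans (by positivity) ht
      simp only [Pi.zero_apply]
      positivity
  have v1 : (X / 2) ^ (-(3 / 4) : ℝ) * (2 * X - X / 2) ^ (1 / 4 : ℝ) ≤ 2 * X ^ (-(1 / 2) : ℝ) := by
    have e1 : 2 * X - X / 2 = X * (3 / 2) := by ring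
    have e2 : X / 2 = X * (1 / 2) := by ring
    rw [e1, e2, Real.mul_rpow hX0.le (by norm_num), Real.mul_rpow hX0.le (by norm_num)]
    have e3 : X ^ (-(3 / 4) : ℝ) * X ^ (1 / 4 : ℝ) = X ^ (-(1 / 2) : ℝ) := by
      rw [← Real.rpow_add hX0]
      norm_num
    have e4 : (1 / 2 : ℝ) ^ (-(3 / 4) : ℝ) * (3 / 2) ^ (1 / 4 : ℝ) ≤ 2 := by
      have f1 : ((1 / 2 : ℝ) ^ (-(3 / 4) : ℝ) * (3 / 2) ^ (1 / 4 : ℝ)) ^ 4 = 12 := by
        rw [mul_pow, ← Real.rpow_natCast, ← Real.rpow_mul (by norm_num), ← Real.rpow_natCast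
          ((3 / 2 : ℝ) ^ (1 / 4 : ℝ)), ← Real.rpow_mul (by norm_num)]
        norm_num
      have f2 : 0 ≤ (1 / 2 : ℝ) ^ (-(3 / 4) : ℝ) * (3 / 2) ^ (1 / 4 : ℝ) := by positivity
      by_contra hcon
      push Not at hcon
      have : (2 : ℝ) ^ 4 < ((1 / 2 : ℝ) ^ (-(3 / 4) : ℝ) * (3 / 2) ^ (1 / 4 : ℝ)) ^ 4 :=
        pow_lt_pow_left₀ hcon (by norm_num) (by norm_num)
      rw [f1] at this
      norm_num at this
    calc X ^ (-(3 / 4) : ℝ) * (1 / 2) ^ (-(3 / 4) : ℝ) * (X ^ (1 / 4 : ℝ) * (3 / 2) ^ (1 / 4 : ℝ)) =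
          (X ^ (-(3 / 4) : ℝ) * X ^ (1 / 4 : ℝ)) *
            ((1 / 2 : ℝ) ^ (-(3 / 4) : ℝ) * (3 / 2) ^ (1 / 4 : ℝ)) := by ring
      _ ≤ X ^ (-(1 / 2) : ℝ) * 2 := by
          rw [e3]
          exact mul_le_mul_of_nonneg_left e4 (by positivity)
      _ = _ := by ring
  have v2 : (2 * X) ^ (-(1 / 2) : ℝ) ≤ X ^ (-(1 / 2) : ℝ) :=
    Real.rpow_le_rpow_of_nonpos hX0 (by linarith) (by norm_num)
  calc ∫⁻ t in Icc (max 1 (X / 2)) T, ENNReal.ofReal (f t ^ 3)
      ≤ ∫⁻ t in Icc (max 1 (X / 2)) T, ((Icc (X / 2) (2 * X)).indicator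
          (fun t => ENNReal.ofReal (C ^ 3 * (X / 2) ^ (-(3 / 4) : ℝ)) *
          ENNReal.ofReal (|t - n| ^ (-(3 / 4) : ℝ))) t +
        (Ioi (2 * X)).indicator (fun t => ENNReal.ofReal (2 * C ^ 3 * t ^ (-(3 / 2) : ℝ))) t) :=
        lintegral_mono_ae hae
    _ ≤ ∫⁻ t, ((Icc (X / 2) (2 * X)).indicator
          (fun t => ENNReal.ofReal (C ^ 3 * (X / 2) ^ (-(3 / 4) : ℝ)) *
          ENNReal.ofReal (|t - n| ^ (-(3 / 4) : ℝ))) t +
        (Ioi (2 * X)).indicator (fun t => ENNReal.ofReal (2 * C ^ 3 * t ^ (-(3 / 2) : ℝ))) t) :=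
        setLIntegral_le_lintegral _ _
    _ = (∫⁻ t in Icc (X / 2) (2 * X), ENNReal.ofReal (C ^ 3 * (X / 2) ^ (-(3 / 4) : ℝ)) *
          ENNReal.ofReal (|t - n| ^ (-(3 / 4) : ℝ))) +
        ∫⁻ t in Ioi (2 * X), ENNReal.ofReal (2 * C ^ 3 * t ^ (-(3 / 2) : ℝ)) := by
        rw [lintegral_add_right _ (by
          refine Measurable.indicator ?_ measurableSet_Ioi
          fun_prop), lintegral_indicator measurableSet_Icc, lintegral_indicator measurableSet_Ioi]
    _ ≤ ENNReal.ofReal (C ^ 3 * (X / 2) ^ (-(3 / 4) : ℝ)) *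
          ENNReal.ofReal (9 * (2 * X - X / 2) ^ (1 / 4 : ℝ)) +
        ENNReal.ofReal (2 * C ^ 3 * (2 * (2 * X) ^ (-(1 / 2) : ℝ))) := by
        rw [lintegral_const_mul' _ _ ENNReal.ofReal_ne_top, i2]
        exact add_le_add (mul_le_mul' le_rfl i1) le_rfl
    _ ≤ _ := by
        rw [← ENNReal.ofReal_mul (by positivity), ← ENNReal.ofReal_add (by
          have : 0 ≤ 2 * X - X / 2 := by linarith
          positivity) (by positivity)]
        apply ENNReal.ofReal_le_ofReal
        have hC3 : 0 ≤ C ^ 3 := by positivity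
        have w1 := mul_le_mul_of_nonneg_left v1 (by positivity : 0 ≤ 9 * C ^ 3)
        have w2 := mul_le_mul_of_nonneg_left v2 (by positivity : 0 ≤ 4 * C ^ 3)
        have w3 : 0 ≤ C ^ 3 * X ^ (-(1 / 2) : ℝ) := by positivity
        nlinarith

theorem log_int (ℓ : ℝ) (hℓ : 0 ≤ ℓ) :
    ∫⁻ u in Icc (-ℓ) ℓ, ENNReal.ofReal (1 / (1 + |u|)) ≤ ENNReal.ofReal (2 * Real.log (1 + ℓ)) := by
  have hc : Continuous fun u : ℝ => 1 / (1 + |u|) := by
    refine continuous_const.div (by fun_prop) fun u => ?_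
    have := abs_nonneg u
    positivity
  have h1 : IntegrableOn (fun u : ℝ => 1 / (1 + |u|)) (Icc (-ℓ) ℓ) :=
    hc.continuousOn.integrableOn_Icc
  rw [← ofReal_integral_eq_lintegral_ofReal h1
    (Filter.Eventually.of_forall fun u => by
      have := abs_nonneg u
      simp only [Pi.zero_apply]
      positivity)]
  apply ENNReal.ofReal_le_ofReal
  rw [integral_Icc_eq_integral_Ioc, ← intervalIntegral.integral_of_le (by linarith)]
  have hi : ∀ a b : ℝ, IntervalIntegrable (fun u : ℝ => 1 / (1 + |u|)) volume a b :=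
    fun a b => hc.intervalIntegrable a b
  rw [← intervalIntegral.integral_add_adjacent_intervals (hi (-ℓ) 0) (hi 0 ℓ)]
  have h2 : ∫ u in (0 : ℝ)..ℓ, 1 / (1 + |u|) = Real.log (1 + ℓ) := by
    have e1 : ∫ u in (0 : ℝ)..ℓ, 1 / (1 + |u|) = ∫ u in (0 : ℝ)..ℓ, 1 / (u + 1) := by
      refine intervalIntegral.integral_congr fun u hu => ?_
      rw [uIcc_of_le hℓ] at hu
      rw [abs_of_nonneg hu.1, add_comm]
    rw [e1, intervalIntegral.integral_comp_add_right (fun u : ℝ => 1 / u) 1]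
    rw [integral_one_div_of_pos (by norm_num) (by linarith)]
    rw [zero_add, div_one, add_comm]
  have h3 : ∫ u in (-ℓ)..0, 1 / (1 + |u|) = Real.log (1 + ℓ) := by
    rw [← h2]
    have := intervalIntegral.integral_comp_neg (a := 0) (b := ℓ) (fun u : ℝ => 1 / (1 + |u|))
    rw [neg_zero] at this
    rw [← this]
    simp only [abs_neg]
  rw [h2, h3]
  linarith

theorem log_any (n a b : ℝ) (hab : a ≤ b) :
    ∫⁻ t in Icc a b, ENNReal.ofReal (1 / (1 + |t - n|)) ≤
      ENNReal.ofReal (2 * Real.log (1 + (b - a)) + 1) := by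
  set ℓ := b - a with hℓ
  have hℓ0 : 0 ≤ ℓ := by rw [hℓ]; linarith
  have hpt : ∀ t, ENNReal.ofReal (1 / (1 + |t - n|)) ≤
      (Icc (-ℓ) ℓ).indicator (fun u => ENNReal.ofReal (1 / (1 + |u|))) (t - n) +
        ENNReal.ofReal (1 / (1 + ℓ)) := by
    intro t
    by_cases h : t - n ∈ Icc (-ℓ) ℓ
    · rw [indicator_of_mem h]
      exact le_self_add
    · rw [indicator_of_notMem h, zero_add]
      apply ENNReal.ofReal_le_ofReal
      have h1 : ℓ ≤ |t - n| := by
        by_contra h2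
        push Not at h2
        exact h (abs_le.1 h2.le)
      exact one_div_le_one_div_of_le (by positivity) (by linarith)
  calc ∫⁻ t in Icc a b, ENNReal.ofReal (1 / (1 + |t - n|))
      ≤ ∫⁻ t in Icc a b, ((Icc (-ℓ) ℓ).indicator (fun u => ENNReal.ofReal (1 / (1 + |u|))) (t - n) +
        ENNReal.ofReal (1 / (1 + ℓ))) := lintegral_mono fun t => hpt t
    _ = (∫⁻ t in Icc a b, (Icc (-ℓ) ℓ).indicator (fun u => ENNReal.ofReal (1 / (1 + |u|))) (t - n)) +
        (∫⁻ t in Icc a b, ENNReal.ofReal (1 / (1 + ℓ))) := by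
        rw [lintegral_add_right _ measurable_const]
    _ ≤ ENNReal.ofReal (2 * Real.log (1 + ℓ)) + ENNReal.ofReal 1 := by
        refine add_le_add ?_ ?_
        · calc ∫⁻ t in Icc a b, (Icc (-ℓ) ℓ).indicator (fun u => ENNReal.ofReal (1 / (1 + |u|))) (t - n)
              ≤ ∫⁻ t, (Icc (-ℓ) ℓ).indicator (fun u => ENNReal.ofReal (1 / (1 + |u|))) (t - n) :=
                setLIntegral_le_lintegral _ _
            _ = ∫⁻ u, (Icc (-ℓ) ℓ).indicator (fun u => ENNReal.ofReal (1 / (1 + |u|))) u :=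
                lintegral_sub_right_eq_self _ n
            _ = ∫⁻ u in Icc (-ℓ) ℓ, ENNReal.ofReal (1 / (1 + |u|)) :=
                lintegral_indicator measurableSet_Icc _
            _ ≤ _ := log_int ℓ hℓ0
        · rw [setLIntegral_const, Real.volume_Icc, ← ENNReal.ofReal_mul (by positivity), ← hℓ]
          apply ENNReal.ofReal_le_ofReal
          rw [div_mul_eq_mul_div, one_mul, div_le_one (by positivity)]
          linarith
    _ = _ := by
        rw [← ENNReal.ofReal_add (by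
          have := Real.log_nonneg (by linarith : (1 : ℝ) ≤ 1 + ℓ)
          positivity) (by norm_num)]

/-- the triple product -/
theorem triple (hf : Osc f X T C) (hg : Osc g n' T C) (hh : Osc h n'' T C) (hC : 1 ≤ C)
    (hn' : n' ≤ X) (hn'' : n'' ≤ X) (hX : 1 / 2 ≤ X) (hs : 0 < s) (hT : 1 ≤ T) (hXT : X ≤ T) :
    ∫⁻ t in Ioi 0, ENNReal.ofReal (Real.exp (-(s * t)) * (f t * g t * h t)) ≤
      ENNReal.ofReal (60 * C ^ 3 * X ^ (-(1 / 2) : ℝ) + Real.exp (-(s * T)) / s) := by
  have hX0 : 0 < X := by linarith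
  have hsub : Ioi (0 : ℝ) ⊆ Ioc 0 1 ∪ (Icc 1 (X / 2) ∪ (Icc (max 1 (X / 2)) T ∪ Ioi T)) := by
    intro t ht
    have ht0 : 0 < t := ht
    rcases le_or_gt t 1 with h1 | h1
    · exact Or.inl ⟨ht0, h1⟩
    rcases le_or_gt t (X / 2) with h2 | h2
    · exact Or.inr (Or.inl ⟨h1.le, h2⟩)
    rcases le_or_gt t T with h3 | h3
    · exact Or.inr (Or.inr (Or.inl ⟨max_le h1.le h2.le, h3⟩))
    · exact Or.inr (Or.inr (Or.inr h3))
  have hX12 : (0 : ℝ) < X ^ (-(1 / 2) : ℝ) := by positivity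
  have hf0 := hf.f0
  have hg0 := hg.f0
  have hh0 := hh.f0
  have hC3 : 1 ≤ C ^ 3 := one_le_pow₀ hC
  have hexp : ∀ t, 0 ≤ t → Real.exp (-(s * t)) ≤ 1 := by
    intro t ht
    rw [Real.exp_le_one_iff]
    nlinarith
  have hgh1 : ∀ t, g t * h t ≤ 1 := by
    intro t
    calc g t * h t ≤ 1 * 1 := mul_le_mul (hg.f1 t) (hh.f1 t) (hh0 t) (by norm_num)
      _ = 1 := by norm_num
  -- piece 1
  have p1 : ∫⁻ t in Ioc 0 1, ENNReal.ofReal (Real.exp (-(s * t)) * (f t * g t * h t)) ≤
      ENNReal.ofReal (2 * C ^ 3 * X ^ (-(1 / 2) : ℝ)) := by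
    have h1 : ∀ t ∈ Ioc (0 : ℝ) 1, ENNReal.ofReal (Real.exp (-(s * t)) * (f t * g t * h t)) ≤
        ENNReal.ofReal (2 * C ^ 3 * X ^ (-(1 / 2) : ℝ)) := by
      intro t ht
      apply ENNReal.ofReal_le_ofReal
      have h2 : Real.exp (-(s * t)) * (f t * g t * h t) ≤ f t := by
        have e1 := hexp t ht.1.le
        have e2 := hgh1 t
        have e3 : f t * g t * h t ≤ f t := by
          have := mul_le_mul_of_nonneg_left e2 (hf0 t)
          linarith
        have e4 : 0 ≤ f t * g t * h t := mul_nonneg (mul_nonneg (hf0 t) (hg0 t)) (hh0 t)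
        nlinarith
      refine h2.trans ?_
      rcases le_or_gt X 2 with h3 | h3
      · have e1 : (1 : ℝ) / 2 ≤ X ^ (-(1 / 2) : ℝ) := by
          calc (1 : ℝ) / 2 ≤ 2 ^ (-(1 / 2) : ℝ) := by
                rw [Real.rpow_neg (by norm_num), ← Real.sqrt_eq_rpow, one_div]
                apply inv_anti₀ (Real.sqrt_pos.2 (by norm_num))
                rw [Real.sqrt_le_left (by norm_num)]
                norm_num
            _ ≤ X ^ (-(1 / 2) : ℝ) := Real.rpow_le_rpow_of_nonpos hX0 h3 (by norm_num)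
        have e2 := hf.f1 t
        nlinarith
      · have e1 := hf.a1 t ht.1.le (ht.2.trans hT) (by linarith [ht.2])
        have e2 : f t * (X / 2) ≤ C := by
          have : f t * (X / 2) ≤ f t * (X - t) :=
            mul_le_mul_of_nonneg_left (by linarith [ht.2]) (hf0 t)
          linarith
        have e3 : f t ≤ 2 * C * X⁻¹ := by
          rw [← div_eq_mul_inv, le_div_iff₀ hX0]
          linarith
        have e4 : X⁻¹ ≤ X ^ (-(1 / 2) : ℝ) := by
          rw [← Real.rpow_neg_one]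
          exact Real.rpow_le_rpow_of_exponent_le (by linarith) (by norm_num)
        calc f t ≤ 2 * C * X⁻¹ := e3
          _ ≤ 2 * C ^ 3 * X ^ (-(1 / 2) : ℝ) := by
              refine mul_le_mul ?_ e4 (by positivity) (by positivity)
              have : C ≤ C ^ 3 := by
                have := pow_le_pow_right₀ hC (show 1 ≤ 3 by norm_num)
                simpa using this
              linarith
    calc ∫⁻ t in Ioc 0 1, ENNReal.ofReal (Real.exp (-(s * t)) * (f t * g t * h t))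
        ≤ ∫⁻ t in Ioc (0 : ℝ) 1, ENNReal.ofReal (2 * C ^ 3 * X ^ (-(1 / 2) : ℝ)) :=
          setLIntegral_mono measurable_const h1
      _ = _ := by
          rw [setLIntegral_const, Real.volume_Ioc]
          simp
  -- piece 2
  have p2 : ∫⁻ t in Icc 1 (X / 2), ENNReal.ofReal (Real.exp (-(s * t)) * (f t * g t * h t)) ≤
      ENNReal.ofReal (12 * C ^ 3 * X ^ (-(1 / 2) : ℝ)) := by
    have h1 : ∀ t ∈ Icc (1 : ℝ) (X / 2),
        ENNReal.ofReal (Real.exp (-(s * t)) * (f t * g t * h t)) ≤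
        ENNReal.ofReal (2 * C ^ 3 / X) * ENNReal.ofReal (t ^ (-(2 / 3) : ℝ)) := by
      intro t ht
      have ht0 : 0 < t := by linarith [ht.1]
      have htT : t ≤ T := by linarith [ht.2]
      rw [← ENNReal.ofReal_mul (by positivity)]
      apply ENNReal.ofReal_le_ofReal
      have e1 := hf.a1 t ht0.le htT (by linarith [ht.2])
      have e2 : f t * (X / 2) ≤ C := by
        have : f t * (X / 2) ≤ f t * (X - t) :=
          mul_le_mul_of_nonneg_left (by linarith [ht.2]) (hf0 t)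
        linarith
      have e3 : f t ≤ 2 * C / X := by
        rw [le_div_iff₀ hX0]
        linarith
      have e4 := le_rpow_of 3 (by norm_num) (hg0 t) (by linarith : 0 ≤ C) ht0
        (hg.a3 t ht.1 htT) 2
      have e5 := le_rpow_of 3 (by norm_num) (hh0 t) (by linarith : 0 ≤ C) ht0
        (hh.a3 t ht.1 htT) 2
      norm_num at e4 e5
      have e6 : g t * h t ≤ C ^ 2 * t ^ (-(2 / 3) : ℝ) := by
        nlinarith [sq_nonneg (g t - h t)]
      have e7 : f t * g t * h t ≤ 2 * C / X * (C ^ 2 * t ^ (-(2 / 3) : ℝ)) := by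
        rw [mul_assoc]
        exact mul_le_mul e3 e6 (mul_nonneg (hg0 t) (hh0 t)) (by positivity)
      have e8 : Real.exp (-(s * t)) * (f t * g t * h t) ≤ f t * g t * h t := by
        have := hexp t ht0.le
        have e4 : 0 ≤ f t * g t * h t := mul_nonneg (mul_nonneg (hf0 t) (hg0 t)) (hh0 t)
        nlinarith
      refine e8.trans (e7.trans (le_of_eq ?_))
      ring
    rcases le_or_gt (X / 2) 1 with h2 | h2
    · have : Icc (1 : ℝ) (X / 2) ⊆ {1} := by
        intro t ht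
        have : t = 1 := le_antisymm (ht.2.trans h2) ht.1
        exact this
      refine (lintegral_mono_set this).trans ?_
      rw [setLIntegral_measure_zero _ _ (measure_singleton 1)]
      exact zero_le
    · have h3 : ∫⁻ t in Icc 1 (X / 2), ENNReal.ofReal (t ^ (-(2 / 3) : ℝ)) ≤
          ENNReal.ofReal (3 * X ^ (1 / 3 : ℝ)) := by
        calc ∫⁻ t in Icc 1 (X / 2), ENNReal.ofReal (t ^ (-(2 / 3) : ℝ))
            ≤ ∫⁻ t in Ioc 0 X, ENNReal.ofReal (t ^ (-(2 / 3) : ℝ)) :=
              lintegral_mono_set fun t ht => ⟨by linarith [ht.1], by linarith [ht.2]⟩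
          _ = ENNReal.ofReal (X ^ (-(2 / 3) + 1 : ℝ) / (-(2 / 3) + 1)) :=
              pow_int (-(2 / 3)) X (by norm_num) hX0
          _ = _ := by
              congr 1
              have e1 : (-(2 / 3) + 1 : ℝ) = 1 / 3 := by norm_num
              rw [e1]
              ring
      calc ∫⁻ t in Icc 1 (X / 2), ENNReal.ofReal (Real.exp (-(s * t)) * (f t * g t * h t))
          ≤ ∫⁻ t in Icc 1 (X / 2), ENNReal.ofReal (2 * C ^ 3 / X) *
              ENNReal.ofReal (t ^ (-(2 / 3) : ℝ)) := setLIntegral_mono (by fun_prop) h1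
        _ = ENNReal.ofReal (2 * C ^ 3 / X) *
              ∫⁻ t in Icc 1 (X / 2), ENNReal.ofReal (t ^ (-(2 / 3) : ℝ)) :=
            lintegral_const_mul' _ _ ENNReal.ofReal_ne_top
        _ ≤ ENNReal.ofReal (2 * C ^ 3 / X) * ENNReal.ofReal (3 * X ^ (1 / 3 : ℝ)) :=
            mul_le_mul' le_rfl h3
        _ ≤ _ := by
            rw [← ENNReal.ofReal_mul (by positivity)]
            apply ENNReal.ofReal_le_ofReal
            have e1 : X ^ (1 / 3 : ℝ) / X ≤ X ^ (-(1 / 2) : ℝ) := by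
              rw [← Real.rpow_sub_one hX0.ne']
              exact Real.rpow_le_rpow_of_exponent_le (by linarith) (by norm_num)
            calc 2 * C ^ 3 / X * (3 * X ^ (1 / 3 : ℝ)) = 6 * C ^ 3 * (X ^ (1 / 3 : ℝ) / X) := by
                  ring
              _ ≤ 6 * C ^ 3 * X ^ (-(1 / 2) : ℝ) := mul_le_mul_of_nonneg_left e1 (by positivity)
              _ ≤ _ := by
                  have : 0 < C ^ 3 * X ^ (-(1 / 2) : ℝ) := by positivity
                  linarith
  -- piece 3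
  have p3 : ∫⁻ t in Icc (max 1 (X / 2)) T,
      ENNReal.ofReal (Real.exp (-(s * t)) * (f t * g t * h t)) ≤
      ENNReal.ofReal (30 * C ^ 3 * X ^ (-(1 / 2) : ℝ)) := by
    have c1 := cube_far hf hC le_rfl hX
    have c2 := cube_far hg hC hn' hX
    have c3 := cube_far hh hC hn'' hX
    have h1 : ∀ t ∈ Icc (max 1 (X / 2)) T,
        ENNReal.ofReal (Real.exp (-(s * t)) * (f t * g t * h t)) ≤
        ENNReal.ofReal (1 / 3) * (ENNReal.ofReal (f t ^ 3) + (ENNReal.ofReal (g t ^ 3) +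
          ENNReal.ofReal (h t ^ 3))) := by
      intro t ht
      have ht0 : 0 ≤ t := by linarith [(le_max_left 1 (X / 2)).trans ht.1]
      rw [← ENNReal.ofReal_add (pow_nonneg (hg0 t) 3) (pow_nonneg (hh0 t) 3),
        ← ENNReal.ofReal_add (pow_nonneg (hf0 t) 3)
          (add_nonneg (pow_nonneg (hg0 t) 3) (pow_nonneg (hh0 t) 3)),
        ← ENNReal.ofReal_mul (by norm_num)]
      apply ENNReal.ofReal_le_ofReal
      have e8 : Real.exp (-(s * t)) * (f t * g t * h t) ≤ f t * g t * h t := by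
        have := hexp t ht0
        have e4 : 0 ≤ f t * g t * h t := mul_nonneg (mul_nonneg (hf0 t) (hg0 t)) (hh0 t)
        nlinarith
      have e9 : f t * g t * h t ≤ 1 / 3 * (f t ^ 3 + (g t ^ 3 + h t ^ 3)) := by
        have a := hf0 t
        have b := hg0 t
        have c := hh0 t
        nlinarith [mul_nonneg (add_nonneg (add_nonneg a b) c)
          (add_nonneg (add_nonneg (sq_nonneg (f t - g t)) (sq_nonneg (g t - h t)))
            (sq_nonneg (f t - h t)))]
      exact e8.trans e9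
    have mf : Measurable fun t => ENNReal.ofReal (f t ^ 3) :=
      (hf.fm.pow_const 3).ennreal_ofReal
    have mg : Measurable fun t => ENNReal.ofReal (g t ^ 3) :=
      (hg.fm.pow_const 3).ennreal_ofReal
    have mh : Measurable fun t => ENNReal.ofReal (h t ^ 3) :=
      (hh.fm.pow_const 3).ennreal_ofReal
    calc ∫⁻ t in Icc (max 1 (X / 2)) T,
        ENNReal.ofReal (Real.exp (-(s * t)) * (f t * g t * h t))
        ≤ ∫⁻ t in Icc (max 1 (X / 2)) T, ENNReal.ofReal (1 / 3) * (ENNReal.ofReal (f t ^ 3) +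
          (ENNReal.ofReal (g t ^ 3) + ENNReal.ofReal (h t ^ 3))) :=
          setLIntegral_mono ((mf.add (mg.add mh)).const_mul _) h1
      _ = ENNReal.ofReal (1 / 3) * ((∫⁻ t in Icc (max 1 (X / 2)) T, ENNReal.ofReal (f t ^ 3)) +
          ((∫⁻ t in Icc (max 1 (X / 2)) T, ENNReal.ofReal (g t ^ 3)) +
            (∫⁻ t in Icc (max 1 (X / 2)) T, ENNReal.ofReal (h t ^ 3)))) := by
          rw [lintegral_const_mul' _ _ ENNReal.ofReal_ne_top, lintegral_add_left mf,
            lintegral_add_left mg]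
      _ ≤ ENNReal.ofReal (1 / 3) * (ENNReal.ofReal (30 * C ^ 3 * X ^ (-(1 / 2) : ℝ)) +
          (ENNReal.ofReal (30 * C ^ 3 * X ^ (-(1 / 2) : ℝ)) +
            ENNReal.ofReal (30 * C ^ 3 * X ^ (-(1 / 2) : ℝ)))) :=
          mul_le_mul' le_rfl (add_le_add c1 (add_le_add c2 c3))
      _ = _ := by
          rw [← ENNReal.ofReal_add (by positivity) (by positivity),
            ← ENNReal.ofReal_add (by positivity) (by positivity),
            ← ENNReal.ofReal_mul (by norm_num)]
          congr 1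
          ring
  have p4 : ∫⁻ t in Ioi T, ENNReal.ofReal (Real.exp (-(s * t)) * (f t * g t * h t)) ≤
      ENNReal.ofReal (Real.exp (-(s * T)) / s) := by
    rw [← exp_int s hs T]
    refine lintegral_mono fun t => ENNReal.ofReal_le_ofReal ?_
    have e1 : f t * g t * h t ≤ 1 := by
      have := mul_le_mul (hf.f1 t) (hgh1 t) (mul_nonneg (hg0 t) (hh0 t)) (by norm_num)
      linarith
    calc Real.exp (-(s * t)) * (f t * g t * h t) ≤ Real.exp (-(s * t)) * 1 :=
          mul_le_mul_of_nonneg_left e1 (Real.exp_pos _).le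
      _ = _ := mul_one _
  refine (lintegral_mono_set hsub).trans ((lintegral_union_le _ _ _).trans ?_)
  refine (add_le_add p1 ((lintegral_union_le _ _ _).trans (add_le_add p2
    ((lintegral_union_le _ _ _).trans (add_le_add p3 p4))))).trans ?_
  rw [← ENNReal.ofReal_add (by positivity) (by positivity),
    ← ENNReal.ofReal_add (by positivity) (by positivity),
    ← ENNReal.ofReal_add (by positivity) (by positivity)]
  apply ENNReal.ofReal_le_ofReal
  have : 0 < C ^ 3 * X ^ (-(1 / 2) : ℝ) := by positivity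
  linarith

/-- the second moment -/
theorem square (hf : Osc f n T C) (hC : 1 ≤ C) (hs : 0 < s) (hT : 1 ≤ T) :
    ∫⁻ t in Ioi 0, ENNReal.ofReal (Real.exp (-(s * t)) * f t ^ 2) ≤
      ENNReal.ofReal (C ^ 2 * (14 + 4 * Real.log (1 + T)) + Real.exp (-(s * T)) / s) := by
  have hsub : Ioi (0 : ℝ) ⊆ Ioc 0 1 ∪ (Icc 1 T ∪ Ioi T) := by
    intro t ht
    have ht0 : 0 < t := ht
    rcases le_or_gt t 1 with h1 | h1
    · exact Or.inl ⟨ht0, h1⟩
    rcases le_or_gt t T with h3 | h3
    · exact Or.inr (Or.inl ⟨h1.le, h3⟩)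
    · exact Or.inr (Or.inr h3)
  have hf0 := hf.f0
  have hexp : ∀ t, 0 ≤ t → Real.exp (-(s * t)) ≤ 1 := by
    intro t ht
    rw [Real.exp_le_one_iff]
    nlinarith
  have hC2 : 1 ≤ C ^ 2 := one_le_pow₀ hC
  have hf2 : ∀ t, f t ^ 2 ≤ 1 := fun t => pow_le_one₀ (hf0 t) (hf.f1 t)
  have hlog : 0 ≤ Real.log (1 + T) := Real.log_nonneg (by linarith)
  have p1 : ∫⁻ t in Ioc 0 1, ENNReal.ofReal (Real.exp (-(s * t)) * f t ^ 2) ≤
      ENNReal.ofReal (C ^ 2 * 1) := by
    calc ∫⁻ t in Ioc 0 1, ENNReal.ofReal (Real.exp (-(s * t)) * f t ^ 2)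
        ≤ ∫⁻ t in Ioc (0 : ℝ) 1, ENNReal.ofReal (C ^ 2 * 1) := by
          refine setLIntegral_mono measurable_const fun t ht => ENNReal.ofReal_le_ofReal ?_
          have e1 := hexp t ht.1.le
          have e2 := hf2 t
          have e3 : 0 ≤ f t ^ 2 := by positivity
          have e4 := (Real.exp_pos (-(s * t))).le
          nlinarith
      _ = _ := by
          rw [setLIntegral_const, Real.volume_Ioc]
          simp
  have p2 : ∫⁻ t in Icc 1 T, ENNReal.ofReal (Real.exp (-(s * t)) * f t ^ 2) ≤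
      ENNReal.ofReal (C ^ 2 * (12 + 4 * Real.log (1 + T))) := by
    have hpt : ∀ t ∈ Icc 1 T, t ≠ n → ENNReal.ofReal (Real.exp (-(s * t)) * f t ^ 2) ≤
        ENNReal.ofReal (C ^ 2) * ((Icc (n - 1) (n + 1)).indicator
          (fun t => ENNReal.ofReal (|t - n| ^ (-(1 / 2) : ℝ))) t +
          (ENNReal.ofReal (1 / (1 + |t - 0|)) + ENNReal.ofReal (1 / (1 + |t - n|)))) := by
      intro t ht h2
      have ht0 : 0 < t := by linarith [ht.1]
      have h3 : 0 < |t - n| := abs_pos.2 (sub_ne_zero.2 h2)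
      have h5 := le_rpow_of 4 (by norm_num) (hf.f0 t) (by linarith : 0 ≤ C)
        (by positivity : 0 < t * |t - n|) (hf.a4 t ht.1 ht.2) 2
      norm_num at h5
      have h6 : Real.exp (-(s * t)) * f t ^ 2 ≤ C ^ 2 * (t * |t - n|) ^ (-(1 / 2) : ℝ) := by
        have e1 := hexp t ht0.le
        have e3 : 0 ≤ f t ^ 2 := by positivity
        nlinarith
      rcases le_or_gt |t - n| 1 with h7 | h7
      · have h8 : t ∈ Icc (n - 1) (n + 1) := by
          rw [abs_le] at h7
          exact ⟨by linarith [h7.1], by linarith [h7.2]⟩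
        rw [indicator_of_mem h8]
        refine le_trans ?_ (mul_le_mul' le_rfl le_self_add)
        rw [← ENNReal.ofReal_mul (by positivity)]
        apply ENNReal.ofReal_le_ofReal
        refine h6.trans (mul_le_mul_of_nonneg_left ?_ (by positivity))
        refine Real.rpow_le_rpow_of_nonpos h3 ?_ (by norm_num)
        nlinarith [ht.1]
      · refine le_trans ?_ (mul_le_mul' le_rfl le_add_self)
        rw [← ENNReal.ofReal_add (by positivity) (by positivity),
          ← ENNReal.ofReal_mul (by positivity)]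
        apply ENNReal.ofReal_le_ofReal
        refine h6.trans (mul_le_mul_of_nonneg_left ?_ (by positivity))
        rw [sub_zero, abs_of_pos ht0, Real.rpow_neg (by positivity), ← Real.sqrt_eq_rpow]
        have e1 : 0 < Real.sqrt (t * |t - n|) := Real.sqrt_pos.2 (by positivity)
        have e2 : Real.sqrt (t * |t - n|) ^ 2 = t * |t - n| := Real.sq_sqrt (by positivity)
        have e3 : (Real.sqrt (t * |t - n|))⁻¹ ≤ 1 / 2 * (1 / t + 1 / |t - n|) := by
          have f1 : 1 / 2 * (1 / t + 1 / |t - n|) = (t + |t - n|) / (2 * (t * |t - n|)) := by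
            field_simp
            ring
          rw [f1, ← one_div]
          generalize Real.sqrt (t * |t - n|) = r at e1 e2
          rw [div_le_div_iff₀ e1 (by positivity)]
          have f2 : 2 * r ≤ t + |t - n| := by
            have f3 : (2 * r) ^ 2 ≤ (t + |t - n|) ^ 2 := by
              rw [mul_pow, e2]
              nlinarith [sq_nonneg (t - |t - n|)]
            exact le_of_sq_le_sq f3 (by positivity)
          rw [← e2]
          nlinarith
        have e4 : 1 / t ≤ 2 * (1 / (1 + t)) := by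
          rw [mul_one_div, div_le_div_iff₀ ht0 (by positivity)]
          linarith [ht.1]
        have e5 : 1 / |t - n| ≤ 2 * (1 / (1 + |t - n|)) := by
          rw [mul_one_div, div_le_div_iff₀ h3 (by positivity)]
          linarith
        linarith
    have hae : ∀ᵐ t ∂(volume.restrict (Icc 1 T)),
        ENNReal.ofReal (Real.exp (-(s * t)) * f t ^ 2) ≤
        ENNReal.ofReal (C ^ 2) * ((Icc (n - 1) (n + 1)).indicator
          (fun t => ENNReal.ofReal (|t - n| ^ (-(1 / 2) : ℝ))) t +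
          (ENNReal.ofReal (1 / (1 + |t - 0|)) + ENNReal.ofReal (1 / (1 + |t - n|)))) := by
      filter_upwards [ae_restrict_mem measurableSet_Icc,
        ae_restrict_of_ae ((Set.countable_singleton n).ae_notMem volume)] with t h1 h2
      exact hpt t h1 h2
    have m1 : Measurable fun t : ℝ => ENNReal.ofReal (1 / (1 + |t - 0|)) := by fun_prop
    have m2 : Measurable fun t : ℝ => ENNReal.ofReal (1 / (1 + |t - n|)) := by fun_prop
    have i1 : ∫⁻ t in Icc 1 T, (Icc (n - 1) (n + 1)).indicator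
          (fun t => ENNReal.ofReal (|t - n| ^ (-(1 / 2) : ℝ))) t ≤ ENNReal.ofReal 10 := by
      refine (setLIntegral_le_lintegral _ _).trans ?_
      rw [lintegral_indicator measurableSet_Icc]
      refine (pow_any (-(1 / 2)) n (n - 1) (n + 1) (by norm_num) (by norm_num)
        (by linarith)).trans ?_
      apply ENNReal.ofReal_le_ofReal
      have e1 : (n + 1 - (n - 1)) = 2 := by ring
      rw [e1]
      have e2 : (-(1 / 2) + 1 : ℝ) = 1 / 2 := by norm_num
      rw [e2, ← Real.sqrt_eq_rpow]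
      have e3 : Real.sqrt 2 ≤ 2 := by
        rw [Real.sqrt_le_left (by norm_num)]
        norm_num
      norm_num
      linarith
    calc ∫⁻ t in Icc 1 T, ENNReal.ofReal (Real.exp (-(s * t)) * f t ^ 2)
        ≤ ∫⁻ t in Icc 1 T, ENNReal.ofReal (C ^ 2) * ((Icc (n - 1) (n + 1)).indicator
          (fun t => ENNReal.ofReal (|t - n| ^ (-(1 / 2) : ℝ))) t +
          (ENNReal.ofReal (1 / (1 + |t - 0|)) + ENNReal.ofReal (1 / (1 + |t - n|)))) :=
          lintegral_mono_ae hae
      _ = ENNReal.ofReal (C ^ 2) * ((∫⁻ t in Icc 1 T, (Icc (n - 1) (n + 1)).indicator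
          (fun t => ENNReal.ofReal (|t - n| ^ (-(1 / 2) : ℝ))) t) +
          ((∫⁻ t in Icc 1 T, ENNReal.ofReal (1 / (1 + |t - 0|))) +
            (∫⁻ t in Icc 1 T, ENNReal.ofReal (1 / (1 + |t - n|))))) := by
          have m12 : Measurable fun t : ℝ => ENNReal.ofReal (1 / (1 + |t - 0|)) +
            ENNReal.ofReal (1 / (1 + |t - n|)) := m1.add m2
          rw [lintegral_const_mul' _ _ ENNReal.ofReal_ne_top, lintegral_add_right _ m12,
            lintegral_add_left m1]
      _ ≤ ENNReal.ofReal (C ^ 2) * (ENNReal.ofReal 10 +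
          (ENNReal.ofReal (2 * Real.log (1 + (T - 1)) + 1) +
            ENNReal.ofReal (2 * Real.log (1 + (T - 1)) + 1))) :=
          mul_le_mul' le_rfl (add_le_add i1 (add_le_add (log_any 0 1 T hT) (log_any n 1 T hT)))
      _ ≤ _ := by
          have e1 : Real.log (1 + (T - 1)) ≤ Real.log (1 + T) :=
            Real.log_le_log (by linarith) (by linarith)
          have e2 : 0 ≤ Real.log (1 + (T - 1)) := Real.log_nonneg (by linarith)
          rw [← ENNReal.ofReal_add (by positivity) (by positivity),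
            ← ENNReal.ofReal_add (by positivity) (by positivity),
            ← ENNReal.ofReal_mul (by positivity)]
          apply ENNReal.ofReal_le_ofReal
          refine mul_le_mul_of_nonneg_left ?_ (by positivity)
          linarith
  have p4 : ∫⁻ t in Ioi T, ENNReal.ofReal (Real.exp (-(s * t)) * f t ^ 2) ≤
      ENNReal.ofReal (Real.exp (-(s * T)) / s) := by
    rw [← exp_int s hs T]
    refine lintegral_mono fun t => ENNReal.ofReal_le_ofReal ?_
    calc Real.exp (-(s * t)) * f t ^ 2 ≤ Real.exp (-(s * t)) * 1 :=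
          mul_le_mul_of_nonneg_left (hf2 t) (Real.exp_pos _).le
      _ = _ := mul_one _
  refine (lintegral_mono_set hsub).trans ((lintegral_union_le _ _ _).trans ?_)
  refine (add_le_add p1 ((lintegral_union_le _ _ _).trans (add_le_add p2 p4))).trans ?_
  rw [← ENNReal.ofReal_add (by positivity) (by positivity),
    ← ENNReal.ofReal_add (by positivity) (by positivity)]
  apply ENNReal.ofReal_le_ofReal
  nlinarith

/-- the double integral -/
theorem double (hf : Osc f n T C) (hC : 1 ≤ C) (hs : 0 < s) (hT : 1 ≤ T)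
    (k : ℝ → ℝ) (hk : Measurable k) (hk0 : ∀ t, 0 ≤ k t) (hk1 : ∀ t, k t ≤ 1)
    (hke : ∀ t, k (-t) = k t) (hkT : ∀ t, |t| ≤ T → k t ≤ 100 / (1 + |t|)) :
    ∫⁻ t in Ioi (0 : ℝ), ∫⁻ u in Ioi (0 : ℝ),
      ENNReal.ofReal (Real.exp (-(s * (t + u))) * (f t * f u) * k (t - u)) ≤
      ENNReal.ofReal ((C ^ 2 * (14 + 4 * Real.log (1 + T)) + Real.exp (-(s * T)) / s) *
        (100 * (2 * Real.log (1 + T) + 1) + Real.exp (-(s * T)) / s) +
        Real.exp (-(s * T)) / s * (1 / s)) := by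
  have hf0 := hf.f0
  have hlog : 0 ≤ Real.log (1 + T) := Real.log_nonneg (by linarith)
  have hexp : ∀ t, 0 ≤ t → Real.exp (-(s * t)) ≤ 1 := by
    intro t ht
    rw [Real.exp_le_one_iff]
    nlinarith
  have hf2 : ∀ t, f t ^ 2 ≤ 1 := fun t => pow_le_one₀ (hf0 t) (hf.f1 t)
  -- the symmetric kernel
  set F : ℝ → ℝ → ℝ≥0∞ := fun t u => ENNReal.ofReal (Real.exp (-(s * t)) * f t ^ 2) *
    ENNReal.ofReal (Real.exp (-(s * u)) * k (t - u)) with hF
  have hm : Measurable (Function.uncurry F) := by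
    simp only [hF, Function.uncurry]
    have a1 := hf.fm
    fun_prop
  have hpt : ∀ t u, ENNReal.ofReal (Real.exp (-(s * (t + u))) * (f t * f u) * k (t - u)) ≤
      ENNReal.ofReal (1 / 2) * F t u + ENNReal.ofReal (1 / 2) * F u t := by
    intro t u
    simp only [hF]
    rw [← ENNReal.ofReal_mul (mul_nonneg (Real.exp_pos _).le (by positivity)),
      ← ENNReal.ofReal_mul (mul_nonneg (Real.exp_pos _).le (by positivity)),
      ← ENNReal.ofReal_mul (by norm_num), ← ENNReal.ofReal_mul (by norm_num),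
      ← ENNReal.ofReal_add
        (mul_nonneg (by norm_num) (mul_nonneg (mul_nonneg (Real.exp_pos _).le (by positivity))
          (mul_nonneg (Real.exp_pos _).le (hk0 _))))
        (mul_nonneg (by norm_num) (mul_nonneg (mul_nonneg (Real.exp_pos _).le (by positivity))
          (mul_nonneg (Real.exp_pos _).le (hk0 _))))]
    apply ENNReal.ofReal_le_ofReal
    have e1 : k (u - t) = k (t - u) := by rw [← hke (t - u), neg_sub]
    have e2 : Real.exp (-(s * (t + u))) = Real.exp (-(s * t)) * Real.exp (-(s * u)) := by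
      rw [← Real.exp_add]
      congr 1
      ring
    rw [e1, e2]
    have e3 : 0 ≤ Real.exp (-(s * t)) * Real.exp (-(s * u)) * k (t - u) :=
      mul_nonneg (by positivity) (hk0 _)
    have e4 : f t * f u ≤ 1 / 2 * f t ^ 2 + 1 / 2 * f u ^ 2 := by
      nlinarith [sq_nonneg (f t - f u)]
    have e5 := mul_le_mul_of_nonneg_left e4 e3
    nlinarith
  have hsw : ∫⁻ t in Ioi (0 : ℝ), ∫⁻ u in Ioi (0 : ℝ), F u t =
      ∫⁻ t in Ioi (0 : ℝ), ∫⁻ u in Ioi (0 : ℝ), F t u := by
    rw [lintegral_lintegral_swap]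
    exact (hm.comp measurable_swap).aemeasurable
  have hmu : ∀ t, Measurable (F t) := fun t => hm.comp measurable_prodMk_left
  have hmu' : ∀ t, Measurable fun u => F u t := fun t => hm.comp measurable_prodMk_right
  have step1 : ∫⁻ t in Ioi (0 : ℝ), ∫⁻ u in Ioi (0 : ℝ),
      ENNReal.ofReal (Real.exp (-(s * (t + u))) * (f t * f u) * k (t - u)) ≤
      ∫⁻ t in Ioi (0 : ℝ), ∫⁻ u in Ioi (0 : ℝ), F t u := by
    calc ∫⁻ t in Ioi (0 : ℝ), ∫⁻ u in Ioi (0 : ℝ),
        ENNReal.ofReal (Real.exp (-(s * (t + u))) * (f t * f u) * k (t - u))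
        ≤ ∫⁻ t in Ioi (0 : ℝ), ∫⁻ u in Ioi (0 : ℝ),
          (ENNReal.ofReal (1 / 2) * F t u + ENNReal.ofReal (1 / 2) * F u t) :=
          lintegral_mono fun t => lintegral_mono fun u => hpt t u
      _ = ∫⁻ t in Ioi (0 : ℝ), (ENNReal.ofReal (1 / 2) * (∫⁻ u in Ioi (0 : ℝ), F t u) +
          ENNReal.ofReal (1 / 2) * (∫⁻ u in Ioi (0 : ℝ), F u t)) := by
          refine lintegral_congr fun t => ?_
          rw [lintegral_add_left ((hmu t).const_mul _),
            lintegral_const_mul' (ENNReal.ofReal (1 / 2)) (F t) ENNReal.ofReal_ne_top,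
            lintegral_const_mul' (ENNReal.ofReal (1 / 2)) (fun u => F u t) ENNReal.ofReal_ne_top]
      _ = ENNReal.ofReal (1 / 2) * (∫⁻ t in Ioi (0 : ℝ), ∫⁻ u in Ioi (0 : ℝ), F t u) +
          ENNReal.ofReal (1 / 2) * (∫⁻ t in Ioi (0 : ℝ), ∫⁻ u in Ioi (0 : ℝ), F u t) := by
          have mB : Measurable fun t => ∫⁻ u in Ioi (0 : ℝ), F t u := hm.lintegral_prod_right'
          have mA : Measurable fun t => ENNReal.ofReal (1 / 2) * ∫⁻ u in Ioi (0 : ℝ), F t u :=
            mB.const_mul _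
          rw [lintegral_add_left mA,
            lintegral_const_mul' (ENNReal.ofReal (1 / 2)) (fun t => ∫⁻ u in Ioi (0 : ℝ), F t u)
              ENNReal.ofReal_ne_top,
            lintegral_const_mul' (ENNReal.ofReal (1 / 2)) (fun t => ∫⁻ u in Ioi (0 : ℝ), F u t)
              ENNReal.ofReal_ne_top]
      _ = ∫⁻ t in Ioi (0 : ℝ), ∫⁻ u in Ioi (0 : ℝ), F t u := by
          rw [hsw, ← add_mul, ← ENNReal.ofReal_add (by norm_num) (by norm_num)]
          norm_num
  refine step1.trans ?_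
  -- the inner integral
  have inner_all : ∀ t, ∫⁻ u in Ioi (0 : ℝ), ENNReal.ofReal (Real.exp (-(s * u)) * k (t - u)) ≤
      ENNReal.ofReal (1 / s) := by
    intro t
    have e0 : ENNReal.ofReal (1 / s) = ∫⁻ u in Ioi (0 : ℝ), ENNReal.ofReal (Real.exp (-(s * u))) := by
      rw [exp_int s hs 0]
      simp
    rw [e0]
    refine lintegral_mono fun u => ENNReal.ofReal_le_ofReal ?_
    calc Real.exp (-(s * u)) * k (t - u) ≤ Real.exp (-(s * u)) * 1 :=
          mul_le_mul_of_nonneg_left (hk1 _) (Real.exp_pos _).le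
      _ = _ := mul_one _
  have inner : ∀ t, 0 < t → t ≤ T →
      ∫⁻ u in Ioi (0 : ℝ), ENNReal.ofReal (Real.exp (-(s * u)) * k (t - u)) ≤
      ENNReal.ofReal (100 * (2 * Real.log (1 + T) + 1) + Real.exp (-(s * T)) / s) := by
    intro t ht0 htT
    have hsub : Ioi (0 : ℝ) ⊆ Icc 0 T ∪ Ioi T := by
      intro u hu
      rcases le_or_gt u T with h | h
      · exact Or.inl ⟨le_of_lt hu, h⟩
      · exact Or.inr h
    have q1 : ∫⁻ u in Icc 0 T, ENNReal.ofReal (Real.exp (-(s * u)) * k (t - u)) ≤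
        ENNReal.ofReal (100 * (2 * Real.log (1 + T) + 1)) := by
      calc ∫⁻ u in Icc 0 T, ENNReal.ofReal (Real.exp (-(s * u)) * k (t - u))
          ≤ ∫⁻ u in Icc 0 T, ENNReal.ofReal 100 * ENNReal.ofReal (1 / (1 + |u - t|)) := by
            refine setLIntegral_mono (by fun_prop) fun u hu => ?_
            rw [← ENNReal.ofReal_mul (by norm_num)]
            apply ENNReal.ofReal_le_ofReal
            have e1 : |t - u| ≤ T := by
              rw [abs_le]
              constructor <;> linarith [hu.1, hu.2]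
            have e2 := hkT (t - u) e1
            have e3 := hexp u hu.1
            have e4 := hk0 (t - u)
            rw [abs_sub_comm u t]
            calc Real.exp (-(s * u)) * k (t - u) ≤ 1 * k (t - u) :=
                  mul_le_mul_of_nonneg_right e3 e4
              _ = k (t - u) := one_mul _
              _ ≤ 100 / (1 + |t - u|) := e2
              _ = _ := by ring
        _ = ENNReal.ofReal 100 * ∫⁻ u in Icc 0 T, ENNReal.ofReal (1 / (1 + |u - t|)) :=
            lintegral_const_mul' _ _ ENNReal.ofReal_ne_top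
        _ ≤ ENNReal.ofReal 100 * ENNReal.ofReal (2 * Real.log (1 + (T - 0)) + 1) :=
            mul_le_mul' le_rfl (log_any t 0 T (by linarith))
        _ = _ := by rw [← ENNReal.ofReal_mul (by norm_num), sub_zero]
    have q2 : ∫⁻ u in Ioi T, ENNReal.ofReal (Real.exp (-(s * u)) * k (t - u)) ≤
        ENNReal.ofReal (Real.exp (-(s * T)) / s) := by
      rw [← exp_int s hs T]
      refine lintegral_mono fun u => ENNReal.ofReal_le_ofReal ?_
      calc Real.exp (-(s * u)) * k (t - u) ≤ Real.exp (-(s * u)) * 1 :=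
            mul_le_mul_of_nonneg_left (hk1 _) (Real.exp_pos _).le
        _ = _ := mul_one _
    refine (lintegral_mono_set hsub).trans ((lintegral_union_le _ _ _).trans ?_)
    refine (add_le_add q1 q2).trans ?_
    rw [← ENNReal.ofReal_add (by positivity) (by positivity)]
  have hsq := square hf hC hs hT
  have hFt : ∀ t, ∫⁻ u in Ioi (0 : ℝ), F t u = ENNReal.ofReal (Real.exp (-(s * t)) * f t ^ 2) *
      ∫⁻ u in Ioi (0 : ℝ), ENNReal.ofReal (Real.exp (-(s * u)) * k (t - u)) := fun t =>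
    lintegral_const_mul' _ _ ENNReal.ofReal_ne_top
  simp only [hFt]
  have hsub : Ioi (0 : ℝ) ⊆ Ioc 0 T ∪ Ioi T := by
    intro u hu
    rcases le_or_gt u T with h | h
    · exact Or.inl ⟨hu, h⟩
    · exact Or.inr h
  have s1 : ∫⁻ t in Ioc 0 T, ENNReal.ofReal (Real.exp (-(s * t)) * f t ^ 2) *
      ∫⁻ u in Ioi (0 : ℝ), ENNReal.ofReal (Real.exp (-(s * u)) * k (t - u)) ≤
      ENNReal.ofReal ((C ^ 2 * (14 + 4 * Real.log (1 + T)) + Real.exp (-(s * T)) / s) *
        (100 * (2 * Real.log (1 + T) + 1) + Real.exp (-(s * T)) / s)) := by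
    have hmm : Measurable fun t => ENNReal.ofReal (Real.exp (-(s * t)) * f t ^ 2) := by
      have a1 := hf.fm
      fun_prop
    calc ∫⁻ t in Ioc 0 T, ENNReal.ofReal (Real.exp (-(s * t)) * f t ^ 2) *
          ∫⁻ u in Ioi (0 : ℝ), ENNReal.ofReal (Real.exp (-(s * u)) * k (t - u))
        ≤ ∫⁻ t in Ioc 0 T, ENNReal.ofReal (Real.exp (-(s * t)) * f t ^ 2) *
          ENNReal.ofReal (100 * (2 * Real.log (1 + T) + 1) + Real.exp (-(s * T)) / s) :=
          setLIntegral_mono (hmm.mul_const _) fun t ht => mul_le_mul' le_rfl (inner t ht.1 ht.2)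
      _ = (∫⁻ t in Ioc 0 T, ENNReal.ofReal (Real.exp (-(s * t)) * f t ^ 2)) *
          ENNReal.ofReal (100 * (2 * Real.log (1 + T) + 1) + Real.exp (-(s * T)) / s) :=
          lintegral_mul_const' _ _ ENNReal.ofReal_ne_top
      _ ≤ (∫⁻ t in Ioi 0, ENNReal.ofReal (Real.exp (-(s * t)) * f t ^ 2)) *
          ENNReal.ofReal (100 * (2 * Real.log (1 + T) + 1) + Real.exp (-(s * T)) / s) :=
          mul_le_mul' (lintegral_mono_set fun t ht => ht.1) le_rfl
      _ ≤ ENNReal.ofReal (C ^ 2 * (14 + 4 * Real.log (1 + T)) + Real.exp (-(s * T)) / s) *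
          ENNReal.ofReal (100 * (2 * Real.log (1 + T) + 1) + Real.exp (-(s * T)) / s) :=
          mul_le_mul' hsq le_rfl
      _ = _ := by rw [← ENNReal.ofReal_mul (by positivity)]
  have s2 : ∫⁻ t in Ioi T, ENNReal.ofReal (Real.exp (-(s * t)) * f t ^ 2) *
      ∫⁻ u in Ioi (0 : ℝ), ENNReal.ofReal (Real.exp (-(s * u)) * k (t - u)) ≤
      ENNReal.ofReal (Real.exp (-(s * T)) / s * (1 / s)) := by
    calc ∫⁻ t in Ioi T, ENNReal.ofReal (Real.exp (-(s * t)) * f t ^ 2) *
          ∫⁻ u in Ioi (0 : ℝ), ENNReal.ofReal (Real.exp (-(s * u)) * k (t - u))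
        ≤ ∫⁻ t in Ioi T, ENNReal.ofReal (Real.exp (-(s * t))) * ENNReal.ofReal (1 / s) := by
          refine lintegral_mono fun t => mul_le_mul' (ENNReal.ofReal_le_ofReal ?_) (inner_all t)
          calc Real.exp (-(s * t)) * f t ^ 2 ≤ Real.exp (-(s * t)) * 1 :=
                mul_le_mul_of_nonneg_left (hf2 t) (Real.exp_pos _).le
            _ = _ := mul_one _
      _ = (∫⁻ t in Ioi T, ENNReal.ofReal (Real.exp (-(s * t)))) * ENNReal.ofReal (1 / s) :=
          lintegral_mul_const' _ _ ENNReal.ofReal_ne_top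
      _ = _ := by
          rw [exp_int s hs T, ← ENNReal.ofReal_mul (by positivity)]
  refine (lintegral_mono_set hsub).trans ((lintegral_union_le _ _ _).trans ?_)
  refine (add_le_add s1 s2).trans ?_
  rw [← ENNReal.ofReal_add (by positivity) (by positivity)]

end Pool.Agent.Zk11.QD.Tim
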