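import Pool.Agent.Zk11.QD.Lim
import Pool.Agent.Zk11.QD.Bes
import Pool.Agent.Zk11.QD.Tim

/-! The one-dimensional evolution kernels on the cycle. -/

set_option autoImplicit false
set_option linter.unusedSectionVars false

open scoped BigOperators Topology
open MeasureTheory Filter

namespace Pool.Agent.Zk11.QD

open Pool.Agent.W788.MFP.Four (T e NN adj adj_neg e_comm e_add_left e_add e_zero e_neg e_neg_left
  e_normSq sum_e NN_pos card_T e_single)
open Pool.Agent.Zk11.QD.Vdc (BB W0 bp)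
open Pool.Agent.Zk11.QD.Tim (Osc)

variable {d L : ℕ} [NeZero L]

/-- the one-dimensional kernel -/
noncomputable def bb (L : ℕ) [NeZero L] (ν : ZMod L) (t : ℝ) : ℂ :=
  (L : ℂ)⁻¹ * ∑ q : ZMod L, ex t (co q) * (ZMod.stdAddChar (q * ν) : ℂ)

theorem add_norm (q : ZMod L) : ‖(ZMod.stdAddChar q : ℂ)‖ = 1 := by
  rw [ZMod.stdAddChar_apply]
  exact Circle.norm_coe _

theorem bb_cont (ν : ZMod L) : Continuous (bb L ν) := by
  unfold bb
  exact continuous_const.mul (continuous_finsetSum _ fun q _ => (ex_cont _).mul continuous_const)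

theorem bb_le (ν : ZMod L) (t : ℝ) : ‖bb L ν t‖ ≤ 1 := by
  refine avg_norm _ 1 fun q => ?_
  rw [norm_mul, ex_norm, add_norm, one_mul]

theorem bb_neg (ν : ZMod L) (t : ℝ) : bb L (-ν) t = bb L ν t := by
  unfold bb
  rw [← Equiv.sum_comp (Equiv.neg (ZMod L))]
  congr 1
  refine Finset.sum_congr rfl fun q _ => ?_
  rw [Equiv.neg_apply, co_neg, neg_mul_neg]

theorem bb_abs (ν : ZMod L) (t : ℝ) : bb L ν t = bb L ((ν.valMinAbs.natAbs : ℕ) : ZMod L) t := by
  have h1 := ZMod.coe_valMinAbs ν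
  rcases Int.natAbs_eq ν.valMinAbs with h2 | h2
  · have h3 : ν = ((ν.valMinAbs.natAbs : ℕ) : ZMod L) := by
      rw [← Int.cast_natCast, ← h2, h1]
    exact congrArg (fun q => bb L q t) h3
  · have h3 : ν = -((ν.valMinAbs.natAbs : ℕ) : ZMod L) := by
      rw [← Int.cast_natCast, ← Int.cast_neg, ← h2, h1]
    rw [← bb_neg ((ν.valMinAbs.natAbs : ℕ) : ZMod L)]
    exact congrArg (fun q => bb L q t) h3

/-- the limiting integrand -/
noncomputable def bf (n : ℕ) (t x : ℝ) : ℂ :=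
  ex t (Real.cos (2 * Real.pi * x)) * Complex.exp (((2 * Real.pi * n * x : ℝ) : ℂ) * Complex.I)

theorem bf_cont (n : ℕ) (t : ℝ) : Continuous (bf n t) := by
  unfold bf ex
  fun_prop

theorem expI_lip (x y : ℝ) : ‖Complex.exp ((x : ℂ) * Complex.I) - Complex.exp ((y : ℂ) * Complex.I)‖ ≤
    |x - y| := by
  have h1 : Complex.exp ((x : ℂ) * Complex.I) - Complex.exp ((y : ℂ) * Complex.I) =
      Complex.exp ((y : ℂ) * Complex.I) * (Complex.exp (Complex.I * ((x - y : ℝ) : ℂ)) - 1) := by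
    rw [mul_sub, ← Complex.exp_add, mul_one]
    congr 2
    push_cast
    ring
  rw [h1, norm_mul, Complex.norm_exp_ofReal_mul_I, one_mul]
  exact Real.norm_exp_I_mul_ofReal_sub_one_le

theorem bf_lip (n : ℕ) (t x y : ℝ) : ‖bf n t x - bf n t y‖ ≤
    (4 * Real.pi * |t| + 2 * Real.pi * n) * |x - y| := by
  have h1 : bf n t x - bf n t y =
      (ex t (Real.cos (2 * Real.pi * x)) - ex t (Real.cos (2 * Real.pi * y))) *
        Complex.exp (((2 * Real.pi * n * x : ℝ) : ℂ) * Complex.I) +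
      ex t (Real.cos (2 * Real.pi * y)) * (Complex.exp (((2 * Real.pi * n * x : ℝ) : ℂ) * Complex.I) -
        Complex.exp (((2 * Real.pi * n * y : ℝ) : ℂ) * Complex.I)) := by
    unfold bf
    ring
  rw [h1]
  refine (norm_add_le _ _).trans ?_
  rw [norm_mul, norm_mul, ex_norm, Complex.norm_exp_ofReal_mul_I, mul_one, one_mul, add_mul]
  refine add_le_add (phi_lip t x y) ((expI_lip _ _).trans (le_of_eq ?_))
  have h2 : 2 * Real.pi * n * x - 2 * Real.pi * n * y = 2 * Real.pi * n * (x - y) := by ring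
  rw [h2, abs_mul, abs_of_nonneg (by positivity)]

theorem bf_int (n : ℕ) (t : ℝ) : ∫ x in (0 : ℝ)..1, bf n t x =
    (2 * Real.pi : ℂ)⁻¹ * W0 (bp n (2 * t)) 0 (2 * Real.pi) := by
  have h1 := intervalIntegral.integral_comp_mul_left (a := 0) (b := 1)
    (fun θ : ℝ => H17Arc.ker (bp n (2 * t)) 0 0 θ) (c := 2 * Real.pi) (by positivity)
  rw [mul_zero, mul_one] at h1
  unfold W0 H17Arc.W
  have h2 : ∀ x : ℝ, bf n t x = H17Arc.ker (bp n (2 * t)) 0 0 (2 * Real.pi * x) := by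
    intro x
    unfold bf ex H17Arc.ker bp
    rw [← Complex.exp_add]
    congr 1
    push_cast
    ring
  simp only [h2]
  rw [h1, Complex.real_smul]
  push_cast
  rfl

theorem bb_nat (n : ℕ) (t : ℝ) : ‖bb L ((n : ℕ) : ZMod L) t‖ ≤
    BB n (2 * t) / (2 * Real.pi) + (4 * Real.pi * |t| + 2 * Real.pi * n) / L := by
  have h1 := riem (bf n t) (bf_cont n t) _ (bf_lip n t) L (Nat.pos_of_ne_zero (NeZero.ne L))
  have h2 : bb L ((n : ℕ) : ZMod L) t =
      (L : ℂ)⁻¹ * ∑ j ∈ Finset.range L, bf n t (j / L) := by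
    unfold bb
    rw [sum_zmod]
    congr 1
    refine Finset.sum_congr rfl fun j _ => ?_
    unfold bf
    rw [co_nat, ← Nat.cast_mul, add_nat]
    congr 3
    push_cast
    ring
  rw [h2]
  have h3 : ‖∫ x in (0 : ℝ)..1, bf n t x‖ = BB n (2 * t) / (2 * Real.pi) := by
    rw [bf_int, norm_mul, norm_inv]
    have : ‖(2 * Real.pi : ℂ)‖ = 2 * Real.pi := by
      rw [norm_mul, Complex.norm_real, Real.norm_eq_abs, abs_of_pos Real.pi_pos]
      simp
    rw [this]
    unfold BB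
    ring
  rw [← h3]
  have h4 : (L : ℂ)⁻¹ * ∑ j ∈ Finset.range L, bf n t (j / L) =
      ((L : ℂ)⁻¹ * ∑ j ∈ Finset.range L, bf n t (j / L) - ∫ x in (0 : ℝ)..1, bf n t x) +
        ∫ x in (0 : ℝ)..1, bf n t x := by ring
  rw [h4]
  refine (norm_add_le _ _).trans ?_
  linarith

/-- the kernels have the required properties -/
theorem bb_osc (T R : ℝ) (hT : 0 ≤ T) (hR : 0 ≤ R) (hL : 13 * (1 + T + R) ^ 2 ≤ L)
    (ν : ZMod L) (hν : (ν.valMinAbs.natAbs : ℝ) ≤ R) :
    Osc (fun t => ‖bb L ν t‖) ((ν.valMinAbs.natAbs : ℝ) / 2) T 14 := by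
  set n : ℕ := ν.valMinAbs.natAbs with hn
  set A : ℝ := 1 + T + R with hA
  have hA1 : 1 ≤ A := by rw [hA]; linarith
  have hLR : (0 : ℝ) < L := Lpos
  have hn0 : (0 : ℝ) ≤ n := Nat.cast_nonneg n
  have hpi := Real.pi_pos
  have hpi1 := Real.pi_gt_three
  have hpi2 := Real.pi_lt_d2
  -- the pointwise bound
  have hb : ∀ t, 0 ≤ t → t ≤ T → ‖bb L ν t‖ ≤ BB n (2 * t) / (2 * Real.pi) + 1 / A := by
    intro t ht0 htT
    rw [bb_abs, ← hn]
    refine (bb_nat n t).trans (add_le_add le_rfl ?_)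
    rw [abs_of_nonneg ht0, div_le_div_iff₀ hLR (by positivity)]
    have h1 : 4 * Real.pi * t + 2 * Real.pi * n ≤ 13 * A := by
      have : 4 * Real.pi * t + 2 * Real.pi * n ≤ 4 * Real.pi * (T + R) := by nlinarith
      nlinarith
    nlinarith
  have hB : ∀ t, 0 ≤ BB n (2 * t) / (2 * Real.pi) := fun t =>
    div_nonneg (norm_nonneg _) (by positivity)
  have hBle : ∀ t, BB n (2 * t) / (2 * Real.pi) ≤ BB n (2 * t) / 6 := fun t =>
    div_le_div_of_nonneg_left (norm_nonneg _) (by norm_num) (by linarith)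
  have hA0 : 0 < 1 / A := by positivity
  refine ⟨(bb_cont ν).norm.measurable, fun t => norm_nonneg _, fun t => bb_le ν t, ?_, ?_, ?_⟩
  · intro t h1 h2
    have h3 := hb t (by linarith) h2
    have h4 := Vdc.unified n (2 * t) hn0 (by linarith)
    have e1 : 2 * t * |2 * t - n| = 4 * (t * |t - n / 2|) := by
      have : 2 * t - n = 2 * (t - n / 2) := by ring
      rw [this, abs_mul, abs_two]
      ring
    rw [e1] at h4
    set X := t * |t - n / 2| with hX
    have hX0 : 0 ≤ X := by positivity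
    have hXA : X ≤ A ^ 2 := by
      have : |t - n / 2| ≤ A := by
        rw [abs_le]
        constructor <;> linarith
      calc X ≤ A * A := mul_le_mul (by linarith) this (abs_nonneg _) (by linarith)
        _ = A ^ 2 := by ring
    set a := BB n (2 * t) / (2 * Real.pi) with ha
    have ha0 : 0 ≤ a := hB t
    have ha4 : a ^ 4 * X ≤ 66 ^ 4 / 4 / 6 ^ 4 := by
      have : a ^ 4 ≤ (BB n (2 * t) / 6) ^ 4 := pow_le_pow_left₀ ha0 (hBle t) 4
      calc a ^ 4 * X ≤ (BB n (2 * t) / 6) ^ 4 * X := mul_le_mul_of_nonneg_right this hX0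
        _ = (BB n (2 * t) ^ 4 * (4 * X)) / 4 / 6 ^ 4 := by ring
        _ ≤ _ := by gcongr
    have hd4 : (1 / A) ^ 4 * X ≤ 1 := by
      calc (1 / A) ^ 4 * X ≤ (1 / A) ^ 4 * A ^ 2 := mul_le_mul_of_nonneg_left hXA (by positivity)
        _ = (1 / A) ^ 2 := by field_simp
        _ ≤ 1 := pow_le_one₀ hA0.le (by rw [div_le_one (by linarith)]; exact hA1)
    have h5 : ‖bb L ν t‖ ^ 4 ≤ 8 * a ^ 4 + 8 * (1 / A) ^ 4 := by
      refine (pow_le_pow_left₀ (norm_nonneg _) h3 4).trans ?_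
      nlinarith [sq_nonneg (a - 1 / A), sq_nonneg (a ^ 2 - (1 / A) ^ 2),
        mul_nonneg ha0 hA0.le, sq_nonneg (a + 1 / A)]
    calc ‖bb L ν t‖ ^ 4 * X ≤ (8 * a ^ 4 + 8 * (1 / A) ^ 4) * X :=
          mul_le_mul_of_nonneg_right h5 hX0
      _ = 8 * (a ^ 4 * X) + 8 * ((1 / A) ^ 4 * X) := by ring
      _ ≤ 8 * (66 ^ 4 / 4 / 6 ^ 4) + 8 * 1 := by linarith
      _ ≤ 14 ^ 4 := by norm_num
  · intro t h1 h2
    have h3 := hb t (by linarith) h2
    obtain ⟨y, hy, hyt⟩ : ∃ y : ℝ, 1 ≤ y ∧ 2 * t = y ^ 3 := by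
      refine ⟨(2 * t) ^ (1 / 3 : ℝ), Real.one_le_rpow (by linarith) (by norm_num), ?_⟩
      rw [← Real.rpow_natCast, ← Real.rpow_mul (by linarith)]
      norm_num
    have hy0 : 0 < y := by linarith
    have h4 := Vdc.uniform3 n (2 * t) y hy hyt
    set a := BB n (2 * t) / (2 * Real.pi) with ha
    have ha0 : 0 ≤ a := hB t
    have ha1 : a ≤ 31 / 6 / y := by
      calc a ≤ BB n (2 * t) / 6 := hBle t
        _ ≤ (31 / y) / 6 := by gcongr
        _ = _ := by ring
    have ha3 : a ^ 3 * t ≤ 70 := by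
      calc a ^ 3 * t ≤ (31 / 6 / y) ^ 3 * t :=
            mul_le_mul_of_nonneg_right (pow_le_pow_left₀ ha0 ha1 3) (by linarith)
        _ = (31 / 6) ^ 3 / 2 * ((2 * t) / y ^ 3) := by ring
        _ = (31 / 6) ^ 3 / 2 := by rw [hyt, div_self (by positivity), mul_one]
        _ ≤ 70 := by norm_num
    have hd3 : (1 / A) ^ 3 * t ≤ 1 := by
      calc (1 / A) ^ 3 * t ≤ (1 / A) ^ 3 * A :=
            mul_le_mul_of_nonneg_left (by linarith) (by positivity)
        _ = (1 / A) ^ 2 := by field_simp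
        _ ≤ 1 := pow_le_one₀ hA0.le (by rw [div_le_one (by linarith)]; exact hA1)
    have h5 : ‖bb L ν t‖ ^ 3 ≤ 4 * a ^ 3 + 4 * (1 / A) ^ 3 := by
      refine (pow_le_pow_left₀ (norm_nonneg _) h3 3).trans ?_
      nlinarith [mul_nonneg (add_nonneg ha0 hA0.le) (sq_nonneg (a - 1 / A))]
    calc ‖bb L ν t‖ ^ 3 * t ≤ (4 * a ^ 3 + 4 * (1 / A) ^ 3) * t :=
          mul_le_mul_of_nonneg_right h5 (by linarith)
      _ = 4 * (a ^ 3 * t) + 4 * ((1 / A) ^ 3 * t) := by ring
      _ ≤ 4 * 70 + 4 * 1 := by linarith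
      _ ≤ 14 ^ 3 := by norm_num
  · intro t h1 h2 h3
    have h4 := hb t h1 h2
    have h5 := Vdc.above n (2 * t) (by linarith) (by linarith)
    have h6 : 0 < n / 2 - t := by linarith
    have h7 : BB n (2 * t) / (2 * Real.pi) * (n / 2 - t) ≤ 1 := by
      calc BB n (2 * t) / (2 * Real.pi) * (n / 2 - t) ≤
            (9 / (n - 2 * t)) / 6 * (n / 2 - t) := by
            refine mul_le_mul_of_nonneg_right ((hBle t).trans ?_) h6.le
            gcongr
        _ = 3 / 4 := by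
            have : (n : ℝ) - 2 * t ≠ 0 := by
              intro h
              linarith
            field_simp
            ring
        _ ≤ 1 := by norm_num
    have h8 : 1 / A * (n / 2 - t) ≤ 1 := by
      rw [one_div_mul_eq_div, div_le_one (by linarith)]
      linarith
    calc ‖bb L ν t‖ * (n / 2 - t) ≤ (BB n (2 * t) / (2 * Real.pi) + 1 / A) * (n / 2 - t) :=
          mul_le_mul_of_nonneg_right h4 h6.le
      _ = BB n (2 * t) / (2 * Real.pi) * (n / 2 - t) + 1 / A * (n / 2 - t) := by ring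
      _ ≤ 1 + 1 := add_le_add h7 h8
      _ ≤ 14 := by norm_num

/-- orthogonality -/
theorem bb_orth (t u : ℝ) : ∑ ν : ZMod L, bb L ν t * (starRingEnd ℂ) (bb L ν u) = jL L (t - u) := by
  have hLc := Lc_ne (L := L)
  have h1 : ∀ ν : ZMod L, bb L ν t * (starRingEnd ℂ) (bb L ν u) =
      (L : ℂ)⁻¹ * (L : ℂ)⁻¹ * ∑ q : ZMod L, ∑ r : ZMod L,
        ex t (co q) * (starRingEnd ℂ) (ex u (co r)) * (ZMod.stdAddChar (ν * (q - r)) : ℂ) := by
    intro ν
    unfold bb
    rw [map_mul, map_inv₀, Complex.conj_natCast, map_sum, mul_mul_mul_comm, Finset.sum_mul_sum]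
    congr 1
    refine Finset.sum_congr rfl fun q _ => Finset.sum_congr rfl fun r _ => ?_
    have h2 : (starRingEnd ℂ) (ZMod.stdAddChar (r * ν) : ℂ) = (ZMod.stdAddChar (-(r * ν)) : ℂ) := by
      rw [ZMod.stdAddChar_apply, ZMod.stdAddChar_apply, AddChar.map_neg_eq_inv,
        Circle.coe_inv_eq_conj]
    have h3 : ν * (q - r) = q * ν + -(r * ν) := by ring
    rw [map_mul (starRingEnd ℂ) (ex u (co r)), h2, h3, AddChar.map_add_eq_mul]
    ring
  rw [Finset.sum_congr rfl fun ν _ => h1 ν, ← Finset.mul_sum, Finset.sum_comm]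
  have h2 : ∀ q : ZMod L, ∑ ν : ZMod L, ∑ r : ZMod L, ex t (co q) * (starRingEnd ℂ) (ex u (co r)) *
      (ZMod.stdAddChar (ν * (q - r)) : ℂ) = (L : ℂ) * ex (t - u) (co q) := by
    intro q
    rw [Finset.sum_comm, Finset.sum_eq_single q]
    · simp only [sub_self, mul_zero, AddChar.map_zero_eq_one, mul_one]
      rw [Finset.sum_const, Finset.card_univ, ZMod.card, nsmul_eq_mul]
      congr 1
      unfold ex
      rw [← Complex.exp_conj, ← Complex.exp_add]
      congr 1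
      simp only [map_mul, Complex.conj_I, Complex.conj_ofReal]
      push_cast
      ring
    · intro r _ hr
      rw [← Finset.mul_sum, AddChar.sum_mulShift (q - r) (ZMod.isPrimitive_stdAddChar L),
        if_neg (sub_ne_zero.2 (Ne.symm hr))]
      simp
    · intro h
      exact absurd (Finset.mem_univ q) h
  rw [Finset.sum_congr rfl fun q _ => h2 q, ← Finset.mul_sum]
  unfold jL
  field_simp

theorem jL_neg (t : ℝ) : jL L (-t) = (starRingEnd ℂ) (jL L t) := by
  unfold jL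
  rw [map_mul, map_inv₀, Complex.conj_natCast, map_sum]
  congr 1
  refine Finset.sum_congr rfl fun q _ => ?_
  unfold ex
  rw [← Complex.exp_conj]
  congr 1
  simp only [map_mul, Complex.conj_I, Complex.conj_ofReal]
  push_cast
  ring

end Pool.Agent.Zk11.QD
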