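import Mathlib

/-! Chaos coefficients of the resolvent vector. -/

set_option autoImplicit false
set_option linter.unusedSectionVars false

open scoped BigOperators

namespace Pool.Agent.Zk11.QD

variable {Λ : Type} [Fintype Λ] [DecidableEq Λ]

theorem sum_erase {β : Type} [AddCommMonoid β] (h : Λ → Finset Λ → β) :
    ∑ S : Finset Λ, ∑ y ∈ S, h y (S.erase y) =
      ∑ y : Λ, ∑ S : Finset Λ, if y ∈ S then 0 else h y S := by
  have h1 : ∀ S : Finset Λ, ∑ y ∈ S, h y (S.erase y) =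
      ∑ y : Λ, if y ∈ S then h y (S.erase y) else 0 := by
    intro S
    rw [← Finset.sum_filter]
    congr 1
    ext y
    simp
  simp only [h1]
  rw [Finset.sum_comm]
  refine Finset.sum_congr rfl fun y _ => ?_
  rw [← Finset.sum_filter]
  have h2 : ∑ S : Finset Λ, (if y ∈ S then 0 else h y S) =
      ∑ S ∈ Finset.univ.filter (fun S : Finset Λ => y ∉ S), h y S := by
    rw [Finset.sum_filter]
    refine Finset.sum_congr rfl fun S _ => ?_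
    by_cases hy : y ∈ S <;> simp [hy]
  rw [h2]
  refine Finset.sum_nbij' (fun S => S.erase y) (fun S => insert y S) ?_ ?_ ?_ ?_ ?_
  · intro S hS
    simp
  · intro S hS
    simp
  · intro S hS
    simp only [Finset.mem_filter, Finset.mem_univ, true_and] at hS
    exact Finset.insert_erase hS
  · intro S hS
    simp only [Finset.mem_filter, Finset.mem_univ, true_and] at hS
    exact Finset.erase_insert hS
  · intro S hS
    rfl

/-- the coefficients -/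
noncomputable def cf (M : Λ → Λ → ℂ) (τ : ℝ) (o : Λ) : ℕ → Λ → Finset Λ → ℂ
  | 0, x, S => if S = ∅ then M x o else 0
  | n + 1, x, S => ∑ y ∈ S, M x y * τ * cf M τ o n y (S.erase y)

theorem cf_zero (M : Λ → Λ → ℂ) (τ : ℝ) (o : Λ) (x : Λ) (S : Finset Λ) :
    cf M τ o 0 x S = if S = ∅ then M x o else 0 := rfl

theorem cf_succ (M : Λ → Λ → ℂ) (τ : ℝ) (o : Λ) (n : ℕ) (x : Λ) (S : Finset Λ) :
    cf M τ o (n + 1) x S = ∑ y ∈ S, M x y * τ * cf M τ o n y (S.erase y) := rfl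

theorem cf_card (M : Λ → Λ → ℂ) (τ : ℝ) (o : Λ) (n : ℕ) : ∀ (x : Λ) (S : Finset Λ),
    S.card ≠ n → cf M τ o n x S = 0 := by
  induction n with
  | zero =>
    intro x S h
    rw [cf_zero, if_neg]
    intro h1
    exact h (by rw [h1]; rfl)
  | succ n ih =>
    intro x S h
    rw [cf_succ]
    refine Finset.sum_eq_zero fun y hy => ?_
    rw [ih, mul_zero]
    rw [Finset.card_erase_of_mem hy]
    have : 0 < S.card := Finset.card_pos.2 ⟨y, hy⟩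
    omega

/-- total mass -/
noncomputable def FF (M : Λ → Λ → ℂ) (τ : ℝ) (o : Λ) (n : ℕ) : ℝ :=
  ∑ x, ∑ S : Finset Λ, ‖cf M τ o n x S‖ ^ 2

theorem FF_nonneg (M : Λ → Λ → ℂ) (τ : ℝ) (o : Λ) (n : ℕ) : 0 ≤ FF M τ o n :=
  Finset.sum_nonneg fun _ _ => Finset.sum_nonneg fun _ _ => by positivity

/-- mass moved to the last point -/
theorem mass_erase (M : Λ → Λ → ℂ) (τ : ℝ) (o : Λ) (n : ℕ) :
    ∑ S : Finset Λ, ∑ y ∈ S, ‖cf M τ o n y (S.erase y)‖ ^ 2 ≤ FF M τ o n := by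
  rw [sum_erase (fun y S => ‖cf M τ o n y S‖ ^ 2)]
  refine Finset.sum_le_sum fun y _ => Finset.sum_le_sum fun S _ => ?_
  split_ifs
  · positivity
  · exact le_rfl

theorem cs_cf (M : Λ → Λ → ℂ) (τ : ℝ) (o : Λ) (n : ℕ) (y : Λ) (S : Finset Λ) :
    ‖cf M τ o (n + 1) y S‖ ^ 2 ≤
      (n + 1 : ℝ) * ∑ w ∈ S, ‖M y w‖ ^ 2 * τ ^ 2 * ‖cf M τ o n w (S.erase w)‖ ^ 2 := by
  by_cases hS : S.card = n + 1
  · have h1 : ‖cf M τ o (n + 1) y S‖ ≤
        ∑ w ∈ S, ‖M y w‖ * |τ| * ‖cf M τ o n w (S.erase w)‖ := by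
      rw [cf_succ]
      refine (norm_sum_le _ _).trans (le_of_eq (Finset.sum_congr rfl fun w _ => ?_))
      rw [norm_mul, norm_mul, Complex.norm_real, Real.norm_eq_abs]
    have h2 : (∑ w ∈ S, ‖M y w‖ * |τ| * ‖cf M τ o n w (S.erase w)‖) ^ 2 ≤
        (S.card : ℝ) * ∑ w ∈ S, (‖M y w‖ * |τ| * ‖cf M τ o n w (S.erase w)‖) ^ 2 :=
      sq_sum_le_card_mul_sum_sq
    have h3 : ‖cf M τ o (n + 1) y S‖ ^ 2 ≤
        (∑ w ∈ S, ‖M y w‖ * |τ| * ‖cf M τ o n w (S.erase w)‖) ^ 2 :=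
      pow_le_pow_left₀ (norm_nonneg _) h1 2
    refine h3.trans (h2.trans (le_of_eq ?_))
    rw [hS]
    push_cast
    congr 1
    refine Finset.sum_congr rfl fun w _ => ?_
    rw [mul_pow, mul_pow, sq_abs]
  · rw [cf_card M τ o (n + 1) y S hS]
    rw [norm_zero]
    have : 0 ≤ (n + 1 : ℝ) * ∑ w ∈ S, ‖M y w‖ ^ 2 * τ ^ 2 * ‖cf M τ o n w (S.erase w)‖ ^ 2 :=
      mul_nonneg (by positivity) (Finset.sum_nonneg fun _ _ => by positivity)
    simpa using this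

/-- the main combinatorial lemma -/
theorem key_succ (M : Λ → Λ → ℂ) (τ : ℝ) (o : Λ) (n : ℕ) (k : Λ → Λ → ℝ)
    (hk : ∀ y x, 0 ≤ k y x) (κ : ℝ) (hκ : ∀ x w, ∑ y, k y x * ‖M y w‖ ^ 2 ≤ κ) :
    ∑ y, ∑ S : Finset Λ, ∑ x ∈ S, k y x * ‖cf M τ o (n + 1) y S‖ ^ 2 ≤
      (n + 1 : ℝ) ^ 2 * (τ ^ 2 * κ) * FF M τ o n := by
  have h1 : ∑ y, ∑ S : Finset Λ, ∑ x ∈ S, k y x * ‖cf M τ o (n + 1) y S‖ ^ 2 ≤
      ∑ y, ∑ S : Finset Λ, ∑ x ∈ S, k y x * ((n + 1 : ℝ) *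
        ∑ w ∈ S, ‖M y w‖ ^ 2 * τ ^ 2 * ‖cf M τ o n w (S.erase w)‖ ^ 2) :=
    Finset.sum_le_sum fun y _ => Finset.sum_le_sum fun S _ => Finset.sum_le_sum fun x _ =>
      mul_le_mul_of_nonneg_left (cs_cf M τ o n y S) (hk y x)
  have h2 : ∑ y, ∑ S : Finset Λ, ∑ x ∈ S, k y x * ((n + 1 : ℝ) *
        ∑ w ∈ S, ‖M y w‖ ^ 2 * τ ^ 2 * ‖cf M τ o n w (S.erase w)‖ ^ 2) =
      ∑ S : Finset Λ, ∑ w ∈ S, ((n + 1 : ℝ) * τ ^ 2 * ‖cf M τ o n w (S.erase w)‖ ^ 2) *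
        ∑ x ∈ S, ∑ y, k y x * ‖M y w‖ ^ 2 := by
    rw [Finset.sum_comm]
    refine Finset.sum_congr rfl fun S _ => ?_
    have h3 : ∀ y, ∑ x ∈ S, k y x * ((n + 1 : ℝ) *
        ∑ w ∈ S, ‖M y w‖ ^ 2 * τ ^ 2 * ‖cf M τ o n w (S.erase w)‖ ^ 2) =
        ∑ w ∈ S, ∑ x ∈ S, ((n + 1 : ℝ) * τ ^ 2 * ‖cf M τ o n w (S.erase w)‖ ^ 2) *
          (k y x * ‖M y w‖ ^ 2) := by
      intro y
      rw [Finset.sum_comm]
      refine Finset.sum_congr rfl fun x _ => ?_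
      rw [Finset.mul_sum, Finset.mul_sum]
      refine Finset.sum_congr rfl fun w _ => ?_
      ring
    simp only [h3]
    rw [Finset.sum_comm]
    refine Finset.sum_congr rfl fun w _ => ?_
    rw [Finset.mul_sum, Finset.sum_comm]
    refine Finset.sum_congr rfl fun x _ => ?_
    rw [Finset.mul_sum]
  have h4 : ∑ S : Finset Λ, ∑ w ∈ S, ((n + 1 : ℝ) * τ ^ 2 * ‖cf M τ o n w (S.erase w)‖ ^ 2) *
        ∑ x ∈ S, ∑ y, k y x * ‖M y w‖ ^ 2 ≤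
      ∑ S : Finset Λ, ∑ w ∈ S, ((n + 1 : ℝ) ^ 2 * (τ ^ 2 * κ)) *
        ‖cf M τ o n w (S.erase w)‖ ^ 2 := by
    refine Finset.sum_le_sum fun S _ => Finset.sum_le_sum fun w hw => ?_
    by_cases hS : S.card = n + 1
    · have h5 : ∑ x ∈ S, ∑ y, k y x * ‖M y w‖ ^ 2 ≤ (n + 1 : ℝ) * κ := by
        calc ∑ x ∈ S, ∑ y, k y x * ‖M y w‖ ^ 2 ≤ ∑ x ∈ S, κ :=
              Finset.sum_le_sum fun x _ => hκ x w
          _ = (n + 1 : ℝ) * κ := by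
              rw [Finset.sum_const, nsmul_eq_mul, hS]
              push_cast
              ring
      calc ((n + 1 : ℝ) * τ ^ 2 * ‖cf M τ o n w (S.erase w)‖ ^ 2) *
            ∑ x ∈ S, ∑ y, k y x * ‖M y w‖ ^ 2
          ≤ ((n + 1 : ℝ) * τ ^ 2 * ‖cf M τ o n w (S.erase w)‖ ^ 2) * ((n + 1 : ℝ) * κ) :=
            mul_le_mul_of_nonneg_left h5 (by positivity)
        _ = _ := by ring
    · have h6 : cf M τ o n w (S.erase w) = 0 := by
        apply cf_card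
        rw [Finset.card_erase_of_mem hw]
        have : 0 < S.card := Finset.card_pos.2 ⟨w, hw⟩
        omega
      rw [h6]
      simp
  refine h1.trans (h2.le.trans (h4.trans ?_))
  have h7 : ∑ S : Finset Λ, ∑ w ∈ S, ((n + 1 : ℝ) ^ 2 * (τ ^ 2 * κ)) *
        ‖cf M τ o n w (S.erase w)‖ ^ 2 = ((n + 1 : ℝ) ^ 2 * (τ ^ 2 * κ)) *
        ∑ S : Finset Λ, ∑ w ∈ S, ‖cf M τ o n w (S.erase w)‖ ^ 2 := by
    rw [Finset.mul_sum]
    exact Finset.sum_congr rfl fun S _ => by rw [Finset.mul_sum]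
  rw [h7]
  by_cases hc : 0 ≤ κ
  · exact mul_le_mul_of_nonneg_left (mass_erase M τ o n) (by positivity)
  · exfalso
    have h8 := hκ o o
    have h9 : 0 ≤ ∑ y, k y o * ‖M y o‖ ^ 2 :=
      Finset.sum_nonneg fun y _ => mul_nonneg (hk y o) (by positivity)
    linarith

theorem key (M : Λ → Λ → ℂ) (τ : ℝ) (o : Λ) (n : ℕ) (k : Λ → Λ → ℝ)
    (hk : ∀ y x, 0 ≤ k y x) (κ : ℝ) (hκ : ∀ x w, ∑ y, k y x * ‖M y w‖ ^ 2 ≤ κ) :
    ∑ y, ∑ S : Finset Λ, ∑ x ∈ S, k y x * ‖cf M τ o n y S‖ ^ 2 ≤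
      (n : ℝ) ^ 2 * (τ ^ 2 * κ) * FF M τ o (n - 1) := by
  cases n with
  | zero =>
    have : ∑ y, ∑ S : Finset Λ, ∑ x ∈ S, k y x * ‖cf M τ o 0 y S‖ ^ 2 = 0 := by
      refine Finset.sum_eq_zero fun y _ => Finset.sum_eq_zero fun S _ =>
        Finset.sum_eq_zero fun x hx => ?_
      have : cf M τ o 0 y S = 0 := by
        apply cf_card
        have : 0 < S.card := Finset.card_pos.2 ⟨x, hx⟩
        omega
      rw [this]
      simp
    rw [this]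
    simp
  | succ n =>
    have := key_succ M τ o n k hk κ hκ
    simpa using this

end Pool.Agent.Zk11.QD
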