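import Pool.Agent.Zk11.QD.Tim

/-! A double time integral with a weak singularity. -/

set_option autoImplicit false
set_option linter.unusedSectionVars false

open scoped BigOperators ENNReal
open MeasureTheory Set

namespace Pool.Agent.Zk11.QD.Tim

/-- the exponentially damped singularity -/
theorem exp_sqrt (s : ℝ) (hs : 0 < s) :
    ∫⁻ t in Ioi (0 : ℝ), ENNReal.ofReal (Real.exp (-(s * t)) * t ^ (-(1 / 2) : ℝ)) ≤
      ENNReal.ofReal (3 / Real.sqrt s) := by
  have hr : 0 < Real.sqrt s := Real.sqrt_pos.2 hs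
  have hsub : Ioi (0 : ℝ) ⊆ Ioc 0 (1 / s) ∪ Ioi (1 / s) := by
    intro t ht
    rcases le_or_gt t (1 / s) with h | h
    · exact Or.inl ⟨ht, h⟩
    · exact Or.inr h
  have h1s : 0 < 1 / s := by positivity
  have q1 : ∫⁻ t in Ioc 0 (1 / s), ENNReal.ofReal (Real.exp (-(s * t)) * t ^ (-(1 / 2) : ℝ)) ≤
      ENNReal.ofReal (2 / Real.sqrt s) := by
    have e1 := pow_int (-(1 / 2)) (1 / s) (by norm_num) h1s
    have e2 : (1 / s) ^ (-(1 / 2) + 1 : ℝ) / (-(1 / 2) + 1 : ℝ) = 2 / Real.sqrt s := by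
      have : (-(1 / 2) + 1 : ℝ) = 1 / 2 := by norm_num
      rw [this, ← Real.sqrt_eq_rpow, Real.sqrt_div' 1 hs.le, Real.sqrt_one]
      field_simp
    rw [e2] at e1
    rw [← e1]
    refine setLIntegral_mono' measurableSet_Ioc fun t ht => ENNReal.ofReal_le_ofReal ?_
    have e3 : Real.exp (-(s * t)) ≤ 1 := by
      rw [Real.exp_le_one_iff]
      have := ht.1
      have : 0 < s * t := by positivity
      linarith
    have e4 : 0 ≤ t ^ (-(1 / 2) : ℝ) := Real.rpow_nonneg ht.1.le _
    calc Real.exp (-(s * t)) * t ^ (-(1 / 2) : ℝ) ≤ 1 * t ^ (-(1 / 2) : ℝ) :=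
          mul_le_mul_of_nonneg_right e3 e4
      _ = _ := one_mul _
  have q2 : ∫⁻ t in Ioi (1 / s), ENNReal.ofReal (Real.exp (-(s * t)) * t ^ (-(1 / 2) : ℝ)) ≤
      ENNReal.ofReal (1 / Real.sqrt s) := by
    calc ∫⁻ t in Ioi (1 / s), ENNReal.ofReal (Real.exp (-(s * t)) * t ^ (-(1 / 2) : ℝ))
        ≤ ∫⁻ t in Ioi (1 / s), ENNReal.ofReal (Real.sqrt s) *
            ENNReal.ofReal (Real.exp (-(s * t))) := by
          refine setLIntegral_mono' measurableSet_Ioi fun t ht => ?_
          rw [← ENNReal.ofReal_mul hr.le]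
          apply ENNReal.ofReal_le_ofReal
          have ht' : 1 / s < t := ht
          have ht0 : 0 < t := h1s.trans ht'
          have e1 : t ^ (-(1 / 2) : ℝ) ≤ Real.sqrt s := by
            have e2 : t ^ (-(1 / 2) : ℝ) ≤ (1 / s) ^ (-(1 / 2) : ℝ) :=
              Real.rpow_le_rpow_of_nonpos h1s ht'.le (by norm_num)
            refine e2.trans (le_of_eq ?_)
            rw [one_div, Real.inv_rpow hs.le, Real.rpow_neg hs.le, inv_inv, ← Real.sqrt_eq_rpow]
          rw [mul_comm]
          exact mul_le_mul_of_nonneg_right e1 (Real.exp_pos _).le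
      _ = ENNReal.ofReal (Real.sqrt s) * ENNReal.ofReal (Real.exp (-(s * (1 / s))) / s) := by
          rw [lintegral_const_mul' _ _ ENNReal.ofReal_ne_top, exp_int s hs]
      _ ≤ _ := by
          rw [← ENNReal.ofReal_mul hr.le]
          apply ENNReal.ofReal_le_ofReal
          have e1 : Real.exp (-(s * (1 / s))) ≤ 1 := by
            rw [Real.exp_le_one_iff]
            have : 0 < s * (1 / s) := by positivity
            linarith
          have e2 : Real.sqrt s * Real.sqrt s = s := Real.mul_self_sqrt hs.le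
          have e3 : Real.sqrt s * (1 / s) = 1 / Real.sqrt s := by
            rw [eq_div_iff hr.ne']
            calc Real.sqrt s * (1 / s) * Real.sqrt s = (Real.sqrt s * Real.sqrt s) / s := by ring
              _ = 1 := by rw [e2, div_self hs.ne']
          calc Real.sqrt s * (Real.exp (-(s * (1 / s))) / s) ≤ Real.sqrt s * (1 / s) := by
                refine mul_le_mul_of_nonneg_left ?_ hr.le
                exact div_le_div_of_nonneg_right e1 hs.le
            _ = _ := e3
  refine (lintegral_mono_set hsub).trans ((lintegral_union_le _ _ _).trans ?_)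
  refine (add_le_add q1 q2).trans ?_
  rw [← ENNReal.ofReal_add (by positivity) (by positivity)]
  apply ENNReal.ofReal_le_ofReal
  apply le_of_eq
  ring

/-- the double integral -/
theorem dbl (s T c : ℝ) (hs : 0 < s) (hT : 0 ≤ T) (hc : 0 ≤ c) (K : ℝ → ℝ → ℝ)
    (hK1 : ∀ t u, K t u ≤ 1)
    (hK : ∀ t u, 0 < t → t ≤ T → 0 < u → u ≤ T → K t u ≤
      c * ((t ^ (-(1 / 2) : ℝ) + u ^ (-(1 / 2) : ℝ)) / 2) * (1 / (1 + |u - t|))) :
    ∫⁻ t in Ioi (0 : ℝ), ∫⁻ u in Ioi (0 : ℝ), ENNReal.ofReal (Real.exp (-(s * (t + u))) * K t u) ≤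
      ENNReal.ofReal (c * (3 / Real.sqrt s) * (2 * Real.log (1 + T) + 1) +
        2 * (Real.exp (-(s * T)) / s * (1 / s))) := by
  have hlog : 0 ≤ Real.log (1 + T) := Real.log_nonneg (by linarith)
  have hsub : Ioi (0 : ℝ) ⊆ Ioc 0 T ∪ Ioi T := by
    intro t ht
    rcases le_or_gt t T with h | h
    · exact Or.inl ⟨ht, h⟩
    · exact Or.inr h
  have hexp : ∀ t u, Real.exp (-(s * (t + u))) * K t u ≤
      Real.exp (-(s * t)) * Real.exp (-(s * u)) := by
    intro t u
    rw [← Real.exp_add]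
    calc Real.exp (-(s * (t + u))) * K t u ≤ Real.exp (-(s * (t + u))) * 1 :=
          mul_le_mul_of_nonneg_left (hK1 t u) (Real.exp_pos _).le
      _ = _ := by rw [mul_one]; congr 1; ring
  have hall : ∀ t (A : Set ℝ), ∫⁻ u in A, ENNReal.ofReal (Real.exp (-(s * (t + u))) * K t u) ≤
      ENNReal.ofReal (Real.exp (-(s * t))) * ∫⁻ u in A, ENNReal.ofReal (Real.exp (-(s * u))) := by
    intro t A
    rw [← lintegral_const_mul' _ _ ENNReal.ofReal_ne_top]
    refine lintegral_mono fun u => ?_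
    rw [← ENNReal.ofReal_mul (Real.exp_pos _).le]
    exact ENNReal.ofReal_le_ofReal (hexp t u)
  have e0 : ∫⁻ u in Ioi (0 : ℝ), ENNReal.ofReal (Real.exp (-(s * u))) = ENNReal.ofReal (1 / s) := by
    rw [exp_int s hs 0]
    simp
  -- large t
  have p1 : ∫⁻ t in Ioi T, ∫⁻ u in Ioi (0 : ℝ),
      ENNReal.ofReal (Real.exp (-(s * (t + u))) * K t u) ≤
      ENNReal.ofReal (Real.exp (-(s * T)) / s * (1 / s)) := by
    calc ∫⁻ t in Ioi T, ∫⁻ u in Ioi (0 : ℝ), ENNReal.ofReal (Real.exp (-(s * (t + u))) * K t u)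
        ≤ ∫⁻ t in Ioi T, ENNReal.ofReal (Real.exp (-(s * t))) * ENNReal.ofReal (1 / s) := by
          refine lintegral_mono fun t => ?_
          rw [← e0]
          exact hall t _
      _ = ENNReal.ofReal (Real.exp (-(s * T)) / s) * ENNReal.ofReal (1 / s) := by
          rw [lintegral_mul_const' _ _ ENNReal.ofReal_ne_top, exp_int s hs T]
      _ = _ := by rw [← ENNReal.ofReal_mul (by positivity)]
  -- small t, large u
  have p2 : ∫⁻ t in Ioc 0 T, ENNReal.ofReal (Real.exp (-(s * t))) *
            ENNReal.ofReal (Real.exp (-(s * T)) / s) ≤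
      ENNReal.ofReal (Real.exp (-(s * T)) / s * (1 / s)) := by
    calc ∫⁻ t in Ioc 0 T, ENNReal.ofReal (Real.exp (-(s * t))) *
            ENNReal.ofReal (Real.exp (-(s * T)) / s)
        ≤ ∫⁻ t in Ioi (0 : ℝ), ENNReal.ofReal (Real.exp (-(s * t))) *
            ENNReal.ofReal (Real.exp (-(s * T)) / s) := lintegral_mono_set Ioc_subset_Ioi_self
      _ = ENNReal.ofReal (1 / s) * ENNReal.ofReal (Real.exp (-(s * T)) / s) := by
          rw [lintegral_mul_const' _ _ ENNReal.ofReal_ne_top, e0]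
      _ = _ := by
          rw [mul_comm, ← ENNReal.ofReal_mul (by positivity)]
  -- the main part
  set F : ℝ → ℝ → ℝ≥0∞ := fun t u => ENNReal.ofReal (Real.exp (-(s * t)) * t ^ (-(1 / 2) : ℝ)) *
    ENNReal.ofReal (1 / (1 + |u - t|)) with hF
  have hm : Measurable (Function.uncurry F) := by
    simp only [hF]
    fun_prop
  have p3 : ∫⁻ t in Ioc 0 T, ∫⁻ u in Ioc 0 T, F t u ≤
      ENNReal.ofReal ((3 / Real.sqrt s) * (2 * Real.log (1 + T) + 1)) := by
    calc ∫⁻ t in Ioc 0 T, ∫⁻ u in Ioc 0 T, F t u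
        ≤ ∫⁻ t in Ioc 0 T, ENNReal.ofReal (Real.exp (-(s * t)) * t ^ (-(1 / 2) : ℝ)) *
            ENNReal.ofReal (2 * Real.log (1 + T) + 1) := by
          refine lintegral_mono fun t => ?_
          simp only [hF]
          rw [lintegral_const_mul' _ _ ENNReal.ofReal_ne_top]
          refine mul_le_mul' le_rfl ?_
          refine (lintegral_mono_set Ioc_subset_Icc_self).trans ?_
          have := log_any t 0 T hT
          rw [sub_zero] at this
          exact this
      _ ≤ ∫⁻ t in Ioi (0 : ℝ), ENNReal.ofReal (Real.exp (-(s * t)) * t ^ (-(1 / 2) : ℝ)) *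
            ENNReal.ofReal (2 * Real.log (1 + T) + 1) := lintegral_mono_set Ioc_subset_Ioi_self
      _ ≤ ENNReal.ofReal (3 / Real.sqrt s) * ENNReal.ofReal (2 * Real.log (1 + T) + 1) := by
          rw [lintegral_mul_const' _ _ ENNReal.ofReal_ne_top]
          exact mul_le_mul' (exp_sqrt s hs) le_rfl
      _ = _ := by rw [← ENNReal.ofReal_mul (by positivity)]
  have hsw : ∫⁻ t in Ioc 0 T, ∫⁻ u in Ioc 0 T, F u t = ∫⁻ t in Ioc 0 T, ∫⁻ u in Ioc 0 T, F t u := by
    rw [lintegral_lintegral_swap]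
    exact (hm.comp measurable_swap).aemeasurable
  have hmu : ∀ t, Measurable (F t) := fun t => hm.comp measurable_prodMk_left
  have p4 : ∫⁻ t in Ioc 0 T, ∫⁻ u in Ioc 0 T,
      ENNReal.ofReal (Real.exp (-(s * (t + u))) * K t u) ≤
      ENNReal.ofReal (c * (3 / Real.sqrt s) * (2 * Real.log (1 + T) + 1)) := by
    have hpt : ∀ t ∈ Ioc 0 T, ∀ u ∈ Ioc 0 T,
        ENNReal.ofReal (Real.exp (-(s * (t + u))) * K t u) ≤
        ENNReal.ofReal (c / 2) * F t u + ENNReal.ofReal (c / 2) * F u t := by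
      intro t ht u hu
      simp only [hF]
      have et : 0 ≤ t ^ (-(1 / 2) : ℝ) := Real.rpow_nonneg ht.1.le _
      have eu : 0 ≤ u ^ (-(1 / 2) : ℝ) := Real.rpow_nonneg hu.1.le _
      have ed : 0 ≤ 1 / (1 + |u - t|) := by
        have := abs_nonneg (u - t)
        positivity
      rw [abs_sub_comm t u, ← ENNReal.ofReal_mul (mul_nonneg (Real.exp_pos _).le et),
        ← ENNReal.ofReal_mul (mul_nonneg (Real.exp_pos _).le eu),
        ← ENNReal.ofReal_mul (by positivity), ← ENNReal.ofReal_mul (by positivity),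
        ← ENNReal.ofReal_add
          (mul_nonneg (by positivity) (mul_nonneg (mul_nonneg (Real.exp_pos _).le et) ed))
          (mul_nonneg (by positivity) (mul_nonneg (mul_nonneg (Real.exp_pos _).le eu) ed))]
      apply ENNReal.ofReal_le_ofReal
      have e1 := hK t u ht.1 ht.2 hu.1 hu.2
      have e2 : Real.exp (-(s * (t + u))) = Real.exp (-(s * t)) * Real.exp (-(s * u)) := by
        rw [← Real.exp_add]
        congr 1
        ring
      have e3 : Real.exp (-(s * t)) ≤ 1 := by
        rw [Real.exp_le_one_iff]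
        have := ht.1
        have : 0 < s * t := by positivity
        linarith
      have e4 : Real.exp (-(s * u)) ≤ 1 := by
        rw [Real.exp_le_one_iff]
        have := hu.1
        have : 0 < s * u := by positivity
        linarith
      have e5 := (Real.exp_pos (-(s * t))).le
      have e6 := (Real.exp_pos (-(s * u))).le
      set E1 := Real.exp (-(s * t))
      set E2 := Real.exp (-(s * u))
      set X := t ^ (-(1 / 2) : ℝ)
      set Y := u ^ (-(1 / 2) : ℝ)
      set D := 1 / (1 + |u - t|)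
      rw [e2]
      calc E1 * E2 * K t u ≤ E1 * E2 * (c * ((X + Y) / 2) * D) :=
            mul_le_mul_of_nonneg_left e1 (by positivity)
        _ = c / 2 * (E1 * X * D) * E2 + c / 2 * (E2 * Y * D) * E1 := by ring
        _ ≤ c / 2 * (E1 * X * D) * 1 + c / 2 * (E2 * Y * D) * 1 := by
            refine add_le_add (mul_le_mul_of_nonneg_left e4 (by positivity))
              (mul_le_mul_of_nonneg_left e3 (by positivity))
        _ = _ := by ring
    calc ∫⁻ t in Ioc 0 T, ∫⁻ u in Ioc 0 T, ENNReal.ofReal (Real.exp (-(s * (t + u))) * K t u)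
        ≤ ∫⁻ t in Ioc 0 T, ∫⁻ u in Ioc 0 T,
          (ENNReal.ofReal (c / 2) * F t u + ENNReal.ofReal (c / 2) * F u t) :=
          setLIntegral_mono' measurableSet_Ioc fun t ht =>
            setLIntegral_mono' measurableSet_Ioc fun u hu => hpt t ht u hu
      _ = ∫⁻ t in Ioc 0 T, (ENNReal.ofReal (c / 2) * (∫⁻ u in Ioc 0 T, F t u) +
          ENNReal.ofReal (c / 2) * (∫⁻ u in Ioc 0 T, F u t)) := by
          refine lintegral_congr fun t => ?_
          rw [lintegral_add_left ((hmu t).const_mul _),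
            lintegral_const_mul' (ENNReal.ofReal (c / 2)) (F t) ENNReal.ofReal_ne_top,
            lintegral_const_mul' (ENNReal.ofReal (c / 2)) (fun u => F u t) ENNReal.ofReal_ne_top]
      _ = ENNReal.ofReal (c / 2) * (∫⁻ t in Ioc 0 T, ∫⁻ u in Ioc 0 T, F t u) +
          ENNReal.ofReal (c / 2) * (∫⁻ t in Ioc 0 T, ∫⁻ u in Ioc 0 T, F u t) := by
          have mB : Measurable fun t => ∫⁻ u in Ioc 0 T, F t u := hm.lintegral_prod_right'
          have mA : Measurable fun t => ENNReal.ofReal (c / 2) * ∫⁻ u in Ioc 0 T, F t u :=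
            mB.const_mul _
          rw [lintegral_add_left mA,
            lintegral_const_mul' (ENNReal.ofReal (c / 2)) (fun t => ∫⁻ u in Ioc 0 T, F t u)
              ENNReal.ofReal_ne_top,
            lintegral_const_mul' (ENNReal.ofReal (c / 2)) (fun t => ∫⁻ u in Ioc 0 T, F u t)
              ENNReal.ofReal_ne_top]
      _ = ENNReal.ofReal c * (∫⁻ t in Ioc 0 T, ∫⁻ u in Ioc 0 T, F t u) := by
          rw [hsw, ← add_mul, ← ENNReal.ofReal_add (by positivity) (by positivity)]
          congr 2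
          ring
      _ ≤ ENNReal.ofReal c * ENNReal.ofReal ((3 / Real.sqrt s) * (2 * Real.log (1 + T) + 1)) :=
          mul_le_mul' le_rfl p3
      _ = _ := by
          rw [← ENNReal.ofReal_mul hc]
          congr 1
          ring
  have p5 : ∫⁻ t in Ioc 0 T, ∫⁻ u in Ioi (0 : ℝ),
      ENNReal.ofReal (Real.exp (-(s * (t + u))) * K t u) ≤
      ENNReal.ofReal (c * (3 / Real.sqrt s) * (2 * Real.log (1 + T) + 1)) +
      ENNReal.ofReal (Real.exp (-(s * T)) / s * (1 / s)) := by
    have hB : Measurable fun t : ℝ => ENNReal.ofReal (Real.exp (-(s * t))) *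
        ENNReal.ofReal (Real.exp (-(s * T)) / s) := by fun_prop
    calc ∫⁻ t in Ioc 0 T, ∫⁻ u in Ioi (0 : ℝ), ENNReal.ofReal (Real.exp (-(s * (t + u))) * K t u)
        ≤ ∫⁻ t in Ioc 0 T, ((∫⁻ u in Ioc 0 T, ENNReal.ofReal (Real.exp (-(s * (t + u))) * K t u)) +
          ENNReal.ofReal (Real.exp (-(s * t))) * ENNReal.ofReal (Real.exp (-(s * T)) / s)) := by
          refine lintegral_mono fun t => ?_
          refine (lintegral_mono_set hsub).trans ((lintegral_union_le _ _ _).trans ?_)
          refine add_le_add le_rfl ?_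
          rw [← exp_int s hs T]
          exact hall t _
      _ = (∫⁻ t in Ioc 0 T, ∫⁻ u in Ioc 0 T, ENNReal.ofReal (Real.exp (-(s * (t + u))) * K t u)) +
          ∫⁻ t in Ioc 0 T, ENNReal.ofReal (Real.exp (-(s * t))) *
            ENNReal.ofReal (Real.exp (-(s * T)) / s) := lintegral_add_right _ hB
      _ ≤ _ := add_le_add p4 p2
  refine (lintegral_mono_set hsub).trans ((lintegral_union_le _ _ _).trans ?_)
  refine (add_le_add p5 p1).trans ?_
  rw [← ENNReal.ofReal_add (by positivity) (by positivity),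
    ← ENNReal.ofReal_add (by positivity) (by positivity)]
  apply ENNReal.ofReal_le_ofReal
  apply le_of_eq
  ring

end Pool.Agent.Zk11.QD.Tim
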