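import Pool.Agent.Zk11.QD.Nfour

/-! The bound for the fourth moment of the averaged resolvent. -/

set_option autoImplicit false
set_option linter.unusedSectionVars false

open scoped BigOperators Topology ENNReal
open MeasureTheory Filter

namespace Pool.Agent.Zk11.QD

open Pool.Agent.W788.MFP.Four (T e NN adj adj_neg e_comm e_add_left e_add e_zero e_neg e_neg_left
  e_normSq sum_e NN_pos card_T e_single)
open Pool.Agent.Zk11.QD.Tim (Osc)

variable {d L : ℕ} [NeZero L]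

/-- the size of a coordinate -/
noncomputable def na (ν : ZMod L) : ℕ := ν.valMinAbs.natAbs

theorem na_zero_iff (ν : ZMod L) : na ν = 0 ↔ ν = 0 := by
  unfold na
  rw [Int.natAbs_eq_zero, ZMod.valMinAbs_eq_zero]

theorem na_fiber (n : ℕ) : (Finset.univ.filter fun ν : ZMod L => na ν = n).card ≤ 2 := by
  classical
  have h1 : (Finset.univ.filter fun ν : ZMod L => na ν = n) ⊆
      ({((n : ℕ) : ZMod L), -((n : ℕ) : ZMod L)} : Finset (ZMod L)) := by
    intro ν hν
    rw [Finset.mem_filter] at hν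
    have h2 := ZMod.coe_valMinAbs ν
    have h3 := hν.2
    unfold na at h3
    rw [Finset.mem_insert, Finset.mem_singleton]
    rcases Int.natAbs_eq ν.valMinAbs with h4 | h4
    · left
      rw [← h3, ← Int.cast_natCast, ← h4, h2]
    · right
      rw [← h3, ← Int.cast_natCast, ← Int.cast_neg, ← h4, h2]
  exact (Finset.card_le_card h1).trans Finset.card_le_two

theorem small_exp (s : ℝ) (hs : 0 < s) (_hs1 : s ≤ 1) :
    Real.exp (-(s * (1 / s) ^ 4)) / s ≤ s ^ 2 := by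
  have h1 : s * (1 / s) ^ 4 = (1 / s) ^ 3 := by field_simp
  rw [h1, div_le_iff₀ hs, Real.exp_neg]
  have h2 : (1 / s) ^ 3 ≤ Real.exp ((1 / s) ^ 3) := by
    have := Real.add_one_le_exp ((1 / s) ^ 3)
    linarith
  have h3 : (Real.exp ((1 / s) ^ 3))⁻¹ ≤ ((1 / s) ^ 3)⁻¹ := inv_anti₀ (by positivity) h2
  refine h3.trans (le_of_eq ?_)
  field_simp

theorem prod_three (f : Fin d → ℝ) (h0 : ∀ i, 0 ≤ f i) (h1 : ∀ i, f i ≤ 1) (a b c : Fin d)
    (hab : a ≠ b) (hac : a ≠ c) (hbc : b ≠ c) : ∏ i, f i ≤ f a * f b * f c := by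
  classical
  rw [← Finset.prod_sdiff (Finset.subset_univ ({a, b, c} : Finset (Fin d)))]
  have h2 : ∏ i ∈ ({a, b, c} : Finset (Fin d)), f i = f a * f b * f c := by
    rw [Finset.prod_insert (by simp [hab, hac]), Finset.prod_insert (by simp [hbc]),
      Finset.prod_singleton]
    ring
  rw [h2]
  have h3 : ∏ i ∈ Finset.univ \ ({a, b, c} : Finset (Fin d)), f i ≤ 1 :=
    Finset.prod_le_one (fun i _ => h0 i) fun i _ => h1 i
  have h4 : 0 ≤ f a * f b * f c := by
    have := h0 a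
    have := h0 b
    have := h0 c
    positivity
  calc _ ≤ 1 * (f a * f b * f c) := mul_le_mul_of_nonneg_right h3 h4
    _ = _ := one_mul _

theorem two_others (hd : 3 ≤ d) (a : Fin d) : ∃ b c : Fin d, a ≠ b ∧ a ≠ c ∧ b ≠ c := by
  have h1 : 2 ≤ (Finset.univ.erase a : Finset (Fin d)).card := by
    rw [Finset.card_erase_of_mem (Finset.mem_univ a), Finset.card_univ, Fintype.card_fin]
    omega
  obtain ⟨b, hb, c, hc, hbc⟩ := Finset.one_lt_card.1 (by omega :
    1 < (Finset.univ.erase a : Finset (Fin d)).card)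
  exact ⟨b, c, (Finset.mem_erase.1 hb).1.symm, (Finset.mem_erase.1 hc).1.symm, hbc⟩

variable (hd : 3 ≤ d) (w : ℂ) (s : ℝ) (hs : 0 < s) (hs1 : s ≤ 1) (hw : s ≤ w.im)
  (hL1 : 13 * (1 + (1 / s) ^ 4 + (1 / s) ^ 4) ^ 2 ≤ (L : ℝ))

/-- the resolvent symbol -/
noncomputable def rv (w : ℂ) (k : T d L) : ℂ := (((aa k : ℝ) : ℂ) - w)⁻¹

include hd hs hs1 hw hL1

theorem near_bound (x : T d L) (a : Fin d) (ha : ∀ i, na (x i) ≤ na (x a)) (h1 : 1 ≤ na (x a))
    (hR : (na (x a) : ℝ) ≤ (1 / s) ^ 4) :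
    ‖kc (rv w) x‖ ^ 2 ≤ 11 * 10 ^ 10 / na (x a) := by
  set R := (1 / s) ^ 4 with hRdef
  have hR0 : 0 ≤ R := by positivity
  have hR1 : 1 ≤ R := one_le_pow₀ (by rw [le_div_iff₀ hs]; linarith)
  obtain ⟨b, c, hab, hac, hbc⟩ := two_others hd a
  have hN1 : (1 : ℝ) ≤ na (x a) := by exact_mod_cast h1
  have hbR : ∀ i, ((x i).valMinAbs.natAbs : ℝ) ≤ R := by
    intro i
    have : (na (x i) : ℝ) ≤ na (x a) := by exact_mod_cast ha i
    exact this.trans hR
  have Oa := bb_osc R R hR0 hR0 hL1 (x a) (hbR a)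
  have Ob := bb_osc R R hR0 hR0 hL1 (x b) (hbR b)
  have Oc := bb_osc R R hR0 hR0 hL1 (x c) (hbR c)
  have hXb : ((x b).valMinAbs.natAbs : ℝ) / 2 ≤ ((x a).valMinAbs.natAbs : ℝ) / 2 := by
    have : (na (x b) : ℝ) ≤ na (x a) := by exact_mod_cast ha b
    unfold na at this
    linarith
  have hXc : ((x c).valMinAbs.natAbs : ℝ) / 2 ≤ ((x a).valMinAbs.natAbs : ℝ) / 2 := by
    have : (na (x c) : ℝ) ≤ na (x a) := by exact_mod_cast ha c
    unfold na at this
    linarith
  have hX1 : 1 / 2 ≤ ((x a).valMinAbs.natAbs : ℝ) / 2 := by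
    unfold na at hN1
    linarith
  have hXR : ((x a).valMinAbs.natAbs : ℝ) / 2 ≤ R := by
    have := hbR a
    linarith
  have ht := Tim.triple (s := s) Oa Ob Oc (by norm_num) hXb hXc hX1 hs hR1 hXR
  have h2 := kc_single x w s hs hw
  have h3 : ENNReal.ofReal ‖kc (rv w) x‖ ≤ ENNReal.ofReal (60 * 14 ^ 3 *
      (((x a).valMinAbs.natAbs : ℝ) / 2) ^ (-(1 / 2) : ℝ) + Real.exp (-(s * R)) / s) := by
    refine le_trans (h2.trans ?_) ht
    refine lintegral_mono fun t => ENNReal.ofReal_le_ofReal ?_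
    refine mul_le_mul_of_nonneg_left ?_ (Real.exp_pos _).le
    exact prod_three (fun i => ‖bb L (x i) t‖) (fun _ => norm_nonneg _) (fun i => bb_le _ _) a b c
      hab hac hbc
  rw [ENNReal.ofReal_le_ofReal_iff (by positivity)] at h3
  have h4 := small_exp s hs hs1
  have h5 : 0 < (na (x a) : ℝ) := by linarith
  have h6 : ((((x a).valMinAbs.natAbs : ℝ) / 2) ^ (-(1 / 2) : ℝ)) ^ 2 = 2 / na (x a) := by
    rw [← Real.rpow_natCast, ← Real.rpow_mul (by positivity)]
    have e1 : -(1 / 2 : ℝ) * ((2 : ℕ) : ℝ) = -1 := by norm_num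
    rw [e1, Real.rpow_neg_one, inv_div]
    rfl
  set Y := (((x a).valMinAbs.natAbs : ℝ) / 2) ^ (-(1 / 2) : ℝ) with hY
  have hY0 : 0 ≤ Y := by positivity
  have h7 : ‖kc (rv w) x‖ ≤ 60 * 14 ^ 3 * Y + s ^ 2 := h3.trans (by linarith)
  have h8 : s ^ 4 ≤ 1 / na (x a) := by
    rw [le_div_iff₀ h5]
    calc s ^ 4 * na (x a) ≤ s ^ 4 * R := mul_le_mul_of_nonneg_left hR (by positivity)
      _ = 1 := by rw [hRdef]; field_simp
  calc ‖kc (rv w) x‖ ^ 2 ≤ (60 * 14 ^ 3 * Y + s ^ 2) ^ 2 :=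
        pow_le_pow_left₀ (norm_nonneg _) h7 2
    _ ≤ 2 * (60 * 14 ^ 3) ^ 2 * Y ^ 2 + 2 * s ^ 4 := by
        nlinarith [sq_nonneg (60 * 14 ^ 3 * Y - s ^ 2)]
    _ ≤ 2 * (60 * 14 ^ 3) ^ 2 * (2 / na (x a)) + 2 * (1 / na (x a)) := by
        rw [h6]
        linarith
    _ = (4 * (60 * 14 ^ 3) ^ 2 + 2) / na (x a) := by ring
    _ ≤ _ := by
        gcongr
        norm_num

theorem log_bd : Real.log (1 + (1 / s) ^ 4) ≤ 4 * (1 + Real.log (1 / s)) := by
  have h1 : 1 ≤ 1 / s := by rw [le_div_iff₀ hs]; linarith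
  have h2 : 1 + (1 / s) ^ 4 ≤ 2 * (1 / s) ^ 4 := by
    have := one_le_pow₀ h1 (n := 4)
    linarith
  have h3 : Real.log (1 + (1 / s) ^ 4) ≤ Real.log (2 * (1 / s) ^ 4) :=
    Real.log_le_log (by positivity) h2
  rw [Real.log_mul (by norm_num) (by positivity), Real.log_pow] at h3
  have h4 := Real.log_two_lt_d9
  push_cast at h3
  linarith

theorem fib_bound (hL2 : (1 + (1 / s) ^ 4) ^ 3 ≤ (L : ℝ) ^ 2) (i0 : Fin d) (ν : ZMod L)
    (hν : (na ν : ℝ) ≤ (1 / s) ^ 4) :
    ∑ x ∈ fib i0 ν, ‖kc (rv w) x‖ ^ 2 ≤ 5300000 * (1 + Real.log (1 / s)) ^ 2 := by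
  set R := (1 / s) ^ 4 with hRdef
  have hR0 : 0 ≤ R := by positivity
  have hR1 : 1 ≤ R := one_le_pow₀ (by rw [le_div_iff₀ hs]; linarith)
  have O := bb_osc R R hR0 hR0 hL1 ν hν
  have h1 := kc_fib hd i0 ν w s hs hw
  have h2 := Tim.double (s := s) O (by norm_num) hs hR1 (fun τ => ‖jL L τ‖ ^ 2)
    (jL_cont.norm.pow 2).measurable (fun _ => by positivity)
    (fun τ => pow_le_one₀ (norm_nonneg _) (jL_le τ))
    (fun τ => by simp only [jL_neg, RCLike.norm_conj])
    (fun τ hτ => by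
      have h3 := jL_dec (L := L) τ (by
        refine le_trans ?_ hL2
        gcongr)
      have h4 := pow_le_pow_left₀ (norm_nonneg _) h3 2
      rw [div_pow, Real.sq_sqrt (by positivity)] at h4
      norm_num at h4
      exact h4)
  have h3 := h1.trans h2
  have hlog := log_bd hd w s hs hs1 hw hL1
  rw [← hRdef] at hlog
  have hlog0 : 0 ≤ Real.log (1 + R) := Real.log_nonneg (by linarith)
  rw [ENNReal.ofReal_le_ofReal_iff (by positivity)] at h3
  have hδ := small_exp s hs hs1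
  rw [← hRdef] at hδ
  set δ := Real.exp (-(s * R)) / s with hδdef
  have hδ0 : 0 ≤ δ := by positivity
  have hδ1 : δ ≤ 1 := hδ.trans (pow_le_one₀ hs.le hs1)
  set Λ := 1 + Real.log (1 / s) with hΛ
  have hΛ1 : 1 ≤ Λ := by
    have : 0 ≤ Real.log (1 / s) := Real.log_nonneg (by rw [le_div_iff₀ hs]; linarith)
    linarith
  have h4 : δ * (1 / s) ≤ 1 := by
    calc δ * (1 / s) ≤ s ^ 2 * (1 / s) := mul_le_mul_of_nonneg_right hδ (by positivity)
      _ = s := by field_simp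
      _ ≤ 1 := hs1
  have h5 : (14 : ℝ) ^ 2 * (14 + 4 * Real.log (1 + R)) + δ ≤ 5881 * Λ := by linarith
  have h6 : 100 * (2 * Real.log (1 + R) + 1) + δ ≤ 901 * Λ := by linarith
  have h7 : 0 ≤ 100 * (2 * Real.log (1 + R) + 1) + δ := by positivity
  refine h3.trans ?_
  calc ((14 : ℝ) ^ 2 * (14 + 4 * Real.log (1 + R)) + δ) * (100 * (2 * Real.log (1 + R) + 1) + δ) +
        δ * (1 / s) ≤ (5881 * Λ) * (901 * Λ) + 1 :=
        add_le_add (mul_le_mul h5 h6 h7 (by positivity)) h4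
    _ ≤ _ := by nlinarith

theorem h1_sum (K : ℝ) (hK : 0 ≤ K) :
    ∑ ν : ZMod L, (if ν = 0 then 0 else if (na ν : ℝ) ≤ (1 / s) ^ 4 then K / na ν else 0) ≤
      8 * K * (1 + Real.log (1 / s)) := by
  classical
  set R := (1 / s) ^ 4 with hRdef
  have hR1 : 1 ≤ R := one_le_pow₀ (by rw [le_div_iff₀ hs]; linarith)
  set S : Finset (ZMod L) := Finset.univ.filter fun ν => na ν ∈ Finset.Icc 1 ⌊R⌋₊ with hS
  have h1 : ∑ ν : ZMod L, (if ν = 0 then 0 else if (na ν : ℝ) ≤ R then K / na ν else 0) =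
      ∑ ν ∈ S, K / na ν := by
    rw [hS, Finset.sum_filter]
    refine Finset.sum_congr rfl fun ν _ => ?_
    by_cases h0 : ν = 0
    · rw [if_pos h0, if_neg]
      rw [Finset.mem_Icc]
      have := (na_zero_iff ν).2 h0
      omega
    · rw [if_neg h0]
      have hne : na ν ≠ 0 := fun h => h0 ((na_zero_iff ν).1 h)
      have h2 : ((na ν : ℝ) ≤ R) ↔ na ν ∈ Finset.Icc 1 ⌊R⌋₊ := by
        rw [Finset.mem_Icc, Nat.le_floor_iff (by linarith)]
        constructor
        · intro h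
          exact ⟨by omega, h⟩
        · intro h
          exact h.2
      simp only [h2]
  rw [h1, ← Finset.sum_fiberwise_of_maps_to (s := S) (t := Finset.Icc 1 ⌊R⌋₊) (g := na)
    (fun ν hν => (Finset.mem_filter.1 hν).2)]
  have h2 : ∀ n ∈ Finset.Icc 1 ⌊R⌋₊, ∑ ν ∈ S.filter (fun ν => na ν = n), K / (na ν : ℝ) ≤
      2 * K * (n : ℝ)⁻¹ := by
    intro n hn
    have h3 : ∑ ν ∈ S.filter (fun ν => na ν = n), K / (na ν : ℝ) =
        ∑ _ν ∈ S.filter (fun ν => na ν = n), K / (n : ℝ) := by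
      refine Finset.sum_congr rfl fun ν hν => ?_
      rw [(Finset.mem_filter.1 hν).2]
    rw [h3, Finset.sum_const, nsmul_eq_mul]
    have h4 : ((S.filter (fun ν => na ν = n)).card : ℝ) ≤ 2 := by
      have h5 : (S.filter (fun ν => na ν = n)).card ≤ 2 := by
        refine (Finset.card_le_card ?_).trans (na_fiber (L := L) n)
        intro ν hν
        rw [Finset.mem_filter] at hν ⊢
        exact ⟨Finset.mem_univ _, hν.2⟩
      exact_mod_cast h5
    calc ((S.filter (fun ν => na ν = n)).card : ℝ) * (K / n) ≤ 2 * (K / n) :=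
          mul_le_mul_of_nonneg_right h4 (by positivity)
      _ = _ := by ring
  refine (Finset.sum_le_sum h2).trans ?_
  rw [← Finset.mul_sum]
  have h3 : ∑ n ∈ Finset.Icc 1 ⌊R⌋₊, ((n : ℝ))⁻¹ ≤ 1 + Real.log R := by
    have := harmonic_floor_le_one_add_log R hR1
    rw [harmonic_eq_sum_Icc] at this
    push_cast at this
    exact this
  have h4 : Real.log R = 4 * Real.log (1 / s) := by
    rw [hRdef, Real.log_pow]
    push_cast
    ring
  have h5 : 0 ≤ Real.log (1 / s) := Real.log_nonneg (by rw [le_div_iff₀ hs]; linarith)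
  calc 2 * K * ∑ n ∈ Finset.Icc 1 ⌊R⌋₊, ((n : ℝ))⁻¹ ≤ 2 * K * (1 + Real.log R) :=
        mul_le_mul_of_nonneg_left h3 (by positivity)
    _ ≤ _ := by
        rw [h4]
        nlinarith

/-- the fourth moment -/
theorem four_bound (hL2 : (1 + (1 / s) ^ 4) ^ 3 ≤ (L : ℝ) ^ 2) (B : ℝ) (hB0 : 0 ≤ B)
    (hB : ‖kc (rv w) (0 : T d L)‖ ≤ B) (hB2 : ∑ x : T d L, ‖kc (rv w) x‖ ^ 2 ≤ B / s) :
    ∑ x : T d L, ‖kc (rv w) x‖ ^ 4 ≤ B ^ 4 + 10 * d * B +
      d * (5 * 10 ^ 18 * (1 + Real.log (1 / s)) ^ 3) := by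
  classical
  set R := (1 / s) ^ 4 with hRdef
  set Λ := 1 + Real.log (1 / s) with hΛ
  have hR1 : 1 ≤ R := one_le_pow₀ (by rw [le_div_iff₀ hs]; linarith)
  have hΛ1 : 1 ≤ Λ := by
    have : 0 ≤ Real.log (1 / s) := Real.log_nonneg (by rw [le_div_iff₀ hs]; linarith)
    linarith
  set M : T d L → ℝ := fun x => ‖kc (rv w) x‖ ^ 2 with hM
  have hM0 : ∀ x, 0 ≤ M x := fun x => by simp only [hM]; positivity
  set K : ℝ := 11 * 10 ^ 10 with hK
  set g : ZMod L → ℝ := fun ν => if ν = 0 then 0 else if (na ν : ℝ) ≤ R then K / na ν else 0 with hg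
  have hg0 : ∀ ν, 0 ≤ g ν := by
    intro ν
    simp only [hg]
    split_ifs <;> positivity
  -- pointwise
  have hpt : ∀ x : T d L, x ≠ 0 → M x ≤ ∑ i, (g (x i) + 10 * s ^ 4) := by
    intro x hx
    obtain ⟨i1, hi1⟩ : ∃ i, x i ≠ 0 := by
      by_contra hcon
      push Not at hcon
      exact hx (funext hcon)
    obtain ⟨a, _, ha⟩ := Finset.exists_max_image Finset.univ (fun i => na (x i)) ⟨i1, Finset.mem_univ _⟩
    have ha1 : 1 ≤ na (x a) := by
      have h1 := ha i1 (Finset.mem_univ _)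
      have h2 : na (x i1) ≠ 0 := fun h => hi1 ((na_zero_iff _).1 h)
      omega
    have ha0 : x a ≠ 0 := by
      intro h
      have := (na_zero_iff (x a)).2 h
      omega
    have h1 : M x ≤ g (x a) + 10 * s ^ 4 := by
      rcases le_or_gt ((na (x a) : ℝ)) R with h2 | h2
      · have h3 := near_bound hd w s hs hs1 hw hL1 x a (fun i => ha i (Finset.mem_univ _)) ha1 h2
        have h4 : g (x a) = K / na (x a) := by
          simp only [hg]
          rw [if_neg ha0, if_pos h2]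
        rw [h4]
        have : 0 ≤ 10 * s ^ 4 := by positivity
        exact h3.trans (by linarith)
      · have h3 := kc_far a x w s hs hw
        have h4 : ‖kc (rv w) x‖ ≤ Real.pi * s ^ 2 := by
          have h5 : R * ‖kc (rv w) x‖ ≤ Real.pi / s ^ 2 := by
            refine le_trans ?_ h3
            exact mul_le_mul_of_nonneg_right h2.le (norm_nonneg _)
          have h6 : R * ‖kc (rv w) x‖ ≤ R * (Real.pi * s ^ 2) := by
            refine h5.trans (le_of_eq ?_)
            rw [hRdef]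
            field_simp
          exact le_of_mul_le_mul_left h6 (by linarith)
        have h5 : M x ≤ (Real.pi * s ^ 2) ^ 2 := pow_le_pow_left₀ (norm_nonneg _) h4 2
        have h6 : Real.pi ^ 2 ≤ 10 := by nlinarith [Real.pi_lt_d2, Real.pi_pos]
        have h7 : (Real.pi * s ^ 2) ^ 2 ≤ 10 * s ^ 4 := by
          have h8 : (Real.pi * s ^ 2) ^ 2 = Real.pi ^ 2 * s ^ 4 := by ring
          rw [h8]
          exact mul_le_mul_of_nonneg_right h6 (by positivity)
        have := hg0 (x a)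
        linarith
    refine h1.trans ?_
    exact Finset.single_le_sum (f := fun i => g (x i) + 10 * s ^ 4)
      (fun i _ => by have := hg0 (x i); positivity) (Finset.mem_univ a)
  have hsplit : ∀ x : T d L, ‖kc (rv w) x‖ ^ 4 ≤ (if x = 0 then B ^ 4 else 0) +
      ∑ i, (M x * g (x i) + 10 * s ^ 4 * M x) := by
    intro x
    have hnn : 0 ≤ ∑ i, (M x * g (x i) + 10 * s ^ 4 * M x) := by
      refine Finset.sum_nonneg fun i _ => ?_
      have h1 := hM0 x
      have h2 := hg0 (x i)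
      positivity
    by_cases hx : x = 0
    · rw [if_pos hx, hx]
      rw [hx] at hnn
      have := pow_le_pow_left₀ (norm_nonneg _) hB 4
      linarith
    · rw [if_neg hx, zero_add]
      have h1 : ‖kc (rv w) x‖ ^ 4 = M x * M x := by
        simp only [hM]
        ring
      rw [h1]
      refine (mul_le_mul_of_nonneg_left (hpt x hx) (hM0 x)).trans (le_of_eq ?_)
      rw [Finset.mul_sum]
      refine Finset.sum_congr rfl fun i _ => ?_
      ring
  refine (Finset.sum_le_sum fun x _ => hsplit x).trans ?_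
  rw [Finset.sum_add_distrib, Finset.sum_ite_eq' Finset.univ (0 : T d L), if_pos (Finset.mem_univ _),
    Finset.sum_comm]
  have hper : ∀ i : Fin d, ∑ x : T d L, (M x * g (x i) + 10 * s ^ 4 * M x) ≤
      5 * 10 ^ 18 * Λ ^ 3 + 10 * B := by
    intro i
    rw [Finset.sum_add_distrib, ← Finset.mul_sum]
    have e1 : 10 * s ^ 4 * ∑ x : T d L, M x ≤ 10 * B := by
      calc 10 * s ^ 4 * ∑ x : T d L, M x ≤ 10 * s ^ 4 * (B / s) :=
            mul_le_mul_of_nonneg_left hB2 (by positivity)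
        _ = 10 * B * s ^ 3 := by field_simp
        _ ≤ 10 * B * 1 := mul_le_mul_of_nonneg_left (pow_le_one₀ hs.le hs1) (by positivity)
        _ = _ := mul_one _
    have e2 : ∑ x : T d L, M x * g (x i) = ∑ ν : ZMod L, ∑ x ∈ fib i ν, M x * g (x i) := by
      unfold fib
      exact (Finset.sum_fiberwise Finset.univ (fun x : T d L => x i) _).symm
    have e3 : ∀ ν : ZMod L, ∑ x ∈ fib i ν, M x * g (x i) ≤ (5300000 * Λ ^ 2) * g ν := by
      intro ν
      have e4 : ∑ x ∈ fib i ν, M x * g (x i) = (∑ x ∈ fib i ν, M x) * g ν := by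
        rw [Finset.sum_mul]
        refine Finset.sum_congr rfl fun x hx => ?_
        unfold fib at hx
        rw [(Finset.mem_filter.1 hx).2]
      rw [e4]
      by_cases h0 : (na ν : ℝ) ≤ R
      · exact mul_le_mul_of_nonneg_right (fib_bound hd w s hs hs1 hw hL1 hL2 i ν h0) (hg0 ν)
      · have h1 : g ν = 0 := by
          simp only [hg]
          rw [if_neg h0]
          split_ifs <;> rfl
        rw [h1, mul_zero, mul_zero]
    have e5 : ∑ ν : ZMod L, g ν ≤ 8 * K * Λ := h1_sum hd w s hs hs1 hw hL1 K (by norm_num)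
    have e6 : ∑ x : T d L, M x * g (x i) ≤ 5 * 10 ^ 18 * Λ ^ 3 := by
      rw [e2]
      refine (Finset.sum_le_sum fun ν _ => e3 ν).trans ?_
      rw [← Finset.mul_sum]
      calc 5300000 * Λ ^ 2 * ∑ ν : ZMod L, g ν ≤ 5300000 * Λ ^ 2 * (8 * K * Λ) :=
            mul_le_mul_of_nonneg_left e5 (by positivity)
        _ = (5300000 * 8 * (11 * 10 ^ 10)) * Λ ^ 3 := by rw [hK]; ring
        _ ≤ 5 * 10 ^ 18 * Λ ^ 3 := by
            refine mul_le_mul_of_nonneg_right (by norm_num) (by positivity)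
    linarith
  refine (add_le_add le_rfl (Finset.sum_le_sum fun i _ => hper i)).trans (le_of_eq ?_)
  rw [Finset.sum_const, Finset.card_univ, Fintype.card_fin, nsmul_eq_mul]
  ring

end Pool.Agent.Zk11.QD
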