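import Mathlib

/-! The scalar self-consistent equation. -/

set_option autoImplicit false
set_option linter.unusedSectionVars false

open scoped BigOperators

namespace Pool.Agent.Zk11.QD

variable {ι : Type} [Fintype ι] [Nonempty ι]

/-- the denominator -/
noncomputable def Dn (a : ι → ℝ) (z : ℂ) (σ : ℝ) (m : ℂ) (k : ι) : ℂ :=
  (a k : ℂ) - z - (σ : ℂ) ^ 2 * m

/-- the averaged resolvent -/
noncomputable def ph (a : ι → ℝ) (z : ℂ) (σ : ℝ) (m : ℂ) : ℂ :=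
  ((Fintype.card ι : ℝ) : ℂ)⁻¹ * ∑ k, (Dn a z σ m k)⁻¹

theorem Dn_im (a : ι → ℝ) (z : ℂ) (σ : ℝ) (m : ℂ) (k : ι) :
    (Dn a z σ m k).im = -(z.im + σ ^ 2 * m.im) := by
  unfold Dn
  have : ((σ : ℂ) ^ 2 * m).im = σ ^ 2 * m.im := by
    rw [← Complex.ofReal_pow, Complex.im_ofReal_mul]
  rw [Complex.sub_im, Complex.sub_im, this, Complex.ofReal_im]
  ring

theorem Dn_norm_ge (a : ι → ℝ) (z : ℂ) (σ : ℝ) (m : ℂ) (k : ι)
    (h : 0 ≤ z.im + σ ^ 2 * m.im) : z.im + σ ^ 2 * m.im ≤ ‖Dn a z σ m k‖ := by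
  have h1 := Complex.abs_im_le_norm (Dn a z σ m k)
  rw [Dn_im, abs_neg, abs_of_nonneg h] at h1
  exact h1

theorem Dn_ne (a : ι → ℝ) (z : ℂ) (σ : ℝ) (m : ℂ) (k : ι)
    (h : 0 < z.im + σ ^ 2 * m.im) : Dn a z σ m k ≠ 0 := by
  have h1 := Dn_norm_ge a z σ m k h.le
  intro h2
  rw [h2, norm_zero] at h1
  linarith

theorem Dn_inv_im (a : ι → ℝ) (z : ℂ) (σ : ℝ) (m : ℂ) (k : ι) :
    ((Dn a z σ m k)⁻¹).im = (z.im + σ ^ 2 * m.im) * ‖(Dn a z σ m k)⁻¹‖ ^ 2 := by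
  rw [Complex.inv_im, Dn_im, neg_neg, norm_inv, inv_pow, Complex.normSq_eq_norm_sq, div_eq_mul_inv]

theorem ward (a : ι → ℝ) (z : ℂ) (σ : ℝ) (m : ℂ) :
    (ph a z σ m).im = (z.im + σ ^ 2 * m.im) *
      ((Fintype.card ι : ℝ)⁻¹ * ∑ k, ‖(Dn a z σ m k)⁻¹‖ ^ 2) := by
  unfold ph
  rw [← Complex.ofReal_inv, Complex.im_ofReal_mul, Complex.im_sum]
  simp only [Dn_inv_im]
  rw [← Finset.mul_sum]
  ring

theorem card_pos' : (0 : ℝ) < Fintype.card ι := by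
  exact_mod_cast Fintype.card_pos

theorem ph_norm (a : ι → ℝ) (z : ℂ) (σ : ℝ) (m : ℂ) (hz : 0 < z.im) (hm : 0 ≤ m.im) :
    ‖ph a z σ m‖ ≤ 1 / z.im := by
  unfold ph
  have hc := card_pos' (ι := ι)
  rw [norm_mul, norm_inv, Complex.norm_real, Real.norm_eq_abs, abs_of_pos hc]
  have h1 : ‖∑ k, (Dn a z σ m k)⁻¹‖ ≤ Fintype.card ι * (1 / z.im) := by
    refine (norm_sum_le _ _).trans ?_
    calc ∑ k, ‖(Dn a z σ m k)⁻¹‖ ≤ ∑ _k : ι, 1 / z.im := by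
          refine Finset.sum_le_sum fun k _ => ?_
          rw [norm_inv, ← one_div]
          apply one_div_le_one_div_of_le hz
          refine le_trans ?_ (Dn_norm_ge a z σ m k (by positivity))
          nlinarith [sq_nonneg σ]
      _ = _ := by rw [Finset.sum_const, Finset.card_univ, nsmul_eq_mul]
  calc (Fintype.card ι : ℝ)⁻¹ * ‖∑ k, (Dn a z σ m k)⁻¹‖ ≤
        (Fintype.card ι : ℝ)⁻¹ * (Fintype.card ι * (1 / z.im)) :=
        mul_le_mul_of_nonneg_left h1 (by positivity)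
    _ = 1 / z.im := by field_simp

theorem ph_diff (a : ι → ℝ) (z : ℂ) (σ : ℝ) (m m' : ℂ) (hz : 0 < z.im) (hm : 0 ≤ m.im)
    (hm' : 0 ≤ m'.im) :
    ‖ph a z σ m - ph a z σ m'‖ ^ 2 ≤ (σ ^ 2 * ‖m - m'‖) ^ 2 *
      (((Fintype.card ι : ℝ)⁻¹ * ∑ k, ‖(Dn a z σ m k)⁻¹‖ ^ 2) *
        ((Fintype.card ι : ℝ)⁻¹ * ∑ k, ‖(Dn a z σ m' k)⁻¹‖ ^ 2)) := by
  have hc := card_pos' (ι := ι)
  have hp : 0 < z.im + σ ^ 2 * m.im := by positivity
  have hp' : 0 < z.im + σ ^ 2 * m'.im := by positivity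
  have h1 : ph a z σ m - ph a z σ m' = ((Fintype.card ι : ℝ) : ℂ)⁻¹ * ((σ : ℂ) ^ 2 * (m - m') *
      ∑ k, (Dn a z σ m k)⁻¹ * (Dn a z σ m' k)⁻¹) := by
    have h0 : ∑ k, (Dn a z σ m k)⁻¹ - ∑ k, (Dn a z σ m' k)⁻¹ =
        (σ : ℂ) ^ 2 * (m - m') * ∑ k, (Dn a z σ m k)⁻¹ * (Dn a z σ m' k)⁻¹ := by
      rw [← Finset.sum_sub_distrib, Finset.mul_sum]
      refine Finset.sum_congr rfl fun k _ => ?_
      have e1 := Dn_ne a z σ m k hp
      have e2 := Dn_ne a z σ m' k hp'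
      field_simp
      unfold Dn
      ring
    unfold ph
    rw [← mul_sub, h0]
  have h2 : ‖∑ k, (Dn a z σ m k)⁻¹ * (Dn a z σ m' k)⁻¹‖ ^ 2 ≤
      (∑ k, ‖(Dn a z σ m k)⁻¹‖ ^ 2) * ∑ k, ‖(Dn a z σ m' k)⁻¹‖ ^ 2 := by
    have h3 : ‖∑ k, (Dn a z σ m k)⁻¹ * (Dn a z σ m' k)⁻¹‖ ≤
        ∑ k, ‖(Dn a z σ m k)⁻¹‖ * ‖(Dn a z σ m' k)⁻¹‖ := by
      refine (norm_sum_le _ _).trans (le_of_eq (Finset.sum_congr rfl fun k _ => ?_))
      rw [norm_mul]
    exact (pow_le_pow_left₀ (norm_nonneg _) h3 2).trans (Finset.sum_mul_sq_le_sq_mul_sq _ _ _)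
  rw [h1, norm_mul, norm_mul, norm_mul, norm_inv, Complex.norm_real, Real.norm_eq_abs,
    abs_of_pos hc, norm_pow, Complex.norm_real, Real.norm_eq_abs, sq_abs]
  calc ((Fintype.card ι : ℝ)⁻¹ * (σ ^ 2 * ‖m - m'‖ *
        ‖∑ k, (Dn a z σ m k)⁻¹ * (Dn a z σ m' k)⁻¹‖)) ^ 2 =
        (σ ^ 2 * ‖m - m'‖) ^ 2 * (((Fintype.card ι : ℝ)⁻¹) ^ 2 *
          ‖∑ k, (Dn a z σ m k)⁻¹ * (Dn a z σ m' k)⁻¹‖ ^ 2) := by ring
    _ ≤ (σ ^ 2 * ‖m - m'‖) ^ 2 * (((Fintype.card ι : ℝ)⁻¹) ^ 2 *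
          ((∑ k, ‖(Dn a z σ m k)⁻¹‖ ^ 2) * ∑ k, ‖(Dn a z σ m' k)⁻¹‖ ^ 2)) := by
        refine mul_le_mul_of_nonneg_left (mul_le_mul_of_nonneg_left h2 (by positivity))
          (by positivity)
    _ = _ := by ring

/-- the solution of the self-consistent equation -/
theorem mde_exists (a : ι → ℝ) (z : ℂ) (hz : 0 < z.im) (σ : ℝ) :
    ∃ m : ℂ, 0 < m.im ∧ ph a z σ m = m := by
  classical
  have hc := card_pos' (ι := ι)
  set A : ℝ := ∑ k, |a k| + ‖z‖ + σ ^ 2 * (1 / z.im) + 1 with hA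
  have hA0 : 0 < A := by positivity
  set ε : ℝ := min (z.im / A ^ 2) (1 / z.im) with hε
  have hε0 : 0 < ε := by positivity
  set K : Set ℂ := {m : ℂ | ε ≤ m.im ∧ ‖m‖ ≤ 1 / z.im} with hK
  have hKc : IsCompact K := by
    have h1 : IsClosed {m : ℂ | ε ≤ m.im} := isClosed_le continuous_const Complex.continuous_im
    have h2 : K = Metric.closedBall (0 : ℂ) (1 / z.im) ∩ {m : ℂ | ε ≤ m.im} := by
      ext m
      simp [hK, and_comm]
    rw [h2]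
    exact (isCompact_closedBall _ _).inter_right h1
  have hKne : K.Nonempty := by
    refine ⟨(((1 / z.im : ℝ)) : ℂ) * Complex.I, ?_, ?_⟩
    · simp only [Complex.mul_I_im, Complex.ofReal_re]
      exact min_le_right _ _
    · rw [norm_mul, Complex.norm_I, mul_one, Complex.norm_real, Real.norm_eq_abs,
        abs_of_pos (by positivity)]
  have hmap : ∀ m ∈ K, ph a z σ m ∈ K := by
    intro m hm
    have hm0 : 0 ≤ m.im := hε0.le.trans hm.1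
    refine ⟨?_, ph_norm a z σ m hz hm0⟩
    rw [ward]
    have h1 : ∀ k, ‖Dn a z σ m k‖ ≤ A := by
      intro k
      unfold Dn
      have e1 : |a k| ≤ ∑ k, |a k| :=
        Finset.single_le_sum (f := fun k => |a k|) (fun _ _ => abs_nonneg _) (Finset.mem_univ k)
      have e2 : ‖(σ : ℂ) ^ 2 * m‖ ≤ σ ^ 2 * (1 / z.im) := by
        rw [norm_mul, norm_pow, Complex.norm_real, Real.norm_eq_abs, sq_abs]
        exact mul_le_mul_of_nonneg_left hm.2 (by positivity)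
      calc ‖(a k : ℂ) - z - (σ : ℂ) ^ 2 * m‖ ≤ ‖(a k : ℂ)‖ + ‖z‖ + ‖(σ : ℂ) ^ 2 * m‖ :=
            (norm_sub_le _ _).trans (add_le_add (norm_sub_le _ _) le_rfl)
        _ ≤ ∑ k, |a k| + ‖z‖ + σ ^ 2 * (1 / z.im) := by
            refine add_le_add (add_le_add ?_ le_rfl) e2
            rw [Complex.norm_real, Real.norm_eq_abs]
            exact e1
        _ ≤ A := by rw [hA]; linarith
    have h2 : ∀ k, 1 / A ^ 2 ≤ ‖(Dn a z σ m k)⁻¹‖ ^ 2 := by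
      intro k
      rw [norm_inv, inv_pow, ← one_div]
      have hD : 0 < ‖Dn a z σ m k‖ :=
        lt_of_lt_of_le (by positivity) (Dn_norm_ge a z σ m k (by positivity))
      exact one_div_le_one_div_of_le (by positivity) (pow_le_pow_left₀ hD.le (h1 k) 2)
    have h3 : 1 / A ^ 2 ≤ (Fintype.card ι : ℝ)⁻¹ * ∑ k, ‖(Dn a z σ m k)⁻¹‖ ^ 2 := by
      have h4 : (Fintype.card ι : ℝ) * (1 / A ^ 2) ≤ ∑ k, ‖(Dn a z σ m k)⁻¹‖ ^ 2 := by
        calc (Fintype.card ι : ℝ) * (1 / A ^ 2) = ∑ _k : ι, 1 / A ^ 2 := by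
              rw [Finset.sum_const, Finset.card_univ, nsmul_eq_mul]
          _ ≤ _ := Finset.sum_le_sum fun k _ => h2 k
      calc 1 / A ^ 2 = (Fintype.card ι : ℝ)⁻¹ * ((Fintype.card ι : ℝ) * (1 / A ^ 2)) := by
            field_simp
        _ ≤ _ := mul_le_mul_of_nonneg_left h4 (by positivity)
    calc ε ≤ z.im / A ^ 2 := min_le_left _ _
      _ = z.im * (1 / A ^ 2) := by ring
      _ ≤ (z.im + σ ^ 2 * m.im) *
          ((Fintype.card ι : ℝ)⁻¹ * ∑ k, ‖(Dn a z σ m k)⁻¹‖ ^ 2) :=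
          mul_le_mul (by nlinarith [sq_nonneg σ]) h3 (by positivity) (by positivity)
  have hcont : ContinuousOn (ph a z σ) K := by
    unfold ph
    refine ContinuousOn.mul continuousOn_const (continuousOn_finsetSum _ fun k _ => ?_)
    refine ContinuousOn.inv₀ ?_ ?_
    · unfold Dn
      fun_prop
    · intro m hm
      have hm0 : 0 ≤ m.im := hε0.le.trans hm.1
      exact Dn_ne a z σ m k (by positivity)
  have hcf : ContinuousOn (fun m => ‖ph a z σ m - m‖ ^ 2 / (m.im * (ph a z σ m).im)) K := by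
    refine ContinuousOn.div ?_ ?_ ?_
    · exact ((hcont.sub continuousOn_id).norm).pow 2
    · exact (Complex.continuous_im.continuousOn).mul
        (Complex.continuous_im.comp_continuousOn hcont)
    · intro m hm
      have h1 := hm.1
      have h2 := (hmap m hm).1
      exact (mul_pos (hε0.trans_le h1) (hε0.trans_le h2)).ne'
  obtain ⟨m, hm, hmin⟩ := hKc.exists_isMinOn hKne hcf
  refine ⟨m, hε0.trans_le hm.1, ?_⟩
  by_contra hne
  have hm1 : 0 < m.im := hε0.trans_le hm.1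
  set m' := ph a z σ m with hm'
  have hmK := hmap m hm
  have hm1' : 0 < m'.im := hε0.trans_le hmK.1
  have h0 := hmin hmK
  simp only [Set.mem_ofPred_eq] at h0
  have hm'' := hmap m' hmK
  have hm1'' : 0 < (ph a z σ m').im := hε0.trans_le hm''.1
  have hd := ph_diff a z σ m' m hz hm1'.le hm1.le
  have w1 := ward a z σ m
  have w2 := ward a z σ m'
  set X := (Fintype.card ι : ℝ)⁻¹ * ∑ k, ‖(Dn a z σ m k)⁻¹‖ ^ 2 with hX
  set X' := (Fintype.card ι : ℝ)⁻¹ * ∑ k, ‖(Dn a z σ m' k)⁻¹‖ ^ 2 with hX'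
  have hX0 : 0 < X := by
    rw [← hm'] at w1
    by_contra hcon
    push Not at hcon
    have : (z.im + σ ^ 2 * m.im) * X ≤ 0 := mul_nonpos_of_nonneg_of_nonpos (by positivity) hcon
    linarith
  have hX0' : 0 < X' := by
    by_contra hcon
    push Not at hcon
    have : (z.im + σ ^ 2 * m'.im) * X' ≤ 0 := mul_nonpos_of_nonneg_of_nonpos (by positivity) hcon
    linarith
  have hnn : 0 < ‖m' - m‖ := norm_pos_iff.2 (sub_ne_zero.2 hne)
  rw [← hm'] at hd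
  -- the quotient at the next point
  have h3 : ‖ph a z σ m' - m'‖ ^ 2 / (m'.im * (ph a z σ m').im) <
      ‖m' - m‖ ^ 2 / (m.im * m'.im) := by
    rw [div_lt_div_iff₀ (by positivity) (by positivity)]
    rw [← hm'] at w1
    have e1 : (σ ^ 2 * m.im) * (σ ^ 2 * m'.im) < (z.im + σ ^ 2 * m.im) * (z.im + σ ^ 2 * m'.im) := by
      nlinarith [mul_pos hz hz, mul_nonneg (mul_nonneg hz.le (sq_nonneg σ)) hm1.le,
        mul_nonneg (mul_nonneg hz.le (sq_nonneg σ)) hm1'.le]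
    calc ‖ph a z σ m' - m'‖ ^ 2 * (m.im * m'.im)
        ≤ ((σ ^ 2 * ‖m' - m‖) ^ 2 * (X' * X)) * (m.im * m'.im) :=
          mul_le_mul_of_nonneg_right hd (by positivity)
      _ = (X' * X * ‖m' - m‖ ^ 2) * ((σ ^ 2 * m.im) * (σ ^ 2 * m'.im)) := by ring
      _ < (X' * X * ‖m' - m‖ ^ 2) * ((z.im + σ ^ 2 * m.im) * (z.im + σ ^ 2 * m'.im)) :=
          mul_lt_mul_of_pos_left e1 (by positivity)
      _ = ‖m' - m‖ ^ 2 * (((z.im + σ ^ 2 * m.im) * X) * ((z.im + σ ^ 2 * m'.im) * X')) := by ring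
      _ = ‖m' - m‖ ^ 2 * (m'.im * (ph a z σ m').im) := by rw [← w1, ← w2]
  rw [← hm'] at h0
  linarith

end Pool.Agent.Zk11.QD
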