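import Pool.Agent.Zk11.QD.Abs2

/-! The single-site transition function. -/

set_option autoImplicit false
set_option linter.unusedSectionVars false

open scoped BigOperators
open MeasureTheory

namespace Pool.Agent.Zk11.QD

/-- the single-site potential -/
noncomputable def vv (σ : ℝ) (m : ℂ) (s : ℝ) : ℂ := (σ : ℂ) * s + (σ : ℂ) ^ 2 * m

theorem vv_meas (σ : ℝ) (m : ℂ) : Measurable (vv σ m) := by
  unfold vv
  fun_prop

/-- the properties used later -/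
structure Sit (μ : Measure ℝ) (σ : ℝ) (m : ℂ) (C τ : ℝ) (h : ℝ → ℂ) : Prop where
  τpos : 0 < τ
  τσ : |τ ^ 2 - σ ^ 2| ≤ C * σ ^ 3
  good : Good μ h C
  hZ : ∀ᵐ s ∂μ, ‖vv σ m s - τ * h s * (1 + m * vv σ m s)‖ ≤ C * σ ^ 3
  hW : ∀ᵐ s ∂μ, ‖vv σ m s‖ ≤ C * σ

theorem int3 (μ : Measure ℝ) [IsProbabilityMeasure μ] (f g : ℝ → ℂ) (hf : Integrable f μ)
    (hg : Integrable g μ) (a b c : ℂ) :
    ∫ s, (a * f s + b * g s + c) ∂μ = a * ∫ s, f s ∂μ + b * ∫ s, g s ∂μ + c := by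
  have h12 : Integrable (fun s => a * f s + b * g s) μ := (hf.const_mul a).add (hg.const_mul b)
  rw [integral_add h12 (integrable_const _), integral_add (hf.const_mul a) (hg.const_mul b),
    integral_const_mul, integral_const_mul]
  simp

theorem int3R (μ : Measure ℝ) [IsProbabilityMeasure μ] (f g : ℝ → ℝ) (hf : Integrable f μ)
    (hg : Integrable g μ) (a b c : ℝ) :
    ∫ s, (a * f s + b * g s + c) ∂μ = a * ∫ s, f s ∂μ + b * ∫ s, g s ∂μ + c := by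
  have h12 : Integrable (fun s => a * f s + b * g s) μ := (hf.const_mul a).add (hg.const_mul b)
  rw [integral_add h12 (integrable_const _), integral_add (hf.const_mul a) (hg.const_mul b),
    integral_const_mul, integral_const_mul]
  simp

theorem site_aux (μ : Measure ℝ) [IsProbabilityMeasure μ] (b c σ : ℝ) (m : ℂ) (hb : 1 ≤ b)
    (hc : b ≤ c) (hmc : ‖m‖ * b ≤ c) (hm1 : ‖m‖ ≤ c)
    (hσ0 : 0 < σ) (hσ : 200 * c ^ 3 * σ ≤ 1) (hμb : ∀ᵐ s ∂μ, |s| ≤ b)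
    (h1 : ∫ s, s ∂μ = 0) (h2 : ∫ s, s ^ 2 ∂μ = 1) :
    ∃ (τ : ℝ) (h : ℝ → ℂ), Sit μ σ m (100 * c ^ 3) τ h := by
  have hc1 : 1 ≤ c := hb.trans hc
  have hc2 : c ≤ c ^ 2 := by nlinarith
  have hc3 : c ^ 2 ≤ c ^ 3 := by nlinarith [sq_nonneg c]
  have hc13 : 1 ≤ c ^ 3 := by nlinarith
  have hcσ : 200 * (c * σ) ≤ 1 := by nlinarith
  have hc2σ : 200 * (c ^ 2 * σ) ≤ 1 := by nlinarith
  have hσ1 : 200 * σ ≤ 1 := by nlinarith
  have hm0 : 0 ≤ ‖m‖ := norm_nonneg m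
  -- pointwise bounds
  have hv : ∀ s : ℝ, |s| ≤ b → ‖vv σ m s‖ ≤ 2 * b * σ := by
    intro s hs
    unfold vv
    refine (norm_add_le _ _).trans ?_
    rw [norm_mul, norm_mul, norm_pow, Complex.norm_real, Complex.norm_real, Real.norm_eq_abs,
      Real.norm_eq_abs, abs_of_pos hσ0]
    have e1 : σ * |s| ≤ σ * b := mul_le_mul_of_nonneg_left hs hσ0.le
    have e2 : σ ^ 2 * ‖m‖ ≤ σ * b := by
      have : σ * ‖m‖ ≤ 1 := by nlinarith
      nlinarith
    linarith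
  have hmv : ∀ s : ℝ, |s| ≤ b → ‖m * vv σ m s‖ ≤ 2 * (c * σ) := by
    intro s hs
    rw [norm_mul]
    have := mul_le_mul_of_nonneg_left (hv s hs) hm0
    nlinarith
  have hden : ∀ s : ℝ, |s| ≤ b → 1 / 2 ≤ ‖1 + m * vv σ m s‖ := by
    intro s hs
    have e1 := norm_sub_norm_le (1 : ℂ) (-(m * vv σ m s))
    rw [norm_neg, norm_one, sub_neg_eq_add] at e1
    have := hmv s hs
    linarith
  have hden0 : ∀ s : ℝ, |s| ≤ b → 1 + m * vv σ m s ≠ 0 := by
    intro s hs h0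
    have := hden s hs
    rw [h0, norm_zero] at this
    linarith
  set T0 : ℝ → ℂ := fun s => vv σ m s / (1 + m * vv σ m s) with hT0
  have hT0m : Measurable T0 := (vv_meas σ m).div (((vv_meas σ m).const_mul m).const_add 1)
  have hT0b : ∀ s : ℝ, |s| ≤ b → ‖T0 s‖ ≤ 4 * b * σ := by
    intro s hs
    simp only [hT0]
    rw [norm_div, div_le_iff₀ (by have := hden s hs; linarith)]
    have e1 := hv s hs
    have e2 := hden s hs
    have e3 : 0 ≤ 4 * b * σ := by positivity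
    nlinarith
  have hT0v : ∀ s : ℝ, |s| ≤ b → ‖T0 s - vv σ m s‖ ≤ 8 * c ^ 2 * σ ^ 2 := by
    intro s hs
    have e0 : T0 s - vv σ m s = -(m * vv σ m s * vv σ m s) / (1 + m * vv σ m s) := by
      simp only [hT0]
      rw [eq_div_iff (hden0 s hs), sub_mul, div_mul_cancel₀ _ (hden0 s hs)]
      ring
    rw [e0, norm_div, norm_neg, norm_mul, div_le_iff₀ (by have := hden s hs; linarith)]
    have e1 := hv s hs
    have e2 := hden s hs
    have e3 := hmv s hs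
    have e4 : ‖m * vv σ m s‖ * ‖vv σ m s‖ ≤ (2 * (c * σ)) * (2 * b * σ) :=
      mul_le_mul e3 e1 (norm_nonneg _) (by positivity)
    have e5 : (2 * (c * σ)) * (2 * b * σ) ≤ 4 * c ^ 2 * σ ^ 2 := by
      have : c * b ≤ c * c := mul_le_mul_of_nonneg_left hc (by linarith)
      nlinarith [sq_nonneg σ]
    have e6 : 0 ≤ 8 * c ^ 2 * σ ^ 2 := by positivity
    nlinarith
  -- the mean
  set t0 : ℂ := ∫ s, T0 s ∂μ with ht0
  have hR : ∀ s : ℝ, |s| ≤ b → ‖T0 s - (vv σ m s - m * vv σ m s ^ 2)‖ ≤ 16 * c ^ 3 * σ ^ 3 := by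
    intro s hs
    have e0 : T0 s - (vv σ m s - m * vv σ m s ^ 2) =
        ((m * vv σ m s) * (m * vv σ m s) * vv σ m s) / (1 + m * vv σ m s) := by
      simp only [hT0]
      rw [eq_div_iff (hden0 s hs), sub_mul, div_mul_cancel₀ _ (hden0 s hs)]
      ring
    rw [e0, norm_div, norm_mul, norm_mul (m * vv σ m s), div_le_iff₀ (by have := hden s hs; linarith)]
    have e1 := hv s hs
    have e2 := hden s hs
    have e3 := hmv s hs
    have e4 : ‖m * vv σ m s‖ * ‖m * vv σ m s‖ * ‖vv σ m s‖ ≤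
        (2 * (c * σ)) * (2 * (c * σ)) * (2 * b * σ) :=
      mul_le_mul (mul_le_mul e3 e3 (norm_nonneg _) (by positivity)) e1 (norm_nonneg _)
        (by positivity)
    have e5 : (2 * (c * σ)) * (2 * (c * σ)) * (2 * b * σ) ≤ 8 * c ^ 3 * σ ^ 3 := by
      have : (c ^ 2 * σ ^ 3) * b ≤ (c ^ 2 * σ ^ 3) * c :=
        mul_le_mul_of_nonneg_left hc (by positivity)
      nlinarith
    have e6 : 0 ≤ 16 * c ^ 3 * σ ^ 3 := by positivity
    nlinarith
  have hint : ∀ (f : ℝ → ℂ) (C : ℝ), Measurable f → (∀ s : ℝ, |s| ≤ b → ‖f s‖ ≤ C) →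
      Integrable f μ := by
    intro f C hf hfb
    exact Integrable.of_bound hf.aestronglyMeasurable C (hμb.mono fun s hs => hfb s hs)
  have hIs : Integrable (fun s : ℝ => (s : ℂ)) μ := hint _ b (by fun_prop) (fun s hs => by
    rw [Complex.norm_real, Real.norm_eq_abs]; exact hs)
  have hIs2 : Integrable (fun s : ℝ => (s : ℂ) ^ 2) μ := hint _ (b ^ 2) (by fun_prop)
    (fun s hs => by
      rw [norm_pow, Complex.norm_real, Real.norm_eq_abs]
      exact pow_le_pow_left₀ (abs_nonneg _) hs 2)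
  have c1 : ∫ s : ℝ, (s : ℂ) ∂μ = 0 := by
    rw [integral_complex_ofReal, h1]
    simp
  have c2 : ∫ s : ℝ, (s : ℂ) ^ 2 ∂μ = 1 := by
    have : ∀ s : ℝ, (s : ℂ) ^ 2 = ((s ^ 2 : ℝ) : ℂ) := fun s => by push_cast; rfl
    simp only [this]
    rw [integral_complex_ofReal, h2]
    simp
  have hpoly : ∫ s, (vv σ m s - m * vv σ m s ^ 2) ∂μ = -(σ : ℂ) ^ 4 * m ^ 3 := by
    have e1 : ∀ s : ℝ, vv σ m s - m * vv σ m s ^ 2 =
        ((σ : ℂ) - 2 * (σ : ℂ) ^ 3 * m ^ 2) * s + (-(m * (σ : ℂ) ^ 2)) * (s : ℂ) ^ 2 +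
          ((σ : ℂ) ^ 2 * m - (σ : ℂ) ^ 4 * m ^ 3) := by
      intro s
      unfold vv
      ring
    simp only [e1]
    rw [int3 μ _ _ hIs hIs2, c1, c2]
    ring
  have ht0b : ‖t0‖ ≤ 17 * c ^ 3 * σ ^ 3 := by
    have e1 : t0 = ∫ s, (T0 s - (vv σ m s - m * vv σ m s ^ 2)) ∂μ + -(σ : ℂ) ^ 4 * m ^ 3 := by
      have e2 : Integrable (fun s => vv σ m s - m * vv σ m s ^ 2) μ :=
        hint _ (2 * b * σ + ‖m‖ * (2 * b * σ) ^ 2)
          ((vv_meas σ m).sub (((vv_meas σ m).pow_const 2).const_mul m)) (fun s hs => by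
            refine (norm_sub_le _ _).trans (add_le_add (hv s hs) ?_)
            rw [norm_mul, norm_pow]
            exact mul_le_mul_of_nonneg_left (pow_le_pow_left₀ (norm_nonneg _) (hv s hs) 2) hm0)
      have e3 : Integrable T0 μ := hint _ _ hT0m hT0b
      rw [integral_sub e3 e2, hpoly]
      ring
    rw [e1]
    refine (norm_add_le _ _).trans ?_
    have e4 : ‖∫ s, (T0 s - (vv σ m s - m * vv σ m s ^ 2)) ∂μ‖ ≤ 16 * c ^ 3 * σ ^ 3 := by
      have := norm_integral_le_of_norm_le_const (μ := μ) (hμb.mono fun s hs => hR s hs)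
      simpa using this
    have e5 : ‖-(σ : ℂ) ^ 4 * m ^ 3‖ ≤ c ^ 3 * σ ^ 3 := by
      rw [norm_mul, norm_neg, norm_pow, norm_pow, Complex.norm_real, Real.norm_eq_abs,
        abs_of_pos hσ0]
      have e6 : ‖m‖ ^ 3 ≤ c ^ 3 := pow_le_pow_left₀ hm0 hm1 3
      have e7 : σ ^ 4 ≤ σ ^ 3 := by
        have : σ ^ 4 = σ ^ 3 * σ := by ring
        rw [this]
        have h3 : 0 < σ ^ 3 := by positivity
        nlinarith
      calc σ ^ 4 * ‖m‖ ^ 3 ≤ σ ^ 3 * c ^ 3 := mul_le_mul e7 e6 (by positivity) (by positivity)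
        _ = _ := by ring
    linarith
  -- small quantities
  have hs1 : 17 * c ^ 3 * σ ^ 3 ≤ c ^ 2 * σ ^ 2 := by
    have : 17 * (c * σ) ≤ 1 := by nlinarith
    have h3 : 0 < c ^ 2 * σ ^ 2 := by positivity
    nlinarith
  have hs2 : 17 * c ^ 3 * σ ^ 3 ≤ b * σ := by
    have e1 : 17 * (c ^ 3 * σ) ≤ 1 := by nlinarith
    have e2 : σ ≤ 1 := by linarith
    have e3 : 17 * c ^ 3 * σ ^ 3 = (17 * (c ^ 3 * σ)) * (σ * σ) := by ring
    rw [e3]
    have e4 : (17 * (c ^ 3 * σ)) * (σ * σ) ≤ 1 * (σ * σ) :=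
      mul_le_mul_of_nonneg_right e1 (by positivity)
    nlinarith
  have hTb : ∀ s : ℝ, |s| ≤ b → ‖T0 s - t0‖ ≤ 5 * b * σ := by
    intro s hs
    refine (norm_sub_le _ _).trans ?_
    have := hT0b s hs
    linarith
  have hTv : ∀ s : ℝ, |s| ≤ b → |‖T0 s - t0‖ ^ 2 - ‖vv σ m s‖ ^ 2| ≤ 63 * c ^ 3 * σ ^ 3 := by
    intro s hs
    have e1 : |‖T0 s - t0‖ - ‖vv σ m s‖| ≤ 9 * c ^ 2 * σ ^ 2 := by
      refine (abs_norm_sub_norm_le _ _).trans ?_
      have e2 : T0 s - t0 - vv σ m s = (T0 s - vv σ m s) - t0 := by ring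
      rw [e2]
      refine (norm_sub_le _ _).trans ?_
      have := hT0v s hs
      linarith
    have e2 : ‖T0 s - t0‖ ^ 2 - ‖vv σ m s‖ ^ 2 =
        (‖T0 s - t0‖ - ‖vv σ m s‖) * (‖T0 s - t0‖ + ‖vv σ m s‖) := by ring
    rw [e2, abs_mul, abs_of_nonneg (by positivity : 0 ≤ ‖T0 s - t0‖ + ‖vv σ m s‖)]
    have e3 : ‖T0 s - t0‖ + ‖vv σ m s‖ ≤ 7 * b * σ := by
      have := hTb s hs
      have := hv s hs
      linarith
    calc |‖T0 s - t0‖ - ‖vv σ m s‖| * (‖T0 s - t0‖ + ‖vv σ m s‖)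
        ≤ (9 * c ^ 2 * σ ^ 2) * (7 * b * σ) :=
          mul_le_mul e1 e3 (by positivity) (by positivity)
      _ = 63 * (c ^ 2 * σ ^ 3) * b := by ring
      _ ≤ 63 * (c ^ 2 * σ ^ 3) * c := mul_le_mul_of_nonneg_left hc (by positivity)
      _ = _ := by ring
  have hintR : ∀ (f : ℝ → ℝ) (C : ℝ), Measurable f → (∀ s : ℝ, |s| ≤ b → |f s| ≤ C) →
      Integrable f μ := by
    intro f C hf hfb
    exact Integrable.of_bound hf.aestronglyMeasurable C (hμb.mono fun s hs => by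
      rw [Real.norm_eq_abs]; exact hfb s hs)
  have hI1 : Integrable (fun s => ‖T0 s - t0‖ ^ 2) μ := hintR _ ((5 * b * σ) ^ 2)
    ((hT0m.sub_const t0).norm.pow_const 2) (fun s hs => by
      rw [abs_of_nonneg (by positivity)]
      exact pow_le_pow_left₀ (norm_nonneg _) (hTb s hs) 2)
  have hI2 : Integrable (fun s => ‖vv σ m s‖ ^ 2) μ := hintR _ ((2 * b * σ) ^ 2)
    ((vv_meas σ m).norm.pow_const 2) (fun s hs => by
      rw [abs_of_nonneg (by positivity)]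
      exact pow_le_pow_left₀ (norm_nonneg _) (hv s hs) 2)
  have hvv : ∫ s, ‖vv σ m s‖ ^ 2 ∂μ = σ ^ 2 + σ ^ 4 * ‖m‖ ^ 2 := by
    have e1 : ∀ s : ℝ, ‖vv σ m s‖ ^ 2 = σ ^ 2 * s ^ 2 + (2 * σ ^ 3 * m.re) * s +
        σ ^ 4 * ‖m‖ ^ 2 := by
      intro s
      rw [← Complex.normSq_eq_norm_sq, ← Complex.normSq_eq_norm_sq, Complex.normSq_apply,
        Complex.normSq_apply]
      have e2 : (vv σ m s).re = σ * s + σ ^ 2 * m.re := by
        unfold vv
        rw [← Complex.ofReal_pow, Complex.add_re, Complex.re_ofReal_mul, Complex.re_ofReal_mul,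
          Complex.ofReal_re]
      have e3 : (vv σ m s).im = σ ^ 2 * m.im := by
        unfold vv
        rw [← Complex.ofReal_pow, Complex.add_im, Complex.im_ofReal_mul, Complex.im_ofReal_mul,
          Complex.ofReal_im, mul_zero, zero_add]
      rw [e2, e3]
      ring
    simp only [e1]
    have i1 : Integrable (fun s : ℝ => s ^ 2) μ := hintR _ (b ^ 2) (by fun_prop) (fun s hs => by
      rw [abs_pow]
      exact pow_le_pow_left₀ (abs_nonneg _) hs 2)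
    have i2 : Integrable (fun s : ℝ => s) μ := hintR _ b measurable_id (fun s hs => hs)
    rw [int3R μ _ _ i1 i2, h1, h2]
    ring
  have hτ2 : |∫ s, ‖T0 s - t0‖ ^ 2 ∂μ - σ ^ 2| ≤ 64 * c ^ 3 * σ ^ 3 := by
    have e1 : |∫ s, ‖T0 s - t0‖ ^ 2 ∂μ - ∫ s, ‖vv σ m s‖ ^ 2 ∂μ| ≤ 63 * c ^ 3 * σ ^ 3 := by
      rw [← integral_sub hI1 hI2, ← Real.norm_eq_abs]
      have := norm_integral_le_of_norm_le_const (μ := μ)
        (f := fun s => ‖T0 s - t0‖ ^ 2 - ‖vv σ m s‖ ^ 2)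
        (hμb.mono fun s hs => by rw [Real.norm_eq_abs]; exact hTv s hs)
      simpa using this
    rw [hvv] at e1
    have e2 : σ ^ 4 * ‖m‖ ^ 2 ≤ c ^ 3 * σ ^ 3 := by
      have e3 : ‖m‖ ^ 2 ≤ c ^ 2 := pow_le_pow_left₀ hm0 hm1 2
      have e4 : σ ^ 4 * ‖m‖ ^ 2 ≤ σ ^ 4 * c ^ 2 := mul_le_mul_of_nonneg_left e3 (by positivity)
      have e5 : σ ^ 4 * c ^ 2 = (c ^ 2 * σ ^ 3) * σ := by ring
      have e6 : (c ^ 2 * σ ^ 3) * σ ≤ (c ^ 2 * σ ^ 3) * c :=
        mul_le_mul_of_nonneg_left (by linarith) (by positivity)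
      nlinarith
    have e3 : 0 ≤ σ ^ 4 * ‖m‖ ^ 2 := by positivity
    rw [abs_le] at e1 ⊢
    constructor <;> linarith [e1.1, e1.2]
  set I : ℝ := ∫ s, ‖T0 s - t0‖ ^ 2 ∂μ with hI
  have hIpos : σ ^ 2 / 4 ≤ I := by
    have e1 := (abs_le.1 hτ2).1
    have e2 : 64 * c ^ 3 * σ ^ 3 ≤ σ ^ 2 / 2 := by
      have : 64 * c ^ 3 * σ ^ 3 = (64 * c ^ 3 * σ) * σ ^ 2 := by ring
      rw [this]
      have h3 : 64 * c ^ 3 * σ ≤ 1 / 2 := by linarith
      nlinarith [sq_nonneg σ]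
    nlinarith [sq_nonneg σ]
  have hIp : 0 < I := lt_of_lt_of_le (by positivity) hIpos
  set τ : ℝ := Real.sqrt I with hτ
  have hτ0 : 0 < τ := Real.sqrt_pos.2 hIp
  have hτsq : τ ^ 2 = I := Real.sq_sqrt hIp.le
  have hτσ : σ / 2 ≤ τ := by
    rw [hτ]
    apply Real.le_sqrt_of_sq_le
    rw [div_pow]
    linarith
  have hτc : (τ : ℂ) ≠ 0 := by exact_mod_cast hτ0.ne'
  refine ⟨τ, fun s => (T0 s - t0) / τ, ?_⟩
  refine ⟨hτ0, ?_, ?_, ?_, ?_⟩
  · rw [hτsq]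
    refine hτ2.trans ?_
    have : 0 < c ^ 3 * σ ^ 3 := by positivity
    nlinarith
  · refine ⟨(hT0m.sub_const t0).div_const _, by nlinarith, ?_, ?_, ?_⟩
    · filter_upwards [hμb] with s hs
      rw [norm_div, Complex.norm_real, Real.norm_eq_abs, abs_of_pos hτ0, div_le_iff₀ hτ0]
      have e1 := hTb s hs
      have e2 : 5 * b * σ ≤ 10 * b * τ := by nlinarith
      have e3 : 10 * b * τ ≤ 100 * c ^ 3 * τ := by
        refine mul_le_mul_of_nonneg_right ?_ hτ0.le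
        nlinarith
      linarith
    · rw [integral_div, integral_sub (hint _ _ hT0m hT0b) (integrable_const _)]
      simp [ht0]
    · have e1 : ∀ s, (T0 s - t0) / (τ : ℂ) * (starRingEnd ℂ) ((T0 s - t0) / τ) =
          (((I)⁻¹ * ‖T0 s - t0‖ ^ 2 : ℝ) : ℂ) := by
        intro s
        rw [Complex.mul_conj, Complex.normSq_eq_norm_sq, norm_div, Complex.norm_real,
          Real.norm_eq_abs, abs_of_pos hτ0, div_pow, hτsq]
        congr 1
        field_simp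
      simp only [e1]
      rw [integral_complex_ofReal, integral_const_mul, inv_mul_cancel₀ hIp.ne']
      simp
  · filter_upwards [hμb] with s hs
    have e1 : vv σ m s - τ * ((T0 s - t0) / τ) * (1 + m * vv σ m s) =
        t0 * (1 + m * vv σ m s) := by
      rw [mul_div_cancel₀ _ hτc]
      simp only [hT0]
      rw [sub_mul, div_mul_cancel₀ _ (hden0 s hs)]
      ring
    rw [e1, norm_mul]
    have e2 : ‖1 + m * vv σ m s‖ ≤ 2 := by
      refine (norm_add_le _ _).trans ?_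
      rw [norm_one]
      have := hmv s hs
      linarith
    calc ‖t0‖ * ‖1 + m * vv σ m s‖ ≤ (17 * c ^ 3 * σ ^ 3) * 2 :=
          mul_le_mul ht0b e2 (norm_nonneg _) (by positivity)
      _ ≤ _ := by
        have : 0 < c ^ 3 * σ ^ 3 := by positivity
        nlinarith
  · filter_upwards [hμb] with s hs
    refine (hv s hs).trans (mul_le_mul_of_nonneg_right ?_ hσ0.le)
    nlinarith

end Pool.Agent.Zk11.QD
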