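import Pool.Agent.Zk11.QD.Ker
import Pool.Agent.Zk11.QD.Mde
import Pool.Agent.Zk11.QD.Site

/-! The torus model. -/

set_option autoImplicit false
set_option linter.unusedSectionVars false

open scoped BigOperators
open MeasureTheory

namespace Pool.Agent.Zk11.QD

open Pool.Agent.W788.MFP.Four (T e NN adj adj_neg e_comm e_add_left e_add e_zero e_neg e_neg_left
  e_normSq sum_e NN_pos card_T e_single)
open Pool.Agent.W788.BK (JJ)

variable {d L : ℕ} [NeZero L]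

/-- the symbol of the negative Laplacian -/
noncomputable def aa (k : T d L) : ℝ := 2 * d - adj k

/-- the symbol of the averaged resolvent -/
noncomputable def Mh (z : ℂ) (σ : ℝ) (m : ℂ) (k : T d L) : ℂ := (Dn aa z σ m k)⁻¹

/-- the kernel of the averaged resolvent -/
noncomputable def Mk (z : ℂ) (σ : ℝ) (m : ℂ) (x y : T d L) : ℂ := kc (Mh z σ m) (x - y)

/-- the kernel of its inverse -/
noncomputable def Ak (z : ℂ) (σ : ℝ) (m : ℂ) (x y : T d L) : ℂ := kc (Dn aa z σ m) (x - y)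

/-- the fourth moment of the averaged resolvent -/
noncomputable def N4 (d L : ℕ) [NeZero L] (z : ℂ) (σ : ℝ) (m : ℂ) : ℝ :=
  ∑ x : T d L, ‖kc (Mh z σ m) x‖ ^ 4

/-- the imaginary part of the effective energy -/
noncomputable def ss (z : ℂ) (σ : ℝ) (m : ℂ) : ℝ := z.im + σ ^ 2 * m.im

/-- the self-consistent equation -/
structure MD (d L : ℕ) [NeZero L] (z : ℂ) (σ : ℝ) (m : ℂ) : Prop where
  zim : 0 < z.im
  mim : 0 < m.im
  eq : ph (aa (d := d) (L := L)) z σ m = m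

variable {z : ℂ} {σ : ℝ} {m : ℂ}

theorem ss_pos (h : MD d L z σ m) : 0 < ss z σ m := by
  have h1 := h.zim
  have h2 := h.mim
  unfold ss
  positivity

theorem cardT : (Fintype.card (T d L) : ℝ) = NN d L := card_T

theorem AMk (h : MD d L z σ m) (x w : T d L) :
    ∑ y, Ak z σ m x y * Mk z σ m y w = if x = w then 1 else 0 := by
  unfold Ak Mk
  rw [kc_conv]
  have h1 : (fun k : T d L => Dn aa z σ m k * Mh z σ m k) = fun _ => 1 := by
    funext k
    unfold Mh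
    exact mul_inv_cancel₀ (Dn_ne aa z σ m k (ss_pos h))
  rw [h1, kc_one]
  congr 1
  rw [sub_eq_zero]

theorem Mk_diag (h : MD d L z σ m) (x : T d L) : Mk z σ m x x = m := by
  have h1 := h.eq
  unfold ph at h1
  unfold Mk kc
  rw [sub_self]
  simp only [e_zero, mul_one]
  rw [cardT] at h1
  exact h1

theorem sq_sum (h : MD d L z σ m) :
    (NN d L)⁻¹ * ∑ k : T d L, ‖Mh z σ m k‖ ^ 2 = m.im / ss z σ m := by
  have h1 := ward (aa (d := d) (L := L)) z σ m
  rw [h.eq, cardT] at h1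
  rw [eq_div_iff (ss_pos h).ne', mul_comm]
  exact h1.symm

theorem Mh_le (h : MD d L z σ m) (k : T d L) : ‖Mh z σ m k‖ ≤ 1 / ss z σ m := by
  unfold Mh
  rw [norm_inv, ← one_div]
  exact one_div_le_one_div_of_le (ss_pos h) (Dn_norm_ge aa z σ m k (ss_pos h).le)

/-- the ladder multiplier -/
noncomputable def tt (z : ℂ) (σ : ℝ) (m : ℂ) (p : T d L) : ℂ :=
  ((NN d L : ℝ) : ℂ)⁻¹ * ∑ k : T d L, Mh z σ m (k - p) * (starRingEnd ℂ) (Mh z σ m k)

theorem ht_torus (p : T d L) (τ : ℝ) (y : T d L) :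
    ∑ x, e p x * ((τ ^ 2 * ‖Mk z σ m x y‖ ^ 2 : ℝ) : ℂ) = (τ ^ 2 * tt z σ m p) * e p y := by
  unfold Mk tt
  rw [← Equiv.sum_comp (Equiv.addRight y)]
  have h1 : ∀ x : T d L, e p ((Equiv.addRight y) x) *
      ((τ ^ 2 * ‖kc (Mh z σ m) ((Equiv.addRight y) x - y)‖ ^ 2 : ℝ) : ℂ) =
      (τ : ℂ) ^ 2 * e p y * (kc (fun k => Mh z σ m (k - p)) x *
        (starRingEnd ℂ) (kc (Mh z σ m) x)) := by
    intro x
    rw [Equiv.coe_addRight, add_sub_cancel_right, e_add, ← kc_mod]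
    have h2 : ((‖kc (Mh z σ m) x‖ ^ 2 : ℝ) : ℂ) =
        kc (Mh z σ m) x * (starRingEnd ℂ) (kc (Mh z σ m) x) := by
      rw [Complex.mul_conj, Complex.normSq_eq_norm_sq]
    rw [Complex.ofReal_mul, h2]
    push_cast
    ring
  rw [Finset.sum_congr rfl fun x _ => h1 x, ← Finset.mul_sum, parseval]
  ring

theorem kk_torus (p y y' : T d L) :
    ‖∑ x, e p x * (Mk z σ m x y * (starRingEnd ℂ) (Mk z σ m x y'))‖ =
      ‖kc (fun k => Mh z σ m (k - p) * (starRingEnd ℂ) (Mh z σ m k)) (y' - y)‖ := by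
  unfold Mk
  rw [← Equiv.sum_comp (Equiv.addRight y)]
  have h1 : ∀ x : T d L, e p ((Equiv.addRight y) x) *
      (kc (Mh z σ m) ((Equiv.addRight y) x - y) *
        (starRingEnd ℂ) (kc (Mh z σ m) ((Equiv.addRight y) x - y'))) =
      e p y * (kc (fun k => Mh z σ m (k - p)) x *
        (starRingEnd ℂ) (kc (fun k => Mh z σ m k * e k (y - y')) x)) := by
    intro x
    rw [Equiv.coe_addRight, add_sub_cancel_right, e_add, ← kc_mod, ← kc_translate]
    have h2 : x + y - y' = x + (y - y') := by abel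
    rw [h2]
    ring
  rw [Finset.sum_congr rfl fun x _ => h1 x, ← Finset.mul_sum, parseval]
  have h3 : ‖e p y‖ = 1 := by
    have := e_normSq p y
    rw [Complex.mul_conj, Complex.normSq_eq_norm_sq] at this
    have h4 : ‖e p y‖ ^ 2 = 1 := by exact_mod_cast this
    nlinarith [norm_nonneg (e p y)]
  rw [norm_mul, h3, one_mul]
  unfold kc
  congr 1
  congr 1
  refine Finset.sum_congr rfl fun k _ => ?_
  rw [map_mul, ← e_neg, neg_sub]
  ring

theorem e_norm (p x : T d L) : ‖e p x‖ = 1 := by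
  have := e_normSq p x
  rw [Complex.mul_conj, Complex.normSq_eq_norm_sq] at this
  have h4 : ‖e p x‖ ^ 2 = 1 := by exact_mod_cast this
  nlinarith [norm_nonneg (e p x)]

/-- the symbol of the pair kernel -/
noncomputable def gp (z : ℂ) (σ : ℝ) (m : ℂ) (p k : T d L) : ℂ :=
  Mh z σ m (k - p) * (starRingEnd ℂ) (Mh z σ m k)

theorem gp_sq (h : MD d L z σ m) (p : T d L) :
    ∑ x, ‖kc (gp z σ m p) x‖ ^ 2 ≤ m.im / ss z σ m ^ 3 := by
  rw [parseval_sq]
  have hs := ss_pos h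
  have h1 : ∀ k : T d L, ‖gp z σ m p k‖ ^ 2 ≤ (1 / ss z σ m) ^ 2 * ‖Mh z σ m k‖ ^ 2 := by
    intro k
    unfold gp
    rw [norm_mul, RCLike.norm_conj, mul_pow]
    exact mul_le_mul_of_nonneg_right (pow_le_pow_left₀ (norm_nonneg _) (Mh_le h _) 2)
      (by positivity)
  have h2 : (NN d L)⁻¹ * ∑ k : T d L, ‖gp z σ m p k‖ ^ 2 ≤
      (NN d L)⁻¹ * ∑ k : T d L, (1 / ss z σ m) ^ 2 * ‖Mh z σ m k‖ ^ 2 :=
    mul_le_mul_of_nonneg_left (Finset.sum_le_sum fun k _ => h1 k) (inv_nonneg.2 NN_pos.le)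
  refine h2.trans (le_of_eq ?_)
  rw [← Finset.mul_sum, mul_left_comm, sq_sum h]
  field_simp

theorem tt_norm (h : MD d L z σ m) (p : T d L) : ‖tt z σ m p‖ ≤ m.im / ss z σ m := by
  unfold tt
  have hN := NN_pos (d := d) (L := L)
  rw [norm_mul, norm_inv, Complex.norm_real, Real.norm_eq_abs, abs_of_pos hN, ← sq_sum h]
  refine mul_le_mul_of_nonneg_left ?_ (inv_nonneg.2 hN.le)
  have h1 : ∀ k : T d L, ‖Mh z σ m (k - p) * (starRingEnd ℂ) (Mh z σ m k)‖ ≤
      (1 / 2) * ‖Mh z σ m (k - p)‖ ^ 2 + (1 / 2) * ‖Mh z σ m k‖ ^ 2 := by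
    intro k
    rw [norm_mul, RCLike.norm_conj]
    nlinarith [sq_nonneg (‖Mh z σ m (k - p)‖ - ‖Mh z σ m k‖)]
  refine (norm_sum_le _ _).trans ((Finset.sum_le_sum fun k _ => h1 k).trans (le_of_eq ?_))
  rw [Finset.sum_add_distrib, ← Finset.mul_sum, ← Finset.mul_sum]
  have h2 : ∑ k : T d L, ‖Mh z σ m (k - p)‖ ^ 2 = ∑ k : T d L, ‖Mh z σ m k‖ ^ 2 :=
    Equiv.sum_comp (Equiv.subRight p) (fun k => ‖Mh z σ m k‖ ^ 2)
  rw [h2]
  ring

theorem tt_zero (h : MD d L z σ m) : tt z σ m (0 : T d L) = ((m.im / ss z σ m : ℝ) : ℂ) := by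
  unfold tt
  rw [← sq_sum h]
  push_cast
  congr 1
  refine Finset.sum_congr rfl fun k _ => ?_
  rw [sub_zero, Complex.mul_conj, Complex.normSq_eq_norm_sq]
  push_cast
  rfl

theorem sq_le_N4 (x : T d L) : ‖kc (Mh z σ m) x‖ ^ 2 ≤ Real.sqrt (N4 d L z σ m) := by
  apply Real.le_sqrt_of_sq_le
  unfold N4
  have h1 : (‖kc (Mh z σ m) x‖ ^ 2) ^ 2 = ‖kc (Mh z σ m) x‖ ^ 4 := by ring
  rw [h1]
  exact Finset.single_le_sum (f := fun x => ‖kc (Mh z σ m) x‖ ^ 4) (fun _ _ => by positivity)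
    (Finset.mem_univ x)

theorem N4_nonneg : 0 ≤ N4 d L z σ m := Finset.sum_nonneg fun _ _ => by positivity

theorem cs_kernel (k : T d L → ℝ) (w : T d L) (A : ℝ) (hA : ∑ y, k y ^ 2 ≤ A) :
    ∑ y, k y * ‖Mk z σ m y w‖ ^ 2 ≤ Real.sqrt A * Real.sqrt (N4 d L z σ m) := by
  have h1 := Finset.sum_mul_sq_le_sq_mul_sq Finset.univ k (fun y => ‖Mk z σ m y w‖ ^ 2)
  have h2 : ∑ y : T d L, (‖Mk z σ m y w‖ ^ 2) ^ 2 = N4 d L z σ m := by
    unfold N4 Mk
    rw [← Equiv.sum_comp (Equiv.subRight w) (fun x => ‖kc (Mh z σ m) x‖ ^ 4)]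
    refine Finset.sum_congr rfl fun y _ => ?_
    rw [Equiv.subRight_apply]
    ring
  rw [h2] at h1
  rw [← Real.sqrt_mul' A N4_nonneg]
  exact Real.le_sqrt_of_sq_le (h1.trans (mul_le_mul_of_nonneg_right hA N4_nonneg))

/-- the constant of the pair kernel -/
noncomputable def kA (d L : ℕ) [NeZero L] (z : ℂ) (σ : ℝ) (m : ℂ) : ℝ :=
  Real.sqrt (4 * (m.im / ss z σ m ^ 3)) * Real.sqrt (N4 d L z σ m)

theorem kA_nonneg : 0 ≤ kA d L z σ m := by unfold kA; positivity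

theorem step_torus (h : MD d L z σ m) (p : T d L) (τ : ℝ) (n : ℕ) :
    ‖AA (Mk z σ m) τ (0 : T d L) (e p) (n + 1) - (τ ^ 2 * tt z σ m p) *
      AA (Mk z σ m) τ (0 : T d L) (e p) n‖ ≤
      (n : ℝ) ^ 2 * (τ ^ 2 * (τ ^ 2 * kA d L z σ m +
        (τ ^ 2 * (m.im / ss z σ m)) * Real.sqrt (N4 d L z σ m))) *
        FF (Mk z σ m) τ (0 : T d L) (n - 1) := by
  have hs := ss_pos h
  have hm := h.mim
  set k : T d L → T d L → ℝ := fun y y' => ‖kc (gp z σ m p) (y' - y)‖ + ‖kc (gp z σ m p) (y - y')‖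
    with hk
  have hk2 : ∀ x : T d L, ∑ y, k y x ^ 2 ≤ 4 * (m.im / ss z σ m ^ 3) := by
    intro x
    have h1 : ∀ y, k y x ^ 2 ≤ 2 * ‖kc (gp z σ m p) (x - y)‖ ^ 2 +
        2 * ‖kc (gp z σ m p) (y - x)‖ ^ 2 := by
      intro y
      simp only [hk]
      nlinarith [sq_nonneg (‖kc (gp z σ m p) (x - y)‖ - ‖kc (gp z σ m p) (y - x)‖)]
    have h2 : ∑ y : T d L, ‖kc (gp z σ m p) (x - y)‖ ^ 2 = ∑ y : T d L, ‖kc (gp z σ m p) y‖ ^ 2 :=
      Equiv.sum_comp (Equiv.subLeft x) (fun y => ‖kc (gp z σ m p) y‖ ^ 2)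
    have h3 : ∑ y : T d L, ‖kc (gp z σ m p) (y - x)‖ ^ 2 = ∑ y : T d L, ‖kc (gp z σ m p) y‖ ^ 2 :=
      Equiv.sum_comp (Equiv.subRight x) (fun y => ‖kc (gp z σ m p) y‖ ^ 2)
    refine (Finset.sum_le_sum fun y _ => h1 y).trans ?_
    rw [Finset.sum_add_distrib, ← Finset.mul_sum, ← Finset.mul_sum, h2, h3]
    have := gp_sq h p
    linarith
  have h0 := step (Mk z σ m) τ (0 : T d L) (e p) (fun x => (e_norm p x).le) (τ ^ 2 * tt z σ m p)
    (ht_torus p τ) k (fun _ _ => by positivity) (fun y x => by simp only [hk]; ring)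
    (fun y y' => by
      rw [kk_torus]
      simp only [hk]
      exact le_add_of_nonneg_right (norm_nonneg _))
    (kA d L z σ m) (Real.sqrt (N4 d L z σ m))
    (fun x w => by
      unfold kA
      exact cs_kernel (fun y => k y x) w _ (hk2 x))
    (fun x w => by
      unfold Mk
      exact sq_le_N4 _) n
  refine h0.trans ?_
  refine mul_le_mul_of_nonneg_right ?_ (FF_nonneg _ _ _ _)
  refine mul_le_mul_of_nonneg_left ?_ (by positivity)
  refine mul_le_mul_of_nonneg_left ?_ (by positivity)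
  refine add_le_add le_rfl ?_
  refine mul_le_mul_of_nonneg_right ?_ (Real.sqrt_nonneg _)
  rw [norm_mul, norm_pow, Complex.norm_real, Real.norm_eq_abs, sq_abs]
  exact mul_le_mul_of_nonneg_left (tt_norm h p) (by positivity)

/-- the constant of the recursion -/
noncomputable def ka (d L : ℕ) [NeZero L] (z : ℂ) (σ : ℝ) (m : ℂ) (τ : ℝ) : ℝ :=
  τ ^ 2 * (τ ^ 2 * kA d L z σ m + (τ ^ 2 * (m.im / ss z σ m)) * Real.sqrt (N4 d L z σ m))

theorem rec_torus (h : MD d L z σ m) (τ : ℝ) (n : ℕ) :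
    FF (Mk z σ m) τ (0 : T d L) (n + 1) ≤
      (τ ^ 2 * (m.im / ss z σ m)) * FF (Mk z σ m) τ (0 : T d L) n +
      (n : ℝ) ^ 2 * ka d L z σ m τ * FF (Mk z σ m) τ (0 : T d L) (n - 1) := by
  have h1 := step_torus h (0 : T d L) τ n
  have h2 : e (0 : T d L) = fun _ => 1 := by
    funext x
    rw [e_comm, e_zero]
  rw [h2, AA_one, AA_one, tt_zero h] at h1
  have h3 : ((FF (Mk z σ m) τ (0 : T d L) (n + 1) : ℝ) : ℂ) -
      ((τ : ℂ) ^ 2 * ((m.im / ss z σ m : ℝ) : ℂ)) * ((FF (Mk z σ m) τ (0 : T d L) n : ℝ) : ℂ) =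
      ((FF (Mk z σ m) τ (0 : T d L) (n + 1) -
        (τ ^ 2 * (m.im / ss z σ m)) * FF (Mk z σ m) τ (0 : T d L) n : ℝ) : ℂ) := by
    push_cast
    ring
  rw [h3, Complex.norm_real, Real.norm_eq_abs] at h1
  have h4 := (abs_le.1 h1).2
  unfold ka
  linarith

/-- the operator minus the spectral parameter -/
noncomputable def Hz (z : ℂ) (σ : ℝ) (V : T d L → ℝ) (w : T d L → ℂ) (x : T d L) : ℂ :=
  (2 * d + (σ : ℂ) * V x - z) * w x - ∑ i : Fin d, (w (x + Pi.single i 1) + w (x - Pi.single i 1))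

theorem Ak_apply (V : T d L → ℝ) (w : T d L → ℂ) (x : T d L) :
    (∑ y, Ak z σ m x y * w y) + vv σ m (V x) * w x = Hz z σ V w x := by
  have h1 : ∀ y : T d L, Ak z σ m x y =
      (2 * (d : ℂ) - z - (σ : ℂ) ^ 2 * m) * (if x = y then 1 else 0) -
        kc (fun k => ((adj k : ℝ) : ℂ)) (x - y) := by
    intro y
    unfold Ak
    have h2 : (Dn aa z σ m : T d L → ℂ) = fun k => (2 * (d : ℂ) - z - (σ : ℂ) ^ 2 * m) * 1 +
        (-1) * ((adj k : ℝ) : ℂ) := by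
      funext k
      unfold Dn aa
      push_cast
      ring
    rw [h2, kc_add (fun k => (2 * (d : ℂ) - z - (σ : ℂ) ^ 2 * m) * 1)
      (fun k => (-1) * ((adj k : ℝ) : ℂ)), kc_const_mul _ (fun _ => 1),
      kc_const_mul _ (fun k => ((adj k : ℝ) : ℂ)), kc_one]
    have h3 : (if x - y = 0 then (1 : ℂ) else 0) = if x = y then 1 else 0 := by
      congr 1
      rw [sub_eq_zero]
    rw [h3]
    ring
  have h2 : ∑ y, Ak z σ m x y * w y = (2 * (d : ℂ) - z - (σ : ℂ) ^ 2 * m) * w x -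
      ∑ i : Fin d, (w (x + Pi.single i 1) + w (x - Pi.single i 1)) := by
    rw [← adj_apply]
    simp only [h1, sub_mul, Finset.sum_sub_distrib]
    congr 1
    simp only [mul_assoc, ite_mul, one_mul, zero_mul, mul_ite, mul_zero]
    rw [Finset.sum_ite_eq]
    simp
  rw [h2]
  unfold Hz vv
  ring

theorem Hz_im (V : T d L → ℝ) (w : T d L → ℂ) :
    (∑ x, (starRingEnd ℂ) (w x) * Hz z σ V w x).im = -(z.im * ∑ x, ‖w x‖ ^ 2) := by
  have h1 : ∀ i : Fin d, (∑ x, (starRingEnd ℂ) (w x) *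
      (w (x + Pi.single i 1) + w (x - Pi.single i 1))).im = 0 := by
    intro i
    rw [← Complex.conj_eq_iff_im, map_sum]
    have h2 : ∀ x : T d L, (starRingEnd ℂ) ((starRingEnd ℂ) (w x) *
        (w (x + Pi.single i 1) + w (x - Pi.single i 1))) =
        w x * (starRingEnd ℂ) (w (x + Pi.single i 1)) +
        w x * (starRingEnd ℂ) (w (x - Pi.single i 1)) := by
      intro x
      rw [map_mul, Complex.conj_conj, map_add]
      ring
    simp only [h2]
    rw [Finset.sum_add_distrib]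
    have h3 : ∑ x : T d L, w x * (starRingEnd ℂ) (w (x + Pi.single i 1)) =
        ∑ x, (starRingEnd ℂ) (w x) * w (x - Pi.single i 1) := by
      refine Eq.trans ?_ (Equiv.sum_comp (Equiv.addRight (Pi.single i 1 : T d L))
        (fun x : T d L => (starRingEnd ℂ) (w x) * w (x - Pi.single i 1)))
      refine Finset.sum_congr rfl fun x _ => ?_
      rw [Equiv.coe_addRight, add_sub_cancel_right, mul_comm]
    have h4 : ∑ x : T d L, w x * (starRingEnd ℂ) (w (x - Pi.single i 1)) =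
        ∑ x, (starRingEnd ℂ) (w x) * w (x + Pi.single i 1) := by
      refine Eq.trans ?_ (Equiv.sum_comp (Equiv.subRight (Pi.single i 1 : T d L))
        (fun x : T d L => (starRingEnd ℂ) (w x) * w (x + Pi.single i 1)))
      refine Finset.sum_congr rfl fun x _ => ?_
      rw [Equiv.subRight_apply, sub_add_cancel, mul_comm]
    rw [h3, h4, ← Finset.sum_add_distrib]
    refine Finset.sum_congr rfl fun x _ => ?_
    ring
  have h2 : ∑ x, (starRingEnd ℂ) (w x) * Hz z σ V w x =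
      ∑ x, ((2 * d + σ * V x : ℝ) : ℂ) * ((‖w x‖ ^ 2 : ℝ) : ℂ) -
      z * ((∑ x, ‖w x‖ ^ 2 : ℝ) : ℂ) -
      ∑ i : Fin d, ∑ x, (starRingEnd ℂ) (w x) *
        (w (x + Pi.single i 1) + w (x - Pi.single i 1)) := by
    rw [Finset.sum_comm, Complex.ofReal_sum, Finset.mul_sum, ← Finset.sum_sub_distrib,
      ← Finset.sum_sub_distrib]
    refine Finset.sum_congr rfl fun x _ => ?_
    unfold Hz
    rw [← Finset.mul_sum]
    have h3 : ((‖w x‖ ^ 2 : ℝ) : ℂ) = w x * (starRingEnd ℂ) (w x) := by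
      rw [Complex.mul_conj, Complex.normSq_eq_norm_sq]
    rw [h3]
    push_cast
    ring
  rw [h2, Complex.sub_im, Complex.sub_im, Complex.im_sum (Finset.univ : Finset (Fin d)),
    Finset.sum_eq_zero fun i _ => h1 i, Complex.im_mul_ofReal, Complex.im_sum]
  have h3 : ∑ x : T d L, (((2 * d + σ * V x : ℝ) : ℂ) * ((‖w x‖ ^ 2 : ℝ) : ℂ)).im = 0 := by
    refine Finset.sum_eq_zero fun x _ => ?_
    rw [← Complex.ofReal_mul, Complex.ofReal_im]
  rw [h3]
  ring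

/-- coercivity -/
theorem Hz_coercive (hz : 0 < z.im) (V : T d L → ℝ) (w : T d L → ℂ) :
    z.im ^ 2 * ∑ x, ‖w x‖ ^ 2 ≤ ∑ x, ‖Hz z σ V w x‖ ^ 2 := by
  have h1 := Hz_im (z := z) (σ := σ) V w
  have h2 : z.im * ∑ x, ‖w x‖ ^ 2 ≤ ∑ x, ‖w x‖ * ‖Hz z σ V w x‖ := by
    have h3 : z.im * ∑ x, ‖w x‖ ^ 2 ≤ ‖∑ x, (starRingEnd ℂ) (w x) * Hz z σ V w x‖ := by
      refine le_trans ?_ (Complex.abs_im_le_norm _)
      rw [h1, abs_neg]
      exact le_abs_self _
    refine h3.trans ((norm_sum_le _ _).trans (le_of_eq ?_))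
    refine Finset.sum_congr rfl fun x _ => ?_
    rw [norm_mul, RCLike.norm_conj]
  have h4 := Finset.sum_mul_sq_le_sq_mul_sq Finset.univ (fun x => ‖w x‖) (fun x => ‖Hz z σ V w x‖)
  set W := ∑ x, ‖w x‖ ^ 2 with hW
  have hW0 : 0 ≤ W := Finset.sum_nonneg fun _ _ => by positivity
  rcases hW0.eq_or_lt with h5 | h5
  · rw [← h5, mul_zero]
    exact Finset.sum_nonneg fun _ _ => by positivity
  · have h6 : (z.im * W) ^ 2 ≤ W * ∑ x, ‖Hz z σ V w x‖ ^ 2 :=
      (pow_le_pow_left₀ (by positivity) h2 2).trans h4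
    have h7 : W * (z.im ^ 2 * W) ≤ W * ∑ x, ‖Hz z σ V w x‖ ^ 2 := by
      calc W * (z.im ^ 2 * W) = (z.im * W) ^ 2 := by ring
        _ ≤ _ := h6
    exact le_of_mul_le_mul_left h7 h5

/-- the data of the abstract estimate on the torus -/
theorem dat_torus (h : MD d L z σ m) (μ : Measure ℝ) (C τ : ℝ) (hh : ℝ → ℂ)
    (hs : Sit μ σ m C τ hh) :
    Dat μ hh (vv σ m) (Ak z σ m) (Mk z σ m) m τ (0 : T d L) C (C * σ ^ 3) (C * σ) z.im
      (τ ^ 2 * (m.im / ss z σ m)) (ka d L z σ m τ) (N4 d L z σ m) where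
  good := hs.good
  vmeas := vv_meas σ m
  τpos := hs.τpos
  ηpos := h.zim
  AM := AMk h
  Md := Mk_diag h
  hZ := hs.hZ
  hW := hs.hW
  hR := by
    intro x w
    have h1 : ∑ y : T d L, (‖Mk z σ m x y‖ ^ 2) ^ 2 = N4 d L z σ m := by
      unfold N4 Mk
      rw [← Equiv.sum_comp (Equiv.subLeft x) (fun x => ‖kc (Mh z σ m) x‖ ^ 4)]
      refine Finset.sum_congr rfl fun y _ => ?_
      rw [Equiv.subLeft_apply]
      ring
    have h2 := cs_kernel (z := z) (σ := σ) (m := m) (fun y => ‖Mk z σ m x y‖ ^ 2) w _ h1.le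
    rw [Real.mul_self_sqrt N4_nonneg] at h2
    exact h2
  κR0 := N4_nonneg
  q0 := by
    have h1 := ss_pos h
    have h2 := h.mim
    positivity
  a0 := by
    have h1 := ss_pos h
    have h2 := h.mim
    have h3 := kA_nonneg (d := d) (L := L) (z := z) (σ := σ) (m := m)
    unfold ka
    positivity
  recF := rec_torus h τ
  co := by
    intro V w
    simp only [Ak_apply]
    exact Hz_coercive h.zim V w

end Pool.Agent.Zk11.QD
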