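import Pool.Agent.Zk11.QD.Wt
import Pool.Agent.Zk11.QD.Tor

/-! Weighted masses on the torus. -/

set_option autoImplicit false
set_option linter.unusedSectionVars false

open scoped BigOperators
open MeasureTheory

namespace Pool.Agent.Zk11.QD

open Pool.Agent.W788.MFP.Four (T e NN adj adj_neg e_comm e_add_left e_add e_zero e_neg e_neg_left
  e_normSq sum_e NN_pos card_T e_single)

variable {d L : ℕ} [NeZero L] {z : ℂ} {σ : ℝ} {m : ℂ} {τ : ℝ}

/-- the step distribution of the ladder -/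
noncomputable def Tn (z : ℂ) (σ : ℝ) (m : ℂ) (τ : ℝ) (v : T d L) : ℝ := τ ^ 2 * ‖kc (Mh z σ m) v‖ ^ 2

theorem Tn_nonneg (v : T d L) : 0 ≤ Tn z σ m τ v := by unfold Tn; positivity

/-- its action -/
noncomputable def cv (z : ℂ) (σ : ℝ) (m : ℂ) (τ : ℝ) (f : T d L → ℝ) (u : T d L) : ℝ :=
  ∑ v, f (u + v) * Tn z σ m τ v

theorem cv_nonneg (f : T d L → ℝ) (hf : ∀ u, 0 ≤ f u) (u : T d L) : 0 ≤ cv z σ m τ f u :=
  Finset.sum_nonneg fun v _ => mul_nonneg (hf _) (Tn_nonneg v)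

theorem TG_cv (f : T d L → ℝ) : TG (Mk z σ m) τ (fun y x => f (y - x)) =
    fun w x => cv z σ m τ f (w - x) := by
  funext w x
  unfold TG cv Tn Mk
  rw [← Equiv.sum_comp (Equiv.addRight w)]
  refine Finset.sum_congr rfl fun v _ => ?_
  rw [Equiv.coe_addRight, add_sub_cancel_right]
  have : v + w - x = w - x + v := by abel
  change f (v + w - x) * _ = _
  rw [this]

/-- the transform -/
noncomputable def ft (f : T d L → ℝ) (p : T d L) : ℂ := ∑ u, (f u : ℂ) * e p (-u)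

theorem ft_inv (f : T d L → ℝ) (u : T d L) : (f u : ℂ) = kc (ft f) u := by
  unfold kc ft
  have h1 : ∀ p : T d L, (∑ v, (f v : ℂ) * e p (-v)) * e p u = ∑ v, (f v : ℂ) * e p (u - v) := by
    intro p
    rw [Finset.sum_mul]
    refine Finset.sum_congr rfl fun v _ => ?_
    rw [sub_eq_add_neg, e_add]
    ring
  rw [Finset.sum_congr rfl fun p _ => h1 p, Finset.sum_comm]
  have h2 : ∀ v : T d L, ∑ p : T d L, (f v : ℂ) * e p (u - v) =
      if v = u then (f v : ℂ) * ((NN d L : ℝ) : ℂ) else 0 := by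
    intro v
    rw [← Finset.mul_sum, sum_e]
    by_cases h : v = u
    · rw [if_pos h, if_pos (by rw [h, sub_self])]
    · rw [if_neg h, if_neg (sub_ne_zero.2 (Ne.symm h)), mul_zero]
  rw [Finset.sum_congr rfl fun v _ => h2 v, Finset.sum_ite_eq', if_pos (Finset.mem_univ _)]
  have := NNc_ne (d := d) (L := L)
  field_simp

theorem Tn_tt (p : T d L) : ∑ v, e p v * ((Tn z σ m τ v : ℝ) : ℂ) = (τ : ℂ) ^ 2 * tt z σ m p := by
  have h1 := ht_torus (z := z) (σ := σ) (m := m) p τ 0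
  rw [e_zero, mul_one] at h1
  rw [← h1]
  refine Finset.sum_congr rfl fun v _ => ?_
  unfold Tn Mk
  rw [sub_zero]

theorem ft_cv (f : T d L → ℝ) (p : T d L) :
    ft (cv z σ m τ f) p = ((τ : ℂ) ^ 2 * tt z σ m p) * ft f p := by
  rw [← Tn_tt]
  unfold ft cv
  push_cast
  simp only [Finset.sum_mul]
  rw [Finset.sum_comm]
  refine Finset.sum_congr rfl fun v _ => ?_
  rw [Finset.mul_sum, ← Equiv.sum_comp (Equiv.subRight v)]
  refine Finset.sum_congr rfl fun u _ => ?_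
  rw [Equiv.subRight_apply, sub_add_cancel, neg_sub, sub_eq_add_neg v u, e_add]
  ring

theorem ft_iter (f : T d L → ℝ) (p : T d L) (i : ℕ) :
    ft ((cv z σ m τ)^[i] f) p = ((τ : ℂ) ^ 2 * tt z σ m p) ^ i * ft f p := by
  induction i with
  | zero => simp
  | succ i ih =>
    rw [Function.iterate_succ_apply', ft_cv, ih]
    ring

theorem iter_nonneg (f : T d L → ℝ) (hf : ∀ u, 0 ≤ f u) (i : ℕ) (u : T d L) :
    0 ≤ (cv z σ m τ)^[i] f u := by
  induction i generalizing u with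
  | zero => simpa using hf u
  | succ i ih =>
    rw [Function.iterate_succ_apply']
    exact cv_nonneg _ ih u

/-- the norm -/
noncomputable def L1 (f : T d L → ℝ) : ℝ := (NN d L)⁻¹ * ∑ p, ‖ft f p‖

theorem L1_nonneg (f : T d L → ℝ) : 0 ≤ L1 f :=
  mul_nonneg (inv_nonneg.2 NN_pos.le) (Finset.sum_nonneg fun _ _ => norm_nonneg _)

theorem le_L1 (f : T d L → ℝ) (u : T d L) : f u ≤ L1 f := by
  have h1 : ‖(f u : ℂ)‖ ≤ L1 f := by
    rw [ft_inv f u]
    unfold kc L1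
    have hN := NN_pos (d := d) (L := L)
    rw [norm_mul, norm_inv, Complex.norm_real, Real.norm_eq_abs, abs_of_pos hN]
    refine mul_le_mul_of_nonneg_left ?_ (by positivity)
    refine (norm_sum_le _ _).trans (le_of_eq (Finset.sum_congr rfl fun p _ => ?_))
    rw [norm_mul, e_norm, mul_one]
  rw [Complex.norm_real, Real.norm_eq_abs] at h1
  exact (le_abs_self _).trans h1

theorem ft_parseval (f : T d L → ℝ) : (NN d L)⁻¹ * ∑ p, ‖ft f p‖ ^ 2 = ∑ u, f u ^ 2 := by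
  rw [← parseval_sq]
  refine Finset.sum_congr rfl fun u _ => ?_
  rw [← ft_inv, Complex.norm_real, Real.norm_eq_abs, sq_abs]

theorem tt_parseval : (NN d L)⁻¹ * ∑ p : T d L, ‖(τ : ℂ) ^ 2 * tt z σ m p‖ ^ 2 =
    τ ^ 4 * N4 d L z σ m := by
  have h1 : ∀ p : T d L, ‖(τ : ℂ) ^ 2 * tt z σ m p‖ = ‖ft (Tn z σ m τ) p‖ := by
    intro p
    rw [← Tn_tt, ← RCLike.norm_conj]
    congr 1
    unfold ft
    rw [map_sum]
    refine Finset.sum_congr rfl fun v _ => ?_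
    rw [map_mul, Complex.conj_ofReal, e_neg]
    ring
  simp only [h1]
  rw [ft_parseval]
  unfold N4 Tn
  rw [Finset.mul_sum]
  exact Finset.sum_congr rfl fun v _ => by ring

theorem avg_cs (a b : T d L → ℝ) (A B : ℝ) (hA : (NN d L)⁻¹ * ∑ p, a p ^ 2 ≤ A ^ 2)
    (hB : (NN d L)⁻¹ * ∑ p, b p ^ 2 ≤ B ^ 2) (hA0 : 0 ≤ A) (hB0 : 0 ≤ B) :
    (NN d L)⁻¹ * ∑ p, a p * b p ≤ A * B := by
  have hN := NN_pos (d := d) (L := L)
  have h1 := Finset.sum_mul_sq_le_sq_mul_sq Finset.univ a b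
  apply le_of_sq_le_sq _ (by positivity)
  calc ((NN d L)⁻¹ * ∑ p, a p * b p) ^ 2 = ((NN d L)⁻¹) ^ 2 * (∑ p, a p * b p) ^ 2 := by ring
    _ ≤ ((NN d L)⁻¹) ^ 2 * ((∑ p, a p ^ 2) * ∑ p, b p ^ 2) :=
        mul_le_mul_of_nonneg_left h1 (by positivity)
    _ = ((NN d L)⁻¹ * ∑ p, a p ^ 2) * ((NN d L)⁻¹ * ∑ p, b p ^ 2) := by ring
    _ ≤ A ^ 2 * B ^ 2 := mul_le_mul hA hB (mul_nonneg (by positivity)
        (Finset.sum_nonneg fun _ _ => by positivity)) (by positivity)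
    _ = _ := by ring

/-- the data of the chain -/
structure Ch (d L : ℕ) [NeZero L] (z : ℂ) (σ : ℝ) (m : ℂ) (τ t2 θ v0 : ℝ) : Prop where
  md : MD d L z σ m
  q1 : τ ^ 2 * (m.im / ss z σ m) ≤ 1
  t20 : 0 ≤ t2
  t2 : τ ^ 4 * N4 d L z σ m ≤ t2 ^ 2
  θ0 : 0 ≤ θ
  v00 : 0 ≤ v0
  v0 : (NN d L)⁻¹ * (((Finset.univ.filter fun p : T d L => θ < ‖(τ : ℂ) ^ 2 * tt z σ m p‖).card : ℕ) : ℝ)
    ≤ v0 ^ 2

variable {t2 θ v0 : ℝ}

theorem tt_le_one (h : Ch d L z σ m τ t2 θ v0) (p : T d L) : ‖(τ : ℂ) ^ 2 * tt z σ m p‖ ≤ 1 := by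
  rw [norm_mul, norm_pow, Complex.norm_real, Real.norm_eq_abs, sq_abs]
  exact (mul_le_mul_of_nonneg_left (tt_norm h.md p) (by positivity)).trans h.q1

theorem L1_iter (h : Ch d L z σ m τ t2 θ v0) (f : T d L → ℝ) (a0 : ℝ) (ha0 : 0 ≤ a0)
    (ha : ∑ u, f u ^ 2 ≤ a0 ^ 2) (i : ℕ) (hi : 1 ≤ i) : L1 ((cv z σ m τ)^[i] f) ≤ t2 * a0 := by
  refine le_trans ?_ (avg_cs (fun p => ‖(τ : ℂ) ^ 2 * tt z σ m p‖) (fun p => ‖ft f p‖) t2 a0
    (tt_parseval.le.trans h.t2) ((ft_parseval f).le.trans ha) h.t20 ha0)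
  unfold L1
  refine mul_le_mul_of_nonneg_left (Finset.sum_le_sum fun p _ => ?_) (inv_nonneg.2 NN_pos.le)
  rw [ft_iter, norm_mul, norm_pow]
  refine mul_le_mul_of_nonneg_right ?_ (norm_nonneg _)
  exact pow_le_of_le_one (norm_nonneg _) (tt_le_one h p) (by omega)

theorem L1_four (h : Ch d L z σ m τ t2 θ v0) (f : T d L → ℝ) (a0 : ℝ) (ha0 : 0 ≤ a0)
    (ha : ∑ u, f u ^ 2 ≤ a0 ^ 2) : L1 ((cv z σ m τ)^[4] f) ≤ (v0 + θ ^ 3 * t2) * a0 := by
  classical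
  have hb : (NN d L)⁻¹ * ∑ p : T d L, ‖ft f p‖ ^ 2 ≤ a0 ^ 2 := (ft_parseval f).le.trans ha
  have h1 := avg_cs (fun p => ‖(τ : ℂ) ^ 2 * tt z σ m p‖) (fun p => ‖ft f p‖) t2 a0
    (tt_parseval.le.trans h.t2) hb h.t20 ha0
  have h2 := avg_cs (fun p => if θ < ‖(τ : ℂ) ^ 2 * tt z σ m p‖ then (1 : ℝ) else 0)
    (fun p => ‖ft f p‖) v0 a0 (by
      refine le_trans (le_of_eq ?_) h.v0
      congr 1
      rw [Finset.card_filter]
      push_cast
      refine Finset.sum_congr rfl fun p _ => ?_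
      split_ifs <;> norm_num) hb h.v00 ha0
  have h3 : L1 ((cv z σ m τ)^[4] f) ≤ (NN d L)⁻¹ * ∑ p : T d L,
      (if θ < ‖(τ : ℂ) ^ 2 * tt z σ m p‖ then (1 : ℝ) else 0) * ‖ft f p‖ +
      θ ^ 3 * ((NN d L)⁻¹ * ∑ p : T d L, ‖(τ : ℂ) ^ 2 * tt z σ m p‖ * ‖ft f p‖) := by
    unfold L1
    have e0 : (NN d L)⁻¹ * ∑ p : T d L,
      (if θ < ‖(τ : ℂ) ^ 2 * tt z σ m p‖ then (1 : ℝ) else 0) * ‖ft f p‖ +
      θ ^ 3 * ((NN d L)⁻¹ * ∑ p : T d L, ‖(τ : ℂ) ^ 2 * tt z σ m p‖ * ‖ft f p‖) =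
      (NN d L)⁻¹ * ∑ p : T d L, ((if θ < ‖(τ : ℂ) ^ 2 * tt z σ m p‖ then (1 : ℝ) else 0) *
        ‖ft f p‖ + θ ^ 3 * (‖(τ : ℂ) ^ 2 * tt z σ m p‖ * ‖ft f p‖)) := by
      rw [Finset.sum_add_distrib, ← Finset.mul_sum]
      ring
    rw [e0]
    refine mul_le_mul_of_nonneg_left (Finset.sum_le_sum fun p _ => ?_) (inv_nonneg.2 NN_pos.le)
    rw [ft_iter, norm_mul, norm_pow]
    set r := ‖(τ : ℂ) ^ 2 * tt z σ m p‖ with hr
    have hr0 : 0 ≤ r := norm_nonneg _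
    have hr1 : r ≤ 1 := tt_le_one h p
    have hf := norm_nonneg (ft f p)
    have hθ := h.θ0
    split_ifs with hc
    · have e1 : r ^ 4 ≤ 1 := pow_le_one₀ hr0 hr1
      have e2 : 0 ≤ θ ^ 3 * (r * ‖ft f p‖) := by positivity
      have e3 := mul_le_mul_of_nonneg_right e1 hf
      linarith
    · have e1 : r ^ 3 ≤ θ ^ 3 := pow_le_pow_left₀ hr0 (not_lt.1 hc) 3
      have e2 : r ^ 4 ≤ θ ^ 3 * r := by
        calc r ^ 4 = r ^ 3 * r := by ring
          _ ≤ θ ^ 3 * r := mul_le_mul_of_nonneg_right e1 hr0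
      have e3 := mul_le_mul_of_nonneg_right e2 hf
      linarith
  refine h3.trans ?_
  have h4 := mul_le_mul_of_nonneg_left h1 (pow_nonneg h.θ0 3)
  calc _ ≤ v0 * a0 + θ ^ 3 * (t2 * a0) := add_le_add h2 h4
    _ = _ := by ring

/-- the pair kernels -/
noncomputable def kks (z : ℂ) (σ : ℝ) (m : ℂ) (p u : T d L) : ℝ :=
  ‖kc (gp z σ m p) u‖ + ‖kc (gp z σ m p) (-u)‖

theorem kks_nonneg (p u : T d L) : 0 ≤ kks z σ m p u := by unfold kks; positivity

theorem kks_sq (h : MD d L z σ m) (p : T d L) :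
    ∑ u : T d L, kks z σ m p u ^ 2 ≤ 4 * (m.im / ss z σ m ^ 3) := by
  have h1 : ∀ u : T d L, kks z σ m p u ^ 2 ≤ 2 * ‖kc (gp z σ m p) u‖ ^ 2 +
      2 * ‖kc (gp z σ m p) (-u)‖ ^ 2 := by
    intro u
    unfold kks
    nlinarith [sq_nonneg (‖kc (gp z σ m p) u‖ - ‖kc (gp z σ m p) (-u)‖)]
  have h2 : ∑ u : T d L, ‖kc (gp z σ m p) (-u)‖ ^ 2 = ∑ u : T d L, ‖kc (gp z σ m p) u‖ ^ 2 :=
    Equiv.sum_comp (Equiv.neg (T d L)) (fun u => ‖kc (gp z σ m p) u‖ ^ 2)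
  refine (Finset.sum_le_sum fun u _ => h1 u).trans ?_
  rw [Finset.sum_add_distrib, ← Finset.mul_sum, ← Finset.mul_sum, h2]
  have := gp_sq h p
  linarith

/-- weighted masses with translation invariant weights -/
noncomputable def Wf (z : ℂ) (σ : ℝ) (m : ℂ) (τ : ℝ) (f : T d L → ℝ) (n : ℕ) : ℝ :=
  WG (Mk z σ m) τ (0 : T d L) (fun y x => f (y - x)) n

/-- the masses on the torus -/
noncomputable def Ff (d L : ℕ) [NeZero L] (z : ℂ) (σ : ℝ) (m : ℂ) (τ : ℝ) (n : ℕ) : ℝ :=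
  FF (Mk z σ m) τ (0 : T d L) n

theorem Wf_nonneg (f : T d L → ℝ) (hf : ∀ u, 0 ≤ f u) (n : ℕ) : 0 ≤ Wf z σ m τ f n :=
  WG_nonneg _ _ _ _ (fun _ _ => hf _) n

theorem Ff_nonneg (n : ℕ) : 0 ≤ Ff d L z σ m τ n := FF_nonneg _ _ _ _

theorem pair_le (p y y' : T d L) :
    ‖∑ x, e p x * (Mk z σ m x y * (starRingEnd ℂ) (Mk z σ m x y'))‖ ≤ kks z σ m p (y - y') := by
  rw [kk_torus]
  unfold kks
  rw [neg_sub]
  exact le_add_of_nonneg_left (norm_nonneg _)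

/-- the smooth step on the torus -/
theorem Wf_step (f : T d L → ℝ) (hf : ∀ u, 0 ≤ f u) (α X : ℝ) (hα : L1 f ≤ α)
    (hα' : cv z σ m τ f 0 ≤ α) (hX0 : 0 ≤ X) (n : ℕ) (hX : ∀ p : T d L, Wf z σ m τ (kks z σ m p) n ≤ X) :
    Wf z σ m τ f (n + 1) ≤ α * Ff d L z σ m τ n + Wf z σ m τ (cv z σ m τ f) n +
      (n + 1 : ℝ) * τ ^ 2 * (α * X) := by
  have hN := NN_pos (d := d) (L := L)
  have h1 := WG_step (Mk z σ m) τ (0 : T d L) (fun y x => f (y - x)) (fun _ _ => hf _) α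
    (fun w => by
      rw [TG_cv]
      simp only [sub_self]
      exact hα')
    (fun y y' => ∑ p, ((NN d L)⁻¹ * ‖ft f p‖) * kks z σ m p (y - y'))
    (fun y y' => Finset.sum_nonneg fun p _ => mul_nonneg (by positivity) (kks_nonneg _ _))
    (fun y y' => by
      refine Finset.sum_congr rfl fun p _ => ?_
      unfold kks
      rw [neg_sub, neg_sub, add_comm ‖kc (gp z σ m p) (y - y')‖])
    (fun w y y' => by
      have e1 : ∑ x, ((f (x - w) : ℝ) : ℂ) * (Mk z σ m x y * (starRingEnd ℂ) (Mk z σ m x y')) =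
          ((NN d L : ℝ) : ℂ)⁻¹ * ∑ p, ft f p * (e p (-w) *
            ∑ x, e p x * (Mk z σ m x y * (starRingEnd ℂ) (Mk z σ m x y'))) := by
        have e2 : ∀ x : T d L, ((f (x - w) : ℝ) : ℂ) *
            (Mk z σ m x y * (starRingEnd ℂ) (Mk z σ m x y')) =
            ((NN d L : ℝ) : ℂ)⁻¹ * ∑ p, ft f p * (e p (-w) * (e p x *
              (Mk z σ m x y * (starRingEnd ℂ) (Mk z σ m x y')))) := by
          intro x
          rw [ft_inv]
          unfold kc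
          rw [mul_assoc, Finset.sum_mul]
          congr 1
          refine Finset.sum_congr rfl fun p _ => ?_
          rw [sub_eq_add_neg, e_add]
          ring
        rw [Finset.sum_congr rfl fun x _ => e2 x, ← Finset.mul_sum, Finset.sum_comm]
        congr 1
        refine Finset.sum_congr rfl fun p _ => ?_
        rw [Finset.mul_sum, Finset.mul_sum]
      rw [e1, norm_mul, norm_inv, Complex.norm_real, Real.norm_eq_abs, abs_of_pos hN,
        Finset.sum_congr rfl fun p (_ : p ∈ Finset.univ) =>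
          (mul_assoc (NN d L)⁻¹ ‖ft f p‖ (kks z σ m p (y - y'))), ← Finset.mul_sum]
      refine mul_le_mul_of_nonneg_left ?_ (by positivity)
      refine (norm_sum_le _ _).trans (Finset.sum_le_sum fun p _ => ?_)
      rw [norm_mul, norm_mul, e_norm, one_mul]
      exact mul_le_mul_of_nonneg_left (pair_le p y y') (norm_nonneg _)) n
  rw [TG_cv] at h1
  have h2 : WG (Mk z σ m) τ (0 : T d L)
      (fun y y' => ∑ p, ((NN d L)⁻¹ * ‖ft f p‖) * kks z σ m p (y - y')) n ≤ α * X := by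
    rw [WG_sum _ _ _ Finset.univ (fun p => (NN d L)⁻¹ * ‖ft f p‖)
      (fun p y y' => kks z σ m p (y - y'))]
    calc ∑ p : T d L, (NN d L)⁻¹ * ‖ft f p‖ *
          WG (Mk z σ m) τ (0 : T d L) (fun y y' => kks z σ m p (y - y')) n
        ≤ ∑ p : T d L, (NN d L)⁻¹ * ‖ft f p‖ * X :=
          Finset.sum_le_sum fun p _ => mul_le_mul_of_nonneg_left (hX p) (by positivity)
      _ = L1 f * X := by
          unfold L1
          rw [Finset.mul_sum, Finset.sum_mul]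
      _ ≤ α * X := mul_le_mul_of_nonneg_right hα hX0
  have h3 := mul_le_mul_of_nonneg_left h2 (by positivity : 0 ≤ (n + 1 : ℝ) * τ ^ 2)
  unfold Wf Ff
  linarith

/-- the chain of estimates -/
theorem chain (h : Ch d L z σ m τ t2 θ v0) (f : T d L → ℝ) (hf : ∀ u, 0 ≤ f u) (a0 : ℝ)
    (ha0 : 0 ≤ a0) (ha : ∑ u, f u ^ 2 ≤ a0 ^ 2) (n : ℕ) (F X : ℝ) (hF0 : 0 ≤ F) (hX0 : 0 ≤ X)
    (hF : ∀ j, n ≤ j + 4 → j < n → Ff d L z σ m τ j ≤ F)
    (hX : ∀ j, n ≤ j + 4 → j < n → ∀ p : T d L, Wf z σ m τ (kks z σ m p) j ≤ X) :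
    Wf z σ m τ f n ≤ n * (a0 * (4 * t2 * F + 3 * (n * τ ^ 2 * t2 * X) +
      n * ((v0 + θ ^ 3 * t2) * F))) := by
  have ht2 := h.t20
  have hv := h.v00
  have hθ := h.θ0
  have hα : ∀ i, 1 ≤ i → L1 ((cv z σ m τ)^[i] f) ≤ t2 * a0 := fun i hi => L1_iter h f a0 ha0 ha i hi
  have hn0 : (0 : ℝ) ≤ n := Nat.cast_nonneg n
  have hc0 : 0 ≤ t2 * a0 * F + n * τ ^ 2 * (t2 * a0 * X) := by positivity
  -- one smooth step
  have hst : ∀ i, 1 ≤ i → ∀ j, n ≤ j + 3 → j ≤ n → Wf z σ m τ ((cv z σ m τ)^[i] f) j ≤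
      Wf z σ m τ ((cv z σ m τ)^[i + 1] f) (j - 1) +
        (t2 * a0 * F + n * τ ^ 2 * (t2 * a0 * X)) := by
    intro i hi j hj1 hj2
    rcases j with _ | j
    · have e1 : Wf z σ m τ ((cv z σ m τ)^[i] f) 0 = 0 := WG_zero _ _ _ _
      rw [e1]
      exact add_nonneg (Wf_nonneg _ (iter_nonneg f hf _) _) hc0
    · have e1 := Wf_step (z := z) (σ := σ) (m := m) (τ := τ) ((cv z σ m τ)^[i] f) (iter_nonneg f hf _)
        (t2 * a0) X (hα i hi) (by
          rw [← Function.iterate_succ_apply' (cv z σ m τ) i f]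
          exact (le_L1 _ _).trans (hα (i + 1) (by omega))) hX0 j (hX j (by omega) (by omega))
      rw [← Function.iterate_succ_apply' (cv z σ m τ) i f] at e1
      rw [Nat.add_sub_cancel]
      have e2 := mul_le_mul_of_nonneg_left (hF j (by omega) (by omega)) (by positivity : 0 ≤ t2 * a0)
      have e3 : ((j : ℝ) + 1) * τ ^ 2 * (t2 * a0 * X) ≤ n * τ ^ 2 * (t2 * a0 * X) := by
        have : ((j : ℝ) + 1) ≤ n := by exact_mod_cast hj2
        gcongr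
      linarith
  rcases n with _ | n
  · have e1 : Wf z σ m τ f 0 = 0 := WG_zero _ _ _ _
    rw [e1]
    simp
  · have e0 := WG_cs (Mk z σ m) τ (0 : T d L) (fun y x => f (y - x)) (fun _ _ => hf _) (t2 * a0)
      (fun w => by
        rw [TG_cv]
        simp only [sub_self]
        exact (le_L1 _ _).trans (hα 1 le_rfl)) n
    rw [TG_cv] at e0
    have e1 := hst 1 le_rfl n (by omega) (by omega)
    have e2 := hst 2 (by norm_num) (n - 1) (by omega) (by omega)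
    have e3 := hst 3 (by norm_num) (n - 1 - 1) (by omega) (by omega)
    have e4 : Wf z σ m τ ((cv z σ m τ)^[4] f) (n - 1 - 1 - 1) ≤
        ((n + 1 : ℕ) : ℝ) * ((v0 + θ ^ 3 * t2) * a0 * F) := by
      rcases Nat.eq_zero_or_pos (n - 1 - 1 - 1) with h0 | h0
      · rw [h0]
        have : Wf z σ m τ ((cv z σ m τ)^[4] f) 0 = 0 := WG_zero _ _ _ _
        rw [this]
        positivity
      · have e5 := WG_sup (Mk z σ m) τ (0 : T d L) (fun y x => (cv z σ m τ)^[4] f (y - x))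
          ((v0 + θ ^ 3 * t2) * a0) (fun y x => (le_L1 _ _).trans (L1_four h f a0 ha0 ha))
          (n - 1 - 1 - 1)
        refine le_trans e5 ?_
        have e6 := hF (n - 1 - 1 - 1) (by omega) (by omega)
        have e7 : ((n - 1 - 1 - 1 : ℕ) : ℝ) ≤ ((n + 1 : ℕ) : ℝ) := by exact_mod_cast (by omega)
        unfold Ff at e6
        have e8 : 0 ≤ (v0 + θ ^ 3 * t2) * a0 := by positivity
        have e9 := mul_le_mul_of_nonneg_left e6 e8
        have e10 : 0 ≤ (v0 + θ ^ 3 * t2) * a0 * F := by positivity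
        calc ((n - 1 - 1 - 1 : ℕ) : ℝ) * ((v0 + θ ^ 3 * t2) * a0 *
              FF (Mk z σ m) τ (0 : T d L) (n - 1 - 1 - 1))
            ≤ ((n - 1 - 1 - 1 : ℕ) : ℝ) * ((v0 + θ ^ 3 * t2) * a0 * F) :=
              mul_le_mul_of_nonneg_left e9 (Nat.cast_nonneg _)
          _ ≤ _ := mul_le_mul_of_nonneg_right e7 e10
    have e5 := mul_le_mul_of_nonneg_left (hF n (by omega) (by omega)) (by positivity : 0 ≤ t2 * a0)
    have e6 : (cv z σ m τ)^[1] f = cv z σ m τ f := rfl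
    rw [e6] at e1
    have e7 : t2 * a0 * Ff d L z σ m τ n + Wf z σ m τ (cv z σ m τ f) n ≤
        a0 * (4 * t2 * F + 3 * (((n + 1 : ℕ) : ℝ) * τ ^ 2 * t2 * X) +
          ((n + 1 : ℕ) : ℝ) * ((v0 + θ ^ 3 * t2) * F)) := by
      have e8 : a0 * (4 * t2 * F + 3 * (((n + 1 : ℕ) : ℝ) * τ ^ 2 * t2 * X) +
          ((n + 1 : ℕ) : ℝ) * ((v0 + θ ^ 3 * t2) * F)) =
          t2 * a0 * F + 3 * (t2 * a0 * F + ((n + 1 : ℕ) : ℝ) * τ ^ 2 * (t2 * a0 * X)) +
          ((n + 1 : ℕ) : ℝ) * ((v0 + θ ^ 3 * t2) * a0 * F) := by ring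
      rw [e8]
      linarith
    have e8 := mul_le_mul_of_nonneg_left e7 (by positivity : 0 ≤ ((n : ℝ) + 1))
    unfold Wf Ff at e8
    refine le_trans e0 (e8.trans (le_of_eq ?_))
    push_cast
    ring

/-- the inductive bounds -/
theorem induct (h : Ch d L z σ m τ t2 θ v0) (a0 : ℝ) (ha0 : 0 ≤ a0)
    (ha : 4 * (m.im / ss z σ m ^ 3) ≤ a0 ^ 2) (ρ x : ℝ) (N : ℕ) (hρ0 : 3 / 4 ≤ ρ) (hρ1 : ρ ≤ 1)
    (hx0 : 0 ≤ x) (hx1 : τ ^ 2 * (m.im / ss z σ m) + τ ^ 2 * x ≤ ρ)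
    (hx2 : 4 * (N * (a0 * (4 * t2 + 3 * (N * τ ^ 2 * t2 * x) + N * (v0 + θ ^ 3 * t2)))) ≤ x) :
    ∀ n : ℕ, n ≤ N → Ff d L z σ m τ n ≤ Ff d L z σ m τ 0 * ρ ^ n ∧
      ∀ p : T d L, Wf z σ m τ (kks z σ m p) n ≤ x * (Ff d L z σ m τ 0 * ρ ^ n) := by
  have ht2 := h.t20
  have hv := h.v00
  have hθ := h.θ0
  have hF0 := Ff_nonneg (d := d) (L := L) (z := z) (σ := σ) (m := m) (τ := τ) 0
  have hρp : 0 ≤ ρ := by linarith
  intro n
  induction n using Nat.strong_induction_on with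
  | _ n ih =>
    intro hn
    set F0 := Ff d L z σ m τ 0 with hF0d
    have hpow : ∀ j, n ≤ j + 4 → j < n → F0 * ρ ^ j ≤ 4 * (F0 * ρ ^ n) := by
      intro j h1 h2
      have e1 : (1 : ℝ) / 4 ≤ ρ ^ (n - j) := by
        calc (1 : ℝ) / 4 ≤ (3 / 4) ^ 4 := by norm_num
          _ ≤ ρ ^ 4 := pow_le_pow_left₀ (by norm_num) hρ0 4
          _ ≤ ρ ^ (n - j) := pow_le_pow_of_le_one hρp hρ1 (by omega)
      have e2 : ρ ^ n = ρ ^ j * ρ ^ (n - j) := by rw [← pow_add]; congr 1; omega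
      rw [e2]
      have e3 : 0 ≤ F0 * ρ ^ j := by positivity
      have e4 := mul_le_mul_of_nonneg_left e1 e3
      linarith
    have hb : 0 ≤ F0 * ρ ^ n := by positivity
    refine ⟨?_, fun p => ?_⟩
    · rcases n with _ | n
      · rw [← hF0d]
        simp
      · obtain ⟨i1, i2⟩ := ih n (by omega) (by omega)
        have e1 := FF_step (Mk z σ m) τ (0 : T d L) (τ ^ 2 * (m.im / ss z σ m))
          (fun w => by
            rw [← Finset.mul_sum]
            refine mul_le_mul_of_nonneg_left (le_of_eq ?_) (by positivity)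
            unfold Mk
            rw [← sq_sum h.md, ← parseval_sq]
            exact Equiv.sum_comp (Equiv.subRight w) (fun x => ‖kc (Mh z σ m) x‖ ^ 2))
          (fun y y' => kks z σ m 0 (y - y')) (fun _ _ => kks_nonneg _ _)
          (fun y y' => by
            unfold kks
            rw [neg_sub, neg_sub, add_comm ‖kc (gp z σ m 0) (y - y')‖])
          (fun y y' => by
            have e2 := pair_le (z := z) (σ := σ) (m := m) 0 y y'
            have e3 : ∀ x : T d L, e (0 : T d L) x = 1 := fun x => by rw [e_comm, e_zero]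
            simp only [e3, one_mul] at e2
            exact e2) n
        have e2 := i2 0
        unfold Ff at i1 ⊢
        unfold Wf at e2
        have e3 := mul_le_mul_of_nonneg_left i1
          (mul_nonneg (by positivity) (div_nonneg h.md.mim.le (ss_pos h.md).le) :
            0 ≤ τ ^ 2 * (m.im / ss z σ m))
        have e4 := mul_le_mul_of_nonneg_left e2 (by positivity : 0 ≤ τ ^ 2)
        have e5 : 0 ≤ F0 * ρ ^ n := by positivity
        have e6 := mul_le_mul_of_nonneg_right hx1 e5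
        refine e1.trans ?_
        have e7 : F0 * ρ ^ (n + 1) = ρ * (F0 * ρ ^ n) := by ring
        rw [e7]
        linarith
    · have e1 := chain h (kks z σ m p) (kks_nonneg p) a0 ha0 ((kks_sq h.md p).trans ha) n
        (4 * (F0 * ρ ^ n)) (x * (4 * (F0 * ρ ^ n))) (by positivity) (by positivity)
        (fun j h1 h2 => (ih j h2 (by omega)).1.trans (hpow j h1 h2))
        (fun j h1 h2 p => ((ih j h2 (by omega)).2 p).trans
          (mul_le_mul_of_nonneg_left (hpow j h1 h2) hx0))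
      refine e1.trans ?_
      have hnN : (n : ℝ) ≤ N := by exact_mod_cast hn
      have hn0 : (0 : ℝ) ≤ n := Nat.cast_nonneg n
      calc n * (a0 * (4 * t2 * (4 * (F0 * ρ ^ n)) + 3 * (n * τ ^ 2 * t2 * (x * (4 * (F0 * ρ ^ n)))) +
            n * ((v0 + θ ^ 3 * t2) * (4 * (F0 * ρ ^ n)))))
          = 4 * (n * (a0 * (4 * t2 + 3 * (n * τ ^ 2 * t2 * x) + n * (v0 + θ ^ 3 * t2)))) *
            (F0 * ρ ^ n) := by ring
        _ ≤ 4 * (N * (a0 * (4 * t2 + 3 * (N * τ ^ 2 * t2 * x) + N * (v0 + θ ^ 3 * t2)))) *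
            (F0 * ρ ^ n) := by gcongr
        _ ≤ x * (F0 * ρ ^ n) := mul_le_mul_of_nonneg_right hx2 hb

end Pool.Agent.Zk11.QD
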