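import Pool.Agent.Zk11.QD.Dbl
import Pool.Agent.Zk11.QD.Nbd
import Pool.Agent.Zk11.QD.Wtor

/-! Decay of the ladder multiplier. -/

set_option autoImplicit false
set_option linter.unusedSectionVars false

open scoped BigOperators Topology ENNReal
open MeasureTheory Filter

namespace Pool.Agent.Zk11.QD

open Pool.Agent.W788.MFP.Four (T e NN adj adj_neg e_comm e_add_left e_add e_zero e_neg e_neg_left
  e_normSq sum_e NN_pos card_T e_single)

variable {d L : ℕ} [NeZero L] {z : ℂ} {σ : ℝ} {m : ℂ}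

/-- the shifted one-dimensional overlap -/
noncomputable def j2 (L : ℕ) [NeZero L] (q : ZMod L) (t u : ℝ) : ℂ :=
  (L : ℂ)⁻¹ * ∑ r : ZMod L, ex t (co (r - q)) * (starRingEnd ℂ) (ex u (co r))

theorem j2_le (q : ZMod L) (t u : ℝ) : ‖j2 L q t u‖ ≤ 1 := by
  refine avg_norm _ 1 fun r => ?_
  rw [norm_mul, RCLike.norm_conj, ex_norm, ex_norm, one_mul]

/-- the complex amplitude -/
noncomputable def ζz (q : ZMod L) (t u : ℝ) : ℂ :=
  (t : ℂ) * (starRingEnd ℂ) (ZMod.stdAddChar q : ℂ) - u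

theorem ζz_sq (q : ZMod L) (t u : ℝ) : ‖ζz q t u‖ ^ 2 = (t - u) ^ 2 + 2 * (t * u) * (1 - co q) := by
  have h1 := co_si q
  have h2 : ‖ζz q t u‖ ^ 2 = (ζz q t u).re ^ 2 + (ζz q t u).im ^ 2 := by
    rw [← Complex.normSq_eq_norm_sq, Complex.normSq_apply]
    ring
  rw [h2]
  unfold ζz
  unfold co si at *
  simp only [Complex.sub_re, Complex.mul_re, Complex.ofReal_re, Complex.ofReal_im, Complex.conj_re,
    Complex.conj_im, Complex.sub_im, Complex.mul_im]
  linear_combination t ^ 2 * h1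

theorem j2_dec (q : ZMod L) (t u : ℝ) (h : (1 + ‖ζz q t u‖) ^ 3 ≤ (L : ℝ) ^ 2) :
    ‖j2 L q t u‖ ≤ 10 / Real.sqrt (1 + ‖ζz q t u‖) := by
  have h1 := Pool.Agent.W918.BK.Osc.osc L (ζz q t u) h
  have hL := Lpos (L := L)
  unfold j2
  rw [norm_mul, norm_inv, Complex.norm_natCast]
  have h2 : ∑ r : ZMod L, ex t (co (r - q)) * (starRingEnd ℂ) (ex u (co r)) =
      ∑ k : ZMod L, Complex.exp (Complex.I * ((2 * (ζz q t u * ZMod.stdAddChar k).re : ℝ) : ℂ)) := by
    refine Finset.sum_congr rfl fun r _ => ?_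
    unfold ex
    rw [← Complex.exp_conj, ← Complex.exp_add]
    congr 1
    rw [map_mul, Complex.conj_I, Complex.conj_ofReal]
    have h3 : (ζz q t u * ZMod.stdAddChar r).re = t * co (r - q) - u * co r := by
      have h4 : (ZMod.stdAddChar (r - q) : ℂ) =
          (starRingEnd ℂ) (ZMod.stdAddChar q : ℂ) * ZMod.stdAddChar r := by
        rw [sub_eq_add_neg, AddChar.map_add_eq_mul, mul_comm]
        congr 1
        rw [ZMod.stdAddChar_apply, ZMod.stdAddChar_apply, AddChar.map_neg_eq_inv,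
          Circle.coe_inv_eq_conj]
      unfold ζz co
      rw [h4, sub_mul, mul_assoc, Complex.sub_re, Complex.re_ofReal_mul, Complex.re_ofReal_mul]
    rw [h3]
    push_cast
    ring
  rw [h2]
  calc (L : ℝ)⁻¹ * ‖∑ k : ZMod L, Complex.exp (Complex.I *
        ((2 * (ζz q t u * ZMod.stdAddChar k).re : ℝ) : ℂ))‖ ≤
        (L : ℝ)⁻¹ * (10 * L / Real.sqrt (1 + ‖ζz q t u‖)) :=
        mul_le_mul_of_nonneg_left h1 (by positivity)
    _ = _ := by field_simp

/-- the multiplier as a double time integral -/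
theorem tt_int (_h : MD d L z σ m) (p : T d L) (s : ℝ) (hs : 0 < s) (hw : s ≤ ss z σ m) :
    ENNReal.ofReal ‖tt z σ m p‖ ≤
      ∫⁻ t in Set.Ioi (0 : ℝ), ∫⁻ u in Set.Ioi (0 : ℝ), ENNReal.ofReal
        (Real.exp (-(s * (t + u))) * ∏ i, ‖j2 L (p i) t u‖) := by
  set w : ℂ := z + (σ : ℂ) ^ 2 * m with hwd
  have hwim : w.im = ss z σ m := w_im z σ m
  have hw0 : 0 < w.im := by rw [hwim]; linarith
  set F : T d L → ℝ → ℂ := fun k t => Complex.exp (Complex.I * w * t) *
    Complex.exp (-(Complex.I * ((aa (k - p) : ℝ) : ℂ) * t)) with hF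
  set G : T d L → ℝ → ℂ := fun k t => Complex.exp (Complex.I * w * t) *
    Complex.exp (-(Complex.I * ((aa k : ℝ) : ℂ) * t)) with hG
  have hone : ∀ (a t : ℝ), ‖Complex.exp (-(Complex.I * (a : ℂ) * t))‖ ≤ 1 := by
    intro a t
    rw [Complex.norm_exp]
    simp [Complex.mul_re]
  have hFi : ∀ k, IntegrableOn (F k) (Set.Ioi 0) := fun k =>
    lap_integrable _ (by fun_prop) 1 (hone _) w hw0
  have hGc : ∀ k, Continuous (G k) := fun k => by simp only [hG]; fun_prop
  have hGi : ∀ k, IntegrableOn (G k) (Set.Ioi 0) := fun k =>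
    lap_integrable _ (by fun_prop) 1 (hone _) w hw0
  have hGj : ∀ k, IntegrableOn (fun u => (starRingEnd ℂ) (G k u)) (Set.Ioi 0) := fun k => by
    refine Integrable.mono' (hGi k).norm (Complex.continuous_conj.comp (hGc k)).aestronglyMeasurable ?_
    exact Eventually.of_forall fun t => (RCLike.norm_conj _).le
  set c : T d L → ℂ := fun k => ∫ u in Set.Ioi (0 : ℝ), (starRingEnd ℂ) (G k u) with hc
  have hM1 : ∀ k : T d L, Mh z σ m (k - p) = Complex.I * ∫ t in Set.Ioi (0 : ℝ), F k t := by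
    intro k
    rw [Mh_w]
    simp only
    rw [← lap_exp (aa (k - p)) w hw0]
    rfl
  have hM2 : ∀ k : T d L, (starRingEnd ℂ) (Mh z σ m k) = -Complex.I * c k := by
    intro k
    rw [Mh_w]
    simp only
    rw [← lap_exp (aa k) w hw0]
    unfold Lap
    rw [map_mul, Complex.conj_I, hc]
    simp only
    rw [integral_conj]
  have h1 : tt z σ m p = ∫ t in Set.Ioi (0 : ℝ), ((NN d L : ℝ) : ℂ)⁻¹ * ∑ k, F k t * c k := by
    rw [integral_const_mul, integral_finsetSum _ fun k _ => (hFi k).mul_const (c k)]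
    unfold tt
    congr 1
    refine Finset.sum_congr rfl fun k _ => ?_
    rw [hM1, hM2, integral_mul_const]
    linear_combination (-(∫ t in Set.Ioi (0 : ℝ), F k t) * c k) * Complex.I_mul_I
  have h2 : ∀ t, ((NN d L : ℝ) : ℂ)⁻¹ * ∑ k, F k t * c k =
      ∫ u in Set.Ioi (0 : ℝ), ((NN d L : ℝ) : ℂ)⁻¹ * ∑ k, F k t * (starRingEnd ℂ) (G k u) := by
    intro t
    rw [integral_const_mul, integral_finsetSum _ fun k _ => (hGj k).const_mul (F k t)]
    congr 1
    refine Finset.sum_congr rfl fun k _ => ?_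
    rw [hc, integral_const_mul]
  have h3 : ∀ t u, ((NN d L : ℝ) : ℂ)⁻¹ * ∑ k, F k t * (starRingEnd ℂ) (G k u) =
      (Complex.exp (Complex.I * w * t) * (starRingEnd ℂ) (Complex.exp (Complex.I * w * u)) *
        (fz d t * (starRingEnd ℂ) (fz d u))) * ∏ i, j2 L (p i) t u := by
    intro t u
    unfold j2
    rw [← avg_prod (fun i q => ex t (co (q - p i)) * (starRingEnd ℂ) (ex u (co q))), mul_left_comm]
    congr 1
    rw [Finset.mul_sum]
    refine Finset.sum_congr rfl fun k _ => ?_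
    simp only [hF, hG]
    rw [exp_aa, exp_aa, map_mul, map_mul, map_prod, Finset.prod_mul_distrib]
    simp only [Pi.sub_apply]
    ring
  rw [h1, ofReal_norm]
  refine (enorm_integral_le_lintegral_enorm _).trans ?_
  refine setLIntegral_mono' measurableSet_Ioi fun t ht => ?_
  rw [h2 t]
  refine (enorm_integral_le_lintegral_enorm _).trans ?_
  refine setLIntegral_mono' measurableSet_Ioi fun u hu => ?_
  rw [h3, ← ofReal_norm]
  apply ENNReal.ofReal_le_ofReal
  simp only [norm_mul, RCLike.norm_conj, fz_norm, exp_norm, norm_prod, mul_one]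
  have ht0 : 0 < t := ht
  have hu0 : 0 < u := hu
  rw [← Real.exp_add]
  refine mul_le_mul_of_nonneg_right ?_ (Finset.prod_nonneg fun _ _ => norm_nonneg _)
  apply Real.exp_le_exp.2
  rw [hwim]
  nlinarith

/-- **decay of the ladder multiplier** -/
theorem tt_dec (hd : 3 ≤ d) (h : MD d L z σ m) (s : ℝ) (hs : 0 < s) (hs1 : s ≤ 1)
    (hw : s ≤ ss z σ m) (hL1 : 13 * (1 + (1 / s) ^ 4 + (1 / s) ^ 4) ^ 2 ≤ (L : ℝ)) (p : T d L)
    (a : Fin d) (G : ℝ) (hG : 0 < G) (hβ : 1 / (2 * G ^ 4) ≤ 1 - co (p a)) :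
    ‖tt z σ m p‖ ≤ 1000 * G * (3 / Real.sqrt s) * (2 * Real.log (1 + (1 / s) ^ 4) + 1) + 2 * s := by
  obtain ⟨b, c, hab, hac, hbc⟩ := two_others hd a
  set R : ℝ := (1 / s) ^ 4 with hR
  have hR0 : 0 ≤ R := by positivity
  have hlog : 0 ≤ Real.log (1 + R) := Real.log_nonneg (by linarith)
  have h1 := tt_int h p s hs hw
  have h2 := Tim.dbl s R (1000 * G) hs hR0 (by positivity)
    (fun t u => ‖j2 L (p a) t u‖ * ‖j2 L (p b) t u‖ * ‖j2 L (p c) t u‖)
    (fun t u => by
      have e1 := j2_le (p a) t u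
      have e2 := j2_le (p b) t u
      have e3 := j2_le (p c) t u
      have e4 := norm_nonneg (j2 L (p a) t u)
      have e5 := norm_nonneg (j2 L (p b) t u)
      have e6 := norm_nonneg (j2 L (p c) t u)
      calc ‖j2 L (p a) t u‖ * ‖j2 L (p b) t u‖ * ‖j2 L (p c) t u‖ ≤ 1 * 1 * 1 := by gcongr
        _ = 1 := by norm_num)
    (fun t u ht0 htT hu0 huT => by
      have hζ : ∀ i, ‖ζz (p i) t u‖ ≤ 2 * R := by
        intro i
        unfold ζz
        refine (norm_sub_le _ _).trans ?_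
        rw [norm_mul, RCLike.norm_conj, add_norm, mul_one, Complex.norm_real, Complex.norm_real,
          Real.norm_eq_abs, Real.norm_eq_abs, abs_of_pos ht0, abs_of_pos hu0]
        linarith
      have hLi : ∀ i, (1 + ‖ζz (p i) t u‖) ^ 3 ≤ (L : ℝ) ^ 2 := by
        intro i
        have e1 : 1 + ‖ζz (p i) t u‖ ≤ 1 + R + R := by
          have := hζ i
          linarith
        set Y := 1 + R + R with hY
        have hY1 : 1 ≤ Y := by rw [hY]; linarith
        have e2 : (1 + ‖ζz (p i) t u‖) ^ 3 ≤ Y ^ 3 := pow_le_pow_left₀ (by positivity) e1 3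
        have e3 : Y ^ 2 ≤ L := by
          have : 0 ≤ Y ^ 2 := by positivity
          linarith
        calc (1 + ‖ζz (p i) t u‖) ^ 3 ≤ Y ^ 3 := e2
          _ ≤ Y ^ 4 := pow_le_pow_right₀ hY1 (by norm_num)
          _ = (Y ^ 2) ^ 2 := by ring
          _ ≤ (L : ℝ) ^ 2 := pow_le_pow_left₀ (by positivity) e3 2
      have hlow : ∀ i, |t - u| ≤ ‖ζz (p i) t u‖ := by
        intro i
        have e1 := ζz_sq (p i) t u
        have e2 : 0 ≤ 1 - co (p i) := by linarith [(abs_le.1 (co_le (p i))).2]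
        have e3 : 0 ≤ 2 * (t * u) * (1 - co (p i)) := by positivity
        apply abs_le_of_sq_le_sq _ (norm_nonneg _)
        rw [e1]
        linarith
      have hbc' : ∀ i, ‖j2 L (p i) t u‖ ≤ 10 / Real.sqrt (1 + |t - u|) := by
        intro i
        refine (j2_dec (p i) t u (hLi i)).trans ?_
        have e1 := hlow i
        have e2 := abs_nonneg (t - u)
        gcongr
      have ha' : ‖j2 L (p a) t u‖ ≤
          10 * (G * ((t ^ (-(1 / 2) : ℝ) + u ^ (-(1 / 2) : ℝ)) / 2)) := by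
        refine (j2_dec (p a) t u (hLi a)).trans ?_
        rw [div_eq_mul_one_div]
        refine mul_le_mul_of_nonneg_left ?_ (by norm_num)
        set A := t ^ (-(1 / 2) : ℝ) with hA
        set B := u ^ (-(1 / 2) : ℝ) with hB
        have hA0 : 0 < A := Real.rpow_pos_of_pos ht0 _
        have hB0 : 0 < B := Real.rpow_pos_of_pos hu0 _
        have hA2 : A ^ 2 = 1 / t := by
          rw [hA, ← Real.rpow_natCast, ← Real.rpow_mul ht0.le]
          norm_num
          rw [Real.rpow_neg_one]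
        have hB2 : B ^ 2 = 1 / u := by
          rw [hB, ← Real.rpow_natCast, ← Real.rpow_mul hu0.le]
          norm_num
          rw [Real.rpow_neg_one]
        set ζ := ‖ζz (p a) t u‖ with hζd
        have hζ0 : 0 ≤ ζ := norm_nonneg _
        have e1 : t * u / G ^ 4 ≤ ζ ^ 2 := by
          rw [hζd, ζz_sq]
          have e2 := mul_le_mul_of_nonneg_left hβ (by positivity : 0 ≤ 2 * (t * u))
          have e3 : 2 * (t * u) * (1 / (2 * G ^ 4)) = t * u / G ^ 4 := by field_simp
          have e4 := sq_nonneg (t - u)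
          linarith
        have e2 : (1 / Real.sqrt (1 + ζ)) ^ 4 ≤ (G * ((A + B) / 2)) ^ 4 := by
          have e3 : (1 / Real.sqrt (1 + ζ)) ^ 4 = 1 / (1 + ζ) ^ 2 := by
            have e4 : Real.sqrt (1 + ζ) ^ 4 = (1 + ζ) ^ 2 := by
              have e5 := Real.sq_sqrt (show 0 ≤ 1 + ζ by linarith)
              calc Real.sqrt (1 + ζ) ^ 4 = (Real.sqrt (1 + ζ) ^ 2) ^ 2 := by ring
                _ = _ := by rw [e5]
            rw [div_pow, one_pow, e4]
          rw [e3]
          have e5 : t * u / G ^ 4 ≤ (1 + ζ) ^ 2 := by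
            refine e1.trans (pow_le_pow_left₀ hζ0 (by linarith) 2)
          have e6 : 1 / (1 + ζ) ^ 2 ≤ 1 / (t * u / G ^ 4) :=
            one_div_le_one_div_of_le (by positivity) e5
          refine e6.trans ?_
          have e7 : 1 / (t * u / G ^ 4) = G ^ 4 * (A ^ 2 * B ^ 2) := by
            rw [hA2, hB2]
            field_simp
          rw [e7, mul_pow]
          refine mul_le_mul_of_nonneg_left ?_ (by positivity)
          have e8 : A * B ≤ ((A + B) / 2) ^ 2 := by nlinarith [sq_nonneg (A - B)]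
          calc A ^ 2 * B ^ 2 = (A * B) ^ 2 := by ring
            _ ≤ (((A + B) / 2) ^ 2) ^ 2 := pow_le_pow_left₀ (by positivity) e8 2
            _ = _ := by ring
        exact le_of_pow_le_pow_left₀ (by norm_num) (by positivity) e2
      have hsq : Real.sqrt (1 + |t - u|) * Real.sqrt (1 + |t - u|) = 1 + |t - u| :=
        Real.mul_self_sqrt (by positivity)
      have hpos : 0 < Real.sqrt (1 + |t - u|) := Real.sqrt_pos.2 (by positivity)
      have hrt : 0 ≤ t ^ (-(1 / 2) : ℝ) + u ^ (-(1 / 2) : ℝ) :=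
        add_nonneg (Real.rpow_nonneg ht0.le _) (Real.rpow_nonneg hu0.le _)
      calc ‖j2 L (p a) t u‖ * ‖j2 L (p b) t u‖ * ‖j2 L (p c) t u‖ ≤
            10 * (G * ((t ^ (-(1 / 2) : ℝ) + u ^ (-(1 / 2) : ℝ)) / 2)) *
            (10 / Real.sqrt (1 + |t - u|)) * (10 / Real.sqrt (1 + |t - u|)) := by
            have e1 := hbc' b
            have e2 := hbc' c
            gcongr
        _ = 1000 * G * ((t ^ (-(1 / 2) : ℝ) + u ^ (-(1 / 2) : ℝ)) / 2) *
            (1 / (Real.sqrt (1 + |t - u|) * Real.sqrt (1 + |t - u|))) := by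
            field_simp
            ring
        _ = _ := by rw [hsq, abs_sub_comm t u])
  have h3 : ENNReal.ofReal ‖tt z σ m p‖ ≤ ENNReal.ofReal (1000 * G * (3 / Real.sqrt s) *
      (2 * Real.log (1 + R) + 1) + 2 * (Real.exp (-(s * R)) / s * (1 / s))) := by
    refine h1.trans (le_trans ?_ h2)
    refine lintegral_mono fun t => lintegral_mono fun u => ENNReal.ofReal_le_ofReal ?_
    refine mul_le_mul_of_nonneg_left ?_ (Real.exp_pos _).le
    exact prod_three (fun i => ‖j2 L (p i) t u‖) (fun _ => norm_nonneg _) (fun i => j2_le _ _ _)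
      a b c hab hac hbc
  have hsq : 0 < Real.sqrt s := Real.sqrt_pos.2 hs
  rw [ENNReal.ofReal_le_ofReal_iff (by positivity)] at h3
  refine h3.trans (add_le_add le_rfl ?_)
  have h4 := small_exp s hs hs1
  rw [← hR] at h4
  calc 2 * (Real.exp (-(s * R)) / s * (1 / s)) ≤ 2 * (s ^ 2 * (1 / s)) := by gcongr
    _ = 2 * s := by field_simp

/-- counting small momenta -/
theorem co_small (q : ZMod L) (X : ℝ) (hX : 0 ≤ X) (h : 1 - co q < 8 * X ^ 2 / (L : ℝ) ^ 2) :
    (na q : ℝ) ≤ X := by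
  have hL := Lpos (L := L)
  have h1 := chord q
  have h2 : ‖(ZMod.stdAddChar q : ℂ) - 1‖ ^ 2 = 2 * (1 - co q) := by
    have h3 := co_si q
    unfold co si at *
    rw [← Complex.normSq_eq_norm_sq, Complex.normSq_apply]
    simp only [Complex.sub_re, Complex.sub_im, Complex.one_re, Complex.one_im]
    linear_combination h3
  have h3 := pow_le_pow_left₀ (by positivity) h1 2
  rw [h2] at h3
  have h4 : (4 * (na q : ℝ) / L) ^ 2 < (4 * X / L) ^ 2 := by
    unfold na
    refine lt_of_le_of_lt h3 ?_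
    have : (4 * X / L) ^ 2 = 2 * (8 * X ^ 2 / (L : ℝ) ^ 2) := by ring
    rw [this]
    linarith
  have h5 : 4 * (na q : ℝ) / L < 4 * X / L := lt_of_pow_lt_pow_left₀ 2 (by positivity) h4
  rw [div_lt_div_iff_of_pos_right hL] at h5
  linarith

theorem na_count (X : ℝ) (hX : 0 ≤ X) :
    (((Finset.univ.filter fun q : ZMod L => (na q : ℝ) ≤ X).card : ℕ) : ℝ) ≤ 2 * X + 2 := by
  classical
  have h1 : (Finset.univ.filter fun q : ZMod L => (na q : ℝ) ≤ X) ⊆
      (Finset.range (⌊X⌋₊ + 1)).biUnion fun n => Finset.univ.filter fun q : ZMod L => na q = n := by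
    intro q hq
    rw [Finset.mem_filter] at hq
    rw [Finset.mem_biUnion]
    refine ⟨na q, ?_, by simp⟩
    rw [Finset.mem_range, Nat.lt_succ_iff, Nat.le_floor_iff hX]
    exact hq.2
  have h2 : (Finset.univ.filter fun q : ZMod L => (na q : ℝ) ≤ X).card ≤ (⌊X⌋₊ + 1) * 2 := by
    refine (Finset.card_le_card h1).trans (Finset.card_biUnion_le.trans ?_)
    refine (Finset.sum_le_sum fun n _ => na_fiber (L := L) n).trans (le_of_eq ?_)
    rw [Finset.sum_const, Finset.card_range, smul_eq_mul]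
  have h3 : (((Finset.univ.filter fun q : ZMod L => (na q : ℝ) ≤ X).card : ℕ) : ℝ) ≤
      ((⌊X⌋₊ + 1) * 2 : ℕ) := by exact_mod_cast h2
  refine h3.trans ?_
  push_cast
  have := Nat.floor_le hX
  linarith

/-- the small momenta -/
theorem small_count (r : ℝ) (hr0 : 0 ≤ r) (hrL : 4 ≤ r * L) :
    (NN d L)⁻¹ * (((Finset.univ.filter fun p : T d L => ∀ i, 1 - co (p i) < r ^ 2 / 2).card : ℕ) : ℝ) ≤
      r ^ d := by
  classical
  have hL := Lpos (L := L)
  set X : ℝ := r * L / 4 with hX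
  have hX0 : 0 ≤ X := by positivity
  set Q : Finset (ZMod L) := Finset.univ.filter fun q : ZMod L => (na q : ℝ) ≤ X with hQ
  have h1 : (Finset.univ.filter fun p : T d L => ∀ i, 1 - co (p i) < r ^ 2 / 2) ⊆
      Fintype.piFinset fun _ : Fin d => Q := by
    intro p hp
    rw [Finset.mem_filter] at hp
    rw [Fintype.mem_piFinset]
    intro i
    rw [hQ, Finset.mem_filter]
    refine ⟨Finset.mem_univ _, co_small (p i) X hX0 ?_⟩
    refine lt_of_lt_of_eq (hp.2 i) ?_
    rw [hX]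
    field_simp
    ring
  have h2 : (Finset.univ.filter fun p : T d L => ∀ i, 1 - co (p i) < r ^ 2 / 2).card ≤ Q.card ^ d := by
    refine (Finset.card_le_card h1).trans (le_of_eq ?_)
    rw [Fintype.card_piFinset, Finset.prod_const, Finset.card_univ, Fintype.card_fin]
  have h3 : ((Q.card : ℕ) : ℝ) ≤ r * L := by
    refine (na_count X hX0).trans ?_
    rw [hX]
    linarith
  have h4 : (((Finset.univ.filter fun p : T d L => ∀ i, 1 - co (p i) < r ^ 2 / 2).card : ℕ) : ℝ) ≤
      (r * L) ^ d := by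
    have h2' : (((Finset.univ.filter fun p : T d L => ∀ i, 1 - co (p i) < r ^ 2 / 2).card : ℕ) : ℝ) ≤
        ((Q.card : ℕ) : ℝ) ^ d := by exact_mod_cast h2
    exact h2'.trans (pow_le_pow_left₀ (by positivity) h3 d)
  have hN : NN d L = (L : ℝ) ^ d := rfl
  rw [hN]
  calc ((L : ℝ) ^ d)⁻¹ *
        (((Finset.univ.filter fun p : T d L => ∀ i, 1 - co (p i) < r ^ 2 / 2).card : ℕ) : ℝ) ≤
        ((L : ℝ) ^ d)⁻¹ * (r * L) ^ d := mul_le_mul_of_nonneg_left h4 (by positivity)
    _ = r ^ d := by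
        rw [mul_pow]
        field_simp

end Pool.Agent.Zk11.QD
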