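import Pool.Agent.Zk11.QD.Nbd

/-! The error in the ladder approximation on the torus. -/

set_option autoImplicit false
set_option linter.unusedSectionVars false

open scoped BigOperators Topology ENNReal
open MeasureTheory Filter

namespace Pool.Agent.Zk11.QD

open Pool.Agent.W788.MFP.Four (T e NN adj adj_neg e_comm e_add_left e_add e_zero e_neg e_neg_left
  e_normSq sum_e NN_pos card_T e_single)

variable {d L : ℕ} [NeZero L] {z : ℂ} {σ : ℝ} {m : ℂ}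

/-- elementary estimates of the parameters -/
theorem par_a (h : MD d L z σ m) (τ B S : ℝ) (hB : 1 ≤ B) (hσ0 : 0 < σ) (hσ1 : σ ≤ 1)
    (hmB : m.im ≤ B) (hmi : 1 / B ≤ m.im) (hS1 : 1 ≤ S) (hN4 : N4 d L z σ m ≤ (B * S ^ 2) ^ 2)
    (hτ : τ ^ 2 ≤ 2 * σ ^ 2) : ka d L z σ m τ ≤ 12 * B ^ 3 * (σ * S ^ 2) := by
  have hs := ss_pos h
  have hmp := h.mim
  have hz := h.zim
  have hB0 : 0 < B := by linarith
  set s := ss z σ m with hsdef
  have hss : σ ^ 2 / B ≤ s := by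
    have h1 : σ ^ 2 * (1 / B) ≤ σ ^ 2 * m.im := mul_le_mul_of_nonneg_left hmi (by positivity)
    rw [hsdef]
    unfold ss
    calc σ ^ 2 / B = σ ^ 2 * (1 / B) := by ring
      _ ≤ _ := by linarith
  have hinv : 1 / s ≤ B / σ ^ 2 := by
    have h1 := one_div_le_one_div_of_le (by positivity) hss
    rwa [one_div_div] at h1
  have hsq : Real.sqrt (N4 d L z σ m) ≤ B * S ^ 2 := by
    rw [Real.sqrt_le_left (by positivity)]
    exact hN4
  have h3 : Real.sqrt (4 * (m.im / s ^ 3)) ≤ 2 * B ^ 2 / σ ^ 3 := by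
    rw [Real.sqrt_le_left (by positivity)]
    have h4 : m.im / s ^ 3 ≤ B * (B / σ ^ 2) ^ 3 := by
      calc m.im / s ^ 3 = m.im * (1 / s) ^ 3 := by field_simp
        _ ≤ B * (B / σ ^ 2) ^ 3 := by
            have : 0 ≤ 1 / s := by positivity
            gcongr
    calc 4 * (m.im / s ^ 3) ≤ 4 * (B * (B / σ ^ 2) ^ 3) := by linarith
      _ = (2 * B ^ 2 / σ ^ 3) ^ 2 := by ring
  have hkA : kA d L z σ m ≤ 2 * B ^ 2 / σ ^ 3 * (B * S ^ 2) := by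
    unfold kA
    rw [← hsdef]
    exact mul_le_mul h3 hsq (Real.sqrt_nonneg _) (by positivity)
  have hms : m.im / s ≤ B ^ 2 / σ ^ 3 := by
    calc m.im / s = m.im * (1 / s) := by ring
      _ ≤ B * (B / σ ^ 2) := mul_le_mul hmB hinv (by positivity) hB0.le
      _ = B ^ 2 / σ ^ 2 := by ring
      _ ≤ B ^ 2 / σ ^ 3 := by
          refine div_le_div_of_nonneg_left (by positivity) (by positivity) ?_
          exact pow_le_pow_of_le_one hσ0.le hσ1 (by norm_num)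
  have hτ0 : 0 ≤ τ ^ 2 := by positivity
  have hkA0 := kA_nonneg (d := d) (L := L) (z := z) (σ := σ) (m := m)
  unfold ka
  rw [← hsdef]
  have e1 : τ ^ 2 * (τ ^ 2 * kA d L z σ m + τ ^ 2 * (m.im / s) * Real.sqrt (N4 d L z σ m)) =
      (τ ^ 2) ^ 2 * (kA d L z σ m + (m.im / s) * Real.sqrt (N4 d L z σ m)) := by ring
  rw [e1]
  calc (τ ^ 2) ^ 2 * (kA d L z σ m + (m.im / s) * Real.sqrt (N4 d L z σ m)) ≤
        (2 * σ ^ 2) ^ 2 * (2 * B ^ 2 / σ ^ 3 * (B * S ^ 2) + B ^ 2 / σ ^ 3 * (B * S ^ 2)) := by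
        gcongr
    _ = 12 * B ^ 3 * (σ * S ^ 2) := by
        field_simp
        ring

set_option maxHeartbeats 4000000 in
/-- the ladder approximation -/
theorem err_bound (h : MD d L z σ m) (μ : Measure ℝ) [IsProbabilityMeasure μ] (C τ : ℝ) (hh : ℝ → ℂ)
    (hs : Sit μ σ m C τ hh) (B k S y : ℝ) (hB : 1 ≤ B) (hσ0 : 0 < σ) (hσ1 : σ ≤ 1)
    (hmB : m.im ≤ B) (hmi : 1 / B ≤ m.im) (hC0 : 0 ≤ C) (hCB : C ≤ B) (hη1 : z.im ≤ σ ^ 2)
    (hk : σ ^ 2 ≤ k * z.im) (hk1 : 1 ≤ k) (hS1 : 1 ≤ S) (hN4 : N4 d L z σ m ≤ (B * S ^ 2) ^ 2)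
    (hτ : τ ^ 2 ≤ 2 * σ ^ 2)
    (hq : 3 / 4 * (z.im / ss z σ m) ≤ 1 - τ ^ 2 * (m.im / ss z σ m))
    (hy1 : σ * k ^ 3 * S ^ 4 ≤ y) (hy2 : σ ^ 2 * k ^ 5 * S ^ 7 ≤ y) (hy3 : 240000 * B ^ 8 * y ≤ 1)
    (hlog : Real.log (1 / σ) ≤ B * S) (p : T d L)
    (u : (T d L → ℝ) → T d L → ℂ) (hum : ∀ x, Measurable fun V => u V x)
    (hue : ∀ V x, Hz z σ V (u V) x = if x = 0 then 1 else 0) (ε : ℝ) (hε : 0 < ε) :
    ‖(z.im : ℂ) * ∑ x, e p x * ((∫ V, ‖u V x‖ ^ 2 ∂(PL (T d L) μ) : ℝ) : ℂ) -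
      z.im * (tt z σ m p / (1 - τ ^ 2 * tt z σ m p))‖ ≤
      4 * B * ε + (1 + 1 / ε) * (15000000 * B ^ 11 * y) + 1000000 * B ^ 9 * y := by
  have hss := ss_pos h
  have hmp := h.mim
  have hz := h.zim
  have hB0 : 0 < B := by linarith
  have hk0 : 0 < k := by linarith
  have hS0 : 0 < S := by linarith
  have ha := par_a h τ B S hB hσ0 hσ1 hmB hmi hS1 hN4 hτ
  have hdat := dat_torus h μ C τ hh hs
  set s := ss z σ m with hsdef
  set η := z.im with hη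
  set a := ka d L z σ m τ with hadef
  have ha0 : 0 ≤ a := hdat.a0
  -- the ratio
  set K := s / η with hK
  have hsη : η ≤ s := by
    rw [hsdef]
    unfold ss
    have : 0 ≤ σ ^ 2 * m.im := by positivity
    linarith
  have hK1 : 1 ≤ K := by
    rw [hK, le_div_iff₀ hz]
    linarith
  have hK0 : 0 < K := by linarith
  have hs2 : s ≤ 2 * B * σ ^ 2 := by
    rw [hsdef]
    unfold ss
    have h1 : σ ^ 2 * m.im ≤ σ ^ 2 * B := mul_le_mul_of_nonneg_left hmB (by positivity)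
    have h2 : σ ^ 2 ≤ B * σ ^ 2 := le_mul_of_one_le_left (by positivity) hB
    have h3 : z.im ≤ σ ^ 2 := hη1
    linarith
  have hKk : K ≤ 2 * B * k := by
    rw [hK, div_le_iff₀ hz]
    calc s ≤ 2 * B * σ ^ 2 := hs2
      _ ≤ 2 * B * (k * η) := mul_le_mul_of_nonneg_left hk (by positivity)
      _ = _ := by ring
  have hiK : η / s = 1 / K := by
    rw [hK, one_div_div]
  rw [hiK] at hq
  -- the order
  set N : ℕ := ⌈24 * B * K * S⌉₊ with hN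
  have hN1 : 24 * B * K * S ≤ N := Nat.le_ceil _
  have hN2 : (N : ℝ) ≤ 50 * B ^ 2 * (k * S) := by
    have h1 : (N : ℝ) < 24 * B * K * S + 1 := Nat.ceil_lt_add_one (by positivity)
    have h2 : 1 ≤ B * K * S := one_le_mul_of_one_le_of_one_le (one_le_mul_of_one_le_of_one_le hB hK1) hS1
    calc (N : ℝ) ≤ 25 * (B * K * S) := by linarith
      _ ≤ 25 * (B * (2 * B * k) * S) := by gcongr
      _ = _ := by ring
  have hN0 : (0 : ℝ) ≤ N := Nat.cast_nonneg N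
  -- the small quantities
  have hσy : σ ≤ y := by
    refine le_trans ?_ hy1
    have h1 : 1 ≤ k ^ 3 * S ^ 4 :=
      one_le_mul_of_one_le_of_one_le (one_le_pow₀ hk1) (one_le_pow₀ hS1)
    calc σ = σ * 1 := (mul_one _).symm
      _ ≤ σ * (k ^ 3 * S ^ 4) := mul_le_mul_of_nonneg_left h1 hσ0.le
      _ = _ := by ring
  have hy0 : 0 < y := lt_of_lt_of_le hσ0 hσy
  have hNa : (N : ℝ) ^ 2 * a * (4 * K) ≤ 240000 * B ^ 8 * y := by
    calc (N : ℝ) ^ 2 * a * (4 * K) ≤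
          (50 * B ^ 2 * (k * S)) ^ 2 * (12 * B ^ 3 * (σ * S ^ 2)) * (4 * (2 * B * k)) := by
          gcongr
      _ = 240000 * B ^ 8 * (σ * k ^ 3 * S ^ 4) := by ring
      _ ≤ _ := mul_le_mul_of_nonneg_left hy1 (by positivity)
  set ρ := 1 - 1 / (4 * K) with hρ
  have h4K : 1 / (4 * K) ≤ 1 / 4 := one_div_le_one_div_of_le (by norm_num) (by linarith)
  have h4K0 : 0 < 1 / (4 * K) := by positivity
  have hρ0 : 3 / 4 ≤ ρ := by linarith
  have hρ1 : ρ < 1 := by linarith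
  have e34 : 3 / 4 * (1 / K) = 1 / (4 * K) + 1 / (2 * K) := by
    field_simp
    ring
  have hqρ : τ ^ 2 * (m.im / s) ≤ ρ := by
    have : 0 < 1 / (2 * K) := by positivity
    linarith
  have hρq : 1 / (2 * K) ≤ ρ - τ ^ 2 * (m.im / s) := by linarith
  have hR : 1 / (1 - ρ) ≤ 4 * K := by
    have : 1 - ρ = 1 / (4 * K) := by rw [hρ]; ring
    rw [this, one_div_one_div]
  have hNN : (N : ℝ) ^ 2 * a ≤ ρ * (ρ - τ ^ 2 * (m.im / s)) := by
    have h1 : (N : ℝ) ^ 2 * a ≤ 1 / (4 * K) := by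
      rw [le_div_iff₀ (by positivity)]
      exact hNa.trans hy3
    have h2 : 1 / (4 * K) ≤ ρ * (ρ - τ ^ 2 * (m.im / s)) := by
      calc 1 / (4 * K) ≤ 3 / 4 * (1 / (2 * K)) := by
            have : 3 / 4 * (1 / (2 * K)) = 1 / (4 * K) + 1 / (8 * K) := by
              field_simp
              ring
            rw [this]
            have : 0 < 1 / (8 * K) := by positivity
            linarith
        _ ≤ _ := mul_le_mul hρ0 hρq (by positivity) (by linarith)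
    exact h1.trans h2
  have hρN : ρ ^ N ≤ σ ^ 6 := by
    have h1 : ρ ≤ Real.exp (-(1 / (4 * K))) := by
      have := Real.add_one_le_exp (-(1 / (4 * K)))
      linarith
    have h2 : ρ ^ N ≤ Real.exp (-(1 / (4 * K))) ^ N := pow_le_pow_left₀ (by linarith) h1 N
    rw [← Real.exp_nat_mul] at h2
    have h3 : (N : ℝ) * -(1 / (4 * K)) ≤ -(6 * Real.log (1 / σ)) := by
      have h4 : 6 * Real.log (1 / σ) ≤ 6 * (B * S) := by linarith
      have h5 : 6 * (B * S) ≤ N * (1 / (4 * K)) := by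
        calc 6 * (B * S) = (24 * B * K * S) * (1 / (4 * K)) := by
              field_simp
              ring
          _ ≤ _ := mul_le_mul_of_nonneg_right hN1 h4K0.le
      have h6 : (N : ℝ) * -(1 / (4 * K)) = -(N * (1 / (4 * K))) := by ring
      rw [h6]
      linarith
    refine h2.trans ((Real.exp_le_exp.2 h3).trans (le_of_eq ?_))
    rw [one_div, Real.log_inv]
    have : -(6 * -Real.log σ) = ((6 : ℕ) : ℝ) * Real.log σ := by push_cast; ring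
    rw [this, Real.exp_nat_mul, Real.exp_log hσ0]
  have hρNy : ρ ^ N ≤ y := by
    refine hρN.trans (le_trans ?_ hσy)
    calc σ ^ 6 ≤ σ ^ 1 := pow_le_pow_of_le_one hσ0.le hσ1 (by norm_num)
      _ = σ := pow_one σ
  have hρN0 : 0 ≤ ρ ^ N := pow_nonneg (by linarith) N
  -- the multiplier
  have hq1 : τ ^ 2 * (m.im / s) < 1 := by linarith
  have htn : ‖(τ : ℂ) ^ 2 * tt z σ m p‖ ≤ τ ^ 2 * (m.im / s) := by
    rw [norm_mul, norm_pow, Complex.norm_real, Real.norm_eq_abs, sq_abs]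
    exact mul_le_mul_of_nonneg_left (tt_norm h p) (by positivity)
  have h1t : 1 / (2 * K) ≤ ‖1 - (τ : ℂ) ^ 2 * tt z σ m p‖ := by
    have h1 : ‖(1 : ℂ)‖ - ‖(τ : ℂ) ^ 2 * tt z σ m p‖ ≤ ‖1 - (τ : ℂ) ^ 2 * tt z σ m p‖ :=
      norm_sub_norm_le _ _
    rw [norm_one] at h1
    linarith
  have h1t0 : 0 < ‖1 - (τ : ℂ) ^ 2 * tt z σ m p‖ := lt_of_lt_of_le (by positivity) h1t
  have ht1 : (τ : ℂ) ^ 2 * tt z σ m p ≠ 1 := by
    intro h0
    rw [h0, sub_self, norm_zero] at h1t0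
    exact lt_irrefl _ h1t0
  have hmain := abs_main μ hh (vv σ m) (Ak z σ m) (Mk z σ m) m τ (0 : T d L) C (C * σ ^ 3) (C * σ) η
    (τ ^ 2 * (m.im / s)) a (N4 d L z σ m) hdat (e p) (fun x => (e_norm p x).le) (e_zero p)
    ((τ : ℂ) ^ 2 * tt z σ m p) ht1 (htn.trans hq1.le) (ht_torus p τ) (step_torus h p τ)
    ρ (4 * K) N hqρ hρ1 hR hNN u hum (fun V x => by rw [Ak_apply]; exact hue V x) ε hε
  have hF0 : ∑ x : T d L, ‖Mk z σ m x 0‖ ^ 2 = m.im / s := by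
    unfold Mk
    simp only [sub_zero]
    rw [parseval_sq, sq_sum h]
  rw [hF0] at hmain
  have hτc : (τ : ℂ) ≠ 0 := by exact_mod_cast hs.τpos.ne'
  have hdiv : (τ : ℂ) ^ 2 * tt z σ m p / (τ ^ 2 * (1 - (τ : ℂ) ^ 2 * tt z σ m p)) =
      tt z σ m p / (1 - τ ^ 2 * tt z σ m p) := by
    rw [mul_div_mul_left]
    exact pow_ne_zero 2 hτc
  rw [hdiv] at hmain
  rw [← mul_sub, norm_mul, Complex.norm_real, Real.norm_eq_abs, abs_of_pos hz]
  refine (mul_le_mul_of_nonneg_left hmain hz.le).trans ?_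
  -- the three contributions
  have hKs : K * η = s := by rw [hK]; field_simp
  have hηF : η * (m.im / s) = m.im / K := by
    rw [hK]
    field_simp
  have c1 : η * (m.im / s) * (ε * (4 * K)) ≤ 4 * B * ε := by
    rw [hηF]
    calc m.im / K * (ε * (4 * K)) = 4 * m.im * ε := by field_simp
      _ ≤ 4 * B * ε := by gcongr
  have hη2 : 1 / η ≤ k / σ ^ 2 := by
    rw [div_le_div_iff₀ hz (by positivity)]
    linarith
  have hη20 : 0 ≤ 1 / η := by positivity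
  have hσk : σ ^ 2 * k ^ 2 ≤ y := by
    refine le_trans ?_ hy2
    have h1 : k ^ 2 ≤ k ^ 5 := pow_le_pow_right₀ hk1 (by norm_num)
    have h2 : 1 ≤ S ^ 7 := one_le_pow₀ hS1
    calc σ ^ 2 * k ^ 2 = σ ^ 2 * k ^ 2 * 1 := (mul_one _).symm
      _ ≤ σ ^ 2 * k ^ 5 * S ^ 7 := by gcongr
  have c2a : η * (m.im / s) * ((C * σ ^ 3) ^ 2 * (4 * K) / η ^ 2) ≤ 4 * B ^ 3 * y := by
    calc η * (m.im / s) * ((C * σ ^ 3) ^ 2 * (4 * K) / η ^ 2) =
          4 * m.im * C ^ 2 * σ ^ 6 * (1 / η) ^ 2 := by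
          rw [hηF]
          field_simp
      _ ≤ 4 * B * B ^ 2 * σ ^ 6 * (k / σ ^ 2) ^ 2 := by gcongr
      _ = 4 * B ^ 3 * (σ ^ 2 * k ^ 2) := by field_simp
      _ ≤ _ := by gcongr
  have c2b : η * (m.im / s) * ((C * σ) ^ 2 * ρ ^ N / η ^ 2) ≤ B ^ 3 * y := by
    have hKinv : 1 / K ≤ 1 := by
      rw [div_le_one hK0]
      exact hK1
    calc η * (m.im / s) * ((C * σ) ^ 2 * ρ ^ N / η ^ 2) =
          (1 / K) * (m.im * C ^ 2 * σ ^ 2 * ρ ^ N * (1 / η) ^ 2) := by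
          rw [hηF]
          field_simp
      _ ≤ 1 * (B * B ^ 2 * σ ^ 2 * σ ^ 6 * (k / σ ^ 2) ^ 2) := by gcongr
      _ = B ^ 3 * (σ ^ 2 * (σ ^ 2 * k ^ 2)) := by field_simp
      _ ≤ B ^ 3 * (1 * y) := by
          have : σ ^ 2 ≤ 1 := pow_le_one₀ hσ0.le hσ1
          gcongr
      _ = _ := by ring
  have hτ4 : τ ^ 4 ≤ 4 * σ ^ 4 := by
    calc τ ^ 4 = (τ ^ 2) ^ 2 := by ring
      _ ≤ (2 * σ ^ 2) ^ 2 := pow_le_pow_left₀ (by positivity) hτ 2
      _ = _ := by ring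
  have hN40 := N4_nonneg (d := d) (L := L) (z := z) (σ := σ) (m := m)
  have c2c : η * (m.im / s) * ((C * σ) ^ 2 * (τ ^ 4 * N4 d L z σ m * (2 * (N : ℝ) ^ 3 * (4 * K))) /
      η ^ 2) ≤ 4000000 * B ^ 11 * y := by
    calc η * (m.im / s) * ((C * σ) ^ 2 * (τ ^ 4 * N4 d L z σ m * (2 * (N : ℝ) ^ 3 * (4 * K))) /
          η ^ 2) = 8 * m.im * C ^ 2 * σ ^ 2 * τ ^ 4 * N4 d L z σ m * (N : ℝ) ^ 3 * (1 / η) ^ 2 := by
          rw [hηF]
          field_simp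
          ring
      _ ≤ 8 * B * B ^ 2 * σ ^ 2 * (4 * σ ^ 4) * (B * S ^ 2) ^ 2 * (50 * B ^ 2 * (k * S)) ^ 3 *
          (k / σ ^ 2) ^ 2 := by gcongr
      _ = 4000000 * B ^ 11 * (σ ^ 2 * k ^ 5 * S ^ 7) := by
          field_simp
          ring
      _ ≤ _ := by gcongr
  have c3 : η * (m.im / s) * ((ρ ^ N + a * (2 * (N : ℝ) ^ 2 * (4 * K))) /
      ‖1 - (τ : ℂ) ^ 2 * tt z σ m p‖) ≤ 1000000 * B ^ 9 * y := by
    have h1 : (ρ ^ N + a * (2 * (N : ℝ) ^ 2 * (4 * K))) / ‖1 - (τ : ℂ) ^ 2 * tt z σ m p‖ ≤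
        (y + 2 * (240000 * B ^ 8 * y)) * (2 * K) := by
      rw [div_le_iff₀ h1t0]
      have h2 : ρ ^ N + a * (2 * (N : ℝ) ^ 2 * (4 * K)) ≤ y + 2 * (240000 * B ^ 8 * y) := by
        have : a * (2 * (N : ℝ) ^ 2 * (4 * K)) = 2 * ((N : ℝ) ^ 2 * a * (4 * K)) := by ring
        rw [this]
        linarith
      have h3 : 1 ≤ (2 * K) * ‖1 - (τ : ℂ) ^ 2 * tt z σ m p‖ := by
        have := mul_le_mul_of_nonneg_left h1t (by positivity : 0 ≤ 2 * K)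
        rwa [mul_one_div_cancel (by positivity)] at this
      calc ρ ^ N + a * (2 * (N : ℝ) ^ 2 * (4 * K)) ≤ (y + 2 * (240000 * B ^ 8 * y)) * 1 := by
            rw [mul_one]
            exact h2
        _ ≤ (y + 2 * (240000 * B ^ 8 * y)) * ((2 * K) * ‖1 - (τ : ℂ) ^ 2 * tt z σ m p‖) :=
            mul_le_mul_of_nonneg_left h3 (by positivity)
        _ = _ := by ring
    have hB8 : 1 ≤ B ^ 8 := one_le_pow₀ hB
    calc η * (m.im / s) * ((ρ ^ N + a * (2 * (N : ℝ) ^ 2 * (4 * K))) /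
          ‖1 - (τ : ℂ) ^ 2 * tt z σ m p‖) ≤
          η * (m.im / s) * ((y + 2 * (240000 * B ^ 8 * y)) * (2 * K)) :=
          mul_le_mul_of_nonneg_left h1 (by positivity)
      _ = 2 * m.im * (y + 2 * (240000 * B ^ 8 * y)) := by
          rw [hηF]
          field_simp
      _ ≤ 2 * B * (B ^ 8 * y + 2 * (240000 * B ^ 8 * y)) := by
          have : y ≤ B ^ 8 * y := le_mul_of_one_le_left hy0.le hB8
          gcongr
      _ = 960002 * B ^ 9 * y := by ring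
      _ ≤ _ := by gcongr; norm_num
  have hexp : η * (m.im / s * (ε * (4 * K) + (1 + 1 / ε) * (3 * ((C * σ ^ 3) ^ 2 * (4 * K) +
      (C * σ) ^ 2 * ρ ^ N + (C * σ) ^ 2 * (τ ^ 4 * N4 d L z σ m * (2 * (N : ℝ) ^ 3 * (4 * K)))) /
        η ^ 2) + (ρ ^ N + a * (2 * (N : ℝ) ^ 2 * (4 * K))) / ‖1 - (τ : ℂ) ^ 2 * tt z σ m p‖)) =
      η * (m.im / s) * (ε * (4 * K)) + (1 + 1 / ε) * (3 * (η * (m.im / s) *
        ((C * σ ^ 3) ^ 2 * (4 * K) / η ^ 2) + η * (m.im / s) * ((C * σ) ^ 2 * ρ ^ N / η ^ 2) +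
        η * (m.im / s) * ((C * σ) ^ 2 * (τ ^ 4 * N4 d L z σ m * (2 * (N : ℝ) ^ 3 * (4 * K))) /
          η ^ 2))) + η * (m.im / s) * ((ρ ^ N + a * (2 * (N : ℝ) ^ 2 * (4 * K))) /
        ‖1 - (τ : ℂ) ^ 2 * tt z σ m p‖) := by ring
  rw [hexp]
  have hεp : 0 ≤ 1 + 1 / ε := by positivity
  have hB3 : B ^ 3 ≤ B ^ 11 := pow_le_pow_right₀ hB (by norm_num)
  have c2 : 3 * (η * (m.im / s) * ((C * σ ^ 3) ^ 2 * (4 * K) / η ^ 2) +
      η * (m.im / s) * ((C * σ) ^ 2 * ρ ^ N / η ^ 2) + η * (m.im / s) *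
      ((C * σ) ^ 2 * (τ ^ 4 * N4 d L z σ m * (2 * (N : ℝ) ^ 3 * (4 * K))) / η ^ 2)) ≤
      15000000 * B ^ 11 * y := by
    have h1 : 4 * B ^ 3 * y ≤ 4 * B ^ 11 * y := by gcongr
    have h2 : B ^ 3 * y ≤ B ^ 11 * y := by gcongr
    have h3 : 0 ≤ B ^ 11 * y := by positivity
    linarith
  have c2' := mul_le_mul_of_nonneg_left c2 hεp
  linarith

end Pool.Agent.Zk11.QD
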