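import Pool.Agent.Zk11.QD.Abs2
import Pool.Agent.Zk11.QD.Wtor

/-! The abstract estimate with general bounds. -/

set_option autoImplicit false
set_option linter.unusedSectionVars false

open scoped BigOperators
open MeasureTheory

namespace Pool.Agent.Zk11.QD

variable {Λ : Type} [Fintype Λ] [DecidableEq Λ]

/-- the residual is small -/
theorem rs_sq2 (μ : Measure ℝ) [IsProbabilityMeasure μ] (h : ℝ → ℂ) (B : ℝ) (hg : Good μ h B)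
    (v : ℝ → ℂ) (hv : Measurable v) (A M : Λ → Λ → ℂ) (m : ℂ) (τ : ℝ) (o : Λ)
    (hAM : ∀ x w, ∑ y, A x y * M y w = if x = w then 1 else 0) 
    (Z W : ℝ) (hZ : ∀ᵐ s ∂μ, ‖v s - τ * h s * (1 + m * v s)‖ ≤ Z) (hW : ∀ᵐ s ∂μ, ‖v s‖ ≤ W)
    (N : ℕ) :
    (∀ x, Integrable (fun V => ‖rs A M τ o h v N V x‖ ^ 2) (PL Λ μ)) ∧
    ∑ x, ∫ V, ‖rs A M τ o h v N V x‖ ^ 2 ∂(PL Λ μ) ≤
      3 * (Z ^ 2 * ∑ n ∈ Finset.range N, FF M τ o n + W ^ 2 * FF M τ o N +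
        W ^ 2 * ∑ n ∈ Finset.range N, ∑ x, ∑ S : Finset Λ, ‖cR M m τ o n x S‖ ^ 2) := by
  have hd : ∀ V x, rs A M τ o h v N V x =
      (v (V x) - τ * h (V x) * (1 + m * v (V x))) *
        ch h (fun S => ∑ n ∈ Finset.range N, (-1) ^ n * cB M τ o n x S) V +
      v (V x) * ch h (cB M τ o N x) V * (-1) ^ N +
      v (V x) * ch h (fun S => ∑ n ∈ Finset.range N, (-1) ^ (n + 1) * cR M m τ o n x S) V := by
    intro V x
    unfold rs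
    rw [resid A M m τ o h v hAM N V x, ch_lin h _ (fun n => (-1) ^ n) (fun n => cB M τ o n x),
      ch_lin h _ (fun n => (-1) ^ (n + 1)) (fun n => cR M m τ o n x)]
    ring
  have t1 := fun x => ch_mul_sq (Λ := Λ) μ h hg.meas B hg.one_le hg.bd hg.mean hg.var
    (fun S => ∑ n ∈ Finset.range N, (-1) ^ n * cB M τ o n x S)
    (fun s => v s - τ * h s * (1 + m * v s))
    (hv.sub ((hg.meas.const_mul _).mul ((hv.const_mul _).const_add _))) Z hZ x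
  have t2 := fun x => ch_mul_sq (Λ := Λ) μ h hg.meas B hg.one_le hg.bd hg.mean hg.var
    (cB M τ o N x) v hv W hW x
  have t3 := fun x => ch_mul_sq (Λ := Λ) μ h hg.meas B hg.one_le hg.bd hg.mean hg.var
    (fun S => ∑ n ∈ Finset.range N, (-1) ^ (n + 1) * cR M m τ o n x S) v hv W hW x
  have hle : ∀ V x, ‖rs A M τ o h v N V x‖ ^ 2 ≤
      3 * (‖(v (V x) - τ * h (V x) * (1 + m * v (V x))) *
        ch h (fun S => ∑ n ∈ Finset.range N, (-1) ^ n * cB M τ o n x S) V‖ ^ 2 +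
      ‖v (V x) * ch h (cB M τ o N x) V‖ ^ 2 +
      ‖v (V x) * ch h (fun S => ∑ n ∈ Finset.range N, (-1) ^ (n + 1) * cR M m τ o n x S) V‖ ^ 2)
      := by
    intro V x
    rw [hd]
    set a := (v (V x) - τ * h (V x) * (1 + m * v (V x))) *
        ch h (fun S => ∑ n ∈ Finset.range N, (-1) ^ n * cB M τ o n x S) V
    set b := v (V x) * ch h (cB M τ o N x) V
    set c := v (V x) * ch h (fun S => ∑ n ∈ Finset.range N, (-1) ^ (n + 1) * cR M m τ o n x S) V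
    have h1 : ‖a + b * (-1) ^ N + c‖ ≤ ‖a‖ + ‖b‖ + ‖c‖ := by
      refine (norm_add_le _ _).trans ?_
      have h2 := norm_add_le a (b * (-1) ^ N)
      have h3 : ‖b * (-1) ^ N‖ = ‖b‖ := by simp
      rw [h3] at h2
      linarith
    have h2 := pow_le_pow_left₀ (norm_nonneg _) h1 2
    refine h2.trans ?_
    nlinarith [sq_nonneg (‖a‖ - ‖b‖), sq_nonneg (‖a‖ - ‖c‖), sq_nonneg (‖b‖ - ‖c‖)]
  have hI3 : ∀ x, Integrable (fun V =>
      3 * (‖(v (V x) - τ * h (V x) * (1 + m * v (V x))) *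
        ch h (fun S => ∑ n ∈ Finset.range N, (-1) ^ n * cB M τ o n x S) V‖ ^ 2 +
      ‖v (V x) * ch h (cB M τ o N x) V‖ ^ 2 +
      ‖v (V x) * ch h (fun S => ∑ n ∈ Finset.range N, (-1) ^ (n + 1) * cR M m τ o n x S) V‖ ^ 2))
      (PL Λ μ) := fun x => (((t1 x).1.add (t2 x).1).add (t3 x).1).const_mul 3
  have hmeas : ∀ x, Measurable (fun V => rs A M τ o h v N V x) := by
    intro x
    unfold rs
    exact ((Finset.measurable_sum _ fun y _ => (ut_meas h hg.meas M τ o N y).const_mul _).add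
      ((hv.comp (measurable_pi_apply x)).mul (ut_meas h hg.meas M τ o N x))).sub measurable_const
  have hint : ∀ x, Integrable (fun V => ‖rs A M τ o h v N V x‖ ^ 2) (PL Λ μ) := by
    intro x
    refine Integrable.mono' (hI3 x) ((hmeas x).norm.pow_const 2).aestronglyMeasurable ?_
    refine Filter.Eventually.of_forall fun V => ?_
    rw [Real.norm_eq_abs, abs_of_nonneg (by positivity)]
    exact hle V x
  refine ⟨hint, ?_⟩
  have hx : ∀ x, ∫ V, ‖rs A M τ o h v N V x‖ ^ 2 ∂(PL Λ μ) ≤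
      3 * (Z ^ 2 * ∑ n ∈ Finset.range N, ∑ S : Finset Λ, ‖cB M τ o n x S‖ ^ 2 +
        W ^ 2 * ∑ S : Finset Λ, ‖cB M τ o N x S‖ ^ 2 +
        W ^ 2 * ∑ n ∈ Finset.range N, ∑ S : Finset Λ, ‖cR M m τ o n x S‖ ^ 2) := by
    intro x
    have h1 := integral_mono (hint x) (hI3 x) (fun V => hle V x)
    have h2 : ∫ V, 3 * (‖(v (V x) - τ * h (V x) * (1 + m * v (V x))) *
        ch h (fun S => ∑ n ∈ Finset.range N, (-1) ^ n * cB M τ o n x S) V‖ ^ 2 +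
      ‖v (V x) * ch h (cB M τ o N x) V‖ ^ 2 +
      ‖v (V x) * ch h (fun S => ∑ n ∈ Finset.range N, (-1) ^ (n + 1) * cR M m τ o n x S) V‖ ^ 2)
        ∂(PL Λ μ) =
      3 * (∫ V, ‖(v (V x) - τ * h (V x) * (1 + m * v (V x))) *
        ch h (fun S => ∑ n ∈ Finset.range N, (-1) ^ n * cB M τ o n x S) V‖ ^ 2 ∂(PL Λ μ) +
      ∫ V, ‖v (V x) * ch h (cB M τ o N x) V‖ ^ 2 ∂(PL Λ μ) +
      ∫ V, ‖v (V x) * ch h (fun S => ∑ n ∈ Finset.range N, (-1) ^ (n + 1) *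
        cR M m τ o n x S) V‖ ^ 2 ∂(PL Λ μ)) := by
      rw [integral_const_mul]
      congr 1
      have e1 := integral_add ((t1 x).1.add (t2 x).1) (t3 x).1
      have e2 := integral_add (t1 x).1 (t2 x).1
      simp only [Pi.add_apply] at e1
      rw [e1, e2]
    have h3 : ∑ S : Finset Λ, ‖∑ n ∈ Finset.range N, (-1 : ℂ) ^ n * cB M τ o n x S‖ ^ 2 =
        ∑ n ∈ Finset.range N, ∑ S : Finset Λ, ‖cB M τ o n x S‖ ^ 2 := by
      rw [Finset.sum_comm]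
      refine Finset.sum_congr rfl fun S _ => ?_
      exact sum_level (fun n S => cB M τ o n x S) 0
        (fun n S hS => cB_card M τ o n x S (by simpa using hS))
        (fun n => (-1) ^ n) (fun n => by simp) N S
    have h4 : ∑ S : Finset Λ, ‖∑ n ∈ Finset.range N, (-1 : ℂ) ^ (n + 1) * cR M m τ o n x S‖ ^ 2 =
        ∑ n ∈ Finset.range N, ∑ S : Finset Λ, ‖cR M m τ o n x S‖ ^ 2 := by
      rw [Finset.sum_comm]
      refine Finset.sum_congr rfl fun S _ => ?_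
      exact sum_level (fun n S => cR M m τ o n x S) 1
        (fun n S hS => cR_card M m τ o n x S hS)
        (fun n => (-1) ^ (n + 1)) (fun n => by simp) N S
    have h5 := (t1 x).2
    have h6 := (t2 x).2
    have h7 := (t3 x).2
    rw [h3] at h5
    rw [h4] at h7
    rw [h2] at h1
    linarith
  calc ∑ x, ∫ V, ‖rs A M τ o h v N V x‖ ^ 2 ∂(PL Λ μ)
      ≤ ∑ x, 3 * (Z ^ 2 * ∑ n ∈ Finset.range N, ∑ S : Finset Λ, ‖cB M τ o n x S‖ ^ 2 +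
        W ^ 2 * ∑ S : Finset Λ, ‖cB M τ o N x S‖ ^ 2 +
        W ^ 2 * ∑ n ∈ Finset.range N, ∑ S : Finset Λ, ‖cR M m τ o n x S‖ ^ 2) :=
        Finset.sum_le_sum fun x _ => hx x
    _ = 3 * (Z ^ 2 * ∑ n ∈ Finset.range N, ∑ x, ∑ S : Finset Λ, ‖cB M τ o n x S‖ ^ 2 +
        W ^ 2 * ∑ x, ∑ S : Finset Λ, ‖cB M τ o N x S‖ ^ 2 +
        W ^ 2 * ∑ n ∈ Finset.range N, ∑ x, ∑ S : Finset Λ, ‖cR M m τ o n x S‖ ^ 2) := by
        rw [← Finset.mul_sum, Finset.sum_add_distrib, Finset.sum_add_distrib, ← Finset.mul_sum,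
          ← Finset.mul_sum, ← Finset.mul_sum,
          Finset.sum_comm (f := fun x n => ∑ S : Finset Λ, ‖cB M τ o n x S‖ ^ 2),
          Finset.sum_comm (f := fun x n => ∑ S : Finset Λ, ‖cR M m τ o n x S‖ ^ 2)]
    _ ≤ _ := by
        refine mul_le_mul_of_nonneg_left (add_le_add (add_le_add ?_ ?_) le_rfl) (by norm_num)
        · exact mul_le_mul_of_nonneg_left (Finset.sum_le_sum fun n _ => cB_sum M τ o n)
            (by positivity)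
        · exact mul_le_mul_of_nonneg_left (cB_sum M τ o N) (by positivity)


/-- the data of the abstract estimate -/
structure Dat2 (μ : Measure ℝ) (h v : ℝ → ℂ) (A M : Λ → Λ → ℂ) (m : ℂ) (τ : ℝ) (o : Λ)
    (B Z W η : ℝ) : Prop where
  good : Good μ h B
  vmeas : Measurable v
  τpos : 0 < τ
  ηpos : 0 < η
  AM : ∀ x w, ∑ y, A x y * M y w = if x = w then 1 else 0
  hZ : ∀ᵐ s ∂μ, ‖v s - τ * h s * (1 + m * v s)‖ ≤ Z
  hW : ∀ᵐ s ∂μ, ‖v s‖ ≤ W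
  co : ∀ (V : Λ → ℝ) (w : Λ → ℂ), η ^ 2 * ∑ x, ‖w x‖ ^ 2 ≤
      ∑ x, ‖(∑ y, A x y * w y) + v (V x) * w x‖ ^ 2

/-- the final abstract estimate -/
theorem abs_main2 (μ : Measure ℝ) [IsProbabilityMeasure μ] (h v : ℝ → ℂ) (A M : Λ → Λ → ℂ) (m : ℂ)
    (τ : ℝ) (o : Λ) (B Z W η : ℝ) (hd : Dat2 μ h v A M m τ o B Z W η)
    (χ : Λ → ℂ) (hχ : ∀ x, ‖χ x‖ ≤ 1) (hχo : χ o = 1) (t : ℂ) (ht1 : t ≠ 1) (htq : ‖t‖ ≤ 1)
    (ht : ∀ y, ∑ x, χ x * ((τ ^ 2 * ‖M x y‖ ^ 2 : ℝ) : ℂ) = t * χ y)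
    (ρ R : ℝ) (N : ℕ) (hρ0 : 0 ≤ ρ) (hρ1 : ρ < 1) (hR : 1 / (1 - ρ) ≤ R)
    (hFb : ∀ n : ℕ, n ≤ N → FF M τ o n ≤ FF M τ o 0 * ρ ^ n) (b c : ℝ) (hb0 : 0 ≤ b) (hc0 : 0 ≤ c)
    (hstep : ∀ n : ℕ, n < N → ‖AA M τ o χ (n + 1) - t * AA M τ o χ n‖ ≤
      b * (FF M τ o 0 * ρ ^ n))
    (hCR : ∀ n : ℕ, n < N → ∑ x, ∑ S : Finset Λ, ‖cR M m τ o n x S‖ ^ 2 ≤
      c * (FF M τ o 0 * ρ ^ n))
    (u : (Λ → ℝ) → Λ → ℂ) (hum : ∀ x, Measurable fun V => u V x)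
    (hue : ∀ V x, (∑ y, A x y * u V y) + v (V x) * u V x = if x = o then 1 else 0)
    (ε : ℝ) (hε : 0 < ε) :
    ‖∑ x, χ x * ((∫ V, ‖u V x‖ ^ 2 ∂(PL Λ μ) : ℝ) : ℂ) - t / (τ ^ 2 * (1 - t))‖ ≤
      (∑ x, ‖M x o‖ ^ 2) * (ε * R + (1 + 1 / ε) * (3 * (Z ^ 2 * R + W ^ 2 * ρ ^ N +
        W ^ 2 * (c * R)) / η ^ 2) + (ρ ^ N + b * R) / ‖1 - t‖) := by
  set F0 : ℝ := ∑ x, ‖M x o‖ ^ 2 with hF0
  have hF0' : FF M τ o 0 = F0 := FF_zero M τ o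
  have hF0n : 0 ≤ F0 := by rw [← hF0']; exact FF_nonneg M τ o 0
  have hFs := sum_F (FF M τ o) ρ R (FF_nonneg M τ o 0) hρ0 hρ1 hR N hFb
  rw [hF0'] at hFs
  have hFN : FF M τ o N ≤ F0 * ρ ^ N := by
    have := hFb N le_rfl
    rwa [hF0'] at this
  have hFs' : ∑ n ∈ Finset.range N, FF M τ o n ≤ F0 * R :=
    (Finset.sum_le_sum_of_subset_of_nonneg (Finset.range_subset_range.2 (Nat.le_succ N))
      (fun _ _ _ => FF_nonneg M τ o _)).trans hFs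
  have hgeo := geom_le ρ R hρ0 hρ1 hR N
  have hgeo2 : ∀ a : ℝ, 0 ≤ a → ∑ n ∈ Finset.range N, a * (F0 * ρ ^ n) ≤ F0 * (a * R) := by
    intro a ha
    rw [← Finset.mul_sum, ← Finset.mul_sum]
    calc a * (F0 * ∑ n ∈ Finset.range N, ρ ^ n) ≤ a * (F0 * R) :=
          mul_le_mul_of_nonneg_left (mul_le_mul_of_nonneg_left hgeo hF0n) ha
      _ = _ := by ring
  rw [hF0'] at hstep hCR
  -- the residual
  obtain ⟨hi, hD⟩ := rs_sq2 μ h B hd.good v hd.vmeas A M m τ o hd.AM Z W hd.hZ hd.hW N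
  have hR0 : 0 ≤ R := le_trans (by
    have : 0 < 1 - ρ := by linarith
    positivity) hR
  have hD2 : 3 * (Z ^ 2 * ∑ n ∈ Finset.range N, FF M τ o n + W ^ 2 * FF M τ o N +
        W ^ 2 * ∑ n ∈ Finset.range N, ∑ x, ∑ S : Finset Λ, ‖cR M m τ o n x S‖ ^ 2) ≤
      F0 * (3 * (Z ^ 2 * R + W ^ 2 * ρ ^ N + W ^ 2 * (c * R))) := by
    have e2 : Z ^ 2 * ∑ n ∈ Finset.range N, FF M τ o n ≤ Z ^ 2 * (F0 * R) :=
      mul_le_mul_of_nonneg_left hFs' (by positivity)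
    have e3 : W ^ 2 * FF M τ o N ≤ W ^ 2 * (F0 * ρ ^ N) :=
      mul_le_mul_of_nonneg_left hFN (by positivity)
    have e4 : W ^ 2 * (∑ n ∈ Finset.range N, ∑ x, ∑ S : Finset Λ, ‖cR M m τ o n x S‖ ^ 2) ≤
        W ^ 2 * (F0 * (c * R)) :=
      mul_le_mul_of_nonneg_left ((Finset.sum_le_sum fun n hn =>
        hCR n (Finset.mem_range.1 hn)).trans (hgeo2 c hc0)) (by positivity)
    have e5 : F0 * (3 * (Z ^ 2 * R + W ^ 2 * ρ ^ N + W ^ 2 * (c * R))) =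
        3 * (Z ^ 2 * (F0 * R) + W ^ 2 * (F0 * ρ ^ N) + W ^ 2 * (F0 * (c * R))) := by ring
    rw [e5]
    linarith
  have hcmp := compare μ h B hd.good v A M τ o N η hd.ηpos hd.co u hum hue χ hχ _ hi
    (hD.trans hD2) ε hε
  rw [ut_mass μ h B hd.good M τ o N χ] at hcmp
  have hA := sum_A (AA M τ o χ) t (fun n => ‖AA M τ o χ (n + 1) - t * AA M τ o χ n‖) N
    (fun n => le_rfl)
  have hA0 : AA M τ o χ 0 = t / τ ^ 2 := by
    have e1 := ht o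
    rw [hχo, mul_one] at e1
    rw [AA_zero, ← e1]
    have hτ : (τ : ℂ) ^ 2 ≠ 0 := by
      have := hd.τpos
      exact pow_ne_zero 2 (by exact_mod_cast this.ne')
    rw [eq_div_iff hτ, Finset.sum_mul]
    refine Finset.sum_congr rfl fun x _ => ?_
    push_cast
    ring
  have h1t : (1 - t) ≠ 0 := sub_ne_zero.2 (Ne.symm ht1)
  have h1tp : 0 < ‖1 - t‖ := norm_pos_iff.2 h1t
  have hA2 : ‖∑ n ∈ Finset.range (N + 1), AA M τ o χ n - t / (τ ^ 2 * (1 - t))‖ ≤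
      F0 * ((ρ ^ N + b * R) / ‖1 - t‖) := by
    have e1 : ∑ n ∈ Finset.range (N + 1), AA M τ o χ n - t / (τ ^ 2 * (1 - t)) =
        ((1 - t) * ∑ n ∈ Finset.range (N + 1), AA M τ o χ n - AA M τ o χ 0) / (1 - t) := by
      rw [hA0]
      field_simp
    rw [e1, norm_div, mul_div_assoc', div_le_div_iff_of_pos_right h1tp]
    refine hA.trans ?_
    have e2 : ‖t‖ * ‖AA M τ o χ N‖ ≤ F0 * ρ ^ N := by
      calc ‖t‖ * ‖AA M τ o χ N‖ ≤ 1 * FF M τ o N :=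
            mul_le_mul htq (AA_norm_le M τ o χ hχ N) (norm_nonneg _) (by norm_num)
        _ ≤ _ := by rw [one_mul]; exact hFN
    have e3 : ∑ n ∈ Finset.range N, ‖AA M τ o χ (n + 1) - t * AA M τ o χ n‖ ≤ F0 * (b * R) :=
      (Finset.sum_le_sum fun n hn => hstep n (Finset.mem_range.1 hn)).trans (hgeo2 b hb0)
    have e4 : F0 * (ρ ^ N + b * R) = F0 * ρ ^ N + F0 * (b * R) := by ring
    rw [e4]
    exact add_le_add e2 e3
  have hfin : ‖∑ x, χ x * ((∫ V, ‖u V x‖ ^ 2 ∂(PL Λ μ) : ℝ) : ℂ) - t / (τ ^ 2 * (1 - t))‖ ≤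
      (ε * ∑ n ∈ Finset.range (N + 1), FF M τ o n + (1 + 1 / ε) *
        (F0 * (3 * (Z ^ 2 * R + W ^ 2 * ρ ^ N + W ^ 2 * (c * R))) / η ^ 2)) +
      F0 * ((ρ ^ N + b * R) / ‖1 - t‖) := by
    have e1 : ∑ x, χ x * ((∫ V, ‖u V x‖ ^ 2 ∂(PL Λ μ) : ℝ) : ℂ) - t / (τ ^ 2 * (1 - t)) =
        (∑ x, χ x * ((∫ V, ‖u V x‖ ^ 2 ∂(PL Λ μ) : ℝ) : ℂ) -
          ∑ n ∈ Finset.range (N + 1), AA M τ o χ n) +
        (∑ n ∈ Finset.range (N + 1), AA M τ o χ n - t / (τ ^ 2 * (1 - t))) := by ring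
    rw [e1]
    exact (norm_add_le _ _).trans (add_le_add hcmp hA2)
  refine hfin.trans ?_
  have e5 : ε * ∑ n ∈ Finset.range (N + 1), FF M τ o n ≤ ε * (F0 * R) :=
    mul_le_mul_of_nonneg_left hFs hε.le
  have e6 : F0 * (ε * R + (1 + 1 / ε) * (3 * (Z ^ 2 * R + W ^ 2 * ρ ^ N +
        W ^ 2 * (c * R)) / η ^ 2) + (ρ ^ N + b * R) / ‖1 - t‖) =
      (ε * (F0 * R) + (1 + 1 / ε) *
        (F0 * (3 * (Z ^ 2 * R + W ^ 2 * ρ ^ N + W ^ 2 * (c * R))) / η ^ 2)) +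
      F0 * ((ρ ^ N + b * R) / ‖1 - t‖) := by ring
  rw [e6]
  linarith

end Pool.Agent.Zk11.QD
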