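import Pool.Agent.Zk11.QD.Dec
import Pool.Agent.Zk11.QD.Main2
import Pool.Agent.Zk11.QD.Err

/-! The error in the ladder approximation on the torus, improved. -/

set_option autoImplicit false
set_option linter.unusedSectionVars false

open scoped BigOperators Topology ENNReal
open MeasureTheory Filter

namespace Pool.Agent.Zk11.QD

open Pool.Agent.W788.MFP.Four (T e NN adj adj_neg e_comm e_add_left e_add e_zero e_neg e_neg_left
  e_normSq sum_e NN_pos card_T e_single)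

variable {d L : ℕ} [NeZero L] {z : ℂ} {σ : ℝ} {m : ℂ}

/-- the parameters -/
structure Pr (d L : ℕ) [NeZero L] (z : ℂ) (σ : ℝ) (m : ℂ) (τ B k S g y : ℝ) : Prop where
  hd : 3 ≤ d
  md : MD d L z σ m
  B1 : 1 ≤ B
  k1 : 1 ≤ k
  S1 : 1 ≤ S
  g0 : 0 < g
  g1 : g ≤ 1
  gσ : σ = g ^ 6
  mB : m.im ≤ B
  mi : 1 / B ≤ m.im
  η1 : z.im ≤ σ ^ 2
  hk : σ ^ 2 ≤ k * z.im
  N4 : N4 d L z σ m ≤ (B * S ^ 2) ^ 2
  hτ : τ ^ 2 ≤ 2 * σ ^ 2
  hq : 3 / 4 * (z.im / ss z σ m) ≤ 1 - τ ^ 2 * (m.im / ss z σ m)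
  y1 : k * g ^ 3 * S ^ 3 ≤ y
  y2 : 10 ^ 25 * B ^ 15 * y ≤ 1
  lg : Real.log (1 / σ) ≤ B * S
  L1 : 13 * (1 + (1 / z.im) ^ 4 + (1 / z.im) ^ 4) ^ 2 ≤ (L : ℝ)

variable {τ B k S g y : ℝ}

theorem Pr.B0 (h : Pr d L z σ m τ B k S g y) : 0 < B := by linarith [h.B1]
theorem Pr.k0 (h : Pr d L z σ m τ B k S g y) : 0 < k := by linarith [h.k1]
theorem Pr.S0 (h : Pr d L z σ m τ B k S g y) : 0 < S := by linarith [h.S1]

theorem Pr.y0 (h : Pr d L z σ m τ B k S g y) : 0 < y := by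
  have h1 := h.g0
  have h2 := h.k0
  have h3 := h.S0
  exact lt_of_lt_of_le (by positivity) h.y1

theorem Pr.yle (h : Pr d L z σ m τ B k S g y) : y ≤ 1 := by
  have h1 := h.y2
  have h2 := h.y0
  have h3 : 1 ≤ 10 ^ 25 * B ^ 15 := by
    have := one_le_pow₀ h.B1 (n := 15)
    linarith
  have := mul_le_mul_of_nonneg_right h3 h2.le
  linarith

theorem Pr.σ0 (h : Pr d L z σ m τ B k S g y) : 0 < σ := by
  rw [h.gσ]
  exact pow_pos h.g0 6

theorem Pr.σ1 (h : Pr d L z σ m τ B k S g y) : σ ≤ 1 := by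
  rw [h.gσ]
  exact pow_le_one₀ h.g0.le h.g1

theorem Pr.ssl (h : Pr d L z σ m τ B k S g y) : σ ^ 2 / B ≤ ss z σ m := by
  have h1 : σ ^ 2 * (1 / B) ≤ σ ^ 2 * m.im := mul_le_mul_of_nonneg_left h.mi (by positivity)
  have h2 := h.md.zim
  unfold ss
  calc σ ^ 2 / B = σ ^ 2 * (1 / B) := by ring
    _ ≤ _ := by linarith

theorem Pr.ssu (h : Pr d L z σ m τ B k S g y) : ss z σ m ≤ 2 * B * σ ^ 2 := by
  unfold ss
  have h1 : σ ^ 2 * m.im ≤ σ ^ 2 * B := mul_le_mul_of_nonneg_left h.mB (by positivity)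
  have h2 : σ ^ 2 ≤ B * σ ^ 2 := le_mul_of_one_le_left (by positivity) h.B1
  have h3 := h.η1
  linarith

/-- powers of `g` against `y` -/
theorem Pr.pw (h : Pr d L z σ m τ B k S g y) (i j l n : ℕ) (hi : i ≤ n) (hj : 3 * n ≤ j)
    (hl : l ≤ 3 * n) (hn : 1 ≤ n) : k ^ i * g ^ j * S ^ l ≤ y := by
  have hg := h.g0
  have hk := h.k0
  have hS := h.S0
  calc k ^ i * g ^ j * S ^ l ≤ k ^ n * g ^ (3 * n) * S ^ (3 * n) := by
        have e1 : k ^ i ≤ k ^ n := pow_le_pow_right₀ h.k1 hi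
        have e2 : g ^ j ≤ g ^ (3 * n) := pow_le_pow_of_le_one hg.le h.g1 hj
        have e3 : S ^ l ≤ S ^ (3 * n) := pow_le_pow_right₀ h.S1 hl
        gcongr
    _ = (k * g ^ 3 * S ^ 3) ^ n := by
        rw [mul_pow, mul_pow, ← pow_mul, ← pow_mul]
    _ ≤ y ^ n := pow_le_pow_left₀ (by positivity) h.y1 n
    _ ≤ y := pow_le_of_le_one h.y0.le h.yle (by omega)

theorem Pr.sle (h : Pr d L z σ m τ B k S g y) : ss z σ m ≤ 1 := by
  have h1 := h.ssu
  have h2 := h.pw 0 12 0 1 (by norm_num) (by norm_num) (by norm_num) (by norm_num)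
  rw [pow_zero, pow_zero, one_mul, mul_one] at h2
  have h3 : σ ^ 2 = g ^ 12 := by rw [h.gσ]; ring
  have h4 := h.y2
  have h5 : B ≤ B ^ 15 := by
    calc B = B ^ 1 := (pow_one B).symm
      _ ≤ B ^ 15 := pow_le_pow_right₀ h.B1 (by norm_num)
  have hB := h.B0
  have hy := h.y0
  rw [h3] at h1
  calc ss z σ m ≤ 2 * B * g ^ 12 := h1
    _ ≤ 2 * B ^ 15 * y := by gcongr
    _ ≤ 10 ^ 25 * B ^ 15 * y := by
        have : 0 ≤ B ^ 15 * y := by positivity
        linarith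
    _ ≤ 1 := h4

/-- the multiplier away from the origin -/
theorem Pr.big (h : Pr d L z σ m τ B k S g y) (p : T d L) (a : Fin d)
    (ha : g ^ 20 / 2 ≤ 1 - co (p a)) : ‖(τ : ℂ) ^ 2 * tt z σ m p‖ ≤ 2 * 10 ^ 5 * B ^ 2 * S * g := by
  have hg := h.g0
  have hB := h.B0
  have hS := h.S0
  have hB1 := h.B1
  have hS1 := h.S1
  have hs := ss_pos h.md
  have hsl := h.ssl
  have hz := h.md.zim
  set s := ss z σ m with hsd
  have hs1 : s ≤ 1 := h.sle
  have hzs : z.im ≤ s := by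
    rw [hsd]
    unfold ss
    have := h.md.mim
    have : 0 ≤ σ ^ 2 * m.im := by positivity
    linarith
  have hL : 13 * (1 + (1 / s) ^ 4 + (1 / s) ^ 4) ^ 2 ≤ (L : ℝ) := by
    refine le_trans ?_ h.L1
    have : 1 / s ≤ 1 / z.im := one_div_le_one_div_of_le hz hzs
    gcongr
  have hG : 1 / (2 * ((1 / g ^ 5) ^ 4)) ≤ 1 - co (p a) := by
    refine le_trans (le_of_eq ?_) ha
    field_simp
  have h1 := tt_dec h.hd h.md s hs hs1 le_rfl hL p a (1 / g ^ 5) (by positivity) hG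
  have hσ2 : σ ^ 2 = g ^ 12 := by rw [h.gσ]; ring
  have h2 : 3 / Real.sqrt s ≤ 3 * B / g ^ 6 := by
    have e1 : g ^ 6 / B ≤ Real.sqrt s := by
      apply Real.le_sqrt_of_sq_le
      calc (g ^ 6 / B) ^ 2 = σ ^ 2 / B / B := by rw [hσ2]; field_simp
        _ ≤ σ ^ 2 / B / 1 := by
            refine div_le_div_of_nonneg_left (by positivity) (by norm_num) hB1
        _ ≤ s := by rw [div_one]; exact hsl
    calc 3 / Real.sqrt s ≤ 3 / (g ^ 6 / B) := div_le_div_of_nonneg_left (by norm_num) (by positivity) e1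
      _ = _ := by field_simp
  have hinv : 1 / s ≤ B / σ ^ 2 := by
    have h1 := one_div_le_one_div_of_le (by have := h.σ0; positivity) hsl
    rwa [one_div_div] at h1
  have h3 : 2 * Real.log (1 + (1 / s) ^ 4) + 1 ≤ 33 * (B * S) := by
    have e1 : Real.log (1 + (1 / s) ^ 4) ≤ 4 * (1 + Real.log (1 / s)) :=
      log_bd (L := L) h.hd (z + (σ : ℂ) ^ 2 * m) s hs hs1 (by rw [w_im]) hL
    have e2 : Real.log (1 / s) ≤ 3 * (B * S) := by
      have e3 : Real.log (1 / s) ≤ Real.log (B / σ ^ 2) :=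
        Real.log_le_log (by positivity) hinv
      have e4 : Real.log (B / σ ^ 2) = Real.log B + 2 * Real.log (1 / σ) := by
        have hσ := h.σ0
        rw [Real.log_div hB.ne' (by positivity), Real.log_pow, one_div, Real.log_inv]
        push_cast
        ring
      have e5 : Real.log B ≤ B := (Real.log_le_sub_one_of_pos hB).trans (by linarith)
      have e6 : B ≤ B * S := le_mul_of_one_le_right hB.le hS1
      have e7 := h.lg
      linarith
    have e3 : 1 ≤ B * S := one_le_mul_of_one_le_of_one_le hB1 hS1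
    linarith
  have hlog0 : 0 ≤ 2 * Real.log (1 + (1 / s) ^ 4) + 1 := by
    have : 0 ≤ Real.log (1 + (1 / s) ^ 4) := Real.log_nonneg (by
      have : 0 ≤ (1 / s) ^ 4 := by positivity
      linarith)
    linarith
  have h4 : ‖tt z σ m p‖ ≤ 10 ^ 5 * B ^ 2 * S / g ^ 11 := by
    refine h1.trans ?_
    have e1 : 1000 * (1 / g ^ 5) * (3 / Real.sqrt s) * (2 * Real.log (1 + (1 / s) ^ 4) + 1) ≤
        1000 * (1 / g ^ 5) * (3 * B / g ^ 6) * (33 * (B * S)) := by gcongr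
    have e2 : 1000 * (1 / g ^ 5) * (3 * B / g ^ 6) * (33 * (B * S)) =
        99000 * B ^ 2 * S / g ^ 11 := by
      field_simp
      ring
    have e3 : 2 * s ≤ 1000 * B ^ 2 * S / g ^ 11 := by
      rw [le_div_iff₀ (by positivity)]
      have e4 : g ^ 11 ≤ 1 := pow_le_one₀ hg.le h.g1
      have e5 : 1 ≤ B ^ 2 * S := one_le_mul_of_one_le_of_one_le (one_le_pow₀ hB1) hS1
      calc 2 * s * g ^ 11 ≤ 2 * 1 * 1 := by gcongr
        _ ≤ 1000 * (B ^ 2 * S) := by linarith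
        _ = _ := by ring
    calc _ ≤ 99000 * B ^ 2 * S / g ^ 11 + 1000 * B ^ 2 * S / g ^ 11 := by linarith
      _ = _ := by ring
  rw [norm_mul, norm_pow, Complex.norm_real, Real.norm_eq_abs, sq_abs]
  have hτ := h.hτ
  rw [hσ2] at hτ
  calc τ ^ 2 * ‖tt z σ m p‖ ≤ 2 * g ^ 12 * (10 ^ 5 * B ^ 2 * S / g ^ 11) := by gcongr
    _ = _ := by field_simp

/-- the data of the chain -/
theorem Pr.ch (h : Pr d L z σ m τ B k S g y) :
    Ch d L z σ m τ (2 * B * S ^ 2 * g ^ 12) (2 * 10 ^ 5 * B ^ 2 * S * g) (g ^ 15) := by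
  classical
  have hg := h.g0
  have hB := h.B0
  have hS := h.S0
  have hs := ss_pos h.md
  have hz := h.md.zim
  refine ⟨h.md, ?_, by positivity, ?_, by positivity, by positivity, ?_⟩
  · have h1 := h.hq
    have h2 : 0 ≤ z.im / ss z σ m := by positivity
    linarith
  · have h1 := h.N4
    have h2 : τ ^ 4 ≤ (2 * σ ^ 2) ^ 2 := by
      calc τ ^ 4 = (τ ^ 2) ^ 2 := by ring
        _ ≤ (2 * σ ^ 2) ^ 2 := pow_le_pow_left₀ (by positivity) h.hτ 2
    calc τ ^ 4 * QD.N4 d L z σ m ≤ (2 * σ ^ 2) ^ 2 * (B * S ^ 2) ^ 2 :=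
          mul_le_mul h2 h1 N4_nonneg (by positivity)
      _ = _ := by rw [h.gσ]; ring
  · have hL := h.L1
    have hzσ : z.im ≤ g ^ 12 := by
      have := h.η1
      rw [h.gσ] at this
      calc z.im ≤ (g ^ 6) ^ 2 := this
        _ = _ := by ring
    have h1 : 4 ≤ g ^ 10 * L := by
      have e1 : 1 / g ^ 12 ≤ 1 / z.im := one_div_le_one_div_of_le hz hzσ
      have e2 : 1 ≤ 1 / g ^ 12 := by
        rw [le_div_iff₀ (by positivity), one_mul]
        exact pow_le_one₀ hg.le h.g1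
      have e3 : (1 / g ^ 12) ≤ (1 / z.im) ^ 4 := by
        calc (1 / g ^ 12) = (1 / g ^ 12) ^ 1 := (pow_one _).symm
          _ ≤ (1 / g ^ 12) ^ 4 := pow_le_pow_right₀ e2 (by norm_num)
          _ ≤ (1 / z.im) ^ 4 := by gcongr
      have e4 : 4 * (1 / g ^ 12) ≤ L := by
        refine le_trans ?_ hL
        have e5 : 1 ≤ 1 + (1 / z.im) ^ 4 + (1 / z.im) ^ 4 := by
          have : 0 ≤ (1 / z.im) ^ 4 := by positivity
          linarith
        have e6 : 1 + (1 / z.im) ^ 4 + (1 / z.im) ^ 4 ≤ (1 + (1 / z.im) ^ 4 + (1 / z.im) ^ 4) ^ 2 :=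
          by
          calc _ = (1 + (1 / z.im) ^ 4 + (1 / z.im) ^ 4) ^ 1 := (pow_one _).symm
            _ ≤ _ := pow_le_pow_right₀ e5 (by norm_num)
        linarith
      have e5 : 4 * (1 / g ^ 12) * g ^ 12 ≤ g ^ 10 * L := by
        calc 4 * (1 / g ^ 12) * g ^ 12 ≤ L * g ^ 12 := mul_le_mul_of_nonneg_right e4 (by positivity)
          _ ≤ L * g ^ 10 := by
              refine mul_le_mul_of_nonneg_left ?_ (by positivity)
              exact pow_le_pow_of_le_one hg.le h.g1 (by norm_num)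
          _ = _ := mul_comm _ _
      have e6 : 4 * (1 / g ^ 12) * g ^ 12 = 4 := by field_simp
      linarith
    have h2 := small_count (d := d) (L := L) (g ^ 10) (by positivity) h1
    have h3 : (g ^ 10) ^ d ≤ (g ^ 15) ^ 2 := by
      calc (g ^ 10) ^ d ≤ (g ^ 10) ^ 3 :=
            pow_le_pow_of_le_one (by positivity) (pow_le_one₀ hg.le h.g1) h.hd
        _ = (g ^ 15) ^ 2 := by ring
    refine le_trans ?_ (h2.trans h3)
    refine mul_le_mul_of_nonneg_left ?_ (inv_nonneg.2 NN_pos.le)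
    have h4 : (Finset.univ.filter fun p : T d L => 2 * 10 ^ 5 * B ^ 2 * S * g <
        ‖(τ : ℂ) ^ 2 * tt z σ m p‖).card ≤
        (Finset.univ.filter fun p : T d L => ∀ i, 1 - co (p i) < (g ^ 10) ^ 2 / 2).card := by
      refine Finset.card_le_card fun p hp => ?_
      rw [Finset.mem_filter] at hp ⊢
      refine ⟨hp.1, fun i => ?_⟩
      by_contra hcon
      have h5 := h.big p i (by
        have := not_lt.1 hcon
        calc g ^ 20 / 2 = (g ^ 10) ^ 2 / 2 := by ring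
          _ ≤ _ := this)
      exact absurd hp.2 (not_lt.2 h5)
    exact_mod_cast h4

end Pool.Agent.Zk11.QD
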