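import Pool.Agent.Zk11.QD.Tor

/-! Expansion of the ladder multiplier for small momenta. -/

set_option autoImplicit false
set_option linter.unusedSectionVars false

open scoped BigOperators
open MeasureTheory

namespace Pool.Agent.Zk11.QD

open Pool.Agent.W788.MFP.Four (T e NN adj adj_neg e_comm e_add_left e_add e_zero e_neg e_neg_left
  e_normSq sum_e NN_pos card_T e_single)

variable {d L : ℕ} [NeZero L] {z : ℂ} {σ : ℝ} {m : ℂ}

/-- cosine and sine of a torus momentum -/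
noncomputable def co (q : ZMod L) : ℝ := (ZMod.stdAddChar q : ℂ).re
noncomputable def si (q : ZMod L) : ℝ := (ZMod.stdAddChar q : ℂ).im

theorem co_si (q : ZMod L) : co q ^ 2 + si q ^ 2 = 1 := by
  have h : ‖(ZMod.stdAddChar q : ℂ)‖ = 1 := by
    rw [ZMod.stdAddChar_apply]
    exact Circle.norm_coe _
  have h2 := Complex.normSq_eq_norm_sq (ZMod.stdAddChar q : ℂ)
  rw [h, Complex.normSq_apply] at h2
  unfold co si
  nlinarith

theorem co_sub (p q : ZMod L) : co (p - q) = co p * co q + si p * si q := by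
  unfold co si
  rw [sub_eq_add_neg, AddChar.map_add_eq_mul, Complex.mul_re]
  have h : (ZMod.stdAddChar (-q) : ℂ) = (starRingEnd ℂ) (ZMod.stdAddChar q) := by
    rw [ZMod.stdAddChar_apply, ZMod.stdAddChar_apply, AddChar.map_neg_eq_inv,
      Circle.coe_inv_eq_conj]
  rw [h, Complex.conj_re, Complex.conj_im]
  ring

theorem co_neg (q : ZMod L) : co (-q) = co q := by
  have h : (ZMod.stdAddChar (-q) : ℂ) = (starRingEnd ℂ) (ZMod.stdAddChar q) := by
    rw [ZMod.stdAddChar_apply, ZMod.stdAddChar_apply, AddChar.map_neg_eq_inv,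
      Circle.coe_inv_eq_conj]
  unfold co
  rw [h, Complex.conj_re]

theorem si_neg (q : ZMod L) : si (-q) = -si q := by
  have h : (ZMod.stdAddChar (-q) : ℂ) = (starRingEnd ℂ) (ZMod.stdAddChar q) := by
    rw [ZMod.stdAddChar_apply, ZMod.stdAddChar_apply, AddChar.map_neg_eq_inv,
      Circle.coe_inv_eq_conj]
  unfold si
  rw [h, Complex.conj_im]

theorem co_add (p q : ZMod L) : co (p + q) = co p * co q - si p * si q := by
  have h := co_sub p (-q)
  rw [sub_neg_eq_add, co_neg, si_neg] at h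
  rw [h]
  ring

theorem aa_eq (k : T d L) : aa k = ∑ i, (2 - 2 * co (k i)) := by
  unfold aa adj co
  rw [Finset.sum_sub_distrib]
  simp
  ring

theorem aa_neg (k : T d L) : aa (-k) = aa k := by unfold aa; rw [adj_neg]

/-- the size of a momentum -/
noncomputable def pp (p : T d L) : ℝ := ∑ i, (2 - 2 * co (p i))

theorem co_le (q : ZMod L) : |co q| ≤ 1 := by
  have := co_si q
  rw [← Real.sqrt_sq_eq_abs, Real.sqrt_le_one]
  nlinarith [sq_nonneg (si q)]

theorem si_le (q : ZMod L) : |si q| ≤ 1 := by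
  have := co_si q
  rw [← Real.sqrt_sq_eq_abs, Real.sqrt_le_one]
  nlinarith [sq_nonneg (co q)]

theorem pp_nonneg (p : T d L) : 0 ≤ pp p :=
  Finset.sum_nonneg fun i _ => by linarith [(abs_le.1 (co_le (p i))).2]

/-- the difference of the symbols -/
noncomputable def Dl (p k : T d L) : ℝ := aa k - aa (k - p)

/-- the velocity part -/
noncomputable def Av (p k : T d L) : ℝ := ∑ i, 2 * si (k i) * si (p i)

/-- the remainder -/
noncomputable def Bv (p k : T d L) : ℝ := -∑ i, 2 * co (k i) * (1 - co (p i))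

theorem Dl_eq (p k : T d L) : Dl p k = Av p k + Bv p k := by
  unfold Dl Av Bv
  rw [aa_eq, aa_eq, ← Finset.sum_sub_distrib, ← Finset.sum_neg_distrib, ← Finset.sum_add_distrib]
  refine Finset.sum_congr rfl fun i _ => ?_
  rw [Pi.sub_apply, co_sub]
  ring

theorem Bv_le (p k : T d L) : |Bv p k| ≤ pp p := by
  unfold Bv pp
  rw [abs_neg]
  refine (Finset.abs_sum_le_sum_abs _ _).trans (Finset.sum_le_sum fun i _ => ?_)
  have h1 := co_le (k i)
  have h2 : 0 ≤ 1 - co (p i) := by linarith [(abs_le.1 (co_le (p i))).2]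
  rw [abs_mul, abs_mul, abs_of_nonneg h2, abs_two]
  nlinarith

theorem Av_le (p k : T d L) : |Av p k| ≤ 2 * Real.sqrt (d * pp p) := by
  have h1 : |Av p k| ≤ 2 * ∑ i, |si (p i)| := by
    unfold Av
    rw [Finset.mul_sum]
    refine (Finset.abs_sum_le_sum_abs _ _).trans (Finset.sum_le_sum fun i _ => ?_)
    rw [abs_mul, abs_mul, abs_two]
    have := si_le (k i)
    nlinarith [abs_nonneg (si (p i))]
  have h2 : (∑ i, |si (p i)|) ^ 2 ≤ d * pp p := by
    have h3 : (∑ i, |si (p i)|) ^ 2 ≤ (Finset.univ : Finset (Fin d)).card * ∑ i, |si (p i)| ^ 2 :=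
      sq_sum_le_card_mul_sum_sq
    refine h3.trans ?_
    rw [Finset.card_univ, Fintype.card_fin]
    refine mul_le_mul_of_nonneg_left ?_ (by positivity)
    unfold pp
    refine Finset.sum_le_sum fun i _ => ?_
    rw [sq_abs]
    have h4 := co_si (p i)
    nlinarith [sq_nonneg (1 - co (p i))]
  have h3 := Real.le_sqrt_of_sq_le h2
  linarith

theorem Dl_le (p k : T d L) (hp : pp p ≤ 1) : |Dl p k| ≤ 3 * d * Real.sqrt (pp p) := by
  rw [Dl_eq]
  have h0 := pp_nonneg p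
  refine (abs_add_le _ _).trans ?_
  have h1 := Av_le p k
  have h2 := Bv_le p k
  rcases Nat.eq_zero_or_pos d with hd | hd
  · subst hd
    unfold Av Bv
    simp
  have hd1 : (1 : ℝ) ≤ d := by exact_mod_cast hd
  have h3 : Real.sqrt (d * pp p) ≤ d * Real.sqrt (pp p) := by
    rw [Real.sqrt_mul (by positivity)]
    refine mul_le_mul_of_nonneg_right ?_ (Real.sqrt_nonneg _)
    rw [Real.sqrt_le_left (by positivity)]
    nlinarith
  have h4 : pp p ≤ Real.sqrt (pp p) := by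
    have h5 := Real.sq_sqrt h0
    have h6 : Real.sqrt (pp p) ≤ 1 := Real.sqrt_le_one.2 hp
    nlinarith [Real.sqrt_nonneg (pp p)]
  nlinarith [Real.sqrt_nonneg (pp p)]

theorem Dsq_le (p k : T d L) (hp : pp p ≤ 1) :
    |Dl p k ^ 2 - Av p k ^ 2| ≤ 5 * d * (pp p * Real.sqrt (pp p)) := by
  have h0 := pp_nonneg p
  rw [Dl_eq]
  have e1 : (Av p k + Bv p k) ^ 2 - Av p k ^ 2 = Bv p k * (2 * Av p k + Bv p k) := by ring
  rw [e1, abs_mul]
  have h1 := Av_le p k
  have h2 := Bv_le p k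
  rcases Nat.eq_zero_or_pos d with hd | hd
  · subst hd
    unfold Av Bv
    simp
  have hd1 : (1 : ℝ) ≤ d := by exact_mod_cast hd
  have h3 : Real.sqrt (d * pp p) ≤ d * Real.sqrt (pp p) := by
    rw [Real.sqrt_mul (by positivity)]
    refine mul_le_mul_of_nonneg_right ?_ (Real.sqrt_nonneg _)
    rw [Real.sqrt_le_left (by positivity)]
    nlinarith
  have h4 : pp p ≤ Real.sqrt (pp p) := by
    have h5 := Real.sq_sqrt h0
    have h6 : Real.sqrt (pp p) ≤ 1 := Real.sqrt_le_one.2 hp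
    nlinarith [Real.sqrt_nonneg (pp p)]
  have h5 : |2 * Av p k + Bv p k| ≤ 5 * d * Real.sqrt (pp p) := by
    refine (abs_add_le _ _).trans ?_
    rw [abs_mul, abs_two]
    nlinarith [Real.sqrt_nonneg (pp p)]
  calc |Bv p k| * |2 * Av p k + Bv p k| ≤ pp p * (5 * d * Real.sqrt (pp p)) :=
        mul_le_mul h2 h5 (abs_nonneg _) h0
    _ = _ := by ring

theorem Mh_neg (k : T d L) : Mh z σ m (-k) = Mh z σ m k := by
  unfold Mh Dn
  rw [aa_neg]

/-- shifting and reflecting -/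
theorem shift_sum (F : ℝ → ℂ) (p : T d L) :
    ∑ k : T d L, F (Dl p k) * Mh z σ m (k - p) = ∑ k : T d L, F (-Dl p k) * Mh z σ m k := by
  rw [← Equiv.sum_comp (Equiv.addRight p) (fun k => F (Dl p k) * Mh z σ m (k - p)),
    ← Equiv.sum_comp (Equiv.neg (T d L))]
  refine Finset.sum_congr rfl fun k _ => ?_
  rw [Equiv.neg_apply, Equiv.coe_addRight]
  have h1 : -k + p - p = -k := by abel
  have h2 : aa (-k + p) = aa (k - p) := by
    rw [← aa_neg (k - p)]
    congr 1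
    abel
  unfold Dl
  rw [h1, h2, aa_neg, Mh_neg]
  congr 2
  ring

theorem avg_norm_le (h : MD d L z σ m) :
    (NN d L)⁻¹ * ∑ k : T d L, ‖Mh z σ m k‖ ≤ Real.sqrt (m.im / ss z σ m) := by
  apply Real.le_sqrt_of_sq_le
  have hN := NN_pos (d := d) (L := L)
  have h1 : (∑ k : T d L, ‖Mh z σ m k‖) ^ 2 ≤
      (Finset.univ : Finset (T d L)).card * ∑ k : T d L, ‖Mh z σ m k‖ ^ 2 :=
    sq_sum_le_card_mul_sum_sq
  rw [Finset.card_univ, card_T] at h1
  rw [← sq_sum h, mul_pow]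
  calc ((NN d L)⁻¹) ^ 2 * (∑ k : T d L, ‖Mh z σ m k‖) ^ 2 ≤
        ((NN d L)⁻¹) ^ 2 * (NN d L * ∑ k : T d L, ‖Mh z σ m k‖ ^ 2) :=
        mul_le_mul_of_nonneg_left h1 (by positivity)
    _ = _ := by field_simp

/-- the weight of the squared velocity -/
noncomputable def Qv (d L : ℕ) [NeZero L] (z : ℂ) (σ : ℝ) (m : ℂ) (i : Fin d) : ℝ :=
  (NN d L)⁻¹ * ∑ k : T d L, 4 * si (k i) ^ 2 * (Mh z σ m k).im

/-- reflecting one coordinate -/
def refl1 (i : Fin d) : T d L ≃ T d L :=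
  Equiv.piCongrRight fun j => if j = i then Equiv.neg (ZMod L) else Equiv.refl (ZMod L)

theorem refl1_same (i : Fin d) (k : T d L) : (refl1 i k) i = -k i := by
  simp [refl1]

theorem refl1_ne (i j : Fin d) (h : j ≠ i) (k : T d L) : (refl1 i k) j = k j := by
  simp [refl1, h]

theorem aa_refl (i : Fin d) (k : T d L) : aa (refl1 i k) = aa k := by
  rw [aa_eq, aa_eq]
  refine Finset.sum_congr rfl fun j _ => ?_
  by_cases h : j = i
  · subst h
    rw [refl1_same, co_neg]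
  · rw [refl1_ne i j h]

theorem cross_zero (i j : Fin d) (h : i ≠ j) :
    ∑ k : T d L, si (k i) * si (k j) * (Mh z σ m k).im = 0 := by
  have h1 : ∑ k : T d L, si (k i) * si (k j) * (Mh z σ m k).im =
      ∑ k : T d L, -(si (k i) * si (k j) * (Mh z σ m k).im) := by
    rw [← Equiv.sum_comp (refl1 i)]
    refine Finset.sum_congr rfl fun k _ => ?_
    rw [refl1_same, refl1_ne i j (Ne.symm h), si_neg]
    have : Mh z σ m (refl1 i k) = Mh z σ m k := by
      unfold Mh Dn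
      rw [aa_refl]
    rw [this]
    ring
  rw [Finset.sum_neg_distrib] at h1
  linarith

theorem Av_sq (p : T d L) : (NN d L)⁻¹ * ∑ k : T d L, Av p k ^ 2 * (Mh z σ m k).im =
    ∑ i, si (p i) ^ 2 * Qv d L z σ m i := by
  have h1 : ∀ k : T d L, Av p k ^ 2 * (Mh z σ m k).im =
      ∑ i, ∑ j, 4 * si (p i) * si (p j) * (si (k i) * si (k j) * (Mh z σ m k).im) := by
    intro k
    unfold Av
    rw [pow_two, Finset.sum_mul_sum, Finset.sum_mul]
    refine Finset.sum_congr rfl fun i _ => ?_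
    rw [Finset.sum_mul]
    refine Finset.sum_congr rfl fun j _ => ?_
    ring
  rw [Finset.sum_congr rfl fun k _ => h1 k, Finset.sum_comm, Finset.mul_sum]
  refine Finset.sum_congr rfl fun i _ => ?_
  rw [Finset.sum_comm, Finset.sum_eq_single i]
  · unfold Qv
    rw [← Finset.mul_sum, Finset.mul_sum, Finset.mul_sum, Finset.mul_sum, Finset.mul_sum]
    refine Finset.sum_congr rfl fun k _ => ?_
    ring
  · intro j _ hj
    rw [← Finset.mul_sum, cross_zero i j (Ne.symm hj), mul_zero]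
  · intro hh
    exact absurd (Finset.mem_univ i) hh

/-- the pointwise expansion -/
theorem pt_exp (h : MD d L z σ m) (p k : T d L) :
    Mh z σ m (k - p) * (starRingEnd ℂ) (Mh z σ m k) =
      (1 / (2 * Complex.I * ss z σ m)) * (Mh z σ m (k - p) - (starRingEnd ℂ) (Mh z σ m k)) -
      (1 / (2 * Complex.I * ss z σ m)) ^ 2 * (Dl p k *
        (Mh z σ m (k - p) - (starRingEnd ℂ) (Mh z σ m k))) +
      (1 / (2 * Complex.I * ss z σ m)) ^ 3 * ((Dl p k : ℂ) ^ 2 *
        (Mh z σ m (k - p) - (starRingEnd ℂ) (Mh z σ m k))) -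
      (1 / (2 * Complex.I * ss z σ m)) ^ 3 * ((Dl p k : ℂ) ^ 3 *
        (Mh z σ m (k - p) * (starRingEnd ℂ) (Mh z σ m k))) := by
  have hs := ss_pos h
  have hsc : (ss z σ m : ℂ) ≠ 0 := by exact_mod_cast hs.ne'
  have hc : (2 * Complex.I * ss z σ m : ℂ) ≠ 0 :=
    mul_ne_zero (mul_ne_zero two_ne_zero Complex.I_ne_zero) hsc
  set X := Mh z σ m (k - p) with hX
  set Y := (starRingEnd ℂ) (Mh z σ m k) with hY
  set S : ℂ := 2 * Complex.I * ss z σ m with hS
  have hD1 := Dn_ne aa z σ m (k - p) hs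
  have hD2 := Dn_ne aa z σ m k hs
  have hD2' : (starRingEnd ℂ) (Dn aa z σ m k) ≠ 0 := by
    intro h0
    exact hD2 ((map_eq_zero _).1 h0)
  have key : (S + Dl p k) * (X * Y) = X - Y := by
    have e1 : X = (Dn aa z σ m (k - p))⁻¹ := rfl
    have e2 : Y = ((starRingEnd ℂ) (Dn aa z σ m k))⁻¹ := by
      rw [hY]
      unfold Mh
      rw [map_inv₀]
    have e3 : (starRingEnd ℂ) (Dn aa z σ m k) - Dn aa z σ m (k - p) = S + Dl p k := by
      have e4 : (starRingEnd ℂ) (Dn aa z σ m k) = (aa k : ℂ) - (starRingEnd ℂ) z -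
          (σ : ℂ) ^ 2 * (starRingEnd ℂ) m := by
        unfold Dn
        rw [map_sub, map_sub, map_mul, map_pow, Complex.conj_ofReal, Complex.conj_ofReal]
      rw [e4, hS]
      unfold Dn Dl ss
      have e5 : z - (starRingEnd ℂ) z = 2 * Complex.I * z.im := by
        rw [Complex.sub_conj]
        push_cast
        ring
      have e6 : m - (starRingEnd ℂ) m = 2 * Complex.I * m.im := by
        rw [Complex.sub_conj]
        push_cast
        ring
      push_cast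
      linear_combination e5 + (σ : ℂ) ^ 2 * e6
    rw [e1, e2, ← e3]
    field_simp
  have key2 : S * (X * Y) = (X - Y) - Dl p k * (X * Y) := by linear_combination key
  have k1 : X * Y = (1 / S) * (X - Y) - (1 / S) * (Dl p k * (X * Y)) := by
    field_simp
    linear_combination key2
  have k2 : X * Y = (1 / S) * (X - Y) - (1 / S) * (Dl p k * ((1 / S) * (X - Y) -
      (1 / S) * (Dl p k * (X * Y)))) := by
    rw [← k1]
    exact k1
  have k3 : X * Y = (1 / S) * (X - Y) - (1 / S) * (Dl p k * ((1 / S) * (X - Y) -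
      (1 / S) * (Dl p k * ((1 / S) * (X - Y) - (1 / S) * (Dl p k * (X * Y)))))) := by
    rw [← k1]
    exact k2
  have hd : (Dl p k : ℂ) = ((Dl p k : ℝ) : ℂ) := rfl
  calc X * Y = _ := k3
    _ = _ := by ring

/-- the expansion of the ladder multiplier -/
theorem tt_exp (h : MD d L z σ m) (p : T d L) (hp : pp p ≤ 1) :
    ‖tt z σ m p - ((m.im / ss z σ m -
      1 / (4 * ss z σ m ^ 3) * ∑ i, si (p i) ^ 2 * Qv d L z σ m i : ℝ) : ℂ)‖ ≤
      pp p / ss z σ m ^ 2 * Real.sqrt (m.im / ss z σ m) +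
      10 * (d : ℝ) * (pp p * Real.sqrt (pp p)) * m.im / ss z σ m ^ 3 +
      30 * (d : ℝ) ^ 3 * (pp p * Real.sqrt (pp p)) * m.im / ss z σ m ^ 4 := by
  have hs := ss_pos h
  have hm := h.mim
  have hN := NN_pos (d := d) (L := L)
  have hp0 := pp_nonneg p
  have hsc : (ss z σ m : ℂ) ≠ 0 := by exact_mod_cast hs.ne'
  set s := ss z σ m with hsdef
  set c : ℂ := 1 / (2 * Complex.I * s) with hc
  have hc2 : c ^ 2 = -(((1 / (4 * s ^ 2) : ℝ)) : ℂ) := by
    rw [hc]
    push_cast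
    rw [div_pow, mul_pow, mul_pow, Complex.I_sq]
    field_simp
    ring
  have hc3 : c ^ 3 = Complex.I * ((1 / (8 * s ^ 3) : ℝ) : ℂ) := by
    rw [hc]
    push_cast
    rw [div_pow, mul_pow, mul_pow, pow_succ Complex.I 2, Complex.I_sq]
    field_simp
    rw [Complex.I_sq]
    norm_num
  have hcn : ‖c‖ = 1 / (2 * s) := by
    rw [hc, norm_div, norm_mul, norm_mul, Complex.norm_I, Complex.norm_real, Real.norm_eq_abs,
      abs_of_pos hs]
    simp
  -- the four parts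
  have hsum : tt z σ m p =
      c * (((NN d L : ℝ) : ℂ)⁻¹ * ∑ k : T d L, (Mh z σ m (k - p) - (starRingEnd ℂ) (Mh z σ m k))) -
      c ^ 2 * (((NN d L : ℝ) : ℂ)⁻¹ * ∑ k : T d L, (Dl p k : ℂ) *
        (Mh z σ m (k - p) - (starRingEnd ℂ) (Mh z σ m k))) +
      c ^ 3 * (((NN d L : ℝ) : ℂ)⁻¹ * ∑ k : T d L, (Dl p k : ℂ) ^ 2 *
        (Mh z σ m (k - p) - (starRingEnd ℂ) (Mh z σ m k))) -
      c ^ 3 * (((NN d L : ℝ) : ℂ)⁻¹ * ∑ k : T d L, (Dl p k : ℂ) ^ 3 *
        (Mh z σ m (k - p) * (starRingEnd ℂ) (Mh z σ m k))) := by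
    unfold tt
    rw [Finset.sum_congr rfl fun k _ => pt_exp h p k]
    rw [Finset.sum_sub_distrib, Finset.sum_add_distrib, Finset.sum_sub_distrib,
      ← Finset.mul_sum, ← Finset.mul_sum, ← Finset.mul_sum, ← Finset.mul_sum]
    ring
  have hmavg : ((NN d L : ℝ) : ℂ)⁻¹ * ∑ k : T d L, Mh z σ m k = m := by
    have h1 := h.eq
    unfold ph at h1
    rw [cardT] at h1
    exact h1
  have p0 : ((NN d L : ℝ) : ℂ)⁻¹ * ∑ k : T d L, (Mh z σ m (k - p) -
      (starRingEnd ℂ) (Mh z σ m k)) = 2 * Complex.I * m.im := by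
    rw [Finset.sum_sub_distrib, mul_sub]
    have e1 : ∑ k : T d L, Mh z σ m (k - p) = ∑ k : T d L, Mh z σ m k :=
      Equiv.sum_comp (Equiv.subRight p) (fun k => Mh z σ m k)
    have e2 : ((NN d L : ℝ) : ℂ)⁻¹ * ∑ k : T d L, (starRingEnd ℂ) (Mh z σ m k) =
        (starRingEnd ℂ) m := by
      conv_rhs => rw [← hmavg]
      rw [map_mul, map_inv₀, Complex.conj_ofReal, map_sum]
    rw [e1, hmavg, e2, Complex.sub_conj]
    push_cast
    ring
  have p2 : ((NN d L : ℝ) : ℂ)⁻¹ * ∑ k : T d L, (Dl p k : ℂ) ^ 2 *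
        (Mh z σ m (k - p) - (starRingEnd ℂ) (Mh z σ m k)) =
      2 * Complex.I * (((NN d L)⁻¹ * ∑ k : T d L, Dl p k ^ 2 * (Mh z σ m k).im : ℝ) : ℂ) := by
    have e1 := shift_sum (z := z) (σ := σ) (m := m) (fun x => (x : ℂ) ^ 2) p
    simp only [mul_sub, Finset.sum_sub_distrib]
    rw [e1, ← mul_sub, ← Finset.sum_sub_distrib]
    push_cast
    rw [mul_left_comm, Finset.mul_sum (Finset.univ) _ (2 * Complex.I)]
    congr 1
    refine Finset.sum_congr rfl fun k _ => ?_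
    have e2 : Mh z σ m k - (starRingEnd ℂ) (Mh z σ m k) = 2 * Complex.I * (Mh z σ m k).im := by
      rw [Complex.sub_conj]
      push_cast
      ring
    rw [neg_sq, ← mul_sub, e2]
    ring
  have q1 : ‖((NN d L : ℝ) : ℂ)⁻¹ * ∑ k : T d L, (Dl p k : ℂ) *
        (Mh z σ m (k - p) - (starRingEnd ℂ) (Mh z σ m k))‖ ≤ 2 * pp p *
          Real.sqrt (m.im / s) := by
    have e1 := shift_sum (z := z) (σ := σ) (m := m) (fun x => (x : ℂ)) p
    have e1' : ∑ k : T d L, (Dl p k : ℂ) * Mh z σ m (k - p) =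
        ∑ k : T d L, (-(Dl p k : ℂ)) * Mh z σ m k := by
      rw [e1]
      exact Finset.sum_congr rfl fun k _ => by push_cast; ring
    -- symmetrize
    have hsy : ∀ G : T d L → ℂ, (∀ k, G (-k) = G k) →
        ∑ k : T d L, (Dl p k : ℂ) * G k = ∑ k : T d L, ((Bv p k : ℝ) : ℂ) * G k := by
      intro G hG
      have f1 : ∑ k : T d L, ((Av p k : ℝ) : ℂ) * G k = 0 := by
        have f2 : ∑ k : T d L, ((Av p k : ℝ) : ℂ) * G k =
            ∑ k : T d L, -(((Av p k : ℝ) : ℂ) * G k) := by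
          rw [← Equiv.sum_comp (Equiv.neg (T d L))]
          refine Finset.sum_congr rfl fun k _ => ?_
          rw [Equiv.neg_apply, hG]
          have f3 : Av p (-k) = -Av p k := by
            unfold Av
            rw [← Finset.sum_neg_distrib]
            refine Finset.sum_congr rfl fun i _ => ?_
            rw [Pi.neg_apply, si_neg]
            ring
          rw [f3]
          push_cast
          ring
        rw [Finset.sum_neg_distrib] at f2
        exact CharZero.eq_neg_self_iff.1 f2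
      have f4 : ∀ k : T d L, (Dl p k : ℂ) * G k =
          ((Av p k : ℝ) : ℂ) * G k + ((Bv p k : ℝ) : ℂ) * G k := by
        intro k
        rw [Dl_eq]
        push_cast
        ring
      rw [Finset.sum_congr rfl fun k _ => f4 k, Finset.sum_add_distrib, f1, zero_add]
    have e2 : ∑ k : T d L, (Dl p k : ℂ) * (Mh z σ m (k - p) - (starRingEnd ℂ) (Mh z σ m k)) =
        -(∑ k : T d L, ((Bv p k : ℝ) : ℂ) * (Mh z σ m k + (starRingEnd ℂ) (Mh z σ m k))) := by
      simp only [mul_sub, mul_add, Finset.sum_sub_distrib, Finset.sum_add_distrib]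
      rw [e1']
      simp only [neg_mul, Finset.sum_neg_distrib]
      rw [hsy (fun k => Mh z σ m k) (fun k => Mh_neg k),
        hsy (fun k => (starRingEnd ℂ) (Mh z σ m k)) (fun k => by rw [Mh_neg])]
      ring
    rw [e2, norm_mul, norm_inv, Complex.norm_real, Real.norm_eq_abs, abs_of_pos hN, norm_neg]
    have e3 : ‖∑ k : T d L, ((Bv p k : ℝ) : ℂ) * (Mh z σ m k + (starRingEnd ℂ) (Mh z σ m k))‖ ≤
        ∑ k : T d L, 2 * pp p * ‖Mh z σ m k‖ := by
      refine (norm_sum_le _ _).trans (Finset.sum_le_sum fun k _ => ?_)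
      rw [norm_mul, Complex.norm_real, Real.norm_eq_abs]
      have f1 : ‖Mh z σ m k + (starRingEnd ℂ) (Mh z σ m k)‖ ≤ 2 * ‖Mh z σ m k‖ := by
        refine (norm_add_le _ _).trans ?_
        rw [RCLike.norm_conj]
        linarith
      calc |Bv p k| * ‖Mh z σ m k + (starRingEnd ℂ) (Mh z σ m k)‖ ≤
            pp p * (2 * ‖Mh z σ m k‖) := mul_le_mul (Bv_le p k) f1 (norm_nonneg _) hp0
        _ = _ := by ring
    calc (NN d L)⁻¹ * ‖∑ k : T d L, ((Bv p k : ℝ) : ℂ) * (Mh z σ m k +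
          (starRingEnd ℂ) (Mh z σ m k))‖ ≤ (NN d L)⁻¹ * ∑ k : T d L, 2 * pp p * ‖Mh z σ m k‖ :=
          mul_le_mul_of_nonneg_left e3 (inv_nonneg.2 hN.le)
      _ = 2 * pp p * ((NN d L)⁻¹ * ∑ k : T d L, ‖Mh z σ m k‖) := by
          rw [← Finset.mul_sum]
          ring
      _ ≤ _ := mul_le_mul_of_nonneg_left (avg_norm_le h) (by positivity)
  have q3 : ‖((NN d L : ℝ) : ℂ)⁻¹ * ∑ k : T d L, (Dl p k : ℂ) ^ 3 *
        (Mh z σ m (k - p) * (starRingEnd ℂ) (Mh z σ m k))‖ ≤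
      (3 * d * Real.sqrt (pp p)) ^ 3 * (m.im / s) := by
    rw [norm_mul, norm_inv, Complex.norm_real, Real.norm_eq_abs, abs_of_pos hN]
    have e1 : ‖∑ k : T d L, (Dl p k : ℂ) ^ 3 *
        (Mh z σ m (k - p) * (starRingEnd ℂ) (Mh z σ m k))‖ ≤
        ∑ k : T d L, (3 * d * Real.sqrt (pp p)) ^ 3 *
          ((1 / 2) * ‖Mh z σ m (k - p)‖ ^ 2 + (1 / 2) * ‖Mh z σ m k‖ ^ 2) := by
      refine (norm_sum_le _ _).trans (Finset.sum_le_sum fun k _ => ?_)
      rw [norm_mul, norm_mul, RCLike.norm_conj, norm_pow, Complex.norm_real, Real.norm_eq_abs]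
      refine mul_le_mul (pow_le_pow_left₀ (abs_nonneg _) (Dl_le p k hp) 3) ?_ (by positivity)
        (by positivity)
      nlinarith [sq_nonneg (‖Mh z σ m (k - p)‖ - ‖Mh z σ m k‖)]
    have e2 : ∑ k : T d L, ‖Mh z σ m (k - p)‖ ^ 2 = ∑ k : T d L, ‖Mh z σ m k‖ ^ 2 :=
      Equiv.sum_comp (Equiv.subRight p) (fun k => ‖Mh z σ m k‖ ^ 2)
    calc (NN d L)⁻¹ * ‖∑ k : T d L, (Dl p k : ℂ) ^ 3 *
        (Mh z σ m (k - p) * (starRingEnd ℂ) (Mh z σ m k))‖ ≤
          (NN d L)⁻¹ * ∑ k : T d L, (3 * d * Real.sqrt (pp p)) ^ 3 *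
          ((1 / 2) * ‖Mh z σ m (k - p)‖ ^ 2 + (1 / 2) * ‖Mh z σ m k‖ ^ 2) :=
          mul_le_mul_of_nonneg_left e1 (inv_nonneg.2 hN.le)
      _ = (3 * d * Real.sqrt (pp p)) ^ 3 * ((NN d L)⁻¹ * ∑ k : T d L, ‖Mh z σ m k‖ ^ 2) := by
          rw [← Finset.mul_sum, Finset.sum_add_distrib, ← Finset.mul_sum, ← Finset.mul_sum, e2]
          ring
      _ = _ := by rw [sq_sum h]
  have q2 : |(NN d L)⁻¹ * ∑ k : T d L, Dl p k ^ 2 * (Mh z σ m k).im -
      ∑ i, si (p i) ^ 2 * Qv d L z σ m i| ≤ 5 * d * (pp p * Real.sqrt (pp p)) * m.im := by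
    rw [← Av_sq, ← mul_sub, ← Finset.sum_sub_distrib, abs_mul, abs_of_pos (inv_pos.2 hN)]
    have e0 : ∀ k : T d L, 0 ≤ (Mh z σ m k).im := by
      intro k
      unfold Mh
      rw [Dn_inv_im]
      have : 0 ≤ z.im + σ ^ 2 * m.im := hs.le
      positivity
    have e1 : |∑ k : T d L, (Dl p k ^ 2 * (Mh z σ m k).im - Av p k ^ 2 * (Mh z σ m k).im)| ≤
        ∑ k : T d L, 5 * d * (pp p * Real.sqrt (pp p)) * (Mh z σ m k).im := by
      refine (Finset.abs_sum_le_sum_abs _ _).trans (Finset.sum_le_sum fun k _ => ?_)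
      rw [← sub_mul, abs_mul, abs_of_nonneg (e0 k)]
      exact mul_le_mul_of_nonneg_right (Dsq_le p k hp) (e0 k)
    have e2 : (NN d L)⁻¹ * ∑ k : T d L, (Mh z σ m k).im = m.im := by
      have f1 := congrArg Complex.im hmavg
      rw [← Complex.ofReal_inv, Complex.im_ofReal_mul, Complex.im_sum] at f1
      exact f1
    calc (NN d L)⁻¹ * |∑ k : T d L, (Dl p k ^ 2 * (Mh z σ m k).im -
          Av p k ^ 2 * (Mh z σ m k).im)| ≤ (NN d L)⁻¹ *
          ∑ k : T d L, 5 * d * (pp p * Real.sqrt (pp p)) * (Mh z σ m k).im :=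
          mul_le_mul_of_nonneg_left e1 (inv_nonneg.2 hN.le)
      _ = 5 * d * (pp p * Real.sqrt (pp p)) * ((NN d L)⁻¹ * ∑ k : T d L, (Mh z σ m k).im) := by
          rw [← Finset.mul_sum]
          ring
      _ = _ := by rw [e2]
  -- assemble
  set R1 := ((NN d L : ℝ) : ℂ)⁻¹ * ∑ k : T d L, (Dl p k : ℂ) *
        (Mh z σ m (k - p) - (starRingEnd ℂ) (Mh z σ m k)) with hR1
  set R3 := ((NN d L : ℝ) : ℂ)⁻¹ * ∑ k : T d L, (Dl p k : ℂ) ^ 3 *
        (Mh z σ m (k - p) * (starRingEnd ℂ) (Mh z σ m k)) with hR3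
  set R2 := (NN d L)⁻¹ * ∑ k : T d L, Dl p k ^ 2 * (Mh z σ m k).im with hR2
  rw [p0, p2] at hsum
  have hfin : tt z σ m p - ((m.im / s -
      1 / (4 * s ^ 3) * ∑ i, si (p i) ^ 2 * Qv d L z σ m i : ℝ) : ℂ) =
      -(c ^ 2 * R1) - c ^ 3 * R3 -
        ((1 / (4 * s ^ 3) * (R2 - ∑ i, si (p i) ^ 2 * Qv d L z σ m i) : ℝ) : ℂ) := by
    rw [hsum, hc3, hc2]
    have g1 : c * (2 * Complex.I * m.im) = ((m.im / s : ℝ) : ℂ) := by
      rw [hc]
      push_cast
      field_simp [Complex.I_ne_zero]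
    rw [g1]
    push_cast
    have g2 : Complex.I * (1 / (8 * (s : ℂ) ^ 3)) * (2 * Complex.I * (R2 : ℂ)) =
        -(1 / (4 * (s : ℂ) ^ 3) * R2) := by
      have : Complex.I * (1 / (8 * (s : ℂ) ^ 3)) * (2 * Complex.I * (R2 : ℂ)) =
        (Complex.I ^ 2) * (1 / (4 * (s : ℂ) ^ 3) * R2) := by
        field_simp
        ring
      rw [this, Complex.I_sq]
      ring
    rw [g2]
    ring
  rw [hfin]
  have n1 : ‖c ^ 2 * R1‖ ≤ pp p / s ^ 2 * Real.sqrt (m.im / s) := by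
    rw [norm_mul, norm_pow, hcn]
    calc (1 / (2 * s)) ^ 2 * ‖R1‖ ≤ (1 / (2 * s)) ^ 2 * (2 * pp p * Real.sqrt (m.im / s)) :=
          mul_le_mul_of_nonneg_left q1 (by positivity)
      _ = (1 / 2) * (pp p / s ^ 2 * Real.sqrt (m.im / s)) := by
          field_simp
      _ ≤ _ := by
          have : 0 ≤ pp p / s ^ 2 * Real.sqrt (m.im / s) := by positivity
          linarith
  have n3 : ‖c ^ 3 * R3‖ ≤ 30 * (d : ℝ) ^ 3 * (pp p * Real.sqrt (pp p)) * m.im / s ^ 4 := by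
    rw [norm_mul, norm_pow, hcn]
    have e1 : (3 * d * Real.sqrt (pp p)) ^ 3 = 27 * (d : ℝ) ^ 3 * (pp p * Real.sqrt (pp p)) := by
      have e2 := Real.sq_sqrt hp0
      calc (3 * (d : ℝ) * Real.sqrt (pp p)) ^ 3 =
            27 * (d : ℝ) ^ 3 * (Real.sqrt (pp p) ^ 2 * Real.sqrt (pp p)) := by ring
        _ = _ := by rw [e2]
    rw [e1] at q3
    calc (1 / (2 * s)) ^ 3 * ‖R3‖ ≤ (1 / (2 * s)) ^ 3 *
          (27 * (d : ℝ) ^ 3 * (pp p * Real.sqrt (pp p)) * (m.im / s)) :=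
          mul_le_mul_of_nonneg_left q3 (by positivity)
      _ = (27 / 8) * ((d : ℝ) ^ 3 * (pp p * Real.sqrt (pp p)) * m.im / s ^ 4) := by
          field_simp
          ring
      _ ≤ 30 * ((d : ℝ) ^ 3 * (pp p * Real.sqrt (pp p)) * m.im / s ^ 4) := by
          have : 0 ≤ (d : ℝ) ^ 3 * (pp p * Real.sqrt (pp p)) * m.im / s ^ 4 := by positivity
          linarith
      _ = _ := by ring
  have n2 : ‖((1 / (4 * s ^ 3) * (R2 - ∑ i, si (p i) ^ 2 * Qv d L z σ m i) : ℝ) : ℂ)‖ ≤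
      10 * (d : ℝ) * (pp p * Real.sqrt (pp p)) * m.im / s ^ 3 := by
    rw [Complex.norm_real, Real.norm_eq_abs, abs_mul, abs_of_pos (by positivity)]
    calc 1 / (4 * s ^ 3) * |R2 - ∑ i, si (p i) ^ 2 * Qv d L z σ m i| ≤
          1 / (4 * s ^ 3) * (5 * d * (pp p * Real.sqrt (pp p)) * m.im) :=
          mul_le_mul_of_nonneg_left q2 (by positivity)
      _ = (5 / 4) * ((d : ℝ) * (pp p * Real.sqrt (pp p)) * m.im / s ^ 3) := by
          field_simp
      _ ≤ 10 * ((d : ℝ) * (pp p * Real.sqrt (pp p)) * m.im / s ^ 3) := by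
          have : 0 ≤ (d : ℝ) * (pp p * Real.sqrt (pp p)) * m.im / s ^ 3 := by positivity
          linarith
      _ = _ := by ring
  calc ‖-(c ^ 2 * R1) - c ^ 3 * R3 -
        ((1 / (4 * s ^ 3) * (R2 - ∑ i, si (p i) ^ 2 * Qv d L z σ m i) : ℝ) : ℂ)‖
      ≤ ‖-(c ^ 2 * R1)‖ + ‖c ^ 3 * R3‖ +
        ‖((1 / (4 * s ^ 3) * (R2 - ∑ i, si (p i) ^ 2 * Qv d L z σ m i) : ℝ) : ℂ)‖ :=
        (norm_sub_le _ _).trans (add_le_add (norm_sub_le _ _) le_rfl)
    _ ≤ _ := by
        rw [norm_neg]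
        linarith

end Pool.Agent.Zk11.QD
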