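import Pool.Agent.Zk11.QD.Zd
import Pool.Agent.Zk11.QD.Abs

/-! Transfer to the lattice: averages. -/

set_option autoImplicit false
set_option linter.unusedSectionVars false

open scoped BigOperators Topology
open MeasureTheory Filter

namespace Pool.Agent.Zk11.QD

open Pool.Agent.W788.MFP.Four (T e NN adj adj_neg e_comm e_add_left e_add e_zero e_neg e_neg_left
  e_normSq sum_e NN_pos card_T e_single)

variable {d : ℕ}

/-- the integer part of the momentum -/
noncomputable def ni (L : ℕ) (θ : ℝ) : ℤ := ⌊(L : ℝ) * θ / (2 * Real.pi)⌋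

/-- the momentum on the torus -/
noncomputable def pm (L : ℕ) (θ : Fin d → ℝ) : T d L := fun j => ((ni L (θ j) : ℤ) : ZMod L)

/-- the angle -/
noncomputable def an (L : ℕ) (θ : ℝ) : ℝ := 2 * Real.pi * (ni L θ : ℝ) / L

theorem an_close (L : ℕ) (hL : 0 < L) (θ : ℝ) : |an L θ - θ| ≤ 2 * Real.pi / L := by
  have hLR : (0 : ℝ) < L := by exact_mod_cast hL
  have hp := Real.pi_pos
  unfold an ni
  have h1 := Int.floor_le ((L : ℝ) * θ / (2 * Real.pi))
  have h2 := Int.lt_floor_add_one ((L : ℝ) * θ / (2 * Real.pi))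
  set n : ℝ := (⌊(L : ℝ) * θ / (2 * Real.pi)⌋ : ℝ) with hn
  have e1 : 2 * Real.pi * n / L - θ = 2 * Real.pi / L * (n - (L : ℝ) * θ / (2 * Real.pi)) := by
    field_simp
  rw [e1, abs_mul, abs_of_pos (by positivity)]
  have h3 : |n - (L : ℝ) * θ / (2 * Real.pi)| ≤ 1 := by
    rw [abs_le]
    constructor <;> linarith
  calc 2 * Real.pi / L * |n - (L : ℝ) * θ / (2 * Real.pi)| ≤ 2 * Real.pi / L * 1 :=
        mul_le_mul_of_nonneg_left h3 (by positivity)
    _ = _ := mul_one _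

theorem an_lim (θ : ℝ) : Tendsto (fun h : ℕ => an (2 * h + 1) θ) atTop (𝓝 θ) := by
  rw [tendsto_iff_norm_sub_tendsto_zero]
  have h1 : Tendsto (fun h : ℕ => 2 * Real.pi / ((2 * h + 1 : ℕ) : ℝ)) atTop (𝓝 0) := by
    have h2 := (tendsto_const_div_atTop_nhds_zero_nat (2 * Real.pi)).comp
      (tendsto_atTop_mono (fun h : ℕ => (by omega : h ≤ 2 * h + 1)) tendsto_id)
    exact h2
  refine squeeze_zero (fun _ => norm_nonneg _) (fun h => ?_) h1
  exact an_close (2 * h + 1) (by omega) θ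

theorem add_int {L : ℕ} [NeZero L] (n : ℤ) : (ZMod.stdAddChar ((n : ℤ) : ZMod L) : ℂ) =
    Complex.exp (((2 * Real.pi * n / L : ℝ) : ℂ) * Complex.I) := by
  rw [ZMod.stdAddChar_coe]
  congr 1
  push_cast
  ring

theorem co_pm {L : ℕ} [NeZero L] (θ : Fin d → ℝ) (j : Fin d) :
    co (pm L θ j) = Real.cos (an L (θ j)) := by
  unfold co pm an
  rw [add_int, Complex.exp_ofReal_mul_I_re]

theorem si_pm {L : ℕ} [NeZero L] (θ : Fin d → ℝ) (j : Fin d) :
    si (pm L θ j) = Real.sin (an L (θ j)) := by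
  unfold si pm an
  rw [add_int, Complex.exp_ofReal_mul_I_im]

theorem e_pm {L : ℕ} [NeZero L] (θ : Fin d → ℝ) (y : Zd d) :
    e (pm L θ) (pr L y) = Complex.exp (((∑ j, an L (θ j) * y j : ℝ) : ℂ) * Complex.I) := by
  unfold e pm pr
  have h1 : ∑ i, ((ni L (θ i) : ℤ) : ZMod L) * ((y i : ℤ) : ZMod L) =
      ((∑ i, ni L (θ i) * y i : ℤ) : ZMod L) := by
    push_cast
    rfl
  rw [h1, add_int]
  congr 3
  unfold an
  push_cast
  rw [Finset.mul_sum, Finset.sum_div]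
  exact Finset.sum_congr rfl fun i _ => by ring

theorem e_pm_lim (θ : Fin d → ℝ) (y : Zd d) :
    Tendsto (fun h : ℕ => e (pm (2 * h + 1) θ) (pr (2 * h + 1) y)) atTop
      (𝓝 (Complex.exp (((∑ j, θ j * y j : ℝ) : ℂ) * Complex.I))) := by
  simp only [e_pm]
  have h1 : Tendsto (fun h : ℕ => ∑ j, an (2 * h + 1) (θ j) * (y j : ℝ)) atTop
      (𝓝 (∑ j, θ j * y j)) :=
    tendsto_finsetSum _ fun j _ => (an_lim (θ j)).mul_const _
  exact (Complex.continuous_exp.tendsto _).comp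
    (((Complex.continuous_ofReal.tendsto _).comp h1).mul_const _)

/-- convergence for a fixed potential -/
theorem det_lim (lam : ℝ) (ω : Zd d → ℝ) (z : ℂ) (hz : 0 < z.im) (G : Zd d → ℂ)
    (hG : IsG lam ω z G) (θ : Fin d → ℝ) :
    Tendsto (fun h : ℕ => ∑ x : T d (2 * h + 1), e (pm (2 * h + 1) θ) x *
      ((‖uu z lam (VL h ω) x‖ ^ 2 : ℝ) : ℂ)) atTop
      (𝓝 (∑' y, Complex.exp (((∑ j, θ j * y j : ℝ) : ℂ) * Complex.I) *
        ((‖G y‖ ^ 2 : ℝ) : ℂ))) := by
  classical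
  -- comparison
  have h1 : Tendsto (fun h : ℕ => ∑ x : T d (2 * h + 1), e (pm (2 * h + 1) θ) x *
      ((‖uu z lam (VL h ω) x‖ ^ 2 : ℝ) : ℂ) - ∑ x : T d (2 * h + 1), e (pm (2 * h + 1) θ) x *
      ((‖G (lift x)‖ ^ 2 : ℝ) : ℂ)) atTop (𝓝 0) := by
    have hc := close_lim lam ω z hz G hG
    have h2 : Tendsto (fun h : ℕ => Real.sqrt ((∑ x : T d (2 * h + 1),
        ‖G (lift x) - uu z lam (VL h ω) x‖ ^ 2) * (6 / z.im ^ 2))) atTop (𝓝 0) := by
      have h3 := (Real.continuous_sqrt.tendsto _).comp (hc.mul_const (6 / z.im ^ 2))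
      rw [zero_mul, Real.sqrt_zero] at h3
      exact h3
    rw [tendsto_zero_iff_norm_tendsto_zero]
    refine squeeze_zero (fun _ => norm_nonneg _) (fun h => ?_) h2
    rw [← Finset.sum_sub_distrib]
    apply Real.le_sqrt_of_sq_le
    have h3 : ‖∑ x : T d (2 * h + 1), (e (pm (2 * h + 1) θ) x *
        ((‖uu z lam (VL h ω) x‖ ^ 2 : ℝ) : ℂ) - e (pm (2 * h + 1) θ) x *
        ((‖G (lift x)‖ ^ 2 : ℝ) : ℂ))‖ ≤ ∑ x : T d (2 * h + 1),
        ‖G (lift x) - uu z lam (VL h ω) x‖ * (‖G (lift x)‖ + ‖uu z lam (VL h ω) x‖) := by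
      refine (norm_sum_le _ _).trans (Finset.sum_le_sum fun x _ => ?_)
      rw [← mul_sub, norm_mul, e_norm, one_mul, ← Complex.ofReal_sub, Complex.norm_real,
        Real.norm_eq_abs]
      have e1 : ‖uu z lam (VL h ω) x‖ ^ 2 - ‖G (lift x)‖ ^ 2 =
          (‖uu z lam (VL h ω) x‖ - ‖G (lift x)‖) * (‖G (lift x)‖ + ‖uu z lam (VL h ω) x‖) := by ring
      rw [e1, abs_mul, abs_of_nonneg (by positivity :
        0 ≤ ‖G (lift x)‖ + ‖uu z lam (VL h ω) x‖)]
      refine mul_le_mul_of_nonneg_right ?_ (by positivity)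
      rw [abs_sub_comm]
      exact abs_norm_sub_norm_le _ _
    refine (pow_le_pow_left₀ (norm_nonneg _) h3 2).trans ?_
    refine (Finset.sum_mul_sq_le_sq_mul_sq _ _ _).trans ?_
    refine mul_le_mul_of_nonneg_left ?_ (Finset.sum_nonneg fun _ _ => by positivity)
    have h4 : ∀ x : T d (2 * h + 1), (‖G (lift x)‖ + ‖uu z lam (VL h ω) x‖) ^ 2 ≤
        2 * ‖G (lift x)‖ ^ 2 + 2 * ‖uu z lam (VL h ω) x‖ ^ 2 := by
      intro x
      nlinarith [sq_nonneg (‖G (lift x)‖ - ‖uu z lam (VL h ω) x‖)]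
    refine (Finset.sum_le_sum fun x _ => h4 x).trans ?_
    rw [Finset.sum_add_distrib, ← Finset.mul_sum, ← Finset.mul_sum]
    have h5 := uu_norm z hz lam (VL h ω)
    have h6 : ∑ x : T d (2 * h + 1), ‖G (lift x)‖ ^ 2 ≤ 2 / z.im ^ 2 := by
      refine le_trans ?_ (isG_norm lam ω z hz G hG)
      have h7 : ∑ x : T d (2 * h + 1), ‖G (lift x)‖ ^ 2 =
          ∑ y ∈ (Finset.univ : Finset (T d (2 * h + 1))).image lift, ‖G y‖ ^ 2 := by
        rw [Finset.sum_image]
        intro a _ b _ hab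
        exact lift_inj hab
      rw [h7]
      exact hG.sq.sum_le_tsum _ (fun _ _ => by positivity)
    have h8 : 6 / z.im ^ 2 = 2 * (2 / z.im ^ 2) + 2 * (1 / z.im ^ 2) := by ring
    rw [h8]
    linarith
  -- the main part
  have h2 : Tendsto (fun h : ℕ => ∑ x : T d (2 * h + 1), e (pm (2 * h + 1) θ) x *
      ((‖G (lift x)‖ ^ 2 : ℝ) : ℂ)) atTop
      (𝓝 (∑' y, Complex.exp (((∑ j, θ j * y j : ℝ) : ℂ) * Complex.I) *
        ((‖G y‖ ^ 2 : ℝ) : ℂ))) := by
    have h3 : ∀ h : ℕ, ∑ x : T d (2 * h + 1), e (pm (2 * h + 1) θ) x *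
        ((‖G (lift x)‖ ^ 2 : ℝ) : ℂ) = ∑' y : Zd d, if ∀ i, |y i| ≤ (h : ℤ) then
          e (pm (2 * h + 1) θ) (pr (2 * h + 1) y) * ((‖G y‖ ^ 2 : ℝ) : ℂ) else 0 := by
      intro h
      have h4 := sum_lift h (fun y : Zd d => e (pm (2 * h + 1) θ) (pr (2 * h + 1) y) *
        ((‖G y‖ ^ 2 : ℝ) : ℂ))
      simp only [pr_lift] at h4
      rw [h4]
    simp only [h3]
    refine tendsto_tsum_of_dominated_convergence hG.sq (fun y => ?_) ?_
    · have h5 := (e_pm_lim θ y).mul_const ((‖G y‖ ^ 2 : ℝ) : ℂ)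
      refine (tendsto_congr' ?_).2 h5
      filter_upwards [in_box y] with h hh
      rw [if_pos hh]
    · refine Eventually.of_forall fun h y => ?_
      split_ifs
      · rw [norm_mul, e_norm, one_mul, Complex.norm_real, Real.norm_eq_abs,
          abs_of_nonneg (by positivity)]
      · rw [norm_zero]
        positivity
  have h3 := h1.add h2
  rw [zero_add] at h3
  refine h3.congr fun h => ?_
  ring

/-- the law of the potential on the lattice -/
noncomputable abbrev PZ (d : ℕ) (μ : Measure ℝ) : Measure (Zd d → ℝ) :=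
  Measure.infinitePi fun _ : Zd d => μ

theorem VL_meas (h : ℕ) : Measurable fun ω : Zd d → ℝ => VL h ω := by
  unfold VL
  fun_prop

theorem VL_map (μ : Measure ℝ) [IsProbabilityMeasure μ] (h : ℕ) :
    (PZ d μ).map (fun ω => VL h ω) = PL (T d (2 * h + 1)) μ := by
  have hmap := Measure.map_infinitePi_infinitePi_of_inj (P := fun _ : Zd d => μ)
    (lift_inj (d := d) (L := 2 * h + 1))
  rw [Measure.infinitePi_eq_pi (μ := fun _ : T d (2 * h + 1) => μ)] at hmap
  exact hmap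

theorem uu_le {L : ℕ} [NeZero L] (z : ℂ) (hz : 0 < z.im) (σ : ℝ) (V : T d L → ℝ) (x : T d L) :
    ‖uu z σ V x‖ ^ 2 ≤ 1 / z.im ^ 2 :=
  (Finset.single_le_sum (f := fun x => ‖uu z σ V x‖ ^ 2) (fun _ _ => by positivity)
    (Finset.mem_univ x)).trans (uu_norm z hz σ V)

theorem avg_eq (μ : Measure ℝ) [IsProbabilityMeasure μ] (lam : ℝ) (z : ℂ) (hz : 0 < z.im)
    (h : ℕ) (χ : T d (2 * h + 1) → ℂ) :
    ∫ ω, ∑ x : T d (2 * h + 1), χ x * ((‖uu z lam (VL h ω) x‖ ^ 2 : ℝ) : ℂ) ∂(PZ d μ) =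
      ∑ x : T d (2 * h + 1), χ x *
        ((∫ V, ‖uu z lam V x‖ ^ 2 ∂(PL (T d (2 * h + 1)) μ) : ℝ) : ℂ) := by
  have hm : ∀ x : T d (2 * h + 1), Measurable fun ω : Zd d → ℝ => ‖uu z lam (VL h ω) x‖ ^ 2 :=
    fun x => (((uu_meas z lam x).comp (VL_meas h)).norm.pow_const 2)
  have hi : ∀ x : T d (2 * h + 1), Integrable (fun ω : Zd d → ℝ => ‖uu z lam (VL h ω) x‖ ^ 2)
      (PZ d μ) := by
    intro x
    refine Integrable.mono' (integrable_const (1 / z.im ^ 2)) (hm x).aestronglyMeasurable ?_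
    refine Eventually.of_forall fun ω => ?_
    rw [Real.norm_eq_abs, abs_of_nonneg (by positivity)]
    exact uu_le z hz lam _ x
  have hic : ∀ x : T d (2 * h + 1), Integrable
      (fun ω : Zd d → ℝ => χ x * ((‖uu z lam (VL h ω) x‖ ^ 2 : ℝ) : ℂ)) (PZ d μ) :=
    fun x => ((hi x).ofReal (𝕜 := ℂ)).const_mul (χ x)
  rw [integral_finsetSum _ fun x _ => hic x]
  refine Finset.sum_congr rfl fun x _ => ?_
  rw [integral_const_mul, integral_complex_ofReal]
  congr 2
  rw [← VL_map μ h, integral_map (VL_meas h).aemeasurable]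
  exact ((uu_meas z lam x).norm.pow_const 2).aestronglyMeasurable

section
variable (μ : Measure ℝ) [IsProbabilityMeasure μ] (lam : ℝ) (z : ℂ) (hz : 0 < z.im)
  (G : (Zd d → ℝ) → Zd d → ℂ) (hG : ∀ᵐ ω ∂(PZ d μ), IsG lam ω z (G ω))

include hz hG

theorem G_meas (y : Zd d) : AEStronglyMeasurable (fun ω => G ω y) (PZ d μ) := by
  refine aestronglyMeasurable_of_tendsto_ae atTop
    (f := fun (h : ℕ) (ω : Zd d → ℝ) => uu z lam (VL h ω) (pr (2 * h + 1) y)) (fun h => ?_) ?_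
  · exact ((uu_meas z lam _).comp (VL_meas h)).aestronglyMeasurable
  · filter_upwards [hG] with ω hω
    exact pt_lim lam ω z hz (G ω) hω y

theorem G_int (y : Zd d) : Integrable (fun ω => ‖G ω y‖ ^ 2) (PZ d μ) := by
  refine Integrable.mono' (integrable_const (2 / z.im ^ 2))
    ((G_meas μ lam z hz G hG y).norm.pow 2) ?_
  filter_upwards [hG] with ω hω
  rw [Real.norm_eq_abs, abs_of_nonneg (by positivity)]
  refine le_trans ?_ (isG_norm lam ω z hz (G ω) hω)
  exact hω.sq.le_tsum y (fun _ _ => by positivity)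

theorem G_summable : Summable fun y => ∫ ω, ‖G ω y‖ ^ 2 ∂(PZ d μ) := by
  refine summable_of_sum_le (c := 2 / z.im ^ 2) (fun y => integral_nonneg fun _ => by positivity)
    fun F => ?_
  rw [← integral_finsetSum _ fun y _ => G_int μ lam z hz G hG y]
  have h1 : ∫ ω, ∑ y ∈ F, ‖G ω y‖ ^ 2 ∂(PZ d μ) ≤ ∫ _ω, 2 / z.im ^ 2 ∂(PZ d μ) := by
    refine integral_mono_ae (integrable_finsetSum _ fun y _ => G_int μ lam z hz G hG y)
      (integrable_const _) ?_
    filter_upwards [hG] with ω hω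
    exact (hω.sq.sum_le_tsum F (fun _ _ => by positivity)).trans (isG_norm lam ω z hz (G ω) hω)
  refine h1.trans (le_of_eq ?_)
  simp

theorem G_tsum (θ : Fin d → ℝ) :
    ∫ ω, ∑' y, Complex.exp (((∑ j, θ j * y j : ℝ) : ℂ) * Complex.I) *
      ((‖G ω y‖ ^ 2 : ℝ) : ℂ) ∂(PZ d μ) =
    ∑' y : Zd d, Complex.exp (((∑ j, θ j * y j : ℝ) : ℂ) * Complex.I) *
      ((∫ ω, ‖G ω y‖ ^ 2 ∂(PZ d μ) : ℝ) : ℂ) := by
  have h1 := hasSum_integral_of_summable_integral_norm (μ := PZ d μ)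
    (F := fun (y : Zd d) (ω : Zd d → ℝ) =>
      Complex.exp (((∑ j, θ j * y j : ℝ) : ℂ) * Complex.I) * ((‖G ω y‖ ^ 2 : ℝ) : ℂ))
    (fun y => ((G_int μ lam z hz G hG y).ofReal).const_mul _) (by
      refine (G_summable μ lam z hz G hG).congr fun y => ?_
      refine integral_congr_ae (Eventually.of_forall fun ω => ?_)
      simp only
      rw [norm_mul, Complex.norm_exp_ofReal_mul_I, one_mul, Complex.norm_real, Real.norm_eq_abs,
        abs_of_nonneg (by positivity)])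
  rw [← h1.tsum_eq]
  refine tsum_congr fun y => ?_
  rw [integral_const_mul, integral_complex_ofReal]

/-- **transfer** -/
theorem transfer (θ : Fin d → ℝ) :
    Tendsto (fun h : ℕ => ∑ x : T d (2 * h + 1), e (pm (2 * h + 1) θ) x *
        ((∫ V, ‖uu z lam V x‖ ^ 2 ∂(PL (T d (2 * h + 1)) μ) : ℝ) : ℂ)) atTop
      (𝓝 (∑' y : Zd d, Complex.exp (((∑ j, θ j * y j : ℝ) : ℂ) * Complex.I) *
        ((∫ ω, ‖G ω y‖ ^ 2 ∂(PZ d μ) : ℝ) : ℂ))) := by
  rw [← G_tsum μ lam z hz G hG θ]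
  simp only [← avg_eq μ lam z hz]
  refine tendsto_integral_filter_of_dominated_convergence (fun _ => 1 / z.im ^ 2) ?_ ?_
    (integrable_const _) ?_
  · refine Eventually.of_forall fun h => ?_
    refine Measurable.aestronglyMeasurable ?_
    refine Finset.measurable_fun_sum _ fun x _ => ?_
    exact (Complex.measurable_ofReal.comp
      (((uu_meas z lam x).comp (VL_meas h)).norm.pow_const 2)).const_mul _
  · refine Eventually.of_forall fun h => Eventually.of_forall fun ω => ?_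
    refine (norm_sum_le _ _).trans (le_trans (le_of_eq ?_) (uu_norm z hz lam (VL h ω)))
    refine Finset.sum_congr rfl fun x _ => ?_
    rw [norm_mul, e_norm, one_mul, Complex.norm_real, Real.norm_eq_abs,
      abs_of_nonneg (by positivity)]
  · filter_upwards [hG] with ω hω
    exact det_lim lam ω z hz (G ω) hω θ

end

end Pool.Agent.Zk11.QD
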