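import Pool.Agent.Zk11.QD.Seq
import Pool.Agent.Zk11.QD.Zp

/-! Quantum diffusion on the lattice. -/

set_option autoImplicit false
set_option linter.unusedSectionVars false

open scoped BigOperators Topology ENNReal
open MeasureTheory Filter

namespace Pool.Agent.Zk11.QD

open Pool.Agent.W788.MFP.Four (T e NN adj adj_neg e_comm e_add_left e_add e_zero e_neg e_neg_left
  e_normSq sum_e NN_pos card_T e_single)

variable {d : ℕ}

theorem lap_odd (s : ℝ) (hs : 0 < s) (ε : ℝ) (hε : 0 < ε) :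
    ∀ᶠ h : ℕ in atTop, ∀ w : ℂ, s ≤ w.im → ‖Lap (GaL d (2 * h + 1)) w - Lap (GG d) w‖ ≤ ε ∧
      ‖Lap (HaL d (2 * h + 1)) w - Lap (HH d) w‖ ≤ ε := by
  obtain ⟨N1, hN1⟩ := lap_conv (fun n => GaL d (n + 1)) (GG d) (fun n => GaL_cont) GG_cont 4
    (fun n t => GaL_le t) GG_le GaL_lim s hs ε hε
  obtain ⟨N2, hN2⟩ := lap_conv (fun n => HaL d (n + 1)) (HH d) (fun n => HaL_cont) HH_cont 4
    (fun n t => HaL_le t) HH_le HaL_lim s hs ε hε
  filter_upwards [eventually_ge_atTop (N1 + N2)] with h hh w hw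
  exact ⟨hN1 (2 * h) (by omega) w hw, hN2 (2 * h) (by omega) w hw⟩

theorem sin_sinc (a : ℝ) : Real.sin a = a * Real.sinc a := by
  rcases eq_or_ne a 0 with h | h
  · subst h; simp
  · rw [Real.sinc_of_ne_zero h]
    field_simp

theorem cos_sinc (a : ℝ) : 2 - 2 * Real.cos a = a ^ 2 * Real.sinc (a / 2) ^ 2 := by
  have h1 : Real.cos a = 1 - 2 * Real.sin (a / 2) ^ 2 := by
    have h2 := Real.cos_two_mul (a / 2)
    have h3 := Real.sin_sq_add_cos_sq (a / 2)
    have h4 : 2 * (a / 2) = a := by ring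
    rw [h4] at h2
    linarith
  have h5 := sin_sinc (a / 2)
  rw [h1, h5]
  ring

theorem mom (t a r : ℕ → ℝ) (P : ℝ) (ht : ∀ n, 0 < t n) (htl : Tendsto t atTop (𝓝 0))
    (hr : Tendsto r atTop (𝓝 0)) (ha : ∀ n, |a n - t n * P| ≤ t n * r n) :
    Tendsto (fun n => Real.sin (a n) ^ 2 / t n ^ 2) atTop (𝓝 (P ^ 2)) ∧
    Tendsto (fun n => (2 - 2 * Real.cos (a n)) / t n ^ 2) atTop (𝓝 (P ^ 2)) := by
  have h1 : Tendsto (fun n => a n / t n) atTop (𝓝 P) := by
    rw [tendsto_iff_norm_sub_tendsto_zero]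
    refine squeeze_zero (fun _ => norm_nonneg _) (fun n => ?_) hr
    have h2 := ht n
    have e1 : a n / t n - P = (a n - t n * P) / t n := by field_simp
    rw [e1, Real.norm_eq_abs, abs_div, abs_of_pos h2, div_le_iff₀ h2, mul_comm (r n)]
    exact ha n
  have h2 : Tendsto a atTop (𝓝 0) := by
    have h3 := h1.mul htl
    rw [mul_zero] at h3
    refine h3.congr fun n => ?_
    have := ht n
    field_simp
  have hs : Tendsto (fun n => Real.sinc (a n)) atTop (𝓝 1) := by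
    have := (Real.continuous_sinc.tendsto 0).comp h2
    rw [Real.sinc_zero] at this
    exact this
  have hs2 : Tendsto (fun n => Real.sinc (a n / 2)) atTop (𝓝 1) := by
    have h3 : Tendsto (fun n => a n / 2) atTop (𝓝 0) := by
      have := h2.div_const 2
      rwa [zero_div] at this
    have := (Real.continuous_sinc.tendsto 0).comp h3
    rw [Real.sinc_zero] at this
    exact this
  constructor
  · have h3 := (h1.pow 2).mul (hs.pow 2)
    rw [one_pow, mul_one] at h3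
    refine h3.congr fun n => ?_
    have := ht n
    rw [sin_sinc (a n)]
    field_simp
  · have h3 := (h1.pow 2).mul (hs2.pow 2)
    rw [one_pow, mul_one] at h3
    refine h3.congr fun n => ?_
    have := ht n
    rw [cos_sinc (a n)]
    field_simp

theorem pp_pm {L : ℕ} [NeZero L] (θ : Fin d → ℝ) :
    pp (pm L θ) = ∑ j, (2 - 2 * Real.cos (an L (θ j))) := by
  unfold pp
  exact Finset.sum_congr rfl fun j _ => by rw [co_pm]

theorem odd_top : Tendsto (fun h : ℕ => ((2 * h + 1 : ℕ) : ℝ)) atTop atTop :=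
  tendsto_natCast_atTop_atTop.comp
    (tendsto_atTop_mono (fun h : ℕ => (by omega : h ≤ 2 * h + 1)) tendsto_id)

/-- the choice of the size of the torus -/
theorem pick (σ η E θ0 : ℝ) (hσ : 0 < σ) (hη : 0 < η) (hθ0 : 0 < θ0)
    (μ : Measure ℝ) [IsProbabilityMeasure μ] (P : Fin d → ℝ)
    (G : (Zd d → ℝ) → Zd d → ℂ) (hG : ∀ᵐ ω ∂(PZ d μ), IsG σ ω ((E : ℂ) + η * Complex.I) (G ω)) :
    ∃ h : ℕ, (∀ w : ℂ, η ≤ w.im → ‖Lap (GaL d (2 * h + 1)) w - Lap (GG d) w‖ ≤ θ0 ∧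
      ‖Lap (HaL d (2 * h + 1)) w - Lap (HH d) w‖ ≤ θ0) ∧
      13 * (1 + (1 / η) ^ 4 + (1 / η) ^ 4) ^ 2 ≤ ((2 * h + 1 : ℕ) : ℝ) ∧
      (1 + (1 / η) ^ 4) ^ 3 ≤ ((2 * h + 1 : ℕ) : ℝ) ^ 2 ∧
      2 * Real.pi / ((2 * h + 1 : ℕ) : ℝ) ≤ σ * Real.sqrt η * θ0 ∧
      ‖(η : ℂ) * ∑ x : T d (2 * h + 1), e (pm (2 * h + 1) fun j => σ * Real.sqrt η * P j) x *
        ((∫ V, ‖uu ((E : ℂ) + η * Complex.I) σ V x‖ ^ 2 ∂(PL (T d (2 * h + 1)) μ) : ℝ) : ℂ) -
        (η : ℂ) * ∑' y : Zd d, Complex.exp (((∑ j, σ * Real.sqrt η * P j * y j : ℝ) : ℂ) *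
          Complex.I) * ((∫ ω, ‖G ω y‖ ^ 2 ∂(PZ d μ) : ℝ) : ℂ)‖ ≤ θ0 := by
  have hz : 0 < ((E : ℂ) + η * Complex.I).im := by simpa using hη
  have h1 := lap_odd (d := d) η hη θ0 hθ0
  have h2 := odd_top.eventually_ge_atTop (13 * (1 + (1 / η) ^ 4 + (1 / η) ^ 4) ^ 2)
  have h3 := odd_top.eventually_ge_atTop ((1 + (1 / η) ^ 4) ^ 3)
  have h4 := odd_top.eventually_ge_atTop (2 * Real.pi / (σ * Real.sqrt η * θ0))
  have h5 := ((transfer μ σ _ hz G hG (fun j => σ * Real.sqrt η * P j)).const_mul (η : ℂ))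
  have h6 := (Metric.tendsto_nhds.1 h5) θ0 hθ0
  obtain ⟨h, g1, g2, g3, g4, g6⟩ := (h1.and (h2.and (h3.and (h4.and h6)))).exists
  refine ⟨h, g1, g2, ?_, ?_, ?_⟩
  · refine g3.trans ?_
    have : (1 : ℝ) ≤ ((2 * h + 1 : ℕ) : ℝ) := by
      exact_mod_cast (by omega : 1 ≤ 2 * h + 1)
    nlinarith
  · have hs : 0 < σ * Real.sqrt η * θ0 := by
      have := Real.sqrt_pos.2 hη
      positivity
    have hL : (0 : ℝ) < ((2 * h + 1 : ℕ) : ℝ) := by
      exact_mod_cast (by omega : 0 < 2 * h + 1)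
    rw [div_le_iff₀ hs] at g4
    rw [div_le_iff₀ hL, mul_comm (σ * Real.sqrt η * θ0)]
    exact g4
  · rw [dist_eq_norm] at g6
    exact g6.le

set_option maxHeartbeats 4000000 in
/-- **Quantum diffusion.** -/
theorem fin_main (hd : 3 ≤ d) (E : ℝ) (hg : 0 < (g0 d E).im) (hh0 : 0 ≤ (h0 d E).im)
    (μ : Measure ℝ) [IsProbabilityMeasure μ] (b : ℝ) (hb : ∀ᵐ s ∂μ, |s| ≤ b)
    (hm1 : ∫ s, s ∂μ = 0) (hm2 : ∫ s, s ^ 2 ∂μ = 1) (κ : ℝ) (hκ0 : 0 < κ) (hκ1 : κ < 1 / 3)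
    (P : Fin d → ℝ) (ε : ℝ) (hε : 0 < ε) :
    ∃ δ : ℝ, 0 < δ ∧ ∀ lam η : ℝ, 0 < lam → lam < δ → lam ^ (2 + κ) ≤ η → η ≤ δ * lam ^ 2 →
      ∀ G : (Zd d → ℝ) → Zd d → ℂ,
        (∀ᵐ ω ∂(PZ d μ), IsG lam ω ((E : ℂ) + η * Complex.I) (G ω)) →
        ‖(η : ℂ) * ∑' y : Zd d, Complex.exp (((∑ j, lam * Real.sqrt η * P j * y j : ℝ) : ℂ) *
          Complex.I) * ((∫ ω, ‖G ω y‖ ^ 2 ∂(PZ d μ) : ℝ) : ℂ) -
          (((g0 d E).im / (1 + (h0 d E).im / (4 * (g0 d E).im ^ 2) * ∑ j, P j ^ 2) : ℝ) : ℂ)‖ ≤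
          ε := by
  by_contra hcon
  push Not at hcon
  -- constants
  set C0 : ℝ := ∫ t in Set.Ioi (0 : ℝ), ‖GG d t‖ with hC0
  have hC00 : 0 ≤ C0 := integral_nonneg fun _ => norm_nonneg _
  set Bm : ℝ := C0 + 1 with hBm
  have hBm1 : 1 ≤ Bm := by linarith
  set b' : ℝ := max b 1 with hb'
  have hb'1 : 1 ≤ b' := le_max_right _ _
  have hbb : ∀ᵐ s ∂μ, |s| ≤ b' := hb.mono fun s hs => hs.trans (le_max_left _ _)
  set c : ℝ := b' * (Bm + 1) with hc
  have hbc : b' ≤ c := by nlinarith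
  have hc1 : 1 ≤ c := hb'1.trans hbc
  have hc0 : 0 < c := by linarith
  set δ0 : ℝ := 1 / (200 * c ^ 3) with hδ0
  have hδ00 : 0 < δ0 := by positivity
  have hδ01 : δ0 ≤ 1 := by
    rw [hδ0, div_le_one (by positivity)]
    have : 1 ≤ c ^ 3 := one_le_pow₀ hc1
    linarith
  have hseq := fun n : ℕ => hcon (δ0 / (n + 1)) (by positivity)
  choose σ η hσ0 hσ1 hηκ hησ G hG herr using hseq
  have hnp : ∀ n : ℕ, (0 : ℝ) < (n : ℝ) + 1 := fun n => by positivity
  have hη0 : ∀ n, 0 < η n := fun n =>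
    lt_of_lt_of_le (Real.rpow_pos_of_pos (hσ0 n) _) (hηκ n)
  have hδn : ∀ n : ℕ, δ0 / ((n : ℝ) + 1) ≤ δ0 := fun n => by
    rw [div_le_iff₀ (hnp n)]
    have : (0 : ℝ) ≤ n := Nat.cast_nonneg n
    nlinarith
  have hσδ : ∀ n, σ n ≤ δ0 := fun n => (hσ1 n).le.trans (hδn n)
  have hσ1' : ∀ n, σ n ≤ 1 := fun n => (hσδ n).trans hδ01
  have hη1 : ∀ n, η n ≤ 1 := by
    intro n
    have h1 : σ n ^ 2 ≤ 1 := pow_le_one₀ (hσ0 n).le (hσ1' n)
    calc η n ≤ δ0 / (n + 1) * σ n ^ 2 := hησ n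
      _ ≤ 1 * 1 := mul_le_mul ((hδn n).trans hδ01) h1 (by positivity) (by norm_num)
      _ = 1 := one_mul 1
  set z : ℕ → ℂ := fun n => (E : ℂ) + η n * Complex.I with hz
  have hzim : ∀ n, (z n).im = η n := fun n => by simp [hz]
  -- the tori
  choose h ha hL1 hL2 hmom htr using fun n : ℕ => pick (σ n) (η n) E (1 / ((n : ℝ) + 1))
    (hσ0 n) (hη0 n) (by positivity) μ P (G n) (hG n)
  choose m hm0 hmeq using fun n : ℕ => mde_exists (aa (d := d) (L := 2 * h n + 1)) (z n)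
    (by rw [hzim]; exact hη0 n) (σ n)
  have hMD : ∀ n, MD d (2 * h n + 1) (z n) (σ n) (m n) := fun n =>
    ⟨by rw [hzim]; exact hη0 n, hm0 n, hmeq n⟩
  have hwim : ∀ n, η n ≤ (z n + (σ n : ℂ) ^ 2 * m n).im := by
    intro n
    rw [w_im]
    unfold ss
    rw [hzim]
    have := hm0 n
    have : 0 ≤ σ n ^ 2 * (m n).im := by positivity
    linarith
  have hmlap : ∀ n, m n = Lap (GaL d (2 * h n + 1)) (z n + (σ n : ℂ) ^ 2 * m n) := fun n =>
    m_lap (hMD n)
  have hmd : ∀ n, ‖m n - Lap (GG d) (z n + (σ n : ℂ) ^ 2 * m n)‖ ≤ 1 / ((n : ℝ) + 1) := by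
    intro n
    have h1 := (ha n _ (hwim n)).1
    rw [← hmlap n] at h1
    exact h1
  have hone : ∀ n : ℕ, 1 / ((n : ℝ) + 1) ≤ 1 := fun n => by
    rw [div_le_one (hnp n)]
    have : (0 : ℝ) ≤ n := Nat.cast_nonneg n
    linarith
  have hmB : ∀ n, ‖m n‖ ≤ Bm := by
    intro n
    have h1 := lap_bound (GG d) (GG_int hd) (z n + (σ n : ℂ) ^ 2 * m n)
      ((hη0 n).le.trans (hwim n))
    have e1 : m n = (m n - Lap (GG d) (z n + (σ n : ℂ) ^ 2 * m n)) +
      Lap (GG d) (z n + (σ n : ℂ) ^ 2 * m n) := by ring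
    rw [e1]
    refine (norm_add_le _ _).trans ?_
    have := (hmd n).trans (hone n)
    rw [hBm]
    linarith
  -- limits
  have hinv : Tendsto (fun n : ℕ => 1 / ((n : ℝ) + 1)) atTop (𝓝 0) :=
    tendsto_one_div_add_atTop_nhds_zero_nat
  have hδl : Tendsto (fun n : ℕ => δ0 / ((n : ℝ) + 1)) atTop (𝓝 0) := by
    have := hinv.const_mul δ0
    rw [mul_zero] at this
    refine this.congr fun n => ?_
    ring
  have hσl : Tendsto σ atTop (𝓝 0) :=
    squeeze_zero (fun n => (hσ0 n).le) (fun n => (hσ1 n).le) hδl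
  have hxl : Tendsto (fun n => (z n).im / σ n ^ 2) atTop (𝓝 0) := by
    refine squeeze_zero (fun n => ?_) (fun n => ?_) hδl
    · rw [hzim]
      have := hη0 n
      positivity
    · rw [hzim, div_le_iff₀ (by have := hσ0 n; positivity)]
      exact hησ n
  have hηl : Tendsto η atTop (𝓝 0) := by
    have h1 := hxl.mul (hσl.pow 2)
    norm_num at h1
    refine h1.congr fun n => ?_
    have := hσ0 n
    rw [hzim]
    field_simp
  have hyl : Tendsto (fun n => σ n ^ 3 / (z n).im) atTop (𝓝 0) := by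
    have h1 : Tendsto (fun n => σ n ^ (1 - κ)) atTop (𝓝 0) := by
      have h2 := (Real.continuousAt_rpow_const 0 (1 - κ) (Or.inr (by linarith))).tendsto.comp hσl
      rw [Real.zero_rpow (by linarith)] at h2
      exact h2
    refine squeeze_zero (fun n => ?_) (fun n => ?_) h1
    · rw [hzim]
      have := hη0 n
      have := hσ0 n
      positivity
    · rw [hzim, div_le_iff₀ (hη0 n)]
      have h3 := mul_le_mul_of_nonneg_left (hηκ n)
        (Real.rpow_pos_of_pos (hσ0 n) (1 - κ)).le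
      refine le_trans (le_of_eq ?_) h3
      rw [← Real.rpow_add (hσ0 n), ← Real.rpow_natCast]
      congr 1
      push_cast
      ring
  have hwl : Tendsto (fun n => z n + (σ n : ℂ) ^ 2 * m n) atTop (𝓝[{w : ℂ | 0 ≤ w.im}] (E : ℂ)) := by
    rw [tendsto_nhdsWithin_iff]
    constructor
    · rw [tendsto_iff_norm_sub_tendsto_zero]
      have h1 : Tendsto (fun n => η n + σ n ^ 2 * Bm) atTop (𝓝 0) := by
        have := hηl.add ((hσl.pow 2).mul_const Bm)
        norm_num at this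
        exact this
      refine squeeze_zero (fun _ => norm_nonneg _) (fun n => ?_) h1
      have e1 : z n + (σ n : ℂ) ^ 2 * m n - E = η n * Complex.I + (σ n : ℂ) ^ 2 * m n := by
        simp only [hz]
        ring
      rw [e1]
      refine (norm_add_le _ _).trans ?_
      rw [norm_mul, Complex.norm_I, mul_one, Complex.norm_real, Real.norm_eq_abs,
        abs_of_pos (hη0 n), norm_mul, norm_pow, Complex.norm_real, Real.norm_eq_abs, sq_abs]
      have := hmB n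
      gcongr
    · refine Eventually.of_forall fun n => ?_
      exact (hη0 n).le.trans (hwim n)
  have hml : Tendsto m atTop (𝓝 (g0 d E)) := by
    have h1 := (lap_cont (GG d) GG_cont (GG_int hd) E).comp hwl
    have h2 : Tendsto (fun n => m n - Lap (GG d) (z n + (σ n : ℂ) ^ 2 * m n)) atTop (𝓝 0) := by
      rw [tendsto_zero_iff_norm_tendsto_zero]
      exact squeeze_zero (fun _ => norm_nonneg _) hmd hinv
    have h3 := h2.add h1
    rw [zero_add] at h3
    refine h3.congr fun n => ?_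
    simp
  have hQl : ∀ j, Tendsto (fun n => Qv d (2 * h n + 1) (z n) (σ n) (m n) j) atTop
      (𝓝 (h0 d E).im) := by
    intro j
    have h1 := (lap_cont (HH d) HH_cont (HH_int hd) E).comp hwl
    have h2 : Tendsto (fun n => Lap (HaL d (2 * h n + 1)) (z n + (σ n : ℂ) ^ 2 * m n) -
        Lap (HH d) (z n + (σ n : ℂ) ^ 2 * m n)) atTop (𝓝 0) := by
      rw [tendsto_zero_iff_norm_tendsto_zero]
      exact squeeze_zero (fun _ => norm_nonneg _) (fun n => (ha n _ (hwim n)).2) hinv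
    have h3 := h2.add h1
    rw [zero_add] at h3
    have h4 := (Complex.continuous_im.tendsto _).comp h3
    refine h4.congr fun n => ?_
    rw [Q_lap (hMD n) j]
    simp
  -- the site functions
  have hsite := fun n : ℕ => site_aux μ b' c (σ n) (m n) hb'1 hbc
    (by
      have := hmB n
      rw [hc]
      nlinarith [norm_nonneg (m n)])
    (by
      have := hmB n
      rw [hc]
      nlinarith [norm_nonneg (m n)])
    (hσ0 n)
    (by
      have h1 := hσδ n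
      rw [hδ0, le_div_iff₀ (by positivity)] at h1
      linarith) hbb hm1 hm2
  choose τ hh hS using hsite
  -- momenta
  have htl : Tendsto (fun n => σ n * Real.sqrt (η n)) atTop (𝓝 0) := by
    have := hσl.mul ((Real.continuous_sqrt.tendsto _).comp hηl)
    rw [Real.sqrt_zero, mul_zero] at this
    exact this
  have ht0 : ∀ n, 0 < σ n * Real.sqrt (η n) := fun n =>
    mul_pos (hσ0 n) (Real.sqrt_pos.2 (hη0 n))
  have htsq : ∀ n, σ n ^ 2 * (z n).im = (σ n * Real.sqrt (η n)) ^ 2 := by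
    intro n
    rw [mul_pow, Real.sq_sqrt (hη0 n).le, hzim]
  have hmo := fun j : Fin d => mom (fun n => σ n * Real.sqrt (η n))
    (fun n => an (2 * h n + 1) (σ n * Real.sqrt (η n) * P j)) (fun n => 1 / ((n : ℝ) + 1)) (P j) ht0
    htl hinv (fun n => (an_close (2 * h n + 1) (by omega) _).trans (hmom n))
  set p : (n : ℕ) → T d (2 * h n + 1) := fun n =>
    pm (2 * h n + 1) (fun j => σ n * Real.sqrt (η n) * P j) with hp
  have hLH : LH (d := d) (fun n => 2 * h n + 1) z σ τ m p (g0 d E) (h0 d E).im (100 * c ^ 3) P :=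
    { md := hMD
      σ0 := hσ0
      σl := hσl
      xl := hxl
      yl := hyl
      ml := hml
      gi := hg
      Ql := hQl
      H0 := hh0
      τl := fun n => (hS n).τσ
      p1 := by
        intro j
        refine (hmo j).1.congr fun n => ?_
        simp only [hp]
        rw [si_pm, htsq]
      p2 := by
        have h1 := tendsto_finsetSum (Finset.univ : Finset (Fin d)) fun j _ => (hmo j).2
        refine h1.congr fun n => ?_
        simp only [hp]
        rw [pp_pm, htsq, Finset.sum_div] }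
  -- the fourth moment
  set C4 : ℝ := Bm ^ 4 + 10 * d * Bm + d * (5 * 10 ^ 18) with hC4
  have hN4 : ∀ n, N4 d (2 * h n + 1) (z n) (σ n) (m n) ≤
      C4 * (1 + Real.log (1 / (z n).im)) ^ 3 := by
    intro n
    have hk0 : ‖kc (rv (z n + (σ n : ℂ) ^ 2 * m n)) (0 : T d (2 * h n + 1))‖ ≤ Bm := by
      have h1 := Mk_diag (hMD n) 0
      unfold Mk at h1
      rw [sub_self, Mh_w] at h1
      unfold rv
      rw [h1]
      exact hmB n
    have hk2 : ∑ x : T d (2 * h n + 1), ‖kc (rv (z n + (σ n : ℂ) ^ 2 * m n)) x‖ ^ 2 ≤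
        Bm / η n := by
      have h1 := sq_sum (hMD n)
      have h2 := parseval_sq (Mh (z n) (σ n) (m n) : T d (2 * h n + 1) → ℂ)
      rw [h1, Mh_w] at h2
      unfold rv
      rw [h2]
      have h3 : (m n).im ≤ Bm := ((le_abs_self _).trans (Complex.abs_im_le_norm _)).trans (hmB n)
      have h4 : η n ≤ ss (z n) (σ n) (m n) := by
        have := hwim n
        rwa [w_im] at this
      have h5 := hη0 n
      have h6 := (hm0 n).le
      exact div_le_div₀ (by linarith) h3 h5 h4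
    have h1 := four_bound hd (z n + (σ n : ℂ) ^ 2 * m n) (η n) (hη0 n) (hη1 n) (hwim n) (hL1 n)
      (hL2 n) Bm (by linarith) hk0 hk2
    have h2 : N4 d (2 * h n + 1) (z n) (σ n) (m n) =
        ∑ x : T d (2 * h n + 1), ‖kc (rv (z n + (σ n : ℂ) ^ 2 * m n)) x‖ ^ 4 := by
      unfold N4 rv
      rw [Mh_w]
    rw [h2]
    refine h1.trans ?_
    rw [hzim]
    have h3 : 0 ≤ Real.log (1 / η n) := Real.log_nonneg (by
      rw [le_div_iff₀ (hη0 n)]
      linarith [hη1 n])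
    set Λ := 1 + Real.log (1 / η n) with hΛ
    have hΛ1 : 1 ≤ Λ ^ 3 := one_le_pow₀ (by linarith)
    have h4 : 0 ≤ Bm ^ 4 + 10 * d * Bm := by positivity
    have h5 : Bm ^ 4 + 10 * d * Bm ≤ (Bm ^ 4 + 10 * d * Bm) * Λ ^ 3 := by
      nlinarith
    calc Bm ^ 4 + 10 * d * Bm + d * (5 * 10 ^ 18 * Λ ^ 3) ≤
          (Bm ^ 4 + 10 * d * Bm) * Λ ^ 3 + d * (5 * 10 ^ 18 * Λ ^ 3) := by linarith
      _ = _ := by rw [hC4]; ring
  have hfin := seq_main hLH (by positivity) μ hh hS κ hκ0 hκ1 (fun n => by rw [hzim]; exact hηκ n)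
    C4 (by positivity) hN4 (fun n => uu (z n) (σ n)) (fun n x => uu_meas (z n) (σ n) x)
    (fun n V x => uu_eq (z n) (by rw [hzim]; exact hη0 n) (σ n) V x)
  -- conclusion
  have h7 := (Metric.tendsto_nhds.1 hfin) (ε / 2) (by positivity)
  have h8 := hinv.eventually_lt_const (show 0 < ε / 2 by positivity)
  obtain ⟨n, h9, h10⟩ := (h7.and h8).exists
  have h11 := herr n
  have h12 := htr n
  rw [dist_eq_norm, hzim] at h9
  have h13 := norm_sub_le_norm_sub_add_norm_sub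
    ((η n : ℂ) * ∑' y : Zd d, Complex.exp (((∑ j, σ n * Real.sqrt (η n) * P j * y j : ℝ) : ℂ) *
          Complex.I) * ((∫ ω, ‖G n ω y‖ ^ 2 ∂(PZ d μ) : ℝ) : ℂ))
    ((η n : ℂ) * ∑ x : T d (2 * h n + 1), e (p n) x *
        ((∫ V, ‖uu (z n) (σ n) V x‖ ^ 2 ∂(PL (T d (2 * h n + 1)) μ) : ℝ) : ℂ))
    (((g0 d E).im / (1 + (h0 d E).im / (4 * (g0 d E).im ^ 2) * ∑ j, P j ^ 2) : ℝ) : ℂ)
  rw [norm_sub_rev] at h12
  have h14 : ‖(η n : ℂ) * ∑' y : Zd d, Complex.exp (((∑ j, σ n * Real.sqrt (η n) * P j * y j :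
      ℝ) : ℂ) * Complex.I) * ((∫ ω, ‖G n ω y‖ ^ 2 ∂(PZ d μ) : ℝ) : ℂ) -
      (η n : ℂ) * ∑ x : T d (2 * h n + 1), e (p n) x *
        ((∫ V, ‖uu (z n) (σ n) V x‖ ^ 2 ∂(PL (T d (2 * h n + 1)) μ) : ℝ) : ℂ)‖ ≤
      1 / ((n : ℝ) + 1) := h12
  linarith

end Pool.Agent.Zk11.QD
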