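import Pool.Agent.Zk11.QD.PosA

/-! Positivity of the boundary values of the free resolvent. -/

set_option autoImplicit false
set_option linter.unusedSectionVars false

open scoped BigOperators Topology ENNReal
open MeasureTheory Filter

namespace Pool.Agent.Zk11.QD

variable {d : ℕ}

/-- lower bound on a segment -/
theorem seg_lower (i0 : Fin d) (E r' δ w0 : ℝ) (W : (Fin d → ℝ) → ℝ) (hw0 : 0 ≤ w0)
    (k : Fin d → ℝ) (τ0 : ℝ) (hτ0 : τ0 ∈ Set.Icc (-r') r') (hE : ek (k + Pi.single i0 τ0) = E)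
    (hW : ∀ τ ∈ Set.Icc (-r') r', w0 ≤ W (k + Pi.single i0 τ)) (hδ0 : 0 < δ)
    (hδ : δ ≤ 4 * Real.pi * r') :
    ENNReal.ofReal (w0 / (8 * Real.pi)) ≤
      ∫⁻ τ in Set.Icc (-r') r', ENNReal.ofReal (W (k + Pi.single i0 τ) *
        po δ (ek (k + Pi.single i0 τ) - E)) := by
  have hpi := Real.pi_pos
  set ℓ := δ / (4 * Real.pi) with hℓ
  have hℓ0 : 0 < ℓ := by positivity
  have hℓr : ℓ ≤ r' := by
    rw [hℓ, div_le_iff₀ (by positivity)]
    linarith
  obtain ⟨a, ha1, ha2⟩ : ∃ a, Set.Icc a (a + ℓ) ⊆ Set.Icc (-r') r' ∧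
      ∀ τ ∈ Set.Icc a (a + ℓ), |τ - τ0| ≤ ℓ := by
    rcases le_total τ0 0 with h | h
    · refine ⟨τ0, fun τ hτ => ⟨hτ0.1.trans hτ.1, hτ.2.trans (by linarith)⟩, fun τ hτ => ?_⟩
      rw [abs_le]
      constructor <;> linarith [hτ.1, hτ.2]
    · refine ⟨τ0 - ℓ, fun τ hτ => ⟨by linarith [hτ.1], by linarith [hτ.2, hτ0.2]⟩, fun τ hτ => ?_⟩
      rw [abs_le]
      constructor <;> linarith [hτ.1, hτ.2]
  have h1 : ∀ τ ∈ Set.Icc a (a + ℓ), ENNReal.ofReal (w0 / (2 * δ)) ≤
      ENNReal.ofReal (W (k + Pi.single i0 τ) * po δ (ek (k + Pi.single i0 τ) - E)) := by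
    intro τ hτ
    apply ENNReal.ofReal_le_ofReal
    have h2 : |ek (k + Pi.single i0 τ) - E| ≤ δ := by
      rw [← hE]
      refine (ek_shift i0 k τ τ0).trans ?_
      calc 4 * Real.pi * |τ - τ0| ≤ 4 * Real.pi * ℓ :=
            mul_le_mul_of_nonneg_left (ha2 τ hτ) (by positivity)
        _ = δ := by rw [hℓ]; field_simp
    have h3 : 1 / (2 * δ) ≤ po δ (ek (k + Pi.single i0 τ) - E) := by
      have h4 : (ek (k + Pi.single i0 τ) - E) ^ 2 ≤ δ ^ 2 := by
        rw [← sq_abs]
        exact pow_le_pow_left₀ (abs_nonneg _) h2 2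
      generalize ek (k + Pi.single i0 τ) - E = Y at h4
      unfold po
      rw [div_le_div_iff₀ (by positivity) (by positivity)]
      nlinarith
    calc w0 / (2 * δ) = w0 * (1 / (2 * δ)) := by ring
      _ ≤ _ := mul_le_mul (hW τ (ha1 hτ)) h3 (by positivity) (hw0.trans (hW τ (ha1 hτ)))
  have e1 : w0 / (8 * Real.pi) = w0 / (2 * δ) * ℓ := by
    rw [hℓ]
    field_simp
    ring
  have e2 : volume (Set.Icc a (a + ℓ)) = ENNReal.ofReal ℓ := by
    rw [Real.volume_Icc]
    congr 1
    ring
  have e3 : ∫⁻ _τ in Set.Icc a (a + ℓ), ENNReal.ofReal (w0 / (2 * δ)) =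
      ENNReal.ofReal (w0 / (8 * Real.pi)) := by
    rw [setLIntegral_const, e2, e1, ENNReal.ofReal_mul (by positivity)]
  rw [← e3]
  exact (setLIntegral_mono' measurableSet_Icc h1).trans (lintegral_mono_set ha1)

theorem po_cont (δ : ℝ) (hδ : 0 < δ) : Continuous (po δ) := by
  unfold po
  refine continuous_const.div (by fun_prop) fun y => ?_
  positivity

/-- lower bound for the Poisson integrals -/
theorem po_lower (i0 : Fin d) (E : ℝ) (hE0 : 0 < E) (hE1 : E < 4 * d) (W : (Fin d → ℝ) → ℝ)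
    (hWc : Continuous W) (hW0 : ∀ k, 0 ≤ W k)
    (hWp : ∀ k : Fin d → ℝ, (∀ i, 0 < k i ∧ k i < 1 / 2) → 0 < W k) :
    ∃ c : ℝ, 0 < c ∧ ∀ᶠ δ in 𝓝[>] (0 : ℝ), c ≤ ∫ k in cube d, W k * po δ (ek k - E) := by
  have hpi := Real.pi_pos
  have hd0 : (0 : ℝ) < d := by
    have : 0 < d := i0.pos
    exact_mod_cast this
  -- the diagonal point
  set x0 : ℝ := 1 - E / (2 * d) with hx0
  have hx1 : x0 < 1 := by
    rw [hx0]
    have : 0 < E / (2 * d) := by positivity
    linarith
  have hx2 : -1 < x0 := by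
    rw [hx0]
    have : E / (2 * d) < 2 := by
      rw [div_lt_iff₀ (by positivity)]
      linarith
    linarith
  set θ : ℝ := Real.arccos x0 / (2 * Real.pi) with hθ
  have hθ0 : 0 < θ := by
    have : 0 < Real.arccos x0 := Real.arccos_pos.2 hx1
    positivity
  have h2pθ : 2 * Real.pi * θ = Real.arccos x0 := by
    rw [hθ]
    field_simp
  have hcosθ : Real.cos (2 * Real.pi * θ) = x0 := by
    rw [h2pθ, Real.cos_arccos hx2.le hx1.le]
  have hθ1 : θ < 1 / 2 := by
    have h1 : Real.arccos x0 < Real.pi := by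
      rcases (Real.arccos_le_pi x0).lt_or_eq with h | h
      · exact h
      · exfalso
        rw [Real.arccos_eq_pi] at h
        linarith
    rw [hθ, div_lt_iff₀ (by positivity)]
    linarith
  have hEθ : (d : ℝ) * (2 - 2 * Real.cos (2 * Real.pi * θ)) = E := by
    rw [hcosθ, hx0]
    field_simp
    ring
  set r' : ℝ := min θ (1 / 2 - θ) / 4 with hr'
  have hmin : 0 < min θ (1 / 2 - θ) := lt_min hθ0 (by linarith)
  have hr'0 : 0 < r' := by positivity
  have hr1 : 2 * r' < θ := by
    have := min_le_left θ (1 / 2 - θ)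
    rw [hr']
    linarith
  have hr2 : θ + 2 * r' < 1 / 2 := by
    have := min_le_right θ (1 / 2 - θ)
    rw [hr']
    linarith
  have hs1 : 0 < 2 * Real.cos (2 * Real.pi * θ) - 2 * Real.cos (2 * Real.pi * (θ + r' / 2)) := by
    have : Real.cos (2 * Real.pi * (θ + r' / 2)) < Real.cos (2 * Real.pi * θ) := by
      apply Real.cos_lt_cos_of_nonneg_of_le_pi
      · positivity
      · nlinarith
      · nlinarith
    linarith
  have hs2 : 0 < 2 * Real.cos (2 * Real.pi * (θ - r' / 2)) - 2 * Real.cos (2 * Real.pi * θ) := by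
    have : Real.cos (2 * Real.pi * θ) < Real.cos (2 * Real.pi * (θ - r' / 2)) := by
      apply Real.cos_lt_cos_of_nonneg_of_le_pi
      · have : 0 ≤ θ - r' / 2 := by linarith
        positivity
      · nlinarith
      · nlinarith
    linarith
  set c0 := min (2 * Real.cos (2 * Real.pi * θ) - 2 * Real.cos (2 * Real.pi * (θ + r' / 2)))
    (2 * Real.cos (2 * Real.pi * (θ - r' / 2)) - 2 * Real.cos (2 * Real.pi * θ)) with hc0
  have hc00 : 0 < c0 := lt_min hs1 hs2
  set r : ℝ := min (r' / 2) (c0 / (8 * Real.pi * d)) with hr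
  have hr0 : 0 < r := lt_min (by positivity) (by positivity)
  have hrr : r ≤ r' / 2 := min_le_left _ _
  have hrc : 4 * Real.pi * d * r < c0 := by
    have h1 : r ≤ c0 / (8 * Real.pi * d) := min_le_right _ _
    calc 4 * Real.pi * d * r ≤ 4 * Real.pi * d * (c0 / (8 * Real.pi * d)) :=
          mul_le_mul_of_nonneg_left h1 (by positivity)
      _ = c0 / 2 := by field_simp; ring
      _ < c0 := by linarith
  -- the weight
  set Rg : Set (Fin d → ℝ) := Set.pi Set.univ fun _ => Set.Icc (θ - 2 * r') (θ + 2 * r') with hRg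
  have hRgc : IsCompact Rg := isCompact_univ_pi fun _ => isCompact_Icc
  have hRgn : Rg.Nonempty := ⟨fun _ => θ, fun i _ => ⟨by linarith, by linarith⟩⟩
  obtain ⟨k1, hk1, hk1m⟩ := hRgc.exists_isMinOn hRgn hWc.continuousOn
  set w0 := W k1 with hw0def
  have hw0 : 0 < w0 := by
    refine hWp k1 fun i => ?_
    have := hk1 i (Set.mem_univ _)
    exact ⟨by linarith [this.1], by linarith [this.2]⟩
  have hWge : ∀ k ∈ Rg, w0 ≤ W k := fun k hk => hk1m hk
  set B : Set (Fin d → ℝ) := Set.pi Set.univ fun _ => Set.Icc (θ - r) (θ + r) with hB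
  have hBm : MeasurableSet B := MeasurableSet.univ_pi fun _ => measurableSet_Icc
  have hBv : volume B = ENNReal.ofReal ((2 * r) ^ d) := by
    rw [hB, volume_pi_pi]
    simp only [Real.volume_Icc]
    rw [Finset.prod_const, Finset.card_univ, Fintype.card_fin]
    have e1 : θ + r - (θ - r) = 2 * r := by ring
    rw [e1, ENNReal.ofReal_pow (by positivity)]
  refine ⟨(2 * r) ^ d * (w0 / (8 * Real.pi)) / (2 * r'), by positivity, ?_⟩
  have hev : ∀ᶠ δ in 𝓝[>] (0 : ℝ), 0 < δ ∧ δ ≤ 4 * Real.pi * r' := by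
    have h1 : ∀ᶠ δ in 𝓝[>] (0 : ℝ), 0 < δ := self_mem_nhdsWithin
    have h2 : ∀ᶠ δ in 𝓝[>] (0 : ℝ), δ ≤ 4 * Real.pi * r' :=
      (eventually_le_nhds (by positivity : 0 < 4 * Real.pi * r')).filter_mono nhdsWithin_le_nhds
    exact h1.and h2
  filter_upwards [hev] with δ hδ
  obtain ⟨hδ0, hδ1⟩ := hδ
  set F : (Fin d → ℝ) → ℝ := fun k => W k * po δ (ek k - E) with hF
  have hF0 : ∀ k, 0 ≤ F k := by
    intro k
    simp only [hF, po]
    have := hW0 k
    positivity
  have hFc : Continuous F := hWc.mul ((po_cont δ hδ0).comp (ek_cont.sub continuous_const))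
  have hcubec : IsCompact (cube d) := isCompact_univ_pi fun _ => isCompact_Icc
  have hcm : MeasurableSet (cube d) := MeasurableSet.univ_pi fun _ => measurableSet_Icc
  have hFi : IntegrableOn F (cube d) := hFc.continuousOn.integrableOn_compact hcubec
  -- continuity in both variables
  have hsc : Continuous fun q : ℝ × (Fin d → ℝ) => q.2 + Pi.single i0 q.1 := by
    refine continuous_snd.add (continuous_pi fun j => ?_)
    by_cases hj : j = i0
    · subst hj
      simp only [Pi.single_eq_same]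
      exact continuous_fst
    · simp only [Pi.single_eq_of_ne hj]
      exact continuous_const
  -- lower bound for the double integral
  have hlow : ENNReal.ofReal ((2 * r) ^ d * (w0 / (8 * Real.pi))) ≤
      ∫⁻ k in B, ∫⁻ τ in Set.Icc (-r') r', ENNReal.ofReal (F (k + Pi.single i0 τ)) := by
    calc ENNReal.ofReal ((2 * r) ^ d * (w0 / (8 * Real.pi))) =
          ∫⁻ _k in B, ENNReal.ofReal (w0 / (8 * Real.pi)) := by
          rw [setLIntegral_const, hBv, ← ENNReal.ofReal_mul (by positivity), mul_comm]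
      _ ≤ _ := by
          refine setLIntegral_mono' hBm fun k hk => ?_
          have hk' : ∀ i, |k i - θ| ≤ r := by
            intro i
            have := hk i (Set.mem_univ _)
            rw [abs_le]
            constructor <;> linarith [this.1, this.2]
          obtain ⟨τ0, hτ0, hτE⟩ := crossing i0 E θ r r' hθ0 hθ1 hEθ hr0 hrr hr1 hr2
            (hrc.trans_le (min_le_left _ _)) (hrc.trans_le (min_le_right _ _)) k hk'
          refine seg_lower i0 E r' δ w0 W hw0.le k τ0 hτ0 hτE (fun τ hτ => ?_) hδ0 hδ1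
          apply hWge
          intro j _
          have := hk j (Set.mem_univ _)
          by_cases hj : j = i0
          · subst hj
            rw [Pi.add_apply, Pi.single_eq_same]
            constructor <;> linarith [this.1, this.2, hτ.1, hτ.2]
          · rw [Pi.add_apply, Pi.single_eq_of_ne hj, add_zero]
            constructor <;> linarith [this.1, this.2]
  -- upper bound
  have hup : ∀ τ ∈ Set.Icc (-r') r', ∫⁻ k in B, ENNReal.ofReal (F (k + Pi.single i0 τ)) ≤
      ∫⁻ k in cube d, ENNReal.ofReal (F k) := by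
    intro τ hτ
    rw [← lintegral_indicator hBm, ← lintegral_indicator hcm]
    rw [← lintegral_add_right_eq_self (μ := volume) (fun k => (cube d).indicator
      (fun k => ENNReal.ofReal (F k)) k) (Pi.single i0 τ)]
    refine lintegral_mono fun k => ?_
    by_cases hk : k ∈ B
    · rw [Set.indicator_of_mem hk, Set.indicator_of_mem]
      intro j _
      have := hk j (Set.mem_univ _)
      by_cases hj : j = i0
      · subst hj
        rw [Pi.add_apply, Pi.single_eq_same]
        constructor <;> linarith [this.1, this.2, hτ.1, hτ.2]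
      · rw [Pi.add_apply, Pi.single_eq_of_ne hj, add_zero]
        constructor <;> linarith [this.1, this.2]
    · rw [Set.indicator_of_notMem hk]
      exact zero_le
  have hswap : ∫⁻ k in B, ∫⁻ τ in Set.Icc (-r') r', ENNReal.ofReal (F (k + Pi.single i0 τ)) =
      ∫⁻ τ in Set.Icc (-r') r', ∫⁻ k in B, ENNReal.ofReal (F (k + Pi.single i0 τ)) := by
    rw [lintegral_lintegral_swap]
    refine Measurable.aemeasurable ?_
    have h1 : Continuous fun q : (Fin d → ℝ) × ℝ => F (q.1 + Pi.single i0 q.2) :=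
      hFc.comp (hsc.comp continuous_swap)
    exact ENNReal.measurable_ofReal.comp h1.measurable
  rw [hswap] at hlow
  have hup2 : ∫⁻ τ in Set.Icc (-r') r', ∫⁻ k in B, ENNReal.ofReal (F (k + Pi.single i0 τ)) ≤
      (∫⁻ k in cube d, ENNReal.ofReal (F k)) * ENNReal.ofReal (2 * r') := by
    refine (setLIntegral_mono' measurableSet_Icc hup).trans (le_of_eq ?_)
    rw [setLIntegral_const, Real.volume_Icc]
    congr 2
    ring
  have h3 := hlow.trans hup2
  rw [← ofReal_integral_eq_lintegral_ofReal hFi (Eventually.of_forall hF0),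
    ← ENNReal.ofReal_mul (integral_nonneg fun k => hF0 k)] at h3
  rw [ENNReal.ofReal_le_ofReal_iff (mul_nonneg (integral_nonneg fun k => hF0 k)
    (by positivity))] at h3
  rw [div_le_iff₀ (by positivity)]
  exact h3

theorem g0_pos (hd : 3 ≤ d) (E : ℝ) (hE0 : 0 < E) (hE1 : E < 4 * d) : 0 < (g0 d E).im := by
  obtain ⟨c, hc, h1⟩ := po_lower (⟨0, by omega⟩ : Fin d) E hE0 hE1 (fun _ => 1) continuous_const
    (fun _ => zero_le_one) (fun _ _ => one_pos)
  simp only [one_mul] at h1
  exact lt_of_lt_of_le hc (ge_of_tendsto (g0_po hd E) h1)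

theorem h0_pos (hd : 3 ≤ d) (E : ℝ) (hE0 : 0 < E) (hE1 : E < 4 * d) : 0 < (h0 d E).im := by
  set i0 : Fin d := ⟨0, by omega⟩
  obtain ⟨c, hc, h1⟩ := po_lower i0 E hE0 hE1 (fun k => 4 * Real.sin (2 * Real.pi * k i0) ^ 2)
    (by fun_prop) (fun _ => by positivity) (fun k hk => by
      have h2 := hk i0
      have hpi := Real.pi_pos
      have h3 : 0 < Real.sin (2 * Real.pi * k i0) := by
        apply Real.sin_pos_of_pos_of_lt_pi
        · have := h2.1
          positivity
        · nlinarith [h2.2]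
      positivity)
  exact lt_of_lt_of_le hc (ge_of_tendsto (h0_po hd i0 E) h1)

end Pool.Agent.Zk11.QD
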