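import Pool.Agent.Zk11.QD.Seq3
import Pool.Agent.Zk11.QD.Fin
import Pool.Agent.Zk11.QD.Pos

/-! Quantum diffusion on the lattice, uniformly in the energy, the momentum and the law. -/

set_option autoImplicit false
set_option linter.unusedSectionVars false

open scoped BigOperators Topology ENNReal
open MeasureTheory Filter

namespace Pool.Agent.Zk11.QD

open Pool.Agent.W788.MFP.Four (T e NN adj adj_neg e_comm e_add_left e_add e_zero e_neg e_neg_left
  e_normSq sum_e NN_pos card_T e_single)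

variable {d : ℕ}

/-- the limiting profile -/
noncomputable def tgt (d : ℕ) (E : ℝ) (P : Fin d → ℝ) : ℝ :=
  (g0 d E).im / (1 + (h0 d E).im / (4 * (g0 d E).im ^ 2) * ∑ j, P j ^ 2)

theorem g0_cont (hd : 3 ≤ d) : Continuous (g0 d) := by
  rw [continuous_iff_continuousAt]
  intro E
  have h1 := lap_cont (GG d) GG_cont (GG_int hd) E
  have h2 : Tendsto (fun E' : ℝ => (E' : ℂ)) (𝓝 E) (𝓝[{w : ℂ | 0 ≤ w.im}] (E : ℂ)) := by
    rw [tendsto_nhdsWithin_iff]
    exact ⟨Complex.continuous_ofReal.tendsto E, Eventually.of_forall fun E' => by simp⟩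
  exact h1.comp h2

theorem h0_cont (hd : 3 ≤ d) : Continuous (h0 d) := by
  rw [continuous_iff_continuousAt]
  intro E
  have h1 := lap_cont (HH d) HH_cont (HH_int hd) E
  have h2 : Tendsto (fun E' : ℝ => (E' : ℂ)) (𝓝 E) (𝓝[{w : ℂ | 0 ≤ w.im}] (E : ℂ)) := by
    rw [tendsto_nhdsWithin_iff]
    exact ⟨Complex.continuous_ofReal.tendsto E, Eventually.of_forall fun E' => by simp⟩
  exact h1.comp h2

theorem tgt_lim (hd : 3 ≤ d) (E : ℝ) (hE0 : 0 < E) (hE1 : E < 4 * d) (P : Fin d → ℝ)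
    (En : ℕ → ℝ) (Pn : ℕ → Fin d → ℝ) (hE : Tendsto En atTop (𝓝 E))
    (hP : Tendsto Pn atTop (𝓝 P)) :
    Tendsto (fun n => tgt d (En n) (Pn n)) atTop (𝓝 (tgt d E P)) := by
  have hg := g0_pos hd E hE0 hE1
  have hh := h0_pos hd E hE0 hE1
  unfold tgt
  have h1 : Tendsto (fun n => (g0 d (En n)).im) atTop (𝓝 (g0 d E).im) :=
    (Complex.continuous_im.tendsto _).comp (((g0_cont hd).tendsto E).comp hE)
  have h2 : Tendsto (fun n => (h0 d (En n)).im) atTop (𝓝 (h0 d E).im) :=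
    (Complex.continuous_im.tendsto _).comp (((h0_cont hd).tendsto E).comp hE)
  have h3 : Tendsto (fun n => ∑ j, Pn n j ^ 2) atTop (𝓝 (∑ j, P j ^ 2)) :=
    tendsto_finsetSum _ fun j _ => ((tendsto_pi_nhds.1 hP) j).pow 2
  have hW : 0 ≤ ∑ j, P j ^ 2 := Finset.sum_nonneg fun _ _ => by positivity
  refine h1.div (tendsto_const_nhds.add ((h2.div ((h1.pow 2).const_mul 4) ?_).mul h3)) ?_
  · positivity
  · positivity


set_option maxHeartbeats 4000000 in
/-- **Quantum diffusion**, uniformly in the energy, the momentum and the law. -/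
theorem fin_unif (hd : 3 ≤ d) (E1 E2 : ℝ) (hE1 : 0 < E1) (hE2 : E2 < 4 * d) (b : ℝ)
    (κ : ℝ) (hκ0 : 0 < κ) (hκ1 : κ < 1 / 2) (R : ℝ) (ε : ℝ) (hε : 0 < ε) :
    ∃ δ : ℝ, 0 < δ ∧ ∀ (μ : Measure ℝ) [IsProbabilityMeasure μ], (∀ᵐ s ∂μ, |s| ≤ b) →
      ∫ s, s ∂μ = 0 → ∫ s, s ^ 2 ∂μ = 1 → ∀ E E' : ℝ, E1 ≤ E → E ≤ E2 → |E' - E| ≤ δ →
      ∀ P : Fin d → ℝ, (∀ j, |P j| ≤ R) →
      ∀ lam η : ℝ, 0 < lam → lam < δ → lam ^ (2 + κ) ≤ η → η ≤ δ * lam ^ 2 →
      ∀ G : (Zd d → ℝ) → Zd d → ℂ,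
        (∀ᵐ ω ∂(PZ d μ), IsG lam ω ((E' : ℂ) + η * Complex.I) (G ω)) →
        ‖(η : ℂ) * ∑' y : Zd d, Complex.exp (((∑ j, lam * Real.sqrt η * P j * y j : ℝ) : ℂ) *
          Complex.I) * ((∫ ω, ‖G ω y‖ ^ 2 ∂(PZ d μ) : ℝ) : ℂ) - ((tgt d E P : ℝ) : ℂ)‖ ≤ ε := by
  by_contra hcon
  push Not at hcon
  -- constants
  set C0 : ℝ := ∫ t in Set.Ioi (0 : ℝ), ‖GG d t‖ with hC0
  have hC00 : 0 ≤ C0 := integral_nonneg fun _ => norm_nonneg _
  set Bm : ℝ := C0 + 1 with hBm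
  have hBm1 : 1 ≤ Bm := by linarith
  set b' : ℝ := max b 1 with hb'
  have hb'1 : 1 ≤ b' := le_max_right _ _
  set c : ℝ := b' * (Bm + 1) with hc
  have hbc : b' ≤ c := by nlinarith
  have hc1 : 1 ≤ c := hb'1.trans hbc
  have hc0 : 0 < c := by linarith
  set δ0 : ℝ := 1 / (200 * c ^ 3) with hδ0
  have hδ00 : 0 < δ0 := by positivity
  have hδ01 : δ0 ≤ 1 := by
    rw [hδ0, div_le_one (by positivity)]
    have : 1 ≤ c ^ 3 := one_le_pow₀ hc1
    linarith
  have hseq := fun n : ℕ => hcon (δ0 / (n + 1)) (by positivity)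
  choose μ0 hμ0 hb0 hm10 hm20 En0 En0' hEa0 hEb0 hEE0 Pn0 hPR0 σ0 η0 hσ00 hσ10 hηκ0 hησ0 G0 hG0 herr0
    using hseq
  -- a convergent subsequence
  obtain ⟨E, hEm, φ1, hφ1, hElim⟩ := (isCompact_Icc (a := E1) (b := E2)).tendsto_subseq
    (fun n => ⟨hEa0 n, hEb0 n⟩ : ∀ n, En0 n ∈ Set.Icc E1 E2)
  have hR0 : 0 ≤ R := (abs_nonneg _).trans (hPR0 0 ⟨0, by omega⟩)
  obtain ⟨P, -, φ2, hφ2, hPlim⟩ := (isCompact_Icc (a := fun _ : Fin d => -R) (b := fun _ => R)).tendsto_subseq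
    (fun n => ⟨fun j => (abs_le.1 (hPR0 (φ1 n) j)).1, fun j => (abs_le.1 (hPR0 (φ1 n) j)).2⟩ :
      ∀ n, Pn0 (φ1 n) ∈ Set.Icc (fun _ : Fin d => -R) (fun _ => R))
  set φ : ℕ → ℕ := fun n => φ1 (φ2 n) with hφ
  have hφn : ∀ n, n ≤ φ n := fun n => (hφ2.le_apply).trans hφ1.le_apply
  have hE0 : 0 < E := lt_of_lt_of_le hE1 hEm.1
  have hE4 : E < 4 * d := lt_of_le_of_lt hEm.2 hE2
  have hg := g0_pos hd E hE0 hE4
  have hh0 := (h0_pos hd E hE0 hE4).le
  have hδφ : ∀ n : ℕ, δ0 / ((φ n : ℝ) + 1) ≤ δ0 / ((n : ℝ) + 1) := fun n => by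
    have : (n : ℝ) ≤ φ n := by exact_mod_cast hφn n
    gcongr
  set μ : ℕ → Measure ℝ := fun n => μ0 (φ n) with hμ
  have hμp : ∀ n, IsProbabilityMeasure (μ n) := fun n => hμ0 (φ n)
  set En : ℕ → ℝ := fun n => En0 (φ n) with hEn
  set En' : ℕ → ℝ := fun n => En0' (φ n) with hEn'
  set Pn : ℕ → Fin d → ℝ := fun n => Pn0 (φ n) with hPn
  set σ : ℕ → ℝ := fun n => σ0 (φ n) with hσd
  set η : ℕ → ℝ := fun n => η0 (φ n) with hηd
  set G : ℕ → (Zd d → ℝ) → Zd d → ℂ := fun n => G0 (φ n) with hGd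
  have hbb : ∀ n, ∀ᵐ s ∂(μ n), |s| ≤ b' := fun n =>
    (hb0 (φ n)).mono fun s hs => hs.trans (le_max_left _ _)
  have hσ0 : ∀ n, 0 < σ n := fun n => hσ00 (φ n)
  have hσ1 : ∀ n : ℕ, σ n < δ0 / ((n : ℝ) + 1) := fun n => lt_of_lt_of_le (hσ10 (φ n)) (hδφ n)
  have hηκ : ∀ n, σ n ^ (2 + κ) ≤ η n := fun n => hηκ0 (φ n)
  have hησ : ∀ n : ℕ, η n ≤ δ0 / ((n : ℝ) + 1) * σ n ^ 2 := fun n =>
    (hησ0 (φ n)).trans (mul_le_mul_of_nonneg_right (hδφ n) (by positivity))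
  have hEE : ∀ n : ℕ, |En' n - En n| ≤ δ0 / ((n : ℝ) + 1) := fun n => (hEE0 (φ n)).trans (hδφ n)
  have hEl : Tendsto En atTop (𝓝 E) := hElim.comp hφ2.tendsto_atTop
  have hPl : Tendsto Pn atTop (𝓝 P) := hPlim
  have hnp : ∀ n : ℕ, (0 : ℝ) < (n : ℝ) + 1 := fun n => by positivity
  have hη0 : ∀ n, 0 < η n := fun n =>
    lt_of_lt_of_le (Real.rpow_pos_of_pos (hσ0 n) _) (hηκ n)
  have hδn : ∀ n : ℕ, δ0 / ((n : ℝ) + 1) ≤ δ0 := fun n => by
    rw [div_le_iff₀ (hnp n)]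
    have : (0 : ℝ) ≤ n := Nat.cast_nonneg n
    nlinarith
  have hσδ : ∀ n, σ n ≤ δ0 := fun n => (hσ1 n).le.trans (hδn n)
  have hσ1' : ∀ n, σ n ≤ 1 := fun n => (hσδ n).trans hδ01
  have hη1 : ∀ n, η n ≤ 1 := by
    intro n
    have h1 : σ n ^ 2 ≤ 1 := pow_le_one₀ (hσ0 n).le (hσ1' n)
    calc η n ≤ δ0 / (n + 1) * σ n ^ 2 := hησ n
      _ ≤ 1 * 1 := mul_le_mul ((hδn n).trans hδ01) h1 (by positivity) (by norm_num)
      _ = 1 := one_mul 1
  set z : ℕ → ℂ := fun n => (En' n : ℂ) + η n * Complex.I with hz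
  have hzim : ∀ n, (z n).im = η n := fun n => by simp [hz]
  -- the tori
  choose h ha hL1 hL2 hmom htr using fun n : ℕ => pick (σ n) (η n) (En' n)
    (1 / ((n : ℝ) + 1)) (hσ0 n) (hη0 n) (by positivity) (μ n) (Pn n) (G n) (hG0 (φ n))
  choose m hm0 hmeq using fun n : ℕ => mde_exists (aa (d := d) (L := 2 * h n + 1)) (z n)
    (by rw [hzim]; exact hη0 n) (σ n)
  have hMD : ∀ n, MD d (2 * h n + 1) (z n) (σ n) (m n) := fun n =>
    ⟨by rw [hzim]; exact hη0 n, hm0 n, hmeq n⟩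
  have hwim : ∀ n, η n ≤ (z n + (σ n : ℂ) ^ 2 * m n).im := by
    intro n
    rw [w_im]
    unfold ss
    rw [hzim]
    have := hm0 n
    have : 0 ≤ σ n ^ 2 * (m n).im := by positivity
    linarith
  have hmlap : ∀ n, m n = Lap (GaL d (2 * h n + 1)) (z n + (σ n : ℂ) ^ 2 * m n) := fun n =>
    m_lap (hMD n)
  have hmd : ∀ n, ‖m n - Lap (GG d) (z n + (σ n : ℂ) ^ 2 * m n)‖ ≤ 1 / ((n : ℝ) + 1) := by
    intro n
    have h1 := (ha n _ (hwim n)).1
    rw [← hmlap n] at h1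
    exact h1
  have hone : ∀ n : ℕ, 1 / ((n : ℝ) + 1) ≤ 1 := fun n => by
    rw [div_le_one (hnp n)]
    have : (0 : ℝ) ≤ n := Nat.cast_nonneg n
    linarith
  have hmB : ∀ n, ‖m n‖ ≤ Bm := by
    intro n
    have h1 := lap_bound (GG d) (GG_int hd) (z n + (σ n : ℂ) ^ 2 * m n)
      ((hη0 n).le.trans (hwim n))
    have e1 : m n = (m n - Lap (GG d) (z n + (σ n : ℂ) ^ 2 * m n)) +
      Lap (GG d) (z n + (σ n : ℂ) ^ 2 * m n) := by ring
    rw [e1]
    refine (norm_add_le _ _).trans ?_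
    have := (hmd n).trans (hone n)
    rw [hBm]
    linarith
  -- limits
  have hinv : Tendsto (fun n : ℕ => 1 / ((n : ℝ) + 1)) atTop (𝓝 0) :=
    tendsto_one_div_add_atTop_nhds_zero_nat
  have hδl : Tendsto (fun n : ℕ => δ0 / ((n : ℝ) + 1)) atTop (𝓝 0) := by
    have := hinv.const_mul δ0
    rw [mul_zero] at this
    refine this.congr fun n => ?_
    ring
  have hσl : Tendsto σ atTop (𝓝 0) :=
    squeeze_zero (fun n => (hσ0 n).le) (fun n => (hσ1 n).le) hδl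
  have hE'l : Tendsto En' atTop (𝓝 E) := by
    have h1 : Tendsto (fun n => En' n - En n) atTop (𝓝 0) := by
      rw [tendsto_zero_iff_norm_tendsto_zero]
      exact squeeze_zero (fun _ => norm_nonneg _) (fun n => hEE n) hδl
    have h2 := h1.add hEl
    rw [zero_add] at h2
    refine h2.congr fun n => ?_
    ring
  have hxl : Tendsto (fun n => (z n).im / σ n ^ 2) atTop (𝓝 0) := by
    refine squeeze_zero (fun n => ?_) (fun n => ?_) hδl
    · rw [hzim]
      have := hη0 n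
      positivity
    · rw [hzim, div_le_iff₀ (by have := hσ0 n; positivity)]
      exact hησ n
  have hηl : Tendsto η atTop (𝓝 0) := by
    have h1 := hxl.mul (hσl.pow 2)
    norm_num at h1
    refine h1.congr fun n => ?_
    have := hσ0 n
    rw [hzim]
    field_simp
  have hyl : Tendsto (fun n => σ n ^ 3 / (z n).im) atTop (𝓝 0) := by
    have h1 : Tendsto (fun n => σ n ^ (1 - κ)) atTop (𝓝 0) := by
      have h2 := (Real.continuousAt_rpow_const 0 (1 - κ) (Or.inr (by linarith))).tendsto.comp hσl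
      rw [Real.zero_rpow (by linarith)] at h2
      exact h2
    refine squeeze_zero (fun n => ?_) (fun n => ?_) h1
    · rw [hzim]
      have := hη0 n
      have := hσ0 n
      positivity
    · rw [hzim, div_le_iff₀ (hη0 n)]
      have h3 := mul_le_mul_of_nonneg_left (hηκ n)
        (Real.rpow_pos_of_pos (hσ0 n) (1 - κ)).le
      refine le_trans (le_of_eq ?_) h3
      rw [← Real.rpow_add (hσ0 n), ← Real.rpow_natCast]
      congr 1
      push_cast
      ring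
  have hwl : Tendsto (fun n => z n + (σ n : ℂ) ^ 2 * m n) atTop (𝓝[{w : ℂ | 0 ≤ w.im}] (E : ℂ)) := by
    rw [tendsto_nhdsWithin_iff]
    constructor
    · rw [tendsto_iff_norm_sub_tendsto_zero]
      have h1 : Tendsto (fun n => |En' n - E| + (η n + σ n ^ 2 * Bm)) atTop (𝓝 0) := by
        have h0 : Tendsto (fun n => |En' n - E|) atTop (𝓝 0) := by
          have := (tendsto_iff_norm_sub_tendsto_zero.1 hE'l)
          exact this
        have := h0.add (hηl.add ((hσl.pow 2).mul_const Bm))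
        norm_num at this
        exact this
      refine squeeze_zero (fun _ => norm_nonneg _) (fun n => ?_) h1
      have e1 : z n + (σ n : ℂ) ^ 2 * m n - E = ((En' n - E : ℝ) : ℂ) +
          (η n * Complex.I + (σ n : ℂ) ^ 2 * m n) := by
        simp only [hz]
        push_cast
        ring
      rw [e1]
      refine (norm_add_le _ _).trans ?_
      rw [Complex.norm_real, Real.norm_eq_abs]
      refine add_le_add le_rfl ?_
      refine (norm_add_le _ _).trans ?_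
      rw [norm_mul, Complex.norm_I, mul_one, Complex.norm_real, Real.norm_eq_abs,
        abs_of_pos (hη0 n), norm_mul, norm_pow, Complex.norm_real, Real.norm_eq_abs, sq_abs]
      have := hmB n
      gcongr
    · refine Eventually.of_forall fun n => ?_
      exact (hη0 n).le.trans (hwim n)
  have hml : Tendsto m atTop (𝓝 (g0 d E)) := by
    have h1 := (lap_cont (GG d) GG_cont (GG_int hd) E).comp hwl
    have h2 : Tendsto (fun n => m n - Lap (GG d) (z n + (σ n : ℂ) ^ 2 * m n)) atTop (𝓝 0) := by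
      rw [tendsto_zero_iff_norm_tendsto_zero]
      exact squeeze_zero (fun _ => norm_nonneg _) hmd hinv
    have h3 := h2.add h1
    rw [zero_add] at h3
    refine h3.congr fun n => ?_
    simp
  have hQl : ∀ j, Tendsto (fun n => Qv d (2 * h n + 1) (z n) (σ n) (m n) j) atTop
      (𝓝 (h0 d E).im) := by
    intro j
    have h1 := (lap_cont (HH d) HH_cont (HH_int hd) E).comp hwl
    have h2 : Tendsto (fun n => Lap (HaL d (2 * h n + 1)) (z n + (σ n : ℂ) ^ 2 * m n) -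
        Lap (HH d) (z n + (σ n : ℂ) ^ 2 * m n)) atTop (𝓝 0) := by
      rw [tendsto_zero_iff_norm_tendsto_zero]
      exact squeeze_zero (fun _ => norm_nonneg _) (fun n => (ha n _ (hwim n)).2) hinv
    have h3 := h2.add h1
    rw [zero_add] at h3
    have h4 := (Complex.continuous_im.tendsto _).comp h3
    refine h4.congr fun n => ?_
    rw [Q_lap (hMD n) j]
    simp
  -- the site functions
  have hsite := fun n : ℕ => site_aux (μ n) b' c (σ n) (m n) hb'1 hbc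
    (by
      have := hmB n
      rw [hc]
      nlinarith [norm_nonneg (m n)])
    (by
      have := hmB n
      rw [hc]
      nlinarith [norm_nonneg (m n)])
    (hσ0 n)
    (by
      have h1 := hσδ n
      rw [hδ0, le_div_iff₀ (by positivity)] at h1
      linarith) (hbb n) (hm10 (φ n)) (hm20 (φ n))
  choose τ hh hS using hsite
  -- momenta
  have htl : Tendsto (fun n => σ n * Real.sqrt (η n)) atTop (𝓝 0) := by
    have := hσl.mul ((Real.continuous_sqrt.tendsto _).comp hηl)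
    rw [Real.sqrt_zero, mul_zero] at this
    exact this
  have ht0 : ∀ n, 0 < σ n * Real.sqrt (η n) := fun n =>
    mul_pos (hσ0 n) (Real.sqrt_pos.2 (hη0 n))
  have htsq : ∀ n, σ n ^ 2 * (z n).im = (σ n * Real.sqrt (η n)) ^ 2 := by
    intro n
    rw [mul_pow, Real.sq_sqrt (hη0 n).le, hzim]
  have hrl : ∀ j : Fin d, Tendsto (fun n : ℕ => 1 / ((n : ℝ) + 1) + |Pn n j - P j|) atTop (𝓝 0) := by
    intro j
    have h1 : Tendsto (fun n => |Pn n j - P j|) atTop (𝓝 0) :=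
      tendsto_iff_norm_sub_tendsto_zero.1 ((tendsto_pi_nhds.1 hPl) j)
    have h2 := hinv.add h1
    rw [add_zero] at h2
    exact h2
  have hmo := fun j : Fin d => mom (fun n => σ n * Real.sqrt (η n))
    (fun n => an (2 * h n + 1) (σ n * Real.sqrt (η n) * Pn n j))
    (fun n : ℕ => 1 / ((n : ℝ) + 1) + |Pn n j - P j|) (P j) ht0
    htl (hrl j) (fun n => by
      have h1 := (an_close (2 * h n + 1) (by omega) (σ n * Real.sqrt (η n) * Pn n j)).trans (hmom n)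
      have h2 : an (2 * h n + 1) (σ n * Real.sqrt (η n) * Pn n j) - σ n * Real.sqrt (η n) * P j =
          (an (2 * h n + 1) (σ n * Real.sqrt (η n) * Pn n j) - σ n * Real.sqrt (η n) * Pn n j) +
          σ n * Real.sqrt (η n) * (Pn n j - P j) := by ring
      rw [h2]
      refine (abs_add_le _ _).trans ?_
      rw [abs_mul (σ n * Real.sqrt (η n)), abs_of_pos (ht0 n), mul_add]
      exact add_le_add h1 le_rfl)
  set p : (n : ℕ) → T d (2 * h n + 1) := fun n =>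
    pm (2 * h n + 1) (fun j => σ n * Real.sqrt (η n) * Pn n j) with hp
  have hLH : LH (d := d) (fun n => 2 * h n + 1) z σ τ m p (g0 d E) (h0 d E).im (100 * c ^ 3) P :=
    { md := hMD
      σ0 := hσ0
      σl := hσl
      xl := hxl
      yl := hyl
      ml := hml
      gi := hg
      Ql := hQl
      H0 := hh0
      τl := fun n => (hS n).τσ
      p1 := by
        intro j
        refine (hmo j).1.congr fun n => ?_
        simp only [hp]
        rw [si_pm, htsq]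
      p2 := by
        have h1 := tendsto_finsetSum (Finset.univ : Finset (Fin d)) fun j _ => (hmo j).2
        refine h1.congr fun n => ?_
        simp only [hp]
        rw [pp_pm, htsq, Finset.sum_div] }
  -- the fourth moment
  set C4 : ℝ := Bm ^ 4 + 10 * d * Bm + d * (5 * 10 ^ 18) with hC4
  have hN4 : ∀ n, N4 d (2 * h n + 1) (z n) (σ n) (m n) ≤
      C4 * (1 + Real.log (1 / (z n).im)) ^ 3 := by
    intro n
    have hk0 : ‖kc (rv (z n + (σ n : ℂ) ^ 2 * m n)) (0 : T d (2 * h n + 1))‖ ≤ Bm := by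
      have h1 := Mk_diag (hMD n) 0
      unfold Mk at h1
      rw [sub_self, Mh_w] at h1
      unfold rv
      rw [h1]
      exact hmB n
    have hk2 : ∑ x : T d (2 * h n + 1), ‖kc (rv (z n + (σ n : ℂ) ^ 2 * m n)) x‖ ^ 2 ≤
        Bm / η n := by
      have h1 := sq_sum (hMD n)
      have h2 := parseval_sq (Mh (z n) (σ n) (m n) : T d (2 * h n + 1) → ℂ)
      rw [h1, Mh_w] at h2
      unfold rv
      rw [h2]
      have h3 : (m n).im ≤ Bm := ((le_abs_self _).trans (Complex.abs_im_le_norm _)).trans (hmB n)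
      have h4 : η n ≤ ss (z n) (σ n) (m n) := by
        have := hwim n
        rwa [w_im] at this
      have h5 := hη0 n
      have h6 := (hm0 n).le
      exact div_le_div₀ (by linarith) h3 h5 h4
    have h1 := four_bound hd (z n + (σ n : ℂ) ^ 2 * m n) (η n) (hη0 n) (hη1 n) (hwim n) (hL1 n)
      (hL2 n) Bm (by linarith) hk0 hk2
    have h2 : N4 d (2 * h n + 1) (z n) (σ n) (m n) =
        ∑ x : T d (2 * h n + 1), ‖kc (rv (z n + (σ n : ℂ) ^ 2 * m n)) x‖ ^ 4 := by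
      unfold N4 rv
      rw [Mh_w]
    rw [h2]
    refine h1.trans ?_
    rw [hzim]
    have h3 : 0 ≤ Real.log (1 / η n) := Real.log_nonneg (by
      rw [le_div_iff₀ (hη0 n)]
      linarith [hη1 n])
    set Λ := 1 + Real.log (1 / η n) with hΛ
    have hΛ1 : 1 ≤ Λ ^ 3 := one_le_pow₀ (by linarith)
    have h4 : 0 ≤ Bm ^ 4 + 10 * d * Bm := by positivity
    have h5 : Bm ^ 4 + 10 * d * Bm ≤ (Bm ^ 4 + 10 * d * Bm) * Λ ^ 3 := by
      nlinarith
    calc Bm ^ 4 + 10 * d * Bm + d * (5 * 10 ^ 18 * Λ ^ 3) ≤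
          (Bm ^ 4 + 10 * d * Bm) * Λ ^ 3 + d * (5 * 10 ^ 18 * Λ ^ 3) := by linarith
      _ = _ := by rw [hC4]; ring
  have hfin := seq_main3 hd hLH (by positivity) μ hh hS κ hκ0 hκ1
    (fun n => by rw [hzim]; exact hηκ n) C4 (by positivity)
    (fun n => by rw [hzim]; exact hL1 n) hN4
    (fun n => uu (z n) (σ n)) (fun n x => uu_meas (z n) (σ n) x)
    (fun n V x => uu_eq (z n) (by rw [hzim]; exact hη0 n) (σ n) V x)
  -- conclusion
  have htg : Tendsto (fun n => ((tgt d (En n) (Pn n) : ℝ) : ℂ)) atTop (𝓝 ((tgt d E P : ℝ) : ℂ)) :=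
    (Complex.continuous_ofReal.tendsto _).comp (tgt_lim hd E hE0 hE4 P En Pn hEl hPl)
  have h7 := (Metric.tendsto_nhds.1 hfin) (ε / 3) (by positivity)
  have h7' := (Metric.tendsto_nhds.1 htg) (ε / 3) (by positivity)
  have h8 := hinv.eventually_lt_const (show 0 < ε / 3 by positivity)
  obtain ⟨n, h9, h9', h10⟩ := (h7.and (h7'.and h8)).exists
  have h11 := herr0 (φ n)
  have h12 := htr n
  rw [dist_eq_norm, hzim] at h9
  rw [dist_eq_norm, norm_sub_rev] at h9'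
  have h13 := norm_sub_le_norm_sub_add_norm_sub
    ((η n : ℂ) * ∑' y : Zd d, Complex.exp (((∑ j, σ n * Real.sqrt (η n) * Pn n j * y j : ℝ) : ℂ) *
          Complex.I) * ((∫ ω, ‖G n ω y‖ ^ 2 ∂(PZ d (μ n)) : ℝ) : ℂ))
    ((η n : ℂ) * ∑ x : T d (2 * h n + 1), e (p n) x *
        ((∫ V, ‖uu (z n) (σ n) V x‖ ^ 2 ∂(PL (T d (2 * h n + 1)) (μ n)) : ℝ) : ℂ))
    ((tgt d (En n) (Pn n) : ℝ) : ℂ)
  have h15 := norm_sub_le_norm_sub_add_norm_sub
    ((η n : ℂ) * ∑ x : T d (2 * h n + 1), e (p n) x *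
        ((∫ V, ‖uu (z n) (σ n) V x‖ ^ 2 ∂(PL (T d (2 * h n + 1)) (μ n)) : ℝ) : ℂ))
    ((tgt d E P : ℝ) : ℂ) ((tgt d (En n) (Pn n) : ℝ) : ℂ)
  have h9a : ‖(η n : ℂ) * ∑ x : T d (2 * h n + 1), e (p n) x *
        ((∫ V, ‖uu (z n) (σ n) V x‖ ^ 2 ∂(PL (T d (2 * h n + 1)) (μ n)) : ℝ) : ℂ) -
        ((tgt d E P : ℝ) : ℂ)‖ < ε / 3 := h9
  rw [norm_sub_rev] at h12
  have h14 : ‖(η n : ℂ) * ∑' y : Zd d, Complex.exp (((∑ j, σ n * Real.sqrt (η n) * Pn n j * y j :
      ℝ) : ℂ) * Complex.I) * ((∫ ω, ‖G n ω y‖ ^ 2 ∂(PZ d (μ n)) : ℝ) : ℂ) -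
      (η n : ℂ) * ∑ x : T d (2 * h n + 1), e (p n) x *
        ((∫ V, ‖uu (z n) (σ n) V x‖ ^ 2 ∂(PL (T d (2 * h n + 1)) (μ n)) : ℝ) : ℂ)‖ ≤
      1 / ((n : ℝ) + 1) := h12
  have h16 : ε < ‖(η n : ℂ) * ∑' y : Zd d, Complex.exp (((∑ j, σ n * Real.sqrt (η n) * Pn n j * y j :
      ℝ) : ℂ) * Complex.I) * ((∫ ω, ‖G n ω y‖ ^ 2 ∂(PZ d (μ n)) : ℝ) : ℂ) -
      ((tgt d (En n) (Pn n) : ℝ) : ℂ)‖ := h11
  linarith

end Pool.Agent.Zk11.QD
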