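import Pool.Agent.W788.BK.Stm

/-! Complex convolution kernels on the discrete torus. -/

set_option autoImplicit false
set_option linter.unusedSectionVars false

open scoped BigOperators

namespace Pool.Agent.Zk11.QD

open Pool.Agent.W788.MFP.Four (T e NN adj adj_neg e_comm e_add_left e_add e_zero e_neg e_neg_left
  e_normSq sum_e NN_pos card_T e_single)

variable {d L : ℕ} [NeZero L]

/-- the kernel with symbol `f` -/
noncomputable def kc (f : T d L → ℂ) (x : T d L) : ℂ := ((NN d L : ℝ) : ℂ)⁻¹ * ∑ k, f k * e k x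

theorem NNc_ne : ((NN d L : ℝ) : ℂ) ≠ 0 := by
  exact_mod_cast (NN_pos (d := d) (L := L)).ne'

theorem sum_e' (k : T d L) : ∑ x, e k x = if k = 0 then ((NN d L : ℝ) : ℂ) else 0 := by
  rw [Finset.sum_congr rfl fun x _ => e_comm k x]
  exact sum_e k

theorem kc_conv (f g : T d L → ℂ) (x w : T d L) :
    ∑ y, kc f (x - y) * kc g (y - w) = kc (fun k => f k * g k) (x - w) := by
  unfold kc
  have h1 : ∀ y : T d L, ((NN d L : ℝ) : ℂ)⁻¹ * (∑ k, f k * e k (x - y)) *
      (((NN d L : ℝ) : ℂ)⁻¹ * ∑ k, g k * e k (y - w)) =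
      (((NN d L : ℝ) : ℂ)⁻¹) ^ 2 * ∑ k, ∑ l, f k * g l * (e k x * e l (-w)) * e (l - k) y := by
    intro y
    rw [pow_two, mul_mul_mul_comm, Finset.sum_mul_sum]
    congr 1
    refine Finset.sum_congr rfl fun k _ => Finset.sum_congr rfl fun l _ => ?_
    rw [sub_eq_add_neg, sub_eq_add_neg, sub_eq_add_neg, e_add, e_add, e_add_left, e_neg,
      e_neg_left]
    ring
  rw [Finset.sum_congr rfl fun y _ => h1 y, ← Finset.mul_sum, Finset.sum_comm]
  have h2 : ∀ k : T d L, ∑ y, ∑ l, f k * g l * (e k x * e l (-w)) * e (l - k) y =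
      ((NN d L : ℝ) : ℂ) * (f k * g k * e k (x - w)) := by
    intro k
    rw [Finset.sum_comm, Finset.sum_eq_single k]
    · rw [← Finset.mul_sum, sum_e', sub_self, if_pos rfl, sub_eq_add_neg, e_add]
      ring
    · intro l _ hl
      rw [← Finset.mul_sum, sum_e', if_neg (sub_ne_zero.2 hl), mul_zero]
    · intro h
      exact absurd (Finset.mem_univ k) h
  rw [Finset.sum_congr rfl fun k _ => h2 k, ← Finset.mul_sum]
  have := NNc_ne (d := d) (L := L)
  field_simp

theorem kc_one (x : T d L) : kc (fun _ => 1) x = if x = 0 then 1 else 0 := by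
  unfold kc
  simp only [one_mul]
  rw [sum_e]
  have := NNc_ne (d := d) (L := L)
  split_ifs
  · exact inv_mul_cancel₀ this
  · exact mul_zero _

theorem kc_conj (f : T d L → ℂ) (x : T d L) :
    (starRingEnd ℂ) (kc f x) = kc (fun k => (starRingEnd ℂ) (f k)) (-x) := by
  unfold kc
  rw [map_mul, map_inv₀, Complex.conj_ofReal, map_sum]
  congr 1
  refine Finset.sum_congr rfl fun k _ => ?_
  rw [map_mul, e_neg]

theorem parseval (f g : T d L → ℂ) :
    ∑ x, kc f x * (starRingEnd ℂ) (kc g x) =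
      ((NN d L : ℝ) : ℂ)⁻¹ * ∑ k, f k * (starRingEnd ℂ) (g k) := by
  have h := kc_conv f (fun k => (starRingEnd ℂ) (g k)) 0 0
  have h1 : ∑ x, kc f x * (starRingEnd ℂ) (kc g x) =
      ∑ y, kc f (0 - y) * kc (fun k => (starRingEnd ℂ) (g k)) (y - 0) := by
    rw [← Equiv.sum_comp (Equiv.neg (T d L))]
    refine Finset.sum_congr rfl fun y _ => ?_
    rw [Equiv.neg_apply, kc_conj, neg_neg, zero_sub, sub_zero]
  rw [h1, h]
  unfold kc
  simp only [sub_zero, e_zero, mul_one]

theorem parseval_sq (f : T d L → ℂ) :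
    ∑ x, ‖kc f x‖ ^ 2 = (NN d L)⁻¹ * ∑ k, ‖f k‖ ^ 2 := by
  have h := parseval f f
  have h1 : ∑ x, kc f x * (starRingEnd ℂ) (kc f x) = ((∑ x, ‖kc f x‖ ^ 2 : ℝ) : ℂ) := by
    push_cast
    refine Finset.sum_congr rfl fun x _ => ?_
    rw [Complex.mul_conj, Complex.normSq_eq_norm_sq]
    push_cast
    rfl
  have h2 : ((NN d L : ℝ) : ℂ)⁻¹ * ∑ k, f k * (starRingEnd ℂ) (f k) =
      (((NN d L)⁻¹ * ∑ k, ‖f k‖ ^ 2 : ℝ) : ℂ) := by
    push_cast
    congr 1
    refine Finset.sum_congr rfl fun x _ => ?_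
    rw [Complex.mul_conj, Complex.normSq_eq_norm_sq]
    push_cast
    rfl
  rw [h1, h2] at h
  exact_mod_cast h

theorem kc_mod (f : T d L → ℂ) (p x : T d L) :
    e p x * kc f x = kc (fun k => f (k - p)) x := by
  unfold kc
  rw [← Equiv.sum_comp (Equiv.addRight p) (fun k => f (k - p) * e k x), mul_left_comm,
    Finset.mul_sum]
  congr 1
  refine Finset.sum_congr rfl fun k _ => ?_
  rw [Equiv.coe_addRight, add_sub_cancel_right, e_add_left]
  ring

theorem kc_translate (f : T d L → ℂ) (x w : T d L) :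
    kc f (x + w) = kc (fun k => f k * e k w) x := by
  unfold kc
  congr 1
  refine Finset.sum_congr rfl fun k _ => ?_
  rw [e_add]
  ring

theorem kc_mul (f g : T d L → ℂ) (x : T d L) :
    kc f x * kc g x = kc (fun P => ((NN d L : ℝ) : ℂ)⁻¹ * ∑ k, f k * g (P - k)) x := by
  unfold kc
  rw [mul_mul_mul_comm, Finset.sum_mul_sum, mul_assoc]
  congr 1
  rw [Finset.mul_sum]
  simp only [Finset.mul_sum, Finset.sum_mul]
  rw [Finset.sum_comm (f := fun P k => ((NN d L : ℝ) : ℂ)⁻¹ * (f k * g (P - k)) * e P x)]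
  refine Finset.sum_congr rfl fun k _ => ?_
  rw [← Equiv.sum_comp (Equiv.addRight k)
    (fun P => ((NN d L : ℝ) : ℂ)⁻¹ * (f k * g (P - k)) * e P x)]
  refine Finset.sum_congr rfl fun l _ => ?_
  rw [Equiv.coe_addRight, add_sub_cancel_right, e_add_left]
  ring

theorem kc_add (f g : T d L → ℂ) (x : T d L) : kc (fun k => f k + g k) x = kc f x + kc g x := by
  unfold kc
  rw [← mul_add, ← Finset.sum_add_distrib]
  congr 1
  exact Finset.sum_congr rfl fun k _ => by ring

theorem kc_const_mul (c : ℂ) (f : T d L → ℂ) (x : T d L) :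
    kc (fun k => c * f k) x = c * kc f x := by
  unfold kc
  have h : ∑ k, c * f k * e k x = c * ∑ k, f k * e k x := by
    rw [Finset.mul_sum]
    exact Finset.sum_congr rfl fun k _ => by ring
  rw [h]
  ring

theorem kc_delta (a : T d L) (x : T d L) : kc (fun k => e k a) x = if x = -a then 1 else 0 := by
  have h := kc_translate (fun _ : T d L => (1 : ℂ)) x a
  simp only [one_mul] at h
  rw [← h, kc_one]
  congr 1
  rw [eq_neg_iff_add_eq_zero]

theorem adj_eq (k : T d L) : ((adj k : ℝ) : ℂ) =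
    ∑ i : Fin d, (e k (Pi.single i 1) + e k (-Pi.single i 1)) := by
  unfold adj
  push_cast
  refine Finset.sum_congr rfl fun i _ => ?_
  rw [e_neg, e_single, Complex.add_conj]
  push_cast
  rfl

theorem kc_sum {α : Type} (s : Finset α) (f : α → T d L → ℂ) (x : T d L) :
    kc (fun k => ∑ a ∈ s, f a k) x = ∑ a ∈ s, kc (f a) x := by
  unfold kc
  rw [← Finset.mul_sum]
  congr 1
  rw [Finset.sum_comm]
  exact Finset.sum_congr rfl fun k _ => by rw [Finset.sum_mul]

/-- the adjacency operator in terms of its kernel -/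
theorem adj_apply (w : T d L → ℂ) (x : T d L) :
    ∑ y, kc (fun k => ((adj k : ℝ) : ℂ)) (x - y) * w y =
      ∑ i : Fin d, (w (x + Pi.single i 1) + w (x - Pi.single i 1)) := by
  have h1 : ∀ y : T d L, kc (fun k => ((adj k : ℝ) : ℂ)) (x - y) * w y =
      ∑ i : Fin d, ((if y = x + Pi.single i 1 then w y else 0) +
        (if y = x - Pi.single i 1 then w y else 0)) := by
    intro y
    simp only [adj_eq]
    rw [kc_sum, Finset.sum_mul]
    refine Finset.sum_congr rfl fun i _ => ?_
    rw [kc_add, kc_delta, kc_delta, neg_neg, add_mul]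
    congr 1
    · by_cases h : y = x + Pi.single i 1
      · rw [if_pos h, if_pos (by rw [h]; abel), one_mul]
      · rw [if_neg h, if_neg (fun h2 => h (by
          have : y = x - (x - y) := by abel
          rw [this, h2]; abel)), zero_mul]
    · by_cases h : y = x - Pi.single i 1
      · rw [if_pos h, if_pos (by rw [h]; abel), one_mul]
      · rw [if_neg h, if_neg (fun h2 => h (by
          have : y = x - (x - y) := by abel
          rw [this, h2])), zero_mul]
  rw [Finset.sum_congr rfl fun y _ => h1 y, Finset.sum_comm]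
  refine Finset.sum_congr rfl fun i _ => ?_
  rw [Finset.sum_add_distrib, Finset.sum_ite_eq', Finset.sum_ite_eq']
  simp

end Pool.Agent.Zk11.QD
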