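import Mathlib

/-! Laplace transforms on the half line and Riemann sums. -/

set_option autoImplicit false
set_option linter.unusedSectionVars false

open scoped BigOperators Topology
open MeasureTheory Filter

namespace Pool.Agent.Zk11.QD

/-- `i ∫_0^∞ e^{i w t} F(t) dt` -/
noncomputable def Lap (F : ℝ → ℂ) (w : ℂ) : ℂ :=
  Complex.I * ∫ t in Set.Ioi (0 : ℝ), Complex.exp (Complex.I * w * t) * F t

theorem exp_norm (w : ℂ) (t : ℝ) :
    ‖Complex.exp (Complex.I * w * t)‖ = Real.exp (-(w.im * t)) := by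
  rw [Complex.norm_exp]
  congr 1
  simp [Complex.mul_re]

theorem exp_int (s : ℝ) (hs : 0 < s) :
    IntegrableOn (fun t : ℝ => Real.exp (-(s * t))) (Set.Ioi 0) := by
  have := integrableOn_exp_mul_Ioi (a := -s) (by linarith) 0
  simpa using this

theorem exp_val (s : ℝ) (hs : 0 < s) :
    ∫ t in Set.Ioi (0 : ℝ), Real.exp (-(s * t)) = 1 / s := by
  have := integral_exp_mul_Ioi (a := -s) (by linarith) 0
  simp at this
  rw [one_div, ← this]

theorem lap_integrable (F : ℝ → ℂ) (hF : Continuous F) (B : ℝ) (hB : ∀ t, ‖F t‖ ≤ B) (w : ℂ)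
    (hw : 0 < w.im) :
    IntegrableOn (fun t : ℝ => Complex.exp (Complex.I * w * t) * F t) (Set.Ioi 0) := by
  refine Integrable.mono' ((exp_int w.im hw).mul_const B) ?_ ?_
  · exact (Continuous.mul (by fun_prop) hF).aestronglyMeasurable
  · refine Filter.Eventually.of_forall fun t => ?_
    rw [norm_mul, exp_norm]
    exact mul_le_mul_of_nonneg_left (hB t) (Real.exp_pos _).le

theorem lap_exp (a : ℝ) (w : ℂ) (hw : 0 < w.im) :
    Lap (fun t => Complex.exp (-(Complex.I * a * t))) w = ((a : ℂ) - w)⁻¹ := by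
  unfold Lap
  have h1 : ∀ t : ℝ, Complex.exp (Complex.I * w * t) * Complex.exp (-(Complex.I * a * t)) =
      Complex.exp ((Complex.I * (w - a)) * t) := by
    intro t
    rw [← Complex.exp_add]
    congr 1
    ring
  simp only [h1]
  have hre : (Complex.I * (w - a)).re < 0 := by
    simp [Complex.mul_re]
    exact hw
  rw [integral_exp_mul_complex_Ioi hre]
  have hne : (a : ℂ) - w ≠ 0 := by
    intro h0
    have := congrArg Complex.im h0
    simp at this
    linarith
  have hne2 : w - (a : ℂ) ≠ 0 := by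
    rw [← neg_sub]
    exact neg_ne_zero.2 hne
  rw [Complex.ofReal_zero, mul_zero, Complex.exp_zero]
  field_simp
  ring

theorem lap_sum {ι : Type} (s : Finset ι) (F : ι → ℝ → ℂ) (hF : ∀ i, Continuous (F i)) (B : ℝ)
    (hB : ∀ i t, ‖F i t‖ ≤ B) (w : ℂ) (hw : 0 < w.im) :
    Lap (fun t => ∑ i ∈ s, F i t) w = ∑ i ∈ s, Lap (F i) w := by
  unfold Lap
  rw [← Finset.mul_sum]
  congr 1
  rw [← integral_finsetSum _ (fun i _ => lap_integrable (F i) (hF i) B (hB i) w hw)]
  refine integral_congr_ae (Filter.Eventually.of_forall fun t => ?_)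
  simp only
  rw [Finset.mul_sum]

theorem lap_const_mul (c : ℂ) (F : ℝ → ℂ) (w : ℂ) :
    Lap (fun t => c * F t) w = c * Lap F w := by
  unfold Lap
  have h : ∫ t in Set.Ioi (0 : ℝ), Complex.exp (Complex.I * w * t) * (c * F t) =
      c * ∫ t in Set.Ioi (0 : ℝ), Complex.exp (Complex.I * w * t) * F t := by
    rw [← integral_const_mul]
    refine integral_congr_ae (Filter.Eventually.of_forall fun t => ?_)
    simp only
    ring
  rw [h]
  ring

/-- uniform convergence of Laplace transforms -/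
theorem lap_conv (F : ℕ → ℝ → ℂ) (G : ℝ → ℂ) (hF : ∀ n, Continuous (F n)) (hG : Continuous G)
    (B : ℝ) (hB : ∀ n t, ‖F n t‖ ≤ B) (hBG : ∀ t, ‖G t‖ ≤ B)
    (hlim : ∀ t, Tendsto (fun n => F n t) atTop (𝓝 (G t))) (s : ℝ) (hs : 0 < s) (ε : ℝ)
    (hε : 0 < ε) :
    ∃ N : ℕ, ∀ n, N ≤ n → ∀ w : ℂ, s ≤ w.im → ‖Lap (F n) w - Lap G w‖ ≤ ε := by
  have h1 : Tendsto (fun n => ∫ t in Set.Ioi (0 : ℝ), Real.exp (-(s * t)) * ‖F n t - G t‖) atTop
      (𝓝 (∫ t in Set.Ioi (0 : ℝ), (fun _ : ℝ => (0 : ℝ)) t)) := by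
    refine tendsto_integral_filter_of_dominated_convergence
      (fun t => Real.exp (-(s * t)) * (B + B)) ?_ ?_ ((exp_int s hs).mul_const _) ?_
    · refine Filter.Eventually.of_forall fun n => ?_
      exact (Continuous.mul (by fun_prop) ((hF n).sub hG).norm).aestronglyMeasurable
    · refine Filter.Eventually.of_forall fun n => Filter.Eventually.of_forall fun t => ?_
      rw [Real.norm_eq_abs, abs_of_nonneg (by positivity)]
      refine mul_le_mul_of_nonneg_left ?_ (Real.exp_pos _).le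
      exact (norm_sub_le _ _).trans (add_le_add (hB n t) (hBG t))
    · refine Filter.Eventually.of_forall fun t => ?_
      have h2 : Tendsto (fun n => ‖F n t - G t‖) atTop (𝓝 0) := by
        have := ((hlim t).sub_const (G t)).norm
        simpa using this
      have := h2.const_mul (Real.exp (-(s * t)))
      simpa using this
  have h00 : ∫ t in Set.Ioi (0 : ℝ), (fun _ : ℝ => (0 : ℝ)) t = 0 := by simp
  rw [h00] at h1
  obtain ⟨N, hN⟩ := (Metric.tendsto_atTop.1 h1) ε hε
  refine ⟨N, fun n hn w hw => ?_⟩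
  have hw0 : 0 < w.im := lt_of_lt_of_le hs hw
  have h2 := hN n hn
  rw [Real.dist_eq, sub_zero] at h2
  have h3 : ‖Lap (F n) w - Lap G w‖ ≤
      ∫ t in Set.Ioi (0 : ℝ), Real.exp (-(s * t)) * ‖F n t - G t‖ := by
    unfold Lap
    rw [← mul_sub, norm_mul, Complex.norm_I, one_mul,
      ← integral_sub (lap_integrable (F n) (hF n) B (hB n) w hw0)
        (lap_integrable G hG B hBG w hw0)]
    refine norm_integral_le_of_norm_le ?_ ?_
    · refine Integrable.mono' ((exp_int s hs).mul_const (B + B))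
        (Continuous.mul (by fun_prop) ((hF n).sub hG).norm).aestronglyMeasurable ?_
      refine Filter.Eventually.of_forall fun t => ?_
      rw [Real.norm_eq_abs, abs_of_nonneg (by positivity)]
      refine mul_le_mul_of_nonneg_left ?_ (Real.exp_pos _).le
      exact (norm_sub_le _ _).trans (add_le_add (hB n t) (hBG t))
    · refine (ae_restrict_mem measurableSet_Ioi).mono fun t ht => ?_
      rw [← mul_sub, norm_mul, exp_norm]
      refine mul_le_mul_of_nonneg_right ?_ (norm_nonneg _)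
      apply Real.exp_le_exp.2
      have : 0 < t := ht
      nlinarith
  exact h3.trans ((le_abs_self _).trans h2.le)

/-- continuity up to the real axis -/
theorem lap_cont (G : ℝ → ℂ) (hG : Continuous G) (hI : IntegrableOn G (Set.Ioi 0)) (E : ℝ) :
    Tendsto (Lap G) (𝓝[{w : ℂ | 0 ≤ w.im}] (E : ℂ)) (𝓝 (Lap G E)) := by
  unfold Lap
  refine Tendsto.const_mul _ ?_
  refine tendsto_integral_filter_of_dominated_convergence (fun t => ‖G t‖) ?_ ?_ hI.norm ?_
  · refine Filter.Eventually.of_forall fun n => ?_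
    exact (Continuous.mul (by fun_prop) hG).aestronglyMeasurable
  · refine (eventually_nhdsWithin_of_forall fun w hw => ?_)
    refine (ae_restrict_mem measurableSet_Ioi).mono fun t ht => ?_
    rw [norm_mul, exp_norm]
    have h1 : Real.exp (-(w.im * t)) ≤ 1 := by
      rw [Real.exp_le_one_iff]
      have h2 : 0 < t := ht
      have h3 : 0 ≤ w.im := hw
      nlinarith
    calc Real.exp (-(w.im * t)) * ‖G t‖ ≤ 1 * ‖G t‖ :=
          mul_le_mul_of_nonneg_right h1 (norm_nonneg _)
      _ = _ := one_mul _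
  · refine Filter.Eventually.of_forall fun t => ?_
    refine Tendsto.mul_const _ ?_
    have hc : Continuous fun w : ℂ => Complex.exp (Complex.I * w * t) := by fun_prop
    exact (hc.tendsto _).mono_left nhdsWithin_le_nhds

theorem lap_bound (G : ℝ → ℂ) (hI : IntegrableOn G (Set.Ioi 0)) (w : ℂ) (hw : 0 ≤ w.im) :
    ‖Lap G w‖ ≤ ∫ t in Set.Ioi (0 : ℝ), ‖G t‖ := by
  unfold Lap
  rw [norm_mul, Complex.norm_I, one_mul]
  refine norm_integral_le_of_norm_le hI.norm ?_
  refine (ae_restrict_mem measurableSet_Ioi).mono fun t ht => ?_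
  rw [norm_mul, exp_norm]
  have h1 : Real.exp (-(w.im * t)) ≤ 1 := by
    rw [Real.exp_le_one_iff]
    have h2 : 0 < t := ht
    nlinarith
  calc Real.exp (-(w.im * t)) * ‖G t‖ ≤ 1 * ‖G t‖ :=
        mul_le_mul_of_nonneg_right h1 (norm_nonneg _)
    _ = _ := one_mul _

/-- Riemann sums of Lipschitz functions -/
theorem riem (φ : ℝ → ℂ) (hc : Continuous φ) (K : ℝ) (hφ : ∀ x y, ‖φ x - φ y‖ ≤ K * |x - y|)
    (L : ℕ) (hL : 0 < L) :
    ‖(L : ℂ)⁻¹ * ∑ j ∈ Finset.range L, φ (j / L) - ∫ x in (0 : ℝ)..1, φ x‖ ≤ K / L := by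
  have hLR : (0 : ℝ) < L := by exact_mod_cast hL
  have hK : 0 ≤ K := by
    have := hφ 1 0
    simp at this
    exact (norm_nonneg _).trans this
  have hi : ∀ a b : ℝ, IntervalIntegrable φ volume a b := fun a b => hc.intervalIntegrable a b
  have h1 : ∫ x in (0 : ℝ)..1, φ x =
      ∑ j ∈ Finset.range L, ∫ x in ((j : ℕ) / (L : ℝ))..(((j + 1 : ℕ) : ℝ) / L), φ x := by
    rw [intervalIntegral.sum_integral_adjacent_intervals (fun k _ => hi _ _)]
    rw [Nat.cast_zero, zero_div, div_self hLR.ne']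
  have h2 : ∀ j : ℕ, ‖(L : ℂ)⁻¹ * φ (j / L) - ∫ x in ((j : ℕ) / (L : ℝ))..(((j + 1 : ℕ) : ℝ) / L),
      φ x‖ ≤ K / L * (1 / L) := by
    intro j
    have hd : (((j + 1 : ℕ) : ℝ) / L) - (j : ℝ) / L = 1 / L := by
      push_cast
      ring
    have h3 : (L : ℂ)⁻¹ * φ (j / L) =
        ∫ x in ((j : ℕ) / (L : ℝ))..(((j + 1 : ℕ) : ℝ) / L), φ (j / L) := by
      rw [intervalIntegral.integral_const, hd]
      simp
    rw [h3, ← intervalIntegral.integral_sub (by simp) (hi _ _)]
    have h4 := intervalIntegral.norm_integral_le_of_norm_le_const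
      (a := (j : ℝ) / L) (b := (((j + 1 : ℕ) : ℝ) / L)) (C := K / L)
      (f := fun x => φ (j / L) - φ x) (by
        intro x hx
        have hle : (j : ℝ) / L ≤ (((j + 1 : ℕ) : ℝ) / L) := by
          apply div_le_div_of_nonneg_right _ hLR.le
          push_cast
          linarith
        rw [Set.uIoc_of_le hle] at hx
        refine (hφ _ _).trans ?_
        rw [div_eq_mul_one_div K]
        refine mul_le_mul_of_nonneg_left ?_ hK
        rw [abs_sub_comm, abs_of_nonneg (by linarith [hx.1]), ← hd]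
        linarith [hx.2])
    rw [hd, abs_of_pos (by positivity)] at h4
    exact h4
  rw [h1, Finset.mul_sum, ← Finset.sum_sub_distrib]
  refine (norm_sum_le _ _).trans ((Finset.sum_le_sum fun j _ => h2 j).trans (le_of_eq ?_))
  rw [Finset.sum_const, Finset.card_range, nsmul_eq_mul]
  field_simp

theorem riem_lim (φ : ℝ → ℂ) (hc : Continuous φ) (K : ℝ)
    (hφ : ∀ x y, ‖φ x - φ y‖ ≤ K * |x - y|) :
    Tendsto (fun L : ℕ => ((L + 1 : ℕ) : ℂ)⁻¹ * ∑ j ∈ Finset.range (L + 1), φ (j / (L + 1 : ℕ)))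
      atTop (𝓝 (∫ x in (0 : ℝ)..1, φ x)) := by
  rw [tendsto_iff_norm_sub_tendsto_zero]
  have h1 : Tendsto (fun L : ℕ => K / ((L + 1 : ℕ) : ℝ)) atTop (𝓝 0) :=
    (tendsto_const_div_atTop_nhds_zero_nat K).comp (tendsto_add_atTop_nat 1)
  exact squeeze_zero (fun _ => norm_nonneg _)
    (fun L => riem φ hc K hφ (L + 1) (Nat.succ_pos L)) h1

end Pool.Agent.Zk11.QD
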