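import Pool.Agent.Zk11.QD.Exp
import Pool.Agent.Zk11.QD.Lap
import Pool.Agent.W918.BK.Osc

/-! The averaged free resolvent on the torus and its limit. -/

set_option autoImplicit false
set_option linter.unusedSectionVars false

open scoped BigOperators Topology
open MeasureTheory Filter

namespace Pool.Agent.Zk11.QD

open Pool.Agent.W788.MFP.Four (T e NN adj adj_neg e_comm e_add_left e_add e_zero e_neg e_neg_left
  e_normSq sum_e NN_pos card_T e_single)

/-- the oscillating factor -/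
noncomputable def ex (t c : ℝ) : ℂ := Complex.exp (Complex.I * ((2 * t * c : ℝ) : ℂ))

theorem ex_norm (t c : ℝ) : ‖ex t c‖ = 1 := by
  unfold ex
  rw [mul_comm]
  exact Complex.norm_exp_ofReal_mul_I _

theorem ex_cont (c : ℝ) : Continuous fun t => ex t c := by
  unfold ex
  fun_prop

theorem ex_lip (t x y : ℝ) : ‖ex t x - ex t y‖ ≤ 2 * |t| * |x - y| := by
  have h1 : ex t x - ex t y = ex t y *
      (Complex.exp (Complex.I * ((2 * t * x - 2 * t * y : ℝ) : ℂ)) - 1) := by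
    unfold ex
    rw [mul_sub, ← Complex.exp_add, mul_one]
    congr 2
    push_cast
    ring
  rw [h1, norm_mul, ex_norm, one_mul]
  refine Real.norm_exp_I_mul_ofReal_sub_one_le.trans ?_
  have h2 : 2 * t * x - 2 * t * y = 2 * t * (x - y) := by ring
  rw [h2, Real.norm_eq_abs, abs_mul, abs_mul, abs_two]

variable {d L : ℕ} [NeZero L]

noncomputable def jL (L : ℕ) [NeZero L] (t : ℝ) : ℂ := (L : ℂ)⁻¹ * ∑ q : ZMod L, ex t (co q)

noncomputable def kL (L : ℕ) [NeZero L] (t : ℝ) : ℂ :=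
  (L : ℂ)⁻¹ * ∑ q : ZMod L, ((4 * si q ^ 2 : ℝ) : ℂ) * ex t (co q)

theorem Lpos : (0 : ℝ) < L := by exact_mod_cast Nat.pos_of_ne_zero (NeZero.ne L)

theorem Lc_ne : (L : ℂ) ≠ 0 := by
  have := NeZero.ne L
  exact_mod_cast this

theorem jL_cont : Continuous (jL L) := by
  unfold jL
  exact continuous_const.mul (continuous_finsetSum _ fun q _ => ex_cont _)

theorem kL_cont : Continuous (kL L) := by
  unfold kL
  exact continuous_const.mul (continuous_finsetSum _ fun q _ => continuous_const.mul (ex_cont _))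

theorem avg_norm (f : ZMod L → ℂ) (B : ℝ) (hB : ∀ q, ‖f q‖ ≤ B) :
    ‖(L : ℂ)⁻¹ * ∑ q : ZMod L, f q‖ ≤ B := by
  rw [norm_mul, norm_inv, Complex.norm_natCast]
  have h1 : ‖∑ q : ZMod L, f q‖ ≤ L * B := by
    refine (norm_sum_le _ _).trans ((Finset.sum_le_sum fun q _ => hB q).trans (le_of_eq ?_))
    rw [Finset.sum_const, Finset.card_univ, ZMod.card, nsmul_eq_mul]
  have h2 := Lpos (L := L)
  calc (L : ℝ)⁻¹ * ‖∑ q : ZMod L, f q‖ ≤ (L : ℝ)⁻¹ * (L * B) :=
        mul_le_mul_of_nonneg_left h1 (by positivity)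
    _ = B := by field_simp

theorem jL_le (t : ℝ) : ‖jL L t‖ ≤ 1 := avg_norm _ 1 fun q => (ex_norm _ _).le

theorem kL_le (t : ℝ) : ‖kL L t‖ ≤ 4 := by
  refine avg_norm _ 4 fun q => ?_
  rw [norm_mul, ex_norm, mul_one, Complex.norm_real, Real.norm_eq_abs, abs_of_nonneg (by positivity)]
  nlinarith [co_si q, sq_nonneg (co q)]

/-- averages of products -/
theorem avg_prod (W : Fin d → ZMod L → ℂ) :
    ((NN d L : ℝ) : ℂ)⁻¹ * ∑ k : T d L, ∏ i, W i (k i) = ∏ i, ((L : ℂ)⁻¹ * ∑ q, W i q) := by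
  have h1 := Finset.prod_univ_sum (fun _ : Fin d => (Finset.univ : Finset (ZMod L))) W
  rw [Fintype.piFinset_univ] at h1
  rw [Finset.prod_mul_distrib, h1]
  congr 1
  rw [Finset.prod_const, Finset.card_univ, Fintype.card_fin]
  unfold NN
  push_cast
  rw [inv_pow]

/-- the phase of the time evolution -/
noncomputable def fz (d : ℕ) (t : ℝ) : ℂ := Complex.exp (-(Complex.I * ((2 * d : ℝ) : ℂ) * t))

theorem fz_norm (t : ℝ) : ‖fz d t‖ = 1 := by
  unfold fz
  rw [Complex.norm_exp]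
  simp [Complex.mul_re]

theorem fz_cont : Continuous (fz d) := by
  unfold fz
  fun_prop

theorem exp_aa (k : T d L) (t : ℝ) :
    Complex.exp (-(Complex.I * ((aa k : ℝ) : ℂ) * t)) = fz d t * ∏ i, ex t (co (k i)) := by
  unfold fz ex
  rw [← Complex.exp_sum, ← Complex.exp_add, aa_eq]
  congr 1
  rw [← Finset.mul_sum]
  push_cast
  rw [Finset.sum_sub_distrib]
  simp only [Finset.sum_const, Finset.card_univ, Fintype.card_fin, nsmul_eq_mul]
  rw [← Finset.mul_sum, ← Finset.mul_sum]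
  ring

/-- the diagonal of the free evolution -/
noncomputable def GaL (d L : ℕ) [NeZero L] (t : ℝ) : ℂ := fz d t * jL L t ^ d

noncomputable def HaL (d L : ℕ) [NeZero L] (t : ℝ) : ℂ := fz d t * (kL L t * jL L t ^ (d - 1))

theorem GaL_cont : Continuous (GaL d L) := by
  unfold GaL
  exact fz_cont.mul (jL_cont.pow d)

theorem HaL_cont : Continuous (HaL d L) := by
  unfold HaL
  exact fz_cont.mul (kL_cont.mul (jL_cont.pow _))

theorem GaL_le (t : ℝ) : ‖GaL d L t‖ ≤ 4 := by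
  unfold GaL
  rw [norm_mul, fz_norm, one_mul, norm_pow]
  have := pow_le_one₀ (norm_nonneg _) (jL_le (L := L) t) (n := d)
  linarith

theorem HaL_le (t : ℝ) : ‖HaL d L t‖ ≤ 4 := by
  unfold HaL
  rw [norm_mul, fz_norm, one_mul, norm_mul, norm_pow]
  have h1 := pow_le_one₀ (norm_nonneg _) (jL_le (L := L) t) (n := d - 1)
  have h2 := kL_le (L := L) t
  have h3 : 0 ≤ ‖jL L t‖ ^ (d - 1) := by positivity
  nlinarith [norm_nonneg (kL L t)]

theorem avg_aa (w : ℂ) (hw : 0 < w.im) :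
    ((NN d L : ℝ) : ℂ)⁻¹ * ∑ k : T d L, (((aa k : ℝ) : ℂ) - w)⁻¹ = Lap (GaL d L) w := by
  have h1 : ∀ t, GaL d L t = ((NN d L : ℝ) : ℂ)⁻¹ *
      ∑ k : T d L, Complex.exp (-(Complex.I * ((aa k : ℝ) : ℂ) * t)) := by
    intro t
    unfold GaL
    simp only [exp_aa]
    rw [← Finset.mul_sum, mul_left_comm, avg_prod (fun _ q => ex t (co q))]
    rw [Finset.prod_const, Finset.card_univ, Fintype.card_fin]
    rfl
  have h2 : Lap (GaL d L) w = Lap (fun t => ((NN d L : ℝ) : ℂ)⁻¹ *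
      ∑ k : T d L, Complex.exp (-(Complex.I * ((aa k : ℝ) : ℂ) * t))) w := by
    congr 1
    exact funext h1
  rw [h2, lap_const_mul, lap_sum _ (fun (k : T d L) (t : ℝ) =>
    Complex.exp (-(Complex.I * ((aa k : ℝ) : ℂ) * t))) (fun k => by fun_prop) 1 (fun k t => by
      rw [Complex.norm_exp]
      simp [Complex.mul_re]) w hw]
  congr 1
  refine Finset.sum_congr rfl fun k _ => ?_
  rw [lap_exp (aa k) w hw]

theorem avg_si (i0 : Fin d) (w : ℂ) (hw : 0 < w.im) :
    ((NN d L : ℝ) : ℂ)⁻¹ * ∑ k : T d L, ((4 * si (k i0) ^ 2 : ℝ) : ℂ) * (((aa k : ℝ) : ℂ) - w)⁻¹ =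
      Lap (HaL d L) w := by
  have h1 : ∀ t, HaL d L t = ((NN d L : ℝ) : ℂ)⁻¹ *
      ∑ k : T d L, ((4 * si (k i0) ^ 2 : ℝ) : ℂ) *
        Complex.exp (-(Complex.I * ((aa k : ℝ) : ℂ) * t)) := by
    intro t
    unfold HaL
    simp only [exp_aa]
    have h3 : ∀ k : T d L, ((4 * si (k i0) ^ 2 : ℝ) : ℂ) * (fz d t * ∏ i, ex t (co (k i))) =
        fz d t * ∏ i, (if i = i0 then ((4 * si (k i) ^ 2 : ℝ) : ℂ) else 1) * ex t (co (k i)) := by
      intro k
      rw [Finset.prod_mul_distrib, Finset.prod_ite_eq' Finset.univ i0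
        (fun i => ((4 * si (k i) ^ 2 : ℝ) : ℂ)), if_pos (Finset.mem_univ i0)]
      ring
    have h6 := avg_prod (d := d) (L := L)
      (fun i q => (if i = i0 then ((4 * si q ^ 2 : ℝ) : ℂ) else 1) * ex t (co q))
    rw [Finset.sum_congr rfl fun k _ => h3 k, ← Finset.mul_sum,
      mul_left_comm (((NN d L : ℝ) : ℂ)⁻¹), h6]
    congr 1
    rw [← Finset.mul_prod_erase Finset.univ _ (Finset.mem_univ i0)]
    have h4 : ∏ i ∈ Finset.univ.erase i0, ((L : ℂ)⁻¹ * ∑ q : ZMod L,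
        (if i = i0 then ((4 * si q ^ 2 : ℝ) : ℂ) else 1) * ex t (co q)) = jL L t ^ (d - 1) := by
      rw [Finset.prod_congr rfl (g := fun _ => jL L t)]
      · rw [Finset.prod_const, Finset.card_erase_of_mem (Finset.mem_univ i0), Finset.card_univ,
          Fintype.card_fin]
      · intro i hi
        have h5 : i ≠ i0 := (Finset.mem_erase.1 hi).1
        simp only [if_neg h5, one_mul]
        rfl
    rw [h4]
    simp only [if_true]
    rfl
  have h2 : Lap (HaL d L) w = Lap (fun t => ((NN d L : ℝ) : ℂ)⁻¹ *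
      ∑ k : T d L, ((4 * si (k i0) ^ 2 : ℝ) : ℂ) *
        Complex.exp (-(Complex.I * ((aa k : ℝ) : ℂ) * t))) w := by
    congr 1
    exact funext h1
  rw [h2, lap_const_mul, lap_sum _ (fun (k : T d L) (t : ℝ) => ((4 * si (k i0) ^ 2 : ℝ) : ℂ) *
    Complex.exp (-(Complex.I * ((aa k : ℝ) : ℂ) * t))) (fun k => by fun_prop) 4 (fun k t => by
      rw [norm_mul, Complex.norm_real, Real.norm_eq_abs, abs_of_nonneg (by positivity),
        Complex.norm_exp]
      have : (-(Complex.I * ((aa k : ℝ) : ℂ) * (t : ℂ))).re = 0 := by simp [Complex.mul_re]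
      rw [this, Real.exp_zero, mul_one]
      nlinarith [co_si (k i0), sq_nonneg (co (k i0))]) w hw]
  congr 1
  refine Finset.sum_congr rfl fun k _ => ?_
  rw [lap_const_mul, lap_exp (aa k) w hw]

/-- the self-consistent equation in time representation -/
theorem m_lap {z : ℂ} {σ : ℝ} {m : ℂ} (h : MD d L z σ m) :
    m = Lap (GaL d L) (z + (σ : ℂ) ^ 2 * m) := by
  have hw : 0 < (z + (σ : ℂ) ^ 2 * m).im := by
    have h1 := ss_pos h
    unfold ss at h1
    rw [Complex.add_im, ← Complex.ofReal_pow, Complex.im_ofReal_mul]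
    exact h1
  rw [← avg_aa _ hw]
  have h1 := h.eq
  unfold ph at h1
  rw [cardT] at h1
  conv_lhs => rw [← h1]
  congr 1
  refine Finset.sum_congr rfl fun k _ => ?_
  unfold Dn
  congr 1
  ring

theorem Q_lap {z : ℂ} {σ : ℝ} {m : ℂ} (h : MD d L z σ m) (i : Fin d) :
    Qv d L z σ m i = (Lap (HaL d L) (z + (σ : ℂ) ^ 2 * m)).im := by
  have hw : 0 < (z + (σ : ℂ) ^ 2 * m).im := by
    have h1 := ss_pos h
    unfold ss at h1
    rw [Complex.add_im, ← Complex.ofReal_pow, Complex.im_ofReal_mul]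
    exact h1
  rw [← avg_si i _ hw]
  unfold Qv
  rw [← Complex.ofReal_inv, Complex.im_ofReal_mul, Complex.im_sum]
  congr 1
  refine Finset.sum_congr rfl fun k _ => ?_
  rw [Complex.im_ofReal_mul]
  unfold Mh Dn
  congr 3
  ring

/-! ### The limit -/

/-- the one-dimensional integrals -/
noncomputable def J (t : ℝ) : ℂ := ∫ x in (0 : ℝ)..1, ex t (Real.cos (2 * Real.pi * x))

noncomputable def KK (t : ℝ) : ℂ :=
  ∫ x in (0 : ℝ)..1, ((4 * Real.sin (2 * Real.pi * x) ^ 2 : ℝ) : ℂ) *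
    ex t (Real.cos (2 * Real.pi * x))

theorem add_nat (j : ℕ) : (ZMod.stdAddChar ((j : ℕ) : ZMod L) : ℂ) =
    Complex.exp (((2 * Real.pi * (j / L) : ℝ) : ℂ) * Complex.I) := by
  have := ZMod.stdAddChar_coe (N := L) (j : ℤ)
  push_cast at this
  rw [this]
  congr 1
  push_cast
  ring

theorem co_nat (j : ℕ) : co ((j : ℕ) : ZMod L) = Real.cos (2 * Real.pi * (j / L)) := by
  unfold co
  rw [add_nat, Complex.exp_ofReal_mul_I_re]

theorem si_nat (j : ℕ) : si ((j : ℕ) : ZMod L) = Real.sin (2 * Real.pi * (j / L)) := by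
  unfold si
  rw [add_nat, Complex.exp_ofReal_mul_I_im]

theorem sum_zmod (f : ZMod L → ℂ) : ∑ q : ZMod L, f q = ∑ j ∈ Finset.range L, f ((j : ℕ) : ZMod L) := by
  refine Finset.sum_nbij' (fun k : ZMod L => k.val) (fun j : ℕ => (j : ZMod L)) ?_ ?_ ?_ ?_ ?_
  · intro k _
    exact Finset.mem_range.mpr (ZMod.val_lt k)
  · intro j _
    exact Finset.mem_univ _
  · intro k _
    simp
  · intro j hj
    exact ZMod.val_cast_of_lt (Finset.mem_range.mp hj)
  · intro k _
    simp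

theorem phi_lip (t x y : ℝ) : ‖ex t (Real.cos (2 * Real.pi * x)) -
    ex t (Real.cos (2 * Real.pi * y))‖ ≤ (4 * Real.pi * |t|) * |x - y| := by
  refine (ex_lip _ _ _).trans ?_
  have h1 := Real.abs_cos_sub_cos_le (2 * Real.pi * x) (2 * Real.pi * y)
  have h2 : 2 * Real.pi * x - 2 * Real.pi * y = 2 * Real.pi * (x - y) := by ring
  rw [h2, abs_mul (2 * Real.pi), abs_of_pos (by positivity : 0 < 2 * Real.pi)] at h1
  calc 2 * |t| * |Real.cos (2 * Real.pi * x) - Real.cos (2 * Real.pi * y)| ≤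
        2 * |t| * (2 * Real.pi * |x - y|) := mul_le_mul_of_nonneg_left h1 (by positivity)
    _ = _ := by ring

theorem jL_lim (t : ℝ) : Tendsto (fun n : ℕ => jL (n + 1) t) atTop (𝓝 (J t)) := by
  have h := riem_lim (fun x => ex t (Real.cos (2 * Real.pi * x)))
    (by unfold ex; fun_prop) (4 * Real.pi * |t|) (phi_lip t)
  refine h.congr fun n => ?_
  unfold jL
  rw [sum_zmod]
  congr 1
  refine Finset.sum_congr rfl fun j _ => ?_
  rw [co_nat]

theorem kL_lim (t : ℝ) : Tendsto (fun n : ℕ => kL (n + 1) t) atTop (𝓝 (KK t)) := by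
  have h := riem_lim (fun x => ((4 * Real.sin (2 * Real.pi * x) ^ 2 : ℝ) : ℂ) *
    ex t (Real.cos (2 * Real.pi * x)))
    (by unfold ex; fun_prop) (16 * Real.pi + 4 * (4 * Real.pi * |t|)) (by
      intro x y
      have h1 : ((4 * Real.sin (2 * Real.pi * x) ^ 2 : ℝ) : ℂ) * ex t (Real.cos (2 * Real.pi * x)) -
          ((4 * Real.sin (2 * Real.pi * y) ^ 2 : ℝ) : ℂ) * ex t (Real.cos (2 * Real.pi * y)) =
          ((4 * Real.sin (2 * Real.pi * x) ^ 2 - 4 * Real.sin (2 * Real.pi * y) ^ 2 : ℝ) : ℂ) *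
            ex t (Real.cos (2 * Real.pi * x)) +
          ((4 * Real.sin (2 * Real.pi * y) ^ 2 : ℝ) : ℂ) * (ex t (Real.cos (2 * Real.pi * x)) -
            ex t (Real.cos (2 * Real.pi * y))) := by
        push_cast
        ring
      rw [h1]
      refine (norm_add_le _ _).trans ?_
      rw [norm_mul, norm_mul, ex_norm, mul_one, Complex.norm_real, Complex.norm_real,
        Real.norm_eq_abs, Real.norm_eq_abs, add_mul]
      refine add_le_add ?_ ?_
      · have h2 : 4 * Real.sin (2 * Real.pi * x) ^ 2 - 4 * Real.sin (2 * Real.pi * y) ^ 2 =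
            4 * (Real.sin (2 * Real.pi * x) - Real.sin (2 * Real.pi * y)) *
              (Real.sin (2 * Real.pi * x) + Real.sin (2 * Real.pi * y)) := by ring
        have h3 := Real.abs_sin_sub_sin_le (2 * Real.pi * x) (2 * Real.pi * y)
        have h4 : 2 * Real.pi * x - 2 * Real.pi * y = 2 * Real.pi * (x - y) := by ring
        rw [h4, abs_mul (2 * Real.pi), abs_of_pos (by positivity : 0 < 2 * Real.pi)] at h3
        have h5 : |Real.sin (2 * Real.pi * x) + Real.sin (2 * Real.pi * y)| ≤ 2 := by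
          refine (abs_add_le _ _).trans ?_
          linarith [Real.abs_sin_le_one (2 * Real.pi * x), Real.abs_sin_le_one (2 * Real.pi * y)]
        rw [h2, abs_mul, abs_mul, abs_of_pos (by norm_num : (0 : ℝ) < 4)]
        calc 4 * |Real.sin (2 * Real.pi * x) - Real.sin (2 * Real.pi * y)| *
              |Real.sin (2 * Real.pi * x) + Real.sin (2 * Real.pi * y)| ≤
              4 * (2 * Real.pi * |x - y|) * 2 :=
              mul_le_mul (mul_le_mul_of_nonneg_left h3 (by norm_num)) h5 (abs_nonneg _)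
                (by positivity)
          _ = _ := by ring
      · have h5 : |4 * Real.sin (2 * Real.pi * y) ^ 2| ≤ 4 := by
          rw [abs_of_nonneg (by positivity)]
          nlinarith [Real.sin_sq_le_one (2 * Real.pi * y)]
        calc |4 * Real.sin (2 * Real.pi * y) ^ 2| * ‖ex t (Real.cos (2 * Real.pi * x)) -
              ex t (Real.cos (2 * Real.pi * y))‖ ≤ 4 * ((4 * Real.pi * |t|) * |x - y|) :=
              mul_le_mul h5 (phi_lip t x y) (norm_nonneg _) (by norm_num)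
          _ = _ := by ring)
  refine h.congr fun n => ?_
  unfold kL
  rw [sum_zmod]
  congr 1
  refine Finset.sum_congr rfl fun j _ => ?_
  rw [co_nat, si_nat]

theorem jL_dec (t : ℝ) (h : (1 + |t|) ^ 3 ≤ (L : ℝ) ^ 2) :
    ‖jL L t‖ ≤ 10 / Real.sqrt (1 + |t|) := by
  have h1 := Pool.Agent.W918.BK.Osc.osc L (t : ℂ) (by
    rw [Complex.norm_real, Real.norm_eq_abs]
    exact h)
  rw [Complex.norm_real, Real.norm_eq_abs] at h1
  have hL := Lpos (L := L)
  unfold jL
  rw [norm_mul, norm_inv, Complex.norm_natCast]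
  have h2 : ∑ q : ZMod L, ex t (co q) =
      ∑ k : ZMod L, Complex.exp (Complex.I * ((2 * ((t : ℂ) * ZMod.stdAddChar k).re : ℝ) : ℂ)) := by
    refine Finset.sum_congr rfl fun q _ => ?_
    unfold ex co
    rw [Complex.re_ofReal_mul]
    congr 3
    ring
  rw [h2]
  calc (L : ℝ)⁻¹ * ‖∑ k : ZMod L, Complex.exp (Complex.I *
        ((2 * ((t : ℂ) * ZMod.stdAddChar k).re : ℝ) : ℂ))‖ ≤
        (L : ℝ)⁻¹ * (10 * L / Real.sqrt (1 + |t|)) := mul_le_mul_of_nonneg_left h1 (by positivity)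
    _ = _ := by field_simp

theorem J_dec (t : ℝ) : ‖J t‖ ≤ 10 / Real.sqrt (1 + |t|) := by
  refine le_of_tendsto (jL_lim t).norm ?_
  obtain ⟨N, hN⟩ := exists_nat_ge ((1 + |t|) ^ 3)
  filter_upwards [eventually_ge_atTop N] with n hn
  refine jL_dec t ?_
  have h1 : ((1 + |t|) ^ 3) ≤ (((n + 1 : ℕ) : ℝ)) := by
    refine hN.trans ?_
    exact_mod_cast (by omega : N ≤ n + 1)
  have h2 : (1 : ℝ) ≤ ((n + 1 : ℕ) : ℝ) := by exact_mod_cast (by omega : 1 ≤ n + 1)
  nlinarith

theorem J_le (t : ℝ) : ‖J t‖ ≤ 1 :=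
  le_of_tendsto (jL_lim t).norm (Eventually.of_forall fun n => jL_le t)

theorem KK_le (t : ℝ) : ‖KK t‖ ≤ 4 :=
  le_of_tendsto (kL_lim t).norm (Eventually.of_forall fun n => kL_le t)

theorem J_cont : Continuous J := by
  unfold J
  refine intervalIntegral.continuous_parametric_intervalIntegral_of_continuous' ?_ _ _
  unfold Function.uncurry ex
  fun_prop

theorem KK_cont : Continuous KK := by
  unfold KK
  refine intervalIntegral.continuous_parametric_intervalIntegral_of_continuous' ?_ _ _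
  unfold Function.uncurry ex
  fun_prop

/-- integration by parts -/
theorem KK_parts (t : ℝ) : |t| * ‖KK t‖ ≤ 2 := by
  rcases eq_or_ne t 0 with ht | ht
  · subst ht
    simp
  have htc : (t : ℂ) ≠ 0 := by exact_mod_cast ht
  have hpi : (Real.pi : ℂ) ≠ 0 := by exact_mod_cast Real.pi_ne_zero
  set F : ℝ → ℂ := fun x => ex t (Real.cos (2 * Real.pi * x)) with hF
  have hd : ∀ x : ℝ, HasDerivAt F
      (-(4 * Real.pi * Complex.I * t) * (Real.sin (2 * Real.pi * x) : ℂ) * F x) x := by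
    intro x
    have h1 : HasDerivAt (fun x : ℝ => Real.cos (2 * Real.pi * x))
        (-Real.sin (2 * Real.pi * x) * (2 * Real.pi)) x := by
      have := ((hasDerivAt_id x).const_mul (2 * Real.pi)).cos
      simpa using this
    have h2 : HasDerivAt (fun x : ℝ => 2 * t * Real.cos (2 * Real.pi * x))
        (2 * t * (-Real.sin (2 * Real.pi * x) * (2 * Real.pi))) x := h1.const_mul (2 * t)
    have h3 := (h2.ofReal_comp.const_mul Complex.I).cexp
    simp only [hF, ex]
    convert h3 using 1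
    push_cast
    ring
  have hs : ∀ x : ℝ, HasDerivAt (fun x : ℝ => ((Real.sin (2 * Real.pi * x) : ℝ) : ℂ))
      ((2 * Real.pi * Real.cos (2 * Real.pi * x) : ℝ) : ℂ) x := by
    intro x
    have h1 : HasDerivAt (fun x : ℝ => Real.sin (2 * Real.pi * x))
        (Real.cos (2 * Real.pi * x) * (2 * Real.pi)) x := by
      have := ((hasDerivAt_id x).const_mul (2 * Real.pi)).sin
      simpa using this
    have h2 := h1.ofReal_comp
    convert h2 using 1
    push_cast
    ring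
  have hFc : Continuous F := by
    simp only [hF, ex]
    fun_prop
  have hp := intervalIntegral.integral_mul_deriv_eq_deriv_mul (a := (0 : ℝ)) (b := 1)
    (fun x _ => hs x) (fun x _ => hd x)
    ((by fun_prop : Continuous fun x : ℝ => ((2 * Real.pi * Real.cos (2 * Real.pi * x) : ℝ) :
      ℂ)).intervalIntegrable 0 1)
    ((Continuous.mul (by fun_prop) hFc : Continuous fun x : ℝ =>
      -(4 * Real.pi * Complex.I * t) * (Real.sin (2 * Real.pi * x) : ℂ) *
        F x).intervalIntegrable 0 1)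
  have h0 : Real.sin (2 * Real.pi * 0) = 0 := by simp
  have h1 : Real.sin (2 * Real.pi * 1) = 0 := by rw [mul_one, Real.sin_two_pi]
  rw [h0, h1] at hp
  have h2 : ∫ x in (0 : ℝ)..1, ((Real.sin (2 * Real.pi * x) : ℝ) : ℂ) *
      (-(4 * Real.pi * Complex.I * t) * (Real.sin (2 * Real.pi * x) : ℂ) * F x) =
      -(Real.pi * Complex.I * t) * KK t := by
    unfold KK
    rw [← intervalIntegral.integral_const_mul]
    refine intervalIntegral.integral_congr fun x _ => ?_
    simp only [hF]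
    push_cast
    ring
  rw [h2] at hp
  have h3 : ‖∫ x in (0 : ℝ)..1, ((2 * Real.pi * Real.cos (2 * Real.pi * x) : ℝ) : ℂ) * F x‖ ≤
      2 * Real.pi := by
    have := intervalIntegral.norm_integral_le_of_norm_le_const (a := (0 : ℝ)) (b := 1)
      (C := 2 * Real.pi)
      (f := fun x : ℝ => ((2 * Real.pi * Real.cos (2 * Real.pi * x) : ℝ) : ℂ) * F x) (by
        intro x _
        simp only [hF]
        rw [norm_mul, ex_norm, mul_one, Complex.norm_real, Real.norm_eq_abs, abs_mul,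
          abs_of_pos (by positivity)]
        have := Real.abs_cos_le_one (2 * Real.pi * x)
        have hpi := Real.pi_pos
        nlinarith)
    simpa using this
  have h4 : ‖-(Real.pi * Complex.I * t) * KK t‖ = Real.pi * (|t| * ‖KK t‖) := by
    rw [norm_mul, norm_neg, norm_mul, norm_mul, Complex.norm_I, Complex.norm_real,
      Complex.norm_real, Real.norm_eq_abs, Real.norm_eq_abs, abs_of_pos Real.pi_pos]
    ring
  have h5 : ‖-(Real.pi * Complex.I * t) * KK t‖ ≤ 2 * Real.pi := by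
    rw [hp]
    simpa using h3
  rw [h4] at h5
  have hpi := Real.pi_pos
  nlinarith

theorem KK_dec (t : ℝ) : ‖KK t‖ ≤ 8 / (1 + |t|) := by
  rw [le_div_iff₀ (by positivity)]
  have h1 := KK_le t
  have h2 := KK_parts t
  nlinarith

/-- the limits -/
noncomputable def GG (d : ℕ) (t : ℝ) : ℂ := fz d t * J t ^ d

noncomputable def HH (d : ℕ) (t : ℝ) : ℂ := fz d t * (KK t * J t ^ (d - 1))

theorem GG_cont : Continuous (GG d) := by
  unfold GG
  exact fz_cont.mul (J_cont.pow d)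

theorem HH_cont : Continuous (HH d) := by
  unfold HH
  exact fz_cont.mul (KK_cont.mul (J_cont.pow _))

theorem GG_le (t : ℝ) : ‖GG d t‖ ≤ 4 := by
  unfold GG
  rw [norm_mul, fz_norm, one_mul, norm_pow]
  have := pow_le_one₀ (norm_nonneg _) (J_le t) (n := d)
  linarith

theorem HH_le (t : ℝ) : ‖HH d t‖ ≤ 4 := by
  unfold HH
  rw [norm_mul, fz_norm, one_mul, norm_mul, norm_pow]
  have h1 := pow_le_one₀ (norm_nonneg _) (J_le t) (n := d - 1)
  have h2 := KK_le t
  have h3 : 0 ≤ ‖J t‖ ^ (d - 1) := by positivity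
  nlinarith [norm_nonneg (KK t)]

theorem GaL_lim (t : ℝ) : Tendsto (fun n : ℕ => GaL d (n + 1) t) atTop (𝓝 (GG d t)) := by
  unfold GaL GG
  exact ((jL_lim t).pow d).const_mul _

theorem HaL_lim (t : ℝ) : Tendsto (fun n : ℕ => HaL d (n + 1) t) atTop (𝓝 (HH d t)) := by
  unfold HaL HH
  exact ((kL_lim t).mul ((jL_lim t).pow _)).const_mul _

theorem int_32 : IntegrableOn (fun t : ℝ => (t + 1) ^ (-(3 / 2) : ℝ)) (Set.Ioi 0) :=
  integrableOn_add_rpow_Ioi_of_lt (by norm_num) (by norm_num)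

theorem GG_int (hd : 3 ≤ d) : IntegrableOn (GG d) (Set.Ioi 0) := by
  refine Integrable.mono' (int_32.const_mul ((10 : ℝ) ^ 3)) GG_cont.aestronglyMeasurable ?_
  refine (ae_restrict_mem measurableSet_Ioi).mono fun t ht => ?_
  have ht0 : 0 < t := ht
  unfold GG
  rw [norm_mul, fz_norm, one_mul, norm_pow]
  obtain ⟨k, rfl⟩ : ∃ k, d = 3 + k := ⟨d - 3, by omega⟩
  have h1 := J_dec t
  rw [abs_of_pos ht0] at h1
  have h2 := J_le t
  have h3 : ‖J t‖ ^ 3 ≤ (10 / Real.sqrt (1 + t)) ^ 3 := pow_le_pow_left₀ (norm_nonneg _) h1 3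
  have h4 : ‖J t‖ ^ (3 + k) ≤ ‖J t‖ ^ 3 := by
    rw [pow_add]
    have := pow_le_one₀ (norm_nonneg (J t)) h2 (n := k)
    have h5 : 0 ≤ ‖J t‖ ^ 3 := by positivity
    nlinarith
  refine h4.trans (h3.trans (le_of_eq ?_))
  rw [div_pow, Real.sqrt_eq_rpow, ← Real.rpow_natCast ((1 + t) ^ (1 / 2 : ℝ)) 3,
    ← Real.rpow_mul (by positivity), div_eq_mul_inv, ← Real.rpow_neg (by positivity), add_comm 1 t]
  congr 1
  norm_num

theorem HH_int (hd : 3 ≤ d) : IntegrableOn (HH d) (Set.Ioi 0) := by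
  refine Integrable.mono' (int_32.const_mul (8 * (10 : ℝ))) HH_cont.aestronglyMeasurable ?_
  refine (ae_restrict_mem measurableSet_Ioi).mono fun t ht => ?_
  have ht0 : 0 < t := ht
  unfold HH
  rw [norm_mul, fz_norm, one_mul, norm_mul, norm_pow]
  obtain ⟨k, hk⟩ : ∃ k, d - 1 = 1 + k := ⟨d - 2, by omega⟩
  have h1 := J_dec t
  have hk1 := KK_dec t
  rw [abs_of_pos ht0] at h1 hk1
  have h2 := J_le t
  have h4 : ‖J t‖ ^ (d - 1) ≤ ‖J t‖ := by
    rw [hk, pow_add, pow_one]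
    have := pow_le_one₀ (norm_nonneg (J t)) h2 (n := k)
    nlinarith [norm_nonneg (J t)]
  calc ‖KK t‖ * ‖J t‖ ^ (d - 1) ≤ (8 / (1 + t)) * (10 / Real.sqrt (1 + t)) :=
        mul_le_mul hk1 (h4.trans h1) (by positivity) (by positivity)
    _ = 8 * 10 * (t + 1) ^ (-(3 / 2) : ℝ) := by
        have h5 : (t + 1) ^ (-(3 / 2) : ℝ) = (1 + t)⁻¹ * (Real.sqrt (1 + t))⁻¹ := by
          rw [Real.sqrt_eq_rpow, add_comm t 1, ← Real.rpow_neg_one (1 + t),
            ← Real.rpow_neg (by positivity), ← Real.rpow_add (by positivity)]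
          norm_num
        rw [h5]
        ring

/-- the free boundary values -/
noncomputable def g0 (d : ℕ) (E : ℝ) : ℂ := Lap (GG d) E

noncomputable def h0 (d : ℕ) (E : ℝ) : ℂ := Lap (HH d) E

/-- the averaged resolvents converge -/
theorem lim_main (d : ℕ) (hd : 3 ≤ d) (E : ℝ) (ε : ℝ) (hε : 0 < ε) :
    ∃ ρ : ℝ, 0 < ρ ∧ ∀ s : ℝ, 0 < s → ∃ L0 : ℕ, ∀ (L : ℕ) [NeZero L], L0 ≤ L → ∀ w : ℂ,
      s ≤ w.im → ‖w - E‖ ≤ ρ → ‖Lap (GaL d L) w - g0 d E‖ ≤ ε ∧
        ‖Lap (HaL d L) w - h0 d E‖ ≤ ε := by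
  have h1 := lap_cont (GG d) GG_cont (GG_int hd) E
  have h2 := lap_cont (HH d) HH_cont (HH_int hd) E
  have h3 := ((Metric.tendsto_nhds.1 h1) (ε / 2) (by positivity)).and
    ((Metric.tendsto_nhds.1 h2) (ε / 2) (by positivity))
  rw [eventually_nhdsWithin_iff, Metric.eventually_nhds_iff] at h3
  obtain ⟨ρ, hρ, h4⟩ := h3
  refine ⟨ρ / 2, by positivity, fun s hs => ?_⟩
  obtain ⟨N1, hN1⟩ := lap_conv (fun n => GaL d (n + 1)) (GG d) (fun n => GaL_cont) GG_cont 4
    (fun n t => GaL_le t) GG_le GaL_lim s hs (ε / 2) (by positivity)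
  obtain ⟨N2, hN2⟩ := lap_conv (fun n => HaL d (n + 1)) (HH d) (fun n => HaL_cont) HH_cont 4
    (fun n t => HaL_le t) HH_le HaL_lim s hs (ε / 2) (by positivity)
  refine ⟨N1 + N2 + 1, fun L _ hL w hw hwE => ?_⟩
  obtain ⟨n, rfl⟩ : ∃ n, L = n + 1 := ⟨L - 1, by omega⟩
  have h5 := hN1 n (by omega) w hw
  have h6 := hN2 n (by omega) w hw
  have h7 := h4 (y := w) (by rw [dist_eq_norm]; linarith) (by
    show 0 ≤ w.im
    linarith)
  rw [dist_eq_norm, dist_eq_norm] at h7
  constructor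
  · have e1 : Lap (GaL d (n + 1)) w - g0 d E = (Lap (GaL d (n + 1)) w - Lap (GG d) w) +
        (Lap (GG d) w - Lap (GG d) E) := by
      unfold g0
      ring
    rw [e1]
    exact (norm_add_le _ _).trans (by linarith [h7.1])
  · have e1 : Lap (HaL d (n + 1)) w - h0 d E = (Lap (HaL d (n + 1)) w - Lap (HH d) w) +
        (Lap (HH d) w - Lap (HH d) E) := by
      unfold h0
      ring
    rw [e1]
    exact (norm_add_le _ _).trans (by linarith [h7.2])

/-- the averaged resolvents are bounded -/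
theorem lim_bdd (d : ℕ) (hd : 3 ≤ d) : ∃ C : ℝ, 0 < C ∧ ∀ s : ℝ, 0 < s → ∃ L0 : ℕ,
    ∀ (L : ℕ) [NeZero L], L0 ≤ L → ∀ w : ℂ, s ≤ w.im → ‖Lap (GaL d L) w‖ ≤ C := by
  refine ⟨(∫ t in Set.Ioi (0 : ℝ), ‖GG d t‖) + 1, ?_, fun s hs => ?_⟩
  · have : 0 ≤ ∫ t in Set.Ioi (0 : ℝ), ‖GG d t‖ := integral_nonneg fun _ => norm_nonneg _
    positivity
  obtain ⟨N1, hN1⟩ := lap_conv (fun n => GaL d (n + 1)) (GG d) (fun n => GaL_cont) GG_cont 4
    (fun n t => GaL_le t) GG_le GaL_lim s hs 1 one_pos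
  refine ⟨N1 + 1, fun L _ hL w hw => ?_⟩
  obtain ⟨n, rfl⟩ : ∃ n, L = n + 1 := ⟨L - 1, by omega⟩
  have h5 := hN1 n (by omega) w hw
  have h6 := lap_bound (GG d) (GG_int hd) w (by linarith)
  have e1 : Lap (GaL d (n + 1)) w = (Lap (GaL d (n + 1)) w - Lap (GG d) w) + Lap (GG d) w := by ring
  rw [e1]
  exact (norm_add_le _ _).trans (by linarith)

end Pool.Agent.Zk11.QD
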