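import Pool.Agent.Zk11.QD.Err

/-! The limit of the ladder sum. -/

set_option autoImplicit false
set_option linter.unusedSectionVars false

open scoped BigOperators Topology ENNReal
open MeasureTheory Filter

namespace Pool.Agent.Zk11.QD

open Pool.Agent.W788.MFP.Four (T e NN adj adj_neg e_comm e_add_left e_add e_zero e_neg e_neg_left
  e_normSq sum_e NN_pos card_T e_single)

variable {d : ℕ} (L : ℕ → ℕ) [hL : ∀ n, NeZero (L n)] (z : ℕ → ℂ) (σ τ : ℕ → ℝ) (m : ℕ → ℂ)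
  (p : (n : ℕ) → T d (L n)) (g : ℂ) (H0 C : ℝ) (P : Fin d → ℝ)

/-- the hypotheses for the limit of the ladder sum -/
structure LH : Prop where
  md : ∀ n, MD d (L n) (z n) (σ n) (m n)
  σ0 : ∀ n, 0 < σ n
  σl : Tendsto σ atTop (𝓝 0)
  xl : Tendsto (fun n => (z n).im / σ n ^ 2) atTop (𝓝 0)
  yl : Tendsto (fun n => σ n ^ 3 / (z n).im) atTop (𝓝 0)
  ml : Tendsto m atTop (𝓝 g)
  gi : 0 < g.im
  Ql : ∀ j, Tendsto (fun n => Qv d (L n) (z n) (σ n) (m n) j) atTop (𝓝 H0)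
  H0 : 0 ≤ H0
  τl : ∀ n, |τ n ^ 2 - σ n ^ 2| ≤ C * σ n ^ 3
  p1 : ∀ j, Tendsto (fun n => si (p n j) ^ 2 / (σ n ^ 2 * (z n).im)) atTop (𝓝 (P j ^ 2))
  p2 : Tendsto (fun n => pp (p n) / (σ n ^ 2 * (z n).im)) atTop (𝓝 (∑ j, P j ^ 2))

variable {L z σ τ m p g H0 C P}

theorem LH.rl (h : LH L z σ τ m p g H0 C P) :
    Tendsto (fun n => σ n ^ 2 / ss (z n) (σ n) (m n)) atTop (𝓝 (1 / g.im)) := by
  have h1 : Tendsto (fun n => (z n).im / σ n ^ 2 + (m n).im) atTop (𝓝 (0 + g.im)) :=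
    h.xl.add ((Complex.continuous_im.tendsto g).comp h.ml)
  rw [zero_add] at h1
  have h2 := h1.inv₀ h.gi.ne'
  rw [← one_div] at h2
  refine h2.congr fun n => ?_
  have hσ := h.σ0 n
  have hs := ss_pos (h.md n)
  have e1 : (z n).im / σ n ^ 2 + (m n).im = ss (z n) (σ n) (m n) / σ n ^ 2 := by
    unfold ss
    field_simp
  rw [e1, inv_div]

theorem LH.tl (h : LH L z σ τ m p g H0 C P) :
    Tendsto (fun n => τ n ^ 2 / σ n ^ 2) atTop (𝓝 1) := by
  have h1 : Tendsto (fun n => C * σ n) atTop (𝓝 0) := by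
    have := h.σl.const_mul C
    rwa [mul_zero] at this
  rw [tendsto_iff_norm_sub_tendsto_zero]
  refine squeeze_zero (fun _ => norm_nonneg _) (fun n => ?_) h1
  have hσ := h.σ0 n
  have e1 : τ n ^ 2 / σ n ^ 2 - 1 = (τ n ^ 2 - σ n ^ 2) / σ n ^ 2 := by field_simp
  rw [e1, Real.norm_eq_abs, abs_div, abs_of_pos (by positivity : 0 < σ n ^ 2),
    div_le_iff₀ (by positivity)]
  refine (h.τl n).trans (le_of_eq ?_)
  ring

theorem LH.dl (h : LH L z σ τ m p g H0 C P) :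
    Tendsto (fun n => (τ n ^ 2 - σ n ^ 2) / (z n).im) atTop (𝓝 0) := by
  have h1 : Tendsto (fun n => C * (σ n ^ 3 / (z n).im)) atTop (𝓝 0) := by
    have := h.yl.const_mul C
    rwa [mul_zero] at this
  rw [tendsto_zero_iff_norm_tendsto_zero]
  refine squeeze_zero (fun _ => norm_nonneg _) (fun n => ?_) h1
  have hz := (h.md n).zim
  rw [Real.norm_eq_abs, abs_div, abs_of_pos hz, div_le_iff₀ hz]
  refine (h.τl n).trans (le_of_eq ?_)
  field_simp

theorem LH.ul (h : LH L z σ τ m p g H0 C P) :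
    Tendsto (fun n => (1 - τ n ^ 2 * ((m n).im / ss (z n) (σ n) (m n))) *
      (ss (z n) (σ n) (m n) / (z n).im)) atTop (𝓝 1) := by
  have h1 : Tendsto (fun n => 1 - (τ n ^ 2 - σ n ^ 2) / (z n).im * (m n).im) atTop
      (𝓝 (1 - 0 * g.im)) :=
    (h.dl.mul ((Complex.continuous_im.tendsto g).comp h.ml)).const_sub 1
  rw [zero_mul, sub_zero] at h1
  refine h1.congr fun n => ?_
  have hz := (h.md n).zim
  have hs := ss_pos (h.md n)
  have e1 : σ n ^ 2 * (m n).im = ss (z n) (σ n) (m n) - (z n).im := by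
    unfold ss
    ring
  field_simp
  have : ss (z n) (σ n) (m n) - τ n ^ 2 * (m n).im = (z n).im - (τ n ^ 2 - σ n ^ 2) * (m n).im := by
    rw [sub_mul, e1]
    ring
  linarith

/-- the condition used in the error bound -/
theorem LH.hq (h : LH L z σ τ m p g H0 C P) :
    ∀ᶠ n in atTop, 3 / 4 * ((z n).im / ss (z n) (σ n) (m n)) ≤
      1 - τ n ^ 2 * ((m n).im / ss (z n) (σ n) (m n)) := by
  filter_upwards [h.ul.eventually_const_le (show (3 / 4 : ℝ) < 1 by norm_num)] with n hn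
  have hz := (h.md n).zim
  have hs := ss_pos (h.md n)
  have h1 := mul_le_mul_of_nonneg_right hn
    (by positivity : 0 ≤ (z n).im / ss (z n) (σ n) (m n))
  refine h1.trans (le_of_eq ?_)
  field_simp

/-- the small remainder -/
theorem LH.el (h : LH L z σ τ m p g H0 C P) :
    Tendsto (fun n => ((σ n ^ 4 / (z n).im : ℝ) : ℂ) * (tt (z n) (σ n) (m n) (p n) -
      (((m n).im / ss (z n) (σ n) (m n) - 1 / (4 * ss (z n) (σ n) (m n) ^ 3) *
        ∑ i, si (p n i) ^ 2 * Qv d (L n) (z n) (σ n) (m n) i : ℝ) : ℂ))) atTop (𝓝 0) := by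
  have hmi : Tendsto (fun n => (m n).im) atTop (𝓝 g.im) :=
    (Complex.continuous_im.tendsto g).comp h.ml
  have hη0 : Tendsto (fun n => (z n).im) atTop (𝓝 0) := by
    have h1 := h.xl.mul (h.σl.pow 2)
    norm_num at h1
    refine h1.congr fun n => ?_
    have := h.σ0 n
    field_simp
  set W := ∑ j, P j ^ 2 with hW
  -- the three bounds
  have b1 : Tendsto (fun n => pp (p n) / (σ n ^ 2 * (z n).im) *
      (σ n ^ 2 / ss (z n) (σ n) (m n)) ^ 2 * σ n *
      Real.sqrt ((m n).im * (σ n ^ 2 / ss (z n) (σ n) (m n)))) atTop (𝓝 0) := by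
    have := ((h.p2.mul (h.rl.pow 2)).mul h.σl).mul
      ((Real.continuous_sqrt.tendsto _).comp (hmi.mul h.rl))
    simpa using this
  have b2 : Tendsto (fun n => 10 * d * (pp (p n) / (σ n ^ 2 * (z n).im) *
      Real.sqrt (pp (p n) / (σ n ^ 2 * (z n).im)) * (σ n ^ 2 / ss (z n) (σ n) (m n)) ^ 3 *
      (σ n * Real.sqrt (z n).im) * (m n).im)) atTop (𝓝 0) := by
    have h1 : Tendsto (fun n => σ n * Real.sqrt (z n).im) atTop (𝓝 0) := by
      have := h.σl.mul ((Real.continuous_sqrt.tendsto _).comp hη0)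
      simpa using this
    have := ((((h.p2.mul ((Real.continuous_sqrt.tendsto _).comp h.p2)).mul (h.rl.pow 3)).mul
      h1).mul hmi).const_mul (10 * (d : ℝ))
    simpa using this
  have b3 : Tendsto (fun n => 30 * (d : ℝ) ^ 3 * (pp (p n) / (σ n ^ 2 * (z n).im) *
      Real.sqrt (pp (p n) / (σ n ^ 2 * (z n).im)) * (σ n ^ 2 / ss (z n) (σ n) (m n)) ^ 4 *
      Real.sqrt ((z n).im / σ n ^ 2) * (m n).im)) atTop (𝓝 0) := by
    have h1 : Tendsto (fun n => Real.sqrt ((z n).im / σ n ^ 2)) atTop (𝓝 0) := by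
      have := (Real.continuous_sqrt.tendsto _).comp h.xl
      rw [Real.sqrt_zero] at this
      exact this
    have := ((((h.p2.mul ((Real.continuous_sqrt.tendsto _).comp h.p2)).mul (h.rl.pow 4)).mul
      h1).mul hmi).const_mul (30 * (d : ℝ) ^ 3)
    simpa using this
  have hb := (b1.add b2).add b3
  rw [add_zero, add_zero] at hb
  have hpp : Tendsto (fun n => pp (p n)) atTop (𝓝 0) := by
    have h1 := h.p2.mul ((h.σl.pow 2).mul hη0)
    norm_num at h1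
    refine h1.congr fun n => ?_
    have := h.σ0 n
    have := (h.md n).zim
    field_simp
  rw [tendsto_zero_iff_norm_tendsto_zero]
  refine squeeze_zero' (Eventually.of_forall fun _ => norm_nonneg _) ?_ hb
  filter_upwards [hpp.eventually_le_const (show (0 : ℝ) < 1 by norm_num)] with n hn
  have hz := (h.md n).zim
  have hs := ss_pos (h.md n)
  have hσ := h.σ0 n
  have hm := (h.md n).mim
  have hp0 := pp_nonneg (p n)
  have h1 := tt_exp (h.md n) (p n) hn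
  rw [norm_mul, Complex.norm_real, Real.norm_eq_abs, abs_of_pos (by positivity)]
  refine (mul_le_mul_of_nonneg_left h1 (by positivity)).trans (le_of_eq ?_)
  set s := ss (z n) (σ n) (m n) with hsdef
  set η := (z n).im with hη
  set mi := (m n).im with hmi'
  set w := pp (p n) with hw
  have r1 : Real.sqrt (mi * (σ n ^ 2 / s)) = σ n * Real.sqrt (mi / s) := by
    have : mi * (σ n ^ 2 / s) = σ n ^ 2 * (mi / s) := by ring
    rw [this, Real.sqrt_mul (by positivity), Real.sqrt_sq hσ.le]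
  have r2 : Real.sqrt (w / (σ n ^ 2 * η)) = Real.sqrt w / (σ n * Real.sqrt η) := by
    rw [Real.sqrt_div hp0, Real.sqrt_mul (by positivity), Real.sqrt_sq hσ.le]
  have r3 : Real.sqrt (η / σ n ^ 2) = Real.sqrt η / σ n := by
    rw [Real.sqrt_div hz.le, Real.sqrt_sq hσ.le]
  have r4 : Real.sqrt η ^ 2 = η := Real.sq_sqrt hz.le
  have r5 : 0 < Real.sqrt η := Real.sqrt_pos.2 hz
  rw [r1, r2, r3, mul_add, mul_add]
  congr 1
  · congr 1
    · field_simp
    · field_simp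
  · have e1 : σ n ^ 4 / η * (30 * (d : ℝ) ^ 3 * (w * Real.sqrt w) * mi / s ^ 4) =
        30 * (d : ℝ) ^ 3 * (w * Real.sqrt w) * mi / s ^ 4 * σ n ^ 4 / Real.sqrt η ^ 2 := by
      rw [r4]
      ring
    rw [e1]
    have e2 : w / (σ n ^ 2 * η) = w / (σ n ^ 2 * Real.sqrt η ^ 2) := by rw [r4]
    rw [e2]
    field_simp

/-- **the limit of the ladder sum** -/
theorem LH.main (h : LH L z σ τ m p g H0 C P) :
    Tendsto (fun n => ((z n).im : ℂ) * (tt (z n) (σ n) (m n) (p n) /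
      (1 - (τ n : ℂ) ^ 2 * tt (z n) (σ n) (m n) (p n)))) atTop
      (𝓝 ((g.im / (1 + H0 / (4 * g.im ^ 2) * ∑ j, P j ^ 2) : ℝ) : ℂ)) := by
  have hmi : Tendsto (fun n => (m n).im) atTop (𝓝 g.im) :=
    (Complex.continuous_im.tendsto g).comp h.ml
  have hg := h.gi
  set W := ∑ j, P j ^ 2 with hW
  have hW0 : 0 ≤ W := Finset.sum_nonneg fun _ _ => by positivity
  have hofR : ∀ {f : ℕ → ℝ} {a : ℝ}, Tendsto f atTop (𝓝 a) →
      Tendsto (fun n => ((f n : ℝ) : ℂ)) atTop (𝓝 ((a : ℝ) : ℂ)) := fun hf =>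
    (Complex.continuous_ofReal.tendsto _).comp hf
  -- the quadratic term
  have hS : Tendsto (fun n => ∑ j, si (p n j) ^ 2 / (σ n ^ 2 * (z n).im) *
      Qv d (L n) (z n) (σ n) (m n) j) atTop (𝓝 (W * H0)) := by
    rw [hW, Finset.sum_mul]
    exact tendsto_finsetSum _ fun j _ => (h.p1 j).mul (h.Ql j)
  have hel := h.el
  -- numerator
  have hnum : Tendsto (fun n => ((σ n ^ 2 : ℝ) : ℂ) * tt (z n) (σ n) (m n) (p n)) atTop
      (𝓝 1) := by
    have h1 : Tendsto (fun n => (σ n ^ 2 / ss (z n) (σ n) (m n)) * (m n).im -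
        1 / 4 * (σ n ^ 2 / ss (z n) (σ n) (m n)) ^ 3 * ((z n).im / σ n ^ 2) *
          ∑ j, si (p n j) ^ 2 / (σ n ^ 2 * (z n).im) * Qv d (L n) (z n) (σ n) (m n) j) atTop
        (𝓝 (1 / g.im * g.im - 1 / 4 * (1 / g.im) ^ 3 * 0 * (W * H0))) :=
      (h.rl.mul hmi).sub ((((h.rl.pow 3).const_mul _).mul h.xl).mul hS)
    have h2 := (hofR h1).add ((hofR h.xl).mul hel)
    have e0 : (((1 / g.im * g.im - 1 / 4 * (1 / g.im) ^ 3 * 0 * (W * H0) : ℝ) : ℂ) +
        ((0 : ℝ) : ℂ) * 0) = 1 := by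
      rw [one_div_mul_cancel hg.ne']
      push_cast
      ring
    rw [e0] at h2
    refine h2.congr fun n => ?_
    have hz := (h.md n).zim
    have hs := ss_pos (h.md n)
    have hσ := h.σ0 n
    have e1 : (σ n ^ 2 / ss (z n) (σ n) (m n)) * (m n).im -
        1 / 4 * (σ n ^ 2 / ss (z n) (σ n) (m n)) ^ 3 * ((z n).im / σ n ^ 2) *
          ∑ j, si (p n j) ^ 2 / (σ n ^ 2 * (z n).im) * Qv d (L n) (z n) (σ n) (m n) j =
        σ n ^ 2 * ((m n).im / ss (z n) (σ n) (m n) - 1 / (4 * ss (z n) (σ n) (m n) ^ 3) *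
        ∑ i, si (p n i) ^ 2 * Qv d (L n) (z n) (σ n) (m n) i) := by
      have e2 : ∑ j, si (p n j) ^ 2 / (σ n ^ 2 * (z n).im) * Qv d (L n) (z n) (σ n) (m n) j =
          1 / (σ n ^ 2 * (z n).im) * ∑ i, si (p n i) ^ 2 * Qv d (L n) (z n) (σ n) (m n) i := by
        rw [Finset.mul_sum]
        exact Finset.sum_congr rfl fun j _ => by ring
      rw [e2]
      generalize ∑ i, si (p n i) ^ 2 * Qv d (L n) (z n) (σ n) (m n) i = Y
      field_simp
    rw [e1]
    have e3 : (((z n).im / σ n ^ 2 : ℝ) : ℂ) * ((σ n ^ 4 / (z n).im : ℝ) : ℂ) =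
        ((σ n ^ 2 : ℝ) : ℂ) := by
      rw [← Complex.ofReal_mul]
      congr 1
      field_simp
    rw [← mul_assoc, e3, Complex.ofReal_mul]
    ring
  -- denominator
  have hden : Tendsto (fun n => (1 - (τ n : ℂ) ^ 2 * tt (z n) (σ n) (m n) (p n)) /
      (((z n).im / σ n ^ 2 : ℝ) : ℂ)) atTop
      (𝓝 ((1 / g.im * (1 + H0 / (4 * g.im ^ 2) * W) : ℝ) : ℂ)) := by
    have h1 : Tendsto (fun n => (1 - τ n ^ 2 * ((m n).im / ss (z n) (σ n) (m n))) *
        (ss (z n) (σ n) (m n) / (z n).im) * (σ n ^ 2 / ss (z n) (σ n) (m n)) +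
        (τ n ^ 2 / σ n ^ 2) * (1 / 4 * (σ n ^ 2 / ss (z n) (σ n) (m n)) ^ 3 *
          ∑ j, si (p n j) ^ 2 / (σ n ^ 2 * (z n).im) * Qv d (L n) (z n) (σ n) (m n) j)) atTop
        (𝓝 (1 * (1 / g.im) + 1 * (1 / 4 * (1 / g.im) ^ 3 * (W * H0)))) :=
      (h.ul.mul h.rl).add (h.tl.mul (((h.rl.pow 3).const_mul _).mul hS))
    have h2 := (hofR h1).sub ((hofR h.tl).mul hel)
    have e0 : (((1 * (1 / g.im) + 1 * (1 / 4 * (1 / g.im) ^ 3 * (W * H0)) : ℝ) : ℂ) -
        ((1 : ℝ) : ℂ) * 0) = ((1 / g.im * (1 + H0 / (4 * g.im ^ 2) * W) : ℝ) : ℂ) := by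
      rw [mul_zero, sub_zero]
      congr 1
      field_simp
    rw [e0] at h2
    refine h2.congr fun n => ?_
    have hz := (h.md n).zim
    have hs := ss_pos (h.md n)
    have hσ := h.σ0 n
    have hx : (0 : ℝ) < (z n).im / σ n ^ 2 := by positivity
    have hxc : (((z n).im / σ n ^ 2 : ℝ) : ℂ) ≠ 0 := by exact_mod_cast hx.ne'
    rw [eq_div_iff hxc]
    have e1 : ((1 - τ n ^ 2 * ((m n).im / ss (z n) (σ n) (m n))) *
        (ss (z n) (σ n) (m n) / (z n).im) * (σ n ^ 2 / ss (z n) (σ n) (m n)) +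
        (τ n ^ 2 / σ n ^ 2) * (1 / 4 * (σ n ^ 2 / ss (z n) (σ n) (m n)) ^ 3 *
          ∑ j, si (p n j) ^ 2 / (σ n ^ 2 * (z n).im) * Qv d (L n) (z n) (σ n) (m n) j)) *
        ((z n).im / σ n ^ 2) =
        1 - τ n ^ 2 * ((m n).im / ss (z n) (σ n) (m n) - 1 / (4 * ss (z n) (σ n) (m n) ^ 3) *
        ∑ i, si (p n i) ^ 2 * Qv d (L n) (z n) (σ n) (m n) i) := by
      have e2 : ∑ j, si (p n j) ^ 2 / (σ n ^ 2 * (z n).im) * Qv d (L n) (z n) (σ n) (m n) j =
          1 / (σ n ^ 2 * (z n).im) * ∑ i, si (p n i) ^ 2 * Qv d (L n) (z n) (σ n) (m n) i := by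
        rw [Finset.mul_sum]
        exact Finset.sum_congr rfl fun j _ => by ring
      rw [e2]
      generalize ∑ i, si (p n i) ^ 2 * Qv d (L n) (z n) (σ n) (m n) i = Y
      field_simp
      ring
    have e3 : ((τ n ^ 2 / σ n ^ 2 : ℝ) : ℂ) * ((σ n ^ 4 / (z n).im : ℝ) : ℂ) *
        (((z n).im / σ n ^ 2 : ℝ) : ℂ) = ((τ n ^ 2 : ℝ) : ℂ) := by
      rw [← Complex.ofReal_mul, ← Complex.ofReal_mul]
      congr 1
      field_simp
    rw [sub_mul, ← Complex.ofReal_mul, e1]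
    have e4 : ∀ X : ℂ, ((τ n ^ 2 / σ n ^ 2 : ℝ) : ℂ) * (((σ n ^ 4 / (z n).im : ℝ) : ℂ) * X) *
        (((z n).im / σ n ^ 2 : ℝ) : ℂ) = ((τ n ^ 2 : ℝ) : ℂ) * X := by
      intro X
      rw [← e3]
      ring
    rw [e4]
    push_cast
    ring
  have hD : 0 < 1 / g.im * (1 + H0 / (4 * g.im ^ 2) * W) := by
    have := h.H0
    positivity
  have hDc : ((1 / g.im * (1 + H0 / (4 * g.im ^ 2) * W) : ℝ) : ℂ) ≠ 0 := by
    exact_mod_cast hD.ne'
  have hfin := hnum.div hden hDc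
  have e5 : (1 : ℂ) / ((1 / g.im * (1 + H0 / (4 * g.im ^ 2) * W) : ℝ) : ℂ) =
      ((g.im / (1 + H0 / (4 * g.im ^ 2) * W) : ℝ) : ℂ) := by
    rw [← Complex.ofReal_one, ← Complex.ofReal_div]
    congr 1
    have := h.H0
    have : 0 < 1 + H0 / (4 * g.im ^ 2) * W := by positivity
    field_simp
  rw [e5] at hfin
  refine hfin.congr fun n => ?_
  have hz := (h.md n).zim
  have hσ := h.σ0 n
  have hx : (0 : ℝ) < (z n).im / σ n ^ 2 := by positivity
  have hxc : (((z n).im / σ n ^ 2 : ℝ) : ℂ) ≠ 0 := by exact_mod_cast hx.ne'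
  simp only [Pi.div_apply]
  rw [div_div_eq_mul_div, mul_div_assoc']
  congr 1
  have e6 : ((z n).im : ℂ) = ((σ n ^ 2 : ℝ) : ℂ) * (((z n).im / σ n ^ 2 : ℝ) : ℂ) := by
    rw [← Complex.ofReal_mul]
    congr 1
    field_simp
  rw [e6]
  ring

end Pool.Agent.Zk11.QD
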