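import Pool.Agent.Zk11.QD.Bb

/-! The fourth moment of the averaged resolvent on the torus. -/

set_option autoImplicit false
set_option linter.unusedSectionVars false

open scoped BigOperators Topology ENNReal
open MeasureTheory Filter

namespace Pool.Agent.Zk11.QD

open Pool.Agent.W788.MFP.Four (T e NN adj adj_neg e_comm e_add_left e_add e_zero e_neg e_neg_left
  e_normSq sum_e NN_pos card_T e_single)
open Pool.Agent.Zk11.QD.Tim (Osc)

variable {d L : ℕ} [NeZero L] {z : ℂ} {σ : ℝ} {m : ℂ}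

theorem add_sum {ι : Type} (s : Finset ι) (f : ι → ZMod L) :
    (ZMod.stdAddChar (∑ i ∈ s, f i) : ℂ) = ∏ i ∈ s, (ZMod.stdAddChar (f i) : ℂ) := by
  classical
  induction s using Finset.induction_on with
  | empty => simp
  | insert a s ha ih => rw [Finset.sum_insert ha, Finset.prod_insert ha, AddChar.map_add_eq_mul, ih]

/-- the spacetime kernel -/
noncomputable def sp (x : T d L) (t : ℝ) : ℂ := fz d t * ∏ i, bb L (x i) t

theorem sp_cont (x : T d L) : Continuous (sp x) := by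
  unfold sp
  exact fz_cont.mul (continuous_finsetProd _ fun i _ => bb_cont _)

theorem sp_norm (x : T d L) (t : ℝ) : ‖sp x t‖ = ∏ i, ‖bb L (x i) t‖ := by
  unfold sp
  rw [norm_mul, fz_norm, one_mul, norm_prod]

theorem sp_le (x : T d L) (t : ℝ) : ‖sp x t‖ ≤ 1 := by
  rw [sp_norm]
  exact Finset.prod_le_one (fun _ _ => norm_nonneg _) fun i _ => bb_le _ _

theorem sp_eq (x : T d L) (t : ℝ) : sp x t = ((NN d L : ℝ) : ℂ)⁻¹ *
    ∑ k : T d L, e k x * Complex.exp (-(Complex.I * ((aa k : ℝ) : ℂ) * t)) := by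
  have h1 : ∀ k : T d L, e k x * Complex.exp (-(Complex.I * ((aa k : ℝ) : ℂ) * t)) =
      fz d t * ∏ i, (ex t (co (k i)) * (ZMod.stdAddChar (k i * x i) : ℂ)) := by
    intro k
    rw [exp_aa, Finset.prod_mul_distrib]
    unfold e
    rw [add_sum]
    ring
  rw [Finset.sum_congr rfl fun k _ => h1 k, ← Finset.mul_sum, mul_left_comm,
    avg_prod (fun i q => ex t (co q) * (ZMod.stdAddChar (q * x i) : ℂ))]
  rfl

theorem kc_lap (x : T d L) (w : ℂ) (hw : 0 < w.im) :
    kc (fun k : T d L => (((aa k : ℝ) : ℂ) - w)⁻¹) x = Lap (sp x) w := by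
  have h2 : Lap (sp x) w = Lap (fun t => ((NN d L : ℝ) : ℂ)⁻¹ *
      ∑ k : T d L, e k x * Complex.exp (-(Complex.I * ((aa k : ℝ) : ℂ) * t))) w := by
    congr 1
    exact funext (sp_eq x)
  rw [h2, lap_const_mul, lap_sum _ (fun (k : T d L) (t : ℝ) =>
    e k x * Complex.exp (-(Complex.I * ((aa k : ℝ) : ℂ) * t))) (fun k => by fun_prop) 1
    (fun k t => by
      rw [norm_mul, e_norm, one_mul, Complex.norm_exp]
      simp [Complex.mul_re]) w hw]
  unfold kc
  congr 1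
  refine Finset.sum_congr rfl fun k _ => ?_
  rw [lap_const_mul, lap_exp (aa k) w hw, mul_comm]

theorem Mh_w (z : ℂ) (σ : ℝ) (m : ℂ) : (Mh z σ m : T d L → ℂ) =
    fun k => (((aa k : ℝ) : ℂ) - (z + (σ : ℂ) ^ 2 * m))⁻¹ := by
  funext k
  unfold Mh Dn
  congr 1
  ring

theorem w_im (z : ℂ) (σ : ℝ) (m : ℂ) : (z + (σ : ℂ) ^ 2 * m).im = ss z σ m := by
  unfold ss
  rw [Complex.add_im, ← Complex.ofReal_pow, Complex.im_ofReal_mul]

/-- single kernels -/
theorem kc_single (x : T d L) (w : ℂ) (s : ℝ) (hs : 0 < s) (hw : s ≤ w.im) :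
    ENNReal.ofReal ‖kc (fun k : T d L => (((aa k : ℝ) : ℂ) - w)⁻¹) x‖ ≤
      ∫⁻ t in Set.Ioi (0 : ℝ), ENNReal.ofReal (Real.exp (-(s * t)) * ∏ i, ‖bb L (x i) t‖) := by
  rw [kc_lap x w (by linarith)]
  unfold Lap
  rw [norm_mul, Complex.norm_I, one_mul, ofReal_norm]
  refine (enorm_integral_le_lintegral_enorm _).trans ?_
  refine setLIntegral_mono' measurableSet_Ioi fun t ht => ?_
  rw [← ofReal_norm]
  apply ENNReal.ofReal_le_ofReal
  rw [norm_mul, exp_norm, sp_norm]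
  refine mul_le_mul_of_nonneg_right ?_ (Finset.prod_nonneg fun _ _ => norm_nonneg _)
  apply Real.exp_le_exp.2
  have : 0 < t := ht
  nlinarith

/-- a hyperplane of the torus -/
noncomputable def fib (i0 : Fin d) (ν : ZMod L) : Finset (T d L) :=
  Finset.univ.filter fun x => x i0 = ν

theorem fib_prod (i0 : Fin d) (ν : ZMod L) (W : ZMod L → ℂ) :
    ∑ x ∈ fib (d := d) i0 ν, ∏ i, W (x i) = W ν * (∑ q, W q) ^ (d - 1) := by
  classical
  have h1 := Finset.prod_univ_sum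
    (fun i : Fin d => if i = i0 then ({ν} : Finset (ZMod L)) else Finset.univ) (fun _ q => W q)
  have h2 : Fintype.piFinset (fun i : Fin d => if i = i0 then ({ν} : Finset (ZMod L)) else
      Finset.univ) = fib i0 ν := by
    ext x
    unfold fib
    rw [Fintype.mem_piFinset, Finset.mem_filter]
    constructor
    · intro h
      refine ⟨Finset.mem_univ _, ?_⟩
      have := h i0
      simpa using this
    · intro h i
      by_cases hi : i = i0
      · subst hi
        simp [h.2]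
      · simp [hi]
  rw [h2] at h1
  rw [← h1, ← Finset.mul_prod_erase Finset.univ _ (Finset.mem_univ i0), if_pos rfl,
    Finset.sum_singleton]
  congr 1
  rw [Finset.prod_congr rfl (g := fun _ => ∑ q, W q)]
  · rw [Finset.prod_const, Finset.card_erase_of_mem (Finset.mem_univ i0), Finset.card_univ,
      Fintype.card_fin]
  · intro i hi
    rw [if_neg (Finset.mem_erase.1 hi).1]

/-- sums over hyperplanes -/
theorem kc_fib (hd : 3 ≤ d) (i0 : Fin d) (ν : ZMod L) (w : ℂ) (s : ℝ) (hs : 0 < s)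
    (hw : s ≤ w.im) :
    ENNReal.ofReal (∑ x ∈ fib i0 ν, ‖kc (fun k : T d L => (((aa k : ℝ) : ℂ) - w)⁻¹) x‖ ^ 2) ≤
      ∫⁻ t in Set.Ioi (0 : ℝ), ∫⁻ u in Set.Ioi (0 : ℝ), ENNReal.ofReal
        (Real.exp (-(s * (t + u))) * (‖bb L ν t‖ * ‖bb L ν u‖) * ‖jL L (t - u)‖ ^ 2) := by
  have hw0 : 0 < w.im := by linarith
  set F : T d L → ℝ → ℂ := fun x t => Complex.exp (Complex.I * w * t) * sp x t with hF
  have hFc : ∀ x, Continuous (F x) := fun x => Continuous.mul (by fun_prop) (sp_cont x)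
  have hFi : ∀ x, IntegrableOn (F x) (Set.Ioi 0) := fun x =>
    lap_integrable (sp x) (sp_cont x) 1 (sp_le x) w hw0
  have hFj : ∀ x, IntegrableOn (fun u => (starRingEnd ℂ) (F x u)) (Set.Ioi 0) := fun x => by
    have h := hFi x
    refine Integrable.mono' h.norm (Complex.continuous_conj.comp (hFc x)).aestronglyMeasurable ?_
    exact Eventually.of_forall fun t => (RCLike.norm_conj _).le
  set c : T d L → ℂ := fun x => ∫ u in Set.Ioi (0 : ℝ), (starRingEnd ℂ) (F x u) with hc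
  have h1 : ((∑ x ∈ fib i0 ν, ‖kc (fun k : T d L => (((aa k : ℝ) : ℂ) - w)⁻¹) x‖ ^ 2 : ℝ) : ℂ) =
      ∫ t in Set.Ioi (0 : ℝ), ∑ x ∈ fib i0 ν, F x t * c x := by
    rw [integral_finsetSum _ fun x _ => (hFi x).mul_const (c x)]
    push_cast
    refine Finset.sum_congr rfl fun x _ => ?_
    rw [integral_mul_const, hc]
    simp only
    rw [kc_lap x w hw0, integral_conj]
    unfold Lap
    rw [norm_mul, Complex.norm_I, one_mul, Complex.mul_conj, Complex.normSq_eq_norm_sq]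
    push_cast
    rfl
  have h2 : ∀ t, ∑ x ∈ fib i0 ν, F x t * c x =
      ∫ u in Set.Ioi (0 : ℝ), ∑ x ∈ fib i0 ν, F x t * (starRingEnd ℂ) (F x u) := by
    intro t
    rw [integral_finsetSum _ fun x _ => (hFj x).const_mul (F x t)]
    refine Finset.sum_congr rfl fun x _ => ?_
    rw [hc, integral_const_mul]
  have h3 : ∀ t u, ∑ x ∈ fib i0 ν, F x t * (starRingEnd ℂ) (F x u) =
      (Complex.exp (Complex.I * w * t) * (starRingEnd ℂ) (Complex.exp (Complex.I * w * u)) *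
        (fz d t * (starRingEnd ℂ) (fz d u))) *
        ((bb L ν t * (starRingEnd ℂ) (bb L ν u)) * jL L (t - u) ^ (d - 1)) := by
    intro t u
    rw [← bb_orth t u, ← fib_prod i0 ν (fun q => bb L q t * (starRingEnd ℂ) (bb L q u)),
      Finset.mul_sum]
    refine Finset.sum_congr rfl fun x _ => ?_
    simp only [hF, sp]
    rw [Finset.prod_mul_distrib, map_mul, map_mul, map_prod]
    ring
  have h4 : ENNReal.ofReal (∑ x ∈ fib i0 ν,
      ‖kc (fun k : T d L => (((aa k : ℝ) : ℂ) - w)⁻¹) x‖ ^ 2) =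
      ‖∫ t in Set.Ioi (0 : ℝ), ∑ x ∈ fib i0 ν, F x t * c x‖ₑ := by
    rw [← h1, ← ofReal_norm, Complex.norm_real, Real.norm_eq_abs, abs_of_nonneg]
    exact Finset.sum_nonneg fun _ _ => by positivity
  rw [h4]
  refine (enorm_integral_le_lintegral_enorm _).trans ?_
  refine setLIntegral_mono' measurableSet_Ioi fun t ht => ?_
  rw [h2 t]
  refine (enorm_integral_le_lintegral_enorm _).trans ?_
  refine setLIntegral_mono' measurableSet_Ioi fun u hu => ?_
  rw [h3, ← ofReal_norm]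
  apply ENNReal.ofReal_le_ofReal
  simp only [norm_mul, RCLike.norm_conj, fz_norm, exp_norm, norm_pow, mul_one]
  have ht0 : 0 < t := ht
  have hu0 : 0 < u := hu
  rw [← Real.exp_add, mul_assoc (Real.exp (-(s * (t + u))))]
  have e1 : Real.exp (-(w.im * t) + -(w.im * u)) ≤ Real.exp (-(s * (t + u))) := by
    apply Real.exp_le_exp.2
    nlinarith
  refine mul_le_mul e1 ?_ (by positivity) (Real.exp_pos _).le
  refine mul_le_mul_of_nonneg_left ?_ (by positivity)
  exact pow_le_pow_of_le_one (norm_nonneg _) (jL_le _) (by omega)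

theorem kc_sup (f : T d L → ℂ) (B : ℝ) (hB : ∀ k, ‖f k‖ ≤ B) (x : T d L) : ‖kc f x‖ ≤ B := by
  unfold kc
  have hN := NN_pos (d := d) (L := L)
  rw [norm_mul, norm_inv, Complex.norm_real, Real.norm_eq_abs, abs_of_pos hN]
  have h1 : ‖∑ k, f k * e k x‖ ≤ NN d L * B := by
    refine (norm_sum_le _ _).trans ?_
    calc ∑ k, ‖f k * e k x‖ ≤ ∑ _k : T d L, B := by
          refine Finset.sum_le_sum fun k _ => ?_
          rw [norm_mul, e_norm, mul_one]
          exact hB k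
      _ = NN d L * B := by
          rw [Finset.sum_const, Finset.card_univ, nsmul_eq_mul, cardT]
  calc (NN d L)⁻¹ * ‖∑ k, f k * e k x‖ ≤ (NN d L)⁻¹ * (NN d L * B) :=
        mul_le_mul_of_nonneg_left h1 (by positivity)
    _ = B := by field_simp

theorem chord (ν : ZMod L) : 4 * (ν.valMinAbs.natAbs : ℝ) / L ≤ ‖(ZMod.stdAddChar ν : ℂ) - 1‖ := by
  have hL := Lpos (L := L)
  have h1 : ‖(ZMod.stdAddChar ν : ℂ) - 1‖ =
      2 * Real.sin (Real.pi * (ν.valMinAbs.natAbs : ℝ) / L) := by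
    have h2 : (ZMod.stdAddChar ν : ℂ) =
        Complex.exp (Complex.I * ((2 * Real.pi * ((ν.valMinAbs : ℤ) : ℝ) / L : ℝ) : ℂ)) := by
      have := ZMod.stdAddChar_coe (N := L) (ν.valMinAbs : ℤ)
      rw [ZMod.coe_valMinAbs] at this
      rw [this]
      congr 1
      push_cast
      ring
    rw [h2, Complex.norm_exp_I_mul_ofReal_sub_one, Real.norm_eq_abs, abs_mul, abs_two]
    congr 1
    have h3 : 2 * Real.pi * ((ν.valMinAbs : ℤ) : ℝ) / L / 2 =
        Real.pi * ((ν.valMinAbs : ℤ) : ℝ) / L := by ring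
    rw [h3]
    have h4 : ((ν.valMinAbs.natAbs : ℕ) : ℝ) = |((ν.valMinAbs : ℤ) : ℝ)| := by
      rw [← Int.cast_abs, Int.abs_eq_natAbs]
      simp
    have h5 : ((ν.valMinAbs.natAbs : ℕ) : ℝ) ≤ L / 2 := by
      have := ZMod.natAbs_valMinAbs_le ν
      have h6 : ((ν.valMinAbs.natAbs : ℕ) : ℝ) ≤ ((L / 2 : ℕ) : ℝ) := by exact_mod_cast this
      exact h6.trans Nat.cast_div_le
    rw [h4] at h5 ⊢
    have h7 : 0 ≤ Real.sin (Real.pi * |((ν.valMinAbs : ℤ) : ℝ)| / L) := by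
      apply Real.sin_nonneg_of_nonneg_of_le_pi (by positivity)
      rw [div_le_iff₀ hL]
      nlinarith [Real.pi_pos]
    rcases abs_cases ((ν.valMinAbs : ℤ) : ℝ) with ⟨h8, _⟩ | ⟨h8, _⟩
    · rw [h8] at h7 ⊢
      exact abs_of_nonneg h7
    · rw [h8] at h7 ⊢
      have h9 : Real.pi * -((ν.valMinAbs : ℤ) : ℝ) / L = -(Real.pi * ((ν.valMinAbs : ℤ) : ℝ) / L) := by
        ring
      rw [h9, Real.sin_neg] at h7 ⊢
      rw [abs_of_nonpos (by linarith)]
  rw [h1]
  have h5 : ((ν.valMinAbs.natAbs : ℕ) : ℝ) ≤ L / 2 := by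
    have := ZMod.natAbs_valMinAbs_le ν
    have h6 : ((ν.valMinAbs.natAbs : ℕ) : ℝ) ≤ ((L / 2 : ℕ) : ℝ) := by exact_mod_cast this
    exact h6.trans Nat.cast_div_le
  have h6 := Real.mul_le_sin (x := Real.pi * (ν.valMinAbs.natAbs : ℝ) / L) (by positivity) (by
    rw [div_le_iff₀ hL]
    nlinarith [Real.pi_pos])
  have h7 : 2 / Real.pi * (Real.pi * (ν.valMinAbs.natAbs : ℝ) / L) =
      2 * (ν.valMinAbs.natAbs : ℝ) / L := by
    have := Real.pi_ne_zero
    field_simp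
  rw [h7] at h6
  calc 4 * (ν.valMinAbs.natAbs : ℝ) / L = 2 * (2 * (ν.valMinAbs.natAbs : ℝ) / L) := by ring
    _ ≤ _ := by linarith

theorem chord_one (q : ZMod L) : |co (q - 1) - co q| ≤ 2 * Real.pi / L := by
  have h1 : co (q - 1) - co q = ((ZMod.stdAddChar (q - 1) : ℂ) * (1 - ZMod.stdAddChar (1 : ZMod L))).re := by
    have h2 : (ZMod.stdAddChar q : ℂ) =
        (ZMod.stdAddChar (q - 1) : ℂ) * ZMod.stdAddChar (1 : ZMod L) := by
      rw [← AddChar.map_add_eq_mul, sub_add_cancel]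
    unfold co
    rw [mul_sub, mul_one, ← h2, Complex.sub_re]
  rw [h1]
  refine (Complex.abs_re_le_norm _).trans ?_
  rw [norm_mul, add_norm, one_mul, norm_sub_rev]
  have h2 : (ZMod.stdAddChar (1 : ZMod L) : ℂ) =
      Complex.exp (Complex.I * ((2 * Real.pi / L : ℝ) : ℂ)) := by
    have := ZMod.stdAddChar_coe (N := L) (1 : ℤ)
    push_cast at this
    rw [this]
    congr 1
    push_cast
    ring
  rw [h2]
  refine Real.norm_exp_I_mul_ofReal_sub_one_le.trans ?_
  rw [Real.norm_eq_abs, abs_of_nonneg (by positivity)]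

/-- the kernels far away -/
theorem kc_far (i0 : Fin d) (x : T d L) (w : ℂ) (s : ℝ) (hs : 0 < s) (hw : s ≤ w.im) :
    ((x i0).valMinAbs.natAbs : ℝ) * ‖kc (fun k : T d L => (((aa k : ℝ) : ℂ) - w)⁻¹) x‖ ≤
      Real.pi / s ^ 2 := by
  have hL := Lpos (L := L)
  set f : T d L → ℂ := fun k => (((aa k : ℝ) : ℂ) - w)⁻¹ with hf
  set p : T d L := Pi.single i0 1 with hp
  have hD : ∀ k : T d L, s ≤ ‖((aa k : ℝ) : ℂ) - w‖ := by
    intro k
    refine hw.trans ?_
    have h1 := Complex.abs_im_le_norm (((aa k : ℝ) : ℂ) - w)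
    have h2 : |(((aa k : ℝ) : ℂ) - w).im| = |w.im| := by
      rw [Complex.sub_im, Complex.ofReal_im, zero_sub, abs_neg]
    rw [h2] at h1
    exact (le_abs_self _).trans h1
  have hD0 : ∀ k : T d L, ((aa k : ℝ) : ℂ) - w ≠ 0 := by
    intro k h0
    have := hD k
    rw [h0, norm_zero] at this
    linarith
  have h1 := kc_mod f p x
  have h2 : (ZMod.stdAddChar (x i0) : ℂ) = e p x := by
    rw [e_comm, hp, e_single]
  have h3 : ((ZMod.stdAddChar (x i0) : ℂ) - 1) * kc f x = kc (fun k => f (k - p) + (-1) * f k) x := by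
    rw [kc_add, ← h1, kc_const_mul, h2]
    ring
  have haa : ∀ k : T d L, |aa (k - p) - aa k| ≤ 4 * Real.pi / L := by
    intro k
    have h4 : aa (k - p) - aa k = -2 * (co (k i0 - 1) - co (k i0)) := by
      rw [aa_eq, aa_eq, ← Finset.sum_sub_distrib, Finset.sum_eq_single i0]
      · rw [hp, Pi.sub_apply, Pi.single_eq_same]
        ring
      · intro j _ hj
        rw [hp, Pi.sub_apply, Pi.single_eq_of_ne hj, sub_zero, sub_self]
      · intro h
        exact absurd (Finset.mem_univ _) h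
    rw [h4, abs_mul]
    have := chord_one (k i0)
    calc |(-2 : ℝ)| * |co (k i0 - 1) - co (k i0)| ≤ 2 * (2 * Real.pi / L) := by
          rw [abs_neg, abs_two]
          linarith
      _ = _ := by ring
  have h4 : ‖kc (fun k => f (k - p) + (-1) * f k) x‖ ≤ 4 * Real.pi / L / s ^ 2 := by
    refine kc_sup _ _ (fun k => ?_) x
    have h5 : f (k - p) + (-1) * f k = (((aa k - aa (k - p) : ℝ) : ℂ)) *
        ((((aa (k - p) : ℝ) : ℂ) - w)⁻¹ * (((aa k : ℝ) : ℂ) - w)⁻¹) := by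
      simp only [hf]
      have e1 := hD0 k
      have e2 := hD0 (k - p)
      field_simp
      push_cast
      ring
    rw [h5, norm_mul, Complex.norm_real, Real.norm_eq_abs, norm_mul, norm_inv, norm_inv, abs_sub_comm]
    have e3 : ‖((aa (k - p) : ℝ) : ℂ) - w‖⁻¹ ≤ s⁻¹ := inv_anti₀ hs (hD _)
    have e4 : ‖((aa k : ℝ) : ℂ) - w‖⁻¹ ≤ s⁻¹ := inv_anti₀ hs (hD _)
    calc |aa (k - p) - aa k| * (‖((aa (k - p) : ℝ) : ℂ) - w‖⁻¹ * ‖((aa k : ℝ) : ℂ) - w‖⁻¹) ≤
          4 * Real.pi / L * (s⁻¹ * s⁻¹) :=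
          mul_le_mul (haa k) (mul_le_mul e3 e4 (by positivity) (by positivity)) (by positivity)
            (by positivity)
      _ = _ := by
          field_simp
  have h6 := chord (x i0)
  have h7 : 4 * ((x i0).valMinAbs.natAbs : ℝ) / L * ‖kc f x‖ ≤ 4 * Real.pi / L / s ^ 2 := by
    calc 4 * ((x i0).valMinAbs.natAbs : ℝ) / L * ‖kc f x‖ ≤
          ‖(ZMod.stdAddChar (x i0) : ℂ) - 1‖ * ‖kc f x‖ :=
          mul_le_mul_of_nonneg_right h6 (norm_nonneg _)
      _ = ‖kc (fun k => f (k - p) + (-1) * f k) x‖ := by rw [← norm_mul, h3]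
      _ ≤ _ := h4
  have h8 : (4 / (L : ℝ)) * (((x i0).valMinAbs.natAbs : ℝ) * ‖kc f x‖) ≤
      (4 / (L : ℝ)) * (Real.pi / s ^ 2) := by
    calc (4 / (L : ℝ)) * (((x i0).valMinAbs.natAbs : ℝ) * ‖kc f x‖) =
          4 * ((x i0).valMinAbs.natAbs : ℝ) / L * ‖kc f x‖ := by ring
      _ ≤ 4 * Real.pi / L / s ^ 2 := h7
      _ = _ := by ring
  exact le_of_mul_le_mul_left h8 (by positivity)

end Pool.Agent.Zk11.QD
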