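import Pool.Agent.Zk11.QD.Lim

/-! The boundary values of the free resolvent. -/

set_option autoImplicit false
set_option linter.unusedSectionVars false

open scoped BigOperators Topology ENNReal
open MeasureTheory Filter

namespace Pool.Agent.Zk11.QD

variable {d : ℕ}

/-- the dispersion relation -/
noncomputable def ek (k : Fin d → ℝ) : ℝ := ∑ i, (2 - 2 * Real.cos (2 * Real.pi * k i))

theorem ek_cont : Continuous (ek (d := d)) := by
  unfold ek
  fun_prop

/-- the Brillouin zone -/
def cube (d : ℕ) : Set (Fin d → ℝ) := Set.pi Set.univ fun _ => Set.Icc (0 : ℝ) 1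

theorem cube_eq : cube d = Set.Icc (0 : Fin d → ℝ) 1 := by
  unfold cube
  ext k
  simp only [Set.mem_pi, Set.mem_univ, forall_true_left, Set.mem_Icc, Pi.le_def, Pi.zero_apply,
    Pi.one_apply]
  constructor
  · intro h
    exact ⟨fun i => (h i).1, fun i => (h i).2⟩
  · intro h i
    exact ⟨h.1 i, h.2 i⟩

theorem cube_restrict : (volume : Measure (Fin d → ℝ)).restrict (cube d) =
    Measure.pi fun _ : Fin d => (volume : Measure ℝ).restrict (Set.Icc 0 1) := by
  unfold cube
  rw [volume_pi]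
  exact Measure.restrict_pi_pi (μ := fun _ : Fin d => (volume : Measure ℝ)) (fun _ => Set.Icc 0 1)

instance : IsFiniteMeasure ((volume : Measure (Fin d → ℝ)).restrict (cube d)) := by
  rw [cube_restrict]
  infer_instance

theorem prod_rep (φ : Fin d → ℝ → ℝ) (t : ℝ) :
    fz d t * ∏ i, (∫ x in (0 : ℝ)..1, ((φ i x : ℝ) : ℂ) * ex t (Real.cos (2 * Real.pi * x))) =
      ∫ k in cube d, ((∏ i, φ i (k i) : ℝ) : ℂ) *
        Complex.exp (-(Complex.I * ((ek k : ℝ) : ℂ) * t)) := by
  have h1 : ∀ k : Fin d → ℝ, ((∏ i, φ i (k i) : ℝ) : ℂ) *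
      Complex.exp (-(Complex.I * ((ek k : ℝ) : ℂ) * t)) =
      fz d t * ∏ i, (((φ i (k i) : ℝ) : ℂ) * ex t (Real.cos (2 * Real.pi * k i))) := by
    intro k
    rw [Finset.prod_mul_distrib]
    have h2 : Complex.exp (-(Complex.I * ((ek k : ℝ) : ℂ) * t)) =
        fz d t * ∏ i, ex t (Real.cos (2 * Real.pi * k i)) := by
      unfold fz ex ek
      rw [← Complex.exp_sum, ← Complex.exp_add]
      congr 1
      rw [← Finset.mul_sum]
      push_cast
      rw [Finset.sum_sub_distrib]
      simp only [Finset.sum_const, Finset.card_univ, Fintype.card_fin, nsmul_eq_mul]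
      rw [← Finset.mul_sum, ← Finset.mul_sum]
      ring
    rw [h2]
    push_cast
    ring
  simp only [h1]
  rw [integral_const_mul, cube_restrict]
  have h3 := integral_fintype_prod_eq_prod (𝕜 := ℂ)
    (fun (i : Fin d) (x : ℝ) => ((φ i x : ℝ) : ℂ) * ex t (Real.cos (2 * Real.pi * x)))
    (μ := fun _ => (volume : Measure ℝ).restrict (Set.Icc 0 1))
  rw [h3]
  congr 1
  refine Finset.prod_congr rfl fun i _ => ?_
  rw [intervalIntegral.integral_of_le zero_le_one, integral_Icc_eq_integral_Ioc]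

theorem lap_rep (φ : Fin d → ℝ → ℝ) (hφ : ∀ i, Continuous (φ i)) (C : ℝ)
    (hC : ∀ k : Fin d → ℝ, |∏ i, φ i (k i)| ≤ C) (w : ℂ) (hw : 0 < w.im) :
    Lap (fun t => fz d t * ∏ i, (∫ x in (0 : ℝ)..1, ((φ i x : ℝ) : ℂ) *
      ex t (Real.cos (2 * Real.pi * x)))) w =
      ∫ k in cube d, ((∏ i, φ i (k i) : ℝ) : ℂ) * (((ek k : ℝ) : ℂ) - w)⁻¹ := by
  unfold Lap
  simp only [prod_rep]
  have h1 : ∀ t : ℝ, Complex.exp (Complex.I * w * t) * ∫ k in cube d, ((∏ i, φ i (k i) : ℝ) : ℂ) *
      Complex.exp (-(Complex.I * ((ek k : ℝ) : ℂ) * t)) =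
      ∫ k in cube d, Complex.exp (Complex.I * w * t) * (((∏ i, φ i (k i) : ℝ) : ℂ) *
      Complex.exp (-(Complex.I * ((ek k : ℝ) : ℂ) * t))) := fun t => (integral_const_mul _ _).symm
  simp only [h1]
  rw [integral_integral_swap]
  · rw [← integral_const_mul]
    refine integral_congr_ae (Eventually.of_forall fun k => ?_)
    simp only
    have h2 := lap_exp (ek k) w hw
    unfold Lap at h2
    rw [← h2]
    have h3 : ∀ t : ℝ, Complex.exp (Complex.I * w * t) * (((∏ i, φ i (k i) : ℝ) : ℂ) *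
        Complex.exp (-(Complex.I * ((ek k : ℝ) : ℂ) * t))) = ((∏ i, φ i (k i) : ℝ) : ℂ) *
        (Complex.exp (Complex.I * w * t) * Complex.exp (-(Complex.I * ((ek k : ℝ) : ℂ) * t))) := by
      intro t
      ring
    simp only [h3]
    rw [integral_const_mul]
    ring
  · have h4 : Integrable (fun q : ℝ × (Fin d → ℝ) => Real.exp (-(w.im * q.1)) * C)
        ((volume.restrict (Set.Ioi 0)).prod (volume.restrict (cube d))) :=
      (exp_int w.im hw).mul_prod (integrable_const C)
    refine Integrable.mono' h4 ?_ ?_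
    · refine Continuous.aestronglyMeasurable ?_
      unfold Function.uncurry
      have h5 : Continuous fun q : ℝ × (Fin d → ℝ) => ((∏ i, φ i (q.2 i) : ℝ) : ℂ) := by
        refine Complex.continuous_ofReal.comp (continuous_finsetProd _ fun i _ => ?_)
        exact (hφ i).comp (by fun_prop)
      have h6 : Continuous fun q : ℝ × (Fin d → ℝ) => ((ek q.2 : ℝ) : ℂ) :=
        Complex.continuous_ofReal.comp (ek_cont.comp continuous_snd)
      refine Continuous.mul (by fun_prop) (h5.mul ?_)
      refine Complex.continuous_exp.comp ?_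
      exact ((continuous_const.mul h6).mul (by fun_prop)).neg
    · refine Eventually.of_forall fun q => ?_
      unfold Function.uncurry
      rw [norm_mul, exp_norm, norm_mul, Complex.norm_real, Real.norm_eq_abs]
      have h7 : ‖Complex.exp (-(Complex.I * ((ek q.2 : ℝ) : ℂ) * (q.1 : ℂ)))‖ = 1 := by
        rw [Complex.norm_exp]
        simp [Complex.mul_re]
      rw [h7, mul_one]
      exact mul_le_mul_of_nonneg_left (hC _) (Real.exp_pos _).le

/-- the representation of the averaged resolvent -/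
theorem GG_rep (w : ℂ) (hw : 0 < w.im) :
    Lap (GG d) w = ∫ k in cube d, ((1 : ℝ) : ℂ) * (((ek k : ℝ) : ℂ) - w)⁻¹ := by
  have h1 := lap_rep (d := d) (fun _ _ => 1) (fun _ => continuous_const) 1 (fun k => by simp) w hw
  simp only [Finset.prod_const_one] at h1
  rw [← h1]
  congr 1
  funext t
  unfold GG J
  simp only [Finset.prod_const, Finset.card_univ, Fintype.card_fin, Complex.ofReal_one, one_mul]

/-- the representation of the weighted resolvent -/
theorem HH_rep (i0 : Fin d) (w : ℂ) (hw : 0 < w.im) :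
    Lap (HH d) w = ∫ k in cube d, ((4 * Real.sin (2 * Real.pi * k i0) ^ 2 : ℝ) : ℂ) *
      (((ek k : ℝ) : ℂ) - w)⁻¹ := by
  have hp : ∀ k : Fin d → ℝ, ∏ i, (if i = i0 then (fun x : ℝ => 4 * Real.sin (2 * Real.pi * x) ^ 2)
      else fun _ => 1) (k i) = 4 * Real.sin (2 * Real.pi * k i0) ^ 2 := by
    intro k
    rw [Finset.prod_eq_single i0]
    · rw [if_pos rfl]
    · intro j _ hj
      rw [if_neg hj]
    · intro h
      exact absurd (Finset.mem_univ _) h
  have h1 := lap_rep (d := d) (fun i => if i = i0 then (fun x : ℝ => 4 *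
    Real.sin (2 * Real.pi * x) ^ 2) else fun _ => 1) (fun i => by
      split_ifs
      · fun_prop
      · exact continuous_const) 4 (fun k => by
      rw [hp, abs_of_nonneg (by positivity)]
      nlinarith [Real.sin_sq_le_one (2 * Real.pi * k i0)]) w hw
  simp only [hp] at h1
  rw [← h1]
  congr 1
  funext t
  unfold HH KK J
  congr 1
  rw [← Finset.mul_prod_erase Finset.univ _ (Finset.mem_univ i0), if_pos rfl]
  congr 1
  rw [Finset.prod_congr rfl (g := fun _ => ∫ x in (0 : ℝ)..1, ex t (Real.cos (2 * Real.pi * x)))]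
  · rw [Finset.prod_const, Finset.card_erase_of_mem (Finset.mem_univ i0), Finset.card_univ,
      Fintype.card_fin]
  · intro i hi
    rw [if_neg (Finset.mem_erase.1 hi).1]
    simp only [Complex.ofReal_one, one_mul]

/-- the Poisson kernel -/
noncomputable def po (δ y : ℝ) : ℝ := δ / (y ^ 2 + δ ^ 2)

theorem po_im (W : (Fin d → ℝ) → ℝ) (hW : Continuous W) (E δ : ℝ) (hδ : 0 < δ) :
    (∫ k in cube d, ((W k : ℝ) : ℂ) * (((ek k : ℝ) : ℂ) - (E + δ * Complex.I))⁻¹).im =
      ∫ k in cube d, W k * po δ (ek k - E) := by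
  have hK : IsCompact (cube d) := isCompact_univ_pi fun _ => isCompact_Icc
  have hne : ∀ k : Fin d → ℝ, ((ek k : ℝ) : ℂ) - (E + δ * Complex.I) ≠ 0 := by
    intro k h0
    have := congrArg Complex.im h0
    simp at this
    linarith
  have hc : Continuous fun k : Fin d → ℝ => ((W k : ℝ) : ℂ) *
      (((ek k : ℝ) : ℂ) - (E + δ * Complex.I))⁻¹ := by
    refine (Complex.continuous_ofReal.comp hW).mul (Continuous.inv₀ ?_ hne)
    exact (Complex.continuous_ofReal.comp ek_cont).sub continuous_const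
  have hi := hc.continuousOn.integrableOn_compact (μ := volume) hK
  have h1 := integral_im (𝕜 := ℂ) hi
  simp only [RCLike.im_to_complex] at h1
  rw [← h1]
  refine integral_congr_ae (Eventually.of_forall fun k => ?_)
  simp only
  rw [Complex.im_ofReal_mul, Complex.inv_im]
  have h2 : (((ek k : ℝ) : ℂ) - (E + δ * Complex.I)).im = -δ := by simp
  have h3 : Complex.normSq (((ek k : ℝ) : ℂ) - (E + δ * Complex.I)) = (ek k - E) ^ 2 + δ ^ 2 := by
    rw [Complex.normSq_apply]
    simp
    ring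
  rw [h2, h3]
  unfold po
  ring

theorem pt_E (E : ℝ) : Tendsto (fun δ : ℝ => (E : ℂ) + δ * Complex.I) (𝓝[>] 0)
    (𝓝[{w : ℂ | 0 ≤ w.im}] (E : ℂ)) := by
  rw [tendsto_nhdsWithin_iff]
  constructor
  · have h1 : Continuous fun δ : ℝ => (E : ℂ) + δ * Complex.I := by fun_prop
    have h2 := h1.tendsto 0
    simp only [Complex.ofReal_zero, zero_mul, add_zero] at h2
    exact h2.mono_left nhdsWithin_le_nhds
  · filter_upwards [self_mem_nhdsWithin] with δ hδ
    have : 0 < δ := hδ
    simp
    linarith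

theorem g0_po (hd : 3 ≤ d) (E : ℝ) :
    Tendsto (fun δ : ℝ => ∫ k in cube d, po δ (ek k - E)) (𝓝[>] 0) (𝓝 (g0 d E).im) := by
  have h1 := (Complex.continuous_im.tendsto _).comp
    ((lap_cont (GG d) GG_cont (GG_int hd) E).comp (pt_E E))
  refine (tendsto_congr' ?_).1 h1
  filter_upwards [self_mem_nhdsWithin] with δ hδ
  have hδ0 : 0 < δ := hδ
  simp only [Function.comp]
  rw [GG_rep _ (by simpa using hδ0), po_im (fun _ => 1) continuous_const E δ hδ0]
  simp only [one_mul]

theorem h0_po (hd : 3 ≤ d) (i0 : Fin d) (E : ℝ) :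
    Tendsto (fun δ : ℝ => ∫ k in cube d, 4 * Real.sin (2 * Real.pi * k i0) ^ 2 * po δ (ek k - E))
      (𝓝[>] 0) (𝓝 (h0 d E).im) := by
  have h1 := (Complex.continuous_im.tendsto _).comp
    ((lap_cont (HH d) HH_cont (HH_int hd) E).comp (pt_E E))
  refine (tendsto_congr' ?_).1 h1
  filter_upwards [self_mem_nhdsWithin] with δ hδ
  have hδ0 : 0 < δ := hδ
  simp only [Function.comp]
  rw [HH_rep i0 _ (by simpa using hδ0),
    po_im (fun k => 4 * Real.sin (2 * Real.pi * k i0) ^ 2) (by fun_prop) E δ hδ0]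

/-! ### Positivity -/

theorem ek_shift (i0 : Fin d) (k : Fin d → ℝ) (τ τ' : ℝ) :
    |ek (k + Pi.single i0 τ) - ek (k + Pi.single i0 τ')| ≤ 4 * Real.pi * |τ - τ'| := by
  have h1 : ek (k + Pi.single i0 τ) - ek (k + Pi.single i0 τ') =
      -2 * (Real.cos (2 * Real.pi * (k i0 + τ)) - Real.cos (2 * Real.pi * (k i0 + τ'))) := by
    unfold ek
    rw [← Finset.sum_sub_distrib, Finset.sum_eq_single i0]
    · rw [Pi.add_apply, Pi.add_apply, Pi.single_eq_same, Pi.single_eq_same]
      ring
    · intro j _ hj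
      rw [Pi.add_apply, Pi.add_apply, Pi.single_eq_of_ne hj, Pi.single_eq_of_ne hj, sub_self]
    · intro h
      exact absurd (Finset.mem_univ _) h
  rw [h1, abs_mul]
  have h2 := Real.abs_cos_sub_cos_le (2 * Real.pi * (k i0 + τ)) (2 * Real.pi * (k i0 + τ'))
  have h3 : 2 * Real.pi * (k i0 + τ) - 2 * Real.pi * (k i0 + τ') = 2 * Real.pi * (τ - τ') := by ring
  rw [h3, abs_mul, abs_of_pos (by positivity : 0 < 2 * Real.pi)] at h2
  have h4 : |(-2 : ℝ)| = 2 := by norm_num
  rw [h4]
  linarith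

/-- the level set is crossed in the first direction -/
theorem crossing (i0 : Fin d) (E θ r r' : ℝ) (hθ0 : 0 < θ) (hθ1 : θ < 1 / 2)
    (hE : (d : ℝ) * (2 - 2 * Real.cos (2 * Real.pi * θ)) = E) (hr0 : 0 < r) (hr : r ≤ r' / 2)
    (hr1 : 2 * r' < θ) (hr2 : θ + 2 * r' < 1 / 2)
    (hc1 : 4 * Real.pi * d * r < 2 * Real.cos (2 * Real.pi * θ) -
      2 * Real.cos (2 * Real.pi * (θ + r' / 2)))
    (hc2 : 4 * Real.pi * d * r < 2 * Real.cos (2 * Real.pi * (θ - r' / 2)) -
      2 * Real.cos (2 * Real.pi * θ)) (k : Fin d → ℝ) (hk : ∀ i, |k i - θ| ≤ r) :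
    ∃ τ ∈ Set.Icc (-r') r', ek (k + Pi.single i0 τ) = E := by
  have hpi := Real.pi_pos
  have hr'0 : 0 < r' := by linarith
  have hki := abs_le.1 (hk i0)
  -- the other coordinates
  have hoth : ∀ τ, |ek (k + Pi.single i0 τ) - E - (2 * Real.cos (2 * Real.pi * θ) -
      2 * Real.cos (2 * Real.pi * (k i0 + τ)))| ≤ 4 * Real.pi * d * r := by
    intro τ
    have h1 : ek (k + Pi.single i0 τ) - E - (2 * Real.cos (2 * Real.pi * θ) -
        2 * Real.cos (2 * Real.pi * (k i0 + τ))) = ∑ i ∈ Finset.univ.erase i0,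
        (-2) * (Real.cos (2 * Real.pi * k i) - Real.cos (2 * Real.pi * θ)) := by
      have h2 : E = ∑ _i : Fin d, (2 - 2 * Real.cos (2 * Real.pi * θ)) := by
        rw [Finset.sum_const, Finset.card_univ, Fintype.card_fin, nsmul_eq_mul, hE]
      rw [h2]
      unfold ek
      rw [← Finset.sum_sub_distrib, ← Finset.add_sum_erase Finset.univ _ (Finset.mem_univ i0)]
      have h3 : ∑ i ∈ Finset.univ.erase i0, (2 - 2 * Real.cos (2 * Real.pi *
          (k + Pi.single i0 τ : Fin d → ℝ) i) - (2 - 2 * Real.cos (2 * Real.pi * θ))) =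
          ∑ i ∈ Finset.univ.erase i0,
          (-2) * (Real.cos (2 * Real.pi * k i) - Real.cos (2 * Real.pi * θ)) := by
        refine Finset.sum_congr rfl fun i hi => ?_
        rw [Pi.add_apply, Pi.single_eq_of_ne (Finset.mem_erase.1 hi).1, add_zero]
        ring
      rw [h3, Pi.add_apply, Pi.single_eq_same]
      ring
    rw [h1]
    refine (Finset.abs_sum_le_sum_abs _ _).trans ?_
    have h4 : ∀ i ∈ Finset.univ.erase i0, |(-2) * (Real.cos (2 * Real.pi * k i) -
        Real.cos (2 * Real.pi * θ))| ≤ 4 * Real.pi * r := by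
      intro i _
      rw [abs_mul]
      have h2 := Real.abs_cos_sub_cos_le (2 * Real.pi * k i) (2 * Real.pi * θ)
      have h3 : 2 * Real.pi * k i - 2 * Real.pi * θ = 2 * Real.pi * (k i - θ) := by ring
      rw [h3, abs_mul, abs_of_pos (by positivity : 0 < 2 * Real.pi)] at h2
      have h4 : |(-2 : ℝ)| = 2 := by norm_num
      rw [h4]
      have h5 := mul_le_mul_of_nonneg_left (hk i) (by positivity : 0 ≤ 2 * Real.pi)
      linarith
    refine (Finset.sum_le_sum h4).trans ?_
    rw [Finset.sum_const, nsmul_eq_mul]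
    have h5 : ((Finset.univ.erase i0 : Finset (Fin d)).card : ℝ) ≤ d := by
      have : (Finset.univ.erase i0 : Finset (Fin d)).card ≤ d := by
        refine (Finset.card_le_univ _).trans ?_
        rw [Fintype.card_fin]
      exact_mod_cast this
    calc ((Finset.univ.erase i0 : Finset (Fin d)).card : ℝ) * (4 * Real.pi * r) ≤
          d * (4 * Real.pi * r) := mul_le_mul_of_nonneg_right h5 (by positivity)
      _ = _ := by ring
  have hplus : 0 ≤ ek (k + Pi.single i0 r') - E := by
    have h1 := (abs_le.1 (hoth r')).1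
    have h2 : Real.cos (2 * Real.pi * (k i0 + r')) ≤ Real.cos (2 * Real.pi * (θ + r' / 2)) := by
      apply Real.cos_le_cos_of_nonneg_of_le_pi
      · positivity
      · nlinarith
      · have : θ + r' / 2 ≤ k i0 + r' := by linarith
        nlinarith
    linarith
  have hminus : ek (k + Pi.single i0 (-r')) - E ≤ 0 := by
    have h1 := (abs_le.1 (hoth (-r'))).2
    have h2 : Real.cos (2 * Real.pi * (θ - r' / 2)) ≤ Real.cos (2 * Real.pi * (k i0 + -r')) := by
      apply Real.cos_le_cos_of_nonneg_of_le_pi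
      · have : 0 ≤ k i0 + -r' := by linarith
        positivity
      · nlinarith
      · have : k i0 + -r' ≤ θ - r' / 2 := by linarith
        nlinarith
    linarith
  have hcont : Continuous fun τ : ℝ => ek (k + Pi.single i0 τ) := by
    refine ek_cont.comp (continuous_const.add ?_)
    refine continuous_pi fun j => ?_
    by_cases hj : j = i0
    · subst hj
      simp only [Pi.single_eq_same]
      exact continuous_id
    · simp only [Pi.single_eq_of_ne hj]
      exact continuous_const
  have h3 := intermediate_value_Icc (by linarith : -r' ≤ r') hcont.continuousOn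
  obtain ⟨τ, hτ, hτ2⟩ := h3 (show E ∈ Set.Icc _ _ from ⟨by linarith, by linarith⟩)
  exact ⟨τ, hτ, hτ2⟩


end Pool.Agent.Zk11.QD
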