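import Mathlib

/-! Orthonormal products of independent variables. -/

set_option autoImplicit false
set_option linter.unusedSectionVars false

open scoped BigOperators
open MeasureTheory

namespace Pool.Agent.Zk11.QD

variable {Λ : Type} [Fintype Λ] [DecidableEq Λ]

/-- product over a set of sites -/
noncomputable def hp (h : ℝ → ℂ) (S : Finset Λ) (V : Λ → ℝ) : ℂ := ∏ i ∈ S, h (V i)

theorem hp_meas (h : ℝ → ℂ) (hm : Measurable h) (S : Finset Λ) : Measurable (hp (Λ := Λ) h S) := by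
  unfold hp
  exact Finset.measurable_prod S fun i _ => hm.comp (measurable_pi_apply i)

theorem ae_all (μ : Measure ℝ) [IsProbabilityMeasure μ] (p : ℝ → Prop) (hp : ∀ᵐ s ∂μ, p s) :
    ∀ᵐ V ∂(Measure.pi fun _ : Λ => μ), ∀ i, p (V i) := by
  rw [ae_all_iff]
  intro i
  exact (Measure.tendsto_eval_ae_ae (μ := fun _ : Λ => μ) (i := i)).eventually hp

theorem hp_bound (μ : Measure ℝ) [IsProbabilityMeasure μ] (h : ℝ → ℂ) (B : ℝ) (hB : 1 ≤ B)
    (hb : ∀ᵐ s ∂μ, ‖h s‖ ≤ B) (S : Finset Λ) :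
    ∀ᵐ V ∂(Measure.pi fun _ : Λ => μ), ‖hp h S V‖ ≤ B ^ (Fintype.card Λ) := by
  filter_upwards [ae_all μ _ hb] with V hV
  unfold hp
  rw [norm_prod]
  calc ∏ i ∈ S, ‖h (V i)‖ ≤ ∏ i ∈ S, B :=
        Finset.prod_le_prod (fun _ _ => norm_nonneg _) fun i _ => hV i
    _ = B ^ S.card := by rw [Finset.prod_const]
    _ ≤ B ^ (Fintype.card Λ) := pow_le_pow_right₀ hB (Finset.card_le_univ S)

theorem pair (μ : Measure ℝ) [IsProbabilityMeasure μ] (h : ℝ → ℂ)
    (h0 : ∫ s, h s ∂μ = 0) (h1 : ∫ s, h s * (starRingEnd ℂ) (h s) ∂μ = 1) (S S' : Finset Λ) :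
    ∫ V, hp h S V * (starRingEnd ℂ) (hp h S' V) ∂(Measure.pi fun _ : Λ => μ) =
      if S = S' then 1 else 0 := by
  have e1 : ∀ V : Λ → ℝ, hp h S V * (starRingEnd ℂ) (hp h S' V) =
      ∏ i, (if i ∈ S then h (V i) else 1) *
        (if i ∈ S' then (starRingEnd ℂ) (h (V i)) else 1) := by
    intro V
    unfold hp
    rw [Finset.prod_mul_distrib, map_prod, Finset.prod_ite_mem, Finset.prod_ite_mem,
      Finset.univ_inter, Finset.univ_inter]
  simp only [e1]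
  rw [integral_fintype_prod_eq_prod (fun (i : Λ) (s : ℝ) => (if i ∈ S then h s else 1) *
        (if i ∈ S' then (starRingEnd ℂ) (h s) else 1))]
  split_ifs with hS
  · subst hS
    refine Finset.prod_eq_one fun i _ => ?_
    by_cases hi : i ∈ S
    · simp only [if_pos hi]
      exact h1
    · simp [if_neg hi]
  · obtain ⟨i, hi⟩ : ∃ i, ¬ (i ∈ S ↔ i ∈ S') := by
      by_contra hcon
      push Not at hcon
      exact hS (Finset.ext hcon)
    refine Finset.prod_eq_zero (Finset.mem_univ i) ?_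
    by_cases h2 : i ∈ S
    · have h3 : i ∉ S' := fun h4 => hi ⟨fun _ => h4, fun _ => h2⟩
      simp only [if_pos h2, if_neg h3, mul_one]
      exact h0
    · have h3 : i ∈ S' := by
        by_contra h4
        exact hi ⟨fun h5 => absurd h5 h2, fun h5 => absurd h5 h4⟩
      simp only [if_neg h2, if_pos h3, one_mul]
      rw [integral_conj, h0, map_zero]

/-- chaos sums -/
noncomputable def ch (h : ℝ → ℂ) (c : Finset Λ → ℂ) (V : Λ → ℝ) : ℂ :=
  ∑ S : Finset Λ, c S * hp h S V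

theorem ch_meas (h : ℝ → ℂ) (hm : Measurable h) (c : Finset Λ → ℂ) :
    Measurable (ch (Λ := Λ) h c) := by
  unfold ch
  exact Finset.measurable_sum _ fun S _ => (hp_meas h hm S).const_mul _

theorem ch_bound (μ : Measure ℝ) [IsProbabilityMeasure μ] (h : ℝ → ℂ) (B : ℝ) (hB : 1 ≤ B)
    (hb : ∀ᵐ s ∂μ, ‖h s‖ ≤ B) (c : Finset Λ → ℂ) :
    ∀ᵐ V ∂(Measure.pi fun _ : Λ => μ), ‖ch h c V‖ ≤ ∑ S : Finset Λ, ‖c S‖ * B ^ (Fintype.card Λ) := by
  have h1 : ∀ᵐ V ∂(Measure.pi fun _ : Λ => μ), ∀ S : Finset Λ,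
      ‖hp h S V‖ ≤ B ^ (Fintype.card Λ) := by
    rw [ae_all_iff]
    exact fun S => hp_bound μ h B hB hb S
  filter_upwards [h1] with V hV
  unfold ch
  refine (norm_sum_le _ _).trans (Finset.sum_le_sum fun S _ => ?_)
  rw [norm_mul]
  exact mul_le_mul_of_nonneg_left (hV S) (norm_nonneg _)

theorem ch_sq (μ : Measure ℝ) [IsProbabilityMeasure μ] (h : ℝ → ℂ) (hm : Measurable h) (B : ℝ)
    (hB : 1 ≤ B) (hb : ∀ᵐ s ∂μ, ‖h s‖ ≤ B)
    (h0 : ∫ s, h s ∂μ = 0) (h1 : ∫ s, h s * (starRingEnd ℂ) (h s) ∂μ = 1) (c : Finset Λ → ℂ) :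
    ∫ V, ‖ch h c V‖ ^ 2 ∂(Measure.pi fun _ : Λ => μ) = ∑ S : Finset Λ, ‖c S‖ ^ 2 := by
  have e1 : ∀ V : Λ → ℝ, ((‖ch h c V‖ ^ 2 : ℝ) : ℂ) =
      ∑ S : Finset Λ, ∑ S' : Finset Λ, c S * (starRingEnd ℂ) (c S') *
        (hp h S V * (starRingEnd ℂ) (hp h S' V)) := by
    intro V
    rw [← Complex.normSq_eq_norm_sq, ← Complex.mul_conj]
    unfold ch
    rw [map_sum, Finset.sum_mul_sum]
    refine Finset.sum_congr rfl fun S _ => Finset.sum_congr rfl fun S' _ => ?_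
    rw [map_mul]
    ring
  have hint : ∀ S S' : Finset Λ, Integrable (fun V => c S * (starRingEnd ℂ) (c S') *
        (hp h S V * (starRingEnd ℂ) (hp h S' V))) (Measure.pi fun _ : Λ => μ) := by
    intro S S'
    refine Integrable.const_mul ?_ _
    refine Integrable.of_bound (C := B ^ (Fintype.card Λ) * B ^ (Fintype.card Λ)) ?_ ?_
    · refine Measurable.aestronglyMeasurable ?_
      exact (hp_meas h hm S).mul (Complex.continuous_conj.measurable.comp (hp_meas h hm S'))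
    · filter_upwards [hp_bound μ h B hB hb S, hp_bound μ h B hB hb S'] with V h2 h3
      rw [norm_mul, RCLike.norm_conj]
      exact mul_le_mul h2 h3 (norm_nonneg _) (by positivity)
  have e2 : ((∫ V, ‖ch h c V‖ ^ 2 ∂(Measure.pi fun _ : Λ => μ) : ℝ) : ℂ) =
      ((∑ S : Finset Λ, ‖c S‖ ^ 2 : ℝ) : ℂ) := by
    rw [← integral_complex_ofReal]
    simp only [e1]
    rw [integral_finsetSum _ (fun S _ => integrable_finsetSum _ fun S' _ => hint S S')]
    rw [Complex.ofReal_sum]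
    refine Finset.sum_congr rfl fun S _ => ?_
    rw [integral_finsetSum _ (fun S' _ => hint S S')]
    simp only [integral_const_mul, pair μ h h0 h1]
    rw [Finset.sum_eq_single S]
    · rw [if_pos rfl, mul_one, Complex.mul_conj, Complex.normSq_eq_norm_sq]
    · intro S' _ hS
      rw [if_neg (Ne.symm hS), mul_zero]
    · intro hS
      exact absurd (Finset.mem_univ S) hS
  exact_mod_cast e2

theorem ch_sq_int (μ : Measure ℝ) [IsProbabilityMeasure μ] (h : ℝ → ℂ) (hm : Measurable h) (B : ℝ)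
    (hB : 1 ≤ B) (hb : ∀ᵐ s ∂μ, ‖h s‖ ≤ B) (c : Finset Λ → ℂ) :
    Integrable (fun V => ‖ch h c V‖ ^ 2) (Measure.pi fun _ : Λ => μ) := by
  refine Integrable.of_bound (C := (∑ S : Finset Λ, ‖c S‖ * B ^ (Fintype.card Λ)) ^ 2) ?_ ?_
  · exact ((ch_meas h hm c).norm.pow_const 2).aestronglyMeasurable
  · filter_upwards [ch_bound μ h B hB hb c] with V h2
    rw [Real.norm_eq_abs, abs_of_nonneg (by positivity)]
    exact pow_le_pow_left₀ (norm_nonneg _) h2 2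

/-- products with a bounded function -/
theorem ch_mul_sq (μ : Measure ℝ) [IsProbabilityMeasure μ] (h : ℝ → ℂ) (hm : Measurable h) (B : ℝ)
    (hB : 1 ≤ B) (hb : ∀ᵐ s ∂μ, ‖h s‖ ≤ B)
    (h0 : ∫ s, h s ∂μ = 0) (h1 : ∫ s, h s * (starRingEnd ℂ) (h s) ∂μ = 1) (c : Finset Λ → ℂ)
    (g : ℝ → ℂ) (hg : Measurable g) (G : ℝ) (hG : ∀ᵐ s ∂μ, ‖g s‖ ≤ G) (x : Λ) :
    Integrable (fun V : Λ → ℝ => ‖g (V x) * ch h c V‖ ^ 2) (Measure.pi fun _ : Λ => μ) ∧
    ∫ V, ‖g (V x) * ch h c V‖ ^ 2 ∂(Measure.pi fun _ : Λ => μ) ≤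
      G ^ 2 * ∑ S : Finset Λ, ‖c S‖ ^ 2 := by
  have hG2 : ∀ᵐ V ∂(Measure.pi fun _ : Λ => μ), ‖g (V x) * ch h c V‖ ^ 2 ≤
      G ^ 2 * ‖ch h c V‖ ^ 2 := by
    filter_upwards [ae_all μ _ hG] with V hV
    rw [norm_mul, mul_pow]
    exact mul_le_mul_of_nonneg_right (pow_le_pow_left₀ (norm_nonneg _) (hV x) 2) (by positivity)
  have hi := (ch_sq_int μ h hm B hB hb c).const_mul (G ^ 2)
  have hint : Integrable (fun V : Λ → ℝ => ‖g (V x) * ch h c V‖ ^ 2)
      (Measure.pi fun _ : Λ => μ) := by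
    refine Integrable.mono' hi ?_ ?_
    · exact ((((hg.comp (measurable_pi_apply x)).mul (ch_meas h hm c)).norm).pow_const
        2).aestronglyMeasurable
    · filter_upwards [hG2] with V hV
      rw [Real.norm_eq_abs, abs_of_nonneg (by positivity)]
      exact hV
  refine ⟨hint, ?_⟩
  calc ∫ V, ‖g (V x) * ch h c V‖ ^ 2 ∂(Measure.pi fun _ : Λ => μ)
      ≤ ∫ V, G ^ 2 * ‖ch h c V‖ ^ 2 ∂(Measure.pi fun _ : Λ => μ) :=
        integral_mono_ae hint hi hG2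
    _ = G ^ 2 * ∑ S : Finset Λ, ‖c S‖ ^ 2 := by
        rw [integral_const_mul, ch_sq μ h hm B hB hb h0 h1 c]

end Pool.Agent.Zk11.QD
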