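import Pool.Agent.Zk11.QD.Solve
import Pool.Agent.Zk11.QD.Prob

/-! The residual of the truncated chaos expansion. -/

set_option autoImplicit false
set_option linter.unusedSectionVars false

open scoped BigOperators
open MeasureTheory

namespace Pool.Agent.Zk11.QD

variable {Λ : Type} [Fintype Λ] [DecidableEq Λ]

theorem sum_one {β : Type} [AddCommMonoid β] (x : Λ) (g : Finset Λ → β) :
    ∑ S : Finset Λ, (if x ∈ S then g (S.erase x) else 0) =
      ∑ S : Finset Λ, if x ∈ S then 0 else g S := by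
  rw [← Finset.sum_filter]
  have h2 : ∑ S : Finset Λ, (if x ∈ S then 0 else g S) =
      ∑ S ∈ Finset.univ.filter (fun S : Finset Λ => x ∉ S), g S := by
    rw [Finset.sum_filter]
    refine Finset.sum_congr rfl fun S _ => ?_
    by_cases hy : x ∈ S <;> simp [hy]
  rw [h2]
  refine Finset.sum_nbij' (fun S => S.erase x) (fun S => insert x S) ?_ ?_ ?_ ?_ ?_
  · intro S hS
    simp
  · intro S hS
    simp
  · intro S hS
    simp only [Finset.mem_filter, Finset.mem_univ, true_and] at hS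
    exact Finset.insert_erase hS
  · intro S hS
    simp only [Finset.mem_filter, Finset.mem_univ, true_and] at hS
    exact Finset.erase_insert hS
  · intro S hS
    rfl

/-- the coefficients avoiding the endpoint -/
noncomputable def cB (M : Λ → Λ → ℂ) (τ : ℝ) (o : Λ) (n : ℕ) (x : Λ) (S : Finset Λ) : ℂ :=
  if x ∈ S then 0 else cf M τ o n x S

/-- the coefficients of the recollisions -/
noncomputable def cR (M : Λ → Λ → ℂ) (m : ℂ) (τ : ℝ) (o : Λ) (n : ℕ) (x : Λ) (S : Finset Λ) : ℂ :=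
  if x ∈ S then cf M τ o (n + 1) x S - m * τ * cf M τ o n x (S.erase x) else 0

theorem cB_card (M : Λ → Λ → ℂ) (τ : ℝ) (o : Λ) (n : ℕ) (x : Λ) (S : Finset Λ)
    (h : S.card ≠ n) : cB M τ o n x S = 0 := by
  unfold cB
  rw [cf_card M τ o n x S h, ite_self]

theorem cR_card (M : Λ → Λ → ℂ) (m : ℂ) (τ : ℝ) (o : Λ) (n : ℕ) (x : Λ) (S : Finset Λ)
    (h : S.card ≠ n + 1) : cR M m τ o n x S = 0 := by
  unfold cR
  split_ifs with hx
  · rw [cf_card M τ o (n + 1) x S h, cf_card M τ o n x (S.erase x), mul_zero, sub_zero]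
    rw [Finset.card_erase_of_mem hx]
    have : 0 < S.card := Finset.card_pos.2 ⟨x, hx⟩
    omega
  · rfl

theorem hp_erase (h : ℝ → ℂ) (S : Finset Λ) (V : Λ → ℝ) (x : Λ) (hx : x ∈ S) :
    hp h S V = h (V x) * hp h (S.erase x) V := by
  unfold hp
  rw [Finset.mul_prod_erase S (fun i => h (V i)) hx]

/-- applying the inverse kernel -/
theorem apply_A (A M : Λ → Λ → ℂ) (τ : ℝ) (o : Λ) (h : ℝ → ℂ)
    (hAM : ∀ x w, ∑ y, A x y * M y w = if x = w then 1 else 0) (n : ℕ) (V : Λ → ℝ) (x : Λ) :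
    ∑ y, A x y * ch h (cf M τ o (n + 1) y) V = τ * h (V x) * ch h (cB M τ o n x) V := by
  have h1 : ∀ S : Finset Λ, ∑ y, A x y * cf M τ o (n + 1) y S =
      if x ∈ S then τ * cf M τ o n x (S.erase x) else 0 := by
    intro S
    simp only [cf_succ, Finset.mul_sum]
    rw [Finset.sum_comm]
    have h2 : ∀ w ∈ S, ∑ y, A x y * (M y w * τ * cf M τ o n w (S.erase w)) =
        if x = w then τ * cf M τ o n x (S.erase x) else 0 := by
      intro w _
      have h3 : ∑ y, A x y * (M y w * τ * cf M τ o n w (S.erase w)) =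
          (∑ y, A x y * M y w) * (τ * cf M τ o n w (S.erase w)) := by
        rw [Finset.sum_mul]
        exact Finset.sum_congr rfl fun y _ => by ring
      rw [h3, hAM]
      split_ifs with h4
      · rw [h4, one_mul]
      · rw [zero_mul]
    rw [Finset.sum_congr rfl h2, Finset.sum_ite_eq]
  have h2 : ∑ y, A x y * ch h (cf M τ o (n + 1) y) V =
      ∑ S : Finset Λ, (∑ y, A x y * cf M τ o (n + 1) y S) * hp h S V := by
    unfold ch
    simp only [Finset.mul_sum, Finset.sum_mul]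
    rw [Finset.sum_comm]
    exact Finset.sum_congr rfl fun S _ => Finset.sum_congr rfl fun y _ => by ring
  rw [h2]
  simp only [h1]
  have h3 : ∀ S : Finset Λ, (if x ∈ S then τ * cf M τ o n x (S.erase x) else 0) * hp h S V =
      if x ∈ S then (fun S' => τ * h (V x) * (cf M τ o n x S' * hp h S' V)) (S.erase x) else 0 := by
    intro S
    split_ifs with hx
    · rw [hp_erase h S V x hx]
      ring
    · rw [zero_mul]
  rw [Finset.sum_congr rfl fun S _ => h3 S,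
    sum_one x (fun S' => τ * h (V x) * (cf M τ o n x S' * hp h S' V))]
  unfold ch
  rw [Finset.mul_sum]
  refine Finset.sum_congr rfl fun S _ => ?_
  unfold cB
  split_ifs
  · ring
  · rfl

theorem split_U_succ (M : Λ → Λ → ℂ) (m : ℂ) (τ : ℝ) (o : Λ) (h : ℝ → ℂ) (n : ℕ) (V : Λ → ℝ)
    (x : Λ) :
    ch h (cf M τ o (n + 1) x) V = ch h (cB M τ o (n + 1) x) V +
      (m * (τ * h (V x)) * ch h (cB M τ o n x) V + ch h (cR M m τ o n x) V) := by
  have h1 : m * (τ * h (V x)) * ch h (cB M τ o n x) V =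
      ∑ S : Finset Λ, (if x ∈ S then m * τ * cf M τ o n x (S.erase x) else 0) * hp h S V := by
    have h3 : ∀ S : Finset Λ, (if x ∈ S then m * τ * cf M τ o n x (S.erase x) else 0) * hp h S V =
        if x ∈ S then (fun S' => m * (τ * h (V x)) * (cf M τ o n x S' * hp h S' V)) (S.erase x)
          else 0 := by
      intro S
      split_ifs with hx
      · rw [hp_erase h S V x hx]
        ring
      · rw [zero_mul]
    rw [Finset.sum_congr rfl fun S _ => h3 S,
      sum_one x (fun S' => m * (τ * h (V x)) * (cf M τ o n x S' * hp h S' V))]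
    unfold ch
    rw [Finset.mul_sum]
    refine Finset.sum_congr rfl fun S _ => ?_
    unfold cB
    split_ifs
    · ring
    · rfl
  rw [h1]
  unfold ch
  rw [← Finset.sum_add_distrib, ← Finset.sum_add_distrib]
  refine Finset.sum_congr rfl fun S _ => ?_
  unfold cB cR
  split_ifs <;> ring

theorem split_U_zero (M : Λ → Λ → ℂ) (τ : ℝ) (o : Λ) (h : ℝ → ℂ) (V : Λ → ℝ) (x : Λ) :
    ch h (cf M τ o 0 x) V = ch h (cB M τ o 0 x) V := by
  unfold ch
  refine Finset.sum_congr rfl fun S _ => ?_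
  unfold cB
  split_ifs with hx
  · rw [cf_card M τ o 0 x S]
    have : 0 < S.card := Finset.card_pos.2 ⟨x, hx⟩
    omega
  · rfl

theorem U_zero (M : Λ → Λ → ℂ) (τ : ℝ) (o : Λ) (h : ℝ → ℂ) (V : Λ → ℝ) (x : Λ) :
    ch h (cf M τ o 0 x) V = M x o := by
  unfold ch
  rw [Finset.sum_eq_single ∅]
  · rw [cf_zero, if_pos rfl]
    unfold hp
    simp
  · intro S _ hS
    rw [cf_zero, if_neg hS, zero_mul]
  · intro h
    exact absurd (Finset.mem_univ _) h

/-- the truncated expansion -/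
noncomputable def ut (M : Λ → Λ → ℂ) (τ : ℝ) (o : Λ) (h : ℝ → ℂ) (N : ℕ) (V : Λ → ℝ) (x : Λ) : ℂ :=
  ∑ n ∈ Finset.range (N + 1), (-1) ^ n * ch h (cf M τ o n x) V

/-- the residual identity -/
theorem resid (A M : Λ → Λ → ℂ) (m : ℂ) (τ : ℝ) (o : Λ) (h v : ℝ → ℂ)
    (hAM : ∀ x w, ∑ y, A x y * M y w = if x = w then 1 else 0) (N : ℕ) (V : Λ → ℝ) (x : Λ) :
    (∑ y, A x y * ut M τ o h N V y) + v (V x) * ut M τ o h N V x -
      (if x = o then 1 else 0) =
      (v (V x) - τ * h (V x) * (1 + m * v (V x))) *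
        (∑ n ∈ Finset.range N, (-1) ^ n * ch h (cB M τ o n x) V) +
      v (V x) * ((-1) ^ N * ch h (cB M τ o N x) V) +
      v (V x) * ∑ n ∈ Finset.range N, (-1) ^ (n + 1) * ch h (cR M m τ o n x) V := by
  induction N with
  | zero =>
    have h1 : ∀ y, ut M τ o h 0 V y = M y o := by
      intro y
      unfold ut
      simp [U_zero]
    simp only [h1, hAM, Finset.range_zero, Finset.sum_empty, mul_zero, zero_add, add_zero, pow_zero,
      one_mul]
    rw [← split_U_zero, U_zero]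
    ring
  | succ N ih =>
    have h1 : ∀ y, ut M τ o h (N + 1) V y =
        ut M τ o h N V y + (-1) ^ (N + 1) * ch h (cf M τ o (N + 1) y) V := by
      intro y
      unfold ut
      rw [Finset.sum_range_succ _ (N + 1)]
    have h2 : ∑ y, A x y * ut M τ o h (N + 1) V y = ∑ y, A x y * ut M τ o h N V y +
        (-1) ^ (N + 1) * (τ * h (V x) * ch h (cB M τ o N x) V) := by
      rw [← apply_A A M τ o h hAM, Finset.mul_sum, ← Finset.sum_add_distrib]
      refine Finset.sum_congr rfl fun y _ => ?_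
      rw [h1]
      ring
    rw [h2, h1 x, split_U_succ M m, Finset.sum_range_succ, Finset.sum_range_succ]
    linear_combination ih

theorem sum_level (g : ℕ → Finset Λ → ℂ) (j : ℕ) (hg : ∀ n S, S.card ≠ n + j → g n S = 0)
    (ε : ℕ → ℂ) (hε : ∀ n, ‖ε n‖ = 1) (N : ℕ) (S : Finset Λ) :
    ‖∑ n ∈ Finset.range N, ε n * g n S‖ ^ 2 = ∑ n ∈ Finset.range N, ‖g n S‖ ^ 2 := by
  by_cases h : ∃ n0 ∈ Finset.range N, S.card = n0 + j
  · obtain ⟨n0, h0, h1⟩ := h
    rw [Finset.sum_eq_single n0, Finset.sum_eq_single n0]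
    · rw [norm_mul, hε, one_mul]
    · intro n _ hn
      rw [hg n S (by omega)]
      simp
    · intro hn
      exact absurd h0 hn
    · intro n _ hn
      rw [hg n S (by omega), mul_zero]
    · intro hn
      exact absurd h0 hn
  · push Not at h
    rw [Finset.sum_eq_zero fun n hn => by rw [hg n S (h n hn), mul_zero],
      Finset.sum_eq_zero fun n hn => by rw [hg n S (h n hn), norm_zero]; norm_num]
    simp

theorem ch_lin (h : ℝ → ℂ) (s : Finset ℕ) (ε : ℕ → ℂ) (g : ℕ → Finset Λ → ℂ) (V : Λ → ℝ) :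
    ∑ n ∈ s, ε n * ch h (g n) V = ch h (fun S => ∑ n ∈ s, ε n * g n S) V := by
  unfold ch
  simp only [Finset.mul_sum, Finset.sum_mul]
  rw [Finset.sum_comm]
  exact Finset.sum_congr rfl fun S _ => Finset.sum_congr rfl fun n _ => by ring

theorem cB_sum (M : Λ → Λ → ℂ) (τ : ℝ) (o : Λ) (n : ℕ) :
    ∑ x, ∑ S : Finset Λ, ‖cB M τ o n x S‖ ^ 2 ≤ FF M τ o n := by
  refine Finset.sum_le_sum fun x _ => Finset.sum_le_sum fun S _ => ?_
  unfold cB
  split_ifs
  · rw [norm_zero, zero_pow two_ne_zero]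
    positivity
  · exact le_rfl

theorem cR_eq (M : Λ → Λ → ℂ) (m : ℂ) (τ : ℝ) (o : Λ) (hm : ∀ x, M x x = m) (n : ℕ) (x : Λ)
    (S : Finset Λ) (hx : x ∈ S) :
    cR M m τ o n x S = ∑ y ∈ S.erase x, M x y * τ * cf M τ o n y (S.erase y) := by
  unfold cR
  rw [if_pos hx, cf_succ, ← Finset.add_sum_erase S _ hx, hm x]
  ring

theorem cR_sum (M : Λ → Λ → ℂ) (m : ℂ) (τ : ℝ) (o : Λ) (hm : ∀ x, M x x = m) (n : ℕ)
    (κ : ℝ) (hκ : ∀ x w, ∑ y, ‖M x y‖ ^ 2 * ‖M y w‖ ^ 2 ≤ κ) :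
    ∑ x, ∑ S : Finset Λ, ‖cR M m τ o n x S‖ ^ 2 ≤
      (n : ℝ) ^ 3 * (τ ^ 4 * κ) * FF M τ o (n - 1) := by
  have h1 : ∀ (x : Λ) (S : Finset Λ), ‖cR M m τ o n x S‖ ^ 2 ≤
      (n : ℝ) * τ ^ 2 * (if x ∈ S then ∑ y ∈ S.erase x,
        ‖M x y‖ ^ 2 * ‖cf M τ o n y (S.erase y)‖ ^ 2 else 0) := by
    intro x S
    split_ifs with hx
    · by_cases hS : S.card = n + 1
      · rw [cR_eq M m τ o hm n x S hx]
        have h2 : ‖∑ y ∈ S.erase x, M x y * τ * cf M τ o n y (S.erase y)‖ ≤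
            ∑ y ∈ S.erase x, ‖M x y‖ * |τ| * ‖cf M τ o n y (S.erase y)‖ := by
          refine (norm_sum_le _ _).trans (le_of_eq (Finset.sum_congr rfl fun w _ => ?_))
          rw [norm_mul, norm_mul, Complex.norm_real, Real.norm_eq_abs]
        have h3 := pow_le_pow_left₀ (norm_nonneg _) h2 2
        have h4 : (∑ y ∈ S.erase x, ‖M x y‖ * |τ| * ‖cf M τ o n y (S.erase y)‖) ^ 2 ≤
            ((S.erase x).card : ℝ) *
              ∑ y ∈ S.erase x, (‖M x y‖ * |τ| * ‖cf M τ o n y (S.erase y)‖) ^ 2 :=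
          sq_sum_le_card_mul_sum_sq
        refine h3.trans (h4.trans (le_of_eq ?_))
        have h5 : ∑ y ∈ S.erase x, (‖M x y‖ * |τ| * ‖cf M τ o n y (S.erase y)‖) ^ 2 =
            τ ^ 2 * ∑ y ∈ S.erase x, ‖M x y‖ ^ 2 * ‖cf M τ o n y (S.erase y)‖ ^ 2 := by
          rw [Finset.mul_sum]
          refine Finset.sum_congr rfl fun w _ => ?_
          rw [mul_pow, mul_pow, sq_abs]
          ring
        rw [Finset.card_erase_of_mem hx, hS, Nat.add_sub_cancel, h5]
        ring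
      · rw [cR_card M m τ o n x S hS, norm_zero]
        have : 0 ≤ (n : ℝ) * τ ^ 2 * ∑ y ∈ S.erase x,
            ‖M x y‖ ^ 2 * ‖cf M τ o n y (S.erase y)‖ ^ 2 :=
          mul_nonneg (by positivity) (Finset.sum_nonneg fun _ _ => by positivity)
        simpa using this
    · unfold cR
      rw [if_neg hx]
      simp
  have h2 : ∑ x, ∑ S : Finset Λ, (n : ℝ) * τ ^ 2 * (if x ∈ S then ∑ y ∈ S.erase x,
        ‖M x y‖ ^ 2 * ‖cf M τ o n y (S.erase y)‖ ^ 2 else 0) =
      (n : ℝ) * τ ^ 2 * ∑ S : Finset Λ, ∑ y ∈ S, ∑ x ∈ S.erase y,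
        ‖M x y‖ ^ 2 * ‖cf M τ o n y (S.erase y)‖ ^ 2 := by
    rw [Finset.sum_comm, Finset.mul_sum]
    refine Finset.sum_congr rfl fun S _ => ?_
    rw [← Finset.mul_sum]
    congr 1
    rw [Finset.sum_ite_mem, Finset.univ_inter]
    exact sum_pairs_symm S (fun x y => ‖M x y‖ ^ 2 * ‖cf M τ o n y (S.erase y)‖ ^ 2)
  have h3 := sum_erase (Λ := Λ) (fun y S => ∑ x ∈ S, ‖M x y‖ ^ 2 * ‖cf M τ o n y S‖ ^ 2)
  have h4 := key M τ o n (fun y x => ‖M x y‖ ^ 2) (fun _ _ => by positivity) κ hκ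
  calc ∑ x, ∑ S : Finset Λ, ‖cR M m τ o n x S‖ ^ 2
      ≤ ∑ x, ∑ S : Finset Λ, (n : ℝ) * τ ^ 2 * (if x ∈ S then ∑ y ∈ S.erase x,
        ‖M x y‖ ^ 2 * ‖cf M τ o n y (S.erase y)‖ ^ 2 else 0) :=
        Finset.sum_le_sum fun x _ => Finset.sum_le_sum fun S _ => h1 x S
    _ = (n : ℝ) * τ ^ 2 * ∑ y : Λ, ∑ S : Finset Λ, (if y ∈ S then 0 else
          ∑ x ∈ S, ‖M x y‖ ^ 2 * ‖cf M τ o n y S‖ ^ 2) := by
        rw [h2, ← h3]
    _ ≤ (n : ℝ) * τ ^ 2 * ∑ y : Λ, ∑ S : Finset Λ,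
          ∑ x ∈ S, ‖M x y‖ ^ 2 * ‖cf M τ o n y S‖ ^ 2 := by
        refine mul_le_mul_of_nonneg_left (Finset.sum_le_sum fun y _ =>
          Finset.sum_le_sum fun S _ => ?_) (by positivity)
        split_ifs
        · exact Finset.sum_nonneg fun _ _ => by positivity
        · exact le_rfl
    _ ≤ (n : ℝ) * τ ^ 2 * ((n : ℝ) ^ 2 * (τ ^ 2 * κ) * FF M τ o (n - 1)) :=
        mul_le_mul_of_nonneg_left h4 (by positivity)
    _ = _ := by ring

end Pool.Agent.Zk11.QD
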