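import Pool.Agent.Zk11.QD.Mlim

/-! The limit along sequences of tori. -/

set_option autoImplicit false
set_option linter.unusedSectionVars false

open scoped BigOperators Topology ENNReal
open MeasureTheory Filter

namespace Pool.Agent.Zk11.QD

open Pool.Agent.W788.MFP.Four (T e NN adj adj_neg e_comm e_add_left e_add e_zero e_neg e_neg_left
  e_normSq sum_e NN_pos card_T e_single)

variable {d : ℕ} {L : ℕ → ℕ} [hL : ∀ n, NeZero (L n)] {z : ℕ → ℂ} {σ τ : ℕ → ℝ} {m : ℕ → ℂ}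
  {p : (n : ℕ) → T d (L n)} {g : ℂ} {H0 C : ℝ} {P : Fin d → ℝ}

/-- **the limit along sequences of tori** -/
theorem seq_main (h : LH L z σ τ m p g H0 C P) (hC0 : 0 ≤ C) (μ : Measure ℝ)
    [IsProbabilityMeasure μ] (hh : ℕ → ℝ → ℂ) (hS : ∀ n, Sit μ (σ n) (m n) C (τ n) (hh n))
    (κ : ℝ) (hκ0 : 0 < κ) (hκ1 : κ < 1 / 3) (hηκ : ∀ n, σ n ^ (2 + κ) ≤ (z n).im) (C4 : ℝ)
    (hC4 : 0 ≤ C4)
    (hN4 : ∀ n, N4 d (L n) (z n) (σ n) (m n) ≤ C4 * (1 + Real.log (1 / (z n).im)) ^ 3)
    (u : (n : ℕ) → (T d (L n) → ℝ) → T d (L n) → ℂ) (hum : ∀ n x, Measurable fun V => u n V x)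
    (hue : ∀ n V x, Hz (z n) (σ n) V (u n V) x = if x = 0 then 1 else 0) :
    Tendsto (fun n => ((z n).im : ℂ) * ∑ x, e (p n) x *
      ((∫ V, ‖u n V x‖ ^ 2 ∂(PL (T d (L n)) μ) : ℝ) : ℂ)) atTop
      (𝓝 ((g.im / (1 + H0 / (4 * g.im ^ 2) * ∑ j, P j ^ 2) : ℝ) : ℂ)) := by
  have hmain := h.main
  set θ : ℝ := (1 - 3 * κ) / 8 with hθ
  have hθ0 : 0 < θ := by rw [hθ]; linarith
  have hθ1 : θ ≤ 1 := by rw [hθ]; linarith
  have hmi : Tendsto (fun n => (m n).im) atTop (𝓝 g.im) :=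
    (Complex.continuous_im.tendsto g).comp h.ml
  have hg := h.gi
  set B : ℝ := 1 + (g.im + 1) + 2 / g.im + C + C4 * (4 / θ) ^ 3 + 1 / θ with hBdef
  have hC4' : 0 ≤ C4 * (4 / θ) ^ 3 := by positivity
  have hθ' : 0 < 1 / θ := by positivity
  have hg' : 0 < 2 / g.im := by positivity
  have hB1 : 1 ≤ B := by rw [hBdef]; linarith
  have hB0 : 0 < B := by linarith
  have hBa : g.im + 1 ≤ B := by rw [hBdef]; linarith
  have hBb : 2 / g.im ≤ B := by rw [hBdef]; linarith
  have hBc : C ≤ B := by rw [hBdef]; linarith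
  have hBd : C4 * (4 / θ) ^ 3 ≤ B := by rw [hBdef]; linarith
  have hBe : 1 / θ ≤ B := by rw [hBdef]; linarith
  clear_value B
  have hyl : Tendsto (fun n => σ n ^ θ) atTop (𝓝 0) := by
    have h1 := (Real.continuousAt_rpow_const 0 θ (Or.inr hθ0.le)).tendsto.comp h.σl
    rw [Real.zero_rpow hθ0.ne'] at h1
    exact h1
  have hdiff : Tendsto (fun n => ((z n).im : ℂ) * ∑ x, e (p n) x *
      ((∫ V, ‖u n V x‖ ^ 2 ∂(PL (T d (L n)) μ) : ℝ) : ℂ) - ((z n).im : ℂ) *
      (tt (z n) (σ n) (m n) (p n) / (1 - (τ n : ℂ) ^ 2 * tt (z n) (σ n) (m n) (p n)))) atTop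
      (𝓝 0) := by
    rw [Metric.tendsto_nhds]
    intro ε hε
    set ε' : ℝ := ε / (8 * B) with hε'
    have hε'0 : 0 < ε' := by positivity
    have hsm : Tendsto (fun n => 4 * B * ε' + (1 + 1 / ε') * (15000000 * B ^ 11 * σ n ^ θ) +
        1000000 * B ^ 9 * σ n ^ θ) atTop (𝓝 (4 * B * ε' + (1 + 1 / ε') * (15000000 * B ^ 11 * 0) +
        1000000 * B ^ 9 * 0)) :=
      ((hyl.const_mul _).const_mul _).const_add _ |>.add (hyl.const_mul _)
    have hlt : 4 * B * ε' + (1 + 1 / ε') * (15000000 * B ^ 11 * 0) + 1000000 * B ^ 9 * 0 < ε := by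
      have : 4 * B * ε' = ε / 2 := by
        rw [hε']
        field_simp
        ring
      rw [this]
      simp only [mul_zero, add_zero]
      linarith
    have h3 : Tendsto (fun n => 240000 * B ^ 8 * σ n ^ θ) atTop (𝓝 0) := by
      have := hyl.const_mul (240000 * B ^ 8)
      rwa [mul_zero] at this
    have h4 : Tendsto (fun n => C * σ n) atTop (𝓝 0) := by
      have := h.σl.const_mul C
      rwa [mul_zero] at this
    filter_upwards [hsm.eventually_lt_const hlt, h3.eventually_le_const (show (0 : ℝ) < 1 by norm_num),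
      h4.eventually_le_const (show (0 : ℝ) < 1 by norm_num),
      h.σl.eventually_le_const (show (0 : ℝ) < 1 by norm_num),
      h.xl.eventually_le_const (show (0 : ℝ) < 1 by norm_num),
      hmi.eventually_le_const (show g.im < g.im + 1 by linarith),
      hmi.eventually_const_le (show g.im / 2 < g.im by linarith), h.hq] with n n1 n2 n3 n4 n5 n6 n7 n8
    have hσ := h.σ0 n
    have hz := (h.md n).zim
    rw [dist_zero_right]
    refine lt_of_le_of_lt ?_ n1
    have hSp : (σ n ^ (-θ)) = (1 / σ n) ^ θ := by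
      rw [Real.rpow_neg hσ.le, one_div, Real.inv_rpow hσ.le]
    have h1σ : 1 ≤ 1 / σ n := by
      rw [le_div_iff₀ hσ]
      linarith
    have hS1 : 1 ≤ σ n ^ (-θ) := by
      rw [hSp]
      exact Real.one_le_rpow h1σ hθ0.le
    have hk1 : 1 ≤ σ n ^ (-κ) := by
      have : (σ n ^ (-κ)) = (1 / σ n) ^ κ := by
        rw [Real.rpow_neg hσ.le, one_div, Real.inv_rpow hσ.le]
      rw [this]
      exact Real.one_le_rpow h1σ hκ0.le
    have hS0 : 0 < σ n ^ (-θ) := by linarith
    have hlog1 : Real.log (1 / σ n) ≤ 1 / θ * σ n ^ (-θ) := by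
      have h5 := Real.log_le_rpow_div (x := 1 / σ n) (by positivity) hθ0
      rw [hSp]
      refine h5.trans (le_of_eq ?_)
      ring
    have hlog2 : Real.log (1 / (z n).im) ≤ 3 * Real.log (1 / σ n) := by
      have h5 : Real.log (σ n ^ (2 + κ)) ≤ Real.log (z n).im :=
        Real.log_le_log (by positivity) (hηκ n)
      rw [Real.log_rpow hσ] at h5
      rw [one_div, one_div, Real.log_inv, Real.log_inv]
      have h6 : 0 ≤ Real.log (1 / σ n) := Real.log_nonneg h1σ
      rw [one_div, Real.log_inv] at h6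
      have h7 : (2 + κ) * -Real.log (σ n) ≤ 3 * -Real.log (σ n) :=
        mul_le_mul_of_nonneg_right (by linarith) h6
      have h8 : (2 + κ) * -Real.log (σ n) = -((2 + κ) * Real.log (σ n)) := by ring
      linarith
    have hlog3 : 0 ≤ 1 + Real.log (1 / (z n).im) := by
      have : (z n).im ≤ 1 := by
        rw [div_le_iff₀ (by positivity)] at n5
        have : σ n ^ 2 ≤ 1 := pow_le_one₀ hσ.le n4
        linarith
      have : 0 ≤ Real.log (1 / (z n).im) := Real.log_nonneg (by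
        rw [le_div_iff₀ hz]
        linarith)
      linarith
    refine err_bound (h.md n) μ C (τ n) (hh n) (hS n) B (σ n ^ (-κ)) (σ n ^ (-θ)) (σ n ^ θ) hB1 hσ n4
      ?_ ?_ hC0 ?_ ?_ ?_ hk1 hS1 ?_ ?_ n8 ?_ ?_ n2 ?_ (p n) (u n) (hum n) (hue n) ε' hε'0
    · exact n6.trans hBa
    · have h5 : 1 / B ≤ 1 / (2 / g.im) :=
        one_div_le_one_div_of_le hg' hBb
      rw [one_div_div] at h5
      exact h5.trans n7
    · exact hBc
    · rw [div_le_iff₀ (by positivity), one_mul] at n5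
      exact n5
    · have h5 := mul_le_mul_of_nonneg_left (hηκ n) (by positivity : 0 ≤ σ n ^ (-κ))
      rw [← Real.rpow_add hσ] at h5
      have e1 : -κ + (2 + κ) = ((2 : ℕ) : ℝ) := by push_cast; ring
      rw [e1, Real.rpow_natCast] at h5
      exact h5
    · refine (hN4 n).trans ?_
      have h5 : 1 + Real.log (1 / (z n).im) ≤ 4 / θ * σ n ^ (-θ) := by
        have h6 : 3 * Real.log (1 / σ n) ≤ 3 * (1 / θ * σ n ^ (-θ)) := by linarith
        have h7 : 1 ≤ 1 / θ * σ n ^ (-θ) := by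
          have : 1 ≤ 1 / θ := by
            rw [le_div_iff₀ hθ0]
            linarith
          exact one_le_mul_of_one_le_of_one_le this hS1
        calc 1 + Real.log (1 / (z n).im) ≤ 4 * (1 / θ * σ n ^ (-θ)) := by linarith
          _ = _ := by ring
      calc C4 * (1 + Real.log (1 / (z n).im)) ^ 3 ≤ C4 * (4 / θ * σ n ^ (-θ)) ^ 3 := by gcongr
        _ = C4 * (4 / θ) ^ 3 * (σ n ^ (-θ)) ^ 3 := by ring
        _ ≤ B * (σ n ^ (-θ)) ^ 4 := by
            have h8 : (σ n ^ (-θ)) ^ 3 ≤ (σ n ^ (-θ)) ^ 4 := pow_le_pow_right₀ hS1 (by norm_num)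
            gcongr
        _ ≤ B ^ 2 * (σ n ^ (-θ)) ^ 4 := by
            have : B ≤ B ^ 2 := by
              calc B = B ^ 1 := (pow_one B).symm
                _ ≤ B ^ 2 := pow_le_pow_right₀ hB1 (by norm_num)
            gcongr
        _ = _ := by ring
    · have h5 := (abs_le.1 (h.τl n)).2
      have h6 : C * σ n ^ 3 ≤ σ n ^ 2 := by
        calc C * σ n ^ 3 = (C * σ n) * σ n ^ 2 := by ring
          _ ≤ 1 * σ n ^ 2 := mul_le_mul_of_nonneg_right n3 (by positivity)
          _ = _ := one_mul _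
      linarith
    · have e1 : σ n * (σ n ^ (-κ)) ^ 3 * (σ n ^ (-θ)) ^ 4 = σ n ^ (4 * θ) := by
        rw [← Real.rpow_natCast, ← Real.rpow_natCast, ← Real.rpow_mul hσ.le, ← Real.rpow_mul hσ.le]
        nth_rewrite 1 [← Real.rpow_one (σ n)]
        rw [← Real.rpow_add hσ, ← Real.rpow_add hσ]
        congr 1
        rw [hθ]
        push_cast
        ring
      rw [e1]
      exact Real.rpow_le_rpow_of_exponent_ge hσ n4 (by linarith)
    · have e1 : σ n ^ 2 * (σ n ^ (-κ)) ^ 5 * (σ n ^ (-θ)) ^ 7 = σ n ^ (2 - 5 * κ - 7 * θ) := by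
        rw [← Real.rpow_natCast, ← Real.rpow_natCast, ← Real.rpow_natCast, ← Real.rpow_mul hσ.le,
          ← Real.rpow_mul hσ.le, ← Real.rpow_add hσ, ← Real.rpow_add hσ]
        congr 1
        push_cast
        ring
      rw [e1]
      refine Real.rpow_le_rpow_of_exponent_ge hσ n4 ?_
      rw [hθ]
      linarith
    · exact hlog1.trans (mul_le_mul_of_nonneg_right hBe hS0.le)
  have := hdiff.add hmain
  rw [zero_add] at this
  refine this.congr fun n => ?_
  ring

end Pool.Agent.Zk11.QD
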