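import Pool.Agent.Zk11.QD.Tor

/-! The resolvent on the torus. -/

set_option autoImplicit false
set_option linter.unusedSectionVars false

open scoped BigOperators Topology
open MeasureTheory Filter

namespace Pool.Agent.Zk11.QD

open Pool.Agent.W788.MFP.Four (T)

variable {d L : ℕ} [NeZero L]

/-- the matrix of the operator -/
noncomputable def HM (z : ℂ) (σ : ℝ) (V : T d L → ℝ) : Matrix (T d L) (T d L) ℂ :=
  Matrix.of fun x y => (if x = y then (2 * d + (σ : ℂ) * V x - z) else 0) -
    ∑ i : Fin d, ((if x + Pi.single i 1 = y then 1 else 0) +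
      (if x - Pi.single i 1 = y then 1 else 0))

theorem HM_apply (z : ℂ) (σ : ℝ) (V : T d L → ℝ) (w : T d L → ℂ) (x : T d L) :
    (HM z σ V).mulVec w x = Hz z σ V w x := by
  unfold Matrix.mulVec HM Hz dotProduct
  simp only [Matrix.of_apply, sub_mul, Finset.sum_sub_distrib, Finset.sum_mul, add_mul, ite_mul,
    one_mul, zero_mul]
  rw [Finset.sum_ite_eq, if_pos (Finset.mem_univ _), Finset.sum_comm]
  congr 1
  refine Finset.sum_congr rfl fun i _ => ?_
  rw [Finset.sum_add_distrib, Finset.sum_ite_eq, Finset.sum_ite_eq, if_pos (Finset.mem_univ _),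
    if_pos (Finset.mem_univ _)]

theorem HM_det (z : ℂ) (hz : 0 < z.im) (σ : ℝ) (V : T d L → ℝ) : (HM z σ V).det ≠ 0 := by
  intro h
  obtain ⟨v, hv, hv2⟩ := Matrix.exists_mulVec_eq_zero_iff.2 h
  apply hv
  have h1 := Hz_coercive hz (σ := σ) V v
  have h2 : ∀ x, Hz z σ V v x = 0 := by
    intro x
    rw [← HM_apply, hv2]
    rfl
  simp only [h2, norm_zero] at h1
  have h3 : ∑ x, ‖v x‖ ^ 2 ≤ 0 := by
    have h4 : z.im ^ 2 * ∑ x, ‖v x‖ ^ 2 ≤ z.im ^ 2 * 0 := by
      refine h1.trans (le_of_eq ?_)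
      simp
    exact le_of_mul_le_mul_left h4 (by positivity)
  funext x
  have h5 : ‖v x‖ ^ 2 ≤ 0 :=
    (Finset.single_le_sum (f := fun x => ‖v x‖ ^ 2) (fun _ _ => by positivity)
      (Finset.mem_univ x)).trans h3
  have h6 : ‖v x‖ = 0 := by
    have := norm_nonneg (v x)
    nlinarith
  exact norm_eq_zero.1 h6

/-- the resolvent applied to the point mass at the origin -/
noncomputable def uu (z : ℂ) (σ : ℝ) (V : T d L → ℝ) (x : T d L) : ℂ := (HM z σ V)⁻¹ x 0

theorem uu_eq (z : ℂ) (hz : 0 < z.im) (σ : ℝ) (V : T d L → ℝ) (x : T d L) :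
    Hz z σ V (uu z σ V) x = if x = 0 then 1 else 0 := by
  rw [← HM_apply]
  have h1 := Matrix.mul_nonsing_inv (HM z σ V) (isUnit_iff_ne_zero.2 (HM_det z hz σ V))
  have h2 := congrFun (congrFun h1 x) 0
  rw [Matrix.mul_apply, Matrix.one_apply] at h2
  unfold Matrix.mulVec uu dotProduct
  exact h2

theorem uu_meas (z : ℂ) (σ : ℝ) (x : T d L) : Measurable fun V : T d L → ℝ => uu z σ V x := by
  have hc : Continuous fun V : T d L → ℝ => HM z σ V := by
    unfold HM
    refine continuous_matrix fun x y => ?_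
    simp only [Matrix.of_apply]
    refine Continuous.sub ?_ continuous_const
    split_ifs
    · fun_prop
    · exact continuous_const
  unfold uu
  simp only [Matrix.inv_def, Ring.inverse_eq_inv', Matrix.smul_apply, smul_eq_mul]
  refine Measurable.mul ?_ ?_
  · exact (Continuous.matrix_det hc).measurable.inv
  · exact ((continuous_apply_apply x 0).comp (Continuous.matrix_adjugate hc)).measurable

theorem uu_norm (z : ℂ) (hz : 0 < z.im) (σ : ℝ) (V : T d L → ℝ) :
    ∑ x, ‖uu z σ V x‖ ^ 2 ≤ 1 / z.im ^ 2 := by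
  have h1 := Hz_coercive hz (σ := σ) V (uu z σ V)
  simp only [uu_eq z hz σ V] at h1
  have h2 : ∑ x : T d L, ‖(if x = 0 then (1 : ℂ) else 0)‖ ^ 2 = 1 := by
    rw [Finset.sum_eq_single (0 : T d L)]
    · simp
    · intro x _ hx
      simp [hx]
    · intro h
      exact absurd (Finset.mem_univ _) h
  rw [h2] at h1
  rw [le_div_iff₀ (by positivity), mul_comm]
  exact h1

end Pool.Agent.Zk11.QD
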