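import Pool.Agent.Zk11.QD.Step

/-! Solving the recursion. -/

set_option autoImplicit false
set_option linter.unusedSectionVars false

open scoped BigOperators

namespace Pool.Agent.Zk11.QD

theorem rec_bound (F : ℕ → ℝ) (hF : ∀ n, 0 ≤ F n) (q a ρ : ℝ) (N : ℕ) (hq : 0 ≤ q) (hqρ : q ≤ ρ)
    (h : ∀ n : ℕ, F (n + 1) ≤ q * F n + (n : ℝ) ^ 2 * a * F (n - 1))
    (ha : 0 ≤ a) (hN : (N : ℝ) ^ 2 * a ≤ ρ * (ρ - q)) :
    ∀ n : ℕ, n ≤ N → F n ≤ F 0 * ρ ^ n := by
  have hρ : 0 ≤ ρ := hq.trans hqρ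
  intro n
  induction n using Nat.strong_induction_on with
  | _ n ih =>
    intro hn
    rcases n with _ | _ | n
    · simp
    · have h1 := h 0
      simp at h1
      have h2 : q * F 0 ≤ F 0 * ρ := by nlinarith [hF 0]
      simpa using h1.trans h2
    · have h1 := h (n + 1)
      have h2 := ih (n + 1) (by omega) (by omega)
      have h3 := ih n (by omega) (by omega)
      have h4 : n + 1 - 1 = n := by omega
      rw [h4] at h1
      have h5 : ((n + 1 : ℕ) : ℝ) ^ 2 * a ≤ ρ * (ρ - q) := by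
        refine le_trans (mul_le_mul_of_nonneg_right ?_ ha) hN
        have : ((n + 1 : ℕ) : ℝ) ≤ (N : ℝ) := by exact_mod_cast (by omega : n + 1 ≤ N)
        exact pow_le_pow_left₀ (by positivity) this 2
      calc F (n + 1 + 1) ≤ q * F (n + 1) + ((n + 1 : ℕ) : ℝ) ^ 2 * a * F n := h1
        _ ≤ q * (F 0 * ρ ^ (n + 1)) + (ρ * (ρ - q)) * (F 0 * ρ ^ n) := by
            refine add_le_add (mul_le_mul_of_nonneg_left h2 hq)
              (mul_le_mul h5 h3 (hF n) ?_)
            exact mul_nonneg hρ (by linarith)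
        _ = F 0 * ρ ^ (n + 1 + 1) := by ring

theorem geom_le (ρ R : ℝ) (h0 : 0 ≤ ρ) (h1 : ρ < 1) (hR : 1 / (1 - ρ) ≤ R) (n : ℕ) :
    ∑ i ∈ Finset.range n, ρ ^ i ≤ R := by
  have h2 : 0 < 1 - ρ := by linarith
  have h3 : (∑ i ∈ Finset.range n, ρ ^ i) * (1 - ρ) = 1 - ρ ^ n := by
    have := geom_sum_mul_neg ρ n
    linarith
  have h4 : ∑ i ∈ Finset.range n, ρ ^ i ≤ 1 / (1 - ρ) := by
    rw [le_div_iff₀ h2, h3]
    have : 0 ≤ ρ ^ n := by positivity
    linarith
  exact h4.trans hR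

theorem sum_F (F : ℕ → ℝ) (ρ R : ℝ) (hF0 : 0 ≤ F 0) (h0 : 0 ≤ ρ) (h1 : ρ < 1)
    (hR : 1 / (1 - ρ) ≤ R) (N : ℕ) (h : ∀ n : ℕ, n ≤ N → F n ≤ F 0 * ρ ^ n) :
    ∑ n ∈ Finset.range (N + 1), F n ≤ F 0 * R := by
  calc ∑ n ∈ Finset.range (N + 1), F n ≤ ∑ n ∈ Finset.range (N + 1), F 0 * ρ ^ n :=
        Finset.sum_le_sum fun n hn => h n (by simpa [Nat.lt_succ_iff] using Finset.mem_range.1 hn)
    _ = F 0 * ∑ n ∈ Finset.range (N + 1), ρ ^ n := by rw [Finset.mul_sum]
    _ ≤ F 0 * R := mul_le_mul_of_nonneg_left (geom_le ρ R h0 h1 hR _) hF0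

/-- sums of shifted masses with polynomial weights -/
theorem sum_shift (F : ℕ → ℝ) (hF : ∀ n, 0 ≤ F n) (R : ℝ) (N : ℕ)
    (h : ∑ n ∈ Finset.range (N + 1), F n ≤ R) (p : ℕ) (hp : 1 ≤ p) (j : ℕ) :
    ∑ n ∈ Finset.range (N + 1), (n : ℝ) ^ p * F (n - j) ≤ ((j : ℝ) + 1) * (N : ℝ) ^ p * R := by
  have h1 : ∑ n ∈ Finset.range (N + 1), (n : ℝ) ^ p * F (n - j) ≤
      ∑ n ∈ Finset.range (N + 1), (N : ℝ) ^ p * F (n - j) := by
    refine Finset.sum_le_sum fun n hn => ?_
    refine mul_le_mul_of_nonneg_right (pow_le_pow_left₀ (by positivity) ?_ _) (hF _)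
    exact_mod_cast Nat.lt_succ_iff.1 (Finset.mem_range.1 hn)
  have h2 : ∑ n ∈ Finset.range (N + 1), F (n - j) ≤ ((j : ℝ) + 1) * R := by
    have h3 : ∑ n ∈ Finset.range (N + 1), F (n - j) ≤
        ∑ n ∈ Finset.range (N + 1), F n + (j : ℝ) * F 0 := by
      clear h h1
      induction N with
      | zero =>
        simp
        have := hF 0
        positivity
      | succ N ih =>
        rw [Finset.sum_range_succ, Finset.sum_range_succ _ (N + 1)]
        by_cases hj : j = 0
        · subst hj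
          simp
        · -- reindex directly
          have h4 : ∀ m : ℕ, ∑ n ∈ Finset.range m, F (n - j) ≤
              ∑ n ∈ Finset.range (m - j), F n + (j : ℝ) * F 0 := by
            intro m
            have h5 : ∑ n ∈ Finset.range m, F (n - j) ≤
                ∑ n ∈ Finset.range (j + (m - j)), F (n - j) := by
              refine Finset.sum_le_sum_of_subset_of_nonneg ?_ (fun _ _ _ => hF _)
              intro a ha
              rw [Finset.mem_range] at ha ⊢
              omega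
            rw [Finset.sum_range_add] at h5
            refine h5.trans ?_
            rw [add_comm]
            refine add_le_add (le_of_eq (Finset.sum_congr rfl fun x _ => by
              rw [Nat.add_sub_cancel_left])) (le_of_eq ?_)
            rw [Finset.sum_congr rfl (fun x hx => by
              rw [Nat.sub_eq_zero_of_le (Finset.mem_range.1 hx).le] :
              ∀ x ∈ Finset.range j, F (x - j) = F 0)]
            rw [Finset.sum_const, Finset.card_range, nsmul_eq_mul]
          have h6 := h4 (N + 1 + 1)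
          rw [Finset.sum_range_succ] at h6
          refine h6.trans ?_
          have h7 : ∑ n ∈ Finset.range (N + 1 + 1 - j), F n ≤
              ∑ n ∈ Finset.range (N + 1), F n + F (N + 1) := by
            rw [← Finset.sum_range_succ]
            refine Finset.sum_le_sum_of_subset_of_nonneg ?_ (fun _ _ _ => hF _)
            intro a ha
            rw [Finset.mem_range] at ha ⊢
            omega
          linarith
    have h4 : F 0 ≤ R := by
      refine le_trans ?_ h
      exact Finset.single_le_sum (fun i _ => hF i) (Finset.mem_range.2 (by omega : 0 < N + 1))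
    have h5 : (j : ℝ) * F 0 ≤ (j : ℝ) * R := mul_le_mul_of_nonneg_left h4 (by positivity)
    linarith
  refine h1.trans ?_
  rw [← Finset.mul_sum]
  calc (N : ℝ) ^ p * ∑ n ∈ Finset.range (N + 1), F (n - j) ≤ (N : ℝ) ^ p * (((j : ℝ) + 1) * R) :=
        mul_le_mul_of_nonneg_left h2 (by positivity)
    _ = _ := by ring

/-- summing the recursion -/
theorem sum_A (A : ℕ → ℂ) (t : ℂ) (b : ℕ → ℝ) (N : ℕ)
    (h : ∀ n, ‖A (n + 1) - t * A n‖ ≤ b n) :
    ‖(1 - t) * ∑ n ∈ Finset.range (N + 1), A n - A 0‖ ≤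
      ‖t‖ * ‖A N‖ + ∑ n ∈ Finset.range N, b n := by
  have h1 : (1 - t) * ∑ n ∈ Finset.range (N + 1), A n - A 0 =
      -(t * A N) + ∑ n ∈ Finset.range N, (A (n + 1) - t * A n) := by
    rw [Finset.sum_sub_distrib, ← Finset.mul_sum]
    have h2 : ∑ n ∈ Finset.range (N + 1), A n = ∑ n ∈ Finset.range N, A (n + 1) + A 0 :=
      Finset.sum_range_succ' A N
    have h3 : ∑ n ∈ Finset.range (N + 1), A n = ∑ n ∈ Finset.range N, A n + A N :=
      Finset.sum_range_succ A N
    have h4 : (1 - t) * ∑ n ∈ Finset.range (N + 1), A n =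
        ∑ n ∈ Finset.range (N + 1), A n - t * ∑ n ∈ Finset.range (N + 1), A n := by ring
    rw [h4]
    nth_rewrite 1 [h2]
    rw [h3]
    ring
  rw [h1]
  refine (norm_add_le _ _).trans (add_le_add ?_ ?_)
  · rw [norm_neg, norm_mul]
  · exact (norm_sum_le _ _).trans (Finset.sum_le_sum fun n _ => h n)

end Pool.Agent.Zk11.QD
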