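import Pool.Agent.Zk11.QD.Cf

/-! One step of the recursion for the weighted masses. -/

set_option autoImplicit false
set_option linter.unusedSectionVars false

open scoped BigOperators

namespace Pool.Agent.Zk11.QD

variable {Λ : Type} [Fintype Λ] [DecidableEq Λ]

/-- weighted masses -/
noncomputable def AA (M : Λ → Λ → ℂ) (τ : ℝ) (o : Λ) (χ : Λ → ℂ) (n : ℕ) : ℂ :=
  ∑ x, χ x * ∑ S : Finset Λ, ((‖cf M τ o n x S‖ ^ 2 : ℝ) : ℂ)

theorem AA_one (M : Λ → Λ → ℂ) (τ : ℝ) (o : Λ) (n : ℕ) :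
    AA M τ o (fun _ => 1) n = ((FF M τ o n : ℝ) : ℂ) := by
  unfold AA FF
  push_cast
  refine Finset.sum_congr rfl fun x _ => ?_
  rw [one_mul]

/-- the diagonal error -/
noncomputable def DG (M : Λ → Λ → ℂ) (τ : ℝ) (o : Λ) (n : ℕ) : ℝ :=
  ∑ y, ∑ S : Finset Λ, if y ∈ S then ‖cf M τ o n y S‖ ^ 2 else 0

theorem DG_le (M : Λ → Λ → ℂ) (τ : ℝ) (o : Λ) (n : ℕ) (κB : ℝ) (hB : ∀ x w, ‖M x w‖ ^ 2 ≤ κB) :
    DG M τ o n ≤ (n : ℝ) ^ 2 * (τ ^ 2 * κB) * FF M τ o (n - 1) := by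
  have h := key M τ o n (fun y x => if y = x then 1 else 0) (fun y x => by split_ifs <;> norm_num)
    κB (fun x w => by simpa using hB x w)
  refine le_trans (le_of_eq ?_) h
  unfold DG
  refine Finset.sum_congr rfl fun y _ => Finset.sum_congr rfl fun S _ => ?_
  simp

/-- the off-diagonal error -/
noncomputable def OD (M : Λ → Λ → ℂ) (τ : ℝ) (o : Λ) (k : Λ → Λ → ℝ) (n : ℕ) : ℝ :=
  ∑ S : Finset Λ, ∑ y ∈ S, ∑ y' ∈ S.erase y,
    k y y' * (‖cf M τ o n y (S.erase y)‖ * ‖cf M τ o n y' (S.erase y')‖)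

theorem sum_pairs_symm (S : Finset Λ) (g : Λ → Λ → ℝ) :
    ∑ y ∈ S, ∑ y' ∈ S.erase y, g y y' = ∑ y ∈ S, ∑ y' ∈ S.erase y, g y' y := by
  have h1 : ∀ f : Λ → Λ → ℝ, ∑ y ∈ S, ∑ y' ∈ S.erase y, f y y' =
      ∑ y ∈ S, ∑ y' ∈ S, if y' = y then 0 else f y y' := by
    intro f
    refine Finset.sum_congr rfl fun y hy => ?_
    have h2 : S.erase y = S.filter (fun y' => y' ≠ y) := by
      ext a
      simp [and_comm]
    rw [h2, Finset.sum_filter]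
    refine Finset.sum_congr rfl fun y' _ => ?_
    by_cases h : y' = y <;> simp [h]
  rw [h1, h1, Finset.sum_comm]
  refine Finset.sum_congr rfl fun y _ => Finset.sum_congr rfl fun y' _ => ?_
  by_cases h : y' = y
  · simp [h]
  · rw [if_neg h, if_neg (Ne.symm h)]

theorem OD_le (M : Λ → Λ → ℂ) (τ : ℝ) (o : Λ) (n : ℕ) (k : Λ → Λ → ℝ)
    (hk : ∀ y x, 0 ≤ k y x) (hks : ∀ y x, k y x = k x y)
    (κ : ℝ) (hκ : ∀ x w, ∑ y, k y x * ‖M y w‖ ^ 2 ≤ κ) :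
    OD M τ o k n ≤ (n : ℝ) ^ 2 * (τ ^ 2 * κ) * FF M τ o (n - 1) := by
  have h1 : OD M τ o k n ≤ ∑ S : Finset Λ, ∑ y ∈ S, ∑ y' ∈ S.erase y,
      k y y' * ‖cf M τ o n y (S.erase y)‖ ^ 2 := by
    unfold OD
    refine Finset.sum_le_sum fun S _ => ?_
    have h2 : ∑ y ∈ S, ∑ y' ∈ S.erase y,
        k y y' * (‖cf M τ o n y (S.erase y)‖ * ‖cf M τ o n y' (S.erase y')‖) ≤
        ∑ y ∈ S, ∑ y' ∈ S.erase y, (k y y' * ‖cf M τ o n y (S.erase y)‖ ^ 2 * (1 / 2) +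
          k y y' * ‖cf M τ o n y' (S.erase y')‖ ^ 2 * (1 / 2)) := by
      refine Finset.sum_le_sum fun y _ => Finset.sum_le_sum fun y' _ => ?_
      have h3 := two_mul_le_add_sq ‖cf M τ o n y (S.erase y)‖ ‖cf M τ o n y' (S.erase y')‖
      have h4 := mul_le_mul_of_nonneg_left h3 (hk y y')
      nlinarith
    refine h2.trans (le_of_eq ?_)
    have h5 : ∑ y ∈ S, ∑ y' ∈ S.erase y, k y y' * ‖cf M τ o n y' (S.erase y')‖ ^ 2 * (1 / 2) =
        ∑ y ∈ S, ∑ y' ∈ S.erase y, k y y' * ‖cf M τ o n y (S.erase y)‖ ^ 2 * (1 / 2) := by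
      rw [sum_pairs_symm S (fun y y' => k y y' * ‖cf M τ o n y' (S.erase y')‖ ^ 2 * (1 / 2))]
      refine Finset.sum_congr rfl fun y _ => Finset.sum_congr rfl fun y' _ => ?_
      rw [hks y' y]
    simp only [Finset.sum_add_distrib]
    rw [h5, ← Finset.sum_add_distrib]
    refine Finset.sum_congr rfl fun y _ => ?_
    rw [← Finset.sum_add_distrib]
    refine Finset.sum_congr rfl fun y' _ => ?_
    ring
  have h2 := sum_erase (Λ := Λ) (fun y S => ∑ y' ∈ S, k y y' * ‖cf M τ o n y S‖ ^ 2)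
  refine h1.trans (h2.le.trans (le_trans ?_ (key M τ o n k hk κ hκ)))
  refine Finset.sum_le_sum fun y _ => Finset.sum_le_sum fun S _ => ?_
  split_ifs
  · exact Finset.sum_nonneg fun x _ => mul_nonneg (hk _ _) (by positivity)
  · refine Finset.sum_le_sum fun x _ => le_of_eq ?_
    rfl

/-- one step, general form -/
theorem step (M : Λ → Λ → ℂ) (τ : ℝ) (o : Λ) (χ : Λ → ℂ) (hχ : ∀ x, ‖χ x‖ ≤ 1) (t : ℂ)
    (ht : ∀ y, ∑ x, χ x * ((τ ^ 2 * ‖M x y‖ ^ 2 : ℝ) : ℂ) = t * χ y) (k : Λ → Λ → ℝ)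
    (hk0 : ∀ y x, 0 ≤ k y x) (hks : ∀ y x, k y x = k x y)
    (hk : ∀ y y', ‖∑ x, χ x * (M x y * (starRingEnd ℂ) (M x y'))‖ ≤ k y y')
    (κA κB : ℝ) (hA : ∀ x w, ∑ y, k y x * ‖M y w‖ ^ 2 ≤ κA) (hB : ∀ x w, ‖M x w‖ ^ 2 ≤ κB)
    (n : ℕ) :
    ‖AA M τ o χ (n + 1) - t * AA M τ o χ n‖ ≤
      (n : ℝ) ^ 2 * (τ ^ 2 * (τ ^ 2 * κA + ‖t‖ * κB)) * FF M τ o (n - 1) := by
  set c : Λ → Finset Λ → ℂ := cf M τ o n with hc
  have hexp : ∀ (x : Λ) (S : Finset Λ), ((‖cf M τ o (n + 1) x S‖ ^ 2 : ℝ) : ℂ) =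
      ∑ y ∈ S, ((τ ^ 2 * ‖M x y‖ ^ 2 : ℝ) : ℂ) * ((‖c y (S.erase y)‖ ^ 2 : ℝ) : ℂ) +
      ∑ y ∈ S, ∑ y' ∈ S.erase y, ((τ ^ 2 : ℝ) : ℂ) * (M x y * (starRingEnd ℂ) (M x y')) *
        (c y (S.erase y) * (starRingEnd ℂ) (c y' (S.erase y'))) := by
    intro x S
    have h0 : ((‖cf M τ o (n + 1) x S‖ ^ 2 : ℝ) : ℂ) =
        cf M τ o (n + 1) x S * (starRingEnd ℂ) (cf M τ o (n + 1) x S) := by
      rw [Complex.mul_conj, Complex.normSq_eq_norm_sq]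
    rw [h0, cf_succ, map_sum, Finset.sum_mul_sum, ← Finset.sum_add_distrib]
    refine Finset.sum_congr rfl fun y hy => ?_
    rw [← Finset.add_sum_erase S _ hy]
    congr 1
    · have h1 : ((‖M x y‖ ^ 2 : ℝ) : ℂ) = M x y * (starRingEnd ℂ) (M x y) := by
        rw [Complex.mul_conj, Complex.normSq_eq_norm_sq]
      have h2 : ((‖c y (S.erase y)‖ ^ 2 : ℝ) : ℂ) =
          c y (S.erase y) * (starRingEnd ℂ) (c y (S.erase y)) := by
        rw [Complex.mul_conj, Complex.normSq_eq_norm_sq]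
      rw [h2, Complex.ofReal_mul, h1, map_mul, map_mul, Complex.conj_ofReal]
      push_cast
      ring
    · refine Finset.sum_congr rfl fun y' _ => ?_
      rw [map_mul, map_mul, Complex.conj_ofReal]
      push_cast
      ring
  have h1 : AA M τ o χ (n + 1) =
      ∑ S : Finset Λ, ∑ y ∈ S, (t * χ y) * ((‖c y (S.erase y)‖ ^ 2 : ℝ) : ℂ) +
      ∑ S : Finset Λ, ∑ y ∈ S, ∑ y' ∈ S.erase y, ((τ ^ 2 : ℝ) : ℂ) *
        (∑ x, χ x * (M x y * (starRingEnd ℂ) (M x y'))) *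
        (c y (S.erase y) * (starRingEnd ℂ) (c y' (S.erase y'))) := by
    unfold AA
    simp only [hexp, Finset.mul_sum]
    rw [Finset.sum_comm]
    rw [← Finset.sum_add_distrib]
    refine Finset.sum_congr rfl fun S _ => ?_
    simp only [mul_add, Finset.sum_add_distrib, Finset.mul_sum]
    congr 1
    · rw [Finset.sum_comm]
      refine Finset.sum_congr rfl fun y _ => ?_
      rw [← ht y, Finset.sum_mul]
      refine Finset.sum_congr rfl fun x _ => ?_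
      ring
    · rw [Finset.sum_comm]
      refine Finset.sum_congr rfl fun y _ => ?_
      rw [Finset.sum_comm]
      refine Finset.sum_congr rfl fun y' _ => ?_
      rw [Finset.sum_mul]
      refine Finset.sum_congr rfl fun x _ => ?_
      ring
  have h2 : ∑ S : Finset Λ, ∑ y ∈ S, (t * χ y) * ((‖c y (S.erase y)‖ ^ 2 : ℝ) : ℂ) -
      t * AA M τ o χ n =
      -(t * ∑ y : Λ, ∑ S : Finset Λ, if y ∈ S then χ y * ((‖c y S‖ ^ 2 : ℝ) : ℂ) else 0) := by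
    rw [sum_erase (fun y S => (t * χ y) * ((‖c y S‖ ^ 2 : ℝ) : ℂ))]
    unfold AA
    rw [Finset.mul_sum, Finset.mul_sum, ← Finset.sum_sub_distrib, ← Finset.sum_neg_distrib]
    refine Finset.sum_congr rfl fun y _ => ?_
    rw [Finset.mul_sum, Finset.mul_sum, Finset.mul_sum, ← Finset.sum_sub_distrib,
      ← Finset.sum_neg_distrib]
    refine Finset.sum_congr rfl fun S _ => ?_
    split_ifs
    · ring
    · rw [mul_zero, neg_zero]
      ring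
  have h3 : AA M τ o χ (n + 1) - t * AA M τ o χ n =
      -(t * ∑ y : Λ, ∑ S : Finset Λ, if y ∈ S then χ y * ((‖c y S‖ ^ 2 : ℝ) : ℂ) else 0) +
      ∑ S : Finset Λ, ∑ y ∈ S, ∑ y' ∈ S.erase y, ((τ ^ 2 : ℝ) : ℂ) *
        (∑ x, χ x * (M x y * (starRingEnd ℂ) (M x y'))) *
        (c y (S.erase y) * (starRingEnd ℂ) (c y' (S.erase y'))) := by
    rw [h1, ← h2]
    ring
  have h4 : ‖∑ y : Λ, ∑ S : Finset Λ, if y ∈ S then χ y * ((‖c y S‖ ^ 2 : ℝ) : ℂ) else 0‖ ≤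
      DG M τ o n := by
    refine (norm_sum_le _ _).trans (Finset.sum_le_sum fun y _ =>
      (norm_sum_le _ _).trans (Finset.sum_le_sum fun S _ => ?_))
    split_ifs
    · rw [norm_mul, Complex.norm_real, Real.norm_eq_abs, abs_of_nonneg (by positivity)]
      calc ‖χ y‖ * ‖c y S‖ ^ 2 ≤ 1 * ‖c y S‖ ^ 2 :=
            mul_le_mul_of_nonneg_right (hχ y) (by positivity)
        _ = _ := by rw [one_mul]
    · simp
  have h5 : ‖∑ S : Finset Λ, ∑ y ∈ S, ∑ y' ∈ S.erase y, ((τ ^ 2 : ℝ) : ℂ) *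
        (∑ x, χ x * (M x y * (starRingEnd ℂ) (M x y'))) *
        (c y (S.erase y) * (starRingEnd ℂ) (c y' (S.erase y')))‖ ≤ τ ^ 2 * OD M τ o k n := by
    unfold OD
    rw [Finset.mul_sum]
    refine (norm_sum_le _ _).trans (Finset.sum_le_sum fun S _ => ?_)
    rw [Finset.mul_sum]
    refine (norm_sum_le _ _).trans (Finset.sum_le_sum fun y _ => ?_)
    rw [Finset.mul_sum]
    refine (norm_sum_le _ _).trans (Finset.sum_le_sum fun y' _ => ?_)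
    rw [norm_mul, norm_mul, norm_mul, RCLike.norm_conj, Complex.norm_real, Real.norm_eq_abs,
      abs_of_nonneg (by positivity : (0 : ℝ) ≤ τ ^ 2), mul_assoc]
    exact mul_le_mul_of_nonneg_left (mul_le_mul_of_nonneg_right (hk y y') (by positivity))
      (by positivity)
  rw [h3]
  refine (norm_add_le _ _).trans ?_
  rw [norm_neg, norm_mul]
  have h6 := DG_le M τ o n κB hB
  have h7 := OD_le M τ o n k hk0 hks κA hA
  have h8 : ‖t‖ * ‖∑ y : Λ, ∑ S : Finset Λ, if y ∈ S then χ y * ((‖c y S‖ ^ 2 : ℝ) : ℂ) else 0‖ ≤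
      ‖t‖ * ((n : ℝ) ^ 2 * (τ ^ 2 * κB) * FF M τ o (n - 1)) :=
    mul_le_mul_of_nonneg_left (h4.trans h6) (norm_nonneg _)
  have h9 : τ ^ 2 * OD M τ o k n ≤ τ ^ 2 * ((n : ℝ) ^ 2 * (τ ^ 2 * κA) * FF M τ o (n - 1)) :=
    mul_le_mul_of_nonneg_left h7 (by positivity)
  calc _ ≤ ‖t‖ * ((n : ℝ) ^ 2 * (τ ^ 2 * κB) * FF M τ o (n - 1)) +
        τ ^ 2 * ((n : ℝ) ^ 2 * (τ ^ 2 * κA) * FF M τ o (n - 1)) := add_le_add h8 (h5.trans h9)
    _ = _ := by ring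

end Pool.Agent.Zk11.QD
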