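import Pool.Agent.H17Arc.Osc2

/-! First and second derivative tests. -/

set_option autoImplicit false
set_option linter.unusedSectionVars false

open scoped BigOperators
open MeasureTheory Set

namespace Pool.Agent.Zk11.QD.Vdc

open H17Arc

/-- a phase with two derivatives -/
structure Ph (φ v w : ℝ → ℝ) : Prop where
  d1 : ∀ t, HasDerivAt φ (v t) t
  d2 : ∀ t, HasDerivAt v (w t) t
  wc : Continuous w

variable {φ v w : ℝ → ℝ}

theorem Ph.neg (h : Ph φ v w) : Ph (fun t => -φ t) (fun t => -v t) (fun t => -w t) :=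
  ⟨fun t => (h.d1 t).neg, fun t => (h.d2 t).neg, h.wc.neg⟩

theorem Ph.cont (h : Ph φ v w) : Continuous φ :=
  continuous_iff_continuousAt.mpr fun t => (h.d1 t).continuousAt

theorem Ph.contv (h : Ph φ v w) : Continuous v :=
  continuous_iff_continuousAt.mpr fun t => (h.d2 t).continuousAt

/-- the undamped integral -/
noncomputable def W0 (φ : ℝ → ℝ) (x y : ℝ) : ℂ := W φ 0 x y

theorem split (h : Ph φ v w) (x m y : ℝ) : ‖W0 φ x y‖ ≤ ‖W0 φ x m‖ + ‖W0 φ m y‖ := by
  unfold W0
  rw [W_split h.cont 0 x m y]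
  refine (norm_add_le _ _).trans ?_
  simp

theorem len (x y : ℝ) (hxy : x ≤ y) : ‖W0 φ x y‖ ≤ y - x := norm_W_le_len le_rfl hxy

theorem first (h : Ph φ v w) {x y m : ℝ} (hxy : x ≤ y) (hm : 0 < m)
    (hw : (∀ t ∈ Icc x y, 0 ≤ w t) ∨ (∀ t ∈ Icc x y, w t ≤ 0))
    (hv : (∀ t ∈ Icc x y, m ≤ v t) ∨ (∀ t ∈ Icc x y, v t ≤ -m)) : ‖W0 φ x y‖ ≤ 3 / m := by
  unfold W0
  rcases hw with hw | hw
  · exact norm_W_le_first h.d1 h.d2 h.wc hxy le_rfl hm hw hv
  · rw [← norm_W_neg hxy]
    refine norm_W_le_first h.neg.d1 h.neg.d2 h.neg.wc hxy le_rfl hm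
      (fun t ht => by have := hw t ht; linarith) ?_
    rcases hv with hv | hv
    · right
      intro t ht
      have := hv t ht
      linarith
    · left
      intro t ht
      have := hv t ht
      linarith

theorem second_aux (h : Ph φ v w) {x y c : ℝ} (hxy : x ≤ y) (hc : 0 < c)
    (hw : ∀ t ∈ Icc x y, c ≤ w t) : ‖W0 φ x y‖ ≤ 8 / Real.sqrt c := by
  have hsc : 0 < Real.sqrt c := Real.sqrt_pos.2 hc
  have hsq : Real.sqrt c * Real.sqrt c = c := Real.mul_self_sqrt hc.le
  set ρ : ℝ := 1 / Real.sqrt c with hρ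
  have hρ0 : 0 < ρ := by positivity
  have hcρ : c * ρ = Real.sqrt c := by
    rw [hρ]
    field_simp
    nlinarith
  have hw0 : ∀ t ∈ Icc x y, 0 ≤ w t := fun t ht => hc.le.trans (hw t ht)
  by_cases h1 : v x ≤ 0 ∧ 0 ≤ v y
  · obtain ⟨t0, ht0, hv0⟩ := intermediate_value_Icc hxy h.contv.continuousOn
      (show (0 : ℝ) ∈ Icc (v x) (v y) from h1)
    have := norm_W_le_second h.d1 h.d2 h.wc (a := x) (b := y) (u := 0) (x := x) (y := y)
      (ρ := ρ) hxy ⟨le_rfl, hxy⟩ ⟨hxy, le_rfl⟩ ht0 hv0 le_rfl hc hρ0 hw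
    rw [hcρ] at this
    unfold W0
    refine this.trans (le_of_eq ?_)
    rw [hρ]
    ring
  · -- no zero
    by_cases h2 : 0 < v x
    · -- positive
      set m := min y (x + ρ) with hm
      have hxm : x ≤ m := le_min hxy (by linarith)
      have hmy : m ≤ y := min_le_left _ _
      have e1 : ‖W0 φ x m‖ ≤ ρ := (len x m hxm).trans (by
        have := min_le_right y (x + ρ)
        linarith)
      have e2 : ‖W0 φ m y‖ ≤ 3 / Real.sqrt c := by
        rcases le_or_gt y (x + ρ) with h3 | h3
        · have : m = y := min_eq_left h3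
          rw [this]
          unfold W0
          rw [W_self, norm_zero]
          positivity
        · have hmx : m = x + ρ := min_eq_right h3.le
          refine first h hmy hsc (Or.inl fun t ht => hw0 t ⟨hxm.trans ht.1, ht.2⟩) (Or.inl ?_)
          intro t ht
          have h4 := v_lower h.d2 hw (s := x) (t := t) ⟨le_rfl, hxy⟩ ⟨hxm.trans ht.1, ht.2⟩
            (hxm.trans ht.1)
          have h5 : ρ ≤ t - x := by linarith [ht.1]
          have h6 := mul_le_mul_of_nonneg_left h5 hc.le
          rw [hcρ] at h6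
          linarith
      refine (split h x m y).trans ((add_le_add e1 e2).trans ?_)
      rw [hρ, ← add_div]
      apply div_le_div_of_nonneg_right _ hsc.le
      norm_num
    · -- negative
      have h3 : v y < 0 := by
        by_contra h4
        exact h1 ⟨not_lt.1 h2, not_lt.1 h4⟩
      set m := max x (y - ρ) with hm
      have hxm : x ≤ m := le_max_left _ _
      have hmy : m ≤ y := max_le hxy (by linarith)
      have e1 : ‖W0 φ m y‖ ≤ ρ := (len m y hmy).trans (by
        have := le_max_right x (y - ρ)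
        linarith)
      have e2 : ‖W0 φ x m‖ ≤ 3 / Real.sqrt c := by
        rcases le_or_gt (y - ρ) x with h3 | h3
        · have : m = x := max_eq_left h3
          rw [this]
          unfold W0
          rw [W_self, norm_zero]
          positivity
        · have hmx : m = y - ρ := max_eq_right h3.le
          refine first h hxm hsc (Or.inl fun t ht => hw0 t ⟨ht.1, ht.2.trans hmy⟩) (Or.inr ?_)
          intro t ht
          have h4 := v_lower h.d2 hw (s := t) (t := y) ⟨ht.1, ht.2.trans hmy⟩ ⟨hxy, le_rfl⟩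
            (ht.2.trans hmy)
          have h5 : ρ ≤ y - t := by linarith [ht.2]
          have h6 := mul_le_mul_of_nonneg_left h5 hc.le
          rw [hcρ] at h6
          linarith
      refine (split h x m y).trans ((add_le_add e2 e1).trans ?_)
      rw [hρ, ← add_div]
      apply div_le_div_of_nonneg_right _ hsc.le
      norm_num

theorem second (h : Ph φ v w) {x y c : ℝ} (hxy : x ≤ y) (hc : 0 < c)
    (hw : (∀ t ∈ Icc x y, c ≤ w t) ∨ (∀ t ∈ Icc x y, w t ≤ -c)) :
    ‖W0 φ x y‖ ≤ 8 / Real.sqrt c := by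
  rcases hw with hw | hw
  · exact second_aux h hxy hc hw
  · have h1 := second_aux h.neg hxy hc (fun t ht => by have := hw t ht; linarith)
    unfold W0 at h1 ⊢
    rwa [norm_W_neg hxy] at h1

end Pool.Agent.Zk11.QD.Vdc
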