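import Pool.Agent.Zk11.QD.Resid

/-! Weighted masses of the visited sites. -/

set_option autoImplicit false
set_option linter.unusedSectionVars false

open scoped BigOperators

namespace Pool.Agent.Zk11.QD

variable {Λ : Type} [Fintype Λ] [DecidableEq Λ]

/-- weighted masses of the visited sites -/
noncomputable def WG (M : Λ → Λ → ℂ) (τ : ℝ) (o : Λ) (g : Λ → Λ → ℝ) (n : ℕ) : ℝ :=
  ∑ y, ∑ S : Finset Λ, ∑ x ∈ S, g y x * ‖cf M τ o n y S‖ ^ 2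

theorem WG_zero (M : Λ → Λ → ℂ) (τ : ℝ) (o : Λ) (g : Λ → Λ → ℝ) : WG M τ o g 0 = 0 := by
  unfold WG
  refine Finset.sum_eq_zero fun y _ => Finset.sum_eq_zero fun S _ => Finset.sum_eq_zero fun x hx => ?_
  have : cf M τ o 0 y S = 0 := by
    apply cf_card
    have : 0 < S.card := Finset.card_pos.2 ⟨x, hx⟩
    omega
  rw [this]
  simp

theorem WG_nonneg (M : Λ → Λ → ℂ) (τ : ℝ) (o : Λ) (g : Λ → Λ → ℝ) (hg : ∀ y x, 0 ≤ g y x) (n : ℕ) :
    0 ≤ WG M τ o g n :=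
  Finset.sum_nonneg fun y _ => Finset.sum_nonneg fun _ _ => Finset.sum_nonneg fun x _ =>
    mul_nonneg (hg y x) (by positivity)

theorem WG_mono (M : Λ → Λ → ℂ) (τ : ℝ) (o : Λ) (g g' : Λ → Λ → ℝ) (h : ∀ y x, g y x ≤ g' y x)
    (n : ℕ) : WG M τ o g n ≤ WG M τ o g' n :=
  Finset.sum_le_sum fun y _ => Finset.sum_le_sum fun _ _ => Finset.sum_le_sum fun x _ =>
    mul_le_mul_of_nonneg_right (h y x) (by positivity)

/-- bounded weights -/
theorem WG_sup (M : Λ → Λ → ℂ) (τ : ℝ) (o : Λ) (g : Λ → Λ → ℝ) (β : ℝ) (h : ∀ y x, g y x ≤ β)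
    (n : ℕ) : WG M τ o g n ≤ n * (β * FF M τ o n) := by
  unfold WG FF
  rw [Finset.mul_sum, Finset.mul_sum]
  refine Finset.sum_le_sum fun y _ => ?_
  rw [Finset.mul_sum, Finset.mul_sum]
  refine Finset.sum_le_sum fun S _ => ?_
  by_cases hS : S.card = n
  · calc ∑ x ∈ S, g y x * ‖cf M τ o n y S‖ ^ 2 ≤ ∑ x ∈ S, β * ‖cf M τ o n y S‖ ^ 2 :=
          Finset.sum_le_sum fun x _ => mul_le_mul_of_nonneg_right (h y x) (by positivity)
      _ = _ := by rw [Finset.sum_const, nsmul_eq_mul, hS]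
  · rw [cf_card M τ o n y S hS]
    simp

theorem WG_sum (M : Λ → Λ → ℂ) (τ : ℝ) (o : Λ) {ι : Type} (s : Finset ι) (c : ι → ℝ)
    (g : ι → Λ → Λ → ℝ) (n : ℕ) :
    WG M τ o (fun y x => ∑ i ∈ s, c i * g i y x) n = ∑ i ∈ s, c i * WG M τ o (g i) n := by
  unfold WG
  simp only [Finset.mul_sum, Finset.sum_mul]
  have h1 : ∀ y : Λ, ∑ S : Finset Λ, ∑ x ∈ S, ∑ i ∈ s, c i * g i y x * ‖cf M τ o n y S‖ ^ 2 =
      ∑ i ∈ s, ∑ S : Finset Λ, ∑ x ∈ S, c i * (g i y x * ‖cf M τ o n y S‖ ^ 2) := by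
    intro y
    rw [Finset.sum_comm (s := s)]
    refine Finset.sum_congr rfl fun S _ => ?_
    rw [Finset.sum_comm]
    exact Finset.sum_congr rfl fun i _ => Finset.sum_congr rfl fun x _ => by ring
  rw [Finset.sum_congr rfl fun y _ => h1 y, Finset.sum_comm]

/-- moving the last point out of the set -/
theorem erase_le (M : Λ → Λ → ℂ) (τ : ℝ) (o : Λ) (G : Λ → Λ → ℝ) (hG : ∀ w x, 0 ≤ G w x) (α : ℝ)
    (hα : ∀ w, G w w ≤ α) (n : ℕ) :
    ∑ S : Finset Λ, ∑ w ∈ S, ‖cf M τ o n w (S.erase w)‖ ^ 2 * ∑ x ∈ S, G w x ≤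
      α * FF M τ o n + WG M τ o G n := by
  have h1 : ∑ S : Finset Λ, ∑ w ∈ S, ‖cf M τ o n w (S.erase w)‖ ^ 2 * ∑ x ∈ S, G w x =
      ∑ S : Finset Λ, ∑ w ∈ S, (fun w S' => ‖cf M τ o n w S'‖ ^ 2 * (G w w + ∑ x ∈ S', G w x))
        w (S.erase w) := by
    refine Finset.sum_congr rfl fun S _ => Finset.sum_congr rfl fun w hw => ?_
    rw [← Finset.add_sum_erase S _ hw]
  have h1' := sum_erase (Λ := Λ)
    (fun w S' => ‖cf M τ o n w S'‖ ^ 2 * (G w w + ∑ x ∈ S', G w x))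
  refine (h1.trans h1').le.trans ?_
  unfold FF WG
  rw [Finset.mul_sum, ← Finset.sum_add_distrib]
  refine Finset.sum_le_sum fun w _ => ?_
  rw [Finset.mul_sum, ← Finset.sum_add_distrib]
  refine Finset.sum_le_sum fun S _ => ?_
  have h2 : 0 ≤ α := (hG w w).trans (hα w)
  split_ifs with h
  · exact add_nonneg (by positivity)
      (Finset.sum_nonneg fun x _ => mul_nonneg (hG w x) (by positivity))
  · have h3 := mul_le_mul_of_nonneg_right (hα w) (by positivity : 0 ≤ ‖cf M τ o n w S‖ ^ 2)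
    rw [mul_add, Finset.mul_sum]
    refine add_le_add (by linarith) (le_of_eq ?_)
    exact Finset.sum_congr rfl fun x _ => by ring

/-- the transported weight -/
noncomputable def TG (M : Λ → Λ → ℂ) (τ : ℝ) (g : Λ → Λ → ℝ) (w x : Λ) : ℝ :=
  ∑ y, g y x * (τ ^ 2 * ‖M y w‖ ^ 2)

theorem TG_nonneg (M : Λ → Λ → ℂ) (τ : ℝ) (g : Λ → Λ → ℝ) (hg : ∀ y x, 0 ≤ g y x) (w x : Λ) :
    0 ≤ TG M τ g w x :=
  Finset.sum_nonneg fun y _ => mul_nonneg (hg y x) (by positivity)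

/-- the crude step -/
theorem WG_cs (M : Λ → Λ → ℂ) (τ : ℝ) (o : Λ) (g : Λ → Λ → ℝ) (hg : ∀ y x, 0 ≤ g y x) (α : ℝ)
    (hα : ∀ w, TG M τ g w w ≤ α) (n : ℕ) :
    WG M τ o g (n + 1) ≤ (n + 1 : ℝ) * (α * FF M τ o n + WG M τ o (TG M τ g) n) := by
  have h1 : WG M τ o g (n + 1) ≤
      ∑ y, ∑ S : Finset Λ, ∑ x ∈ S, g y x * ((n + 1 : ℝ) *
        ∑ w ∈ S, ‖M y w‖ ^ 2 * τ ^ 2 * ‖cf M τ o n w (S.erase w)‖ ^ 2) :=
    Finset.sum_le_sum fun y _ => Finset.sum_le_sum fun S _ => Finset.sum_le_sum fun x _ =>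
      mul_le_mul_of_nonneg_left (cs_cf M τ o n y S) (hg y x)
  have h2 : ∑ y, ∑ S : Finset Λ, ∑ x ∈ S, g y x * ((n + 1 : ℝ) *
        ∑ w ∈ S, ‖M y w‖ ^ 2 * τ ^ 2 * ‖cf M τ o n w (S.erase w)‖ ^ 2) =
      (n + 1 : ℝ) * ∑ S : Finset Λ, ∑ w ∈ S, ‖cf M τ o n w (S.erase w)‖ ^ 2 *
        ∑ x ∈ S, TG M τ g w x := by
    rw [Finset.sum_comm, Finset.mul_sum]
    refine Finset.sum_congr rfl fun S _ => ?_
    have h3 : ∀ y, ∑ x ∈ S, g y x * ((n + 1 : ℝ) *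
        ∑ w ∈ S, ‖M y w‖ ^ 2 * τ ^ 2 * ‖cf M τ o n w (S.erase w)‖ ^ 2) =
        ∑ w ∈ S, ∑ x ∈ S, ((n + 1 : ℝ) * ‖cf M τ o n w (S.erase w)‖ ^ 2) *
          (g y x * (τ ^ 2 * ‖M y w‖ ^ 2)) := by
      intro y
      rw [Finset.sum_comm]
      refine Finset.sum_congr rfl fun x _ => ?_
      rw [Finset.mul_sum, Finset.mul_sum]
      refine Finset.sum_congr rfl fun w _ => ?_
      ring
    simp only [h3]
    rw [Finset.sum_comm, Finset.mul_sum]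
    refine Finset.sum_congr rfl fun w _ => ?_
    rw [Finset.sum_comm, ← mul_assoc, Finset.mul_sum]
    refine Finset.sum_congr rfl fun x _ => ?_
    unfold TG
    rw [Finset.mul_sum]
  refine h1.trans (h2.le.trans ?_)
  exact mul_le_mul_of_nonneg_left (erase_le M τ o (TG M τ g) (TG_nonneg M τ g hg) α hα n)
    (by positivity)

/-- the expansion of the masses -/
theorem expand (M : Λ → Λ → ℂ) (τ : ℝ) (o : Λ) (φ : Λ → Finset Λ → ℂ) (n : ℕ) :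
    ∑ x, ∑ S : Finset Λ, φ x S * ((‖cf M τ o (n + 1) x S‖ ^ 2 : ℝ) : ℂ) =
      ∑ S : Finset Λ, ∑ y ∈ S, (∑ x, φ x S * ((τ ^ 2 * ‖M x y‖ ^ 2 : ℝ) : ℂ)) *
        ((‖cf M τ o n y (S.erase y)‖ ^ 2 : ℝ) : ℂ) +
      ∑ S : Finset Λ, ∑ y ∈ S, ∑ y' ∈ S.erase y, ((τ ^ 2 : ℝ) : ℂ) *
        (∑ x, φ x S * (M x y * (starRingEnd ℂ) (M x y'))) *
        (cf M τ o n y (S.erase y) * (starRingEnd ℂ) (cf M τ o n y' (S.erase y'))) := by
  set c : Λ → Finset Λ → ℂ := cf M τ o n with hc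
  have hexp : ∀ (x : Λ) (S : Finset Λ), ((‖cf M τ o (n + 1) x S‖ ^ 2 : ℝ) : ℂ) =
      ∑ y ∈ S, ((τ ^ 2 * ‖M x y‖ ^ 2 : ℝ) : ℂ) * ((‖c y (S.erase y)‖ ^ 2 : ℝ) : ℂ) +
      ∑ y ∈ S, ∑ y' ∈ S.erase y, ((τ ^ 2 : ℝ) : ℂ) * (M x y * (starRingEnd ℂ) (M x y')) *
        (c y (S.erase y) * (starRingEnd ℂ) (c y' (S.erase y'))) := by
    intro x S
    have h0 : ((‖cf M τ o (n + 1) x S‖ ^ 2 : ℝ) : ℂ) =
        cf M τ o (n + 1) x S * (starRingEnd ℂ) (cf M τ o (n + 1) x S) := by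
      rw [Complex.mul_conj, Complex.normSq_eq_norm_sq]
    rw [h0, cf_succ, map_sum, Finset.sum_mul_sum, ← Finset.sum_add_distrib]
    refine Finset.sum_congr rfl fun y hy => ?_
    rw [← Finset.add_sum_erase S _ hy]
    congr 1
    · have h1 : ((‖M x y‖ ^ 2 : ℝ) : ℂ) = M x y * (starRingEnd ℂ) (M x y) := by
        rw [Complex.mul_conj, Complex.normSq_eq_norm_sq]
      have h2 : ((‖c y (S.erase y)‖ ^ 2 : ℝ) : ℂ) =
          c y (S.erase y) * (starRingEnd ℂ) (c y (S.erase y)) := by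
        rw [Complex.mul_conj, Complex.normSq_eq_norm_sq]
      rw [h2, Complex.ofReal_mul, h1, map_mul, map_mul, Complex.conj_ofReal]
      push_cast
      ring
    · refine Finset.sum_congr rfl fun y' _ => ?_
      rw [map_mul, map_mul, Complex.conj_ofReal]
      push_cast
      ring
  simp only [hexp, mul_add, Finset.mul_sum, Finset.sum_mul]
  rw [Finset.sum_comm, ← Finset.sum_add_distrib]
  refine Finset.sum_congr rfl fun S _ => ?_
  rw [Finset.sum_add_distrib]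
  congr 1
  · rw [Finset.sum_comm]
    exact Finset.sum_congr rfl fun y _ => Finset.sum_congr rfl fun x _ => by ring
  · rw [Finset.sum_comm]
    refine Finset.sum_congr rfl fun y _ => ?_
    rw [Finset.sum_comm]
    exact Finset.sum_congr rfl fun y' _ => Finset.sum_congr rfl fun x _ => by ring

/-- the exchange terms -/
theorem exch_le (M : Λ → Λ → ℂ) (τ : ℝ) (o : Λ) (n : ℕ) (φ : Λ → Finset Λ → ℂ) (k : Λ → Λ → ℝ)
    (hk0 : ∀ y x, 0 ≤ k y x) (hks : ∀ y x, k y x = k x y) (D : ℝ) (hD : 0 ≤ D)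
    (hk : ∀ S : Finset Λ, S.card = n + 1 → ∀ y y',
      ‖∑ x, φ x S * (M x y * (starRingEnd ℂ) (M x y'))‖ ≤ D * k y y') :
    ‖∑ S : Finset Λ, ∑ y ∈ S, ∑ y' ∈ S.erase y, ((τ ^ 2 : ℝ) : ℂ) *
        (∑ x, φ x S * (M x y * (starRingEnd ℂ) (M x y'))) *
        (cf M τ o n y (S.erase y) * (starRingEnd ℂ) (cf M τ o n y' (S.erase y')))‖ ≤
      D * τ ^ 2 * WG M τ o k n := by
  set c : Λ → Finset Λ → ℂ := cf M τ o n with hc
  have h1 : ‖∑ S : Finset Λ, ∑ y ∈ S, ∑ y' ∈ S.erase y, ((τ ^ 2 : ℝ) : ℂ) *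
        (∑ x, φ x S * (M x y * (starRingEnd ℂ) (M x y'))) *
        (c y (S.erase y) * (starRingEnd ℂ) (c y' (S.erase y')))‖ ≤
      D * τ ^ 2 * ∑ S : Finset Λ, ∑ y ∈ S, ∑ y' ∈ S.erase y,
        k y y' * (‖c y (S.erase y)‖ * ‖c y' (S.erase y')‖) := by
    rw [Finset.mul_sum]
    refine (norm_sum_le _ _).trans (Finset.sum_le_sum fun S _ => ?_)
    rw [Finset.mul_sum]
    refine (norm_sum_le _ _).trans (Finset.sum_le_sum fun y hy => ?_)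
    rw [Finset.mul_sum]
    refine (norm_sum_le _ _).trans (Finset.sum_le_sum fun y' _ => ?_)
    by_cases hS : S.card = n + 1
    · have h2 := hk S hS y y'
      rw [norm_mul, norm_mul, norm_mul, Complex.norm_real, Real.norm_eq_abs,
        abs_of_nonneg (by positivity : 0 ≤ τ ^ 2), RCLike.norm_conj]
      have h3 : 0 ≤ τ ^ 2 * (‖c y (S.erase y)‖ * ‖c y' (S.erase y')‖) := by positivity
      have h4 := mul_le_mul_of_nonneg_right h2 h3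
      linarith
    · have h2 : c y (S.erase y) = 0 := by
        rw [hc]
        apply cf_card
        rw [Finset.card_erase_of_mem hy]
        have : 0 < S.card := Finset.card_pos.2 ⟨y, hy⟩
        omega
      rw [h2]
      simp
  refine h1.trans (mul_le_mul_of_nonneg_left ?_ (by positivity))
  have h2 : ∑ S : Finset Λ, ∑ y ∈ S, ∑ y' ∈ S.erase y,
        k y y' * (‖c y (S.erase y)‖ * ‖c y' (S.erase y')‖) ≤
      ∑ S : Finset Λ, ∑ y ∈ S, ∑ y' ∈ S.erase y, k y y' * ‖c y (S.erase y)‖ ^ 2 := by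
    refine Finset.sum_le_sum fun S _ => ?_
    have h2 : ∑ y ∈ S, ∑ y' ∈ S.erase y,
        k y y' * (‖c y (S.erase y)‖ * ‖c y' (S.erase y')‖) ≤
        ∑ y ∈ S, ∑ y' ∈ S.erase y, (k y y' * ‖c y (S.erase y)‖ ^ 2 * (1 / 2) +
          k y y' * ‖c y' (S.erase y')‖ ^ 2 * (1 / 2)) := by
      refine Finset.sum_le_sum fun y _ => Finset.sum_le_sum fun y' _ => ?_
      have h3 := two_mul_le_add_sq ‖c y (S.erase y)‖ ‖c y' (S.erase y')‖
      have h4 := mul_le_mul_of_nonneg_left h3 (hk0 y y')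
      linarith
    refine h2.trans (le_of_eq ?_)
    have h5 : ∑ y ∈ S, ∑ y' ∈ S.erase y, k y y' * ‖c y' (S.erase y')‖ ^ 2 * (1 / 2) =
        ∑ y ∈ S, ∑ y' ∈ S.erase y, k y y' * ‖c y (S.erase y)‖ ^ 2 * (1 / 2) := by
      rw [sum_pairs_symm S (fun y y' => k y y' * ‖c y' (S.erase y')‖ ^ 2 * (1 / 2))]
      refine Finset.sum_congr rfl fun y _ => Finset.sum_congr rfl fun y' _ => ?_
      rw [hks y' y]
    simp only [Finset.sum_add_distrib]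
    rw [h5, ← Finset.sum_add_distrib]
    refine Finset.sum_congr rfl fun y _ => ?_
    rw [← Finset.sum_add_distrib]
    refine Finset.sum_congr rfl fun y' _ => ?_
    ring
  refine h2.trans ?_
  have h3 := sum_erase (Λ := Λ) (fun y S => ∑ y' ∈ S, k y y' * ‖c y S‖ ^ 2)
  refine h3.le.trans ?_
  unfold WG
  refine Finset.sum_le_sum fun y _ => Finset.sum_le_sum fun S _ => ?_
  split_ifs
  · exact Finset.sum_nonneg fun x _ => mul_nonneg (hk0 _ _) (by positivity)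
  · exact le_rfl

/-- the smooth step -/
theorem WG_step (M : Λ → Λ → ℂ) (τ : ℝ) (o : Λ) (g : Λ → Λ → ℝ) (hg : ∀ y x, 0 ≤ g y x) (α : ℝ)
    (hα : ∀ w, TG M τ g w w ≤ α) (k : Λ → Λ → ℝ) (hk0 : ∀ y x, 0 ≤ k y x)
    (hks : ∀ y x, k y x = k x y)
    (hk : ∀ w y y', ‖∑ x, ((g x w : ℝ) : ℂ) * (M x y * (starRingEnd ℂ) (M x y'))‖ ≤ k y y')
    (n : ℕ) :
    WG M τ o g (n + 1) ≤ α * FF M τ o n + WG M τ o (TG M τ g) n +
      (n + 1 : ℝ) * τ ^ 2 * WG M τ o k n := by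
  have h1 := expand M τ o (fun x S => ((∑ w ∈ S, g x w : ℝ) : ℂ)) n
  have h2 : ∑ x, ∑ S : Finset Λ, ((∑ w ∈ S, g x w : ℝ) : ℂ) *
      ((‖cf M τ o (n + 1) x S‖ ^ 2 : ℝ) : ℂ) = ((WG M τ o g (n + 1) : ℝ) : ℂ) := by
    unfold WG
    push_cast
    refine Finset.sum_congr rfl fun x _ => Finset.sum_congr rfl fun S _ => ?_
    rw [Finset.sum_mul]
  have h3 : ∑ S : Finset Λ, ∑ y ∈ S, (∑ x, ((∑ w ∈ S, g x w : ℝ) : ℂ) *
      ((τ ^ 2 * ‖M x y‖ ^ 2 : ℝ) : ℂ)) * ((‖cf M τ o n y (S.erase y)‖ ^ 2 : ℝ) : ℂ) =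
      ((∑ S : Finset Λ, ∑ y ∈ S, ‖cf M τ o n y (S.erase y)‖ ^ 2 * ∑ w ∈ S, TG M τ g y w : ℝ) : ℂ) := by
    push_cast
    refine Finset.sum_congr rfl fun S _ => Finset.sum_congr rfl fun y _ => ?_
    rw [mul_comm]
    congr 1
    unfold TG
    push_cast
    simp only [Finset.sum_mul]
    exact Finset.sum_comm
  rw [h2, h3] at h1
  have h4 := exch_le M τ o n (fun x S => ((∑ w ∈ S, g x w : ℝ) : ℂ)) k hk0 hks (n + 1 : ℝ)
    (by positivity) (fun S hS y y' => by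
      have e1 : ∑ x, ((∑ w ∈ S, g x w : ℝ) : ℂ) * (M x y * (starRingEnd ℂ) (M x y')) =
          ∑ w ∈ S, ∑ x, ((g x w : ℝ) : ℂ) * (M x y * (starRingEnd ℂ) (M x y')) := by
        rw [Finset.sum_comm]
        refine Finset.sum_congr rfl fun x _ => ?_
        push_cast
        rw [Finset.sum_mul]
      rw [e1]
      refine (norm_sum_le _ _).trans ((Finset.sum_le_sum fun w _ => hk w y y').trans (le_of_eq ?_))
      rw [Finset.sum_const, nsmul_eq_mul, hS]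
      push_cast
      ring)
  have h5 : WG M τ o g (n + 1) =
      (∑ S : Finset Λ, ∑ y ∈ S, ‖cf M τ o n y (S.erase y)‖ ^ 2 * ∑ w ∈ S, TG M τ g y w) +
      (∑ S : Finset Λ, ∑ y ∈ S, ∑ y' ∈ S.erase y, ((τ ^ 2 : ℝ) : ℂ) *
        (∑ x, ((∑ w ∈ S, g x w : ℝ) : ℂ) * (M x y * (starRingEnd ℂ) (M x y'))) *
        (cf M τ o n y (S.erase y) * (starRingEnd ℂ) (cf M τ o n y' (S.erase y')))).re := by
    have := congrArg Complex.re h1
    rw [Complex.ofReal_re, Complex.add_re, Complex.ofReal_re] at this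
    exact this
  rw [h5]
  have h6 := erase_le M τ o (TG M τ g) (TG_nonneg M τ g hg) α hα n
  have h7 := (Complex.re_le_norm _).trans h4
  linarith

/-- the masses -/
theorem FF_step (M : Λ → Λ → ℂ) (τ : ℝ) (o : Λ) (q : ℝ) (hq : ∀ w, ∑ x, τ ^ 2 * ‖M x w‖ ^ 2 ≤ q)
    (k : Λ → Λ → ℝ) (hk0 : ∀ y x, 0 ≤ k y x) (hks : ∀ y x, k y x = k x y)
    (hk : ∀ y y', ‖∑ x, (M x y * (starRingEnd ℂ) (M x y'))‖ ≤ k y y') (n : ℕ) :
    FF M τ o (n + 1) ≤ q * FF M τ o n + τ ^ 2 * WG M τ o k n := by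
  have h1 := expand M τ o (fun _ _ => 1) n
  have h2 : ∑ x, ∑ S : Finset Λ, (1 : ℂ) * ((‖cf M τ o (n + 1) x S‖ ^ 2 : ℝ) : ℂ) =
      ((FF M τ o (n + 1) : ℝ) : ℂ) := by
    unfold FF
    push_cast
    simp only [one_mul]
  have h3 : ∑ S : Finset Λ, ∑ y ∈ S, (∑ x, (1 : ℂ) *
      ((τ ^ 2 * ‖M x y‖ ^ 2 : ℝ) : ℂ)) * ((‖cf M τ o n y (S.erase y)‖ ^ 2 : ℝ) : ℂ) =
      ((∑ S : Finset Λ, ∑ y ∈ S, (∑ x, τ ^ 2 * ‖M x y‖ ^ 2) *
        ‖cf M τ o n y (S.erase y)‖ ^ 2 : ℝ) : ℂ) := by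
    push_cast
    simp only [one_mul]
  rw [h2, h3] at h1
  have h4 := exch_le M τ o n (fun _ _ => 1) k hk0 hks 1 zero_le_one (fun S _ y y' => by
    simp only [one_mul]
    exact hk y y')
  have h5 := congrArg Complex.re h1
  rw [Complex.ofReal_re, Complex.add_re, Complex.ofReal_re] at h5
  have h6 := (Complex.re_le_norm _).trans h4
  have h7 : ∑ S : Finset Λ, ∑ y ∈ S, (∑ x, τ ^ 2 * ‖M x y‖ ^ 2) * ‖cf M τ o n y (S.erase y)‖ ^ 2 ≤
      q * FF M τ o n := by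
    by_cases hne : Nonempty Λ
    · have hq0 : 0 ≤ q := le_trans (Finset.sum_nonneg fun _ _ => by positivity) (hq o)
      calc ∑ S : Finset Λ, ∑ y ∈ S, (∑ x, τ ^ 2 * ‖M x y‖ ^ 2) * ‖cf M τ o n y (S.erase y)‖ ^ 2
          ≤ ∑ S : Finset Λ, ∑ y ∈ S, q * ‖cf M τ o n y (S.erase y)‖ ^ 2 :=
            Finset.sum_le_sum fun S _ => Finset.sum_le_sum fun y _ =>
              mul_le_mul_of_nonneg_right (hq y) (by positivity)
        _ = q * ∑ S : Finset Λ, ∑ y ∈ S, ‖cf M τ o n y (S.erase y)‖ ^ 2 := by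
            simp only [Finset.mul_sum]
        _ ≤ _ := mul_le_mul_of_nonneg_left (mass_erase M τ o n) hq0
    · exact absurd ⟨o⟩ hne
  linarith

/-- the weighted masses -/
theorem AA_step (M : Λ → Λ → ℂ) (τ : ℝ) (o : Λ) (χ : Λ → ℂ) (hχ : ∀ x, ‖χ x‖ ≤ 1) (t : ℂ)
    (ht : ∀ y, ∑ x, χ x * ((τ ^ 2 * ‖M x y‖ ^ 2 : ℝ) : ℂ) = t * χ y)
    (k : Λ → Λ → ℝ) (hk0 : ∀ y x, 0 ≤ k y x) (hks : ∀ y x, k y x = k x y)
    (hk : ∀ y y', ‖∑ x, χ x * (M x y * (starRingEnd ℂ) (M x y'))‖ ≤ k y y')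
    (κB : ℝ) (hB : ∀ x w, ‖M x w‖ ^ 2 ≤ κB) (n : ℕ) :
    ‖AA M τ o χ (n + 1) - t * AA M τ o χ n‖ ≤
      ‖t‖ * ((n : ℝ) ^ 2 * (τ ^ 2 * κB) * FF M τ o (n - 1)) + τ ^ 2 * WG M τ o k n := by
  have h1 := expand M τ o (fun x _ => χ x) n
  have h2 : ∑ x, ∑ S : Finset Λ, χ x * ((‖cf M τ o (n + 1) x S‖ ^ 2 : ℝ) : ℂ) =
      AA M τ o χ (n + 1) := by
    unfold AA
    simp only [Finset.mul_sum]
  have h3 : ∑ S : Finset Λ, ∑ y ∈ S, (∑ x, χ x *
      ((τ ^ 2 * ‖M x y‖ ^ 2 : ℝ) : ℂ)) * ((‖cf M τ o n y (S.erase y)‖ ^ 2 : ℝ) : ℂ) =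
      t * AA M τ o χ n - t * ∑ y, χ y * ∑ S : Finset Λ,
        (if y ∈ S then ((‖cf M τ o n y S‖ ^ 2 : ℝ) : ℂ) else 0) := by
    simp only [ht]
    have e1 := sum_erase (Λ := Λ) (fun y S => t * χ y * ((‖cf M τ o n y S‖ ^ 2 : ℝ) : ℂ))
    refine e1.trans ?_
    unfold AA
    rw [← mul_sub, ← Finset.sum_sub_distrib, Finset.mul_sum]
    refine Finset.sum_congr rfl fun y _ => ?_
    rw [← mul_sub, ← Finset.sum_sub_distrib, Finset.mul_sum, Finset.mul_sum]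
    refine Finset.sum_congr rfl fun S _ => ?_
    split_ifs <;> ring
  rw [h2, h3] at h1
  have h4 := exch_le M τ o n (fun x _ => χ x) k hk0 hks 1 zero_le_one (fun S _ y y' => by
    rw [one_mul]
    exact hk y y')
  have h5 : ‖t * ∑ y, χ y * ∑ S : Finset Λ,
        (if y ∈ S then ((‖cf M τ o n y S‖ ^ 2 : ℝ) : ℂ) else 0)‖ ≤ ‖t‖ * DG M τ o n := by
    rw [norm_mul]
    refine mul_le_mul_of_nonneg_left ?_ (norm_nonneg _)
    unfold DG
    refine (norm_sum_le _ _).trans (Finset.sum_le_sum fun y _ => ?_)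
    rw [norm_mul]
    calc ‖χ y‖ * ‖∑ S : Finset Λ, (if y ∈ S then ((‖cf M τ o n y S‖ ^ 2 : ℝ) : ℂ) else 0)‖
        ≤ 1 * ∑ S : Finset Λ, (if y ∈ S then ‖cf M τ o n y S‖ ^ 2 else 0) := by
          refine mul_le_mul (hχ y) ?_ (norm_nonneg _) zero_le_one
          refine (norm_sum_le _ _).trans (Finset.sum_le_sum fun S _ => ?_)
          split_ifs
          · rw [Complex.norm_real, Real.norm_eq_abs, abs_of_nonneg (by positivity)]
          · simp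
      _ = _ := one_mul _
  have h6 : AA M τ o χ (n + 1) - t * AA M τ o χ n =
      -(t * ∑ y, χ y * ∑ S : Finset Λ,
        (if y ∈ S then ((‖cf M τ o n y S‖ ^ 2 : ℝ) : ℂ) else 0)) +
      (∑ S : Finset Λ, ∑ y ∈ S, ∑ y' ∈ S.erase y, ((τ ^ 2 : ℝ) : ℂ) *
        (∑ x, χ x * (M x y * (starRingEnd ℂ) (M x y'))) *
        (cf M τ o n y (S.erase y) * (starRingEnd ℂ) (cf M τ o n y' (S.erase y')))) := by
    rw [h1]
    ring
  rw [h6]
  refine (norm_add_le _ _).trans ?_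
  rw [norm_neg]
  have h7 := mul_le_mul_of_nonneg_left (DG_le M τ o n κB hB) (norm_nonneg t)
  linarith

/-- the recollisions -/
theorem CR_le (M : Λ → Λ → ℂ) (m : ℂ) (τ : ℝ) (o : Λ) (hm : ∀ x, M x x = m)
    (hMs : ∀ x y, ‖M x y‖ = ‖M y x‖) (n : ℕ) :
    ∑ x, ∑ S : Finset Λ, ‖cR M m τ o n x S‖ ^ 2 ≤
      (n : ℝ) * WG M τ o (fun y x => τ ^ 2 * ‖M y x‖ ^ 2) n := by
  have h1 : ∀ (x : Λ) (S : Finset Λ), ‖cR M m τ o n x S‖ ^ 2 ≤
      (n : ℝ) * τ ^ 2 * (if x ∈ S then ∑ y ∈ S.erase x,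
        ‖M x y‖ ^ 2 * ‖cf M τ o n y (S.erase y)‖ ^ 2 else 0) := by
    intro x S
    split_ifs with hx
    · by_cases hS : S.card = n + 1
      · rw [cR_eq M m τ o hm n x S hx]
        have h2 : ‖∑ y ∈ S.erase x, M x y * τ * cf M τ o n y (S.erase y)‖ ≤
            ∑ y ∈ S.erase x, ‖M x y‖ * |τ| * ‖cf M τ o n y (S.erase y)‖ := by
          refine (norm_sum_le _ _).trans (le_of_eq (Finset.sum_congr rfl fun w _ => ?_))
          rw [norm_mul, norm_mul, Complex.norm_real, Real.norm_eq_abs]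
        have h3 := pow_le_pow_left₀ (norm_nonneg _) h2 2
        have h4 : (∑ y ∈ S.erase x, ‖M x y‖ * |τ| * ‖cf M τ o n y (S.erase y)‖) ^ 2 ≤
            ((S.erase x).card : ℝ) *
              ∑ y ∈ S.erase x, (‖M x y‖ * |τ| * ‖cf M τ o n y (S.erase y)‖) ^ 2 :=
          sq_sum_le_card_mul_sum_sq
        refine h3.trans (h4.trans (le_of_eq ?_))
        have h5 : ∑ y ∈ S.erase x, (‖M x y‖ * |τ| * ‖cf M τ o n y (S.erase y)‖) ^ 2 =
            τ ^ 2 * ∑ y ∈ S.erase x, ‖M x y‖ ^ 2 * ‖cf M τ o n y (S.erase y)‖ ^ 2 := by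
          rw [Finset.mul_sum]
          refine Finset.sum_congr rfl fun w _ => ?_
          rw [mul_pow, mul_pow, sq_abs]
          ring
        rw [Finset.card_erase_of_mem hx, hS, Nat.add_sub_cancel, h5]
        ring
      · rw [cR_card M m τ o n x S hS, norm_zero]
        have : 0 ≤ (n : ℝ) * τ ^ 2 * ∑ y ∈ S.erase x,
            ‖M x y‖ ^ 2 * ‖cf M τ o n y (S.erase y)‖ ^ 2 :=
          mul_nonneg (by positivity) (Finset.sum_nonneg fun _ _ => by positivity)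
        simpa using this
    · unfold cR
      rw [if_neg hx]
      simp
  have h2 : ∑ x, ∑ S : Finset Λ, (n : ℝ) * τ ^ 2 * (if x ∈ S then ∑ y ∈ S.erase x,
        ‖M x y‖ ^ 2 * ‖cf M τ o n y (S.erase y)‖ ^ 2 else 0) =
      (n : ℝ) * τ ^ 2 * ∑ S : Finset Λ, ∑ y ∈ S, ∑ x ∈ S.erase y,
        ‖M x y‖ ^ 2 * ‖cf M τ o n y (S.erase y)‖ ^ 2 := by
    rw [Finset.sum_comm, Finset.mul_sum]
    refine Finset.sum_congr rfl fun S _ => ?_
    rw [← Finset.mul_sum]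
    congr 1
    rw [Finset.sum_ite_mem, Finset.univ_inter]
    exact sum_pairs_symm S (fun x y => ‖M x y‖ ^ 2 * ‖cf M τ o n y (S.erase y)‖ ^ 2)
  have h3 := sum_erase (Λ := Λ) (fun y S => ∑ x ∈ S, ‖M x y‖ ^ 2 * ‖cf M τ o n y S‖ ^ 2)
  calc ∑ x, ∑ S : Finset Λ, ‖cR M m τ o n x S‖ ^ 2
      ≤ ∑ x, ∑ S : Finset Λ, (n : ℝ) * τ ^ 2 * (if x ∈ S then ∑ y ∈ S.erase x,
        ‖M x y‖ ^ 2 * ‖cf M τ o n y (S.erase y)‖ ^ 2 else 0) :=
        Finset.sum_le_sum fun x _ => Finset.sum_le_sum fun S _ => h1 x S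
    _ = (n : ℝ) * τ ^ 2 * ∑ y, ∑ S : Finset Λ, (if y ∈ S then 0 else
          ∑ x ∈ S, ‖M x y‖ ^ 2 * ‖cf M τ o n y S‖ ^ 2) := by
        rw [h2]
        congr 1
    _ ≤ (n : ℝ) * τ ^ 2 * ∑ y, ∑ S : Finset Λ, ∑ x ∈ S, ‖M x y‖ ^ 2 * ‖cf M τ o n y S‖ ^ 2 := by
        refine mul_le_mul_of_nonneg_left ?_ (by positivity)
        refine Finset.sum_le_sum fun y _ => Finset.sum_le_sum fun S _ => ?_
        split_ifs
        · exact Finset.sum_nonneg fun _ _ => by positivity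
        · exact le_rfl
    _ = _ := by
        unfold WG
        rw [mul_assoc]
        congr 1
        simp only [Finset.mul_sum]
        refine Finset.sum_congr rfl fun y _ => Finset.sum_congr rfl fun S _ =>
          Finset.sum_congr rfl fun x _ => ?_
        rw [hMs x y]
        ring

end Pool.Agent.Zk11.QD
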