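import Pool.Agent.Zk11.QD.Sol
import Pool.Agent.Zk11.QD.Lim

/-! Transfer to the lattice: deterministic part. -/

set_option autoImplicit false
set_option linter.unusedSectionVars false

open scoped BigOperators Topology
open MeasureTheory Filter

namespace Pool.Agent.Zk11.QD

open Pool.Agent.W788.MFP.Four (T e NN adj adj_neg e_comm e_add_left e_add e_zero e_neg e_neg_left
  e_normSq sum_e NN_pos card_T e_single)

/-- the lattice -/
abbrev Zd (d : ℕ) : Type := Fin d → ℤ

variable {d : ℕ}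

/-- `-Δ + λ V` on the lattice -/
noncomputable def HZ (lam : ℝ) (ω : Zd d → ℝ) (u : Zd d → ℂ) (x : Zd d) : ℂ :=
  -∑ i : Fin d, ((u (x + Pi.single i 1) - u x) + (u (x - Pi.single i 1) - u x)) +
    ((lam * ω x : ℝ) : ℂ) * u x

/-- the Green function -/
structure IsG (lam : ℝ) (ω : Zd d → ℝ) (z : ℂ) (u : Zd d → ℂ) : Prop where
  sq : Summable fun x => ‖u x‖ ^ 2
  eq : ∀ x, HZ lam ω u x - z * u x = if x = 0 then 1 else 0

/-- projection to the torus -/
def pr (L : ℕ) (v : Zd d) : T d L := fun i => (v i : ZMod L)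

/-- representative of smallest absolute value -/
def lift {L : ℕ} (t : T d L) : Zd d := fun i => (t i).valMinAbs

theorem pr_lift {L : ℕ} (t : T d L) : pr L (lift t) = t := by
  funext i
  simp [pr, lift]

theorem pr_add {L : ℕ} (v w : Zd d) : pr L (v + w) = pr L v + pr L w := by
  funext i
  simp [pr]

theorem pr_sub {L : ℕ} (v w : Zd d) : pr L (v - w) = pr L v - pr L w := by
  funext i
  simp [pr]

theorem pr_zero {L : ℕ} : pr L (0 : Zd d) = 0 := by
  funext i
  simp [pr]

theorem pr_single {L : ℕ} (i : Fin d) : pr L (Pi.single i 1 : Zd d) = Pi.single i 1 := by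
  funext j
  unfold pr
  by_cases h : j = i
  · subst h; simp
  · simp [Pi.single_eq_of_ne h]

theorem lift_pr {h : ℕ} (v : Zd d) (hv : ∀ i, |v i| ≤ h) : lift (pr (2 * h + 1) v) = v := by
  funext i
  unfold lift pr
  rw [ZMod.valMinAbs_spec]
  refine ⟨rfl, ?_⟩
  have := abs_le.1 (hv i)
  constructor
  · push_cast; omega
  · push_cast; omega

theorem lift_abs {h : ℕ} (t : T d (2 * h + 1)) (i : Fin d) : |lift t i| ≤ h := by
  unfold lift
  have := (t i).valMinAbs_mem_Ioc
  rw [Set.mem_Ioc] at this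
  push_cast at this
  rw [abs_le]
  constructor
  · omega
  · omega

theorem lift_wrap {h : ℕ} (w : Zd d) (j : Fin d) (hw : |w j| = h + 1) :
    |lift (pr (2 * h + 1) w) j| = h := by
  unfold lift pr
  rcases abs_cases (w j) with ⟨h1, h2⟩ | ⟨h1, h2⟩
  · have hwj : w j = h + 1 := by omega
    have e : ((w j : ℤ) : ZMod (2 * h + 1)).valMinAbs = -(h : ℤ) := by
      rw [ZMod.valMinAbs_spec]
      refine ⟨?_, ?_⟩
      · rw [hwj]
        have : ((2 * h + 1 : ℕ) : ZMod (2 * h + 1)) = 0 := ZMod.natCast_self _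
        push_cast at this ⊢
        linear_combination this
      · constructor
        · push_cast; omega
        · push_cast; omega
    rw [e, abs_neg]
    simp
  · have hwj : w j = -(h + 1) := by omega
    have e : ((w j : ℤ) : ZMod (2 * h + 1)).valMinAbs = (h : ℤ) := by
      rw [ZMod.valMinAbs_spec]
      refine ⟨?_, ?_⟩
      · rw [hwj]
        have : ((2 * h + 1 : ℕ) : ZMod (2 * h + 1)) = 0 := ZMod.natCast_self _
        push_cast at this ⊢
        linear_combination -this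
      · constructor
        · push_cast; omega
        · push_cast; omega
    rw [e]
    simp

theorem lift_inj {L : ℕ} : Function.Injective (lift (d := d) (L := L)) := by
  intro s t hst
  rw [← pr_lift s, ← pr_lift t, hst]

theorem lift_zero_iff {h : ℕ} (t : T d (2 * h + 1)) : lift t = 0 ↔ t = 0 := by
  constructor
  · intro h1
    rw [← pr_lift t, h1, pr_zero]
  · intro h1
    rw [h1]
    funext i
    simp [lift]

/-- far away points -/
def far (h : ℕ) (y : Zd d) : Prop := ∃ i, (h : ℤ) ≤ |y i|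

/-- the far part of a function -/
noncomputable def fp (h : ℕ) (G : Zd d → ℂ) (y : Zd d) : ℂ := by
  classical exact if far h y then G y else 0

theorem nb (h : ℕ) (x : T d (2 * h + 1)) (v : Zd d) (i : Fin d) (hv : v = Pi.single i 1 ∨
    v = -Pi.single i 1) (G : Zd d → ℂ) :
    G (lift x + v) - G (lift (x + pr (2 * h + 1) v)) =
      fp h G (lift x + v) - fp h G (lift (x + pr (2 * h + 1) v)) := by
  classical
  have e1 : x + pr (2 * h + 1) v = pr (2 * h + 1) (lift x + v) := by
    rw [pr_add, pr_lift]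
  rw [e1]
  by_cases hin : ∀ j, |(lift x + v) j| ≤ h
  · rw [lift_pr _ hin, sub_self, sub_self]
  · push Not at hin
    obtain ⟨j, hj⟩ := hin
    have hvi : ∀ k, |v k| ≤ if k = i then 1 else 0 := by
      intro k
      rcases hv with hv | hv
      · rw [hv]
        by_cases hk : k = i
        · subst hk; simp
        · simp [hk]
      · rw [hv]
        by_cases hk : k = i
        · subst hk; simp
        · simp [hk]
    have h1 := lift_abs x j
    have h2 := hvi j
    have h3 : |(lift x + v) j| ≤ |lift x j| + |v j| := abs_add_le _ _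
    have h4 : |(lift x + v) j| = h + 1 := by
      split_ifs at h2 with hji
      · omega
      · omega
    have h5 := lift_wrap (lift x + v) j h4
    have f1 : far h (lift x + v) := ⟨j, by omega⟩
    have f2 : far h (lift (pr (2 * h + 1) (lift x + v))) := ⟨j, by omega⟩
    unfold fp
    rw [if_pos f1, if_pos f2]

theorem fp_le (h : ℕ) (G : Zd d → ℂ) (y : Zd d) : ‖fp h G y‖ ^ 2 ≤ ‖G y‖ ^ 2 := by
  classical
  unfold fp
  split_ifs
  · exact le_rfl
  · rw [norm_zero, zero_pow (by norm_num)]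
    positivity

theorem fp_sum (h : ℕ) (G : Zd d → ℂ) (hG : Summable fun x => ‖G x‖ ^ 2) :
    Summable fun x => ‖fp h G x‖ ^ 2 :=
  Summable.of_nonneg_of_le (fun _ => by positivity) (fp_le h G) hG

theorem fp_inj (h : ℕ) (G : Zd d → ℂ) (hG : Summable fun x => ‖G x‖ ^ 2) {α : Type} [Fintype α]
    (φ : α → Zd d) (hφ : Function.Injective φ) :
    ∑ x, ‖fp h G (φ x)‖ ^ 2 ≤ ∑' y, ‖fp h G y‖ ^ 2 := by
  classical
  have h1 : ∑ x, ‖fp h G (φ x)‖ ^ 2 = ∑ y ∈ Finset.univ.image φ, ‖fp h G y‖ ^ 2 := by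
    rw [Finset.sum_image]
    intro a _ b _ hab
    exact hφ hab
  rw [h1]
  exact (fp_sum h G hG).sum_le_tsum _ (fun _ _ => by positivity)

theorem fp_tail (G : Zd d → ℂ) (hG : Summable fun x => ‖G x‖ ^ 2) :
    Tendsto (fun h : ℕ => ∑' y, ‖fp h G y‖ ^ 2) atTop (𝓝 0) := by
  classical
  have h0 : ∑' _y : Zd d, (0 : ℝ) = 0 := tsum_zero
  rw [← h0]
  refine tendsto_tsum_of_dominated_convergence hG (fun y => ?_) ?_
  · have h1 : ∀ᶠ h : ℕ in atTop, ‖fp h G y‖ ^ 2 = 0 := by
      filter_upwards [eventually_gt_atTop (∑ i, (y i).natAbs)] with h hh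
      have hn : ¬ far h y := by
        rintro ⟨i, hi⟩
        have h2 : (y i).natAbs ≤ ∑ i, (y i).natAbs :=
          Finset.single_le_sum (f := fun i => (y i).natAbs) (fun _ _ => Nat.zero_le _)
            (Finset.mem_univ i)
        rw [Int.abs_eq_natAbs] at hi
        omega
      unfold fp
      rw [if_neg hn, norm_zero]
      norm_num
    exact (tendsto_congr' h1).2 tendsto_const_nhds
  · refine Eventually.of_forall fun h y => ?_
    rw [Real.norm_eq_abs, abs_of_nonneg (by positivity)]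
    exact fp_le h G y

/-- the potential on the torus -/
def VL (h : ℕ) (ω : Zd d → ℝ) (t : T d (2 * h + 1)) : ℝ := ω (lift t)

/-- the boundary term -/
noncomputable def bt (h : ℕ) (G : Zd d → ℂ) (x : T d (2 * h + 1)) : ℂ :=
  ∑ i : Fin d, ((G (lift x + Pi.single i 1) - G (lift (x + Pi.single i 1))) +
    (G (lift x - Pi.single i 1) - G (lift (x - Pi.single i 1))))

theorem Hz_lift (lam : ℝ) (ω : Zd d → ℝ) (z : ℂ) (G : Zd d → ℂ) (hG : IsG lam ω z G) (h : ℕ)
    (x : T d (2 * h + 1)) :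
    Hz z lam (VL h ω) (fun t => G (lift t)) x = (if x = 0 then 1 else 0) + bt h G x := by
  have h1 := hG.eq (lift x)
  have h2 : (if lift x = 0 then (1 : ℂ) else 0) = if x = 0 then 1 else 0 := by
    simp only [lift_zero_iff]
  rw [h2] at h1
  rw [← h1]
  unfold HZ Hz bt VL
  have e1 : ∑ i : Fin d, ((G (lift x + Pi.single i 1) - G (lift x)) +
      (G (lift x - Pi.single i 1) - G (lift x))) =
      ∑ i : Fin d, (G (lift x + Pi.single i 1) + G (lift x - Pi.single i 1)) -
        2 * (d : ℂ) * G (lift x) := by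
    rw [Finset.sum_add_distrib, Finset.sum_sub_distrib, Finset.sum_sub_distrib,
      Finset.sum_add_distrib]
    simp
    ring
  have e2 : ∑ i : Fin d, ((G (lift x + Pi.single i 1) - G (lift (x + Pi.single i 1))) +
      (G (lift x - Pi.single i 1) - G (lift (x - Pi.single i 1)))) =
      ∑ i : Fin d, (G (lift x + Pi.single i 1) + G (lift x - Pi.single i 1)) -
      ∑ i : Fin d, (G (lift (x + Pi.single i 1)) + G (lift (x - Pi.single i 1))) := by
    rw [← Finset.sum_sub_distrib]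
    exact Finset.sum_congr rfl fun i _ => by ring
  rw [e1, e2]
  push_cast
  ring

theorem bt_sq (h : ℕ) (G : Zd d → ℂ) (hG : Summable fun x => ‖G x‖ ^ 2) :
    ∑ x, ‖bt h G x‖ ^ 2 ≤ 16 * (d : ℝ) ^ 2 * ∑' y, ‖fp h G y‖ ^ 2 := by
  set A : ℝ := ∑' y, ‖fp h G y‖ ^ 2 with hA
  -- one neighbour
  have key : ∀ (v : Zd d) (i : Fin d), (v = Pi.single i 1 ∨ v = -Pi.single i 1) →
      ∑ x : T d (2 * h + 1), ‖G (lift x + v) - G (lift (x + pr (2 * h + 1) v))‖ ^ 2 ≤ 4 * A := by
    intro v i hv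
    have h1 : ∀ x : T d (2 * h + 1), ‖G (lift x + v) - G (lift (x + pr (2 * h + 1) v))‖ ^ 2 ≤
        2 * ‖fp h G (lift x + v)‖ ^ 2 + 2 * ‖fp h G (lift (x + pr (2 * h + 1) v))‖ ^ 2 := by
      intro x
      rw [nb h x v i hv G]
      have h2 := norm_sub_le (fp h G (lift x + v)) (fp h G (lift (x + pr (2 * h + 1) v)))
      have h3 := pow_le_pow_left₀ (norm_nonneg _) h2 2
      nlinarith [sq_nonneg (‖fp h G (lift x + v)‖ - ‖fp h G (lift (x + pr (2 * h + 1) v))‖)]
    refine (Finset.sum_le_sum fun x _ => h1 x).trans ?_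
    rw [Finset.sum_add_distrib, ← Finset.mul_sum, ← Finset.mul_sum]
    have h2 := fp_inj h G hG (fun x : T d (2 * h + 1) => lift x + v)
      (fun a b hab => lift_inj (add_right_cancel hab))
    have h3 := fp_inj h G hG (fun x : T d (2 * h + 1) => lift (x + pr (2 * h + 1) v))
      (fun a b hab => add_right_cancel (lift_inj hab))
    linarith
  have hpt : ∀ x : T d (2 * h + 1), ‖bt h G x‖ ^ 2 ≤ 2 * d * ∑ i : Fin d,
      (‖G (lift x + Pi.single i 1) - G (lift (x + Pi.single i 1))‖ ^ 2 +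
        ‖G (lift x - Pi.single i 1) - G (lift (x - Pi.single i 1))‖ ^ 2) := by
    intro x
    unfold bt
    have h1 := norm_sum_le (Finset.univ : Finset (Fin d)) (fun i =>
      ((G (lift x + Pi.single i 1) - G (lift (x + Pi.single i 1))) +
        (G (lift x - Pi.single i 1) - G (lift (x - Pi.single i 1)))))
    refine (pow_le_pow_left₀ (norm_nonneg _) h1 2).trans ?_
    refine (sq_sum_le_card_mul_sum_sq).trans ?_
    rw [Finset.card_univ, Fintype.card_fin, mul_assoc 2, mul_left_comm]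
    refine mul_le_mul_of_nonneg_left ?_ (Nat.cast_nonneg d)
    rw [Finset.mul_sum]
    refine Finset.sum_le_sum fun i _ => ?_
    set a := G (lift x + Pi.single i 1) - G (lift (x + Pi.single i 1))
    set b := G (lift x - Pi.single i 1) - G (lift (x - Pi.single i 1))
    have h3 := pow_le_pow_left₀ (norm_nonneg _) (norm_add_le a b) 2
    nlinarith [sq_nonneg (‖a‖ - ‖b‖)]
  refine (Finset.sum_le_sum fun x _ => hpt x).trans ?_
  rw [← Finset.mul_sum, Finset.sum_comm]
  have h5 : ∀ i : Fin d, ∑ x : T d (2 * h + 1),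
      (‖G (lift x + Pi.single i 1) - G (lift (x + Pi.single i 1))‖ ^ 2 +
        ‖G (lift x - Pi.single i 1) - G (lift (x - Pi.single i 1))‖ ^ 2) ≤ 8 * A := by
    intro i
    rw [Finset.sum_add_distrib]
    have k1 := key (Pi.single i 1) i (Or.inl rfl)
    have k2 := key (-Pi.single i 1) i (Or.inr rfl)
    have e1 : pr (2 * h + 1) (Pi.single i 1 : Zd d) = Pi.single i 1 := pr_single i
    have e2 : pr (2 * h + 1) (-Pi.single i 1 : Zd d) = -Pi.single i 1 := by
      have := pr_sub (L := 2 * h + 1) (0 : Zd d) (Pi.single i 1)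
      rw [zero_sub, pr_zero, zero_sub, e1] at this
      exact this
    rw [e1] at k1
    rw [e2] at k2
    simp only [← sub_eq_add_neg] at k2
    linarith
  calc 2 * (d : ℝ) * ∑ i : Fin d, ∑ x : T d (2 * h + 1),
      (‖G (lift x + Pi.single i 1) - G (lift (x + Pi.single i 1))‖ ^ 2 +
        ‖G (lift x - Pi.single i 1) - G (lift (x - Pi.single i 1))‖ ^ 2) ≤
      2 * (d : ℝ) * ∑ _i : Fin d, 8 * A :=
        mul_le_mul_of_nonneg_left (Finset.sum_le_sum fun i _ => h5 i) (by positivity)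
    _ = _ := by
        rw [Finset.sum_const, Finset.card_univ, Fintype.card_fin, nsmul_eq_mul]
        ring

theorem Hz_sub {L : ℕ} [NeZero L] (z : ℂ) (σ : ℝ) (V : T d L → ℝ) (v w : T d L → ℂ) (x : T d L) :
    Hz z σ V (fun t => v t - w t) x = Hz z σ V v x - Hz z σ V w x := by
  unfold Hz
  have e1 : ∑ i : Fin d, (v (x + Pi.single i 1) - w (x + Pi.single i 1) +
      (v (x - Pi.single i 1) - w (x - Pi.single i 1))) =
      ∑ i : Fin d, (v (x + Pi.single i 1) + v (x - Pi.single i 1)) -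
      ∑ i : Fin d, (w (x + Pi.single i 1) + w (x - Pi.single i 1)) := by
    rw [← Finset.sum_sub_distrib]
    exact Finset.sum_congr rfl fun i _ => by ring
  rw [e1]
  ring

/-- closeness of the Green functions -/
theorem close (lam : ℝ) (ω : Zd d → ℝ) (z : ℂ) (hz : 0 < z.im) (G : Zd d → ℂ)
    (hG : IsG lam ω z G) (h : ℕ) :
    ∑ x : T d (2 * h + 1), ‖G (lift x) - uu z lam (VL h ω) x‖ ^ 2 ≤
      16 * (d : ℝ) ^ 2 / z.im ^ 2 * ∑' y, ‖fp h G y‖ ^ 2 := by
  have h1 := Hz_coercive hz (σ := lam) (VL h ω) (fun t => G (lift t) - uu z lam (VL h ω) t)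
  have h2 : ∀ x, Hz z lam (VL h ω) (fun t => G (lift t) - uu z lam (VL h ω) t) x = bt h G x := by
    intro x
    rw [Hz_sub z lam (VL h ω) (fun t => G (lift t)) (uu z lam (VL h ω)), Hz_lift lam ω z G hG,
      uu_eq z hz]
    ring
  simp only [h2] at h1
  have h3 := h1.trans (bt_sq h G hG.sq)
  rw [div_mul_eq_mul_div, le_div_iff₀ (by positivity), mul_comm]
  exact h3

theorem close_lim (lam : ℝ) (ω : Zd d → ℝ) (z : ℂ) (hz : 0 < z.im) (G : Zd d → ℂ)
    (hG : IsG lam ω z G) :
    Tendsto (fun h : ℕ => ∑ x : T d (2 * h + 1), ‖G (lift x) - uu z lam (VL h ω) x‖ ^ 2) atTop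
      (𝓝 0) := by
  have h1 := (fp_tail G hG.sq).const_mul (16 * (d : ℝ) ^ 2 / z.im ^ 2)
  rw [mul_zero] at h1
  exact squeeze_zero (fun _ => Finset.sum_nonneg fun _ _ => by positivity)
    (fun h => close lam ω z hz G hG h) h1

theorem in_box (y : Zd d) : ∀ᶠ h : ℕ in atTop, ∀ i, |y i| ≤ h := by
  filter_upwards [eventually_ge_atTop (∑ i, (y i).natAbs)] with h hh i
  have h2 : (y i).natAbs ≤ ∑ i, (y i).natAbs :=
    Finset.single_le_sum (f := fun i => (y i).natAbs) (fun _ _ => Nat.zero_le _)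
      (Finset.mem_univ i)
  rw [Int.abs_eq_natAbs]
  omega

/-- pointwise convergence -/
theorem pt_lim (lam : ℝ) (ω : Zd d → ℝ) (z : ℂ) (hz : 0 < z.im) (G : Zd d → ℂ)
    (hG : IsG lam ω z G) (y : Zd d) :
    Tendsto (fun h : ℕ => uu z lam (VL h ω) (pr (2 * h + 1) y)) atTop (𝓝 (G y)) := by
  rw [tendsto_iff_norm_sub_tendsto_zero]
  have h1 := close_lim lam ω z hz G hG
  have h2 : Tendsto (fun h : ℕ => Real.sqrt (∑ x : T d (2 * h + 1),
      ‖G (lift x) - uu z lam (VL h ω) x‖ ^ 2)) atTop (𝓝 0) := by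
    have := (Real.continuous_sqrt.tendsto _).comp h1
    rw [Real.sqrt_zero] at this
    exact this
  refine squeeze_zero' (Eventually.of_forall fun _ => norm_nonneg _) ?_ h2
  filter_upwards [in_box y] with h hh
  apply Real.le_sqrt_of_sq_le
  have h3 := Finset.single_le_sum (f := fun x : T d (2 * h + 1) =>
    ‖G (lift x) - uu z lam (VL h ω) x‖ ^ 2) (fun _ _ => by positivity)
    (Finset.mem_univ (pr (2 * h + 1) y))
  rw [lift_pr y hh] at h3
  rw [norm_sub_rev]
  exact h3

theorem isG_unique (lam : ℝ) (ω : Zd d → ℝ) (z : ℂ) (hz : 0 < z.im) (G G' : Zd d → ℂ)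
    (hG : IsG lam ω z G) (hG' : IsG lam ω z G') : G = G' := by
  funext y
  exact tendsto_nhds_unique (pt_lim lam ω z hz G hG y) (pt_lim lam ω z hz G' hG' y)

/-- sums over the torus as sums over the lattice -/
theorem sum_lift {E : Type} [NormedAddCommGroup E] [NormedSpace ℝ E] (h : ℕ) (F : Zd d → E) :
    ∑ x : T d (2 * h + 1), F (lift x) =
      ∑' y : Zd d, (by classical exact if ∀ i, |y i| ≤ (h : ℤ) then F y else 0) := by
  classical
  have h1 : ∑ x : T d (2 * h + 1), F (lift x) =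
      ∑ y ∈ (Finset.univ : Finset (T d (2 * h + 1))).image lift, F y := by
    rw [Finset.sum_image]
    intro a _ b _ hab
    exact lift_inj hab
  rw [h1, tsum_eq_sum (s := (Finset.univ : Finset (T d (2 * h + 1))).image lift)]
  · refine Finset.sum_congr rfl fun y hy => ?_
    rw [if_pos]
    obtain ⟨t, -, rfl⟩ := Finset.mem_image.1 hy
    exact lift_abs t
  · intro y hy
    rw [if_neg]
    intro h2
    apply hy
    exact Finset.mem_image.2 ⟨pr (2 * h + 1) y, Finset.mem_univ _, lift_pr y h2⟩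

theorem isG_norm (lam : ℝ) (ω : Zd d → ℝ) (z : ℂ) (hz : 0 < z.im) (G : Zd d → ℂ)
    (hG : IsG lam ω z G) : ∑' y, ‖G y‖ ^ 2 ≤ 2 / z.im ^ 2 := by
  classical
  refine hG.sq.tsum_le_of_sum_le fun F => ?_
  have h1 := (close_lim lam ω z hz G hG).const_mul 2
  rw [mul_zero] at h1
  have h2 : Tendsto (fun h : ℕ => 2 * (∑ x : T d (2 * h + 1),
      ‖G (lift x) - uu z lam (VL h ω) x‖ ^ 2) + 2 / z.im ^ 2) atTop (𝓝 (0 + 2 / z.im ^ 2)) :=
    h1.add_const _
  rw [zero_add] at h2
  refine ge_of_tendsto h2 ?_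
  have h3 : ∀ᶠ h : ℕ in atTop, ∀ y ∈ F, ∀ i, |y i| ≤ h := by
    rw [Filter.eventually_all_finset]
    intro y _
    exact in_box y
  filter_upwards [h3] with h hh
  have h4 : ∑ y ∈ F, ‖G y‖ ^ 2 ≤ ∑ x : T d (2 * h + 1), ‖G (lift x)‖ ^ 2 := by
    have h5 : ∑ x : T d (2 * h + 1), ‖G (lift x)‖ ^ 2 =
        ∑ y ∈ (Finset.univ : Finset (T d (2 * h + 1))).image lift, ‖G y‖ ^ 2 := by
      rw [Finset.sum_image]
      intro a _ b _ hab
      exact lift_inj hab
    rw [h5]
    refine Finset.sum_le_sum_of_subset_of_nonneg ?_ (fun _ _ _ => by positivity)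
    intro y hy
    exact Finset.mem_image.2 ⟨pr (2 * h + 1) y, Finset.mem_univ _, lift_pr y (hh y hy)⟩
  refine h4.trans ?_
  have h6 : ∀ x : T d (2 * h + 1), ‖G (lift x)‖ ^ 2 ≤
      2 * ‖G (lift x) - uu z lam (VL h ω) x‖ ^ 2 + 2 * ‖uu z lam (VL h ω) x‖ ^ 2 := by
    intro x
    have h7 : G (lift x) = (G (lift x) - uu z lam (VL h ω) x) + uu z lam (VL h ω) x := by ring
    have h8 := norm_add_le (G (lift x) - uu z lam (VL h ω) x) (uu z lam (VL h ω) x)
    rw [← h7] at h8
    have h9 := pow_le_pow_left₀ (norm_nonneg _) h8 2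
    nlinarith [sq_nonneg (‖G (lift x) - uu z lam (VL h ω) x‖ - ‖uu z lam (VL h ω) x‖)]
  refine (Finset.sum_le_sum fun x _ => h6 x).trans ?_
  rw [Finset.sum_add_distrib, ← Finset.mul_sum, ← Finset.mul_sum]
  have h10 := uu_norm z hz lam (VL h ω)
  have h11 : 2 / z.im ^ 2 = 2 * (1 / z.im ^ 2) := by ring
  rw [h11]
  linarith

/-- existence -/
theorem isG_exists (lam : ℝ) (ω : Zd d → ℝ) (z : ℂ) (hz : 0 < z.im) :
    ∃ G : Zd d → ℂ, IsG lam ω z G := by
  classical
  set U : ℕ → Zd d → ℂ := fun h y => uu z lam (VL h ω) (pr (2 * h + 1) y) with hU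
  have hb : ∀ h y, ‖U h y‖ ≤ 1 / z.im := by
    intro h y
    have h1 := uu_norm z hz lam (VL h ω)
    have h2 := (Finset.single_le_sum (f := fun x : T d (2 * h + 1) => ‖uu z lam (VL h ω) x‖ ^ 2)
      (fun _ _ => by positivity) (Finset.mem_univ (pr (2 * h + 1) y))).trans h1
    have h3 : ‖U h y‖ ^ 2 ≤ (1 / z.im) ^ 2 := by
      rw [div_pow, one_pow]
      exact h2
    exact le_of_sq_le_sq h3 (by positivity)
  set K : Set (Zd d → ℂ) := Set.pi Set.univ fun _ => Metric.closedBall (0 : ℂ) (1 / z.im) with hK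
  have hKc : IsCompact K := isCompact_univ_pi fun _ => isCompact_closedBall _ _
  have hUK : ∀ h, U h ∈ K := by
    intro h y _
    rw [mem_closedBall_zero_iff]
    exact hb h y
  set 𝒰 : Ultrafilter ℕ := Ultrafilter.of atTop with h𝒰
  have h𝒰le : (𝒰 : Filter ℕ) ≤ atTop := Ultrafilter.of_le atTop
  obtain ⟨G, -, hG⟩ := hKc.ultrafilter_le_nhds (𝒰.map U) (by
    rw [Filter.le_principal_iff]
    exact Ultrafilter.mem_map.2 (Filter.univ_mem' hUK))
  have hGt : Tendsto U 𝒰 (𝓝 G) := hG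
  have hpt : ∀ y, Tendsto (fun h => U h y) 𝒰 (𝓝 (G y)) := fun y => (tendsto_pi_nhds.1 hGt) y
  refine ⟨G, ?_, ?_⟩
  · refine summable_of_sum_le (c := 1 / z.im ^ 2) (fun _ => by positivity) fun F => ?_
    have h1 : Tendsto (fun h => ∑ y ∈ F, ‖U h y‖ ^ 2) 𝒰 (𝓝 (∑ y ∈ F, ‖G y‖ ^ 2)) :=
      tendsto_finsetSum _ fun y _ => (hpt y).norm.pow 2
    refine le_of_tendsto h1 ?_
    have h3 : ∀ᶠ h : ℕ in atTop, ∀ y ∈ F, ∀ i, |y i| ≤ h := by
      rw [Filter.eventually_all_finset]
      intro y _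
      exact in_box y
    filter_upwards [h𝒰le h3] with h hh
    have h4 : ∑ y ∈ F, ‖U h y‖ ^ 2 = ∑ x ∈ F.image (pr (2 * h + 1)),
        ‖uu z lam (VL h ω) x‖ ^ 2 := by
      rw [Finset.sum_image]
      intro a ha b hb hab
      have h5 := congrArg lift hab
      rwa [lift_pr a (hh a ha), lift_pr b (hh b hb)] at h5
    rw [h4]
    refine le_trans ?_ (uu_norm z hz lam (VL h ω))
    exact Finset.sum_le_sum_of_subset_of_nonneg (Finset.subset_univ _)
      (fun _ _ _ => by positivity)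
  · intro x
    have h1 : Tendsto (fun h => HZ lam ω (U h) x - z * U h x) 𝒰
        (𝓝 (HZ lam ω G x - z * G x)) := by
      unfold HZ
      refine ((tendsto_finsetSum _ fun i _ => ?_).neg.add ((hpt x).const_mul _)).sub
        ((hpt x).const_mul _)
      exact ((hpt _).sub (hpt _)).add ((hpt _).sub (hpt _))
    refine tendsto_nhds_unique h1 ?_
    refine (tendsto_congr' ?_).2 tendsto_const_nhds
    have h3 : ∀ᶠ h : ℕ in atTop, ∀ i, |x i| ≤ h := in_box x
    filter_upwards [h𝒰le h3] with h hh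
    have h4 := uu_eq z hz lam (VL h ω) (pr (2 * h + 1) x)
    have h5 : (if pr (2 * h + 1) x = 0 then (1 : ℂ) else 0) = if x = 0 then 1 else 0 := by
      have : pr (2 * h + 1) x = 0 ↔ x = 0 := by
        rw [← lift_zero_iff, lift_pr x hh]
      simp only [this]
    rw [← h5, ← h4]
    unfold HZ Hz VL
    rw [lift_pr x hh]
    have e3 : ∀ i : Fin d, U h (x + Pi.single i 1) =
        uu z lam (VL h ω) (pr (2 * h + 1) x + Pi.single i 1) := by
      intro i
      simp only [hU]
      rw [pr_add, pr_single]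
    have e4 : ∀ i : Fin d, U h (x - Pi.single i 1) =
        uu z lam (VL h ω) (pr (2 * h + 1) x - Pi.single i 1) := by
      intro i
      simp only [hU]
      rw [pr_sub, pr_single]
    simp only [e3, e4]
    have e1 : ∑ i : Fin d, ((uu z lam (VL h ω) (pr (2 * h + 1) x + Pi.single i 1) - U h x) +
        (uu z lam (VL h ω) (pr (2 * h + 1) x - Pi.single i 1) - U h x)) =
        ∑ i : Fin d, (uu z lam (VL h ω) (pr (2 * h + 1) x + Pi.single i 1) +
          uu z lam (VL h ω) (pr (2 * h + 1) x - Pi.single i 1)) - 2 * (d : ℂ) * U h x := by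
      rw [Finset.sum_add_distrib, Finset.sum_sub_distrib, Finset.sum_sub_distrib,
        Finset.sum_add_distrib]
      simp
      ring
    rw [e1]
    simp only [hU]
    unfold VL
    push_cast
    ring

end Pool.Agent.Zk11.QD
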